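import Pool.Agent.H21.MT.Abel

/-!
MP_8923e7_nt, project MT.  The Gaussian weights in the logarithm (definitions).

`gw x n = exp(-(log(n/x))^2/2)` (primes), `wN x N = exp(-(log(N/x))^2/4)` (integers), window
`√x < N ≤ x^2`.
-/

namespace Pool.Agent.H21.MT

open Finset Filter

/-- Gaussian weight for the primes -/
noncomputable def gw (x : ℝ) (n : ℕ) : ℝ := Real.exp (-(Real.log (n / x)) ^ 2 / 2)

/-- Gaussian weight for the integers -/
noncomputable def wN (x : ℝ) (n : ℕ) : ℝ := Real.exp (-(Real.log (n / x)) ^ 2 / 4)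

/-- the window -/
noncomputable def Win (x : ℝ) : Finset ℕ := Ioc ⌊Real.sqrt x⌋₊ ⌊x ^ 2⌋₊

theorem gw_le_one (x : ℝ) (n : ℕ) : gw x n ≤ 1 := by
  unfold gw
  rw [Real.exp_le_one_iff]
  have := sq_nonneg (Real.log (n / x))
  linarith

theorem wN_le_one (x : ℝ) (n : ℕ) : wN x n ≤ 1 := by
  unfold wN
  rw [Real.exp_le_one_iff]
  have := sq_nonneg (Real.log (n / x))
  linarith

theorem gw_pos (x : ℝ) (n : ℕ) : 0 < gw x n := Real.exp_pos _

theorem wN_pos (x : ℝ) (n : ℕ) : 0 < wN x n := Real.exp_pos _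

end Pool.Agent.H21.MT
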