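import Pool.Agent.H21.MT.Lab

/-!
MP_8923e7_nt, project MT.  The product profile (definition).
-/

set_option linter.unusedSectionVars false

namespace Pool.Agent.H21.MT

open Finset

variable {ι I : Type} [Fintype ι] [DecidableEq ι] [Fintype I] [DecidableEq I]

/-- product profile with cut-off -/
noncomputable def FF (P : ι → ℕ) (g : I → ℕ → ℝ) (R : ℝ) (s : ι → Option I) : ℝ :=
  (∏ i, g i (lab P s i)) * (if (tot P s : ℝ) ≤ R then 1 else 0)

end Pool.Agent.H21.MT
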