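import Pool.Agent.H21.MT.Dat
import Pool.Agent.H5.PNT.PNT

/-!
[H21 MT MMLOW]  Lower bound for the main term.

Proof.  The primes in `(x/2, x]` have `gw ≥ exp(-(log 2)^2/2) ≥ 3/4` and
`(log p)^{J+1} ≥ (log p) (log(x/2))^J ≥ (log p) (log x)^J / 2` for large `x`.  By the prime number
theorem (`Pool.Agent.H5.PNT`, `theta_ap` with `q = 1` or the version of the prime number theorem
there) `∑_{x/2 < p ≤ x} log p ≥ x/4` for large `x`.  So `MM ≥ (3/4)(1/2)(x/4)(log x)^J ≥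
x (log x)^J/20`.
-/

namespace Pool.Agent.H21.MT

open Finset Filter

private theorem mml_pow (J : ℕ) : ∀ᶠ x : ℝ in atTop,
    (1 / 2) * (Real.log x) ^ J ≤ (Real.log (x / 2)) ^ J := by
  have h1 : Tendsto (fun x : ℝ => (1 - Real.log 2 / Real.log x) ^ J) atTop
      (nhds ((1 - 0 : ℝ) ^ J)) :=
    (tendsto_const_nhds.sub (tendsto_const_nhds.div_atTop Real.tendsto_log_atTop)).pow J
  rw [sub_zero, one_pow] at h1
  filter_upwards [h1.eventually (eventually_gt_nhds (by norm_num : (1 / 2 : ℝ) < 1)),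
    Real.tendsto_log_atTop.eventually_gt_atTop (0 : ℝ), eventually_gt_atTop (0 : ℝ)]
    with x hx hL hx0
  have e1 : Real.log (x / 2) = (1 - Real.log 2 / Real.log x) * Real.log x := by
    rw [Real.log_div hx0.ne' (by norm_num), sub_mul, one_mul, div_mul_cancel₀ _ hL.ne']
  rw [e1, mul_pow]
  exact mul_le_mul_of_nonneg_right hx.le (by positivity)

private theorem mml_vp_nonneg (J : ℕ) (x : ℝ) (p : ℕ) : 0 ≤ vp J x p := by
  unfold vp
  have h1 : 0 ≤ Real.log (p : ℝ) := Real.log_natCast_nonneg p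
  have h2 := (gw_pos x p).le
  positivity

private theorem mml_gw (x : ℝ) (hx : 0 < x) (p : ℕ) (h1 : x / 2 < p) (h2 : (p : ℝ) ≤ x) :
    3 / 4 ≤ gw x p := by
  unfold gw
  have hp : (0 : ℝ) < p := by linarith
  have h3 : Real.log ((p : ℝ) / x) ≤ 0 := by
    apply Real.log_nonpos (by positivity)
    rw [div_le_one hx]
    exact h2
  have h4 : -Real.log 2 ≤ Real.log ((p : ℝ) / x) := by
    rw [← Real.log_inv]
    apply Real.log_le_log (by norm_num)
    rw [le_div_iff₀ hx]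
    linarith
  have h5 := Real.log_two_lt_d9
  have h6 := Real.add_one_le_exp (-(Real.log ((p : ℝ) / x)) ^ 2 / 2)
  nlinarith

theorem mm_lower (J : ℕ) : ∀ᶠ x : ℝ in atTop, x * (Real.log x) ^ J / 20 ≤ MM J x := by
  have hth := Pool.Agent.H5.PNT.theta_tendsto
  have h1 : ∀ᶠ x : ℝ in atTop, 9 / 10 < Chebyshev.theta x / x :=
    hth.eventually (eventually_gt_nhds (by norm_num))
  have h2 : ∀ᶠ x : ℝ in atTop, Chebyshev.theta (x / 2) / (x / 2) < 11 / 10 :=
    (tendsto_id.atTop_div_const (by norm_num : (0 : ℝ) < 2)).eventually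
      (hth.eventually (eventually_lt_nhds (by norm_num)))
  filter_upwards [h1, h2, mml_pow J, eventually_ge_atTop (4 : ℝ)] with x hx1 hx2 hx3 hx4
  have hx0 : 0 < x := by linarith
  have hL0 : 0 ≤ Real.log x := Real.log_nonneg (by linarith)
  rw [lt_div_iff₀ hx0] at hx1
  rw [div_lt_iff₀ (by linarith)] at hx2
  have hfl : ⌊x / 2⌋₊ ≤ ⌊x⌋₊ := Nat.floor_mono (by linarith)
  have hsplit : Chebyshev.theta (x / 2) +
      ∑ p ∈ (Ioc ⌊x / 2⌋₊ ⌊x⌋₊).filter Nat.Prime, Real.log (p : ℝ) = Chebyshev.theta x := by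
    unfold Chebyshev.theta
    rw [Finset.sum_filter, Finset.sum_filter, Finset.sum_filter]
    exact Finset.sum_Ioc_consecutive _ (Nat.zero_le _) hfl
  have hsub : (Ioc ⌊x / 2⌋₊ ⌊x⌋₊).filter Nat.Prime ⊆ Wp x := by
    unfold Wp
    apply Finset.filter_subset_filter
    intro n hn
    rw [Finset.mem_Ioc] at hn
    rw [Finset.mem_Icc]
    refine ⟨by omega, hn.2.trans (Nat.floor_mono ?_)⟩
    nlinarith [sq_nonneg x, mul_pos hx0 hx0]
  have hmain : ∑ p ∈ (Ioc ⌊x / 2⌋₊ ⌊x⌋₊).filter Nat.Prime, 3 / 8 * (Real.log x) ^ J * Real.log (p : ℝ) ≤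
      MM J x := by
    unfold MM
    refine le_trans (Finset.sum_le_sum fun p hp => ?_)
      (Finset.sum_le_sum_of_subset_of_nonneg hsub fun p _ _ => mml_vp_nonneg J x p)
    rw [Finset.mem_filter, Finset.mem_Ioc] at hp
    have hp1 : x / 2 < p := Nat.lt_of_floor_lt hp.1.1
    have hp2 : (p : ℝ) ≤ x := (Nat.le_floor_iff hx0.le).1 hp.1.2
    have hg := mml_gw x hx0 p hp1 hp2
    have hlp : 0 ≤ Real.log (p : ℝ) := Real.log_natCast_nonneg p
    have hlp2 : Real.log (x / 2) ≤ Real.log (p : ℝ) := Real.log_le_log (by linarith) hp1.le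
    have hlx2 : 0 ≤ Real.log (x / 2) := Real.log_nonneg (by linarith)
    have hpw : (Real.log (x / 2)) ^ J ≤ (Real.log (p : ℝ)) ^ J := pow_le_pow_left₀ hlx2 hlp2 J
    unfold vp
    rw [pow_succ]
    have hA : 1 / 2 * (Real.log x) ^ J * Real.log (p : ℝ) ≤ (Real.log (p : ℝ)) ^ J * Real.log (p : ℝ) :=
      mul_le_mul_of_nonneg_right (hx3.trans hpw) hlp
    have hB : 0 ≤ 1 / 2 * (Real.log x) ^ J * Real.log (p : ℝ) := by positivity
    calc 3 / 8 * (Real.log x) ^ J * Real.log (p : ℝ)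
        = (1 / 2 * (Real.log x) ^ J * Real.log (p : ℝ)) * (3 / 4) := by ring
      _ ≤ ((Real.log (p : ℝ)) ^ J * Real.log (p : ℝ)) * gw x p :=
        mul_le_mul hA hg (by norm_num) (hB.trans hA)
  rw [← Finset.mul_sum] at hmain
  have hS : x * (35 / 100) ≤ ∑ p ∈ (Ioc ⌊x / 2⌋₊ ⌊x⌋₊).filter Nat.Prime, Real.log (p : ℝ) := by
    linarith
  have hLJ : 0 ≤ (Real.log x) ^ J := by positivity
  refine le_trans ?_ hmain
  have := mul_le_mul_of_nonneg_left hS (by positivity : 0 ≤ 3 / 8 * (Real.log x) ^ J)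
  nlinarith [mul_nonneg hx0.le hLJ]

end Pool.Agent.H21.MT
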