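import Pool.Agent.H21.MT.Cond

/-!
[H21 MT ORTH]  Residue classes and characters.

Proof.  `DirichletCharacter.sum_char_inv_mul_char_eq` (orthogonality): for `a` coprime to `q`,
`[n ≡ a (q)] = (1/φ(q)) ∑_χ χ(a)⁻¹ χ(n)`.  The principal character gives
`(1/φ(q)) ∑_{(n,q)=1} wt J x n`, the others at most `Eq1`.
-/

namespace Pool.Agent.H21.MT

open Finset Filter

theorem orth (J : ℕ) (x : ℝ) (q : ℕ) (hq : 1 ≤ q) (a : ℤ) (ha : IsCoprime a (q : ℤ)) :
    |∑ n ∈ (Icc 1 ⌊x ^ 3⌋₊).filter (fun n : ℕ => (q : ℤ) ∣ (n : ℤ) - a), wt J x n -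
      (∑ n ∈ (Icc 1 ⌊x ^ 3⌋₊).filter (fun n : ℕ => n.Coprime q), wt J x n) / q.totient| ≤
    Eq1 J x q := by
  classical
  have hq0 : q ≠ 0 := by omega
  have : NeZero q := ⟨hq0⟩
  set N := ⌊x ^ 3⌋₊ with hN
  have hphi : (0 : ℝ) < q.totient := by
    have := Nat.totient_pos.mpr (by omega : 0 < q)
    exact_mod_cast this
  have hunit : IsUnit ((a : ℤ) : ZMod q) := by
    rw [ZMod.coe_int_isUnit_iff_isCoprime]
    exact ha.symm
  have hmem : ∀ n : ℕ, ((q : ℤ) ∣ (n : ℤ) - a) ↔ ((a : ℤ) : ZMod q) = ((n : ℕ) : ZMod q) := by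
    intro n
    rw [← ZMod.intCast_zmod_eq_zero_iff_dvd]
    push_cast
    rw [sub_eq_zero, eq_comm]
  have hcop : ∀ n : ℕ, (1 : DirichletCharacter ℂ q) (n : ZMod q) =
      if n.Coprime q then 1 else 0 := by
    intro n
    split_ifs with h
    · exact MulChar.one_apply ((ZMod.isUnit_iff_coprime n q).mpr h)
    · exact MulChar.map_nonunit _ (fun hu => h ((ZMod.isUnit_iff_coprime n q).mp hu))
  have hkey : ∀ n : ℕ, (q.totient : ℂ) * (if (q : ℤ) ∣ (n : ℤ) - a then 1 else 0) =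
      ∑ χ : DirichletCharacter ℂ q, χ (((a : ℤ) : ZMod q)⁻¹) * χ (n : ZMod q) := by
    intro n
    rw [DirichletCharacter.sum_char_inv_mul_char_eq ℂ hunit]
    by_cases h : (q : ℤ) ∣ (n : ℤ) - a
    · rw [if_pos h, if_pos ((hmem n).mp h), mul_one]
    · rw [if_neg h, if_neg (fun h' => h ((hmem n).mpr h')), mul_zero]
  have hinv : (1 : DirichletCharacter ℂ q) (((a : ℤ) : ZMod q)⁻¹) = 1 := by
    apply MulChar.one_apply
    exact ZMod.isUnit_inv hunit 
  have hsum1 : (q.totient : ℂ) * ((∑ n ∈ (Icc 1 N).filter (fun n : ℕ => (q : ℤ) ∣ (n : ℤ) - a),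
      wt J x n : ℝ) : ℂ) = ∑ χ : DirichletCharacter ℂ q, χ (((a : ℤ) : ZMod q)⁻¹) * Psi J x χ := by
    rw [Finset.sum_filter, Complex.ofReal_sum, Finset.mul_sum]
    unfold Psi
    simp_rw [Finset.mul_sum]
    rw [Finset.sum_comm]
    refine Finset.sum_congr rfl fun n _ => ?_
    have h1 : ∑ χ : DirichletCharacter ℂ q, χ (((a : ℤ) : ZMod q)⁻¹) *
        (((wt J x n : ℝ) : ℂ) * χ (n : ZMod q)) =
        (∑ χ : DirichletCharacter ℂ q, χ (((a : ℤ) : ZMod q)⁻¹) * χ (n : ZMod q)) *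
          ((wt J x n : ℝ) : ℂ) := by
      rw [Finset.sum_mul]
      refine Finset.sum_congr rfl fun χ _ => ?_
      ring
    rw [h1, ← hkey n]
    split_ifs with h
    · ring
    · push_cast; ring
  have hsum2 : Psi J x (1 : DirichletCharacter ℂ q) =
      ((∑ n ∈ (Icc 1 N).filter (fun n : ℕ => n.Coprime q), wt J x n : ℝ) : ℂ) := by
    unfold Psi
    rw [Finset.sum_filter, Complex.ofReal_sum]
    refine Finset.sum_congr rfl fun n _ => ?_
    rw [hcop n]
    split_ifs with h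
    · ring
    · push_cast; ring
  set A : ℝ := ∑ n ∈ (Icc 1 N).filter (fun n : ℕ => (q : ℤ) ∣ (n : ℤ) - a), wt J x n with hA
  set B : ℝ := ∑ n ∈ (Icc 1 N).filter (fun n : ℕ => n.Coprime q), wt J x n with hB
  have hsplit : ∑ χ : DirichletCharacter ℂ q, χ (((a : ℤ) : ZMod q)⁻¹) * Psi J x χ =
      (B : ℂ) + ∑ χ ∈ (univ : Finset (DirichletCharacter ℂ q)).filter (fun χ => χ ≠ 1),
        χ (((a : ℤ) : ZMod q)⁻¹) * Psi J x χ := by
    rw [← Finset.sum_filter_add_sum_filter_not (univ : Finset (DirichletCharacter ℂ q))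
      (fun χ => χ = 1)]
    congr 1
    rw [Finset.filter_eq' univ (1 : DirichletCharacter ℂ q), if_pos (Finset.mem_univ _),
      Finset.sum_singleton, hinv, one_mul, hsum2]
  have hdiff : (q.totient : ℂ) * ((A - B / q.totient : ℝ) : ℂ) =
      ∑ χ ∈ (univ : Finset (DirichletCharacter ℂ q)).filter (fun χ => χ ≠ 1),
        χ (((a : ℤ) : ZMod q)⁻¹) * Psi J x χ := by
    have h2 : (q.totient : ℂ) ≠ 0 := by
      have := Nat.totient_pos.mpr (by omega : 0 < q)
      exact_mod_cast this.ne'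
    have h3 := hsum1.trans hsplit
    have h4 : (q.totient : ℂ) * ((A - B / q.totient : ℝ) : ℂ) =
        (q.totient : ℂ) * (A : ℂ) - (B : ℂ) := by
      push_cast
      field_simp
    rw [h4, h3]
    ring
  have hnorm : (q.totient : ℝ) * |A - B / q.totient| ≤
      ∑ χ ∈ (univ : Finset (DirichletCharacter ℂ q)).filter (fun χ => χ ≠ 1), ‖Psi J x χ‖ := by
    have h5 : (q.totient : ℝ) * |A - B / q.totient| =
        ‖(q.totient : ℂ) * ((A - B / q.totient : ℝ) : ℂ)‖ := by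
      rw [norm_mul, Complex.norm_natCast, Complex.norm_real, Real.norm_eq_abs]
    rw [h5, hdiff]
    refine (norm_sum_le _ _).trans (Finset.sum_le_sum fun χ _ => ?_)
    rw [norm_mul]
    have h6 := DirichletCharacter.norm_le_one χ (((a : ℤ) : ZMod q)⁻¹)
    have h7 := norm_nonneg (Psi J x χ)
    nlinarith
  have hE : Eq1 J x q = (1 / (q.totient : ℝ)) *
      ∑ χ ∈ (univ : Finset (DirichletCharacter ℂ q)).filter (fun χ => χ ≠ 1), ‖Psi J x χ‖ := by
    unfold Eq1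
    rw [dif_neg hq0]
  rw [hE, one_div, inv_mul_eq_div, le_div_iff₀ hphi, mul_comm]
  exact hnorm

end Pool.Agent.H21.MT
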