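import Mathlib

/-!
[H21 MT ABEL]  Abel summation inequality and unimodal weights.

Proofs.
* `abel_le`: `∑_{m<k<=n} a k g k = S(n) g(n) - ∑_{m<k<n} S(k) (g(k+1) - g(k))`, `S(k) = ∑_{m<j<=k} a j`
  (`Finset.sum_by_parts` or induction on `n`).
* `tv_unimodal`: `g` is nondecreasing on `(m, t]` and nonincreasing on `[t+1, n]`; the two telescoping
  sums are `≤ B` each, the middle step is `≤ B`.
* `ap_count`: the partial sums of `a k = [k % q = c % q] - 1/q` over `(m,n]` have absolute value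
  `≤ 1` (number of `k` in `(m,n]` in a residue class is within `1` of `(n-m)/q`:
  `Nat.Ioc_filter_modEq_card` or `Nat.count_modEq_card`).
-/

namespace Pool.Agent.H21.MT

open Finset

theorem abel_eq (a : ℕ → ℂ) (g : ℕ → ℝ) (m n : ℕ) (hmn : m < n) :
    ∑ k ∈ Ioc m n, a k * (g k : ℂ) = (∑ j ∈ Ioc m n, a j) * (g n : ℂ) -
      ∑ k ∈ Ico (m + 1) n, (∑ j ∈ Ioc m k, a j) * ((g (k + 1) - g k : ℝ) : ℂ) := by
  induction n, hmn using Nat.le_induction with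
  | base =>
    rw [show Ioc m m.succ = {m + 1} by ext k; simp, show Ico (m + 1) m.succ = ∅ by simp]
    simp
  | succ n hmn ih =>
    have h1 : Ioc m (n + 1) = insert (n + 1) (Ioc m n) := by ext k; simp; omega
    have h2 : (n + 1) ∉ Ioc m n := by simp
    rw [h1, sum_insert h2, sum_insert h2, ih, sum_Ico_succ_top hmn]
    push_cast
    ring

theorem Ioo_eq_Ico (m n : ℕ) : Ioo m n = Ico (m + 1) n := by ext k; simp

theorem abel_le (a : ℕ → ℂ) (g : ℕ → ℝ) (B : ℝ) (m n : ℕ)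
    (hB : ∀ k ≤ n, ‖∑ j ∈ Ioc m k, a j‖ ≤ B) (hB0 : 0 ≤ B) (hmn : m ≤ n) :
    ‖∑ k ∈ Ioc m n, a k * (g k : ℂ)‖ ≤
      B * (|g n| + ∑ k ∈ Ioo m n, |g (k + 1) - g k|) := by
  rcases hmn.eq_or_lt with rfl | hlt
  · simp only [Ioc_self, sum_empty, norm_zero]
    positivity
  rw [abel_eq a g m n hlt, Ioo_eq_Ico]
  refine (norm_sub_le _ _).trans ?_
  rw [mul_add]
  refine add_le_add ?_ ?_
  · rw [norm_mul, Complex.norm_real, Real.norm_eq_abs]
    exact mul_le_mul_of_nonneg_right (hB n le_rfl) (abs_nonneg _)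
  · rw [mul_sum]
    refine (norm_sum_le _ _).trans (sum_le_sum fun k hk => ?_)
    rw [norm_mul, Complex.norm_real, Real.norm_eq_abs]
    exact mul_le_mul_of_nonneg_right (hB k (mem_Ico.1 hk).2.le) (abs_nonneg _)

theorem mono_tv (g : ℕ → ℝ) (B : ℝ) (h0 : ∀ k, 0 ≤ g k) (hB : ∀ k, g k ≤ B) (p q : ℕ)
    (h : ∀ k, p ≤ k → k < q → g k ≤ g (k + 1)) : ∑ k ∈ Ico p q, |g (k + 1) - g k| ≤ B := by
  rcases le_total q p with hqp | hpq
  · rw [Ico_eq_empty_of_le hqp, sum_empty]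
    exact (h0 0).trans (hB 0)
  · have h1 : ∑ k ∈ Ico p q, |g (k + 1) - g k| = ∑ k ∈ Ico p q, (g (k + 1) - g k) :=
      sum_congr rfl fun k hk => abs_of_nonneg (by
        have := h k (mem_Ico.1 hk).1 (mem_Ico.1 hk).2; linarith)
    have h2 : ∑ k ∈ Ico p q, (g (k + 1) - g k) = g q - g p := by
      rw [sum_Ico_eq_sub _ hpq, sum_range_sub, sum_range_sub]; ring
    rw [h1, h2]
    linarith [h0 p, hB q]

theorem anti_tv (g : ℕ → ℝ) (B : ℝ) (h0 : ∀ k, 0 ≤ g k) (hB : ∀ k, g k ≤ B) (p q : ℕ)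
    (h : ∀ k, p ≤ k → k < q → g (k + 1) ≤ g k) : ∑ k ∈ Ico p q, |g (k + 1) - g k| ≤ B := by
  rcases le_total q p with hqp | hpq
  · rw [Ico_eq_empty_of_le hqp, sum_empty]
    exact (h0 0).trans (hB 0)
  · have h1 : ∑ k ∈ Ico p q, |g (k + 1) - g k| = -∑ k ∈ Ico p q, (g (k + 1) - g k) := by
      rw [← sum_neg_distrib]
      exact sum_congr rfl fun k hk => abs_of_nonpos (by
        have := h k (mem_Ico.1 hk).1 (mem_Ico.1 hk).2; linarith)
    have h2 : ∑ k ∈ Ico p q, (g (k + 1) - g k) = g q - g p := by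
      rw [sum_Ico_eq_sub _ hpq, sum_range_sub, sum_range_sub]; ring
    rw [h1, h2]
    linarith [h0 q, hB p]

theorem tv_unimodal (g : ℕ → ℝ) (m t n : ℕ) (B : ℝ) (h0 : ∀ k, 0 ≤ g k) (hB : ∀ k, g k ≤ B)
    (h1 : ∀ k, m < k → k < t → g k ≤ g (k + 1)) (h2 : ∀ k, t < k → k < n → g (k + 1) ≤ g k) :
    ∑ k ∈ Ioo m n, |g (k + 1) - g k| ≤ 3 * B := by
  have hA := mono_tv g B h0 hB (m + 1) (min t n)
    (fun k hk hk' => h1 k (by omega) (by omega))
  have hC := anti_tv g B h0 hB (max m t + 1) n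
    (fun k hk hk' => h2 k (by omega) (by omega))
  have hT : ∑ k ∈ {t}, |g (k + 1) - g k| ≤ B := by
    rw [sum_singleton, abs_le]
    constructor <;> linarith [h0 t, h0 (t + 1), hB t, hB (t + 1)]
  have hsub : Ioo m n ⊆ Ico (m + 1) (min t n) ∪ ({t} ∪ Ico (max m t + 1) n) := by
    intro k hk
    rw [mem_Ioo] at hk
    rw [mem_union, mem_union, mem_Ico, mem_singleton, mem_Ico]
    omega
  have hU : ∀ s u : Finset ℕ, ∑ k ∈ s ∪ u, |g (k + 1) - g k| ≤
      ∑ k ∈ s, |g (k + 1) - g k| + ∑ k ∈ u, |g (k + 1) - g k| := by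
    intro s u
    rw [← sum_union_inter]
    exact le_add_of_nonneg_right (sum_nonneg fun k _ => abs_nonneg _)
  calc ∑ k ∈ Ioo m n, |g (k + 1) - g k|
      ≤ ∑ k ∈ Ico (m + 1) (min t n) ∪ ({t} ∪ Ico (max m t + 1) n), |g (k + 1) - g k| :=
        sum_le_sum_of_subset_of_nonneg hsub fun k _ _ => abs_nonneg _
    _ ≤ ∑ k ∈ Ico (m + 1) (min t n), |g (k + 1) - g k| +
        (∑ k ∈ {t}, |g (k + 1) - g k| + ∑ k ∈ Ico (max m t + 1) n, |g (k + 1) - g k|) :=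
        (hU _ _).trans (by linarith [hU {t} (Ico (max m t + 1) n)])
    _ ≤ 3 * B := by linarith

theorem ap_count (m k q c : ℕ) (hq : 0 < q) :
    |(((Ioc m k).filter (fun j => j % q = c % q)).card : ℝ) - ((Ioc m k).card : ℝ) / q| ≤ 1 := by
  rcases le_total k m with hkm | hmk
  · rw [Ioc_eq_empty_of_le hkm]
    simp
  have h1 : (((Ioc m k).filter (fun j => j ≡ c [MOD q])).card : ℤ) =
      max (⌊((k : ℚ) - c) / q⌋ - ⌊((m : ℚ) - c) / q⌋) 0 := Nat.Ioc_filter_modEq_card m k hq c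
  have h2 : ((Ioc m k).filter (fun j => j % q = c % q)) =
      ((Ioc m k).filter (fun j => j ≡ c [MOD q])) := rfl
  rw [h2]
  have hq' : (0 : ℚ) < q := by exact_mod_cast hq
  have hmono : ⌊((m : ℚ) - c) / q⌋ ≤ ⌊((k : ℚ) - c) / q⌋ := by
    apply Int.floor_le_floor
    have : (m : ℚ) ≤ k := by exact_mod_cast hmk
    gcongr
  rw [max_eq_left (by linarith)] at h1
  have e1 := Int.floor_le (((k : ℚ) - c) / q)
  have e2 := Int.lt_floor_add_one (((k : ℚ) - c) / q)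
  have e3 := Int.floor_le (((m : ℚ) - c) / q)
  have e4 := Int.lt_floor_add_one (((m : ℚ) - c) / q)
  have h3 : ((((Ioc m k).filter (fun j => j ≡ c [MOD q])).card : ℕ) : ℚ) =
      (⌊((k : ℚ) - c) / q⌋ : ℚ) - (⌊((m : ℚ) - c) / q⌋ : ℚ) := by
    have := congrArg (fun z : ℤ => (z : ℚ)) h1
    push_cast at this
    exact this
  have hdiff : ((k : ℚ) - c) / q - ((m : ℚ) - c) / q = ((k : ℚ) - m) / q := by ring
  have h4 : |((((Ioc m k).filter (fun j => j ≡ c [MOD q])).card : ℕ) : ℚ) -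
      (((Ioc m k).card : ℕ) : ℚ) / q| ≤ 1 := by
    rw [h3, Nat.card_Ioc, Nat.cast_sub hmk, abs_le]
    constructor <;> linarith
  have h5 := (Rat.cast_le (K := ℝ)).2 h4
  push_cast at h5
  exact h5

theorem ap_sum (g : ℕ → ℝ) (m t n : ℕ) (B : ℝ) (h0 : ∀ k, 0 ≤ g k) (hB : ∀ k, g k ≤ B)
    (h1 : ∀ k, m < k → k < t → g k ≤ g (k + 1)) (h2 : ∀ k, t < k → k < n → g (k + 1) ≤ g k)
    (q c : ℕ) (hq : 0 < q) :
    |∑ k ∈ (Ioc m n).filter (fun k => k % q = c % q), g k - (∑ k ∈ Ioc m n, g k) / q| ≤ 4 * B := by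
  have hB0 : 0 ≤ B := (h0 0).trans (hB 0)
  rcases le_total n m with hnm | hmn
  · rw [Ioc_eq_empty_of_le hnm]
    simpa using hB0
  have hpart : ∀ k ≤ n, ‖∑ j ∈ Ioc m k, ((((if j % q = c % q then (1 : ℝ) else 0) - 1 / q) : ℝ) : ℂ)‖
      ≤ 1 := by
    intro k _
    rw [← Complex.ofReal_sum, Complex.norm_real, Real.norm_eq_abs, sum_sub_distrib, sum_boole,
      sum_const, nsmul_eq_mul, mul_one_div]
    exact ap_count m k q c hq
  have h3 := abel_le (fun j => ((((if j % q = c % q then (1 : ℝ) else 0) - 1 / q) : ℝ) : ℂ)) g 1 m n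
    hpart zero_le_one hmn
  have h4 : ∑ k ∈ Ioc m n, ((((if k % q = c % q then (1 : ℝ) else 0) - 1 / q) : ℝ) : ℂ) * (g k : ℂ) =
      ((∑ k ∈ (Ioc m n).filter (fun k => k % q = c % q), g k - (∑ k ∈ Ioc m n, g k) / q : ℝ) : ℂ) := by
    rw [sum_filter, sum_div, ← sum_sub_distrib, Complex.ofReal_sum]
    refine sum_congr rfl fun k _ => ?_
    rw [← Complex.ofReal_mul]
    congr 1
    split_ifs <;> ring
  rw [h4, Complex.norm_real, Real.norm_eq_abs, one_mul] at h3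
  have h5 := tv_unimodal g m t n B h0 hB h1 h2
  have h6 : |g n| ≤ B := by rw [abs_of_nonneg (h0 n)]; exact hB n
  linarith

end Pool.Agent.H21.MT
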