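import Mathlib

/-!
[H21 MT VAU]  Vaughan's identity, as an identity for sums.

Proof.  Write `Λ = Λ₀ + Λ₁`, `μ = μ₀ + μ₁` (support `≤ u`, resp. `> u`).  As arithmetic functions,
`Λ = Λ₀ + μ₀ * log - (μ₀ * Λ₀) * 1 + μ₁ * (Λ₁ * 1)` : indeed `Λ₁ = Λ₁ * μ * 1 =
Λ₁ * μ₀ * 1 + Λ₁ * μ₁ * 1` and `Λ₁ * μ₀ * 1 = (Λ * 1 - Λ₀ * 1) * μ₀ = μ₀ * log - μ₀ * Λ₀ * 1`
(`ArithmeticFunction.vonMangoldt_mul_zeta`, `moebius_mul_coe_zeta`).
`c = μ₀ * Λ₀` is supported on `m ≤ u^2`, `|c m| ≤ ∑_{d | m} Λ d = log m`;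
`b = Λ₁ * 1`, `0 ≤ b k ≤ ∑_{d|k} Λ d = log k`, `b k = 0` for `k ≤ u`.
For arithmetic functions `f, g`: `∑_{n ≤ Y} (f*g)(n) F(n) = ∑_{m ≤ Y} f m ∑_{k ≤ Y/m} g k F(mk)`
(sum over `divisorsAntidiagonal`, reindex the pairs `(m,k)` with `m k ≤ Y`); terms with `m > Y` have
an empty inner sum (`Y/m = 0`), so the ranges of `m` may be taken as stated.
-/

namespace Pool.Agent.H21.MT

open Finset ArithmeticFunction

/-- cut an arithmetic function by a condition -/
noncomputable def vcut (f : ArithmeticFunction ℝ) (p : ℕ → Prop) [DecidablePred p] :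
    ArithmeticFunction ℝ := ⟨fun n => if p n then f n else 0, by simp⟩

theorem vcut_apply (f : ArithmeticFunction ℝ) (p : ℕ → Prop) [DecidablePred p] (n : ℕ) :
    vcut f p n = if p n then f n else 0 := rfl

theorem vcut_split (f : ArithmeticFunction ℝ) (u : ℕ) :
    f = vcut f (fun n => n ≤ u) + vcut f (fun n => u < n) := by
  ext n
  rw [ArithmeticFunction.add_apply, vcut_apply, vcut_apply]
  by_cases h : n ≤ u
  · simp [h, not_lt.mpr h]
  · simp [h, not_le.mp h]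

theorem vau_sum_mul (f g : ArithmeticFunction ℝ) (Y : ℕ) (F : ℕ → ℂ) :
    ∑ n ∈ Icc 1 Y, (((f * g) n : ℝ) : ℂ) * F n =
      ∑ m ∈ Icc 1 Y, ((f m : ℝ) : ℂ) * ∑ k ∈ Icc 1 (Y / m), ((g k : ℝ) : ℂ) * F (m * k) := by
  have h1 : ∀ n, (((f * g) n : ℝ) : ℂ) * F n =
      ∑ x ∈ n.divisorsAntidiagonal, ((f x.1 : ℝ) : ℂ) * (((g x.2 : ℝ) : ℂ) * F (x.1 * x.2)) := by
    intro n
    rw [ArithmeticFunction.mul_apply, Complex.ofReal_sum, Finset.sum_mul]
    refine Finset.sum_congr rfl fun x hx => ?_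
    rw [(Nat.mem_divisorsAntidiagonal.mp hx).1, Complex.ofReal_mul, mul_assoc]
  simp_rw [h1, Finset.mul_sum]
  rw [Finset.sum_sigma', Finset.sum_sigma']
  refine Finset.sum_nbij' (fun x => ⟨x.2.1, x.2.2⟩) (fun y => ⟨y.1 * y.2, (y.1, y.2)⟩) ?_ ?_ ?_ ?_ ?_
  · rintro ⟨n, m, k⟩ h
    simp only [Finset.mem_sigma, Finset.mem_Icc, Nat.mem_divisorsAntidiagonal] at h ⊢
    obtain ⟨⟨h1, h2⟩, h3, h4⟩ := h
    subst h3
    have hm : 0 < m := Nat.pos_of_ne_zero (by rintro rfl; simp at h4)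
    have hk : 0 < k := Nat.pos_of_ne_zero (by rintro rfl; simp at h4)
    refine ⟨⟨hm, ?_⟩, hk, ?_⟩
    · exact (Nat.le_mul_of_pos_right m hk).trans h2
    · rw [Nat.le_div_iff_mul_le hm, mul_comm]; exact h2
  · rintro ⟨m, k⟩ h
    simp only [Finset.mem_sigma, Finset.mem_Icc, Nat.mem_divisorsAntidiagonal] at h ⊢
    obtain ⟨⟨h1, h2⟩, h3, h4⟩ := h
    rw [Nat.le_div_iff_mul_le h1, mul_comm] at h4
    have : 0 < m * k := Nat.mul_pos h1 h3
    exact ⟨⟨this, h4⟩, trivial, this.ne'⟩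
  · rintro ⟨n, m, k⟩ h
    simp only [Finset.mem_sigma, Finset.mem_Icc, Nat.mem_divisorsAntidiagonal] at h
    obtain ⟨-, h3, -⟩ := h
    subst h3
    rfl
  · rintro ⟨m, k⟩ h
    rfl
  · rintro ⟨n, m, k⟩ h
    rfl

theorem vau_restrict (f : ℕ → ℂ) (G : ℕ → ℂ) (Y U : ℕ) (hf : ∀ m, U < m → f m = 0)
    (hG : ∀ m, Y < m → G m = 0) :
    ∑ m ∈ Icc 1 Y, f m * G m = ∑ m ∈ Icc 1 U, f m * G m := by
  have h1 : ∑ m ∈ Icc 1 (min Y U), f m * G m = ∑ m ∈ Icc 1 Y, f m * G m := by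
    refine Finset.sum_subset (Finset.Icc_subset_Icc_right (min_le_left _ _)) ?_
    intro m hm hm'
    rw [Finset.mem_Icc] at hm hm'
    have : U < m := by
      by_contra hlt
      exact hm' ⟨hm.1, le_min hm.2 (not_lt.mp hlt)⟩
    rw [hf m this, zero_mul]
  have h2 : ∑ m ∈ Icc 1 (min Y U), f m * G m = ∑ m ∈ Icc 1 U, f m * G m := by
    refine Finset.sum_subset (Finset.Icc_subset_Icc_right (min_le_right _ _)) ?_
    intro m hm hm'
    rw [Finset.mem_Icc] at hm hm'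
    have : Y < m := by
      by_contra hlt
      exact hm' ⟨hm.1, le_min (not_lt.mp hlt) hm.2⟩
    rw [hG m this, mul_zero]
  rw [← h1, h2]

theorem vau_empty (Y m : ℕ) (h : Y < m) (G : ℕ → ℂ) : ∑ k ∈ Icc 1 (Y / m), G k = 0 := by
  rw [Nat.div_eq_of_lt h]; simp

theorem vaughan (u : ℕ) (hu : 1 ≤ u) : ∃ c b : ℕ → ℝ, (∀ m, |c m| ≤ Real.log m) ∧
    (∀ k, |b k| ≤ Real.log k) ∧ ∀ (Y : ℕ) (F : ℕ → ℂ),
    ∑ n ∈ Icc 1 Y, ((vonMangoldt n : ℝ) : ℂ) * F n =
      ∑ n ∈ (Icc 1 Y).filter (fun n => n ≤ u), ((vonMangoldt n : ℝ) : ℂ) * F n +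
      ∑ m ∈ Icc 1 u, ((moebius m : ℤ) : ℂ) *
        ∑ k ∈ Icc 1 (Y / m), ((Real.log k : ℝ) : ℂ) * F (m * k) -
      ∑ m ∈ Icc 1 (u * u), ((c m : ℝ) : ℂ) * ∑ k ∈ Icc 1 (Y / m), F (m * k) +
      ∑ m ∈ Ioc u Y, ((moebius m : ℤ) : ℂ) *
        ∑ k ∈ Ioc u (Y / m), ((b k : ℝ) : ℂ) * F (m * k) := by
  classical
  set L : ArithmeticFunction ℝ := vonMangoldt with hL
  set mo : ArithmeticFunction ℝ := ((moebius : ArithmeticFunction ℤ) : ArithmeticFunction ℝ) with hmo
  set ze : ArithmeticFunction ℝ := ((ArithmeticFunction.zeta : ArithmeticFunction ℕ) :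
    ArithmeticFunction ℝ) with hze
  set L0 := vcut L (fun n => n ≤ u) with hL0
  set L1 := vcut L (fun n => u < n) with hL1
  set m0 := vcut mo (fun n => n ≤ u) with hm0
  set m1 := vcut mo (fun n => u < n) with hm1
  have hLs : L = L0 + L1 := vcut_split L u
  have hms : mo = m0 + m1 := vcut_split mo u
  have hLz : L * ze = ArithmeticFunction.log := vonMangoldt_mul_zeta
  have hmz : mo * ze = 1 := coe_moebius_mul_coe_zeta
  have hLnn : ∀ n, 0 ≤ L n := fun n => vonMangoldt_nonneg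
  have hL0nn : ∀ n, 0 ≤ L0 n := fun n => by
    rw [hL0, vcut_apply]; split_ifs; exacts [hLnn n, le_rfl]
  have hL1nn : ∀ n, 0 ≤ L1 n := fun n => by
    rw [hL1, vcut_apply]; split_ifs; exacts [hLnn n, le_rfl]
  have hL0le : ∀ n, L0 n ≤ L n := fun n => by
    rw [hL0, vcut_apply]; split_ifs; exacts [le_rfl, hLnn n]
  have hL1le : ∀ n, L1 n ≤ L n := fun n => by
    rw [hL1, vcut_apply]; split_ifs; exacts [le_rfl, hLnn n]
  have hzeta : ∀ n, n ≠ 0 → ze n = 1 := fun n hn => by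
    rw [hze, natCoe_apply, zeta_apply_ne hn, Nat.cast_one]
  have hid : L = L0 + m0 * ArithmeticFunction.log - (m0 * L0) * ze + m1 * (L1 * ze) := by
    have h1 : L1 = m0 * (L1 * ze) + m1 * (L1 * ze) := by
      calc L1 = L1 * (mo * ze) := by rw [hmz, mul_one]
        _ = mo * (L1 * ze) := by ring
        _ = m0 * (L1 * ze) + m1 * (L1 * ze) := by rw [hms, add_mul]
    have h2 : L1 * ze = ArithmeticFunction.log - L0 * ze := by
      rw [← hLz, hLs]; ring
    calc L = L0 + L1 := hLs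
      _ = L0 + (m0 * (L1 * ze) + m1 * (L1 * ze)) := by rw [← h1]
      _ = L0 + (m0 * (ArithmeticFunction.log - L0 * ze) + m1 * (L1 * ze)) := by
          rw [← h2]
      _ = L0 + m0 * ArithmeticFunction.log - (m0 * L0) * ze + m1 * (L1 * ze) := by ring
  have hmoabs : ∀ n, |m0 n| ≤ 1 := by
    intro n
    rw [hm0, vcut_apply]
    split_ifs
    · rw [hmo, intCoe_apply]
      have := abs_moebius_le_one (n := n)
      exact_mod_cast this
    · simp
  refine ⟨fun m => (m0 * L0) m, fun k => (L1 * ze) k, ?_, ?_, ?_⟩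
  · intro m
    simp only
    rw [ArithmeticFunction.mul_apply]
    have h3 : (ze * L) m = Real.log m := by
      rw [mul_comm, hLz, log_apply]
    rw [← h3, ArithmeticFunction.mul_apply]
    refine (Finset.abs_sum_le_sum_abs _ _).trans (Finset.sum_le_sum fun x hx => ?_)
    have hx0 := Nat.mem_divisorsAntidiagonal.mp hx
    have hx1 : x.1 ≠ 0 := by
      intro h0; rw [h0, zero_mul] at hx0; exact hx0.2 hx0.1.symm
    rw [hzeta _ hx1, abs_mul, abs_of_nonneg (hL0nn x.2)]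
    exact mul_le_mul (hmoabs _) (hL0le _) (hL0nn _) zero_le_one
  · intro k
    simp only
    have h3 : (L * ze) k = Real.log k := by rw [hLz, log_apply]
    rw [← h3, ArithmeticFunction.mul_apply, ArithmeticFunction.mul_apply]
    refine (Finset.abs_sum_le_sum_abs _ _).trans (Finset.sum_le_sum fun x hx => ?_)
    have hx0 := Nat.mem_divisorsAntidiagonal.mp hx
    have hx1 : x.2 ≠ 0 := by
      intro h0; rw [h0, mul_zero] at hx0; exact hx0.2 hx0.1.symm
    rw [hzeta _ hx1, mul_one, mul_one, abs_of_nonneg (hL1nn x.1)]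
    exact hL1le _
  · intro Y F
    simp only
    have hsplit : ∑ n ∈ Icc 1 Y, ((L n : ℝ) : ℂ) * F n =
        ∑ n ∈ Icc 1 Y, ((L0 n : ℝ) : ℂ) * F n +
        ∑ n ∈ Icc 1 Y, (((m0 * ArithmeticFunction.log) n : ℝ) : ℂ) * F n -
        ∑ n ∈ Icc 1 Y, ((((m0 * L0) * ze) n : ℝ) : ℂ) * F n +
        ∑ n ∈ Icc 1 Y, (((m1 * (L1 * ze)) n : ℝ) : ℂ) * F n := by
      rw [← Finset.sum_add_distrib, ← Finset.sum_sub_distrib, ← Finset.sum_add_distrib]
      refine Finset.sum_congr rfl fun n _ => ?_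
      have h4 : L n = L0 n + (m0 * ArithmeticFunction.log) n - ((m0 * L0) * ze) n +
          (m1 * (L1 * ze)) n := by
        conv_lhs => rw [hid]
        rfl
      rw [h4]
      push_cast
      ring
    rw [hsplit]
    have ht1 : ∑ n ∈ Icc 1 Y, ((L0 n : ℝ) : ℂ) * F n =
        ∑ n ∈ (Icc 1 Y).filter (fun n => n ≤ u), ((L n : ℝ) : ℂ) * F n := by
      rw [Finset.sum_filter]
      refine Finset.sum_congr rfl fun n _ => ?_
      rw [hL0, vcut_apply]
      split_ifs <;> simp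
    have ht2 : ∑ n ∈ Icc 1 Y, (((m0 * ArithmeticFunction.log) n : ℝ) : ℂ) * F n =
        ∑ m ∈ Icc 1 u, ((moebius m : ℤ) : ℂ) *
          ∑ k ∈ Icc 1 (Y / m), ((Real.log k : ℝ) : ℂ) * F (m * k) := by
      rw [vau_sum_mul, vau_restrict (fun m => ((m0 m : ℝ) : ℂ))
        (fun m => ∑ k ∈ Icc 1 (Y / m), ((ArithmeticFunction.log k : ℝ) : ℂ) * F (m * k)) Y u ?_ ?_]
      · refine Finset.sum_congr rfl fun m hm => ?_
        rw [Finset.mem_Icc] at hm
        rw [hm0, vcut_apply, if_pos hm.2, hmo, intCoe_apply]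
        simp only [log_apply]
        push_cast
        rfl
      · intro m hm
        rw [hm0, vcut_apply, if_neg (not_le.mpr hm)]
        simp
      · intro m hm
        exact vau_empty Y m hm _
    have ht3 : ∑ n ∈ Icc 1 Y, ((((m0 * L0) * ze) n : ℝ) : ℂ) * F n =
        ∑ m ∈ Icc 1 (u * u), (((m0 * L0) m : ℝ) : ℂ) * ∑ k ∈ Icc 1 (Y / m), F (m * k) := by
      rw [vau_sum_mul, vau_restrict (fun m => (((m0 * L0) m : ℝ) : ℂ))
        (fun m => ∑ k ∈ Icc 1 (Y / m), ((ze k : ℝ) : ℂ) * F (m * k)) Y (u * u) ?_ ?_]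
      · refine Finset.sum_congr rfl fun m hm => ?_
        congr 1
        refine Finset.sum_congr rfl fun k hk => ?_
        rw [Finset.mem_Icc] at hk
        rw [hzeta k (by omega), Complex.ofReal_one, one_mul]
      · intro m hm
        have h0 : (m0 * L0) m = 0 := by
          rw [ArithmeticFunction.mul_apply]
          refine Finset.sum_eq_zero fun x hx => ?_
          have hx0 := Nat.mem_divisorsAntidiagonal.mp hx
          rw [hm0, hL0, vcut_apply, vcut_apply]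
          by_cases h1 : x.1 ≤ u
          · by_cases h2 : x.2 ≤ u
            · exfalso
              have := Nat.mul_le_mul h1 h2
              rw [hx0.1] at this
              omega
            · rw [if_neg h2, mul_zero]
          · rw [if_neg h1, zero_mul]
        simp only [h0, Complex.ofReal_zero]
      · intro m hm
        exact vau_empty Y m hm _
    have hb0 : ∀ k, k ≤ u → (L1 * ze) k = 0 := by
      intro k hk
      rw [ArithmeticFunction.mul_apply]
      refine Finset.sum_eq_zero fun x hx => ?_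
      have hx0 := Nat.mem_divisorsAntidiagonal.mp hx
      have hx2 : 0 < x.2 := Nat.pos_of_ne_zero (by
        intro h0; rw [h0, mul_zero] at hx0; exact hx0.2 hx0.1.symm)
      have h1 : x.1 ≤ k := by
        rw [← hx0.1]; exact Nat.le_mul_of_pos_right _ hx2
      rw [hL1, vcut_apply, if_neg (by omega), zero_mul]
    have ht4 : ∑ n ∈ Icc 1 Y, (((m1 * (L1 * ze)) n : ℝ) : ℂ) * F n =
        ∑ m ∈ Ioc u Y, ((moebius m : ℤ) : ℂ) *
          ∑ k ∈ Ioc u (Y / m), (((L1 * ze) k : ℝ) : ℂ) * F (m * k) := by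
      rw [vau_sum_mul]
      have hsub : Ioc u Y ⊆ Icc 1 Y := by
        intro m hm
        rw [Finset.mem_Ioc] at hm
        rw [Finset.mem_Icc]
        omega
      rw [← Finset.sum_subset hsub ?_]
      · refine Finset.sum_congr rfl fun m hm => ?_
        rw [Finset.mem_Ioc] at hm
        rw [hm1, vcut_apply, if_pos hm.1, hmo, intCoe_apply]
        have hsub2 : Ioc u (Y / m) ⊆ Icc 1 (Y / m) := by
          intro k hk
          rw [Finset.mem_Ioc] at hk
          rw [Finset.mem_Icc]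
          omega
        rw [← Finset.sum_subset hsub2 ?_]
        · push_cast
          rfl
        · intro k hk hk'
          rw [Finset.mem_Icc] at hk
          rw [Finset.mem_Ioc] at hk'
          rw [hb0 k (by omega), Complex.ofReal_zero, zero_mul]
      · intro m hm hm'
        rw [Finset.mem_Icc] at hm
        rw [Finset.mem_Ioc] at hm'
        rw [hm1, vcut_apply, if_neg (by omega), Complex.ofReal_zero, zero_mul]
    rw [ht1, ht2, ht3, ht4]

end Pool.Agent.H21.MT
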