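import Mathlib

/-!
[H21 MT CH]  Partial sums of characters; the family of primitive characters.

Proofs.
* `char_sum_le`: a complete period sums to `0` (`DirichletCharacter`/`MulChar` orthogonality,
  `MulChar.sum_eq_zero_of_ne_one`), the rest has fewer than `q` terms of norm `≤ 1`.
* `ch_pair`: let `c = (r, χ)`, `c' = (r', χ')` be different primitive characters, `n = r r'`
  (`NeZero`).  `k ↦ χ k * conj (χ' k)` is, on the `k` coprime to `n`, the value of the character
  `changeLevel χ * (changeLevel χ')⁻¹` mod `n`; for `k` not coprime to `n` the character mod `n` is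
  `0`, and one of `χ k`, `χ' k` is `0` (if `gcd(k,r) > 1` the first, otherwise `gcd(k,r') > 1` and the
  second), so the two functions agree everywhere.  The character mod `n` is not `1`: otherwise
  `changeLevel χ = changeLevel χ'`, and two primitive characters inducing the same character have
  the same conductor and are equal (`DirichletCharacter.conductor`, `changeLevel` facts, e.g.
  `DirichletCharacter.isPrimitive_def`, uniqueness of `primitiveCharacter`).  Now `char_sum_le`,
  `n ≤ R^2`.
* `card_PC`: `∑_{r ≤ R} φ(r) ≤ R^2` (`card (DirichletCharacter ℂ r) = φ r`).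
-/

namespace Pool.Agent.H21.MT

open Finset

/-- characters of modulus `1..R` -/
abbrev Ch (R : ℕ) : Type := Σ r : Fin R, DirichletCharacter ℂ (r.val + 1)

/-- modulus -/
def Ch.md {R : ℕ} (c : Ch R) : ℕ := c.1.val + 1

noncomputable instance instFintypeCh (R : ℕ) : Fintype (Ch R) := Fintype.ofFinite _

open Classical in
/-- the primitive characters of modulus `2..R` -/
noncomputable def PC (R : ℕ) : Finset (Ch R) :=
  univ.filter (fun c => c.2.IsPrimitive ∧ 2 ≤ c.md)

/-- The sum of a function on `ZMod q` over `q` consecutive natural numbers. -/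
private lemma ch_period {q : ℕ} [NeZero q] (g : ZMod q → ℂ) (a : ℕ) :
    ∑ k ∈ Finset.range q, g ((a + k : ℕ) : ZMod q) = ∑ x : ZMod q, g x := by
  refine Finset.sum_bij (fun k _ => ((a + k : ℕ) : ZMod q)) (fun _ _ => Finset.mem_univ _) ?_ ?_
    (fun _ _ => rfl)
  · intro i hi j hj hij
    rw [ZMod.natCast_eq_natCast_iff] at hij
    have h2 : i ≡ j [MOD q] := Nat.ModEq.add_left_cancel' a hij
    rw [Finset.mem_range] at hi hj
    exact Nat.ModEq.eq_of_lt_of_lt h2 hi hj
  · intro x _
    refine ⟨(x - (a : ZMod q)).val, ?_, ?_⟩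
    · rw [Finset.mem_range]; exact ZMod.val_lt _
    · push_cast
      rw [ZMod.natCast_zmod_val]
      ring

theorem char_sum_le {q : ℕ} [NeZero q] (χ : DirichletCharacter ℂ q) (hχ : χ ≠ 1) (m n : ℕ) :
    ‖∑ k ∈ Ioc m n, χ (k : ZMod q)‖ ≤ q := by
  induction n using Nat.strong_induction_on with
  | _ n ih =>
    rcases Nat.lt_or_ge (m + q) n with h | h
    · have hq : 0 < q := Nat.pos_of_ne_zero (NeZero.ne q)
      have h1 : Ioc m n = Ioc m (n - q) ∪ Ico (n - q + 1) (n + 1) := by
        ext k
        simp only [mem_Ioc, mem_union, mem_Ico]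
        omega
      have hd : Disjoint (Ioc m (n - q)) (Ico (n - q + 1) (n + 1)) := by
        rw [disjoint_left]
        intro k hk hk2
        simp only [mem_Ioc, mem_Ico] at hk hk2
        omega
      rw [h1, sum_union hd, sum_Ico_eq_sum_range]
      have h3 : n + 1 - (n - q + 1) = q := by omega
      rw [h3, ch_period (fun x => χ x) (n - q + 1), χ.sum_eq_zero_of_ne_one hχ, add_zero]
      exact ih (n - q) (by omega)
    · refine (norm_sum_le _ _).trans ((sum_le_sum fun k _ => χ.norm_le_one _).trans ?_)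
      simp only [sum_const, Nat.card_Ioc, nsmul_eq_mul, mul_one]
      have : n - m ≤ q := by omega
      exact_mod_cast this

theorem ch_ne_one {R : ℕ} (c : Ch R) (hc : c ∈ PC R) : c.2 ≠ 1 := by
  classical
  intro h
  unfold PC at hc
  rw [mem_filter] at hc
  obtain ⟨_, hp, h2⟩ := hc
  rw [DirichletCharacter.isPrimitive_def, h, DirichletCharacter.conductor_one] at hp
  unfold Ch.md at h2
  omega

theorem ch_pair {R : ℕ} (c c' : Ch R) (hc : c ∈ PC R) (hc' : c' ∈ PC R) (hne : c ≠ c')
    (m n : ℕ) :
    ‖∑ k ∈ Ioc m n, c.2 (k : ZMod (c.1.val + 1)) *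
      (starRingEnd ℂ) (c'.2 (k : ZMod (c'.1.val + 1)))‖ ≤ (R : ℝ) ^ 2 := by
  classical
  unfold PC at hc hc'
  rw [mem_filter] at hc hc'
  obtain ⟨r, χ⟩ := c
  obtain ⟨r', χ'⟩ := c'
  obtain ⟨_, hp, _⟩ := hc
  obtain ⟨_, hp', _⟩ := hc'
  simp only at hp hp' ⊢
  have hn0 : NeZero ((r.val + 1) * (r'.val + 1)) := ⟨by positivity⟩
  have hd1 : (r.val + 1) ∣ (r.val + 1) * (r'.val + 1) := dvd_mul_right _ _
  have hd2 : (r'.val + 1) ∣ (r.val + 1) * (r'.val + 1) := dvd_mul_left _ _
  set ψ : DirichletCharacter ℂ ((r.val + 1) * (r'.val + 1)) :=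
    DirichletCharacter.changeLevel hd1 χ * DirichletCharacter.changeLevel hd2 χ'⁻¹ with hψ
  have hval : ∀ k : ℕ, χ (k : ZMod (r.val + 1)) * (starRingEnd ℂ) (χ' (k : ZMod (r'.val + 1))) =
      ψ (k : ZMod ((r.val + 1) * (r'.val + 1))) := by
    intro k
    have hstar : (starRingEnd ℂ) (χ' (k : ZMod (r'.val + 1))) = χ'⁻¹ (k : ZMod (r'.val + 1)) :=
      MulChar.star_apply' χ' _
    rw [hstar]
    by_cases hk : IsCoprime (k : ℤ) (((r.val + 1) * (r'.val + 1) : ℕ) : ℤ)
    · have e1 := DirichletCharacter.changeLevel_eq_cast_of_dvd' χ hd1 hk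
      have e2 := DirichletCharacter.changeLevel_eq_cast_of_dvd' χ'⁻¹ hd2 hk
      rw [Int.cast_natCast, Int.cast_natCast] at e1 e2
      rw [hψ, MulChar.mul_apply, e1, e2]
    · have e0 : ψ (k : ZMod ((r.val + 1) * (r'.val + 1))) = 0 := by
        have := (DirichletCharacter.apply_eq_zero_iff (χ := ψ) (k : ℤ)).2 hk
        rwa [Int.cast_natCast] at this
      rw [e0]
      by_cases hk1 : IsCoprime (k : ℤ) ((r.val + 1 : ℕ) : ℤ)
      · have hk2 : ¬ IsCoprime (k : ℤ) ((r'.val + 1 : ℕ) : ℤ) := by
          intro hk2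
          apply hk
          rw [Nat.cast_mul]
          exact hk1.mul_right hk2
        have := (DirichletCharacter.apply_eq_zero_iff (χ := χ'⁻¹) (k : ℤ)).2 hk2
        rw [Int.cast_natCast] at this
        rw [this, mul_zero]
      · have := (DirichletCharacter.apply_eq_zero_iff (χ := χ) (k : ℤ)).2 hk1
        rw [Int.cast_natCast] at this
        rw [this, zero_mul]
  have hψ1 : ψ ≠ 1 := by
    intro h
    apply hne
    have h1 : DirichletCharacter.changeLevel hd1 χ = DirichletCharacter.changeLevel hd2 χ' := by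
      rw [hψ, map_inv, mul_inv_eq_one] at h
      exact h
    have h2 : χ.conductor = χ'.conductor := by
      rw [← DirichletCharacter.conductor_changeLevel χ hd1, h1,
        DirichletCharacter.conductor_changeLevel χ' hd2]
    rw [(DirichletCharacter.isPrimitive_def _).1 hp,
      (DirichletCharacter.isPrimitive_def _).1 hp'] at h2
    have h3 : r = r' := Fin.ext (by omega)
    subst h3
    have h4 := DirichletCharacter.changeLevel_injective hd1 h1
    rw [h4]
  rw [Finset.sum_congr rfl (fun k _ => hval k)]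
  refine (char_sum_le ψ hψ1 m n).trans ?_
  have h1 := r.isLt
  have h2 := r'.isLt
  have h3 : (r.val + 1) * (r'.val + 1) ≤ R ^ 2 := by
    rw [pow_two]
    exact Nat.mul_le_mul (by omega) (by omega)
  exact_mod_cast h3

theorem card_PC (R : ℕ) : ((PC R).card : ℝ) ≤ (R : ℝ) ^ 2 := by
  classical
  have h1 : (PC R).card ≤ Fintype.card (Ch R) := Finset.card_le_univ _
  have h2 : Fintype.card (Ch R) = ∑ r : Fin R, (r.val + 1).totient := by
    rw [← Nat.card_eq_fintype_card, Nat.card_sigma]
    refine Finset.sum_congr rfl fun r _ => ?_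
    exact DirichletCharacter.card_eq_totient_of_hasEnoughRootsOfUnity ℂ (r.val + 1)
  have h3 : ∑ r : Fin R, (r.val + 1).totient ≤ ∑ _r : Fin R, R := by
    refine Finset.sum_le_sum fun r _ => ?_
    have := r.isLt
    exact (Nat.totient_le _).trans (by omega)
  have h4 : ∑ _r : Fin R, R = R ^ 2 := by
    rw [Finset.sum_const, Finset.card_univ, Fintype.card_fin, smul_eq_mul, pow_two]
  have h5 : (PC R).card ≤ R ^ 2 := by omega
  exact_mod_cast h5

end Pool.Agent.H21.MT
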