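import Pool.Agent.H21.MT.Ch

/-!
[H21 MT CLS]  The cheap large sieve.

Proof.  Put `S c = ∑ a m c(m)`.  `∑_c ‖S c‖^2 = ∑_m a m ∑_c conj(S c) c(m) ≤ ‖a‖_2 *
(∑_m ‖∑_c conj(S c) c(m)‖^2)^{1/2}` (Cauchy).  The last sum is
`∑_{c,c'} conj(S c) S c' ∑_m c(m) conj(c'(m)) ≤ ∑_{c,c'} (‖S c‖^2 + ‖S c'‖^2)/2 * ‖∑_m c(m) conj(c'(m))‖
≤ (N + (card PC) R^2) ∑_c ‖S c‖^2 ≤ (N + R^4) ∑_c ‖S c‖^2` (diagonal `≤ N`, `ch_pair`, `card_PC`).
Divide.  `cls_bil` is Cauchy-Schwarz applied to `cls` twice.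
-/

namespace Pool.Agent.H21.MT

open Finset

/-- Norm of a character value. -/
private theorem cls_norm_le {R : ℕ} (c : Ch R) (m : ℕ) :
    ‖c.2 (m : ZMod (c.1.val + 1))‖ ≤ 1 :=
  DirichletCharacter.norm_le_one _ _

open Classical in
private theorem cls_dual (R M N : ℕ) (s : Ch R → ℂ) :
    ∑ m ∈ Ioc M (M + N), ‖∑ c ∈ PC R, (starRingEnd ℂ) (s c) * c.2 (m : ZMod (c.1.val + 1))‖ ^ 2 ≤
      ((N : ℝ) + (R : ℝ) ^ 4) * ∑ c ∈ PC R, ‖s c‖ ^ 2 := by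
  set I := Ioc M (M + N) with hI
  let G : Ch R → Ch R → ℂ := fun c c' => ∑ m ∈ I, c.2 (m : ZMod (c.1.val + 1)) *
      (starRingEnd ℂ) (c'.2 (m : ZMod (c'.1.val + 1)))
  let g : Ch R → Ch R → ℝ := fun c c' => if c = c' then (N : ℝ) else (R : ℝ) ^ 2
  have hg0 : ∀ c c', 0 ≤ g c c' := by
    intro c c'
    simp only [g]
    split_ifs <;> positivity
  have hgsymm : ∀ c c', g c c' = g c' c := by
    intro c c'
    simp only [g, eq_comm]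
  have hG : ∀ c ∈ PC R, ∀ c' ∈ PC R, ‖G c c'‖ ≤ g c c' := by
    intro c hc c' hc'
    by_cases h : c = c'
    · subst h
      simp only [g, if_true]
      calc ‖G c c‖ ≤ ∑ m ∈ I, ‖c.2 (m : ZMod (c.1.val + 1)) *
            (starRingEnd ℂ) (c.2 (m : ZMod (c.1.val + 1)))‖ := norm_sum_le _ _
        _ ≤ ∑ m ∈ I, (1 : ℝ) := by
            refine Finset.sum_le_sum fun m _ => ?_
            rw [norm_mul, RCLike.norm_conj]
            have := cls_norm_le c m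
            have h0 : 0 ≤ ‖c.2 (m : ZMod (c.1.val + 1))‖ := norm_nonneg _
            nlinarith
        _ = N := by simp [hI]
    · simp only [g, if_neg h]
      exact ch_pair c c' hc hc' h _ _
  have hrow : ∀ c ∈ PC R, ∑ c' ∈ PC R, g c c' ≤ (N : ℝ) + (R : ℝ) ^ 4 := by
    intro c hc
    calc ∑ c' ∈ PC R, g c c' ≤ ∑ c' ∈ PC R, ((if c = c' then (N : ℝ) else 0) + (R : ℝ) ^ 2) := by
          refine Finset.sum_le_sum fun c' _ => ?_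
          simp only [g]
          split_ifs
          · have : (0 : ℝ) ≤ (R : ℝ) ^ 2 := by positivity
            linarith
          · linarith
      _ = (N : ℝ) + (PC R).card * (R : ℝ) ^ 2 := by
          rw [Finset.sum_add_distrib, Finset.sum_ite_eq, if_pos hc, Finset.sum_const, nsmul_eq_mul]
      _ ≤ (N : ℝ) + (R : ℝ) ^ 4 := by
          have h1 := card_PC R
          have h2 : (0 : ℝ) ≤ (R : ℝ) ^ 2 := by positivity
          nlinarith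
  have hexp : ((∑ m ∈ I, ‖∑ c ∈ PC R, (starRingEnd ℂ) (s c) *
      c.2 (m : ZMod (c.1.val + 1))‖ ^ 2 : ℝ) : ℂ) =
      ∑ c ∈ PC R, ∑ c' ∈ PC R, (starRingEnd ℂ) (s c) * s c' * G c c' := by
    have h1 : ∀ m ∈ I, ((‖∑ c ∈ PC R, (starRingEnd ℂ) (s c) *
        c.2 (m : ZMod (c.1.val + 1))‖ ^ 2 : ℝ) : ℂ) =
        ∑ c ∈ PC R, ∑ c' ∈ PC R, (starRingEnd ℂ) (s c) * s c' *
          (c.2 (m : ZMod (c.1.val + 1)) * (starRingEnd ℂ) (c'.2 (m : ZMod (c'.1.val + 1)))) := by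
      intro m _
      rw [Complex.ofReal_pow, ← Complex.mul_conj', map_sum, Finset.sum_mul_sum]
      refine Finset.sum_congr rfl fun c _ => Finset.sum_congr rfl fun c' _ => ?_
      rw [map_mul, Complex.conj_conj]
      ring
    rw [Complex.ofReal_sum, Finset.sum_congr rfl h1, Finset.sum_comm]
    refine Finset.sum_congr rfl fun c _ => ?_
    rw [Finset.sum_comm]
    refine Finset.sum_congr rfl fun c' _ => ?_
    rw [← Finset.mul_sum]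
  have h0 : 0 ≤ ∑ m ∈ I, ‖∑ c ∈ PC R, (starRingEnd ℂ) (s c) *
      c.2 (m : ZMod (c.1.val + 1))‖ ^ 2 := Finset.sum_nonneg fun _ _ => sq_nonneg _
  have hn : ∑ m ∈ I, ‖∑ c ∈ PC R, (starRingEnd ℂ) (s c) *
      c.2 (m : ZMod (c.1.val + 1))‖ ^ 2 ≤
      ∑ c ∈ PC R, ∑ c' ∈ PC R, ‖s c‖ * ‖s c'‖ * g c c' := by
    have h2 : ∑ m ∈ I, ‖∑ c ∈ PC R, (starRingEnd ℂ) (s c) *
        c.2 (m : ZMod (c.1.val + 1))‖ ^ 2 =
        ‖∑ c ∈ PC R, ∑ c' ∈ PC R, (starRingEnd ℂ) (s c) * s c' * G c c'‖ := by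
      rw [← hexp, Complex.norm_real, Real.norm_of_nonneg h0]
    rw [h2]
    refine (norm_sum_le _ _).trans (Finset.sum_le_sum fun c hc => ?_)
    refine (norm_sum_le _ _).trans (Finset.sum_le_sum fun c' hc' => ?_)
    rw [norm_mul, norm_mul, RCLike.norm_conj]
    exact mul_le_mul_of_nonneg_left (hG c hc c' hc') (by positivity)
  refine hn.trans ?_
  have h3 : ∑ c ∈ PC R, ∑ c' ∈ PC R, ‖s c‖ * ‖s c'‖ * g c c' ≤
      ∑ c ∈ PC R, ∑ c' ∈ PC R, (‖s c‖ ^ 2 / 2 * g c c' + ‖s c'‖ ^ 2 / 2 * g c c') := by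
    refine Finset.sum_le_sum fun c _ => Finset.sum_le_sum fun c' _ => ?_
    have h4 : ‖s c‖ * ‖s c'‖ ≤ ‖s c‖ ^ 2 / 2 + ‖s c'‖ ^ 2 / 2 := by
      nlinarith [sq_nonneg (‖s c‖ - ‖s c'‖)]
    have h5 := mul_le_mul_of_nonneg_right h4 (hg0 c c')
    linarith
  refine h3.trans ?_
  simp only [Finset.sum_add_distrib]
  have h6 : ∑ c ∈ PC R, ∑ c' ∈ PC R, ‖s c‖ ^ 2 / 2 * g c c' ≤
      ((N : ℝ) + (R : ℝ) ^ 4) * (∑ c ∈ PC R, ‖s c‖ ^ 2) / 2 := by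
    rw [Finset.mul_sum, Finset.sum_div]
    refine Finset.sum_le_sum fun c hc => ?_
    rw [← Finset.mul_sum]
    have h7 := hrow c hc
    have h8 : 0 ≤ ‖s c‖ ^ 2 / 2 := by positivity
    have h9 := mul_le_mul_of_nonneg_left h7 h8
    linarith
  have h10 : ∑ c ∈ PC R, ∑ c' ∈ PC R, ‖s c'‖ ^ 2 / 2 * g c c' =
      ∑ c ∈ PC R, ∑ c' ∈ PC R, ‖s c‖ ^ 2 / 2 * g c c' := by
    rw [Finset.sum_comm]
    refine Finset.sum_congr rfl fun c _ => Finset.sum_congr rfl fun c' _ => ?_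
    rw [hgsymm]
  rw [h10]
  linarith

theorem cls (R M N : ℕ) (a : ℕ → ℂ) :
    ∑ c ∈ PC R, ‖∑ m ∈ Ioc M (M + N), a m * c.2 (m : ZMod (c.1.val + 1))‖ ^ 2 ≤
      ((N : ℝ) + (R : ℝ) ^ 4) * ∑ m ∈ Ioc M (M + N), ‖a m‖ ^ 2 := by
  classical
  set S : Ch R → ℂ := fun c => ∑ m ∈ Ioc M (M + N), a m * c.2 (m : ZMod (c.1.val + 1)) with hS
  set F : ℕ → ℂ := fun m => ∑ c ∈ PC R, (starRingEnd ℂ) (S c) * c.2 (m : ZMod (c.1.val + 1))
    with hF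
  set T : ℝ := ∑ c ∈ PC R, ‖S c‖ ^ 2 with hT
  have hT0 : 0 ≤ T := Finset.sum_nonneg fun _ _ => sq_nonneg _
  have hdual : ∑ m ∈ Ioc M (M + N), ‖F m‖ ^ 2 ≤ ((N : ℝ) + (R : ℝ) ^ 4) * T :=
    cls_dual R M N S
  have hTF : (T : ℂ) = ∑ m ∈ Ioc M (M + N), a m * F m := by
    rw [hT, Complex.ofReal_sum]
    have h1 : ∀ c ∈ PC R, ((‖S c‖ ^ 2 : ℝ) : ℂ) =
        ∑ m ∈ Ioc M (M + N), a m * ((starRingEnd ℂ) (S c) * c.2 (m : ZMod (c.1.val + 1))) := by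
      intro c _
      rw [Complex.ofReal_pow, ← Complex.mul_conj']
      conv_lhs => rw [hS]
      simp only
      rw [Finset.sum_mul]
      refine Finset.sum_congr rfl fun m _ => ?_
      ring
    rw [Finset.sum_congr rfl h1, Finset.sum_comm]
    refine Finset.sum_congr rfl fun m _ => ?_
    rw [hF]
    simp only
    rw [Finset.mul_sum]
  have hTle : T ≤ ∑ m ∈ Ioc M (M + N), ‖a m‖ * ‖F m‖ := by
    have h1 : T = ‖∑ m ∈ Ioc M (M + N), a m * F m‖ := by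
      rw [← hTF, Complex.norm_real, Real.norm_of_nonneg hT0]
    rw [h1]
    refine (norm_sum_le _ _).trans (le_of_eq ?_)
    exact Finset.sum_congr rfl fun m _ => norm_mul _ _
  have hCS := Finset.sum_mul_sq_le_sq_mul_sq (Ioc M (M + N)) (fun m => ‖a m‖) (fun m => ‖F m‖)
  set A2 : ℝ := ∑ m ∈ Ioc M (M + N), ‖a m‖ ^ 2 with hA2
  have hA0 : 0 ≤ A2 := Finset.sum_nonneg fun _ _ => sq_nonneg _
  have hc0 : (0 : ℝ) ≤ (N : ℝ) + (R : ℝ) ^ 4 := by positivity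
  have h2 : T ^ 2 ≤ A2 * (((N : ℝ) + (R : ℝ) ^ 4) * T) := by
    calc T ^ 2 ≤ (∑ m ∈ Ioc M (M + N), ‖a m‖ * ‖F m‖) ^ 2 := pow_le_pow_left₀ hT0 hTle 2
      _ ≤ A2 * ∑ m ∈ Ioc M (M + N), ‖F m‖ ^ 2 := hCS
      _ ≤ _ := mul_le_mul_of_nonneg_left hdual hA0
  rcases hT0.eq_or_lt with h | h
  · rw [← h]
    positivity
  · have h3 : T * T ≤ (((N : ℝ) + (R : ℝ) ^ 4) * A2) * T := by nlinarith
    exact le_of_mul_le_mul_right h3 h

theorem cls_bil (R M K : ℕ) (hM : R ^ 4 ≤ M) (hK : R ^ 4 ≤ K) (a b : ℕ → ℂ) (A B : ℝ)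
    (hA : ∀ m ∈ Ioc M (2 * M), ‖a m‖ ≤ A) (hB : ∀ k ∈ Ioc K (2 * K), ‖b k‖ ≤ B)
    (hA0 : 0 ≤ A) (hB0 : 0 ≤ B) :
    ∑ c ∈ PC R, ‖(∑ m ∈ Ioc M (2 * M), a m * c.2 (m : ZMod (c.1.val + 1))) *
      ∑ k ∈ Ioc K (2 * K), b k * c.2 (k : ZMod (c.1.val + 1))‖ ≤ 2 * M * K * A * B := by
  have key : ∀ (M : ℕ) (_ : R ^ 4 ≤ M) (a : ℕ → ℂ) (A : ℝ)
      (_ : ∀ m ∈ Ioc M (2 * M), ‖a m‖ ≤ A) (_ : 0 ≤ A),
      ∑ c ∈ PC R, ‖∑ m ∈ Ioc M (2 * M), a m * c.2 (m : ZMod (c.1.val + 1))‖ ^ 2 ≤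
        2 * ((M : ℝ) * A) ^ 2 := by
    intro M hM a A hA hA0
    have h1 := cls R M M a
    rw [← two_mul] at h1
    refine h1.trans ?_
    have h2 : ∑ m ∈ Ioc M (2 * M), ‖a m‖ ^ 2 ≤ M * A ^ 2 := by
      calc ∑ m ∈ Ioc M (2 * M), ‖a m‖ ^ 2 ≤ ∑ m ∈ Ioc M (2 * M), A ^ 2 :=
            Finset.sum_le_sum fun m hm => pow_le_pow_left₀ (norm_nonneg _) (hA m hm) 2
        _ = M * A ^ 2 := by
            rw [Finset.sum_const, Nat.card_Ioc, nsmul_eq_mul]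
            congr 2
            omega
    have h3 : ((R : ℝ)) ^ 4 ≤ M := by exact_mod_cast hM
    calc ((M : ℝ) + (R : ℝ) ^ 4) * ∑ m ∈ Ioc M (2 * M), ‖a m‖ ^ 2
        ≤ ((M : ℝ) + M) * (M * A ^ 2) := by
          refine mul_le_mul (by linarith) h2 (Finset.sum_nonneg fun _ _ => sq_nonneg _)
            (by positivity)
      _ = 2 * ((M : ℝ) * A) ^ 2 := by ring
  have h1 := key M hM a A hA hA0
  have h2 := key K hK b B hB hB0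
  have hCS := Finset.sum_mul_sq_le_sq_mul_sq (PC R)
    (fun c => ‖∑ m ∈ Ioc M (2 * M), a m * c.2 (m : ZMod (c.1.val + 1))‖)
    (fun c => ‖∑ k ∈ Ioc K (2 * K), b k * c.2 (k : ZMod (c.1.val + 1))‖)
  have h3 : (∑ c ∈ PC R, ‖(∑ m ∈ Ioc M (2 * M), a m * c.2 (m : ZMod (c.1.val + 1))) *
      ∑ k ∈ Ioc K (2 * K), b k * c.2 (k : ZMod (c.1.val + 1))‖) ^ 2 ≤
      (2 * M * K * A * B) ^ 2 := by
    simp only [norm_mul]
    refine hCS.trans ?_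
    calc _ ≤ (2 * ((M : ℝ) * A) ^ 2) * (2 * ((K : ℝ) * B) ^ 2) :=
          mul_le_mul h1 h2 (Finset.sum_nonneg fun _ _ => sq_nonneg _) (by positivity)
      _ = (2 * M * K * A * B) ^ 2 := by ring
  exact (pow_le_pow_iff_left₀ (Finset.sum_nonneg fun _ _ => norm_nonneg _) (by positivity) two_ne_zero).1 h3

end Pool.Agent.H21.MT
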