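import Pool.Agent.H21.MT.Gw

/-!
[H21 MT GWB]  Pointwise bounds of the Gaussian weights.

Proofs.
* `gw_comp`: with `u = log(N/x)`, `u' = log((N+h)/x)`, `0 ≤ u' - u ≤ h/N ≤ 1` (as `N > √x ≥ h`),
  `(log p)^(J+1) = (log x)^(J+1) (1 + u'/log x)^(J+1) ≤ (log x)^(J+1) exp((J+1)|u'|/log x)
  ≤ (log x)^(J+1) exp |u'|` (`log x ≥ J+1`), and `|u'| - u'^2/2 + u^2/4 ≤ 9/2`, `exp(9/2) ≤ 100`.
* `gw_tiny`: if `p ≤ 2√x` then `log(x/p) ≥ (1/2) log x - log 2 ≥ (9/20) log x`, square over 2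
  `≥ (log x)^2/10`; if `p > x^2` the same with `log(p/x) > log x`.
* `exp_log_sq`: `x^K exp(-ε (log x)^2) = exp(K log x - ε (log x)^2)` and `log x → ∞`.
-/

namespace Pool.Agent.H21.MT

open Finset Filter

theorem gw_comp (J h : ℕ) : ∀ᶠ x : ℝ in atTop, ∀ N ∈ Win x,
    (Real.log (N + h : ℕ)) ^ (J + 1) * gw x (N + h) ≤ 100 * (Real.log x) ^ (J + 1) * wN x N := by
  have hL : ∀ᶠ x : ℝ in atTop, ((J : ℝ) + 1) ≤ Real.log x :=
    Real.tendsto_log_atTop.eventually_ge_atTop _
  filter_upwards [hL, eventually_ge_atTop (1 : ℝ), eventually_ge_atTop ((h : ℝ) ^ 2)]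
    with x hx hx1 hxh N hN
  have hx0 : 0 < x := by linarith
  have hJ0 : (0 : ℝ) ≤ (J : ℝ) := Nat.cast_nonneg _
  have hLpos : 0 < Real.log x := by linarith
  unfold Win at hN
  rw [Finset.mem_Ioc] at hN
  have hN1 : Real.sqrt x < N := (Nat.floor_lt (Real.sqrt_nonneg _)).1 hN.1
  have hs1 : 1 ≤ Real.sqrt x := by
    rw [Real.one_le_sqrt]
    exact hx1
  have hsh : (h : ℝ) ≤ Real.sqrt x := Real.le_sqrt_of_sq_le hxh
  have hNpos : (0 : ℝ) < N := by linarith
  have hh0 : (0 : ℝ) ≤ (h : ℝ) := Nat.cast_nonneg _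
  have hNh : (0 : ℝ) < ((N + h : ℕ) : ℝ) := by
    push_cast
    linarith
  set L := Real.log x with hLdef
  set u := Real.log (N / x) with hu
  set u' := Real.log (((N + h : ℕ) : ℝ) / x) with hu'
  have e1 : Real.log ((N + h : ℕ) : ℝ) = L + u' := by
    rw [hu', Real.log_div hNh.ne' hx0.ne']
    ring
  have e2 : u' - u = Real.log (((N + h : ℕ) : ℝ) / N) := by
    rw [hu', hu, Real.log_div hNh.ne' hx0.ne', Real.log_div hNpos.ne' hx0.ne',
      Real.log_div hNh.ne' hNpos.ne']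
    ring
  have e3 : ((N + h : ℕ) : ℝ) / N = 1 + h / N := by
    push_cast
    field_simp
  have hhN : (h : ℝ) / N ≤ 1 := by
    rw [div_le_one hNpos]
    linarith
  have hhN0 : 0 ≤ (h : ℝ) / N := div_nonneg hh0 hNpos.le
  have d0 : 0 ≤ u' - u := by
    rw [e2, e3]
    exact Real.log_nonneg (by linarith)
  have d1 : u' - u ≤ 1 := by
    rw [e2, e3]
    have := Real.log_le_sub_one_of_pos (show (0 : ℝ) < 1 + h / N by linarith)
    linarith
  have hlogN : 0 ≤ L + u' := by
    rw [← e1]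
    apply Real.log_nonneg
    push_cast
    linarith
  -- the power
  have hp1 : L + u' ≤ L * Real.exp (|u'| / L) := by
    have h1 : 1 + |u'| / L ≤ Real.exp (|u'| / L) := by
      have := Real.add_one_le_exp (|u'| / L)
      linarith
    have h2 : L * (1 + |u'| / L) = L + |u'| := by
      field_simp
    have h3 : L * (1 + |u'| / L) ≤ L * Real.exp (|u'| / L) :=
      mul_le_mul_of_nonneg_left h1 hLpos.le
    have := le_abs_self u'
    linarith
  have hp2 : (L + u') ^ (J + 1) ≤ L ^ (J + 1) * Real.exp |u'| := by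
    calc (L + u') ^ (J + 1) ≤ (L * Real.exp (|u'| / L)) ^ (J + 1) :=
          pow_le_pow_left₀ hlogN hp1 _
      _ = L ^ (J + 1) * Real.exp (((J + 1 : ℕ) : ℝ) * (|u'| / L)) := by
          rw [mul_pow, Real.exp_nat_mul]
      _ ≤ L ^ (J + 1) * Real.exp |u'| := by
          apply mul_le_mul_of_nonneg_left _ (by positivity)
          apply Real.exp_le_exp.2
          have : ((J + 1 : ℕ) : ℝ) * (|u'| / L) = (((J + 1 : ℕ) : ℝ) / L) * |u'| := by
            field_simp
          rw [this]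
          have h4 : ((J + 1 : ℕ) : ℝ) / L ≤ 1 := by
            rw [div_le_one hLpos]
            push_cast
            exact hx
          calc ((J + 1 : ℕ) : ℝ) / L * |u'| ≤ 1 * |u'| :=
                mul_le_mul_of_nonneg_right h4 (abs_nonneg _)
            _ = |u'| := one_mul _
  unfold gw wN
  rw [← hu', ← hu, e1]
  have hmain : |u'| - u' ^ 2 / 2 ≤ 5 / 2 - u ^ 2 / 4 := by
    have ha : |u| ≤ |u'| + 1 := by
      rw [abs_le]
      constructor
      · have := neg_abs_le u'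
        linarith
      · have := le_abs_self u'
        linarith
    have hb : u ^ 2 ≤ (|u'| + 1) ^ 2 := by
      rw [← sq_abs u]
      exact pow_le_pow_left₀ (abs_nonneg _) ha 2
    have hc : u' ^ 2 = |u'| ^ 2 := (sq_abs u').symm
    nlinarith [sq_nonneg (|u'| - 3)]
  have hexp : Real.exp (5 / 2 : ℝ) ≤ 100 := by
    have h1 : Real.exp (5 / 2 : ℝ) ≤ Real.exp 3 := Real.exp_le_exp.2 (by norm_num)
    have h2 : Real.exp 3 = Real.exp 1 ^ 3 := by
      rw [← Real.exp_nat_mul]
      norm_num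
    have h3 : Real.exp 1 < 2.7182818286 := Real.exp_one_lt_d9
    have h4 : Real.exp 1 ^ 3 ≤ 3 ^ 3 := by
      apply pow_le_pow_left₀ (Real.exp_pos _).le
      linarith
    calc Real.exp (5 / 2 : ℝ) ≤ Real.exp 1 ^ 3 := by rw [← h2]; exact h1
      _ ≤ 3 ^ 3 := h4
      _ ≤ 100 := by norm_num
  calc (L + u') ^ (J + 1) * Real.exp (-u' ^ 2 / 2)
      ≤ (L ^ (J + 1) * Real.exp |u'|) * Real.exp (-u' ^ 2 / 2) :=
        mul_le_mul_of_nonneg_right hp2 (Real.exp_pos _).le
    _ = L ^ (J + 1) * Real.exp (|u'| - u' ^ 2 / 2) := by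
        rw [mul_assoc, ← Real.exp_add]
        congr 2
        ring
    _ ≤ L ^ (J + 1) * Real.exp (5 / 2 - u ^ 2 / 4) := by
        apply mul_le_mul_of_nonneg_left (Real.exp_le_exp.2 hmain) (by positivity)
    _ = Real.exp (5 / 2) * L ^ (J + 1) * Real.exp (-u ^ 2 / 4) := by
        rw [show (5 / 2 - u ^ 2 / 4 : ℝ) = 5 / 2 + -u ^ 2 / 4 by ring, Real.exp_add]
        ring
    _ ≤ 100 * L ^ (J + 1) * Real.exp (-u ^ 2 / 4) := by
        apply mul_le_mul_of_nonneg_right _ (Real.exp_pos _).le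
        exact mul_le_mul_of_nonneg_right hexp (by positivity)

theorem gw_tiny : ∀ᶠ x : ℝ in atTop, ∀ p : ℕ, 1 ≤ p → ((p : ℝ) ≤ 2 * Real.sqrt x ∨ x ^ 2 < p) →
    gw x p ≤ Real.exp (-(Real.log x) ^ 2 / 10) := by
  have hL : ∀ᶠ x : ℝ in atTop, 20 * Real.log 2 ≤ Real.log x :=
    Real.tendsto_log_atTop.eventually_ge_atTop _
  filter_upwards [hL, eventually_ge_atTop (1 : ℝ)] with x hx hx1 p hp hor
  have hx0 : 0 < x := by linarith
  have hl2 : 0 < Real.log 2 := Real.log_pos (by norm_num)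
  have hpos : (0 : ℝ) < p := by exact_mod_cast hp
  have hLpos : 0 < Real.log x := by linarith
  unfold gw
  apply Real.exp_le_exp.2
  set L := Real.log x with hLdef
  have e : Real.log (p / x) = Real.log p - L := Real.log_div hpos.ne' hx0.ne'
  have key : (9 / 20 * L) ^ 2 ≤ (Real.log (p / x)) ^ 2 := by
    rw [e]
    rcases hor with h | h
    · have h1 : Real.log p ≤ Real.log 2 + L / 2 := by
        calc Real.log p ≤ Real.log (2 * Real.sqrt x) := Real.log_le_log hpos h
          _ = Real.log 2 + L / 2 := by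
            rw [Real.log_mul (by norm_num) (by positivity), Real.log_sqrt hx0.le]
      have h2 : 9 / 20 * L ≤ L - Real.log p := by linarith
      calc (9 / 20 * L) ^ 2 ≤ (L - Real.log p) ^ 2 :=
            pow_le_pow_left₀ (by positivity) h2 2
        _ = (Real.log p - L) ^ 2 := by ring
    · have h1 : 2 * L ≤ Real.log p := by
        have := Real.log_le_log (by positivity) h.le
        rw [Real.log_pow] at this
        push_cast at this
        exact this
      have h2 : 9 / 20 * L ≤ Real.log p - L := by linarith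
      exact pow_le_pow_left₀ (by positivity) h2 2
  nlinarith [sq_nonneg L]

theorem exp_log_sq_gen (K : ℕ) (ε : ℝ) (hε : 0 < ε) :
    ∀ᶠ x : ℝ in atTop, x ^ K * Real.exp (-ε * (Real.log x) ^ 2) ≤ 1 := by
  have hL : ∀ᶠ x : ℝ in atTop, (K : ℝ) / ε ≤ Real.log x :=
    Real.tendsto_log_atTop.eventually_ge_atTop _
  filter_upwards [hL, eventually_ge_atTop (1 : ℝ)] with x hx hx1
  have hx0 : 0 < x := by linarith
  have hlog : 0 ≤ Real.log x := Real.log_nonneg hx1
  have e : x ^ K = Real.exp (K * Real.log x) := by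
    rw [Real.exp_nat_mul, Real.exp_log hx0]
  rw [e, ← Real.exp_add, Real.exp_le_one_iff]
  rw [div_le_iff₀ hε] at hx
  nlinarith [mul_le_mul_of_nonneg_right hx hlog]

theorem exp_log_sq (K : ℕ) : ∀ᶠ x : ℝ in atTop, x ^ K * Real.exp (-(Real.log x) ^ 2 / 10) ≤ 1 := by
  filter_upwards [exp_log_sq_gen K (1 / 10) (by norm_num)] with x hx
  have : -(Real.log x) ^ 2 / 10 = -(1 / 10 : ℝ) * (Real.log x) ^ 2 := by ring
  rw [this]
  exact hx

end Pool.Agent.H21.MT
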