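import Pool.Agent.H21.MT.Psi
import Pool.Agent.H21.MT.GwB
import Pool.Agent.H21.MT.Box

/-!
[H21 MT TY2]  Type II sums.

Proof.  Let `Y = ⌊x^3⌋₊`, `u = ⌊x^(1/5)⌋₊`, `R^4 ≤ u` (as `R^4 ≤ x^(1/5)` is an integer), and `L0`
minimal with `u 2^{L0} ≥ Y`, so `L0 ≤ 5 log x`, `u 2^{L0} ≤ 2 Y`.  The pairs `(m,k)` with
`m, k > u`, `m k ≤ Y` lie in the boxes `(u 2^i, u 2^{i+1}] × (u 2^j, u 2^{j+1}]`, `i, j < L0`.
Sum over all boxes: by `box` (`A = 1`, `B = log(2K) ≤ 5 log x`; extend `b` complex-valued) each is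
`≤ C (5 log x) (10 log x)^J x`, in total `≤ C' x (log x)^{J+3}`.
The pairs in boxes with `m k > Y`, i.e. `m k > x^3 - 1 ≥ x^2`: their terms are at most
`(log k)(log(mk))^J gw x (mk) ≤ (10 log x)^{J+1} exp(-(log x)^2/10)` (`gw_tiny`; note
`m k ≤ (2Y)^2 ≤ 4 x^6`), the number of pairs is `≤ 4 x^6`, the number of characters `≤ x`; for large
`x` all this is `≤ 1` (`exp_log_sq`).
-/

namespace Pool.Agent.H21.MT

open Finset Filter

/-- pairs with `m k ≤ Y` inside a big square -/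
theorem ty2_square (f : ℕ → ℕ → ℂ) (u Y D : ℕ) (hY : Y ≤ D) :
    ∑ m ∈ Ioc u Y, ∑ k ∈ Ioc u (Y / m), f m k =
      ∑ m ∈ Ioc u D, ∑ k ∈ Ioc u D, if m * k ≤ Y then f m k else 0 := by
  rw [← Finset.sum_subset (Finset.Ioc_subset_Ioc_right hY)]
  · refine Finset.sum_congr rfl fun m hm => ?_
    rw [← Finset.sum_filter]
    refine Finset.sum_congr ?_ fun _ _ => rfl
    have hm0 : 0 < m := lt_of_le_of_lt (Nat.zero_le _) (Finset.mem_Ioc.1 hm).1
    ext k
    rw [Finset.mem_filter, Finset.mem_Ioc, Finset.mem_Ioc, Nat.le_div_iff_mul_le hm0]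
    constructor
    · rintro ⟨h1, h2⟩
      refine ⟨⟨h1, ?_⟩, by rw [mul_comm]; exact h2⟩
      calc k = k * 1 := (mul_one k).symm
        _ ≤ k * m := Nat.mul_le_mul_left k hm0
        _ ≤ Y := h2
        _ ≤ D := hY
    · rintro ⟨⟨h1, _⟩, h2⟩
      exact ⟨h1, by rw [mul_comm]; exact h2⟩
  · intro m hm hm'
    refine Finset.sum_eq_zero fun k hk => ?_
    rw [Finset.mem_Ioc] at hm hm' hk
    have hk0 : 0 < k := lt_of_le_of_lt (Nat.zero_le _) hk.1
    have hmY : Y < m := by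
      by_contra h
      exact hm' ⟨hm.1, by omega⟩
    rw [if_neg]
    intro h
    have : m ≤ m * k := Nat.le_mul_of_pos_right m hk0
    omega

/-- dyadic splitting -/
theorem ty2_dyadic (g : ℕ → ℂ) (u n : ℕ) :
    ∑ m ∈ Ioc u (u * 2 ^ n), g m =
      ∑ i ∈ range n, ∑ m ∈ Ioc (u * 2 ^ i) (2 * (u * 2 ^ i)), g m := by
  induction n with
  | zero => simp
  | succ n ih =>
    rw [Finset.sum_range_succ, ← ih]
    have h1 : u * 2 ^ (n + 1) = 2 * (u * 2 ^ n) := by ring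
    rw [h1]
    exact (Finset.sum_Ioc_consecutive g (Nat.le_mul_of_pos_right u (by positivity))
      (by omega)).symm

theorem ty2_dyadic2 (f : ℕ → ℕ → ℂ) (u n : ℕ) :
    ∑ m ∈ Ioc u (u * 2 ^ n), ∑ k ∈ Ioc u (u * 2 ^ n), f m k =
      ∑ i ∈ range n, ∑ j ∈ range n, ∑ m ∈ Ioc (u * 2 ^ i) (2 * (u * 2 ^ i)),
        ∑ k ∈ Ioc (u * 2 ^ j) (2 * (u * 2 ^ j)), f m k := by
  rw [ty2_dyadic]
  refine Finset.sum_congr rfl fun i _ => ?_
  refine Eq.trans ?_ Finset.sum_comm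
  refine Finset.sum_congr rfl fun m _ => ?_
  exact ty2_dyadic _ u n

theorem ty2_split (f : ℕ → ℕ → ℂ) (u Y n : ℕ) (hY : Y ≤ u * 2 ^ n) :
    ‖∑ m ∈ Ioc u Y, ∑ k ∈ Ioc u (Y / m), f m k‖ ≤
      (∑ i ∈ range n, ∑ j ∈ range n, ‖∑ m ∈ Ioc (u * 2 ^ i) (2 * (u * 2 ^ i)),
        ∑ k ∈ Ioc (u * 2 ^ j) (2 * (u * 2 ^ j)), f m k‖) +
      ∑ m ∈ Ioc u (u * 2 ^ n), ∑ k ∈ Ioc u (u * 2 ^ n), if Y < m * k then ‖f m k‖ else 0 := by
  rw [ty2_square f u Y _ hY]
  have h1 : ∑ m ∈ Ioc u (u * 2 ^ n), ∑ k ∈ Ioc u (u * 2 ^ n), (if m * k ≤ Y then f m k else 0) =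
      ∑ m ∈ Ioc u (u * 2 ^ n), ∑ k ∈ Ioc u (u * 2 ^ n), f m k -
      ∑ m ∈ Ioc u (u * 2 ^ n), ∑ k ∈ Ioc u (u * 2 ^ n), (if Y < m * k then f m k else 0) := by
    rw [← Finset.sum_sub_distrib]
    refine Finset.sum_congr rfl fun m _ => ?_
    rw [← Finset.sum_sub_distrib]
    refine Finset.sum_congr rfl fun k _ => ?_
    by_cases h : m * k ≤ Y
    · rw [if_pos h, if_neg (not_lt.2 h), sub_zero]
    · rw [if_neg h, if_pos (not_le.1 h), sub_self]
  rw [h1, ty2_dyadic2]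
  refine (norm_sub_le _ _).trans (add_le_add ?_ ?_)
  · refine (norm_sum_le _ _).trans (Finset.sum_le_sum fun i _ => norm_sum_le _ _)
  · refine (norm_sum_le _ _).trans (Finset.sum_le_sum fun m _ => ?_)
    refine (norm_sum_le _ _).trans (Finset.sum_le_sum fun k _ => ?_)
    by_cases h : Y < m * k
    · rw [if_pos h, if_pos h]
    · rw [if_neg h, if_neg h, norm_zero]

theorem type2 (J : ℕ) : ∃ C : ℝ, 0 < C ∧ ∀ᶠ x : ℝ in atTop, ∀ R : ℕ, (R : ℝ) ≤ x ^ (1 / 20 : ℝ) →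
    ∀ a b : ℕ → ℂ, (∀ m, ‖a m‖ ≤ 1) → (∀ k, ‖b k‖ ≤ Real.log k) →
    ∑ c ∈ PC R, ‖∑ m ∈ Ioc ⌊x ^ (1 / 5 : ℝ)⌋₊ ⌊x ^ 3⌋₊,
      a m * ∑ k ∈ Ioc ⌊x ^ (1 / 5 : ℝ)⌋₊ (⌊x ^ 3⌋₊ / m), b k *
        (c.2 ((m * k : ℕ) : ZMod (c.1.val + 1)) *
        (((Real.log ((m * k : ℕ) : ℝ)) ^ J * gw x (m * k) : ℝ) : ℂ))‖ ≤
    C * x * (Real.log x) ^ (J + 3) := by
  obtain ⟨C, hC0, hbox⟩ := box J
  refine ⟨C * 4 * 8 ^ J * 25 + 1, by positivity, ?_⟩
  have he4 : ∀ᶠ x : ℝ in atTop, 8 * Real.log x ≤ x := by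
    have h := Real.isLittleO_log_id_atTop.def (c := 1 / 8) (by norm_num)
    filter_upwards [h, eventually_ge_atTop (1 : ℝ)] with x hx hx1
    have h1 : 0 ≤ Real.log x := Real.log_nonneg hx1
    rw [Real.norm_of_nonneg h1, id, Real.norm_of_nonneg (by linarith)] at hx
    linarith
  filter_upwards [he4, gw_tiny, exp_log_sq (J + 10), eventually_ge_atTop (Real.exp 2),
    eventually_ge_atTop (4 : ℝ)] with x h8 htiny hexp hx2 hx4 R hR a b ha hb
  have hx0 : 0 < x := by linarith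
  have hx1 : 1 ≤ x := by linarith
  obtain ⟨L, hL⟩ : ∃ L, L = Real.log x := ⟨_, rfl⟩
  have hL2 : 2 ≤ L := by
    rw [hL, Real.le_log_iff_exp_le hx0]
    exact hx2
  obtain ⟨Y, hYdef⟩ : ∃ Y, Y = ⌊x ^ 3⌋₊ := ⟨_, rfl⟩
  obtain ⟨u, hudef⟩ : ∃ u, u = ⌊x ^ (1 / 5 : ℝ)⌋₊ := ⟨_, rfl⟩
  have hx5 : (1 : ℝ) ≤ x ^ (1 / 5 : ℝ) := Real.one_le_rpow hx1 (by norm_num)
  have hu1 : 1 ≤ u := by
    rw [hudef]
    exact Nat.le_floor (by simpa using hx5)
  have hule : (u : ℝ) ≤ x ^ (1 / 5 : ℝ) := by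
    rw [hudef]
    exact Nat.floor_le (by linarith)
  have hYle : (Y : ℝ) ≤ x ^ 3 := by
    rw [hYdef]
    exact Nat.floor_le (by positivity)
  have hYlt : x ^ 3 < (Y : ℝ) + 1 := by
    rw [hYdef]
    exact Nat.lt_floor_add_one _
  have hY1 : 1 ≤ Y := by
    rw [hYdef]
    exact Nat.le_floor (by simpa using one_le_pow₀ hx1)
  have hR4 : R ^ 4 ≤ u := by
    rw [hudef]
    apply Nat.le_floor
    push_cast
    calc (R : ℝ) ^ 4 ≤ (x ^ (1 / 20 : ℝ)) ^ 4 := pow_le_pow_left₀ (by positivity) hR 4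
      _ = x ^ (1 / 5 : ℝ) := by
        rw [← Real.rpow_natCast, ← Real.rpow_mul hx0.le]
        norm_num
  have hcard : ((PC R).card : ℝ) ≤ x := by
    refine (card_PC R).trans ?_
    calc (R : ℝ) ^ 2 ≤ (x ^ (1 / 20 : ℝ)) ^ 2 := pow_le_pow_left₀ (by positivity) hR 2
      _ = x ^ (1 / 10 : ℝ) := by
        rw [← Real.rpow_natCast, ← Real.rpow_mul hx0.le]
        norm_num
      _ ≤ x ^ (1 : ℝ) := Real.rpow_le_rpow_of_exponent_le hx1 (by norm_num)
      _ = x := Real.rpow_one x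
  obtain ⟨n, hn⟩ : ∃ n, n = Nat.log 2 Y + 1 := ⟨_, rfl⟩
  have hYn : Y ≤ u * 2 ^ n := by
    have h1 : Y < 2 ^ n := by
      rw [hn]
      exact Nat.lt_pow_succ_log_self (by norm_num) Y
    calc Y ≤ 1 * 2 ^ n := by rw [one_mul]; exact h1.le
      _ ≤ u * 2 ^ n := Nat.mul_le_mul_right _ hu1
  have hpowlog : ((2 : ℝ) ^ Nat.log 2 Y) ≤ Y := by
    have := Nat.pow_log_le_self 2 (x := Y) (by omega)
    exact_mod_cast this
  have hn5 : (n : ℝ) ≤ 5 * L := by
    have h1 : (Nat.log 2 Y : ℝ) * Real.log 2 ≤ 3 * L := by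
      have h2 := Real.log_le_log (by positivity) (hpowlog.trans hYle)
      rw [Real.log_pow, Real.log_pow, ← hL] at h2
      exact_mod_cast h2
    have h3 : (0.69 : ℝ) ≤ Real.log 2 := by
      have := Real.log_two_gt_d9
      linarith
    have h4 : (Nat.log 2 Y : ℝ) * 0.69 ≤ 3 * L :=
      (mul_le_mul_of_nonneg_left h3 (Nat.cast_nonneg _)).trans h1
    rw [hn]
    push_cast
    nlinarith
  have hbig : ((u * 2 ^ n : ℕ) : ℝ) ≤ x ^ 4 := by
    have h1 : 2 * (x ^ (1 / 5 : ℝ)) ≤ x := by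
      have h2 : x ^ (1 / 5 : ℝ) ≤ x ^ (1 / 2 : ℝ) :=
        Real.rpow_le_rpow_of_exponent_le hx1 (by norm_num)
      rw [← Real.sqrt_eq_rpow] at h2
      have h3 : 2 ≤ Real.sqrt x := by
        rw [show (2 : ℝ) = Real.sqrt 4 by
          rw [show (4 : ℝ) = 2 ^ 2 by norm_num, Real.sqrt_sq (by norm_num)]]
        exact Real.sqrt_le_sqrt hx4
      have h4 : Real.sqrt x * Real.sqrt x = x := Real.mul_self_sqrt hx0.le
      nlinarith [Real.sqrt_nonneg x]
    push_cast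
    rw [hn, pow_succ]
    calc (u : ℝ) * (2 ^ Nat.log 2 Y * 2) = (2 * u) * 2 ^ Nat.log 2 Y := by ring
      _ ≤ (2 * x ^ (1 / 5 : ℝ)) * x ^ 3 := by
        refine mul_le_mul (by linarith) (hpowlog.trans hYle) (by positivity) (by positivity)
      _ ≤ x * x ^ 3 := mul_le_mul_of_nonneg_right h1 (by positivity)
      _ = x ^ 4 := by ring
  -- bounds in the square
  have hlogk : ∀ k : ℕ, k ≤ u * 2 ^ n → Real.log k ≤ 4 * L := by
    intro k hk
    rcases Nat.eq_zero_or_pos k with h0 | h0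
    · rw [h0]
      simp only [Nat.cast_zero, Real.log_zero]
      linarith
    · have h1 : (k : ℝ) ≤ x ^ 4 := le_trans (by exact_mod_cast hk) hbig
      have h2 := Real.log_le_log (by exact_mod_cast h0) h1
      rw [Real.log_pow, ← hL] at h2
      exact_mod_cast h2
  rw [← hL, ← hYdef, ← hudef]
  -- rewrite the sums
  have hT : ∀ c : Ch R, ∑ m ∈ Ioc u Y, a m * ∑ k ∈ Ioc u (Y / m), b k *
        (c.2 ((m * k : ℕ) : ZMod (c.1.val + 1)) *
        (((Real.log ((m * k : ℕ) : ℝ)) ^ J * gw x (m * k) : ℝ) : ℂ)) =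
      ∑ m ∈ Ioc u Y, ∑ k ∈ Ioc u (Y / m), a m * b k *
        c.2 ((m * k : ℕ) : ZMod (c.1.val + 1)) *
        (((Real.log ((m * k : ℕ) : ℝ)) ^ J * gw x (m * k) : ℝ) : ℂ) := by
    intro c
    refine Finset.sum_congr rfl fun m _ => ?_
    rw [Finset.mul_sum]
    refine Finset.sum_congr rfl fun k _ => ?_
    ring
  calc ∑ c ∈ PC R, ‖∑ m ∈ Ioc u Y, a m * ∑ k ∈ Ioc u (Y / m), b k *
        (c.2 ((m * k : ℕ) : ZMod (c.1.val + 1)) *
        (((Real.log ((m * k : ℕ) : ℝ)) ^ J * gw x (m * k) : ℝ) : ℂ))‖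
      ≤ ∑ c ∈ PC R, ((∑ i ∈ range n, ∑ j ∈ range n, ‖∑ m ∈ Ioc (u * 2 ^ i) (2 * (u * 2 ^ i)),
          ∑ k ∈ Ioc (u * 2 ^ j) (2 * (u * 2 ^ j)), a m * b k *
          c.2 ((m * k : ℕ) : ZMod (c.1.val + 1)) *
          (((Real.log ((m * k : ℕ) : ℝ)) ^ J * gw x (m * k) : ℝ) : ℂ)‖) +
          ∑ m ∈ Ioc u (u * 2 ^ n), ∑ k ∈ Ioc u (u * 2 ^ n), if Y < m * k then
            ‖a m * b k * c.2 ((m * k : ℕ) : ZMod (c.1.val + 1)) *
            (((Real.log ((m * k : ℕ) : ℝ)) ^ J * gw x (m * k) : ℝ) : ℂ)‖ else 0) := by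
        refine Finset.sum_le_sum fun c _ => ?_
        rw [hT c]
        exact ty2_split _ u Y n hYn
    _ = (∑ i ∈ range n, ∑ j ∈ range n, ∑ c ∈ PC R,
          ‖∑ m ∈ Ioc (u * 2 ^ i) (2 * (u * 2 ^ i)),
          ∑ k ∈ Ioc (u * 2 ^ j) (2 * (u * 2 ^ j)), a m * b k *
          c.2 ((m * k : ℕ) : ZMod (c.1.val + 1)) *
          (((Real.log ((m * k : ℕ) : ℝ)) ^ J * gw x (m * k) : ℝ) : ℂ)‖) +
          ∑ c ∈ PC R, ∑ m ∈ Ioc u (u * 2 ^ n), ∑ k ∈ Ioc u (u * 2 ^ n), (if Y < m * k then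
            ‖a m * b k * c.2 ((m * k : ℕ) : ZMod (c.1.val + 1)) *
            (((Real.log ((m * k : ℕ) : ℝ)) ^ J * gw x (m * k) : ℝ) : ℂ)‖ else 0) := by
        rw [Finset.sum_add_distrib]
        congr 1
        rw [Finset.sum_comm]
        refine Finset.sum_congr rfl fun i _ => ?_
        rw [Finset.sum_comm]
    _ ≤ (∑ i ∈ range n, ∑ j ∈ range n, C * 1 * (4 * L) * (8 * L) ^ J * x) +
          ∑ c ∈ PC R, ∑ m ∈ Ioc u (u * 2 ^ n), ∑ k ∈ Ioc u (u * 2 ^ n),
            (8 * L) ^ (J + 1) * Real.exp (-L ^ 2 / 10) := by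
        refine add_le_add (Finset.sum_le_sum fun i hi => Finset.sum_le_sum fun j hj => ?_)
          (Finset.sum_le_sum fun c _ => Finset.sum_le_sum fun m hm =>
            Finset.sum_le_sum fun k hk => ?_)
        · rw [Finset.mem_range] at hi hj
          have hMu : 2 * (u * 2 ^ i) ≤ u * 2 ^ n := by
            calc 2 * (u * 2 ^ i) = u * 2 ^ (i + 1) := by ring
              _ ≤ u * 2 ^ n := Nat.mul_le_mul_left u (Nat.pow_le_pow_right (by norm_num) hi)
          have hKu : 2 * (u * 2 ^ j) ≤ u * 2 ^ n := by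
            calc 2 * (u * 2 ^ j) = u * 2 ^ (j + 1) := by ring
              _ ≤ u * 2 ^ n := Nat.mul_le_mul_left u (Nat.pow_le_pow_right (by norm_num) hj)
          have hb1 := hbox x hx1 R (u * 2 ^ i) (u * 2 ^ j)
            (hR4.trans (Nat.le_mul_of_pos_right u (by positivity)))
            (hR4.trans (Nat.le_mul_of_pos_right u (by positivity))) a b 1 (4 * L)
            zero_le_one (by linarith) (fun m _ => ha m) (fun k hk =>
              (hb k).trans (hlogk k ((Finset.mem_Ioc.1 hk).2.trans hKu)))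
          refine hb1.trans ?_
          have hlog : Real.log (4 * ((u * 2 ^ i : ℕ) : ℝ) * ((u * 2 ^ j : ℕ) : ℝ)) ≤ 8 * L := by
            have h1 : 4 * ((u * 2 ^ i : ℕ) : ℝ) * ((u * 2 ^ j : ℕ) : ℝ) ≤ x ^ 8 := by
              have h2 : ((2 * (u * 2 ^ i) : ℕ) : ℝ) ≤ x ^ 4 :=
                le_trans (by exact_mod_cast hMu) hbig
              have h3 : ((2 * (u * 2 ^ j) : ℕ) : ℝ) ≤ x ^ 4 :=
                le_trans (by exact_mod_cast hKu) hbig
              calc 4 * ((u * 2 ^ i : ℕ) : ℝ) * ((u * 2 ^ j : ℕ) : ℝ)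
                  = ((2 * (u * 2 ^ i) : ℕ) : ℝ) * ((2 * (u * 2 ^ j) : ℕ) : ℝ) := by
                    push_cast; ring
                _ ≤ x ^ 4 * x ^ 4 := mul_le_mul h2 h3 (Nat.cast_nonneg _) (by positivity)
                _ = x ^ 8 := by ring
            have h4 : 0 < 4 * ((u * 2 ^ i : ℕ) : ℝ) * ((u * 2 ^ j : ℕ) : ℝ) := by
              have : (0 : ℝ) < u := by exact_mod_cast hu1
              push_cast
              positivity
            have h5 := Real.log_le_log h4 h1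
            rw [Real.log_pow, ← hL] at h5
            exact_mod_cast h5
          have hlog0 : 0 ≤ Real.log (4 * ((u * 2 ^ i : ℕ) : ℝ) * ((u * 2 ^ j : ℕ) : ℝ)) := by
            apply Real.log_nonneg
            have h6 : 1 ≤ u * 2 ^ i := Nat.one_le_iff_ne_zero.2 (by positivity)
            have h7 : 1 ≤ u * 2 ^ j := Nat.one_le_iff_ne_zero.2 (by positivity)
            have h6' : (1 : ℝ) ≤ ((u * 2 ^ i : ℕ) : ℝ) := by exact_mod_cast h6
            have h7' : (1 : ℝ) ≤ ((u * 2 ^ j : ℕ) : ℝ) := by exact_mod_cast h7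
            nlinarith
          refine mul_le_mul_of_nonneg_right ?_ hx0.le
          refine mul_le_mul_of_nonneg_left (pow_le_pow_left₀ hlog0 hlog J) ?_
          have : 0 ≤ L := by linarith
          positivity
        · rw [Finset.mem_Ioc] at hm hk
          have hm0 : 0 < m := lt_of_le_of_lt (Nat.zero_le _) hm.1
          have hk0 : 0 < k := lt_of_le_of_lt (Nat.zero_le _) hk.1
          have hE : 0 ≤ (8 * L) ^ (J + 1) * Real.exp (-L ^ 2 / 10) := by
            have : 0 ≤ L := by linarith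
            positivity
          by_cases h : Y < m * k
          · rw [if_pos h]
            have hp : 1 ≤ m * k := Nat.mul_pos hm0 hk0
            have h1 : gw x (m * k) ≤ Real.exp (-L ^ 2 / 10) := by
              rw [hL]
              refine htiny (m * k) hp (Or.inr ?_)
              have h2 : (Y : ℝ) + 1 ≤ ((m * k : ℕ) : ℝ) := by exact_mod_cast h
              have h3 : x ^ 2 ≤ x ^ 3 := pow_le_pow_right₀ hx1 (by norm_num)
              linarith
            have h4 : Real.log ((m * k : ℕ) : ℝ) ≤ 8 * L := by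
              rw [Nat.cast_mul, Real.log_mul (by positivity) (by positivity)]
              have := hlogk m hm.2
              have := hlogk k hk.2
              linarith
            have h5 : 0 ≤ Real.log ((m * k : ℕ) : ℝ) := Real.log_natCast_nonneg _
            have h6 : ‖c.2 ((m * k : ℕ) : ZMod (c.1.val + 1))‖ ≤ 1 :=
              DirichletCharacter.norm_le_one _ _
            rw [norm_mul, norm_mul, norm_mul, Complex.norm_real,
              Real.norm_of_nonneg (mul_nonneg (pow_nonneg h5 J) (gw_pos _ _).le)]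
            calc ‖a m‖ * ‖b k‖ * ‖c.2 ((m * k : ℕ) : ZMod (c.1.val + 1))‖ *
                (Real.log ((m * k : ℕ) : ℝ) ^ J * gw x (m * k))
                ≤ 1 * (8 * L) * 1 * ((8 * L) ^ J * Real.exp (-L ^ 2 / 10)) := by
                  have hbk : ‖b k‖ ≤ 8 * L := (hb k).trans ((hlogk k hk.2).trans (by linarith))
                  have hL0 : 0 ≤ 8 * L := by linarith
                  exact mul_le_mul (mul_le_mul (mul_le_mul (ha m) hbk (norm_nonneg _) zero_le_one)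
                    h6 (norm_nonneg _) (by positivity)) (mul_le_mul (pow_le_pow_left₀ h5 h4 J) h1
                    (gw_pos _ _).le (by positivity)) (mul_nonneg (pow_nonneg h5 J) (gw_pos _ _).le)
                    (by positivity)
              _ = (8 * L) ^ (J + 1) * Real.exp (-L ^ 2 / 10) := by ring
          · rw [if_neg h]
            exact hE
    _ ≤ C * 4 * 8 ^ J * 25 * (x * L ^ (J + 3)) + 1 := by
        refine add_le_add ?_ ?_
        · rw [Finset.sum_const, Finset.sum_const, Finset.card_range, nsmul_eq_mul, nsmul_eq_mul]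
          have hL0 : 0 ≤ L := by linarith
          calc (n : ℝ) * ((n : ℝ) * (C * 1 * (4 * L) * (8 * L) ^ J * x))
              ≤ (5 * L) * ((5 * L) * (C * 1 * (4 * L) * (8 * L) ^ J * x)) := by
                gcongr
            _ = C * 4 * 8 ^ J * 25 * (x * L ^ (J + 3)) := by
                rw [mul_pow]
                ring
        · rw [Finset.sum_const, Finset.sum_const, Finset.sum_const, Nat.card_Ioc,
            nsmul_eq_mul, nsmul_eq_mul, nsmul_eq_mul]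
          have h1 : ((u * 2 ^ n - u : ℕ) : ℝ) ≤ x ^ 4 :=
            le_trans (by exact_mod_cast Nat.sub_le _ _) hbig
          have hL0 : 0 ≤ L := by linarith
          have h8' : 8 * L ≤ x := by rw [hL]; exact h8
          calc ((PC R).card : ℝ) * (((u * 2 ^ n - u : ℕ) : ℝ) * (((u * 2 ^ n - u : ℕ) : ℝ) *
              ((8 * L) ^ (J + 1) * Real.exp (-L ^ 2 / 10))))
              ≤ x * (x ^ 4 * (x ^ 4 * (x ^ (J + 1) * Real.exp (-L ^ 2 / 10)))) := by
                gcongr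
            _ = x ^ (J + 10) * Real.exp (-(Real.log x) ^ 2 / 10) := by
                rw [hL]
                ring
            _ ≤ 1 := hexp
    _ ≤ (C * 4 * 8 ^ J * 25 + 1) * x * L ^ (J + 3) := by
        have h1 : 1 ≤ x * L ^ (J + 3) := by
          have h2 : 1 ≤ L ^ (J + 3) := one_le_pow₀ (by linarith)
          nlinarith
        have h3 : (C * 4 * 8 ^ J * 25 + 1) * x * L ^ (J + 3) =
          C * 4 * 8 ^ J * 25 * (x * L ^ (J + 3)) + x * L ^ (J + 3) := by ring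
        rw [h3]
        linarith

end Pool.Agent.H21.MT
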