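import Pool.Agent.H21.MT.Ty1
import Pool.Agent.H21.MT.Ty2
import Pool.Agent.H21.MT.Vau

/-!
[H21 MT PRIM]  The sum over all primitive characters.

Proof.  For `c ∈ PC R` apply `vaughan u`, `u = ⌊x^(1/5)⌋₊`, `Y = ⌊x^3⌋₊`, with
`F n = χ n (log n)^J gw x n`.
First sum: `n ≤ u ≤ 2√x`, so `≤ u log u (log u)^J exp(-(log x)^2/10)` (`gw_tiny`).
Second and third sums: `F(m k) = χ m χ k (log(mk))^J gw x (mk)`; `type1` with `e = 1`, `e = 0`:
`≤ u C q (log x)^{J+1}` and `≤ u^2 log(u^2) C q (log x)^J`, `q ≤ R ≤ x^{1/20}`.  Summed over the at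
most `R^2` characters these three are `≤ x` for large `x` (`2/5 + 3/20 < 1`).
Fourth sum: `type2` with `a m = μ m`, `b`.
-/

namespace Pool.Agent.H21.MT

open Finset Filter

/-- the function to which Vaughan's identity is applied -/
noncomputable def vF (J : ℕ) (x : ℝ) {q : ℕ} (χ : DirichletCharacter ℂ q) (n : ℕ) : ℂ :=
  χ (n : ZMod q) * (((Real.log (n : ℝ)) ^ J * gw x n : ℝ) : ℂ)

theorem Psi_eq (J : ℕ) (x : ℝ) {q : ℕ} (χ : DirichletCharacter ℂ q) :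
    Psi J x χ = ∑ n ∈ Icc 1 ⌊x ^ 3⌋₊,
      ((ArithmeticFunction.vonMangoldt n : ℝ) : ℂ) * vF J x χ n := by
  unfold Psi wt vF
  refine Finset.sum_congr rfl fun n _ => ?_
  push_cast
  ring

theorem prim_t1 (J u : ℕ) (x : ℝ) (hx : 3 ≤ x) (hu : (u : ℝ) ≤ x ^ (1 / 5 : ℝ)) {q : ℕ}
    (χ : DirichletCharacter ℂ q) :
    ‖∑ n ∈ (Icc 1 ⌊x ^ 3⌋₊).filter (fun n => n ≤ u),
      ((ArithmeticFunction.vonMangoldt n : ℝ) : ℂ) * vF J x χ n‖ ≤
    x ^ (1 / 5 : ℝ) * Real.log x ^ (J + 1) := by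
  have hx1 : 1 ≤ x := by linarith
  have hL : 0 ≤ Real.log x := Real.log_nonneg hx1
  have hsub : (Icc 1 ⌊x ^ 3⌋₊).filter (fun n => n ≤ u) ⊆ Icc 1 u := by
    intro n hn
    simp only [mem_filter, mem_Icc] at hn ⊢
    omega
  have hterm : ∀ n ∈ (Icc 1 ⌊x ^ 3⌋₊).filter (fun n => n ≤ u),
      ‖((ArithmeticFunction.vonMangoldt n : ℝ) : ℂ) * vF J x χ n‖ ≤ Real.log x ^ (J + 1) := by
    intro n hn
    simp only [mem_filter, mem_Icc] at hn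
    have hn1 : (1 : ℝ) ≤ n := by exact_mod_cast hn.1.1
    have hnu : (n : ℝ) ≤ x := by
      calc (n : ℝ) ≤ u := by exact_mod_cast hn.2
        _ ≤ x ^ (1 / 5 : ℝ) := hu
        _ ≤ x ^ (1 : ℝ) := Real.rpow_le_rpow_of_exponent_le hx1 (by norm_num)
        _ = x := Real.rpow_one x
    have hlog0 : 0 ≤ Real.log (n : ℝ) := Real.log_nonneg hn1
    have hlog : Real.log (n : ℝ) ≤ Real.log x := Real.log_le_log (by linarith) hnu
    have hLam : ArithmeticFunction.vonMangoldt n ≤ Real.log x :=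
      ArithmeticFunction.vonMangoldt_le_log.trans hlog
    have hLam0 : 0 ≤ ArithmeticFunction.vonMangoldt n := ArithmeticFunction.vonMangoldt_nonneg
    unfold vF
    rw [norm_mul, norm_mul, Complex.norm_real, Complex.norm_real, Real.norm_of_nonneg hLam0,
      Real.norm_of_nonneg (mul_nonneg (pow_nonneg hlog0 _) (gw_pos x n).le), pow_succ']
    have h1 : ‖χ (n : ZMod q)‖ ≤ 1 := DirichletCharacter.norm_le_one χ _
    have h2 : Real.log (n : ℝ) ^ J * gw x n ≤ Real.log x ^ J :=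
      calc Real.log (n : ℝ) ^ J * gw x n ≤ Real.log x ^ J * 1 :=
            mul_le_mul (pow_le_pow_left₀ hlog0 hlog J) (gw_le_one x n) (gw_pos x n).le
              (pow_nonneg hL _)
        _ = _ := mul_one _
    have h3 : ‖χ (n : ZMod q)‖ * (Real.log (n : ℝ) ^ J * gw x n) ≤ 1 * Real.log x ^ J :=
      mul_le_mul h1 h2 (mul_nonneg (pow_nonneg hlog0 _) (gw_pos x n).le) zero_le_one
    rw [one_mul] at h3
    exact mul_le_mul hLam h3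
      (mul_nonneg (norm_nonneg _) (mul_nonneg (pow_nonneg hlog0 _) (gw_pos x n).le)) hL
  calc _ ≤ ∑ n ∈ (Icc 1 ⌊x ^ 3⌋₊).filter (fun n => n ≤ u), Real.log x ^ (J + 1) :=
        norm_sum_le_of_le _ hterm
    _ = (((Icc 1 ⌊x ^ 3⌋₊).filter (fun n => n ≤ u)).card : ℝ) * Real.log x ^ (J + 1) := by
        rw [sum_const, nsmul_eq_mul]
    _ ≤ x ^ (1 / 5 : ℝ) * Real.log x ^ (J + 1) := by
        apply mul_le_mul_of_nonneg_right _ (pow_nonneg hL _)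
        refine le_trans ?_ hu
        have := card_le_card hsub
        rw [Nat.card_Icc, Nat.add_sub_cancel] at this
        exact_mod_cast this

theorem prim_t23 (J e u : ℕ) (C x D : ℝ) (hD : 0 ≤ D)
    (hC : ∀ m : ℕ, 1 ≤ m → ∀ (q : ℕ) [NeZero q]
    (χ : DirichletCharacter ℂ q), χ ≠ 1 →
    ‖∑ k ∈ Icc 1 (⌊x ^ 3⌋₊ / m), χ (k : ZMod q) *
      (((Real.log k) ^ e * (Real.log ((m * k : ℕ) : ℝ)) ^ J * gw x (m * k) : ℝ) : ℂ)‖ ≤
    C * q * (Real.log x) ^ (J + e))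
    (U : ℕ) (w : ℕ → ℂ) (hw : ∀ m ∈ Icc 1 U, ‖w m‖ ≤ D) (q : ℕ) [NeZero q]
    (χ : DirichletCharacter ℂ q) (hχ : χ ≠ 1) :
    ‖∑ m ∈ Icc 1 U, w m * ∑ k ∈ Icc 1 (⌊x ^ 3⌋₊ / m),
      (((Real.log k) ^ e : ℝ) : ℂ) * vF J x χ (m * k)‖ ≤
    U * (D * (C * q * (Real.log x) ^ (J + e))) := by
  have hterm : ∀ m ∈ Icc 1 U, ‖w m * ∑ k ∈ Icc 1 (⌊x ^ 3⌋₊ / m),
      (((Real.log k) ^ e : ℝ) : ℂ) * vF J x χ (m * k)‖ ≤
      D * (C * q * (Real.log x) ^ (J + e)) := by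
    intro m hm
    have hm1 : 1 ≤ m := (mem_Icc.mp hm).1
    have e1 : ∑ k ∈ Icc 1 (⌊x ^ 3⌋₊ / m), (((Real.log k) ^ e : ℝ) : ℂ) * vF J x χ (m * k) =
        χ (m : ZMod q) * ∑ k ∈ Icc 1 (⌊x ^ 3⌋₊ / m), χ (k : ZMod q) *
      (((Real.log k) ^ e * (Real.log ((m * k : ℕ) : ℝ)) ^ J * gw x (m * k) : ℝ) : ℂ) := by
      rw [mul_sum]
      refine Finset.sum_congr rfl fun k _ => ?_
      unfold vF
      rw [Nat.cast_mul (α := ZMod q), map_mul]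
      push_cast
      ring
    rw [e1, norm_mul, norm_mul]
    have h1 : ‖χ (m : ZMod q)‖ ≤ 1 := DirichletCharacter.norm_le_one χ _
    have h2 := hC m hm1 q χ hχ
    have h3 := mul_le_mul h1 h2 (norm_nonneg _) zero_le_one
    rw [one_mul] at h3
    exact mul_le_mul (hw m hm) h3 (mul_nonneg (norm_nonneg _) (norm_nonneg _)) hD
  calc _ ≤ ∑ m ∈ Icc 1 U, D * (C * q * (Real.log x) ^ (J + e)) := norm_sum_le_of_le _ hterm
    _ = _ := by rw [sum_const, nsmul_eq_mul, Nat.card_Icc, Nat.add_sub_cancel]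

theorem prim_sum (J : ℕ) : ∃ C : ℝ, 0 < C ∧ ∀ᶠ x : ℝ in atTop, ∀ R : ℕ,
    (R : ℝ) ≤ x ^ (1 / 20 : ℝ) →
    ∑ c ∈ PC R, ‖Psi J x c.2‖ ≤ C * x * (Real.log x) ^ (J + 3) := by
  obtain ⟨C1, hC1, h1⟩ := type1 J 1
  obtain ⟨C0, hC0, h0⟩ := type1 J 0
  obtain ⟨C2, hC2, h2⟩ := type2 J
  refine ⟨1 + C1 + C0 + C2, by positivity, ?_⟩
  filter_upwards [h2, eventually_ge_atTop (3 : ℝ)] with x h2 hx R hR
  have hx0 : 0 < x := by linarith
  have hx1 : 1 ≤ x := by linarith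
  have hL1 : 1 ≤ Real.log x := by
    rw [← Real.log_exp 1]
    apply Real.log_le_log (Real.exp_pos 1)
    exact Real.exp_one_lt_three.le.trans hx
  have hL : 0 ≤ Real.log x := by linarith
  set u := ⌊x ^ (1 / 5 : ℝ)⌋₊ with hu
  have hpow : 1 ≤ x ^ (1 / 5 : ℝ) := Real.one_le_rpow hx1 (by norm_num)
  have hu1 : 1 ≤ u := by
    rw [hu, Nat.one_le_floor_iff]
    exact hpow
  have hux : (u : ℝ) ≤ x ^ (1 / 5 : ℝ) := Nat.floor_le (by positivity)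
  obtain ⟨cc, b, hcc, hb, hV⟩ := vaughan u hu1
  -- the bound for one character
  have hone : ∀ c ∈ PC R, ‖Psi J x c.2‖ ≤
      x ^ (9 / 20 : ℝ) * Real.log x ^ (J + 1) * (1 + C1 + C0) +
      ‖∑ m ∈ Ioc ⌊x ^ (1 / 5 : ℝ)⌋₊ ⌊x ^ 3⌋₊,
      ((ArithmeticFunction.moebius m : ℤ) : ℂ) *
        ∑ k ∈ Ioc ⌊x ^ (1 / 5 : ℝ)⌋₊ (⌊x ^ 3⌋₊ / m), ((b k : ℝ) : ℂ) *
        (c.2 ((m * k : ℕ) : ZMod (c.1.val + 1)) *
        (((Real.log ((m * k : ℕ) : ℝ)) ^ J * gw x (m * k) : ℝ) : ℂ))‖ := by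
    intro c hc
    have hq : ((c.1.val + 1 : ℕ) : ℝ) ≤ x ^ (1 / 20 : ℝ) := by
      refine le_trans ?_ hR
      exact_mod_cast c.1.2
    have hne := ch_ne_one c hc
    rw [Psi_eq, hV]
    have b1 := prim_t1 J u x hx hux c.2
    have b2 := prim_t23 J 1 u C1 x 1 zero_le_one (fun m hm q _ χ hχ => h1 x hx m hm q χ hχ) u
      (fun m => ((ArithmeticFunction.moebius m : ℤ) : ℂ)) (fun m _ => by
        have := ArithmeticFunction.abs_moebius_le_one (n := m)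
        rw [Complex.norm_intCast]
        exact_mod_cast this) (c.1.val + 1) c.2 hne
    have b3 := prim_t23 J 0 u C0 x (Real.log x) hL (fun m hm q _ χ hχ => h0 x hx m hm q χ hχ)
      (u * u) (fun m => ((cc m : ℝ) : ℂ)) (fun m hm => by
        rw [Complex.norm_real, Real.norm_eq_abs]
        refine (hcc m).trans ?_
        have hm1 : (1 : ℝ) ≤ m := by exact_mod_cast (mem_Icc.mp hm).1
        apply Real.log_le_log (by linarith)
        have hm2 : (m : ℝ) ≤ (u : ℝ) * u := by exact_mod_cast (mem_Icc.mp hm).2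
        calc (m : ℝ) ≤ (u : ℝ) * u := hm2
          _ ≤ x ^ (1 / 5 : ℝ) * x ^ (1 / 5 : ℝ) := by gcongr
          _ = x ^ (2 / 5 : ℝ) := by rw [← Real.rpow_add hx0]; norm_num
          _ ≤ x ^ (1 : ℝ) := Real.rpow_le_rpow_of_exponent_le hx1 (by norm_num)
          _ = x := Real.rpow_one x) (c.1.val + 1) c.2 hne
    simp only [pow_one] at b2
    simp only [pow_zero, Complex.ofReal_one, one_mul, add_zero] at b3
    have k1 : x ^ (1 / 5 : ℝ) * Real.log x ^ (J + 1) ≤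
        x ^ (9 / 20 : ℝ) * Real.log x ^ (J + 1) := by
      apply mul_le_mul_of_nonneg_right _ (pow_nonneg hL _)
      exact Real.rpow_le_rpow_of_exponent_le hx1 (by norm_num)
    have k2 : (u : ℝ) * (1 * (C1 * ((c.1.val + 1 : ℕ) : ℝ) * Real.log x ^ (J + 1))) ≤
        x ^ (9 / 20 : ℝ) * Real.log x ^ (J + 1) * C1 := by
      have : (u : ℝ) * ((c.1.val + 1 : ℕ) : ℝ) ≤ x ^ (9 / 20 : ℝ) := by
        calc (u : ℝ) * ((c.1.val + 1 : ℕ) : ℝ) ≤ x ^ (1 / 5 : ℝ) * x ^ (1 / 20 : ℝ) := by gcongr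
          _ = x ^ (1 / 4 : ℝ) := by rw [← Real.rpow_add hx0]; norm_num
          _ ≤ x ^ (9 / 20 : ℝ) := Real.rpow_le_rpow_of_exponent_le hx1 (by norm_num)
      calc _ = ((u : ℝ) * ((c.1.val + 1 : ℕ) : ℝ)) * (Real.log x ^ (J + 1) * C1) := by ring
        _ ≤ x ^ (9 / 20 : ℝ) * (Real.log x ^ (J + 1) * C1) := by gcongr
        _ = _ := by ring
    have k3 : ((u * u : ℕ) : ℝ) * (Real.log x * (C0 * ((c.1.val + 1 : ℕ) : ℝ) *
        Real.log x ^ J)) ≤ x ^ (9 / 20 : ℝ) * Real.log x ^ (J + 1) * C0 := by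
      have : ((u * u : ℕ) : ℝ) * ((c.1.val + 1 : ℕ) : ℝ) ≤ x ^ (9 / 20 : ℝ) := by
        rw [Nat.cast_mul]
        calc (u : ℝ) * u * ((c.1.val + 1 : ℕ) : ℝ) ≤
            x ^ (1 / 5 : ℝ) * x ^ (1 / 5 : ℝ) * x ^ (1 / 20 : ℝ) := by gcongr
          _ = x ^ (9 / 20 : ℝ) := by rw [← Real.rpow_add hx0, ← Real.rpow_add hx0]; norm_num
      calc _ = (((u * u : ℕ) : ℝ) * ((c.1.val + 1 : ℕ) : ℝ)) * (Real.log x ^ (J + 1) * C0) := by
            rw [pow_succ]; ring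
        _ ≤ x ^ (9 / 20 : ℝ) * (Real.log x ^ (J + 1) * C0) := by gcongr
        _ = _ := by ring
    refine (norm_add_le _ _).trans ?_
    refine (add_le_add_left ((norm_sub_le _ _).trans
      (add_le_add_left (norm_add_le _ _) _)) _).trans ?_
    have b2' := b2.trans k2
    have b3' := b3.trans k3
    have b1' := b1.trans k1
    have hlast : ‖∑ m ∈ Ioc u ⌊x ^ 3⌋₊, ((ArithmeticFunction.moebius m : ℤ) : ℂ) *
        ∑ k ∈ Ioc u (⌊x ^ 3⌋₊ / m), ((b k : ℝ) : ℂ) * vF J x c.2 (m * k)‖ =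
        ‖∑ m ∈ Ioc ⌊x ^ (1 / 5 : ℝ)⌋₊ ⌊x ^ 3⌋₊,
      ((ArithmeticFunction.moebius m : ℤ) : ℂ) *
        ∑ k ∈ Ioc ⌊x ^ (1 / 5 : ℝ)⌋₊ (⌊x ^ 3⌋₊ / m), ((b k : ℝ) : ℂ) *
        (c.2 ((m * k : ℕ) : ZMod (c.1.val + 1)) *
        (((Real.log ((m * k : ℕ) : ℝ)) ^ J * gw x (m * k) : ℝ) : ℂ))‖ := rfl
    rw [hlast]
    linarith
  have hsum := h2 R hR (fun m => ((ArithmeticFunction.moebius m : ℤ) : ℂ))
    (fun k => ((b k : ℝ) : ℂ)) (fun m => by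
        have := ArithmeticFunction.abs_moebius_le_one (n := m)
        rw [Complex.norm_intCast]
        exact_mod_cast this) (fun k => by
        rw [Complex.norm_real, Real.norm_eq_abs]
        exact hb k)
  have hcard : ((PC R).card : ℝ) ≤ x ^ (1 / 10 : ℝ) := by
    refine (card_PC R).trans ?_
    calc (R : ℝ) ^ 2 = (R : ℝ) * R := sq _
      _ ≤ x ^ (1 / 20 : ℝ) * x ^ (1 / 20 : ℝ) := by gcongr
      _ = x ^ (1 / 10 : ℝ) := by rw [← Real.rpow_add hx0]; norm_num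
  have hmain : ((PC R).card : ℝ) * (x ^ (9 / 20 : ℝ) * Real.log x ^ (J + 1) * (1 + C1 + C0)) ≤
      x * Real.log x ^ (J + 3) * (1 + C1 + C0) := by
    have e1 : ((PC R).card : ℝ) * x ^ (9 / 20 : ℝ) ≤ x := by
      calc ((PC R).card : ℝ) * x ^ (9 / 20 : ℝ) ≤ x ^ (1 / 10 : ℝ) * x ^ (9 / 20 : ℝ) := by gcongr
        _ = x ^ (11 / 20 : ℝ) := by rw [← Real.rpow_add hx0]; norm_num
        _ ≤ x ^ (1 : ℝ) := Real.rpow_le_rpow_of_exponent_le hx1 (by norm_num)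
        _ = x := Real.rpow_one x
    have e2 : Real.log x ^ (J + 1) ≤ Real.log x ^ (J + 3) := pow_le_pow_right₀ hL1 (by omega)
    calc _ = (((PC R).card : ℝ) * x ^ (9 / 20 : ℝ)) * Real.log x ^ (J + 1) * (1 + C1 + C0) := by
          ring
      _ ≤ x * Real.log x ^ (J + 3) * (1 + C1 + C0) := by gcongr
  calc ∑ c ∈ PC R, ‖Psi J x c.2‖ ≤ ∑ c ∈ PC R, (x ^ (9 / 20 : ℝ) * Real.log x ^ (J + 1) *
        (1 + C1 + C0) + ‖∑ m ∈ Ioc ⌊x ^ (1 / 5 : ℝ)⌋₊ ⌊x ^ 3⌋₊,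
      ((ArithmeticFunction.moebius m : ℤ) : ℂ) *
        ∑ k ∈ Ioc ⌊x ^ (1 / 5 : ℝ)⌋₊ (⌊x ^ 3⌋₊ / m), ((b k : ℝ) : ℂ) *
        (c.2 ((m * k : ℕ) : ZMod (c.1.val + 1)) *
        (((Real.log ((m * k : ℕ) : ℝ)) ^ J * gw x (m * k) : ℝ) : ℂ))‖) := sum_le_sum hone
    _ ≤ x * Real.log x ^ (J + 3) * (1 + C1 + C0) + C2 * x * Real.log x ^ (J + 3) := by
        rw [sum_add_distrib, sum_const, nsmul_eq_mul]
        exact add_le_add hmain hsum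
    _ = _ := by ring

end Pool.Agent.H21.MT
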