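import Mathlib

/-!
[H21 MT PHI]  Elementary bounds for Euler's function.

Proofs.
* `inv_phi_le`: `n/φ(n) = ∏_{p | n} (1 + 1/(p-1)) ≤ ∏_{i=1}^{ω(n)} (1 + 1/i) = ω(n) + 1` (the `i`-th
  prime factor is `≥ i+1`), and `2^{ω(n)} ≤ n`.  (Or by induction over the prime factors.)
* `sum_inv_phi`: sum `inv_phi_le`, `∑_{s ≤ Q} 1/s ≤ 1 + log Q`, `log 2 ≥ 1/2`.
* `phi_mul_le`: Mathlib `Nat.totient_super_multiplicative`.
-/

namespace Pool.Agent.H21.MT

open Finset

/-- a finite set of naturals `≥ 2`: the product of `p` is at most `(card + 1)` times the product of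
`p - 1` -/
theorem phi_prod_le (k : ℕ) : ∀ s : Finset ℕ, s.card = k → (∀ p ∈ s, 2 ≤ p) →
    ∏ p ∈ s, p ≤ (k + 1) * ∏ p ∈ s, (p - 1) := by
  induction k with
  | zero => intro s hs _; rw [Finset.card_eq_zero.1 hs]; simp
  | succ k ih =>
    intro s hs h2
    have hne : s.Nonempty := Finset.card_pos.1 (by omega)
    obtain ⟨m, hm, hmax⟩ := Finset.exists_max_image s id hne
    simp only [id] at hmax
    have h1 := ih (s.erase m) (by rw [Finset.card_erase_of_mem hm]; omega)
      (fun p hp => h2 p (Finset.mem_of_mem_erase hp))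
    have hmk : k + 2 ≤ m := by
      have hsub : s ⊆ Finset.Icc 2 m := fun p hp => Finset.mem_Icc.2 ⟨h2 p hp, hmax p hp⟩
      have := Finset.card_le_card hsub
      rw [Nat.card_Icc] at this
      omega
    rw [← Finset.mul_prod_erase s _ hm, ← Finset.mul_prod_erase s (fun p => p - 1) hm]
    have h3 : m * (k + 1) ≤ (k + 2) * (m - 1) := by
      obtain ⟨t, rfl⟩ := Nat.exists_eq_add_of_le hmk
      have : k + 2 + t - 1 = k + 1 + t := by omega
      rw [this]
      nlinarith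
    calc m * ∏ p ∈ s.erase m, p ≤ m * ((k + 1) * ∏ p ∈ s.erase m, (p - 1)) :=
          Nat.mul_le_mul_left _ h1
      _ = (m * (k + 1)) * ∏ p ∈ s.erase m, (p - 1) := by ring
      _ ≤ ((k + 2) * (m - 1)) * ∏ p ∈ s.erase m, (p - 1) := Nat.mul_le_mul_right _ h3
      _ = (k + 1 + 1) * ((m - 1) * ∏ p ∈ s.erase m, (p - 1)) := by ring

theorem phi_key (n : ℕ) (hn : 1 ≤ n) : n ≤ (n.primeFactors.card + 1) * n.totient := by
  have h1 := phi_prod_le n.primeFactors.card n.primeFactors rfl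
    (fun p hp => (Nat.prime_of_mem_primeFactors hp).two_le)
  have h2 := Nat.totient_mul_prod_primeFactors n
  have hpos : 0 < ∏ p ∈ n.primeFactors, p :=
    Finset.prod_pos (fun p hp => (Nat.prime_of_mem_primeFactors hp).pos)
  have h3 : n * ∏ p ∈ n.primeFactors, p ≤
      ((n.primeFactors.card + 1) * n.totient) * ∏ p ∈ n.primeFactors, p := by
    calc n * ∏ p ∈ n.primeFactors, p
        ≤ n * ((n.primeFactors.card + 1) * ∏ p ∈ n.primeFactors, (p - 1)) :=
          Nat.mul_le_mul_left _ h1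
      _ = (n.primeFactors.card + 1) * (n * ∏ p ∈ n.primeFactors, (p - 1)) := by ring
      _ = (n.primeFactors.card + 1) * (n.totient * ∏ p ∈ n.primeFactors, p) := by rw [h2]
      _ = _ := by ring
  exact Nat.le_of_mul_le_mul_right h3 hpos

theorem phi_two_pow (n : ℕ) (hn : 1 ≤ n) : 2 ^ n.primeFactors.card ≤ n := by
  calc 2 ^ n.primeFactors.card = ∏ _p ∈ n.primeFactors, 2 := by simp
    _ ≤ ∏ p ∈ n.primeFactors, p :=
        Finset.prod_le_prod' (fun p hp => (Nat.prime_of_mem_primeFactors hp).two_le)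
    _ ≤ n := Nat.le_of_dvd hn (Nat.prod_primeFactors_dvd n)

theorem inv_phi_le (n : ℕ) (hn : 1 ≤ n) :
    (1 : ℝ) / n.totient ≤ (1 + 2 * Real.log n) / n := by
  have hn0 : (0 : ℝ) < n := by exact_mod_cast hn
  have ht : (0 : ℝ) < n.totient := by exact_mod_cast Nat.totient_pos.2 hn
  rw [div_le_div_iff₀ ht hn0, one_mul]
  have h1 : (n : ℝ) ≤ (n.primeFactors.card + 1) * n.totient := by exact_mod_cast phi_key n hn
  have h2 : (n.primeFactors.card : ℝ) ≤ 2 * Real.log n := by
    have h3 : (n.primeFactors.card : ℝ) * Real.log 2 ≤ Real.log n := by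
      rw [← Real.log_pow]
      exact Real.log_le_log (by positivity) (by exact_mod_cast phi_two_pow n hn)
    have h4 : (0.6931471803 : ℝ) < Real.log 2 := Real.log_two_gt_d9
    have h5 : (0 : ℝ) ≤ n.primeFactors.card := by positivity
    nlinarith
  calc (n : ℝ) ≤ (n.primeFactors.card + 1) * n.totient := h1
    _ ≤ (1 + 2 * Real.log n) * n.totient := by
        apply mul_le_mul_of_nonneg_right _ ht.le
        linarith

theorem sum_inv_phi (Q : ℕ) (hQ : 1 ≤ Q) :
    ∑ s ∈ Icc 1 Q, (1 : ℝ) / s.totient ≤ (1 + 2 * Real.log Q) ^ 2 := by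
  have hQ0 : (1 : ℝ) ≤ Q := by exact_mod_cast hQ
  have hlog : 0 ≤ Real.log Q := Real.log_nonneg hQ0
  have h1 : ∀ s ∈ Icc 1 Q, (1 : ℝ) / s.totient ≤ (1 + 2 * Real.log Q) * (1 / s) := by
    intro s hs
    have hs := Finset.mem_Icc.1 hs
    have hs0 : (0 : ℝ) < s := by exact_mod_cast hs.1
    calc (1 : ℝ) / s.totient ≤ (1 + 2 * Real.log s) / s := inv_phi_le s hs.1
      _ ≤ (1 + 2 * Real.log Q) / s := by
          apply div_le_div_of_nonneg_right _ hs0.le
          have : Real.log s ≤ Real.log Q := Real.log_le_log hs0 (by exact_mod_cast hs.2)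
          linarith
      _ = _ := by ring
  have h2 : ∑ s ∈ Icc 1 Q, (1 : ℝ) / s ≤ 1 + Real.log Q := by
    have h3 := harmonic_le_one_add_log Q
    rw [harmonic_eq_sum_Icc] at h3
    push_cast at h3
    simpa [one_div] using h3
  calc ∑ s ∈ Icc 1 Q, (1 : ℝ) / s.totient
      ≤ ∑ s ∈ Icc 1 Q, (1 + 2 * Real.log Q) * (1 / s) := Finset.sum_le_sum h1
    _ = (1 + 2 * Real.log Q) * ∑ s ∈ Icc 1 Q, (1 : ℝ) / s := by rw [Finset.mul_sum]
    _ ≤ (1 + 2 * Real.log Q) * (1 + Real.log Q) := by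
        apply mul_le_mul_of_nonneg_left h2
        linarith
    _ ≤ (1 + 2 * Real.log Q) ^ 2 := by nlinarith

end Pool.Agent.H21.MT
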