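import Pool.Agent.H21.MT.Psi
import Pool.Agent.H92.SW.Main

/-!
MP_8923e7_nt, project MT.  Interface with PART I (helper92, Siegel-Walfisz with Gaussian weights).
`sw_fin` is derived from `Pool/Agent/H92/SW` (the tail `n > x^3` is bounded).
-/

namespace Pool.Agent.H21.MT

open Finset Filter

/-- The tail terms. -/
lemma wt_tail_le (J : ℕ) {x : ℝ} (hx : Real.exp 6 ≤ x) {n : ℕ} (hn : x ^ 3 < n) :
    wt J x n ≤ ((J : ℝ) + 1) ^ (J + 1) * ((n : ℝ) ^ 2)⁻¹ := by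
  have hx1 : 1 < x := lt_of_lt_of_le (by rw [Real.one_lt_exp_iff]; norm_num) hx
  have hx0 : 0 < x := by linarith
  have hlx : 6 ≤ Real.log x := (Real.le_log_iff_exp_le hx0).mpr hx
  have hn1 : 1 < (n : ℝ) := by
    have : 1 < x ^ 3 := one_lt_pow₀ hx1 (by norm_num)
    linarith
  have hn0 : 0 < (n : ℝ) := by linarith
  have hJ : (0 : ℝ) < (J : ℝ) + 1 := by positivity
  have h2 : 0 ≤ Real.log n := Real.log_natCast_nonneg n
  have h3 : Real.log n ≤ (n : ℝ) ^ (1 / ((J : ℝ) + 1)) / (1 / ((J : ℝ) + 1)) :=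
    Real.log_le_rpow_div hn0.le (by positivity)
  have h4 : (Real.log n) ^ (J + 1) ≤ ((J : ℝ) + 1) ^ (J + 1) * n := by
    calc (Real.log n) ^ (J + 1)
        ≤ ((n : ℝ) ^ (1 / ((J : ℝ) + 1)) / (1 / ((J : ℝ) + 1))) ^ (J + 1) :=
          pow_le_pow_left₀ h2 h3 _
      _ = ((J : ℝ) + 1) ^ (J + 1) * ((n : ℝ) ^ (1 / ((J : ℝ) + 1))) ^ (J + 1) := by
          rw [div_div_eq_mul_div, div_one, mul_pow, mul_comm]
      _ = ((J : ℝ) + 1) ^ (J + 1) * n := by
          rw [← Real.rpow_natCast ((n : ℝ) ^ (1 / ((J : ℝ) + 1))) (J + 1),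
            ← Real.rpow_mul hn0.le]
          push_cast
          rw [one_div, inv_mul_cancel₀ hJ.ne', Real.rpow_one]
  have hu : 2 * Real.log x ≤ Real.log (n / x) := by
    rw [Real.log_div hn0.ne' hx0.ne']
    have h5 : Real.log (x ^ 3) ≤ Real.log n := Real.log_le_log (by positivity) hn.le
    rw [Real.log_pow] at h5
    push_cast at h5
    linarith
  have h6 : gw x n ≤ (n / x) ^ (-6 : ℝ) := by
    unfold gw
    rw [Real.rpow_def_of_pos (by positivity), Real.exp_le_exp]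
    nlinarith
  have h7 : (n / x) ^ (-6 : ℝ) = x ^ 6 * ((n : ℝ) ^ 6)⁻¹ := by
    have : ((6 : ℝ)) = ((6 : ℕ) : ℝ) := by norm_num
    rw [Real.rpow_neg (by positivity), this, Real.rpow_natCast, div_pow]
    field_simp
  have h8 : x ^ 6 ≤ (n : ℝ) ^ 2 := by
    calc x ^ 6 = (x ^ 3) ^ 2 := by ring
      _ ≤ (n : ℝ) ^ 2 := pow_le_pow_left₀ (by positivity) hn.le 2
  have h9 : ArithmeticFunction.vonMangoldt n ≤ Real.log n := ArithmeticFunction.vonMangoldt_le_log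
  calc wt J x n = ArithmeticFunction.vonMangoldt n * (Real.log n) ^ J * gw x n := rfl
    _ ≤ Real.log n * (Real.log n) ^ J * gw x n := by
        have := (gw_pos x n).le
        gcongr
    _ = (Real.log n) ^ (J + 1) * gw x n := by ring
    _ ≤ (((J : ℝ) + 1) ^ (J + 1) * n) * (x ^ 6 * ((n : ℝ) ^ 6)⁻¹) := by
        rw [← h7]
        have := (gw_pos x n).le
        gcongr
    _ ≤ (((J : ℝ) + 1) ^ (J + 1) * n) * ((n : ℝ) ^ 2 * ((n : ℝ) ^ 6)⁻¹) := by gcongr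
    _ = ((J : ℝ) + 1) ^ (J + 1) * ((n : ℝ) ^ 2)⁻¹ * (n : ℝ)⁻¹ := by
        field_simp
    _ ≤ ((J : ℝ) + 1) ^ (J + 1) * ((n : ℝ) ^ 2)⁻¹ * 1 := by
        have : (n : ℝ)⁻¹ ≤ 1 := inv_le_one_of_one_le₀ hn1.le
        gcongr
    _ = ((J : ℝ) + 1) ^ (J + 1) * ((n : ℝ) ^ 2)⁻¹ := mul_one _

theorem sw_fin (J : ℕ) (ε : ℝ) (hε : 0 < ε) : ∃ C : ℝ, 0 < C ∧ ∀ᶠ x : ℝ in atTop,
    ∀ (q : ℕ) [NeZero q] (χ : DirichletCharacter ℂ q), χ.IsPrimitive → 1 < q →
      ‖Psi J x χ‖ ≤ C * x * (q : ℝ) ^ ε := by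
  obtain ⟨C, hC, hsw⟩ := Pool.Agent.H92.SW.sw J ε hε
  set T : ℝ := ((J : ℝ) + 1) ^ (J + 1) * ∑' n : ℕ, ((n : ℝ) ^ 2)⁻¹ with hT
  have hsumm : Summable (fun n : ℕ => ((n : ℝ) ^ 2)⁻¹) :=
    Real.summable_nat_pow_inv.mpr (by norm_num)
  have hT0 : 0 ≤ T := by
    rw [hT]
    exact mul_nonneg (by positivity) (tsum_nonneg fun n => by positivity)
  refine ⟨C + T, by linarith, ?_⟩
  filter_upwards [eventually_ge_atTop (Real.exp 6)] with x hx
  intro q _ χ hprim hq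
  have hx2 : 2 ≤ x := by
    have : (7 : ℝ) ≤ Real.exp 6 := by
      have := Real.add_one_le_exp (6 : ℝ)
      linarith
    linarith
  have hq1 : (1 : ℝ) ≤ (q : ℝ) ^ ε :=
    Real.one_le_rpow (by exact_mod_cast hq.le) hε.le
  have hwt0 : ∀ n, 0 ≤ wt J x n := by
    intro n
    unfold wt
    have h1 := ArithmeticFunction.vonMangoldt_nonneg (n := n)
    have h2 : 0 ≤ Real.log n := Real.log_natCast_nonneg n
    have h3 := (gw_pos x n).le
    positivity
  set f : ℕ → ℂ := fun n => ((wt J x n : ℝ) : ℂ) * χ n with hf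
  have hfn : ∀ n, ‖f n‖ ≤ wt J x n := by
    intro n
    rw [hf]
    simp only [norm_mul, Complex.norm_real, Real.norm_of_nonneg (hwt0 n)]
    exact mul_le_of_le_one_right (hwt0 n) (χ.norm_le_one _)
  have hws : Summable (fun n => wt J x n) := by
    have := Pool.Agent.H92.SW.summable_wt J x (by linarith)
    exact this
  have hfs : Summable f := Summable.of_norm_bounded hws hfn
  have hmain : ‖∑' n, f n‖ ≤ C * x * (q : ℝ) ^ ε := hsw q χ hprim hq x hx2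
  set N : ℕ := ⌊x ^ 3⌋₊ with hN
  have hPsi : Psi J x χ = ∑ n ∈ Finset.range (N + 1), f n := by
    unfold Psi
    have h1 : Finset.range (N + 1) = insert 0 (Finset.Icc 1 N) := by
      ext k
      simp only [Finset.mem_range, Finset.mem_insert, Finset.mem_Icc]
      omega
    rw [h1, Finset.sum_insert (by simp)]
    have h2 : f 0 = 0 := by simp [hf, wt]
    rw [h2, zero_add]
  have hsplit := hfs.sum_add_tsum_nat_add (N + 1)
  have htail : ‖∑' n, f (n + (N + 1))‖ ≤ T := by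
    have hb : ∀ n : ℕ, ‖f (n + (N + 1))‖ ≤
        ((J : ℝ) + 1) ^ (J + 1) * (((n + (N + 1) : ℕ) : ℝ) ^ 2)⁻¹ := by
      intro n
      refine (hfn _).trans (wt_tail_le J hx ?_)
      have : N < n + (N + 1) := by omega
      exact (Nat.floor_lt (by positivity)).mp this
    have hs2 : Summable (fun n : ℕ =>
        ((J : ℝ) + 1) ^ (J + 1) * (((n + (N + 1) : ℕ) : ℝ) ^ 2)⁻¹) :=
      ((summable_nat_add_iff (N + 1)).mpr hsumm).mul_left _
    refine (tsum_of_norm_bounded hs2.hasSum hb).trans ?_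
    rw [tsum_mul_left, hT]
    refine mul_le_mul_of_nonneg_left ?_ (by positivity)
    rw [← hsumm.sum_add_tsum_nat_add (N + 1)]
    have : 0 ≤ ∑ i ∈ Finset.range (N + 1), ((i : ℝ) ^ 2)⁻¹ :=
      Finset.sum_nonneg fun i _ => by positivity
    linarith
  have h3 : Psi J x χ = (∑' n, f n) - ∑' n, f (n + (N + 1)) := by
    rw [hPsi, ← hsplit]
    ring
  rw [h3]
  refine (norm_sub_le _ _).trans ?_
  have h4 : T ≤ T * x * (q : ℝ) ^ ε := by
    have h5 : 1 ≤ x * (q : ℝ) ^ ε := one_le_mul_of_one_le_of_one_le (by linarith) hq1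
    calc T = T * 1 := (mul_one T).symm
      _ ≤ T * (x * (q : ℝ) ^ ε) := mul_le_mul_of_nonneg_left h5 hT0
      _ = T * x * (q : ℝ) ^ ε := by ring
  calc ‖∑' n, f n‖ + ‖∑' n, f (n + (N + 1))‖ ≤ C * x * (q : ℝ) ^ ε + T * x * (q : ℝ) ^ ε :=
        add_le_add hmain (htail.trans h4)
    _ = (C + T) * x * (q : ℝ) ^ ε := by ring

end Pool.Agent.H21.MT
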