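import Pool.Agent.H21.MT.Prim
import Pool.Agent.H21.MT.Swf
import Pool.Agent.H21.MT.Phi

/-!
[H21 MT WSUM]  The sum over primitive characters with the weight `1/φ(r)`.

Proof.  Let `L = log x`, `B = A + 6`, `J = A + B + 3`, `ε = 1/B`.
(i) `r ≤ L^B`: `sw_fin J ε`: `‖Psi‖ ≤ C x r^ε ≤ C x L`; at most `φ(r)` characters for each `r`
    (`card (DirichletCharacter ℂ r) = φ r`); sum `≤ L^B C x L = C x L^{B+1} ≤ (1/2) x L^{J-A}` for
    large `x`, as `J - A = B + 3`.
(ii) `L^B < r ≤ Q = ⌊x^(1/20)⌋₊`: `1/φ(r) ≤ (1 + 2 log r)/r ≤ 3L/r` (`inv_phi_le`), and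
    `1/r = 1/Q + ∑_{n=r}^{Q-1} 1/(n(n+1))`; so with `G(n) = ∑_{c ∈ PC, r ≤ n} ‖Psi‖ ≤ C x L^{J+3}`
    (`prim_sum` with `R = n`; identify the characters of modulus `≤ n` in `Ch Q` with `Ch n`)
    `∑_{r > R0} ‖Psi‖/r ≤ G(Q)/Q + ∑_{n ≥ R0} G(n)/(n(n+1)) ≤ C x L^{J+3} (1/Q + 1/R0)`,
    `R0 = ⌊L^B⌋ + 1` (for `R0 ≤ Q`).
    Total `≤ 3L * C x L^{J+3} * 2/L^B = 6 C x L^{J+4-B} ≤ (1/2) x L^{J-A}`.
-/

namespace Pool.Agent.H21.MT

open Finset Filter

theorem ws_tele (a b : ℕ) (h : a ≤ b) :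
    ∑ n ∈ Ico a b, (1 / (n : ℝ) - 1 / ((n : ℝ) + 1)) = 1 / (a : ℝ) - 1 / (b : ℝ) := by
  induction b, h using Nat.le_induction with
  | base => simp
  | succ b hb ih =>
    rw [Finset.sum_Ico_succ_top hb, ih]
    push_cast
    ring

/-- partial summation -/
theorem ws_partial {ι : Type*} (S : Finset ι) (a : ι → ℝ) (m : ι → ℕ)
    (R0 Q : ℕ) (hR : 1 ≤ R0) (hm : ∀ c ∈ S, R0 ≤ m c ∧ m c ≤ Q) (G : ℝ) (hG0 : 0 ≤ G)
    (hG : ∀ n ≤ Q, ∑ c ∈ S.filter (fun c => m c ≤ n), a c ≤ G) :
    ∑ c ∈ S, a c / m c ≤ G / R0 := by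
  rcases Nat.lt_or_ge Q R0 with h | h
  · have : S = ∅ := by
      apply Finset.eq_empty_of_forall_notMem
      intro c hc
      have := hm c hc
      omega
    rw [this, Finset.sum_empty]
    positivity
  have h1 : ∀ c ∈ S, a c / m c = a c / Q + ∑ n ∈ Ico R0 Q,
      (1 / (n : ℝ) - 1 / ((n : ℝ) + 1)) * (if m c ≤ n then a c else 0) := by
    intro c hc
    obtain ⟨h2, h3⟩ := hm c hc
    have h4 : ∑ n ∈ Ico R0 Q, (1 / (n : ℝ) - 1 / ((n : ℝ) + 1)) * (if m c ≤ n then a c else 0) =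
        ∑ n ∈ Ico (m c) Q, (1 / (n : ℝ) - 1 / ((n : ℝ) + 1)) * a c := by
      have h5 : Ico (m c) Q = (Ico R0 Q).filter (fun n => m c ≤ n) := by
        ext n
        simp only [Finset.mem_Ico, Finset.mem_filter]
        omega
      rw [h5, Finset.sum_filter]
      apply Finset.sum_congr rfl
      intro n _
      split_ifs <;> simp
    rw [h4, ← Finset.sum_mul, ws_tele (m c) Q h3]
    ring
  rw [Finset.sum_congr rfl h1, Finset.sum_add_distrib, Finset.sum_comm]
  have h6 : ∑ c ∈ S, a c / (Q : ℝ) ≤ G / Q := by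
    rw [← Finset.sum_div]
    have := hG Q le_rfl
    have h7 : S.filter (fun c => m c ≤ Q) = S := by
      apply Finset.filter_true_of_mem
      intro c hc
      exact (hm c hc).2
    rw [h7] at this
    gcongr
  have h8 : ∑ n ∈ Ico R0 Q, ∑ c ∈ S, (1 / (n : ℝ) - 1 / ((n : ℝ) + 1)) *
      (if m c ≤ n then a c else 0) ≤ ∑ n ∈ Ico R0 Q, (1 / (n : ℝ) - 1 / ((n : ℝ) + 1)) * G := by
    apply Finset.sum_le_sum
    intro n hn
    rw [Finset.mem_Ico] at hn
    rw [← Finset.mul_sum, ← Finset.sum_filter]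
    apply mul_le_mul_of_nonneg_left (hG n hn.2.le)
    have hn1 : (1 : ℝ) ≤ n := by exact_mod_cast (by omega : 1 ≤ n)
    rw [sub_nonneg]
    apply one_div_le_one_div_of_le (by linarith)
    linarith
  rw [← Finset.sum_mul, ws_tele R0 Q h] at h8
  have h9 : G / (Q : ℝ) + (1 / (R0 : ℝ) - 1 / (Q : ℝ)) * G = G / R0 := by ring
  linarith

theorem ws_mem_PC {Q : ℕ} (c : Ch Q) (hc : c ∈ PC Q) : c.2.IsPrimitive ∧ 2 ≤ c.md := by
  classical
  unfold PC at hc
  rw [Finset.mem_filter] at hc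
  exact hc.2

/-- characters of modulus at most `n` -/
theorem ws_restrict {n Q : ℕ} (h : n ≤ Q) (F : ∀ (q : ℕ), DirichletCharacter ℂ q → ℝ)
    (hF : ∀ q χ, 0 ≤ F q χ) :
    ∑ c ∈ (PC Q).filter (fun c => c.md ≤ n), F _ c.2 ≤ ∑ c ∈ PC n, F _ c.2 := by
  classical
  let e : Ch n → Ch Q := fun c => ⟨Fin.castLE h c.1, c.2⟩
  have hinj : Function.Injective e := by
    rintro ⟨r, χ⟩ ⟨r', χ'⟩ hee
    have h1 : Fin.castLE h r = Fin.castLE h r' := congrArg Sigma.fst hee
    have h2 : r = r' := Fin.castLE_injective h h1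
    subst h2
    have h3 : χ = χ' := eq_of_heq (Sigma.mk.inj_iff.1 hee).2
    rw [h3]
  have hsub : (PC Q).filter (fun c => c.md ≤ n) ⊆ (PC n).image e := by
    intro c hc
    rw [Finset.mem_filter] at hc
    obtain ⟨hc1, hc2⟩ := hc
    have hc1' : c.2.IsPrimitive ∧ 2 ≤ c.md := by
      unfold PC at hc1
      rw [Finset.mem_filter] at hc1
      exact hc1.2
    have hlt : c.1.val < n := by
      have : c.1.val + 1 ≤ n := hc2
      omega
    rw [Finset.mem_image]
    refine ⟨⟨⟨c.1.val, hlt⟩, c.2⟩, ?_, ?_⟩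
    · unfold PC
      rw [Finset.mem_filter]
      exact ⟨Finset.mem_univ _, hc1'.1, hc1'.2⟩
    · rfl
  calc ∑ c ∈ (PC Q).filter (fun c => c.md ≤ n), F _ c.2 ≤ ∑ c ∈ (PC n).image e, F _ c.2 :=
        Finset.sum_le_sum_of_subset_of_nonneg hsub (fun c _ _ => hF _ _)
    _ = ∑ c ∈ PC n, F _ c.2 := by
        rw [Finset.sum_image (fun a _ b _ hab => hinj hab)]
        rfl

theorem ws_fiber {Q : ℕ} (r : Fin Q) :
    (((univ : Finset (Ch Q)).filter (fun c => c.1 = r)).card : ℝ) ≤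
      ((r.val + 1).totient : ℝ) := by
  classical
  let i1 : Fintype (DirichletCharacter ℂ (r.val + 1)) := Fintype.ofFinite _
  have hsub : (univ : Finset (Ch Q)).filter (fun c => c.1 = r) ⊆
      (univ : Finset (DirichletCharacter ℂ (r.val + 1))).image (fun χ => (⟨r, χ⟩ : Ch Q)) := by
    intro c hc
    rw [Finset.mem_filter] at hc
    obtain ⟨r', χ⟩ := c
    have h2 : r' = r := hc.2
    subst h2
    exact Finset.mem_image_of_mem _ (Finset.mem_univ χ)
  have h1 := (Finset.card_le_card hsub).trans Finset.card_image_le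
  rw [Finset.card_univ, ← Nat.card_eq_fintype_card,
    DirichletCharacter.card_eq_totient_of_hasEnoughRootsOfUnity] at h1
  exact_mod_cast h1

theorem ws_small (Q K : ℕ) :
    ∑ c ∈ (PC Q).filter (fun c => c.md ≤ K), (1 / (c.md.totient : ℝ)) ≤ K := by
  classical
  have h1 : ∑ c ∈ (PC Q).filter (fun c => c.md ≤ K), (1 / (c.md.totient : ℝ)) ≤
      ∑ c ∈ (univ : Finset (Ch Q)).filter (fun c => c.md ≤ K), (1 / (c.md.totient : ℝ)) := by
    apply Finset.sum_le_sum_of_subset_of_nonneg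
    · exact Finset.filter_subset_filter _ (Finset.subset_univ _)
    · intro c _ _
      positivity
  have h2 : ∑ c ∈ (univ : Finset (Ch Q)).filter (fun c => c.md ≤ K), (1 / (c.md.totient : ℝ)) =
      ∑ r ∈ (univ : Finset (Fin Q)).filter (fun r => r.val + 1 ≤ K),
        ∑ c ∈ ((univ : Finset (Ch Q)).filter (fun c => c.md ≤ K)).filter (fun c => c.1 = r),
          (1 / (c.md.totient : ℝ)) := by
    rw [Finset.sum_fiberwise_of_maps_to]
    intro c hc
    rw [Finset.mem_filter] at hc ⊢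
    exact ⟨Finset.mem_univ _, hc.2⟩
  have h3 : ∀ r ∈ (univ : Finset (Fin Q)).filter (fun r => r.val + 1 ≤ K),
      ∑ c ∈ ((univ : Finset (Ch Q)).filter (fun c => c.md ≤ K)).filter (fun c => c.1 = r),
          (1 / (c.md.totient : ℝ)) ≤ 1 := by
    intro r _
    calc ∑ c ∈ ((univ : Finset (Ch Q)).filter (fun c => c.md ≤ K)).filter (fun c => c.1 = r),
          (1 / (c.md.totient : ℝ))
        ≤ ∑ c ∈ (univ : Finset (Ch Q)).filter (fun c => c.1 = r),
          (1 / (c.md.totient : ℝ)) := by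
          apply Finset.sum_le_sum_of_subset_of_nonneg
          · exact Finset.filter_subset_filter _ (Finset.subset_univ _)
          · intro c _ _
            positivity
      _ = ∑ c ∈ (univ : Finset (Ch Q)).filter (fun c => c.1 = r),
          (1 / ((r.val + 1).totient : ℝ)) := by
          apply Finset.sum_congr rfl
          intro c hc
          rw [Finset.mem_filter] at hc
          unfold Ch.md
          rw [hc.2]
      _ ≤ 1 := by
          rw [Finset.sum_const, nsmul_eq_mul]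
          have h4 := ws_fiber r
          have h5 : 0 < ((r.val + 1).totient : ℝ) := by
            exact_mod_cast Nat.totient_pos.2 (Nat.succ_pos _)
          rw [mul_one_div, div_le_one h5]
          exact h4
  have h6 : (((univ : Finset (Fin Q)).filter (fun r => r.val + 1 ≤ K)).card : ℝ) ≤ K := by
    have h7 : ((univ : Finset (Fin Q)).filter (fun r => r.val + 1 ≤ K)).card ≤
        (Finset.range K).card := by
      apply Finset.card_le_card_of_injOn (fun r => r.val)
      · intro r hr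
        rw [Finset.mem_coe, Finset.mem_filter] at hr
        rw [Finset.mem_coe, Finset.mem_range]
        exact hr.2
      · intro a _ b _ hab
        exact Fin.ext hab
    rw [Finset.card_range] at h7
    exact_mod_cast h7
  calc ∑ c ∈ (PC Q).filter (fun c => c.md ≤ K), (1 / (c.md.totient : ℝ))
      ≤ _ := h1
    _ = _ := h2
    _ ≤ ∑ r ∈ (univ : Finset (Fin Q)).filter (fun r => r.val + 1 ≤ K), (1 : ℝ) :=
        Finset.sum_le_sum h3
    _ ≤ K := by
        rw [Finset.sum_const, nsmul_eq_mul, mul_one]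
        exact h6

theorem wsum (A : ℕ) : ∃ J : ℕ, ∀ᶠ x : ℝ in atTop,
    ∑ c ∈ PC ⌊x ^ (1 / 20 : ℝ)⌋₊, (1 / (c.md.totient : ℝ)) * ‖Psi J x c.2‖ ≤
      x * (Real.log x) ^ J / (Real.log x) ^ A := by
  obtain ⟨B, hB⟩ : ∃ B : ℕ, B = A + 6 := ⟨_, rfl⟩
  obtain ⟨J, hJ⟩ : ∃ J : ℕ, J = A + B + 3 := ⟨_, rfl⟩
  have hBpos : (0 : ℝ) < (B : ℝ)⁻¹ := by
    have : 0 < B := by omega
    positivity
  obtain ⟨C1, hC1, h1⟩ := sw_fin J (B : ℝ)⁻¹ hBpos
  obtain ⟨C2, hC2, h2⟩ := prim_sum J
  refine ⟨J, ?_⟩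
  have hlog : ∀ᶠ x : ℝ in atTop, 1 + 2 * C1 + 6 * C2 ≤ Real.log x :=
    Real.tendsto_log_atTop.eventually_ge_atTop _
  filter_upwards [h1, h2, hlog, eventually_ge_atTop 1] with x h1 h2 hL hx1
  set L := Real.log x with hLdef
  set Q := ⌊x ^ (1 / 20 : ℝ)⌋₊ with hQ
  set K := ⌊L ^ B⌋₊ with hK
  have hL1 : 1 ≤ L := by linarith
  have hL0 : 0 < L := by linarith
  have hx0 : 0 < x := by linarith
  have hQx : (Q : ℝ) ≤ x ^ (1 / 20 : ℝ) := Nat.floor_le (by positivity)
  have hKL : (K : ℝ) ≤ L ^ B := Nat.floor_le (by positivity)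
  have hKL' : L ^ B ≤ ((K + 1 : ℕ) : ℝ) := by
    push_cast
    exact (Nat.lt_floor_add_one _).le
  have hPC : ∀ c ∈ PC Q, c.2.IsPrimitive ∧ 2 ≤ c.md := by
    intro c hc
    exact ws_mem_PC c hc
  have hmdQ : ∀ c : Ch Q, c.md ≤ Q := by
    intro c
    have := c.1.isLt
    unfold Ch.md
    omega
  rw [← Finset.sum_filter_add_sum_filter_not (PC Q) (fun c => c.md ≤ K)]
  -- part (i)
  have hi : ∑ c ∈ (PC Q).filter (fun c => c.md ≤ K), (1 / (c.md.totient : ℝ)) * ‖Psi J x c.2‖ ≤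
      L ^ B * (C1 * x * L) := by
    calc ∑ c ∈ (PC Q).filter (fun c => c.md ≤ K), (1 / (c.md.totient : ℝ)) * ‖Psi J x c.2‖
        ≤ ∑ c ∈ (PC Q).filter (fun c => c.md ≤ K), (1 / (c.md.totient : ℝ)) * (C1 * x * L) := by
          apply Finset.sum_le_sum
          intro c hc
          rw [Finset.mem_filter] at hc
          obtain ⟨hc1, hc2⟩ := hPC c hc.1
          apply mul_le_mul_of_nonneg_left _ (by positivity)
          have h3 := h1 (c.1.val + 1) c.2 hc1 (by unfold Ch.md at hc2; omega)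
          apply h3.trans
          apply mul_le_mul_of_nonneg_left _ (by positivity)
          have h4 : (((c.1.val + 1 : ℕ)) : ℝ) ≤ L ^ B := by
            refine le_trans ?_ hKL
            exact_mod_cast hc.2
          calc (((c.1.val + 1 : ℕ)) : ℝ) ^ ((B : ℝ)⁻¹) ≤ (L ^ B) ^ ((B : ℝ)⁻¹) :=
                Real.rpow_le_rpow (by positivity) h4 hBpos.le
            _ = L := Real.pow_rpow_inv_natCast hL0.le (by omega)
      _ = (∑ c ∈ (PC Q).filter (fun c => c.md ≤ K), (1 / (c.md.totient : ℝ))) *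
          (C1 * x * L) := by rw [Finset.sum_mul]
      _ ≤ K * (C1 * x * L) := by
          apply mul_le_mul_of_nonneg_right (ws_small Q K) (by positivity)
      _ ≤ L ^ B * (C1 * x * L) := by
          apply mul_le_mul_of_nonneg_right hKL (by positivity)
  -- part (ii)
  have hii : ∑ c ∈ (PC Q).filter (fun c => ¬ c.md ≤ K),
      (1 / (c.md.totient : ℝ)) * ‖Psi J x c.2‖ ≤
      3 * L * ((C2 * x * L ^ (J + 3)) / ((K + 1 : ℕ) : ℝ)) := by
    calc ∑ c ∈ (PC Q).filter (fun c => ¬ c.md ≤ K), (1 / (c.md.totient : ℝ)) * ‖Psi J x c.2‖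
        ≤ ∑ c ∈ (PC Q).filter (fun c => ¬ c.md ≤ K), 3 * L * (‖Psi J x c.2‖ / c.md) := by
          apply Finset.sum_le_sum
          intro c hc
          rw [Finset.mem_filter] at hc
          obtain ⟨hc1, hc2⟩ := hPC c hc.1
          have hmd0 : (0 : ℝ) < c.md := by
            have : 0 < c.md := by omega
            exact_mod_cast this
          have h3 := inv_phi_le c.md (by omega)
          have h4 : Real.log c.md ≤ L := by
            have h5 : (c.md : ℝ) ≤ x := by
              have h6 : (c.md : ℝ) ≤ Q := by exact_mod_cast hmdQ c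
              have h7 : x ^ (1 / 20 : ℝ) ≤ x := by
                calc x ^ (1 / 20 : ℝ) ≤ x ^ (1 : ℝ) :=
                      Real.rpow_le_rpow_of_exponent_le hx1 (by norm_num)
                  _ = x := Real.rpow_one x
              linarith
            exact Real.log_le_log hmd0 h5
          have h8 : (1 + 2 * Real.log c.md) / (c.md : ℝ) ≤ 3 * L / c.md := by
            gcongr
            linarith
          calc (1 / (c.md.totient : ℝ)) * ‖Psi J x c.2‖ ≤ (3 * L / c.md) * ‖Psi J x c.2‖ := by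
                apply mul_le_mul_of_nonneg_right (h3.trans h8) (norm_nonneg _)
            _ = 3 * L * (‖Psi J x c.2‖ / c.md) := by ring
      _ = 3 * L * ∑ c ∈ (PC Q).filter (fun c => ¬ c.md ≤ K), ‖Psi J x c.2‖ / c.md := by
          rw [Finset.mul_sum]
      _ ≤ 3 * L * ((C2 * x * L ^ (J + 3)) / ((K + 1 : ℕ) : ℝ)) := by
          apply mul_le_mul_of_nonneg_left _ (by positivity)
          apply ws_partial _ (fun c : Ch Q => ‖Psi J x c.2‖) (fun c => c.md) (K + 1) Q
            (by omega) _ _ (by positivity)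
          · intro n hn
            have h9 := ws_restrict hn (fun q χ => ‖Psi J x χ‖) (fun q χ => norm_nonneg _)
            have h10 : (n : ℝ) ≤ x ^ (1 / 20 : ℝ) := by
              have : (n : ℝ) ≤ Q := by exact_mod_cast hn
              linarith
            have h11 := h2 n h10
            refine le_trans ?_ (h9.trans h11)
            apply Finset.sum_le_sum_of_subset_of_nonneg
            · intro c hc
              rw [Finset.mem_filter, Finset.mem_filter] at hc
              rw [Finset.mem_filter]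
              exact ⟨hc.1.1, hc.2⟩
            · intro c _ _
              exact norm_nonneg _
          · intro c hc
            rw [Finset.mem_filter] at hc
            exact ⟨by omega, hmdQ c⟩
  have hii' : 3 * L * ((C2 * x * L ^ (J + 3)) / ((K + 1 : ℕ) : ℝ)) ≤
      3 * C2 * x * L ^ (A + 7) := by
    have h3 : (C2 * x * L ^ (J + 3)) / ((K + 1 : ℕ) : ℝ) ≤ (C2 * x * L ^ (J + 3)) / L ^ B := by
      apply div_le_div_of_nonneg_left (by positivity) (by positivity) hKL'
    have h4 : (C2 * x * L ^ (J + 3)) / L ^ B = C2 * x * L ^ (A + 6) := by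
      have : J + 3 = (A + 6) + B := by omega
      rw [this, pow_add]
      field_simp
    rw [h4] at h3
    calc 3 * L * ((C2 * x * L ^ (J + 3)) / ((K + 1 : ℕ) : ℝ)) ≤ 3 * L * (C2 * x * L ^ (A + 6)) := by
          apply mul_le_mul_of_nonneg_left h3 (by positivity)
      _ = 3 * C2 * x * L ^ (A + 7) := by ring
  have hfin : x * L ^ J / L ^ A = x * L ^ (A + 9) := by
    have : J = (A + 9) + A := by omega
    rw [this, pow_add]
    field_simp
  rw [hfin]
  have e1 : L ^ B * (C1 * x * L) = (x * L ^ (A + 7)) * C1 := by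
    rw [hB]; ring
  have e2 : 3 * C2 * x * L ^ (A + 7) = (x * L ^ (A + 7)) * (3 * C2) := by ring
  have e3 : x * L ^ (A + 9) = (x * L ^ (A + 7)) * (L ^ 2) := by ring
  have e4 : C1 + 3 * C2 ≤ L ^ 2 := by nlinarith
  calc _ ≤ L ^ B * (C1 * x * L) + 3 * C2 * x * L ^ (A + 7) := add_le_add hi (hii.trans hii')
    _ = (x * L ^ (A + 7)) * (C1 + 3 * C2) := by rw [e1, e2]; ring
    _ ≤ (x * L ^ (A + 7)) * (L ^ 2) := mul_le_mul_of_nonneg_left e4 (by positivity)
    _ = x * L ^ (A + 9) := e3.symm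

end Pool.Agent.H21.MT
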