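import Pool.Agent.H21.MT.Lab

/-!
[H21 MT LAMB]  Trivial bounds for the sieve weights.

Proofs.  `|lamF d| ≤ ∑_{s ⊇ d} Λ tot d / tot s [tot s ≤ R]`; writing `s = d ∪ t` (disjoint supports)
the quotient is `1/tot t`, `tot t ≤ R`; and `∑_{t, tot t ≤ R} 1/tot t ≤ ∏ i, ∑_{T, nrm T ≤ R} 1/nrm T
≤ (∑_{n ≤ R} 1/n)^{|I|} ≤ (1 + log R)^{|I|}` (`t ↦ (t_i)` and `T ↦ nrm T` are injective; the
primes are distinct; `harmonic_le_one_add_log`).  If `lamF d ≠ 0` some `s ⊇ d` has `F s ≠ 0`, so
`tot d ≤ tot s ≤ R`.  Number of `d` with `tot d ≤ R`: at most `R ∑_{d, tot d ≤ R} 1/tot d`.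
-/

set_option linter.unusedSectionVars false

namespace Pool.Agent.H21.MT

open Finset

variable {ι I : Type} [Fintype ι] [DecidableEq ι] [Fintype I] [DecidableEq I]

theorem lamB_dvd_lab_iff (P : ι → ℕ) (hP : ∀ k, (P k).Prime) (hinj : Function.Injective P)
    (t : ι → Option I) (i : I) (k : ι) : P k ∣ lab P t i ↔ t k = some i := by
  unfold lab
  constructor
  · intro h
    rw [(Nat.Prime.prime (hP k)).dvd_finsetProd_iff] at h
    obtain ⟨k', _, hk'⟩ := h
    split_ifs at hk' with hc
    · have := (Nat.prime_dvd_prime_iff_eq (hP k) (hP k')).mp hk'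
      rw [hinj this]
      exact hc
    · exact absurd (Nat.dvd_one.mp hk') (hP k).one_lt.ne'
  · intro h
    have : P k = if t k = some i then P k else 1 := by rw [if_pos h]
    rw [this]
    exact Finset.dvd_prod_of_mem (fun k => if t k = some i then P k else 1) (mem_univ k)

theorem lamB_lab_inj (P : ι → ℕ) (hP : ∀ k, (P k).Prime) (hinj : Function.Injective P) :
    Function.Injective (fun (t : ι → Option I) (i : I) => lab P t i) := by
  intro t t' h
  funext k
  have key : ∀ i, t k = some i ↔ t' k = some i := by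
    intro i
    rw [← lamB_dvd_lab_iff P hP hinj t i k, ← lamB_dvd_lab_iff P hP hinj t' i k]
    have := congrFun h i
    simp only at this
    rw [this]
  rcases h1 : t k with _ | i
  · rcases h2 : t' k with _ | j
    · rfl
    · have := (key j).mpr h2
      rw [h1] at this
      cases this
  · exact ((key i).mp h1).symm

theorem lamB_lab_le_tot (P : ι → ℕ) (hP : ∀ k, 0 < P k) (t : ι → Option I) (i : I) :
    lab P t i ≤ tot P t := by
  unfold lab tot
  apply Finset.prod_le_prod'
  intro k _
  by_cases h : t k = some i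
  · rw [if_pos h, if_neg (by rw [h]; simp)]
  · rw [if_neg h]
    split_ifs
    · exact le_rfl
    · exact hP k

theorem lamB_harm_le (R : ℝ) (hR : 1 ≤ R) : ∑ n ∈ Icc 1 ⌊R⌋₊, (1 : ℝ) / n ≤ 1 + Real.log R := by
  have h := harmonic_floor_le_one_add_log R hR
  rw [harmonic_eq_sum_Icc] at h
  push_cast at h
  simpa [one_div] using h

theorem sum_tot_le (P : ι → ℕ) (hP : ∀ k, (P k).Prime) (hinj : Function.Injective P) (R : ℝ)
    (hR : 1 ≤ R) :
    ∑ t ∈ (univ : Finset (ι → Option I)).filter (fun t => (tot P t : ℝ) ≤ R), (1 : ℝ) / tot P t ≤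
      (1 + Real.log R) ^ Fintype.card I := by
  have hP0 : ∀ k, 0 < P k := fun k => (hP k).pos
  have e1 : ∀ t : ι → Option I, (1 : ℝ) / tot P t = ∏ i, (1 : ℝ) / (lab P t i : ℝ) := by
    intro t
    rw [tot_eq_prod_lab, Nat.cast_prod, Finset.prod_div_distrib, Finset.prod_const_one]
  calc ∑ t ∈ (univ : Finset (ι → Option I)).filter (fun t => (tot P t : ℝ) ≤ R),
        (1 : ℝ) / tot P t
      = ∑ t ∈ (univ : Finset (ι → Option I)).filter (fun t => (tot P t : ℝ) ≤ R),
        ∏ i, (1 : ℝ) / (lab P t i : ℝ) := Finset.sum_congr rfl (fun t _ => e1 t)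
    _ = ∑ v ∈ ((univ : Finset (ι → Option I)).filter (fun t => (tot P t : ℝ) ≤ R)).image
          (fun (t : ι → Option I) (i : I) => lab P t i), ∏ i, (1 : ℝ) / (v i : ℝ) := by
        rw [Finset.sum_image]
        intro a _ b _ hab
        exact lamB_lab_inj P hP hinj hab
    _ ≤ ∑ v ∈ Fintype.piFinset (fun _ : I => Icc 1 ⌊R⌋₊), ∏ i, (1 : ℝ) / (v i : ℝ) := by
        apply Finset.sum_le_sum_of_subset_of_nonneg
        · intro v hv
          rw [Finset.mem_image] at hv
          obtain ⟨t, ht, rfl⟩ := hv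
          rw [Finset.mem_filter] at ht
          rw [Fintype.mem_piFinset]
          intro i
          rw [Finset.mem_Icc]
          refine ⟨lab_pos hP0 t i, ?_⟩
          apply Nat.le_floor
          refine le_trans ?_ ht.2
          exact_mod_cast lamB_lab_le_tot P hP0 t i
        · intro v _ _
          apply Finset.prod_nonneg
          intro i _
          positivity
    _ = ∏ _i : I, ∑ n ∈ Icc 1 ⌊R⌋₊, (1 : ℝ) / (n : ℝ) :=
        (Finset.prod_univ_sum (fun _ : I => Icc 1 ⌊R⌋₊) (fun _ n => (1 : ℝ) / (n : ℝ))).symm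
    _ ≤ (1 + Real.log R) ^ Fintype.card I := by
        rw [Finset.prod_const, Finset.card_univ]
        exact pow_le_pow_left₀ (Finset.sum_nonneg (fun n _ => by positivity)) (lamB_harm_le R hR) _

/-- the part of `s` outside `d` -/
def lamB_outp (d s : ι → Option I) : ι → Option I := fun k => if d k = none then s k else none

theorem lamB_tot_outp (P : ι → ℕ) (d s : ι → Option I) (h : sub d s) :
    tot P s = tot P d * tot P (lamB_outp d s) := by
  unfold tot lamB_outp
  rw [← Finset.prod_mul_distrib]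
  apply Finset.prod_congr rfl
  intro k _
  rcases h k with h1 | h1
  · simp [h1]
  · by_cases h2 : d k = none
    · simp [h2]
    · have h3 : s k ≠ none := h1 ▸ h2
      simp [h2, h3]

theorem lamB_abs_mu (d : ι → Option I) : |mu d| = 1 := by
  unfold mu
  rw [Finset.abs_prod]
  apply Finset.prod_eq_one
  intro k _
  split_ifs <;> simp

theorem lamB_one_le_tot {P : ι → ℕ} (hP : ∀ k, 0 < P k) (s : ι → Option I) : (1 : ℝ) ≤ tot P s := by
  exact_mod_cast tot_pos hP s

theorem lam_bound (P : ι → ℕ) (hP : ∀ k, (P k).Prime) (hinj : Function.Injective P) (R Λ : ℝ)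
    (hR : 1 ≤ R) (F : (ι → Option I) → ℝ) (hF0 : ∀ s, 0 ≤ F s) (hF : ∀ s, F s ≤ Λ)
    (hFR : ∀ s, F s ≠ 0 → (tot P s : ℝ) ≤ R) :
    (∀ d, |lamF P F d| ≤ Λ * (1 + Real.log R) ^ Fintype.card I) ∧
    (∀ d, lamF P F d ≠ 0 → (tot P d : ℝ) ≤ R) ∧
    ∑ d, |lamF P F d| ≤ Λ * R * (1 + Real.log R) ^ (2 * Fintype.card I) := by
  have hP0 : ∀ k, 0 < P k := fun k => (hP k).pos
  have hΛ : 0 ≤ Λ := (hF0 (fun _ => none)).trans (hF _)
  have hlog : 0 ≤ 1 + Real.log R := by
    have := Real.log_nonneg hR
    linarith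
  have h2 : ∀ d, lamF P F d ≠ 0 → (tot P d : ℝ) ≤ R := by
    intro d hd
    unfold lamF at hd
    have h3 := right_ne_zero_of_mul hd
    obtain ⟨s, hs, hs'⟩ := Finset.exists_ne_zero_of_sum_ne_zero h3
    rw [Finset.mem_filter] at hs
    have h4 : F s ≠ 0 := by
      intro h0
      rw [h0] at hs'
      simp at hs'
    have h5 := hFR s h4
    rw [lamB_tot_outp P d s hs.2] at h5
    push_cast at h5
    have h6 := lamB_one_le_tot hP0 (lamB_outp d s)
    have h7 : (0 : ℝ) ≤ tot P d := Nat.cast_nonneg _
    nlinarith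
  have h1 : ∀ d, |lamF P F d| ≤ Λ * (1 + Real.log R) ^ Fintype.card I := by
    intro d
    have hd0 : (0 : ℝ) < tot P d := by exact_mod_cast tot_pos hP0 d
    have e1 : |lamF P F d| = tot P d * ∑ s ∈ univ.filter (fun s => sub d s), F s / tot P s := by
      unfold lamF
      rw [abs_mul, abs_mul, lamB_abs_mu, one_mul, abs_of_pos hd0, abs_of_nonneg]
      apply Finset.sum_nonneg
      intro s _
      exact div_nonneg (hF0 s) (Nat.cast_nonneg _)
    rw [e1, Finset.mul_sum]
    have e2 : ∀ s ∈ univ.filter (fun s => sub d s), (tot P d : ℝ) * (F s / tot P s) ≤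
        (if (tot P (lamB_outp d s) : ℝ) ≤ R then Λ * (1 / (tot P (lamB_outp d s) : ℝ)) else 0) := by
      intro s hs
      rw [Finset.mem_filter] at hs
      have ht0 : (0 : ℝ) < tot P (lamB_outp d s) := by exact_mod_cast tot_pos hP0 _
      have e3 : (tot P d : ℝ) * (F s / tot P s) = F s * (1 / (tot P (lamB_outp d s) : ℝ)) := by
        rw [lamB_tot_outp P d s hs.2]
        push_cast
        field_simp
      rw [e3]
      by_cases hF' : F s = 0
      · rw [hF', zero_mul]
        split_ifs
        · positivity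
        · exact le_rfl
      · have h4 := hFR s hF'
        rw [lamB_tot_outp P d s hs.2] at h4
        push_cast at h4
        have h5 := lamB_one_le_tot hP0 d
        rw [if_pos (by nlinarith)]
        exact mul_le_mul_of_nonneg_right (hF s) (by positivity)
    refine (Finset.sum_le_sum e2).trans ?_
    have hinjd : Set.InjOn (lamB_outp d) ((univ.filter (fun s => sub d s) : Finset (ι → Option I)) :
        Set (ι → Option I)) := by
      intro s hs s' hs' hss
      rw [Finset.mem_coe, Finset.mem_filter] at hs hs'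
      funext k
      have := congrFun hss k
      unfold lamB_outp at this
      rcases hs.2 k with h | h
      · rw [if_pos h, if_pos h] at this
        exact this
      · rcases hs'.2 k with h' | h'
        · rw [if_pos h', if_pos h'] at this
          exact this
        · exact h.symm.trans h'
    calc ∑ s ∈ univ.filter (fun s => sub d s),
          (if (tot P (lamB_outp d s) : ℝ) ≤ R then Λ * (1 / (tot P (lamB_outp d s) : ℝ)) else 0)
        = ∑ t ∈ (univ.filter (fun s => sub d s)).image (lamB_outp d),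
          (if (tot P t : ℝ) ≤ R then Λ * (1 / (tot P t : ℝ)) else 0) := by
          rw [Finset.sum_image hinjd]
      _ ≤ ∑ t : ι → Option I, (if (tot P t : ℝ) ≤ R then Λ * (1 / (tot P t : ℝ)) else 0) := by
          apply Finset.sum_le_sum_of_subset_of_nonneg (Finset.subset_univ _)
          intro t _ _
          split_ifs
          · positivity
          · exact le_rfl
      _ = Λ * ∑ t ∈ (univ : Finset (ι → Option I)).filter (fun t => (tot P t : ℝ) ≤ R),
            (1 : ℝ) / tot P t := by
          rw [← Finset.sum_filter, Finset.mul_sum]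
      _ ≤ Λ * (1 + Real.log R) ^ Fintype.card I :=
          mul_le_mul_of_nonneg_left (sum_tot_le P hP hinj R hR) hΛ
  refine ⟨h1, h2, ?_⟩
  have h3 : ∀ d, |lamF P F d| ≤ Λ * (1 + Real.log R) ^ Fintype.card I *
      (if (tot P d : ℝ) ≤ R then R * (1 / (tot P d : ℝ)) else 0) := by
    intro d
    by_cases hd : lamF P F d = 0
    · rw [hd, abs_zero]
      split_ifs
      · positivity
      · simp
    · have h4 := h2 d hd
      rw [if_pos h4]
      have h5 : 1 ≤ R * (1 / (tot P d : ℝ)) := by
        rw [mul_one_div, le_div_iff₀ (by linarith [lamB_one_le_tot hP0 d]), one_mul]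
        exact h4
      calc |lamF P F d| ≤ Λ * (1 + Real.log R) ^ Fintype.card I := h1 d
        _ ≤ Λ * (1 + Real.log R) ^ Fintype.card I * (R * (1 / (tot P d : ℝ))) :=
          le_mul_of_one_le_right (by positivity) h5
  calc ∑ d, |lamF P F d| ≤ ∑ d, Λ * (1 + Real.log R) ^ Fintype.card I *
        (if (tot P d : ℝ) ≤ R then R * (1 / (tot P d : ℝ)) else 0) :=
        Finset.sum_le_sum (fun d _ => h3 d)
    _ = Λ * (1 + Real.log R) ^ Fintype.card I * (R *
        ∑ t ∈ (univ : Finset (ι → Option I)).filter (fun t => (tot P t : ℝ) ≤ R),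
            (1 : ℝ) / tot P t) := by
        rw [← Finset.mul_sum, ← Finset.sum_filter, ← Finset.mul_sum]
    _ ≤ Λ * (1 + Real.log R) ^ Fintype.card I * (R * (1 + Real.log R) ^ Fintype.card I) := by
        apply mul_le_mul_of_nonneg_left _ (by positivity)
        exact mul_le_mul_of_nonneg_left (sum_tot_le P hP hinj R hR) (by linarith)
    _ = Λ * R * (1 + Real.log R) ^ (2 * Fintype.card I) := by
        rw [two_mul, pow_add]
        ring

end Pool.Agent.H21.MT
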