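import Pool.Agent.H21.MT.Dv
import Pool.Agent.H21.MT.LamB

/-!
[H21 MT ERRSUM]  The error term of the prime sum: Cauchy-Schwarz with the trivial bound.

Proof.  Let `K = |I| ≥ 1`.  Group the pairs `(d,e)` by the union `T` of the supports: `totJ = nrm T`,
for each `T` at most `(K^2+2K)^{|T|} ≤ (3K^2)^{|T|}` pairs (each prime of `T` has
`(K+1)^2 - 1` possible pairs of labels), and `nrm T ≤ tot d * tot e ≤ R^2` if both weights are `≠ 0`.
So the sum is `≤ Λ^2 ∑_{T : nrm T ≤ R^2} (3K^2)^{|T|} E(W nrm T)`.  Cauchy-Schwarz: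
`(∑_T a_T E_T)^2 ≤ (∑_T a_T^2 E_T)(∑_T E_T)`.  Second factor `≤ ∑_{q ≤ Q} E q ≤ S0`
(`T ↦ W nrm T` is injective, values in `[1,Q]`).  First factor: `E_T ≤ T0/φ(W nrm T)
≤ T0/φ(nrm T)` and `φ(nrm T) ≥ nrm T / 2^{|T|}`, so it is
`≤ T0 ∑_T (18 K^4)^{|T|}/nrm T [nrm T ≤ R^2] ≤ T0 (∑_{n ≤ R^2} 1/n)^{18 K^4}
≤ T0 (1 + 2 log R)^{18 K^4}` (`c^{|T|}` counts the maps `T → Fin c`, i.e. the factorisations of
`nrm T` into `c` factors, injective into the `c`-tuples of naturals `≤ R^2`; compare
`sum_tot_le` of LAMB with `Fin c` as label set, which may be copied).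
If `K = 0` then `lam` has only one argument `d` per ... (all `s k = none`): the claim is
`lam^2 E(W) ≤ Λ^2 sqrt(T0 S0)`, true as `E(W) ≤ T0/φ(W) ≤ T0` and `E(W) ≤ S0`.
-/

set_option linter.unusedSectionVars false

namespace Pool.Agent.H21.MT

open Finset

variable {ι I : Type} [Fintype ι] [DecidableEq ι] [Fintype I] [DecidableEq I]

/-- sums over functions by the support -/
theorem errSum_fiber {α : Type} [Fintype α] [DecidableEq α] (a0 : α) (f : Finset ι → ℝ) :
    ∑ w : ι → α, f (univ.filter (fun k => w k ≠ a0)) =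
      ∑ T : Finset ι, ((Fintype.card α - 1 : ℕ) : ℝ) ^ T.card * f T := by
  rw [← Finset.sum_fiberwise (univ : Finset (ι → α)) (fun w => univ.filter (fun k => w k ≠ a0))
    (fun w => f (univ.filter (fun k => w k ≠ a0)))]
  apply Finset.sum_congr rfl
  intro T _
  have e1 : ∀ w ∈ (univ : Finset (ι → α)).filter (fun w => univ.filter (fun k => w k ≠ a0) = T),
      f (univ.filter (fun k => w k ≠ a0)) = f T := by
    intro w hw
    rw [Finset.mem_filter] at hw
    rw [hw.2]
  rw [Finset.sum_congr rfl e1, Finset.sum_const, nsmul_eq_mul]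
  congr 1
  have e2 : (univ : Finset (ι → α)).filter (fun w => univ.filter (fun k => w k ≠ a0) = T) =
      Fintype.piFinset (fun k => if k ∈ T then (univ : Finset α).erase a0 else {a0}) := by
    ext w
    rw [Finset.mem_filter, Fintype.mem_piFinset]
    constructor
    · rintro ⟨_, h⟩ k
      by_cases hk : k ∈ T
      · rw [if_pos hk]
        rw [← h, Finset.mem_filter] at hk
        exact Finset.mem_erase.mpr ⟨hk.2, mem_univ _⟩
      · rw [if_neg hk, Finset.mem_singleton]
        by_contra hc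
        exact hk (by rw [← h, Finset.mem_filter]; exact ⟨mem_univ _, hc⟩)
    · intro h
      refine ⟨mem_univ _, ?_⟩
      ext k
      rw [Finset.mem_filter]
      have hk := h k
      by_cases hT : k ∈ T
      · rw [if_pos hT, Finset.mem_erase] at hk
        exact ⟨fun _ => hT, fun _ => ⟨mem_univ _, hk.1⟩⟩
      · rw [if_neg hT, Finset.mem_singleton] at hk
        exact ⟨fun h' => absurd hk h'.2, fun h' => absurd h' hT⟩
  rw [e2, Fintype.card_piFinset]
  have e3 : ∀ k : ι, (if k ∈ T then (univ : Finset α).erase a0 else {a0}).card =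
      if k ∈ T then Fintype.card α - 1 else 1 := by
    intro k
    split_ifs
    · rw [Finset.card_erase_of_mem (mem_univ _), Finset.card_univ]
    · exact Finset.card_singleton _
  rw [Finset.prod_congr rfl (fun k _ => e3 k), Finset.prod_ite_mem, Finset.univ_inter,
    Finset.prod_const]
  push_cast
  rfl

theorem errSum_supp (P : ι → ℕ) (d e : ι → Option I) :
    totJ P d e = nrm P (univ.filter (fun k => (d k, e k) ≠ ((none : Option I), (none : Option I)))) := by
  unfold totJ nrm
  rw [Finset.prod_filter]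
  apply Finset.prod_congr rfl
  intro k _
  by_cases h : d k = none ∧ e k = none
  · rw [if_pos h, if_neg]
    rw [h.1, h.2]
    simp
  · rw [if_neg h, if_pos]
    intro h'
    rw [Prod.mk.injEq] at h'
    exact h h'

theorem errSum_tot (P : ι → ℕ) (t : ι → Option I) :
    tot P t = nrm P (univ.filter (fun k => t k ≠ none)) := by
  unfold tot nrm
  rw [Finset.prod_filter]
  apply Finset.prod_congr rfl
  intro k _
  by_cases h : t k = none <;> simp [h]

theorem errSum_totJ_le (P : ι → ℕ) (hP : ∀ k, 0 < P k) (d e : ι → Option I) :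
    totJ P d e ≤ tot P d * tot P e := by
  unfold totJ tot
  rw [← Finset.prod_mul_distrib]
  apply Finset.prod_le_prod'
  intro k _
  have := hP k
  by_cases h1 : d k = none <;> by_cases h2 : e k = none <;> simp [h1, h2]
  nlinarith

theorem errSum_nrm_inj (P : ι → ℕ) (hP : ∀ k, (P k).Prime) (hinj : Function.Injective P) :
    Function.Injective (nrm P) := by
  have key : ∀ (T : Finset ι) (k : ι), P k ∣ nrm P T ↔ k ∈ T := by
    intro T k
    unfold nrm
    constructor
    · intro h
      rw [(Nat.Prime.prime (hP k)).dvd_finsetProd_iff] at h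
      obtain ⟨k', hk', hd⟩ := h
      have := (Nat.prime_dvd_prime_iff_eq (hP k) (hP k')).mp hd
      rw [hinj this]
      exact hk'
    · intro h
      exact Finset.dvd_prod_of_mem P h
  intro T T' h
  ext k
  rw [← key T k, ← key T' k, h]

theorem errSum_phi (P : ι → ℕ) (hP : ∀ k, (P k).Prime) (T : Finset ι) :
    (nrm P T : ℝ) / 2 ^ T.card ≤ ((nrm P T).totient : ℝ) := by
  classical
  induction T using Finset.induction_on with
  | empty => simp [nrm]
  | insert k T hk ih =>
    have e1 : nrm P (insert k T) = P k * nrm P T := by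
      unfold nrm
      rw [Finset.prod_insert hk]
    have h1 : (P k).totient * (nrm P T).totient ≤ (nrm P (insert k T)).totient := by
      rw [e1]
      exact Nat.totient_super_multiplicative _ _
    have h2 : ((P k : ℕ) : ℝ) / 2 ≤ ((P k).totient : ℝ) := by
      rw [Nat.totient_prime (hP k), Nat.cast_sub (hP k).one_lt.le]
      have : (2 : ℝ) ≤ (P k : ℝ) := by exact_mod_cast (hP k).two_le
      push_cast
      linarith
    rw [e1] at h1 ⊢
    rw [Finset.card_insert_of_notMem hk]
    have h3 : (((P k).totient * (nrm P T).totient : ℕ) : ℝ) ≤ ((P k * nrm P T).totient : ℝ) := by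
      exact_mod_cast h1
    push_cast at h3 ⊢
    calc (P k : ℝ) * nrm P T / 2 ^ (T.card + 1) = ((P k : ℝ) / 2) * (nrm P T / 2 ^ T.card) := by
          rw [pow_succ]
          field_simp
      _ ≤ ((P k).totient : ℝ) * ((nrm P T).totient : ℝ) := by
          apply mul_le_mul h2 ih (by positivity) (Nat.cast_nonneg _)
      _ ≤ _ := h3

theorem err_sum (P : ι → ℕ) (hP : ∀ k, (P k).Prime) (hinj : Function.Injective P) (W : ℕ)
    (hW : 0 < W) (hPW : ∀ k, ¬ P k ∣ W) (lam : (ι → Option I) → ℝ) (Λ R Q T0 S0 : ℝ) (hR : 1 ≤ R)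
    (hΛ : ∀ d, |lam d| ≤ Λ) (hsupp : ∀ d, lam d ≠ 0 → (tot P d : ℝ) ≤ R) (E : ℕ → ℝ)
    (hE0 : ∀ q, 0 ≤ E q) (hT0 : 0 ≤ T0) (hQ : W * R ^ 2 ≤ Q)
    (htriv : ∀ q : ℕ, 1 ≤ q → (q : ℝ) ≤ Q → E q ≤ T0 / q.totient)
    (hsum : ∑ q ∈ Icc 1 ⌊Q⌋₊, E q ≤ S0) :
    ∑ d, ∑ e, |lam d| * |lam e| * E (W * totJ P d e) ≤
      Λ ^ 2 * Real.sqrt (T0 * S0) * (1 + 2 * Real.log R) ^ (9 * Fintype.card I ^ 4) := by
  classical
  have hP0 : ∀ k, 0 < P k := fun k => (hP k).pos
  have hΛ0 : 0 ≤ Λ := (abs_nonneg _).trans (hΛ (fun _ => none))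
  have hlog := Real.log_nonneg hR
  have hS0 : 0 ≤ S0 := (Finset.sum_nonneg (fun q _ => hE0 q)).trans hsum
  set g : Finset ι → ℝ := fun T => if (nrm P T : ℝ) ≤ R ^ 2 then E (W * nrm P T) else 0 with hg
  have hg0 : ∀ T, 0 ≤ g T := by
    intro T
    rw [hg]
    simp only
    split_ifs
    · exact hE0 _
    · exact le_rfl
  set M : ℕ := Fintype.card (Option I × Option I) - 1 with hM
  -- grouping
  have h1 : ∑ d, ∑ e, |lam d| * |lam e| * E (W * totJ P d e) ≤
      Λ ^ 2 * ∑ T : Finset ι, (M : ℝ) ^ T.card * g T := by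
    have e1 : ∑ T : Finset ι, (M : ℝ) ^ T.card * g T =
        ∑ d : ι → Option I, ∑ e : ι → Option I,
          g (univ.filter (fun k => (d k, e k) ≠ ((none : Option I), (none : Option I)))) := by
      rw [hM, ← errSum_fiber (ι := ι) ((none : Option I), (none : Option I)) g]
      rw [← Finset.sum_product', Finset.univ_product_univ]
      exact Fintype.sum_equiv (Equiv.arrowProdEquivProdArrow ι (fun _ => Option I) (fun _ => Option I))
        _ _ (fun w => rfl)
    rw [e1, Finset.mul_sum]
    apply Finset.sum_le_sum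
    intro d _
    rw [Finset.mul_sum]
    apply Finset.sum_le_sum
    intro e _
    by_cases hd : lam d = 0
    · rw [hd, abs_zero, zero_mul, zero_mul]
      exact mul_nonneg (sq_nonneg _) (hg0 _)
    by_cases he : lam e = 0
    · rw [he, abs_zero, mul_zero, zero_mul]
      exact mul_nonneg (sq_nonneg _) (hg0 _)
    have h2 : (totJ P d e : ℝ) ≤ R ^ 2 := by
      have h3 : (totJ P d e : ℝ) ≤ (tot P d : ℝ) * tot P e := by
        exact_mod_cast errSum_totJ_le P hP0 d e
      have h4 := hsupp d hd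
      have h5 := hsupp e he
      calc (totJ P d e : ℝ) ≤ (tot P d : ℝ) * tot P e := h3
        _ ≤ R * R := mul_le_mul h4 h5 (Nat.cast_nonneg _) (by linarith)
        _ = R ^ 2 := (sq R).symm
    have h3 : g (univ.filter (fun k => (d k, e k) ≠ ((none : Option I), (none : Option I)))) =
        E (W * totJ P d e) := by
      rw [hg]
      simp only
      rw [← errSum_supp P d e, if_pos h2]
    rw [h3]
    apply mul_le_mul_of_nonneg_right _ (hE0 _)
    rw [sq]
    exact mul_le_mul (hΛ d) (hΛ e) (abs_nonneg _) hΛ0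
  -- Cauchy-Schwarz
  have h2 : (∑ T : Finset ι, (M : ℝ) ^ T.card * g T) ^ 2 ≤
      (∑ T : Finset ι, ((M : ℝ) ^ T.card) ^ 2 * g T) * ∑ T : Finset ι, g T := by
    have := Finset.sum_mul_sq_le_sq_mul_sq (univ : Finset (Finset ι))
      (fun T => (M : ℝ) ^ T.card * Real.sqrt (g T)) (fun T => Real.sqrt (g T))
    have e1 : ∀ T : Finset ι, (M : ℝ) ^ T.card * Real.sqrt (g T) * Real.sqrt (g T) =
        (M : ℝ) ^ T.card * g T := by
      intro T
      rw [mul_assoc, Real.mul_self_sqrt (hg0 T)]
    have e2 : ∀ T : Finset ι, ((M : ℝ) ^ T.card * Real.sqrt (g T)) ^ 2 =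
        ((M : ℝ) ^ T.card) ^ 2 * g T := by
      intro T
      rw [mul_pow, Real.sq_sqrt (hg0 T)]
    have e3 : ∀ T : Finset ι, (Real.sqrt (g T)) ^ 2 = g T := fun T => Real.sq_sqrt (hg0 T)
    simp only [e1, e2, e3] at this
    exact this
  -- the second factor
  have h3 : ∑ T : Finset ι, g T ≤ S0 := by
    refine le_trans ?_ hsum
    have e1 : ∑ T : Finset ι, g T =
        ∑ T ∈ (univ : Finset (Finset ι)).filter (fun T => (nrm P T : ℝ) ≤ R ^ 2),
          E (W * nrm P T) := by
      rw [Finset.sum_filter]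
    rw [e1]
    calc ∑ T ∈ (univ : Finset (Finset ι)).filter (fun T => (nrm P T : ℝ) ≤ R ^ 2),
          E (W * nrm P T)
        = ∑ q ∈ ((univ : Finset (Finset ι)).filter (fun T => (nrm P T : ℝ) ≤ R ^ 2)).image
            (fun T => W * nrm P T), E q := by
          rw [Finset.sum_image]
          intro a _ b _ hab
          exact errSum_nrm_inj P hP hinj (Nat.eq_of_mul_eq_mul_left hW hab)
      _ ≤ ∑ q ∈ Icc 1 ⌊Q⌋₊, E q := by
          apply Finset.sum_le_sum_of_subset_of_nonneg
          · intro q hq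
            rw [Finset.mem_image] at hq
            obtain ⟨T, hT, rfl⟩ := hq
            rw [Finset.mem_filter] at hT
            rw [Finset.mem_Icc]
            refine ⟨Nat.mul_pos hW (nrm_pos hP0 T), ?_⟩
            apply Nat.le_floor
            push_cast
            refine le_trans ?_ hQ
            exact mul_le_mul_of_nonneg_left hT.2 (Nat.cast_nonneg _)
          · intro q _ _
            exact hE0 q
  -- the first factor
  have h4 : ∑ T : Finset ι, ((M : ℝ) ^ T.card) ^ 2 * g T ≤
      T0 * (1 + 2 * Real.log R) ^ (2 * M ^ 2) := by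
    have e1 : ∀ T : Finset ι, ((M : ℝ) ^ T.card) ^ 2 * g T ≤
        T0 * (((2 * M ^ 2 : ℕ) : ℝ) ^ T.card *
          (if (nrm P T : ℝ) ≤ R ^ 2 then 1 / (nrm P T : ℝ) else 0)) := by
      intro T
      rw [hg]
      simp only
      by_cases hT : (nrm P T : ℝ) ≤ R ^ 2
      · rw [if_pos hT, if_pos hT]
        have hn0 : 0 < nrm P T := nrm_pos hP0 T
        have hn0' : (0 : ℝ) < nrm P T := by exact_mod_cast hn0
        have hq1 : 1 ≤ W * nrm P T := Nat.mul_pos hW hn0
        have hqQ : ((W * nrm P T : ℕ) : ℝ) ≤ Q := by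
          push_cast
          exact (mul_le_mul_of_nonneg_left hT (Nat.cast_nonneg _)).trans hQ
        have h5 := htriv _ hq1 hqQ
        have h6 : (nrm P T : ℝ) / 2 ^ T.card ≤ ((W * nrm P T).totient : ℝ) := by
          refine (errSum_phi P hP T).trans ?_
          have h7 := Nat.totient_super_multiplicative W (nrm P T)
          have h8 : 1 ≤ W.totient := Nat.totient_pos.mpr hW
          have h9 : (nrm P T).totient ≤ (W * nrm P T).totient := by
            calc (nrm P T).totient = 1 * (nrm P T).totient := (one_mul _).symm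
              _ ≤ W.totient * (nrm P T).totient := Nat.mul_le_mul_right _ h8
              _ ≤ _ := h7
          exact_mod_cast h9
        have h7 : E (W * nrm P T) ≤ T0 * (2 ^ T.card / (nrm P T : ℝ)) := by
          refine h5.trans ?_
          rw [div_eq_mul_inv]
          apply mul_le_mul_of_nonneg_left _ hT0
          rw [← inv_div]
          exact inv_anti₀ (by positivity) h6
        calc ((M : ℝ) ^ T.card) ^ 2 * E (W * nrm P T)
            ≤ ((M : ℝ) ^ T.card) ^ 2 * (T0 * (2 ^ T.card / (nrm P T : ℝ))) :=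
              mul_le_mul_of_nonneg_left h7 (by positivity)
          _ = T0 * (((2 * M ^ 2 : ℕ) : ℝ) ^ T.card * (1 / (nrm P T : ℝ))) := by
              push_cast
              rw [mul_pow, ← pow_mul, ← pow_mul, Nat.mul_comm T.card 2]
              ring
      · rw [if_neg hT, if_neg hT]
        simp
    refine (Finset.sum_le_sum (fun T _ => e1 T)).trans ?_
    rw [← Finset.mul_sum]
    apply mul_le_mul_of_nonneg_left _ hT0
    have h5 := sum_tot_le (I := Fin (2 * M ^ 2)) P hP hinj (R ^ 2) (one_le_pow₀ hR)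
    rw [Fintype.card_fin, Real.log_pow] at h5
    push_cast at h5
    refine le_trans (le_of_eq ?_) h5
    have h6 := errSum_fiber (ι := ι) (α := Option (Fin (2 * M ^ 2))) none
      (fun T => if (nrm P T : ℝ) ≤ R ^ 2 then 1 / (nrm P T : ℝ) else 0)
    have h7 : Fintype.card (Option (Fin (2 * M ^ 2))) - 1 = 2 * M ^ 2 := by
      rw [Fintype.card_option, Fintype.card_fin]
      rfl
    rw [h7] at h6
    rw [← h6, Finset.sum_filter]
    apply Finset.sum_congr rfl
    intro t _
    rw [← errSum_tot P t]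
  have hMK : 2 * M ^ 2 ≤ 18 * Fintype.card I ^ 4 := by
    have h5 : M ≤ 3 * Fintype.card I ^ 2 := by
      rw [hM, Fintype.card_prod, Fintype.card_option]
      have : Fintype.card I ≤ Fintype.card I ^ 2 := Nat.le_self_pow (by norm_num) _
      have e : (Fintype.card I + 1) * (Fintype.card I + 1) - 1 =
          Fintype.card I ^ 2 + 2 * Fintype.card I := by
        rw [show (Fintype.card I + 1) * (Fintype.card I + 1) =
          Fintype.card I ^ 2 + 2 * Fintype.card I + 1 by ring]
        rfl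
      rw [e]
      omega
    calc 2 * M ^ 2 ≤ 2 * (3 * Fintype.card I ^ 2) ^ 2 :=
          Nat.mul_le_mul_left _ (Nat.pow_le_pow_left h5 2)
      _ = 18 * Fintype.card I ^ 4 := by ring
  have hL1 : 1 ≤ 1 + 2 * Real.log R := by linarith
  have h5 : ∑ T : Finset ι, (M : ℝ) ^ T.card * g T ≤
      Real.sqrt (T0 * S0) * (1 + 2 * Real.log R) ^ (9 * Fintype.card I ^ 4) := by
    apply le_of_sq_le_sq _ (by positivity)
    rw [mul_pow, Real.sq_sqrt (mul_nonneg hT0 hS0), ← pow_mul]
    calc (∑ T : Finset ι, (M : ℝ) ^ T.card * g T) ^ 2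
        ≤ (∑ T : Finset ι, ((M : ℝ) ^ T.card) ^ 2 * g T) * ∑ T : Finset ι, g T := h2
      _ ≤ (T0 * (1 + 2 * Real.log R) ^ (2 * M ^ 2)) * S0 :=
          mul_le_mul h4 h3 (Finset.sum_nonneg (fun T _ => hg0 T)) (by positivity)
      _ ≤ (T0 * (1 + 2 * Real.log R) ^ (18 * Fintype.card I ^ 4)) * S0 := by
          apply mul_le_mul_of_nonneg_right _ hS0
          exact mul_le_mul_of_nonneg_left (pow_le_pow_right₀ hL1 hMK) hT0
      _ = T0 * S0 * (1 + 2 * Real.log R) ^ (9 * Fintype.card I ^ 4 * 2) := by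
          rw [show 9 * Fintype.card I ^ 4 * 2 = 18 * Fintype.card I ^ 4 by ring]
          ring
  calc ∑ d, ∑ e, |lam d| * |lam e| * E (W * totJ P d e)
      ≤ Λ ^ 2 * ∑ T : Finset ι, (M : ℝ) ^ T.card * g T := h1
    _ ≤ Λ ^ 2 * (Real.sqrt (T0 * S0) * (1 + 2 * Real.log R) ^ (9 * Fintype.card I ^ 4)) :=
        mul_le_mul_of_nonneg_left h5 (sq_nonneg _)
    _ = _ := by ring

end Pool.Agent.H21.MT
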