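import Pool.Agent.H21.MT.Dat
import Pool.Agent.H21.MT.GwB
import Pool.Agent.H21.MT.LamB

/-!
[H21 MT LOW]  From primes with the weight `vp` to integers `N` with the weight `wN`.

Proof.  Let `L = log x`.  In the sum over `p ∈ Wp x` split off the `p ≤ 2√x` and the `p > x^2`: by
`gw_tiny` their total contribution is at most
`x^3 (3L)^{J+1} exp(-L^2/10) (∑|lam|)^2 ≤ 1` for large `x` (`exp_log_sq`, `∑|lam| ≤ x`).
For `2√x < p ≤ x^2` and `x` large put `N = p - h m`: `√x < N ≤ x^2`, so `N ∈ Win x`;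
`N % W = b % W` iff `W ∣ p - (b + h m)`; `dv P h d N ↔ dvm P h m d p`.  If `lam d ≠ 0` and
`dv P h d N` then `d` has no label `m`: otherwise some `P k ≤ R < √x` divides the prime `N + h m > √x`.
So `sig P h lam N = ∑_{dvm} offL m lam d`.  Finally `gw_comp`:
`vp J x p ≤ 100 L^{J+1} wN x N`.
(`hΣ` is the bound `∑ |lam| ≤ x`.)
-/

set_option linter.unusedSectionVars false

namespace Pool.Agent.H21.MT

open Finset Filter

theorem low_dvm {ι I : Type} [Fintype ι] [DecidableEq ι] [Fintype I] [DecidableEq I]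
    (P : ι → ℕ) (h : I → ℕ) (m : I) (d : ι → Option I) (N : ℕ) :
    dvm P h m d (N + h m) ↔ dv P h d N := by
  unfold dvm dv
  refine forall_congr' fun k => forall_congr' fun i => imp_congr_right fun _ => ?_
  rw [← Int.natCast_dvd_natCast]
  push_cast
  have : (N : ℤ) + (h m : ℤ) - h m + h i = N + h i := by ring
  rw [this]

theorem low_sum {ι I : Type} [Fintype ι] [DecidableEq ι] [Fintype I] [DecidableEq I]
    (P : ι → ℕ) (h : I → ℕ) (m : I) (lam : (ι → Option I) → ℝ) (N : ℕ)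
    (hP : ∀ k, (P k).Prime) (hN : (N + h m).Prime) (hlt : ∀ k, P k < N + h m) :
    ∑ d ∈ univ.filter (fun d => dvm P h m d (N + h m)), offL m lam d = sig P h lam N := by
  unfold sig
  simp only [low_dvm]
  refine Finset.sum_congr rfl fun d hd => ?_
  rw [Finset.mem_filter] at hd
  unfold offL
  rw [if_pos]
  intro k hk
  have h1 := hd.2 k m hk
  have h2 := (Nat.prime_dvd_prime_iff_eq (hP k) hN).1 h1
  exact absurd h2 (hlt k).ne

theorem low_abs {ι I : Type} [Fintype ι] [DecidableEq ι] [Fintype I] [DecidableEq I]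
    (P : ι → ℕ) (h : I → ℕ) (m : I) (lam : (ι → Option I) → ℝ) (p : ℕ) (x : ℝ)
    (hS : ∑ d, |lam d| ≤ x) :
    (∑ d ∈ univ.filter (fun d => dvm P h m d p), offL m lam d) ^ 2 ≤ x ^ 2 := by
  have h1 : |∑ d ∈ univ.filter (fun d => dvm P h m d p), offL m lam d| ≤ x := by
    calc |∑ d ∈ univ.filter (fun d => dvm P h m d p), offL m lam d|
        ≤ ∑ d ∈ univ.filter (fun d => dvm P h m d p), |offL m lam d| :=
          Finset.abs_sum_le_sum_abs _ _
      _ ≤ ∑ d ∈ univ.filter (fun d => dvm P h m d p), |lam d| := by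
          refine Finset.sum_le_sum fun d _ => ?_
          unfold offL
          split_ifs
          · exact le_refl _
          · rw [abs_zero]; exact abs_nonneg _
      _ ≤ ∑ d, |lam d| := Finset.sum_le_sum_of_subset_of_nonneg (Finset.filter_subset _ _)
          fun _ _ _ => abs_nonneg _
      _ ≤ x := hS
  rw [← sq_abs]
  exact pow_le_pow_left₀ (abs_nonneg _) h1 2

theorem low (J : ℕ) (I : Type) [Fintype I] [DecidableEq I] (h : I → ℕ) (W b : ℕ) (hW : 0 < W)
    (m : I) : ∀ᶠ x : ℝ in atTop, ∀ (ι : Type) [Fintype ι] [DecidableEq ι] (P : ι → ℕ)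
      (lam : (ι → Option I) → ℝ), (∀ k, (P k).Prime) → (∀ k, (P k : ℝ) ≤ x ^ (1 / 100 : ℝ)) →
      (∑ d, |lam d| ≤ x) →
      ∑ p ∈ (Wp x).filter (fun p : ℕ => (W : ℤ) ∣ (p : ℤ) - (b + h m)),
        vp J x p * (∑ d ∈ univ.filter (fun d => dvm P h m d p), offL m lam d) ^ 2 - 1 ≤
      100 * (Real.log x) ^ (J + 1) *
        ∑ N ∈ ((Win x).filter (fun N => N % W = b % W)).filter (fun N => (N + h m).Prime),
          wN x N * (sig P h lam N) ^ 2 := by
  have e4 : ∀ᶠ x : ℝ in atTop, 3 * Real.log x ≤ x := by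
    have h1 := Real.isLittleO_log_id_atTop.def (c := 1 / 3) (by norm_num)
    filter_upwards [h1, eventually_ge_atTop 1] with x hx hx1
    rw [Real.norm_of_nonneg (Real.log_nonneg hx1), id, Real.norm_of_nonneg (by linarith)] at hx
    linarith
  have e5 : ∀ᶠ x : ℝ in atTop, (h m : ℝ) ≤ Real.sqrt x :=
    Real.tendsto_sqrt_atTop.eventually_ge_atTop _
  filter_upwards [exp_log_sq (J + 6), gw_comp J (h m), gw_tiny, e4, e5, eventually_ge_atTop 1]
    with x h1 h2 h3 h4 h5 hx1 ι _ _ P lam hP hPR hS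
  have hx0 : 0 < x := by linarith
  have hL : 0 ≤ Real.log x := Real.log_nonneg hx1
  have hsq : 1 ≤ Real.sqrt x := by
    rw [show (1 : ℝ) = Real.sqrt 1 by simp]; exact Real.sqrt_le_sqrt hx1
  have hPs : ∀ k, (P k : ℝ) ≤ Real.sqrt x := by
    intro k
    refine (hPR k).trans ?_
    rw [Real.sqrt_eq_rpow]
    exact Real.rpow_le_rpow_of_exponent_le hx1 (by norm_num)
  set Sg : ℕ → ℝ := fun p => (∑ d ∈ univ.filter (fun d => dvm P h m d p), offL m lam d) ^ 2
    with hSg
  have hSg0 : ∀ p, 0 ≤ Sg p := fun p => sq_nonneg _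
  set Q := (Wp x).filter (fun p : ℕ => (W : ℤ) ∣ (p : ℤ) - (b + h m)) with hQ
  have hsplit := Finset.sum_filter_add_sum_filter_not Q
    (fun p : ℕ => (p : ℝ) ≤ 2 * Real.sqrt x ∨ x ^ 2 < p) (fun p => vp J x p * Sg p)
  have hT : ∑ p ∈ Q.filter (fun p : ℕ => (p : ℝ) ≤ 2 * Real.sqrt x ∨ x ^ 2 < p),
      vp J x p * Sg p ≤ 1 := by
    have hb : ∀ p ∈ Q.filter (fun p : ℕ => (p : ℝ) ≤ 2 * Real.sqrt x ∨ x ^ 2 < p),
        vp J x p * Sg p ≤ x ^ (J + 3) * Real.exp (-(Real.log x) ^ 2 / 10) := by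
      intro p hp
      rw [Finset.mem_filter, hQ, Finset.mem_filter, Wp, Finset.mem_filter, Finset.mem_Icc] at hp
      obtain ⟨⟨⟨⟨hp1, hp2⟩, hpp⟩, hpd⟩, hpt⟩ := hp
      have hpx : (p : ℝ) ≤ x ^ 3 := (Nat.le_floor_iff (by positivity)).1 hp2
      have hp1' : (1 : ℝ) ≤ p := by exact_mod_cast hp1
      have hlog : Real.log p ≤ x := by
        refine (Real.log_le_log (by linarith) hpx).trans ?_
        rw [Real.log_pow]
        push_cast
        exact h4
      have hlog0 : 0 ≤ Real.log p := Real.log_nonneg hp1'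
      have hv : vp J x p ≤ x ^ (J + 1) * Real.exp (-(Real.log x) ^ 2 / 10) := by
        unfold vp
        exact mul_le_mul (pow_le_pow_left₀ hlog0 hlog _) (h3 p hp1 hpt) (gw_pos x p).le
          (by positivity)
      calc vp J x p * Sg p ≤ (x ^ (J + 1) * Real.exp (-(Real.log x) ^ 2 / 10)) * x ^ 2 :=
            mul_le_mul hv (low_abs P h m lam p x hS) (hSg0 p) (by positivity)
        _ = x ^ (J + 3) * Real.exp (-(Real.log x) ^ 2 / 10) := by ring
    refine (Finset.sum_le_card_nsmul _ _ _ hb).trans ?_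
    rw [nsmul_eq_mul]
    have hcard : ((Q.filter (fun p : ℕ => (p : ℝ) ≤ 2 * Real.sqrt x ∨ x ^ 2 < p)).card : ℝ) ≤
        x ^ 3 := by
      have hc : (Q.filter (fun p : ℕ => (p : ℝ) ≤ 2 * Real.sqrt x ∨ x ^ 2 < p)).card ≤
          (Icc 1 ⌊x ^ 3⌋₊).card :=
        Finset.card_le_card ((Finset.filter_subset _ _).trans
          ((Finset.filter_subset _ _).trans (Finset.filter_subset _ _)))
      rw [Nat.card_Icc, Nat.add_sub_cancel] at hc
      calc ((Q.filter (fun p : ℕ => (p : ℝ) ≤ 2 * Real.sqrt x ∨ x ^ 2 < p)).card : ℝ)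
          ≤ (⌊x ^ 3⌋₊ : ℝ) := by exact_mod_cast hc
        _ ≤ x ^ 3 := Nat.floor_le (by positivity)
    calc ((Q.filter (fun p : ℕ => (p : ℝ) ≤ 2 * Real.sqrt x ∨ x ^ 2 < p)).card : ℝ) *
          (x ^ (J + 3) * Real.exp (-(Real.log x) ^ 2 / 10))
        ≤ x ^ 3 * (x ^ (J + 3) * Real.exp (-(Real.log x) ^ 2 / 10)) :=
          mul_le_mul_of_nonneg_right hcard (by positivity)
      _ = x ^ (J + 6) * Real.exp (-(Real.log x) ^ 2 / 10) := by ring
      _ ≤ 1 := h1
  have hA : ∑ p ∈ Q.filter (fun p : ℕ => ¬ ((p : ℝ) ≤ 2 * Real.sqrt x ∨ x ^ 2 < p)),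
      vp J x p * Sg p ≤ 100 * (Real.log x) ^ (J + 1) *
        ∑ N ∈ ((Win x).filter (fun N => N % W = b % W)).filter (fun N => (N + h m).Prime),
          wN x N * (sig P h lam N) ^ 2 := by
    rw [Finset.mul_sum]
    have hmem : ∀ p ∈ Q.filter (fun p : ℕ => ¬ ((p : ℝ) ≤ 2 * Real.sqrt x ∨ x ^ 2 < p)),
        h m ≤ p ∧ p - h m ∈ ((Win x).filter (fun N => N % W = b % W)).filter
          (fun N => (N + h m).Prime) ∧ Real.sqrt x < ((p - h m : ℕ) : ℝ) := by
      intro p hp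
      rw [Finset.mem_filter, hQ, Finset.mem_filter, Wp, Finset.mem_filter, Finset.mem_Icc] at hp
      obtain ⟨⟨⟨⟨hp1, hp2⟩, hpp⟩, hpd⟩, hpt⟩ := hp
      push Not at hpt
      have hle : (h m : ℝ) ≤ p := by linarith
      have hle' : h m ≤ p := by exact_mod_cast hle
      have hc : ((p - h m : ℕ) : ℝ) = p - h m := by push_cast [Nat.cast_sub hle']; ring
      have hgt : Real.sqrt x < ((p - h m : ℕ) : ℝ) := by rw [hc]; linarith
      refine ⟨hle', ?_, hgt⟩
      rw [Finset.mem_filter, Finset.mem_filter, Win, Finset.mem_Ioc, Nat.sub_add_cancel hle']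
      refine ⟨⟨⟨?_, ?_⟩, ?_⟩, hpp⟩
      · rwa [Nat.floor_lt (Real.sqrt_nonneg x)]
      · rw [Nat.le_floor_iff (by positivity), hc]
        have : (0 : ℝ) ≤ h m := Nat.cast_nonneg _
        linarith [hpt.2]
      · have h7 : ((p - h m : ℕ) : ℤ) = (p : ℤ) - h m := by push_cast [Nat.cast_sub hle']; ring
        have h8 : (W : ℤ) ∣ ((p - h m : ℕ) : ℤ) - (b : ℤ) := by
          rw [h7]
          have : (p : ℤ) - h m - b = p - (b + h m) := by ring
          rw [this]
          exact hpd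
        have h9 : (b : ℤ) ≡ ((p - h m : ℕ) : ℤ) [ZMOD W] := (Int.modEq_iff_dvd).2 h8
        exact ((Int.natCast_modEq_iff.1 h9).symm)
    have hinj : Set.InjOn (fun p => p - h m)
        (Q.filter (fun p : ℕ => ¬ ((p : ℝ) ≤ 2 * Real.sqrt x ∨ x ^ 2 < p)) : Set ℕ) := by
      intro p hp q hq hpq
      have a1 := (hmem p hp).1
      have a2 := (hmem q hq).1
      simp only at hpq
      omega
    have hle : ∀ p ∈ Q.filter (fun p : ℕ => ¬ ((p : ℝ) ≤ 2 * Real.sqrt x ∨ x ^ 2 < p)),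
        vp J x p * Sg p ≤ 100 * (Real.log x) ^ (J + 1) *
          (wN x (p - h m) * (sig P h lam (p - h m)) ^ 2) := by
      intro p hp
      obtain ⟨a1, a2, a3⟩ := hmem p hp
      rw [Finset.mem_filter, Finset.mem_filter] at a2
      have a4 : p - h m + h m = p := Nat.sub_add_cancel a1
      have a5 : Sg p = (sig P h lam (p - h m)) ^ 2 := by
        have := low_sum P h m lam (p - h m) hP a2.2 (by
          intro k
          have h6 : (P k : ℝ) < ((p - h m : ℕ) : ℝ) := lt_of_le_of_lt (hPs k) a3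
          have h7 : P k < p - h m := by exact_mod_cast h6
          omega)
        rw [a4] at this
        rw [hSg]
        simp only [this]
      have a6 := h2 (p - h m) a2.1.1
      rw [a4] at a6
      rw [a5, ← mul_assoc]
      exact mul_le_mul_of_nonneg_right a6 (sq_nonneg _)
    calc ∑ p ∈ Q.filter (fun p : ℕ => ¬ ((p : ℝ) ≤ 2 * Real.sqrt x ∨ x ^ 2 < p)),
          vp J x p * Sg p
        ≤ ∑ p ∈ Q.filter (fun p : ℕ => ¬ ((p : ℝ) ≤ 2 * Real.sqrt x ∨ x ^ 2 < p)),
          100 * (Real.log x) ^ (J + 1) * (wN x (p - h m) * (sig P h lam (p - h m)) ^ 2) :=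
          Finset.sum_le_sum hle
      _ = ∑ N ∈ (Q.filter (fun p : ℕ => ¬ ((p : ℝ) ≤ 2 * Real.sqrt x ∨ x ^ 2 < p))).image
            (fun p => p - h m),
          100 * (Real.log x) ^ (J + 1) * (wN x N * (sig P h lam N) ^ 2) :=
          (Finset.sum_image (f := fun N => 100 * (Real.log x) ^ (J + 1) *
            (wN x N * (sig P h lam N) ^ 2)) hinj).symm
      _ ≤ _ := by
          refine Finset.sum_le_sum_of_subset_of_nonneg ?_ ?_
          · intro N hN
            obtain ⟨p, hp, rfl⟩ := Finset.mem_image.1 hN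
            exact (hmem p hp).2.1
          · intro N _ _
            have := wN_pos x N
            positivity
  linarith

end Pool.Agent.H21.MT
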