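import Pool.Agent.H21.MT.Lab

/-!
[H21 MT DIAG]  Exact diagonalisation of the sieve form and the two bounds.

Proof.  Put `T(none,none) = 1`, `T(none,some j) = 0`, `T(some i,none) = π`, `T(some i,some j) = δ_ij`
and `n(none,none) = 1`, `n(none,some j) = n(some i,none) = 0`, `n(some i,some j) = δ_ij π - π²`.
Then `mloc π a b = ∑ α β, T a α * T b β * n α β` (check the four cases).
(1) For `r d : ι → Option I`, `∏ k, T (d k) (r k) = if sub r d then ∏ k, (if r k = none ∧ d k ≠ none
    then π k else 1) else 0`, hence `cc π lam r = ∑ d, lam d * ∏ k, T (d k) (r k)`.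
(2) `∏ k, mloc = ∏ k, ∑ (α,β) ... = ∑ (r,r') ∏ k, T (d k) (r k) * T (e k) (r' k) * n (r k) (r' k)`
    (`Finset.prod_univ_sum`, `Fintype.piFinset_univ`), hence
    `mform π lam = ∑ r, ∑ r', cc r * cc r' * ∏ k, n (π k) (r k) (r' k)`.
(3) For every `c : (ι → Option I) → ℝ`, `N(c) := ∑ r r', c r * c r' * ∏ k, n (π k) (r k) (r' k)`
    satisfies `∑ r, c r ^2 * ∏ k (if r k = none then 1 else π k * (1 - |I| π k)) ≤ N(c)
    ≤ ∑ r, c r ^2 * ∏ k (if r k = none then 1 else π k)`.  Induction on the number of primes
    (take `ι = Fin n`, `Fin.consEquiv`, then transport along `Fintype.equivFin`; or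
    `Fintype.induction_empty_option`): splitting off one prime with `π = π 0`, and writing
    `c_a (r) = c (cons a r)`,
    `N(c) = N'(c_none) + π ∑ i, N'(c_i) - π² N'(∑ i, c_i)` with the form `N'` of the other primes.
    `N' ≥ 0` (from the lower bound, as `|I| π ≤ 1`) gives the upper bound; and
    `N'(∑ i, c_i) ≤ |I| ∑ i, N'(c_i)` (Cauchy for a nonnegative quadratic form: sum of
    `N'(c_i - c_j) ≥ 0` over `i, j`) gives the lower bound.
-/

set_option linter.unusedSectionVars false

namespace Pool.Agent.H21.MT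

open Finset

variable {ι I : Type} [Fintype ι] [DecidableEq ι] [Fintype I] [DecidableEq I]

/-! ### forms of product type -/

/-- the quadratic form with a product kernel -/
private noncomputable def pf (q : ι → Matrix (Option I) (Option I) ℝ) (c : (ι → Option I) → ℝ) : ℝ :=
  ∑ r, ∑ r', c r * c r' * ∏ k, q k (r k) (r' k)

private theorem pf_nonneg (q : ι → Matrix (Option I) (Option I) ℝ) (hq : ∀ k, (q k).PosSemidef)
    (c : (ι → Option I) → ℝ) : 0 ≤ pf q c := by
  classical
  choose m v hv using fun k => Matrix.posSemidef_iff_eq_sum_vecMulVec.mp (hq k)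
  have h1 : ∀ k a b, q k a b = ∑ γ, v k γ a * v k γ b := by
    intro k a b
    rw [hv k, Matrix.sum_apply]
    rfl
  have h2 : ∀ r r' : ι → Option I, ∏ k, q k (r k) (r' k) =
      ∑ γ : (∀ k, Fin (m k)), (∏ k, v k (γ k) (r k)) * ∏ k, v k (γ k) (r' k) := by
    intro r r'
    simp only [h1]
    rw [Finset.prod_univ_sum, Fintype.piFinset_univ]
    refine Finset.sum_congr rfl fun γ _ => ?_
    rw [Finset.prod_mul_distrib]
  have h3 : pf q c = ∑ γ : (∀ k, Fin (m k)), (∑ r, c r * ∏ k, v k (γ k) (r k)) ^ 2 := by
    unfold pf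
    simp only [h2, Finset.mul_sum]
    rw [Finset.sum_congr rfl (fun r _ => Finset.sum_comm), Finset.sum_comm]
    refine Finset.sum_congr rfl fun γ _ => ?_
    rw [sq, Finset.sum_mul_sum]
    refine Finset.sum_congr rfl fun r _ => Finset.sum_congr rfl fun r' _ => ?_
    ring
  rw [h3]
  positivity

private theorem pf_mono (p e : ι → Matrix (Option I) (Option I) ℝ) (hp : ∀ k, (p k).PosSemidef)
    (he : ∀ k, (e k).PosSemidef) (c : (ι → Option I) → ℝ) :
    pf p c ≤ pf (fun k => p k + e k) c := by
  classical
  have h : pf (fun k => p k + e k) c =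
      ∑ S : Finset ι, pf (fun k => if k ∈ S then p k else e k) c := by
    unfold pf
    have h1 : ∀ r r' : ι → Option I, ∏ k, (p k + e k) (r k) (r' k) =
        ∑ S : Finset ι, ∏ k, (if k ∈ S then p k else e k) (r k) (r' k) := by
      intro r r'
      simp only [Matrix.add_apply]
      rw [Fintype.prod_add]
      refine Finset.sum_congr rfl fun S _ => ?_
      have h2 : ∀ k, (if k ∈ S then p k else e k) (r k) (r' k) =
          if k ∈ S then p k (r k) (r' k) else e k (r k) (r' k) := by
        intro k
        split_ifs <;> rfl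
      simp only [h2]
      rw [Finset.prod_ite]
      congr 1
      · exact Finset.prod_congr (by ext; simp) fun _ _ => rfl
      · exact Finset.prod_congr (by ext; simp) fun _ _ => rfl
    simp only [h1, Finset.mul_sum]
    rw [Finset.sum_congr rfl (fun r _ => Finset.sum_comm), Finset.sum_comm]
  rw [h]
  have h4 : pf p c = pf (fun k => if k ∈ (Finset.univ : Finset ι) then p k else e k) c := by
    simp
  rw [h4]
  refine Finset.single_le_sum (f := fun S : Finset ι => pf (fun k => if k ∈ S then p k else e k) c)
    (fun S _ => pf_nonneg _ (fun k => ?_) c) (Finset.mem_univ Finset.univ)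
  split_ifs
  · exact hp k
  · exact he k

/-! ### the local matrices -/

/-- the middle matrix -/
private def nm (x : ℝ) : Matrix (Option I) (Option I) ℝ := Matrix.of fun a b =>
  match a, b with
  | none, none => 1
  | none, some _ => 0
  | some _, none => 0
  | some i, some j => (if i = j then x else 0) - x ^ 2

/-- the upper error matrix -/
private def ue (x : ℝ) : Matrix (Option I) (Option I) ℝ := Matrix.of fun a b =>
  match a, b with
  | none, none => 0
  | none, some _ => 0
  | some _, none => 0
  | some _, some _ => x ^ 2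

/-- the lower error matrix -/
private def le' (x : ℝ) : Matrix (Option I) (Option I) ℝ := Matrix.of fun a b =>
  match a, b with
  | none, none => 0
  | none, some _ => 0
  | some _, none => 0
  | some i, some j => x ^ 2 * ((if i = j then (Fintype.card I : ℝ) else 0) - 1)

/-- a diagonal matrix -/
private def dm (y : ℝ) : Matrix (Option I) (Option I) ℝ :=
  Matrix.diagonal fun a => if a = none then 1 else y

private theorem dm_psd {y : ℝ} (hy : 0 ≤ y) : (dm y : Matrix (Option I) (Option I) ℝ).PosSemidef := by
  refine Matrix.PosSemidef.diagonal fun a => ?_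
  show (0 : ℝ) ≤ if a = none then 1 else y
  split_ifs
  · exact zero_le_one
  · exact hy

private theorem ue_psd (x : ℝ) : (ue x : Matrix (Option I) (Option I) ℝ).PosSemidef := by
  rw [Matrix.posSemidef_iff_eq_sum_vecMulVec]
  refine ⟨1, fun _ a => if a = none then 0 else x, ?_⟩
  ext a b
  rw [Matrix.sum_apply]
  rcases a with _ | i <;> rcases b with _ | j <;> simp [ue, Matrix.vecMulVec_apply, sq]

private theorem le'_psd (x : ℝ) : (le' x : Matrix (Option I) (Option I) ℝ).PosSemidef := by
  refine Matrix.PosSemidef.of_dotProduct_mulVec_nonneg ?_ ?_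
  · ext a b
    rw [Matrix.conjTranspose_apply]
    rcases a with _ | i <;> rcases b with _ | j <;> simp [le', eq_comm]
  · intro z
    have h1 : star z ⬝ᵥ ((le' x : Matrix (Option I) (Option I) ℝ).mulVec z) =
        x ^ 2 * ((Fintype.card I : ℝ) * ∑ i : I, z (some i) ^ 2 - (∑ i : I, z (some i)) ^ 2) := by
      simp only [Matrix.mulVec, dotProduct, Fintype.sum_option, le', Matrix.of_apply, zero_mul,
        Finset.sum_const_zero, mul_zero, zero_add, add_zero, Pi.star_apply, star_trivial]
      have h2 : ∀ i : I, ∑ j : I, x ^ 2 * ((if i = j then (Fintype.card I : ℝ) else 0) - 1) * z (some j)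
          = x ^ 2 * ((Fintype.card I : ℝ) * z (some i) - ∑ j : I, z (some j)) := by
        intro i
        have h3 : ∀ j : I, x ^ 2 * ((if i = j then (Fintype.card I : ℝ) else 0) - 1) * z (some j) =
            (if i = j then x ^ 2 * (Fintype.card I : ℝ) * z (some j) else 0) - x ^ 2 * z (some j) := by
          intro j
          split_ifs <;> ring
        simp only [h3, Finset.sum_sub_distrib, Finset.sum_ite_eq, Finset.mem_univ, if_true]
        rw [← Finset.mul_sum]
        ring
      simp only [h2]
      have h4 : ∀ i : I, z (some i) * (x ^ 2 * ((Fintype.card I : ℝ) * z (some i) - ∑ j : I, z (some j)))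
          = x ^ 2 * (Fintype.card I : ℝ) * z (some i) ^ 2 - x ^ 2 * (∑ j : I, z (some j)) * z (some i) := by
        intro i
        ring
      simp only [h4, Finset.sum_sub_distrib, ← Finset.mul_sum]
      ring
    rw [h1]
    have h5 : (∑ i : I, z (some i)) ^ 2 ≤ (Fintype.card I : ℝ) * ∑ i : I, z (some i) ^ 2 := by
      have := sq_sum_le_card_mul_sum_sq (s := (Finset.univ : Finset I)) (f := fun i => z (some i))
      simpa using this
    have : 0 ≤ (Fintype.card I : ℝ) * ∑ i : I, z (some i) ^ 2 - (∑ i : I, z (some i)) ^ 2 := by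
      linarith
    positivity

private theorem nm_eq (x : ℝ) :
    (nm x : Matrix (Option I) (Option I) ℝ) = dm (x * (1 - Fintype.card I * x)) + le' x := by
  ext a b
  rcases a with _ | i <;> rcases b with _ | j <;>
    simp only [nm, dm, le', Matrix.add_apply, Matrix.of_apply, Matrix.diagonal_apply]
  · simp
  · simp
  · simp
  · by_cases h : i = j
    · subst h
      simp
      ring
    · simp [h]

private theorem nm_add (x : ℝ) : (nm x : Matrix (Option I) (Option I) ℝ) + ue x = dm x := by
  ext a b
  rcases a with _ | i <;> rcases b with _ | j <;>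
    simp only [nm, dm, ue, Matrix.add_apply, Matrix.of_apply, Matrix.diagonal_apply]
  · simp
  · simp
  · simp
  · by_cases h : i = j
    · subst h
      simp
    · simp [h]

private theorem nm_psd {x : ℝ} (h0 : 0 ≤ x) (hK : (Fintype.card I : ℝ) * x ≤ 1) :
    (nm x : Matrix (Option I) (Option I) ℝ).PosSemidef := by
  rw [nm_eq]
  refine (dm_psd ?_).add (le'_psd x)
  have : 0 ≤ 1 - (Fintype.card I : ℝ) * x := by linarith
  positivity

/-- the value of a diagonal form -/
private theorem pf_dm (y : ι → ℝ) (c : (ι → Option I) → ℝ) :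
    pf (fun k => dm (y k)) c = ∑ r, (c r) ^ 2 * ∏ k, (if r k = none then 1 else y k) := by
  unfold pf
  refine Finset.sum_congr rfl fun r _ => ?_
  rw [Finset.sum_eq_single r]
  · rw [sq]
    congr 1
    refine Finset.prod_congr rfl fun k _ => ?_
    simp [dm]
  · intro r' _ hne
    obtain ⟨k, hk⟩ : ∃ k, r k ≠ r' k := by
      by_contra hcon
      push Not at hcon
      exact hne (funext fun k => (hcon k).symm)
    rw [Finset.prod_eq_zero (Finset.mem_univ k), mul_zero]
    simp [dm, hk]
  · intro h
    exact absurd (Finset.mem_univ r) h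

/-! ### the change of variables -/

/-- the triangular matrix -/
private def tm (x : ℝ) (a b : Option I) : ℝ :=
  match a, b with
  | none, none => 1
  | none, some _ => 0
  | some _, none => x
  | some i, some j => if i = j then 1 else 0

private theorem mloc_eq (x : ℝ) (a b : Option I) :
    mloc x a b = ∑ α, ∑ β, tm x a α * tm x b β * nm x α β := by
  rcases a with _ | i <;> rcases b with _ | j <;>
    simp only [Fintype.sum_option, tm, nm, mloc, Matrix.of_apply]
  · simp
  · simp
  · simp
  · simp only [mul_zero, Finset.sum_const_zero, add_zero, zero_add, mul_one, ite_mul, mul_ite, one_mul,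
      zero_mul, Finset.sum_ite_eq, Finset.mem_univ, if_true]
    split_ifs <;> ring

private theorem prod_tm (π : ι → ℝ) (r d : ι → Option I) :
    ∏ k, tm (π k) (d k) (r k) =
      if sub r d then ∏ k, (if r k = none ∧ d k ≠ none then π k else 1) else 0 := by
  split_ifs with h
  · refine Finset.prod_congr rfl fun k _ => ?_
    rcases h k with h1 | h1
    · rw [h1]
      rcases d k with _ | i <;> simp [tm]
    · rw [h1]
      rcases d k with _ | i <;> simp [tm]
  · obtain ⟨k, hk⟩ : ∃ k, ¬ (r k = none ∨ r k = d k) := by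
      by_contra hcon
      push Not at hcon
      exact h hcon
    push Not at hk
    refine Finset.prod_eq_zero (Finset.mem_univ k) ?_
    obtain ⟨h1, h2⟩ := hk
    rcases hd : d k with _ | i <;> rcases hr : r k with _ | j
    · exact absurd hr h1
    · simp [tm]
    · exact absurd hr h1
    · rw [hd, hr] at h2
      have : i ≠ j := fun h => h2 (by rw [h])
      simp [tm, this]

private theorem cc_eq (π : ι → ℝ) (lam : (ι → Option I) → ℝ) (r : ι → Option I) :
    cc π lam r = ∑ d, lam d * ∏ k, tm (π k) (d k) (r k) := by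
  unfold cc
  rw [Finset.sum_filter]
  refine Finset.sum_congr rfl fun d _ => ?_
  rw [prod_tm]
  split_ifs <;> simp

private theorem mform_eq (π : ι → ℝ) (lam : (ι → Option I) → ℝ) :
    mform π lam = pf (fun k => nm (π k)) (cc π lam) := by
  have h1 : ∀ d e : ι → Option I, ∏ k, mloc (π k) (d k) (e k) =
      ∑ r : ι → Option I, ∑ r' : ι → Option I, (∏ k, tm (π k) (d k) (r k)) *
        (∏ k, tm (π k) (e k) (r' k)) * ∏ k, (nm (π k) : Matrix (Option I) (Option I) ℝ) (r k) (r' k) := by
    intro d e
    simp only [mloc_eq]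
    rw [Finset.prod_univ_sum, Fintype.piFinset_univ]
    refine Finset.sum_congr rfl fun r _ => ?_
    rw [Finset.prod_univ_sum, Fintype.piFinset_univ]
    refine Finset.sum_congr rfl fun r' _ => ?_
    rw [Finset.prod_mul_distrib, Finset.prod_mul_distrib]
  unfold mform pf
  simp only [h1, cc_eq, Finset.mul_sum, Finset.sum_mul]
  -- both sides are sums over d, e, r, r'
  calc ∑ d : ι → Option I, ∑ e : ι → Option I, ∑ r : ι → Option I, ∑ r' : ι → Option I,
        lam d * lam e * ((∏ k, tm (π k) (d k) (r k)) * (∏ k, tm (π k) (e k) (r' k)) *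
          ∏ k, (nm (π k) : Matrix (Option I) (Option I) ℝ) (r k) (r' k))
      = ∑ d : ι → Option I, ∑ r : ι → Option I, ∑ e : ι → Option I, ∑ r' : ι → Option I,
        lam d * lam e * ((∏ k, tm (π k) (d k) (r k)) * (∏ k, tm (π k) (e k) (r' k)) *
          ∏ k, (nm (π k) : Matrix (Option I) (Option I) ℝ) (r k) (r' k)) :=
        Finset.sum_congr rfl fun d _ => Finset.sum_comm
    _ = ∑ r : ι → Option I, ∑ d : ι → Option I, ∑ e : ι → Option I, ∑ r' : ι → Option I,
        lam d * lam e * ((∏ k, tm (π k) (d k) (r k)) * (∏ k, tm (π k) (e k) (r' k)) *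
          ∏ k, (nm (π k) : Matrix (Option I) (Option I) ℝ) (r k) (r' k)) := Finset.sum_comm
    _ = ∑ r : ι → Option I, ∑ d : ι → Option I, ∑ r' : ι → Option I, ∑ e : ι → Option I,
        lam d * lam e * ((∏ k, tm (π k) (d k) (r k)) * (∏ k, tm (π k) (e k) (r' k)) *
          ∏ k, (nm (π k) : Matrix (Option I) (Option I) ℝ) (r k) (r' k)) :=
        Finset.sum_congr rfl fun r _ => Finset.sum_congr rfl fun d _ => Finset.sum_comm
    _ = ∑ r : ι → Option I, ∑ r' : ι → Option I, ∑ d : ι → Option I, ∑ e : ι → Option I,
        lam d * lam e * ((∏ k, tm (π k) (d k) (r k)) * (∏ k, tm (π k) (e k) (r' k)) *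
          ∏ k, (nm (π k) : Matrix (Option I) (Option I) ℝ) (r k) (r' k)) :=
        Finset.sum_congr rfl fun r _ => Finset.sum_comm
    _ = _ := by
        refine Finset.sum_congr rfl fun r _ => Finset.sum_congr rfl fun r' _ => ?_
        rw [Finset.sum_comm]
        refine Finset.sum_congr rfl fun d _ => Finset.sum_congr rfl fun e _ => ?_
        ring

theorem diag_le (π : ι → ℝ) (h0 : ∀ k, 0 ≤ π k) (hK : ∀ k, (Fintype.card I : ℝ) * π k ≤ 1)
    (lam : (ι → Option I) → ℝ) :
    mform π lam ≤ ∑ r, (cc π lam r) ^ 2 * ∏ k, (if r k = none then 1 else π k) := by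
  rw [mform_eq, ← pf_dm]
  have h := pf_mono (fun k => nm (π k)) (fun k => ue (π k)) (fun k => nm_psd (h0 k) (hK k))
    (fun k => ue_psd (π k)) (cc π lam)
  simpa only [nm_add] using h

theorem le_diag (π : ι → ℝ) (h0 : ∀ k, 0 ≤ π k) (hK : ∀ k, (Fintype.card I : ℝ) * π k ≤ 1)
    (lam : (ι → Option I) → ℝ) :
    ∑ r, (cc π lam r) ^ 2 * ∏ k, (if r k = none then 1 else π k * (1 - Fintype.card I * π k))
      ≤ mform π lam := by
  rw [mform_eq, ← pf_dm]
  have h := pf_mono (fun k => dm (π k * (1 - Fintype.card I * π k))) (fun k => le' (π k))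
    (fun k => dm_psd (mul_nonneg (h0 k) (by linarith [hK k]))) (fun k => le'_psd (π k)) (cc π lam)
  simpa only [← nm_eq] using h

end Pool.Agent.H21.MT
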