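import Pool.Agent.H21.MT.Lab

/-!
[H21 MT MOB2]  The coefficients for `π = 1/(p-1)`, restricted to labelled numbers without label `m`.

Proof.  Let `r` have no label `m`.  As in MOB1 (exchange of sums),
`cc = ∑ s ⊇ r, F s / tot s * ∑_{d : sub r d, sub d s, noL m d} mu d * tot d * ∏_{k ∈ d∖r} 1/(P k-1)`.
The inner sum is a product of local factors: `r k ≠ none`: `- P k`; `r k = none, s k = none`: `1`;
`r k = none, s k = some m`: `1` (only `d k = none`); `r k = none, s k = some i, i ≠ m`:
`1 - P k/(P k - 1) = -1/(P k - 1)`.  So with `A` the sum in the statement (the terms with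
`s k = r k ∨ s k = some m` for all `k`; note that then `sub r s` together with `r k = none`
whenever `s k = some m`),
`mu r * cc = A + ∑_{other s} F s * tot r / tot s * ∏_{k : r k = none, s k = some i, i ≠ m} (-1/(P k - 1))`.
For an arbitrary `s ⊇ r` let `s'` be `s` with the labels `≠ m` outside `r` removed: `sub s' s`, so
`F s ≤ F s'`, and the absolute value of the term of `s` is at most
`F s' * tot r / tot s' * ∏_{k removed} 1/(P k (P k - 1))`.  Sum over `s` with given `s'`: at most
`F s' * tot r/tot s' * ∏ k, (1 + |I| /(P k (P k - 1)))`, and subtracting the term `s = s'`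
(which is counted with weight 1) we get `|mu r * cc - A| ≤ A * (∏ k (1 + |I|/(P k (P k-1))) - 1)`.
Finally `|mu r| = 1`.
-/

set_option linter.unusedSectionVars false

namespace Pool.Agent.H21.MT

open Finset

variable {ι I : Type} [Fintype ι] [DecidableEq ι] [Fintype I] [DecidableEq I]

/-- the sum over the extensions of `r` by the label `m` -/
noncomputable def Aext (P : ι → ℕ) (F : (ι → Option I) → ℝ) (m : I) (r : ι → Option I) : ℝ :=
  ∑ s ∈ univ.filter (fun s => sub r s ∧ ∀ k, s k = r k ∨ s k = some m), F s * tot P r / tot P s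

/-- the local factors of the inner sums -/
private noncomputable def locf (P : ι → ℕ) (m : I) (r s : ι → Option I) (k : ι) : ℝ :=
  if r k ≠ none then -(P k : ℝ) else if s k = none ∨ s k = some m then 1 else -(1 / ((P k : ℝ) - 1))

private theorem cast_tot (P : ι → ℕ) (d : ι → Option I) :
    (tot P d : ℝ) = ∏ k, if d k = none then (1 : ℝ) else P k := by
  unfold tot
  push_cast
  rfl

private theorem inner (P : ι → ℕ) (hP : ∀ k, 2 ≤ P k) (m : I) (r s : ι → Option I)
    (hr : noL m r) (hrs : sub r s) :
    ∑ d ∈ univ.filter (fun d => sub r d ∧ sub d s ∧ noL m d), mu d * tot P d *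
      ∏ k, (if r k = none ∧ d k ≠ none then (1 : ℝ) / (P k - 1) else 1) =
    ∏ k, locf P m r s k := by
  have hset : (univ.filter (fun d => sub r d ∧ sub d s ∧ noL m d) : Finset (ι → Option I)) =
      Fintype.piFinset (fun k => if r k ≠ none then {r k} else
        if s k = none ∨ s k = some m then {none} else {none, s k}) := by
    ext d
    rw [Finset.mem_filter, Fintype.mem_piFinset]
    constructor
    · rintro ⟨-, h1, h2, h3⟩ k
      have a1 := h1 k
      have a2 := h2 k
      have a3 := h3 k
      by_cases hk : r k = none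
      · rw [if_neg (not_not.mpr hk)]
        split_ifs with h4
        · rw [Finset.mem_singleton]
          rcases a2 with a2 | a2
          · exact a2
          · rcases h4 with h4 | h4
            · rw [a2, h4]
            · exact absurd (a2.trans h4) a3
        · rw [Finset.mem_insert, Finset.mem_singleton]
          exact a2
      · rw [if_pos hk, Finset.mem_singleton]
        rcases a1 with a1 | a1
        · exact absurd a1 hk
        · exact a1.symm
    · intro h
      refine ⟨Finset.mem_univ _, fun k => ?_, fun k => ?_, fun k => ?_⟩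
      · have hk := h k
        by_cases h1 : r k = none
        · exact Or.inl h1
        · rw [if_pos h1, Finset.mem_singleton] at hk
          exact Or.inr hk.symm
      · have hk := h k
        by_cases h1 : r k = none
        · rw [if_neg (not_not.mpr h1)] at hk
          split_ifs at hk with h4
          · rw [Finset.mem_singleton] at hk
            exact Or.inl hk
          · rw [Finset.mem_insert, Finset.mem_singleton] at hk
            exact hk
        · rw [if_pos h1, Finset.mem_singleton] at hk
          rcases hrs k with h2 | h2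
          · exact absurd h2 h1
          · exact Or.inr (hk.trans h2)
      · have hk := h k
        by_cases h1 : r k = none
        · rw [if_neg (not_not.mpr h1)] at hk
          split_ifs at hk with h4
          · rw [Finset.mem_singleton] at hk
            rw [hk]; exact fun h => by cases h
          · rw [Finset.mem_insert, Finset.mem_singleton] at hk
            rcases hk with hk | hk
            · rw [hk]; exact fun h => by cases h
            · rw [hk]
              exact fun h => h4 (Or.inr h)
        · rw [if_pos h1, Finset.mem_singleton] at hk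
          rw [hk]; exact hr k
  rw [hset]
  have hterm : ∀ d : ι → Option I, mu d * tot P d *
      ∏ k, (if r k = none ∧ d k ≠ none then (1 : ℝ) / (P k - 1) else 1) =
      ∏ k, ((if d k = none then (1 : ℝ) else -1) * (if d k = none then (1 : ℝ) else P k) *
        (if r k = none ∧ d k ≠ none then (1 : ℝ) / (P k - 1) else 1)) := by
    intro d
    rw [cast_tot, mu, Finset.prod_mul_distrib, Finset.prod_mul_distrib]
  rw [Finset.sum_congr rfl (fun d _ => hterm d),
    ← Finset.prod_univ_sum (fun k => if r k ≠ none then {r k} else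
        if s k = none ∨ s k = some m then {none} else {none, s k})
      (fun k a => ((if a = none then (1 : ℝ) else -1) * (if a = none then (1 : ℝ) else P k) *
        (if r k = none ∧ a ≠ none then (1 : ℝ) / (P k - 1) else 1)))]
  refine Finset.prod_congr rfl fun k _ => ?_
  unfold locf
  by_cases h1 : r k = none
  · rw [if_neg (not_not.mpr h1), if_neg (not_not.mpr h1)]
    split_ifs with h2
    · rw [Finset.sum_singleton]
      simp
    · push Not at h2
      rw [Finset.sum_pair (Ne.symm h2.1)]
      have hP2 : (2 : ℝ) ≤ P k := by exact_mod_cast hP k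
      have hne : (P k : ℝ) - 1 ≠ 0 := by linarith
      simp only [h1, h2.1, if_true, if_false, ne_eq, not_true_eq_false, not_false_eq_true,
        and_true, and_false, mul_one, one_mul]
      field_simp
      ring
  · rw [if_pos h1, if_pos h1, Finset.sum_singleton]
    simp [h1]

private theorem cc_eq_loc (P : ι → ℕ) (hP : ∀ k, 2 ≤ P k) (F : (ι → Option I) → ℝ) (m : I)
    (r : ι → Option I) (hr : noL m r) :
    cc (fun k => (1 : ℝ) / (P k - 1)) (offL m (lamF P F)) r =
      ∑ s ∈ univ.filter (fun s => sub r s), F s / tot P s * ∏ k, locf P m r s k := by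
  have h1 : ∀ d : ι → Option I, (if sub r d then offL m (lamF P F) d *
      ∏ k, (if r k = none ∧ d k ≠ none then (1 : ℝ) / (P k - 1) else 1) else 0) =
      ∑ s : ι → Option I, if sub r d ∧ sub d s ∧ noL m d then F s / tot P s *
        (mu d * tot P d * ∏ k, (if r k = none ∧ d k ≠ none then (1 : ℝ) / (P k - 1) else 1))
        else 0 := by
    intro d
    unfold offL lamF
    by_cases hd1 : sub r d
    · by_cases hd2 : noL m d
      · rw [if_pos hd1, if_pos hd2, Finset.sum_filter, Finset.mul_sum, Finset.sum_mul]
        refine Finset.sum_congr rfl fun s _ => ?_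
        by_cases hd3 : sub d s
        · rw [if_pos hd3, if_pos ⟨hd1, hd3, hd2⟩]
          ring
        · rw [if_neg hd3, if_neg (fun h => hd3 h.2.1)]
          ring
      · rw [if_pos hd1, if_neg hd2, zero_mul]
        refine (Finset.sum_eq_zero fun s _ => ?_).symm
        rw [if_neg (fun h => hd2 h.2.2)]
    · rw [if_neg hd1]
      refine (Finset.sum_eq_zero fun s _ => ?_).symm
      rw [if_neg (fun h => hd1 h.1)]
  unfold cc
  rw [Finset.sum_filter, Finset.sum_congr rfl (fun d _ => h1 d), Finset.sum_comm,
    Finset.sum_filter]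
  refine Finset.sum_congr rfl fun s _ => ?_
  rw [← Finset.sum_filter, ← Finset.mul_sum]
  split_ifs with hrs
  · rw [inner P hP m r s hr hrs]
  · have hemp : (univ.filter (fun d => sub r d ∧ sub d s ∧ noL m d) : Finset (ι → Option I)) = ∅ := by
      apply Finset.filter_eq_empty_iff.mpr
      rintro d - ⟨h2, h3, -⟩
      exact hrs (sub_trans' h2 h3)
    rw [hemp, Finset.sum_empty, mul_zero]

/-- the absolute values of the local factors -/
private noncomputable def loca (P : ι → ℕ) (m : I) (r s : ι → Option I) (k : ι) : ℝ :=
  if r k ≠ none then (P k : ℝ) else if s k = none ∨ s k = some m then 1 else 1 / ((P k : ℝ) - 1)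

private theorem abs_locf (P : ι → ℕ) (hP : ∀ k, 2 ≤ P k) (m : I) (r s : ι → Option I) (k : ι) :
    |locf P m r s k| = loca P m r s k := by
  have hP2 : (2 : ℝ) ≤ P k := by exact_mod_cast hP k
  unfold locf loca
  split_ifs
  · rw [abs_neg, abs_of_nonneg (by linarith)]
  · rw [abs_one]
  · rw [abs_neg, abs_of_nonneg (by apply one_div_nonneg.mpr; linarith)]

private theorem abs_mu (r : ι → Option I) : |mu r| = 1 := by
  unfold mu
  rw [Finset.abs_prod]
  refine Finset.prod_eq_one fun k _ => ?_
  split_ifs <;> simp

/-- the term of an extension by the label `m` -/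
private theorem mu_mul_locf (P : ι → ℕ) (m : I) (r s : ι → Option I)
    (hs : ∀ k, s k = r k ∨ s k = some m) :
    mu r * ∏ k, locf P m r s k = tot P r := by
  rw [cast_tot, mu, ← Finset.prod_mul_distrib]
  refine Finset.prod_congr rfl fun k _ => ?_
  unfold locf
  by_cases h1 : r k = none
  · rw [if_pos h1, if_neg (not_not.mpr h1), if_pos h1, if_pos, one_mul]
    rcases hs k with h2 | h2
    · exact Or.inl (h2.trans h1)
    · exact Or.inr h2
  · rw [if_neg h1, if_pos h1, if_neg h1]
    ring

/-- `s` with the labels `≠ m` outside `r` removed -/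
private def red (m : I) (r s : ι → Option I) (k : ι) : Option I :=
  if r k = none ∧ s k ≠ some m then none else s k

/-- the weight of the removed labels -/
private noncomputable def rho (P : ι → ℕ) (m : I) (r s : ι → Option I) (k : ι) : ℝ :=
  if r k = none ∧ s k ≠ none ∧ s k ≠ some m then 1 / ((P k : ℝ) * (P k - 1)) else 1

private theorem term_le (P : ι → ℕ) (hP : ∀ k, 2 ≤ P k) (F : (ι → Option I) → ℝ)
    (hF : ∀ s s', sub s s' → F s' ≤ F s) (m : I) (r s : ι → Option I) (hrs : sub r s) :
    F s / tot P s * ∏ k, loca P m r s k ≤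
      F (red m r s) * tot P r / tot P (red m r s) * ∏ k, rho P m r s k := by
  have hP2 : ∀ k, (2 : ℝ) ≤ P k := fun k => by exact_mod_cast hP k
  have hpos : ∀ t : ι → Option I, (0 : ℝ) < tot P t := fun t => by
    exact_mod_cast tot_pos (fun k => lt_of_lt_of_le two_pos (hP k)) t
  have h1 : (∏ k, loca P m r s k) / tot P s = (tot P r / tot P (red m r s)) *
      ∏ k, rho P m r s k := by
    rw [cast_tot, cast_tot, cast_tot, ← Finset.prod_div_distrib, ← Finset.prod_div_distrib,
      ← Finset.prod_mul_distrib]
    refine Finset.prod_congr rfl fun k _ => ?_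
    have hk := hP2 k
    have hk1 : (P k : ℝ) - 1 ≠ 0 := by linarith
    have hk0 : (P k : ℝ) ≠ 0 := by linarith
    unfold loca red rho
    by_cases h2 : r k = none
    · by_cases h3 : s k = none
      · simp [h2, h3]
      · by_cases h4 : s k = some m
        · simp [h2, h4]
        · simp [h2, h3, h4]
          field_simp
    · have h3 : s k = r k := by
        rcases hrs k with h | h
        · exact absurd h h2
        · exact h.symm
      rw [h3]
      simp [h2]
  have h2 : sub (red m r s) s := by
    intro k
    unfold red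
    split_ifs
    · exact Or.inl rfl
    · exact Or.inr rfl
  have h3 := hF _ _ h2
  have h4 : 0 ≤ (∏ k, loca P m r s k) / tot P s := by
    apply div_nonneg _ (hpos s).le
    refine Finset.prod_nonneg fun k _ => ?_
    rw [← abs_locf P hP]
    exact abs_nonneg _
  calc F s / tot P s * ∏ k, loca P m r s k = F s * ((∏ k, loca P m r s k) / tot P s) := by ring
    _ ≤ F (red m r s) * ((∏ k, loca P m r s k) / tot P s) := mul_le_mul_of_nonneg_right h3 h4
    _ = _ := by rw [h1]; ring

private theorem fiber_le (P : ι → ℕ) (hP : ∀ k, 2 ≤ P k) (m : I) (r s' : ι → Option I) :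
    ∑ s ∈ univ.filter (fun s => sub r s ∧ red m r s = s'), ∏ k, rho P m r s k ≤
      ∏ k, (1 + (Fintype.card I : ℝ) / (P k * (P k - 1))) := by
  have hP2 : ∀ k, (2 : ℝ) ≤ P k := fun k => by exact_mod_cast hP k
  have hr0 : ∀ s k, 0 ≤ rho P m r s k := by
    intro s k
    have := hP2 k
    unfold rho
    split_ifs
    · apply one_div_nonneg.mpr
      apply mul_nonneg <;> linarith
    · exact zero_le_one
  have hsub : (univ.filter (fun s => sub r s ∧ red m r s = s') : Finset (ι → Option I)) ⊆
      Fintype.piFinset (fun k => if r k = none ∧ s' k = none then univ.erase (some m) else {s' k}) := by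
    intro s hs
    obtain ⟨-, h1, h2⟩ := Finset.mem_filter.mp hs
    rw [Fintype.mem_piFinset]
    intro k
    have h3 : red m r s k = s' k := congrFun h2 k
    unfold red at h3
    split_ifs with h4
    · rw [Finset.mem_erase]
      refine ⟨?_, Finset.mem_univ _⟩
      intro h5
      rw [if_neg (fun h => h.2 h5), h5] at h3
      rw [h4.2] at h3
      cases h3
    · rw [Finset.mem_singleton]
      split_ifs at h3 with h5
      · exact absurd ⟨h5.1, h3.symm⟩ h4
      · exact h3
  refine (Finset.sum_le_sum_of_subset_of_nonneg hsub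
    (fun s _ _ => Finset.prod_nonneg fun k _ => hr0 s k)).trans ?_
  have hloc : ∀ s : ι → Option I, ∏ k, rho P m r s k =
      ∏ k, (fun (k : ι) (a : Option I) => if r k = none ∧ a ≠ none ∧ a ≠ some m then
        1 / ((P k : ℝ) * (P k - 1)) else 1) k (s k) := fun s => rfl
  rw [Finset.sum_congr rfl (fun s _ => hloc s), ← Finset.prod_univ_sum
    (fun k => if r k = none ∧ s' k = none then univ.erase (some m) else {s' k})
    (fun (k : ι) (a : Option I) => if r k = none ∧ a ≠ none ∧ a ≠ some m then
        1 / ((P k : ℝ) * (P k - 1)) else 1)]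
  refine Finset.prod_le_prod (fun k _ => Finset.sum_nonneg fun a _ => ?_) fun k _ => ?_
  · have := hP2 k
    split_ifs
    · apply one_div_nonneg.mpr
      apply mul_nonneg <;> linarith
    · exact zero_le_one
  · have hk := hP2 k
    have hkk : 0 < (P k : ℝ) * (P k - 1) := mul_pos (by linarith) (by linarith)
    have hge : (0 : ℝ) ≤ (Fintype.card I : ℝ) / (P k * (P k - 1)) :=
      div_nonneg (Nat.cast_nonneg _) hkk.le
    by_cases h1 : r k = none ∧ s' k = none
    · rw [if_pos h1]
      have h2 : ∀ a : Option I, a ∈ (univ.erase (some m) : Finset (Option I)) →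
          (if r k = none ∧ a ≠ none ∧ a ≠ some m then 1 / ((P k : ℝ) * (P k - 1)) else 1) ≤
          (if a = none then (1 : ℝ) else 0) + (if a = none then 0 else 1 / ((P k : ℝ) * (P k - 1))) := by
        intro a ha
        rw [Finset.mem_erase] at ha
        by_cases h3 : a = none
        · simp [h3]
        · rw [if_pos ⟨h1.1, h3, ha.1⟩, if_neg h3, if_neg h3, zero_add]
      refine (Finset.sum_le_sum h2).trans ?_
      refine (Finset.sum_le_sum_of_subset_of_nonneg (Finset.erase_subset _ _) ?_).trans ?_
      · intro a _ _
        split_ifs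
        · norm_num
        · rw [zero_add]
          exact one_div_nonneg.mpr hkk.le
      · rw [Fintype.sum_option]
        simp only [if_true, reduceCtorEq, if_false, add_zero, zero_add, Finset.sum_const,
          Finset.card_univ, nsmul_eq_mul]
        rw [mul_one_div]
    · rw [if_neg h1, Finset.sum_singleton]
      split_ifs with h2
      · have h3 : 1 / ((P k : ℝ) * (P k - 1)) ≤ 1 := by
          rw [div_le_one hkk]
          nlinarith
        linarith
      · linarith

theorem cc_offL (P : ι → ℕ) (hP : ∀ k, 2 ≤ P k) (F : (ι → Option I) → ℝ) (hF0 : ∀ s, 0 ≤ F s)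
    (hF : ∀ s s', sub s s' → F s' ≤ F s) (m : I) (r : ι → Option I) (hr : noL m r) :
    (2 - ∏ k, (1 + (Fintype.card I : ℝ) / (P k * (P k - 1)))) * Aext P F m r ≤
      |cc (fun k => (1 : ℝ) / (P k - 1)) (offL m (lamF P F)) r| := by
  set Q : ℝ := ∏ k, (1 + (Fintype.card I : ℝ) / (P k * (P k - 1))) with hQ
  have hpos : ∀ t : ι → Option I, (0 : ℝ) < tot P t := fun t => by
    exact_mod_cast tot_pos (fun k => lt_of_lt_of_le two_pos (hP k)) t
  set S : Finset (ι → Option I) := univ.filter (fun s => sub r s) with hS
  set S1 : Finset (ι → Option I) :=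
    univ.filter (fun s => sub r s ∧ ∀ k, s k = r k ∨ s k = some m) with hS1
  have hS1S : S1 ⊆ S := by
    intro s hs
    obtain ⟨-, h1, -⟩ := Finset.mem_filter.mp hs
    exact Finset.mem_filter.mpr ⟨Finset.mem_univ _, h1⟩
  set W : (ι → Option I) → ℝ := fun s => mu r * (F s / tot P s * ∏ k, locf P m r s k) with hW
  have hcc : mu r * cc (fun k => (1 : ℝ) / (P k - 1)) (offL m (lamF P F)) r = ∑ s ∈ S, W s := by
    rw [cc_eq_loc P hP F m r hr, Finset.mul_sum]
  have habs : |cc (fun k => (1 : ℝ) / (P k - 1)) (offL m (lamF P F)) r| =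
      |mu r * cc (fun k => (1 : ℝ) / (P k - 1)) (offL m (lamF P F)) r| := by
    rw [abs_mul, abs_mu, one_mul]
  have hW1 : ∀ s ∈ S1, W s = F s * tot P r / tot P s := by
    intro s hs
    obtain ⟨-, -, h2⟩ := Finset.mem_filter.mp hs
    have h3 := mu_mul_locf P m r s h2
    calc W s = F s / tot P s * (mu r * ∏ k, locf P m r s k) := by rw [hW]; ring
      _ = _ := by rw [h3]; ring
  have hA : ∑ s ∈ S1, W s = Aext P F m r := by
    unfold Aext
    exact Finset.sum_congr rfl hW1
  have hA' : ∑ s ∈ S1, |W s| = Aext P F m r := by
    rw [← hA]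
    refine Finset.sum_congr rfl fun s hs => abs_of_nonneg ?_
    rw [hW1 s hs]
    exact div_nonneg (mul_nonneg (hF0 s) (hpos r).le) (hpos s).le
  have hWabs : ∀ s, |W s| = F s / tot P s * ∏ k, loca P m r s k := by
    intro s
    rw [hW]
    simp only
    rw [abs_mul, abs_mu, one_mul, abs_mul, abs_of_nonneg (div_nonneg (hF0 s) (hpos s).le),
      Finset.abs_prod]
    congr 1
    exact Finset.prod_congr rfl fun k _ => abs_locf P hP m r s k
  have hmaps : ∀ s ∈ S, red m r s ∈ S1 := by
    intro s hs
    have h1 : sub r s := (Finset.mem_filter.mp hs).2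
    refine Finset.mem_filter.mpr ⟨Finset.mem_univ _, fun k => ?_, fun k => ?_⟩
    · unfold red
      by_cases h2 : r k = none
      · exact Or.inl h2
      · rw [if_neg (fun h => h2 h.1)]
        exact h1 k
    · unfold red
      split_ifs with h2
      · exact Or.inl h2.1.symm
      · by_cases h3 : r k = none
        · right
          by_contra h4
          exact h2 ⟨h3, h4⟩
        · rcases h1 k with h4 | h4
          · exact absurd h4 h3
          · exact Or.inl h4.symm
  have hB : ∑ s ∈ S, |W s| ≤ Q * Aext P F m r := by
    rw [← Finset.sum_fiberwise_of_maps_to hmaps, Aext, Finset.mul_sum]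
    refine Finset.sum_le_sum fun s' hs' => ?_
    calc ∑ s ∈ S with red m r s = s', |W s|
        ≤ ∑ s ∈ S with red m r s = s', F s' * tot P r / tot P s' * ∏ k, rho P m r s k := by
          refine Finset.sum_le_sum fun s hs => ?_
          obtain ⟨h1, h2⟩ := Finset.mem_filter.mp hs
          have h3 : sub r s := (Finset.mem_filter.mp h1).2
          rw [hWabs s, ← h2]
          exact term_le P hP F hF m r s h3
      _ = F s' * tot P r / tot P s' *
            ∑ s ∈ univ.filter (fun s => sub r s ∧ red m r s = s'), ∏ k, rho P m r s k := by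
          rw [← Finset.mul_sum, hS, Finset.filter_filter]
      _ ≤ F s' * tot P r / tot P s' * Q := by
          refine mul_le_mul_of_nonneg_left (fiber_le P hP m r s') ?_
          exact div_nonneg (mul_nonneg (hF0 s') (hpos r).le) (hpos s').le
      _ = Q * (F s' * tot P r / tot P s') := by ring
  have hsplit : ∑ s ∈ S, W s = ∑ s ∈ S \ S1, W s + ∑ s ∈ S1, W s :=
    (Finset.sum_sdiff hS1S).symm
  have hsplit' : ∑ s ∈ S, |W s| = ∑ s ∈ S \ S1, |W s| + ∑ s ∈ S1, |W s| :=
    (Finset.sum_sdiff hS1S).symm
  have hneg : -(∑ s ∈ S \ S1, |W s|) ≤ ∑ s ∈ S \ S1, W s := by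
    rw [← Finset.sum_neg_distrib]
    exact Finset.sum_le_sum fun s _ => neg_abs_le _
  rw [habs, hcc]
  refine le_trans ?_ (le_abs_self _)
  rw [hA'] at hsplit'
  rw [hA] at hsplit
  linarith

end Pool.Agent.H21.MT
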