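import Pool.Agent.H21.MT.Ev
import Pool.Agent.H21.MT.Diag
import Pool.Agent.H21.MT.Mob2
import Pool.Agent.H21.MT.QbD

/-!
[H21 MT QB2]  Lower bound of the main term (primes) for the product profile.

Proof.  `K = |I|`.
* `le_diag` with `π = 1/(P-1)`; drop all `r` except those in `goodS P (univ.erase m) R`
  (they have no label `m`).  `cc_offL` with `hκ` gives `|cc r| ≥ (99/100) Aext r`
  (`FF` is antitone for `sub`).  For such `r`, the `s` in `Aext` correspond to the `T` disjoint from
  the support of `r`, `tot s = tot r * nrm T`, `lab s m = nrm T`, `lab s i = lab r i`; if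
  `g m (nrm T) ≠ 0` then `nrm T ^2 ≤ R`, so `tot s ≤ R`; hence
  `Aext r = (∏_{i≠m} g i (lab r i)) * ∑_{T ∩ supp r = ∅} g m (nrm T)/nrm T`, and by `SS_mem_le` the
  last sum is `≥ (1 - ∑_{k ∈ r} 1/P k) SS P (g m) ≥ (9/10) SS P (g m)`.
* The weights: `1/(P-1) (1 - K/(P-1)) ≥ (1/P)(1 - 2K/P)` and
  `∏_{k∈r} (1 - 2K/P k) ≥ 1 - 2K/(10K) = 4/5`.
* Then `mass_good` with `u i = g i^2`, `J = univ.erase m` (if `J` is empty, i.e. `|I| = 1`, take
  `r = none` directly; the sum in `hC` over `J` is at most the sum over all `i`).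
  `(99/100)^2 (9/10)^2 (4/5) (1/2) ≥ 1/4`.
-/

set_option linter.unusedSectionVars false

namespace Pool.Agent.H21.MT

open Finset

variable {ι I : Type} [Fintype ι] [DecidableEq ι] [Fintype I] [DecidableEq I]

theorem q2_lab_mono (P : ι → ℕ) (hP : ∀ k, 1 ≤ P k) {s s' : ι → Option I} (h : sub s s') (i : I) :
    lab P s i ≤ lab P s' i := by
  unfold lab
  refine Finset.prod_le_prod' fun k _ => ?_
  rcases h k with h1 | h1
  · rw [h1, if_neg (by simp)]
    split_ifs
    · exact hP k
    · exact le_rfl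
  · rw [h1]

theorem q2_tot_mono (P : ι → ℕ) (hP : ∀ k, 1 ≤ P k) {s s' : ι → Option I} (h : sub s s') :
    tot P s ≤ tot P s' := by
  unfold tot
  refine Finset.prod_le_prod' fun k _ => ?_
  rcases h k with h1 | h1
  · rw [h1, if_pos rfl]
    split_ifs
    · exact le_rfl
    · exact hP k
  · rw [h1]

theorem q2_FF_anti (P : ι → ℕ) (hP : ∀ k, 1 ≤ P k) (g : I → ℕ → ℝ) (hg0 : ∀ i b, 0 ≤ g i b)
    (hg : ∀ i, Antitone (g i)) (R : ℝ) (s s' : ι → Option I) (h : sub s s') :
    FF P g R s' ≤ FF P g R s := by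
  unfold FF
  refine mul_le_mul (Finset.prod_le_prod (fun i _ => hg0 i _) fun i _ =>
    hg i (q2_lab_mono P hP h i)) ?_ ?_ (Finset.prod_nonneg fun i _ => hg0 i _)
  · have h1 : (tot P s : ℝ) ≤ tot P s' := by exact_mod_cast q2_tot_mono P hP h
    by_cases h2 : (tot P s' : ℝ) ≤ R
    · rw [if_pos h2, if_pos (h1.trans h2)]
    · rw [if_neg h2]
      split_ifs <;> norm_num
  · split_ifs <;> norm_num

/-- extension of `r` by the label `m` on `T` -/
def q2ext (r : ι → Option I) (m : I) (T : Finset ι) : ι → Option I :=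
  fun k => if k ∈ T then some m else r k

theorem q2_nrm_eq (P : ι → ℕ) (T : Finset ι) : nrm P T = ∏ k, if k ∈ T then P k else 1 := by
  unfold nrm
  rw [Finset.prod_ite_mem, Finset.univ_inter]

theorem q2_tot_ext (P : ι → ℕ) (r : ι → Option I) (m : I) (T : Finset ι)
    (hT : ∀ k ∈ T, r k = none) : tot P (q2ext r m T) = tot P r * nrm P T := by
  rw [q2_nrm_eq]
  unfold tot
  rw [← Finset.prod_mul_distrib]
  refine Finset.prod_congr rfl fun k _ => ?_
  unfold q2ext
  by_cases hk : k ∈ T
  · rw [if_pos hk, if_pos hk, if_neg (by simp), if_pos (hT k hk), one_mul]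
  · rw [if_neg hk, if_neg hk, mul_one]

theorem q2_lab_ext_m (P : ι → ℕ) (r : ι → Option I) (m : I) (hr : noL m r) (T : Finset ι) :
    lab P (q2ext r m T) m = nrm P T := by
  rw [q2_nrm_eq]
  unfold lab
  refine Finset.prod_congr rfl fun k _ => ?_
  unfold q2ext
  by_cases hk : k ∈ T
  · rw [if_pos hk, if_pos hk, if_pos rfl]
  · rw [if_neg hk, if_neg hk, if_neg (hr k)]

theorem q2_lab_ext_i (P : ι → ℕ) (r : ι → Option I) (m i : I) (hi : i ≠ m) (T : Finset ι)
    (hT : ∀ k ∈ T, r k = none) : lab P (q2ext r m T) i = lab P r i := by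
  unfold lab
  refine Finset.prod_congr rfl fun k _ => ?_
  unfold q2ext
  by_cases hk : k ∈ T
  · rw [if_pos hk, hT k hk, if_neg (by simpa using hi.symm), if_neg (by simp)]
  · rw [if_neg hk]

theorem q2_one_sub (f : ι → ℝ) (s : Finset ι) (h0 : ∀ k ∈ s, 0 ≤ f k) (h1 : ∀ k ∈ s, f k ≤ 1) :
    1 - ∑ k ∈ s, f k ≤ ∏ k ∈ s, (1 - f k) := by
  induction s using Finset.induction_on with
  | empty => simp
  | insert a s ha ih =>
    rw [Finset.sum_insert ha, Finset.prod_insert ha]
    have h2 := ih (fun k hk => h0 k (Finset.mem_insert_of_mem hk))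
      (fun k hk => h1 k (Finset.mem_insert_of_mem hk))
    have h3 := h0 a (Finset.mem_insert_self a s)
    have h4 := h1 a (Finset.mem_insert_self a s)
    have h5 : 0 ≤ ∑ k ∈ s, f k :=
      Finset.sum_nonneg fun k hk => h0 k (Finset.mem_insert_of_mem hk)
    nlinarith [mul_le_mul_of_nonneg_left h2 (sub_nonneg.2 h4), mul_nonneg h3 h5]

/-- the sum over the sets `T` disjoint from the support -/
theorem q2_disj (P : ι → ℕ) (hP : ∀ k, (P k).Prime) (u : ℕ → ℝ) (hu0 : ∀ b, 0 ≤ u b)
    (hu : Antitone u) (r : ι → Option I) :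
    (1 - ∑ k, (if r k = none then 0 else 1 / (P k : ℝ))) * SS P u ≤
      ∑ T ∈ (univ : Finset (Finset ι)).filter (fun T => ∀ k ∈ T, r k = none),
        u (nrm P T) / nrm P T := by
  classical
  have hterm : ∀ T : Finset ι, 0 ≤ u (nrm P T) / (nrm P T : ℝ) := fun T =>
    div_nonneg (hu0 _) (Nat.cast_nonneg _)
  have h1 : SS P u ≤ ∑ T ∈ (univ : Finset (Finset ι)).filter (fun T => ∀ k ∈ T, r k = none),
        u (nrm P T) / nrm P T + ∑ k, (if r k = none then 0 else
        ∑ T ∈ (univ : Finset (Finset ι)).filter (fun T => k ∈ T), u (nrm P T) / nrm P T) := by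
    unfold SS
    have h2 : ∑ k, (if r k = none then 0 else
        ∑ T ∈ (univ : Finset (Finset ι)).filter (fun T => k ∈ T), u (nrm P T) / (nrm P T : ℝ)) =
        ∑ T : Finset ι, ∑ k, (if r k = none then 0 else if k ∈ T then
          u (nrm P T) / (nrm P T : ℝ) else 0) := by
      rw [Finset.sum_comm]
      refine Finset.sum_congr rfl fun k _ => ?_
      by_cases hk : r k = none
      · simp [hk]
      · simp only [if_neg hk]
        rw [Finset.sum_filter]
    rw [h2, Finset.sum_filter, ← Finset.sum_add_distrib]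
    refine Finset.sum_le_sum fun T _ => ?_
    by_cases hT : ∀ k ∈ T, r k = none
    · rw [if_pos hT]
      refine le_add_of_nonneg_right (Finset.sum_nonneg fun k _ => ?_)
      split_ifs
      · exact le_rfl
      · exact hterm T
      · exact le_rfl
    · rw [if_neg hT, zero_add]
      push Not at hT
      obtain ⟨k, hk, hrk⟩ := hT
      have h3 := Finset.single_le_sum (f := fun k => (if r k = none then 0 else if k ∈ T then
          u (nrm P T) / (nrm P T : ℝ) else 0)) (s := univ) (fun k _ => by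
          split_ifs
          · exact le_rfl
          · exact hterm T
          · exact le_rfl) (Finset.mem_univ k)
      rw [if_neg hrk, if_pos hk] at h3
      exact h3
  have h4 : ∑ k, (if r k = none then 0 else
        ∑ T ∈ (univ : Finset (Finset ι)).filter (fun T => k ∈ T), u (nrm P T) / (nrm P T : ℝ)) ≤
      (∑ k, (if r k = none then 0 else 1 / (P k : ℝ))) * SS P u := by
    rw [Finset.sum_mul]
    refine Finset.sum_le_sum fun k _ => ?_
    by_cases hk : r k = none
    · rw [if_pos hk, if_pos hk, zero_mul]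
    · rw [if_neg hk, if_neg hk]
      exact SS_mem_le P hP u hu0 hu k
  linarith

/-- lower bound of `Aext` -/
theorem q2_Aext (P : ι → ℕ) (hP : ∀ k, (P k).Prime) (R : ℝ) (hR : 1 < R)
    (g : I → ℕ → ℝ) (hg0 : ∀ i b, 0 ≤ g i b) (hg : ∀ i, Antitone (g i))
    (hgR : ∀ i b, g i b ≠ 0 → (b : ℝ) ^ 2 ≤ R) (m : I) (r : ι → Option I) (hr : noL m r)
    (hrR : (tot P r : ℝ) ^ 2 ≤ R)
    (hr10 : ∑ k, (if r k = none then 0 else 1 / (P k : ℝ)) ≤ 1 / 10) :
    (9 / 10) * SS P (g m) * ∏ i ∈ univ.erase m, g i (lab P r i) ≤ Aext P (FF P g R) m r := by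
  classical
  have hP1 : ∀ k, 1 ≤ P k := fun k => (hP k).one_lt.le
  have hP0 : ∀ k, 0 < P k := fun k => (hP k).pos
  have hG : 0 ≤ ∏ i ∈ univ.erase m, g i (lab P r i) := Finset.prod_nonneg fun i _ => hg0 i _
  have hSS : 0 ≤ SS P (g m) := Finset.sum_nonneg fun T _ => div_nonneg (hg0 _ _) (Nat.cast_nonneg _)
  have h1 := q2_disj P hP (g m) (hg0 m) (hg m) r
  have h2 : (9 / 10) * SS P (g m) ≤
      ∑ T ∈ (univ : Finset (Finset ι)).filter (fun T => ∀ k ∈ T, r k = none),
        g m (nrm P T) / nrm P T := by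
    refine le_trans ?_ h1
    refine mul_le_mul_of_nonneg_right ?_ hSS
    linarith
  have hterm : ∀ T ∈ (univ : Finset (Finset ι)).filter (fun T => ∀ k ∈ T, r k = none),
      g m (nrm P T) / nrm P T * ∏ i ∈ univ.erase m, g i (lab P r i) =
      FF P g R (q2ext r m T) * tot P r / tot P (q2ext r m T) := by
    intro T hT
    rw [Finset.mem_filter] at hT
    have ht := q2_tot_ext P r m T hT.2
    have hn0 : (0 : ℝ) < nrm P T := by exact_mod_cast nrm_pos hP0 T
    have ht0 : (0 : ℝ) < tot P r := by exact_mod_cast tot_pos hP0 r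
    unfold FF
    rw [← Finset.mul_prod_erase _ _ (Finset.mem_univ m), q2_lab_ext_m P r m hr T]
    have h3 : ∏ i ∈ univ.erase m, g i (lab P (q2ext r m T) i) =
        ∏ i ∈ univ.erase m, g i (lab P r i) :=
      Finset.prod_congr rfl fun i hi => by
        rw [q2_lab_ext_i P r m i (Finset.ne_of_mem_erase hi) T hT.2]
    rw [h3]
    by_cases h0 : g m (nrm P T) = 0
    · rw [h0]
      simp
    · have h4 : ((tot P (q2ext r m T) : ℕ) : ℝ) ≤ R := by
        rw [ht]
        push_cast
        have h5 := hgR m _ h0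
        have h6 : ((tot P r : ℝ) * nrm P T) ^ 2 ≤ R ^ 2 := by
          rw [mul_pow, sq R]
          exact mul_le_mul hrR h5 (by positivity) (by linarith)
        exact le_of_sq_le_sq h6 (by linarith)
      rw [if_pos h4, ht]
      push_cast
      field_simp
  unfold Aext
  calc (9 / 10) * SS P (g m) * ∏ i ∈ univ.erase m, g i (lab P r i)
      ≤ (∑ T ∈ (univ : Finset (Finset ι)).filter (fun T => ∀ k ∈ T, r k = none),
        g m (nrm P T) / nrm P T) * ∏ i ∈ univ.erase m, g i (lab P r i) :=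
        mul_le_mul_of_nonneg_right h2 hG
    _ = ∑ T ∈ (univ : Finset (Finset ι)).filter (fun T => ∀ k ∈ T, r k = none),
        FF P g R (q2ext r m T) * tot P r / tot P (q2ext r m T) := by
        rw [Finset.sum_mul]
        exact Finset.sum_congr rfl hterm
    _ = ∑ s ∈ ((univ : Finset (Finset ι)).filter (fun T => ∀ k ∈ T, r k = none)).image
        (q2ext r m), FF P g R s * tot P r / tot P s := by
        rw [Finset.sum_image]
        intro T _ T' _ hTT
        ext k
        have h7 := congrFun hTT k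
        unfold q2ext at h7
        constructor
        · intro hk
          by_contra hk'
          rw [if_pos hk, if_neg hk'] at h7
          exact hr k h7.symm
        · intro hk
          by_contra hk'
          rw [if_neg hk', if_pos hk] at h7
          exact hr k h7
    _ ≤ _ := by
        refine Finset.sum_le_sum_of_subset_of_nonneg ?_ ?_
        · intro s hs
          rw [Finset.mem_image] at hs
          obtain ⟨T, hT, rfl⟩ := hs
          rw [Finset.mem_filter] at hT
          rw [Finset.mem_filter]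
          refine ⟨Finset.mem_univ _, fun k => ?_, fun k => ?_⟩
          · unfold q2ext
            by_cases hk : k ∈ T
            · exact Or.inl (hT.2 k hk)
            · rw [if_neg hk]
              exact Or.inr rfl
          · unfold q2ext
            by_cases hk : k ∈ T
            · rw [if_pos hk]
              exact Or.inr rfl
            · rw [if_neg hk]
              exact Or.inl rfl
        · intro s _ _
          refine div_nonneg (mul_nonneg ?_ (Nat.cast_nonneg _)) (Nat.cast_nonneg _)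
          unfold FF
          refine mul_nonneg (Finset.prod_nonneg fun i _ => hg0 i _) ?_
          split_ifs <;> norm_num

/-- the local weights -/
theorem q2_weight (P : ι → ℕ) (hP : ∀ k, (P k).Prime)
    (hK : ∀ k, 2 * Fintype.card I + 1 ≤ P k) (hI : 1 ≤ Fintype.card I) (r : ι → Option I)
    (hr10 : ∑ k, (if r k = none then 0 else 1 / (P k : ℝ)) ≤ 1 / (10 * (Fintype.card I : ℝ))) :
    (4 / 5) / (tot P r : ℝ) ≤ ∏ k, (if r k = none then 1 else
      (1 : ℝ) / (P k - 1) * (1 - Fintype.card I * ((1 : ℝ) / (P k - 1)))) := by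
  classical
  obtain ⟨K, hKdef⟩ : ∃ K : ℝ, K = Fintype.card I := ⟨_, rfl⟩
  have hK1 : 1 ≤ K := by rw [hKdef]; exact_mod_cast hI
  have hPK : ∀ k, 2 * K + 1 ≤ (P k : ℝ) := fun k => by
    rw [hKdef]
    exact_mod_cast hK k
  rw [← hKdef] at hr10 ⊢
  have hsup : ∀ k, (if r k = none then (1 : ℝ) else (1 / (P k : ℝ)) * (1 - 2 * K / P k)) ≤
      (if r k = none then 1 else (1 : ℝ) / (P k - 1) * (1 - K * ((1 : ℝ) / (P k - 1)))) := by
    intro k
    by_cases hk : r k = none
    · rw [if_pos hk, if_pos hk]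
    · rw [if_neg hk, if_neg hk]
      have h1 := hPK k
      have h2 : (0 : ℝ) < P k := by linarith
      have h3 : (0 : ℝ) < P k - 1 := by linarith
      refine mul_le_mul (one_div_le_one_div_of_le h3 (by linarith)) ?_ ?_ (by positivity)
      · have h4 : K * (1 / ((P k : ℝ) - 1)) ≤ 2 * K / P k := by
          rw [mul_one_div, div_le_div_iff₀ h3 h2]
          nlinarith
        linarith
      · rw [sub_nonneg, div_le_one h2]
        linarith
  have hnn : ∀ k, 0 ≤ (if r k = none then (1 : ℝ) else (1 / (P k : ℝ)) * (1 - 2 * K / P k)) := by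
    intro k
    split_ifs
    · norm_num
    · have h1 := hPK k
      have h2 : (0 : ℝ) < P k := by linarith
      refine mul_nonneg (by positivity) ?_
      rw [sub_nonneg, div_le_one h2]
      linarith
  refine le_trans ?_ (Finset.prod_le_prod (fun k _ => hnn k) fun k _ => hsup k)
  have h5 : ∏ k, (if r k = none then (1 : ℝ) else (1 / (P k : ℝ)) * (1 - 2 * K / P k)) =
      (∏ k, (1 - (if r k = none then 0 else 2 * K / (P k : ℝ)))) / tot P r := by
    unfold tot
    push_cast
    rw [← Finset.prod_div_distrib]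
    refine Finset.prod_congr rfl fun k _ => ?_
    by_cases hk : r k = none
    · rw [if_pos hk, if_pos hk, if_pos hk]
      simp
    · rw [if_neg hk, if_neg hk, if_neg hk]
      ring
  rw [h5]
  have ht0 : (0 : ℝ) < tot P r := by exact_mod_cast tot_pos (fun k => (hP k).pos) r
  refine div_le_div_of_nonneg_right ?_ ht0.le
  have h6 := q2_one_sub (fun k => (if r k = none then 0 else 2 * K / (P k : ℝ))) univ
    (fun k _ => by
      split_ifs
      · exact le_rfl
      · have h1 := hPK k
        have h2 : (0 : ℝ) < P k := by linarith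
        positivity)
    (fun k _ => by
      split_ifs
      · norm_num
      · have h1 := hPK k
        have h2 : (0 : ℝ) < P k := by linarith
        rw [div_le_one h2]
        linarith)
  refine le_trans ?_ h6
  have h7 : ∑ k, (if r k = none then 0 else 2 * K / (P k : ℝ)) =
      2 * K * ∑ k, (if r k = none then 0 else 1 / (P k : ℝ)) := by
    rw [Finset.mul_sum]
    refine Finset.sum_congr rfl fun k _ => ?_
    by_cases hk : r k = none
    · rw [if_pos hk, if_pos hk, mul_zero]
    · rw [if_neg hk, if_neg hk]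
      ring
  rw [h7]
  have h8 : 2 * K * ∑ k, (if r k = none then 0 else 1 / (P k : ℝ)) ≤ 2 * K * (1 / (10 * K)) :=
    mul_le_mul_of_nonneg_left hr10 (by linarith)
  have h9 : 2 * K * (1 / (10 * K)) = 1 / 5 := by
    field_simp
    norm_num
  linarith

/-- the mass of the good labelled numbers, also for empty `J` -/
theorem q2_mass (P : ι → ℕ) (hP : ∀ k, (P k).Prime) (hinj : Function.Injective P)
    (J : Finset I) (R : ℝ) (hR : 1 < R) (u : I → ℕ → ℝ)
    (hu0 : ∀ i b, 0 ≤ u i b) (hu : ∀ i, Antitone (u i)) (hu1 : ∀ i, 0 < u i 1)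
    (hσ : ∑ k, 1 / (P k : ℝ) ^ 2 ≤ 1 / (50 * (Fintype.card I : ℝ) ^ 2))
    (hC : ∑ i ∈ J, SS P (fun b => u i b * Real.log b) / SS P (u i) ≤ (1 / 8) * Real.log R) :
    (1 / 2) * ∏ i ∈ J, SS P (u i) ≤
      ∑ s ∈ goodS P J R, (∏ i ∈ J, u i (lab P s i)) / tot P s := by
  classical
  rcases J.eq_empty_or_nonempty with hJ | hJ
  · subst hJ
    have h1 : (fun _ => none : ι → Option I) ∈ goodS P (∅ : Finset I) R := by
      unfold goodS
      rw [Finset.mem_filter]
      refine ⟨Finset.mem_univ _, fun k i h => by simp at h, ?_, ?_⟩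
      · simp [tot]
        exact hR.le
      · simp
    have h2 := Finset.single_le_sum (f := fun s : ι → Option I =>
      (∏ i ∈ (∅ : Finset I), u i (lab P s i)) / (tot P s : ℝ)) (s := goodS P (∅ : Finset I) R)
      (fun s _ => by
        rw [Finset.prod_empty]
        positivity) h1
    rw [Finset.prod_empty] at h2 ⊢
    refine le_trans ?_ h2
    simp [tot]
    norm_num
  · exact mass_good P hP hinj J hJ R hR u hu0 hu hu1 hσ hC

theorem qm_lower (P : ι → ℕ) (hP : ∀ k, (P k).Prime) (hinj : Function.Injective P)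
    (hK : ∀ k, 2 * Fintype.card I + 1 ≤ P k) (R : ℝ) (hR : 1 < R)
    (g : I → ℕ → ℝ) (hg0 : ∀ i b, 0 ≤ g i b) (hg : ∀ i, Antitone (g i)) (hg1 : ∀ i, g i 1 = 1)
    (hgR : ∀ i b, g i b ≠ 0 → (b : ℝ) ^ 2 ≤ R)
    (hσ : ∑ k, 1 / (P k : ℝ) ^ 2 ≤ 1 / (50 * (Fintype.card I : ℝ) ^ 2))
    (hκ : ∏ k, (1 + (Fintype.card I : ℝ) / (P k * (P k - 1))) ≤ 101 / 100)
    (hC : ∑ i, SS P (fun b => g i b ^ 2 * Real.log b) / SS P (fun b => g i b ^ 2) ≤
      (1 / 8) * Real.log R) (m : I) :
    (1 / 4) * SS P (g m) ^ 2 * ∏ i ∈ univ.erase m, SS P (fun b => g i b ^ 2) ≤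
      mform (fun k => (1 : ℝ) / (P k - 1)) (offL m (lamF P (FF P g R))) := by
  classical
  have hI : 1 ≤ Fintype.card I := Fintype.card_pos_iff.2 ⟨m⟩
  have hI' : (1 : ℝ) ≤ Fintype.card I := by exact_mod_cast hI
  have hP1 : ∀ k, 1 ≤ P k := fun k => (hP k).one_lt.le
  have hP0 : ∀ k, 0 < P k := fun k => (hP k).pos
  have hPK : ∀ k, 2 * (Fintype.card I : ℝ) + 1 ≤ (P k : ℝ) := fun k => by exact_mod_cast hK k
  have hSS : 0 ≤ SS P (g m) := Finset.sum_nonneg fun T _ => div_nonneg (hg0 _ _) (Nat.cast_nonneg _)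
  have hπ0 : ∀ k, 0 ≤ (1 : ℝ) / ((P k : ℝ) - 1) := fun k => by
    have := hPK k
    exact div_nonneg zero_le_one (by linarith)
  have hπK : ∀ k, (Fintype.card I : ℝ) * ((1 : ℝ) / ((P k : ℝ) - 1)) ≤ 1 := fun k => by
    have := hPK k
    rw [mul_one_div, div_le_one (by linarith)]
    linarith
  refine le_trans ?_ (le_diag (fun k => (1 : ℝ) / ((P k : ℝ) - 1)) hπ0 hπK
    (offL m (lamF P (FF P g R))))
  obtain ⟨J, hJdef⟩ : ∃ J : Finset I, J = univ.erase m := ⟨_, rfl⟩
  rw [← hJdef]
  -- mass of the good numbers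
  have hmass := q2_mass P hP hinj J R hR (fun i b => g i b ^ 2) (fun i b => sq_nonneg _)
    (fun i a b hab => pow_le_pow_left₀ (hg0 i b) (hg i hab) 2)
    (fun i => by rw [hg1]; norm_num) hσ (by
      refine le_trans (Finset.sum_le_sum_of_subset_of_nonneg (Finset.subset_univ J) ?_) hC
      intro i _ _
      refine div_nonneg (Finset.sum_nonneg fun T _ => ?_) (Finset.sum_nonneg fun T _ => ?_)
      · refine div_nonneg (mul_nonneg (sq_nonneg _) (Real.log_natCast_nonneg _))
          (Nat.cast_nonneg _)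
      · exact div_nonneg (sq_nonneg _) (Nat.cast_nonneg _))
  -- the terms
  have hterm : ∀ r ∈ goodS P J R,
      (1 / 2) * SS P (g m) ^ 2 * ((∏ i ∈ J, g i (lab P r i) ^ 2) / tot P r) ≤
      (cc (fun k => (1 : ℝ) / ((P k : ℝ) - 1)) (offL m (lamF P (FF P g R))) r) ^ 2 *
        ∏ k, (if r k = none then 1 else (1 : ℝ) / ((P k : ℝ) - 1) *
          (1 - Fintype.card I * ((1 : ℝ) / ((P k : ℝ) - 1)))) := by
    intro r hr
    unfold goodS at hr
    rw [Finset.mem_filter] at hr
    obtain ⟨-, hlab, hrR, hr10⟩ := hr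
    have hno : noL m r := by
      intro k hk
      have := hlab k m hk
      rw [hJdef] at this
      exact Finset.notMem_erase m univ this
    have hr10' : ∑ k, (if r k = none then 0 else 1 / (P k : ℝ)) ≤ 1 / 10 := by
      refine hr10.trans ?_
      exact one_div_le_one_div_of_le (by norm_num) (by linarith)
    have hA := q2_Aext P hP R hR g hg0 hg hgR m r hno hrR hr10'
    rw [← hJdef] at hA
    have hG : 0 ≤ ∏ i ∈ J, g i (lab P r i) := Finset.prod_nonneg fun i _ => hg0 i _
    have hA0 : 0 ≤ (9 / 10) * SS P (g m) * ∏ i ∈ J, g i (lab P r i) := by positivity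
    have hc := cc_offL P (fun k => (hP k).two_le) (FF P g R) (fun s => by
      unfold FF
      refine mul_nonneg (Finset.prod_nonneg fun i _ => hg0 i _) ?_
      split_ifs <;> norm_num) (fun s s' h => q2_FF_anti P hP1 g hg0 hg R s s' h) m r hno
    have hc2 : (99 / 100) * ((9 / 10) * SS P (g m) * ∏ i ∈ J, g i (lab P r i)) ≤
        |cc (fun k => (1 : ℝ) / ((P k : ℝ) - 1)) (offL m (lamF P (FF P g R))) r| := by
      refine le_trans ?_ hc
      refine mul_le_mul ?_ hA hA0 ?_
      · linarith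
      · linarith
    have hc3 := pow_le_pow_left₀ (by positivity) hc2 2
    rw [sq_abs] at hc3
    have hw := q2_weight P hP hK hI r hr10
    have ht0 : (0 : ℝ) < tot P r := by exact_mod_cast tot_pos hP0 r
    refine le_trans ?_ (mul_le_mul hc3 hw (by positivity) (sq_nonneg _))
    rw [Finset.prod_pow]
    have h1 : ((99 / 100 : ℝ) * ((9 / 10) * SS P (g m) * ∏ i ∈ J, g i (lab P r i))) ^ 2 *
        ((4 / 5) / (tot P r : ℝ)) = (99 ^ 2 * 81 * 4 / (100 ^ 2 * 100 * 5)) * (SS P (g m) ^ 2 *
        ((∏ i ∈ J, g i (lab P r i)) ^ 2 / tot P r)) := by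
      ring
    rw [h1, mul_assoc]
    refine mul_le_mul_of_nonneg_right (by norm_num) (by positivity)
  calc (1 / 4) * SS P (g m) ^ 2 * ∏ i ∈ J, SS P (fun b => g i b ^ 2)
      ≤ (1 / 2) * SS P (g m) ^ 2 * ((1 / 2) * ∏ i ∈ J, SS P (fun b => g i b ^ 2)) := by
        have h1 : 0 ≤ SS P (g m) ^ 2 * ∏ i ∈ J, SS P (fun b => g i b ^ 2) := by
          refine mul_nonneg (sq_nonneg _) (Finset.prod_nonneg fun i _ =>
            Finset.sum_nonneg fun T _ => div_nonneg (sq_nonneg _) (Nat.cast_nonneg _))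
        nlinarith
    _ ≤ (1 / 2) * SS P (g m) ^ 2 * ∑ s ∈ goodS P J R,
        (∏ i ∈ J, g i (lab P s i) ^ 2) / tot P s :=
        mul_le_mul_of_nonneg_left hmass (by positivity)
    _ = ∑ r ∈ goodS P J R, (1 / 2) * SS P (g m) ^ 2 *
        ((∏ i ∈ J, g i (lab P r i) ^ 2) / tot P r) := by
        rw [Finset.mul_sum]
    _ ≤ ∑ r ∈ goodS P J R,
        (cc (fun k => (1 : ℝ) / ((P k : ℝ) - 1)) (offL m (lamF P (FF P g R))) r) ^ 2 *
        ∏ k, (if r k = none then 1 else (1 : ℝ) / ((P k : ℝ) - 1) *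
          (1 - Fintype.card I * ((1 : ℝ) / ((P k : ℝ) - 1)))) := Finset.sum_le_sum hterm
    _ ≤ _ := by
        refine Finset.sum_le_sum_of_subset_of_nonneg (Finset.subset_univ _) fun r _ _ => ?_
        refine mul_nonneg (sq_nonneg _) (Finset.prod_nonneg fun k _ => ?_)
        split_ifs
        · exact zero_le_one
        · exact mul_nonneg (hπ0 k) (sub_nonneg.2 (hπK k))

end Pool.Agent.H21.MT
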