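import Pool.Agent.H21.MT.AsmA
import Pool.Agent.H21.MT.Qb2
import Pool.Agent.H21.MT.Low
import Pool.Agent.H21.MT.ErrSum
import Pool.Agent.H21.MT.BV

/-!
[H21 MT ASMB]  Lower bound for the mass of the `N` with `N + h m` prime.

Proof.  Let `K = |I|`, `L = log x`, `A = 18 K^4 + 4 K + 4`, `J` from `bv A`.  `low` (with
`∑|lam| ≤ x^{1/50} ≤ x`) and `prime_sig` with `Wp x`, `v = vp J x`, `M = MM J x`, `E` from `bv`
(`q = W totJ ≤ W R^2 ≤ x^{1/20}` for large `x`; if `offL m lam d ≠ 0` and `offL m lam e ≠ 0` then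
`totJ ≤ tot d * tot e ≤ R^2`) give
`100 L^{J+1} S2 ≥ (MM/φ(W)) Q_m - Err - 1`, `Q_m ≥ (1/4) A_m^2 ∏_{i≠m} B_i ≥ 1/4` (`qm_lower`,
`par_*`), `MM ≥ x L^J/20`, and by `err_sum` with `Λ = (1+L)^K`, `T0 = x L^{J+2}`, `S0 = x L^{J-A}`,
`Q = x^{1/20}`: `Err ≤ (1+L)^{2K} x L^{J+1-A/2} (1+2 log R)^{9K^4} ≤ 2^{2K} x L^{J-1}`, which is
`≤ (1/4) (MM/φ(W)) Q_m` for large `x`.  So `S2 ≥ (1/(100 L^{J+1})) (1/2) (MM/φ(W)) (1/4) A_m^2 ∏ B
≥ x/(16000 L φ(W)) A_m^2 ∏_{i≠m} B_i`.  Divide by `S1 ≤ 2 (XX/W) ∏ B ≤ 240 (x/W) ∏ B`: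
`S2/S1 ≥ (1/3840000) (1/V) (1/L) A_m^2/B_m ≥ (1/3840000) (15/100) (l+2)^2 tau (log R/L)`,
`log R = L/100`.  The constant `10^{-10}` is smaller.
-/

set_option linter.unusedSectionVars false

namespace Pool.Agent.H21.MT

open Finset Filter

variable {I : Type} [Fintype I] [DecidableEq I] [Nonempty I] (δ : Dat I)

theorem totJ_le_mul {ι : Type} [Fintype ι] [DecidableEq ι] {P : ι → ℕ} (hP : ∀ k, 0 < P k)
    (d e : ι → Option I) : totJ P d e ≤ tot P d * tot P e := by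
  unfold totJ tot
  rw [← Finset.prod_mul_distrib]
  apply Finset.prod_le_prod' 
  intro k _
  have h1 : 1 ≤ P k := hP k
  by_cases hd : d k = none
  · by_cases he : e k = none
    · simp [hd, he]
    · simp [hd, he]
  · by_cases he : e k = none
    · simp [hd, he]
    · simp only [hd, he, and_self, if_false]
      nlinarith

theorem totJ_pos' {ι : Type} [Fintype ι] [DecidableEq ι] {P : ι → ℕ} (hP : ∀ k, 0 < P k)
    (d e : ι → Option I) : 0 < totJ P d e := by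
  unfold totJ
  apply Finset.prod_pos
  intro k _
  split_ifs
  · exact one_pos
  · exact hP k

/-- the final real inequality -/
theorem asmB_err (K J : ℕ) (L x ph : ℝ) (hL : 2 ≤ L) (hx : 0 < x) (hph : 1 ≤ ph)
    (hLbig : 320 * 4 ^ K * ph ≤ L) :
    ((1 + L) ^ K) ^ 2 * Real.sqrt ((x * L ^ (J + 2)) * (x * L ^ J / L ^ (18 * K ^ 4 + 4 * K + 4))) *
      (1 + 2 * (L / 100)) ^ (9 * K ^ 4) ≤ x * L ^ J / (320 * ph) := by
  have hL0 : 0 < L := by linarith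
  have h1 : (x * L ^ (J + 2)) * (x * L ^ J / L ^ (18 * K ^ 4 + 4 * K + 4)) =
      (x * L ^ (J + 1) / L ^ (9 * K ^ 4 + 2 * K + 2)) ^ 2 := by
    rw [div_pow, ← pow_mul, mul_pow, ← pow_mul]
    have e1 : (9 * K ^ 4 + 2 * K + 2) * 2 = 18 * K ^ 4 + 4 * K + 4 := by ring
    rw [e1]
    field_simp
    ring
  rw [h1, Real.sqrt_sq (by positivity)]
  have h2 : ((1 + L) ^ K) ^ 2 ≤ 4 ^ K * L ^ (2 * K) := by
    have : (1 + L) ^ K ≤ (2 * L) ^ K := by gcongr; linarith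
    calc ((1 + L) ^ K) ^ 2 ≤ ((2 * L) ^ K) ^ 2 := by gcongr
      _ = 4 ^ K * L ^ (2 * K) := by
        rw [mul_pow, mul_pow, ← pow_mul, ← pow_mul, mul_comm K 2, pow_mul 2 2 K]
        norm_num
  have h3 : (1 + 2 * (L / 100)) ^ (9 * K ^ 4) ≤ L ^ (9 * K ^ 4) := by
    gcongr
    linarith
  calc ((1 + L) ^ K) ^ 2 * (x * L ^ (J + 1) / L ^ (9 * K ^ 4 + 2 * K + 2)) *
      (1 + 2 * (L / 100)) ^ (9 * K ^ 4)
      ≤ (4 ^ K * L ^ (2 * K)) * (x * L ^ (J + 1) / L ^ (9 * K ^ 4 + 2 * K + 2)) *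
        L ^ (9 * K ^ 4) := by gcongr
    _ = 4 ^ K * x * L ^ J / L := by
        field_simp
        ring
    _ ≤ x * L ^ J / (320 * ph) := by
        rw [div_le_div_iff₀ hL0 (by positivity)]
        have : 0 ≤ x * L ^ J := by positivity
        nlinarith [mul_le_mul_of_nonneg_left hLbig this]

theorem asmB_W (W : ℕ) : ∀ᶠ x : ℝ in atTop, (W : ℝ) * (Dat.R x) ^ 2 ≤ x ^ (1 / 20 : ℝ) := by
  have h1 : ∀ᶠ x : ℝ in atTop, (W : ℝ) ≤ x ^ (3 / 100 : ℝ) :=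
    (tendsto_rpow_atTop (by norm_num)).eventually_ge_atTop _
  filter_upwards [h1, eventually_gt_atTop 0] with x hx hx0
  have e1 : (Dat.R x) ^ 2 = x ^ (1 / 50 : ℝ) := by
    unfold Dat.R
    rw [← Real.rpow_natCast, ← Real.rpow_mul hx0.le]
    norm_num
  have e2 : x ^ (1 / 20 : ℝ) = x ^ (3 / 100 : ℝ) * x ^ (1 / 50 : ℝ) := by
    rw [← Real.rpow_add hx0]
    norm_num
  rw [e1, e2]
  exact mul_le_mul_of_nonneg_right hx (Real.rpow_nonneg hx0.le _)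

theorem asmB_P (x : ℝ) (hx : 1 ≤ x) (k : PIdx δ.W (Dat.R x)) :
    (δ.P x k : ℝ) ≤ x ^ (1 / 100 : ℝ) := by
  have h1 := (Finset.mem_Icc.mp (Finset.mem_filter.mp k.2).1).2
  have h2 : ((k.1 : ℕ) : ℝ) ≤ (⌊Dat.R x⌋₊ : ℝ) := by exact_mod_cast h1
  exact h2.trans (Nat.floor_le (Real.rpow_nonneg (by linarith) _))

/-- the final real inequality of the assembly -/
theorem asmB_fin (J : ℕ) (x L ph W tau l2 A B Pi0 XXx S1 S2 Qm MMx : ℝ) (hx1 : 1 ≤ x) (hL2 : 2 ≤ L)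
    (hph : 1 ≤ ph) (hW : 0 < W) (hxphi : 320 * ph ≤ x) (htau : 0 < tau) (hA1 : 1 ≤ A) (hB1 : 1 ≤ B)
    (hPi : 1 ≤ Pi0) (hXX : XXx ≤ 120 * x) (hS1b : S1 ≤ 2 * (XXx / W) * (B * Pi0))
    (hAB : (15 / 100) * l2 ^ 2 * (ph / W * tau * (L / 100)) * B ≤ A ^ 2)
    (hmm : x * L ^ J / 20 ≤ MMx) (hqm : (1 / 4) * (A ^ 2 * Pi0) ≤ Qm)
    (hmain : MMx / ph * Qm ≤ 100 * L ^ (J + 1) * S2 + 1 + x * L ^ J / (320 * ph)) :
    (1 / 10 ^ 10) * (tau * l2 ^ 2) * S1 ≤ S2 := by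
  have hx0 : 0 < x := by linarith
  have hL0 : 0 < L := by linarith
  have hp0 : 0 < ph := by linarith
  have hB0 : 0 < B := by linarith
  have hPi0 : 0 < Pi0 := by linarith
  have hT1 : 1 ≤ A ^ 2 * Pi0 := by
    have : 1 ≤ A ^ 2 := one_le_pow₀ hA1
    nlinarith
  have hLJ : 1 ≤ L ^ J := one_le_pow₀ (by linarith)
  set T := A ^ 2 * Pi0 with hT
  set U := x * L ^ J / (320 * ph) with hU
  have hU0 : 0 < U := by positivity
  have hU1 : 1 ≤ U := by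
    rw [hU, le_div_iff₀ (by positivity)]
    nlinarith
  have e1 : 4 * (U * T) ≤ MMx / ph * Qm := by
    have e1 : x * L ^ J / 20 / ph ≤ MMx / ph := div_le_div_of_nonneg_right hmm hp0.le
    have e3 : 0 ≤ (1 / 4) * T := by linarith
    have e4 : 0 ≤ MMx / ph := le_trans (by positivity) e1
    calc 4 * (U * T) = (x * L ^ J / 20 / ph) * ((1 / 4) * T) := by
          rw [hU]; field_simp; ring
      _ ≤ MMx / ph * Qm := mul_le_mul e1 hqm e3 e4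
  have e2 : U ≤ U * T := by nlinarith
  have e3 : 2 * (U * T) ≤ 100 * L ^ (J + 1) * S2 := by linarith
  have hS2' : x * T / (16000 * ph * L) ≤ S2 := by
    have e4 : x * T / (16000 * ph * L) = (2 * (U * T)) / (100 * L ^ (J + 1)) := by
      rw [hU, pow_succ]; field_simp; ring
    rw [e4, div_le_iff₀ (by positivity)]
    linarith
  refine le_trans ?_ hS2'
  have hX0 : 0 ≤ x / W * (B * Pi0) := by positivity
  have h2 : S1 ≤ 240 * (x / W * (B * Pi0)) := by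
    refine hS1b.trans ?_
    have : XXx / W ≤ 120 * x / W := div_le_div_of_nonneg_right hXX hW.le
    calc 2 * (XXx / W) * (B * Pi0) ≤ 2 * (120 * x / W) * (B * Pi0) := by
          apply mul_le_mul_of_nonneg_right _ (by positivity)
          linarith
      _ = _ := by ring
  have h3 : (1 / 10 ^ 10) * (tau * l2 ^ 2) * S1 ≤
      (1 / 10 ^ 10) * (tau * l2 ^ 2) * (240 * (x / W * (B * Pi0))) :=
    mul_le_mul_of_nonneg_left h2 (by positivity)
  refine h3.trans ?_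
  have h4 : x * (((15 / 100) * l2 ^ 2 * (ph / W * tau * (L / 100)) * B) * Pi0) /
      (16000 * ph * L) ≤ x * T / (16000 * ph * L) := by
    apply div_le_div_of_nonneg_right _ (by positivity)
    apply mul_le_mul_of_nonneg_left _ hx0.le
    rw [hT]
    exact mul_le_mul_of_nonneg_right hAB hPi0.le
  refine le_trans ?_ h4
  have e5 : x * (((15 / 100) * l2 ^ 2 * (ph / W * tau * (L / 100)) * B) * Pi0) /
      (16000 * ph * L) = (15 / (16 * 10 ^ 7)) * ((tau * l2 ^ 2) * (x / W * (B * Pi0))) := by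
    field_simp; ring
  have e6 : (1 / 10 ^ 10) * (tau * l2 ^ 2) * (240 * (x / W * (B * Pi0))) =
      (240 / 10 ^ 10) * ((tau * l2 ^ 2) * (x / W * (B * Pi0))) := by ring
  rw [e5, e6]
  apply mul_le_mul_of_nonneg_right (by norm_num) (by positivity)

theorem S2_lower (m : I) : ∀ᶠ x : ℝ in atTop,
    (1 / 10 ^ 10) * (δ.tau m * (δ.l m + 2) ^ 2) * δ.S1 x ≤
      ∑ N ∈ (δ.WinB x).filter (fun N => (N + δ.h m).Prime), δ.om x N := by
  obtain ⟨J, hJ⟩ := bv (18 * (Fintype.card I) ^ 4 + 4 * Fintype.card I + 4)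
  have hW0 : 0 < δ.W := δ.W_pos
  have hphi : 0 < δ.W.totient := Nat.totient_pos.mpr hW0
  have hphiR : (1 : ℝ) ≤ (δ.W.totient : ℝ) := by exact_mod_cast hphi
  have hWR : (0 : ℝ) < (δ.W : ℝ) := by exact_mod_cast hW0
  have eL : ∀ᶠ x : ℝ in atTop,
      320 * 4 ^ (Fintype.card I) * (δ.W.totient : ℝ) ≤ Real.log x :=
    Real.tendsto_log_atTop.eventually_ge_atTop _
  have eL2 : ∀ᶠ x : ℝ in atTop, 2 ≤ Real.log x :=
    Real.tendsto_log_atTop.eventually_ge_atTop _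
  filter_upwards [hJ, low J I δ.h δ.W δ.b hW0 m, sum_lam_le δ, par_g δ, par_C δ, par_AB δ,
    S1_bounds δ, wN_mass, mm_lower J, eL, eL2, asmB_W δ.W, eventually_ge_atTop 1,
    eventually_ge_atTop (320 * (δ.W.totient : ℝ))]
    with x hJx hlow hlam hg hC hAB hS1 hmass hmm hL hL2 hWx hx1 hxphi
  obtain ⟨E, hE0, hE1, hE2, hE3⟩ := hJx
  obtain ⟨hlam1, hlam2, hlam3⟩ := hlam
  obtain ⟨hR1, hg0, hg1, hganti, hgone, hgR⟩ := hg
  obtain ⟨hP1, hP2, hP3, hP4⟩ := par_P δ x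
  have hx0 : 0 < x := by linarith
  set L := Real.log x with hLdef
  have hL0 : 0 < L := by linarith
  have hP : ∀ k, (δ.P x k).Prime := Pv_prime _ _
  have hPpos : ∀ k, 0 < δ.P x k := fun k => (hP k).pos
  have hinj : Function.Injective (δ.P x) := Pv_inj _ _
  have hPW : ∀ k, ¬ δ.P x k ∣ δ.W := Pv_not_dvd _ _
  have hlogR : Real.log (Dat.R x) = L / 100 := by
    unfold Dat.R
    rw [Real.log_rpow hx0]
    ring
  -- size of the moduli
  have hoff : ∀ d, offL m (δ.lam x) d ≠ 0 → (tot (δ.P x) d : ℝ) ≤ Dat.R x := by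
    intro d hd
    apply hlam2
    intro h0
    apply hd
    unfold offL
    split_ifs
    · exact h0
    · rfl
  have hmod : ∀ d e, offL m (δ.lam x) d ≠ 0 → offL m (δ.lam x) e ≠ 0 →
      ((δ.W * totJ (δ.P x) d e : ℕ) : ℝ) ≤ x ^ (1 / 20 : ℝ) := by
    intro d e hd he
    have h1 : (totJ (δ.P x) d e : ℝ) ≤ (tot (δ.P x) d : ℝ) * (tot (δ.P x) e : ℝ) := by
      exact_mod_cast totJ_le_mul hPpos d e
    have h2 : (tot (δ.P x) d : ℝ) * (tot (δ.P x) e : ℝ) ≤ (Dat.R x) ^ 2 := by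
      rw [sq]
      exact mul_le_mul (hoff d hd) (hoff e he) (Nat.cast_nonneg _) (by linarith)
    calc ((δ.W * totJ (δ.P x) d e : ℕ) : ℝ) = (δ.W : ℝ) * (totJ (δ.P x) d e : ℝ) := by
          push_cast; ring
      _ ≤ (δ.W : ℝ) * (Dat.R x) ^ 2 :=
          mul_le_mul_of_nonneg_left (h1.trans h2) hWR.le
      _ ≤ _ := hWx
  -- the prime sum
  have hps := prime_sig (δ.P x) hP hinj δ.h (par_diff δ x) δ.W δ.b hW0 hPW m (δ.b_cop m) (Wp x)
    (vp J x) (MM J x) E (δ.lam x) hE0 (by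
      intro d e hd he a ha
      exact hE1 _ (Nat.mul_pos hW0 (totJ_pos' hPpos d e)) (hmod d e hd he) a ha)
  have herr := err_sum (δ.P x) hP hinj δ.W hW0 hPW (offL m (δ.lam x))
    ((1 + L) ^ Fintype.card I) (Dat.R x) (x ^ (1 / 20 : ℝ)) (x * L ^ (J + 2))
    (x * L ^ J / L ^ (18 * (Fintype.card I) ^ 4 + 4 * Fintype.card I + 4)) hR1.le (by
      intro d
      unfold offL
      split_ifs
      · exact hlam1 d
      · rw [abs_zero]; positivity) hoff E hE0 (by positivity) hWx hE2 hE3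
  rw [hlogR] at herr
  have herr2 := asmB_err (Fintype.card I) J L x (δ.W.totient : ℝ) hL2 hx0 hphiR hL
  have hlow' := hlow (PIdx δ.W (Dat.R x)) (δ.P x) (δ.lam x) hP (asmB_P δ x hx1) (by
    refine hlam3.trans ?_
    calc x ^ (1 / 50 : ℝ) ≤ x ^ (1 : ℝ) :=
          Real.rpow_le_rpow_of_exponent_le hx1 (by norm_num)
      _ = x := Real.rpow_one x)
  have hqm := qm_lower (δ.P x) hP hinj hP1 (Dat.R x) hR1 (δ.g x) hg0 hganti hgone hgR hP2 hP3 hC m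
  change (1 / 4) * (δ.A x m) ^ 2 * ∏ i ∈ univ.erase m, δ.B x i ≤
    mform (fun k => (1 : ℝ) / (δ.P x k - 1)) (offL m (δ.lam x)) at hqm
  have hlow2 : ∑ p ∈ (Wp x).filter (fun p : ℕ => (δ.W : ℤ) ∣ (p : ℤ) - (δ.b + δ.h m)),
      vp J x p * (∑ d ∈ univ.filter (fun d => dvm (δ.P x) δ.h m d p), offL m (δ.lam x) d) ^ 2 - 1 ≤
      100 * L ^ (J + 1) * ∑ N ∈ (δ.WinB x).filter (fun N => (N + δ.h m).Prime), δ.om x N := hlow'
  obtain ⟨hA1, hB1, hAL, hAB1, hAB2⟩ := hAB m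
  have hB1' : ∀ i, 1 ≤ δ.B x i := fun i => (hAB i).2.1
  have hPi : 1 ≤ ∏ i ∈ univ.erase m, δ.B x i := by
    calc (1 : ℝ) = ∏ i ∈ univ.erase m, (1 : ℝ) := by simp
      _ ≤ ∏ i ∈ univ.erase m, δ.B x i :=
        Finset.prod_le_prod (fun _ _ => zero_le_one) (fun i _ => hB1' i)
  have hprod : ∏ i, δ.B x i = δ.B x m * ∏ i ∈ univ.erase m, δ.B x i :=
    (Finset.mul_prod_erase univ (δ.B x) (Finset.mem_univ m)).symm
  rw [hprod] at hS1
  have hS1b := hS1.2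
  have hXX : XX x ≤ 120 * x := hmass.2
  have hAB1' : (15 / 100) * (δ.l m + 2) ^ 2 * ((δ.W.totient : ℝ) / δ.W * δ.tau m * (L / 100)) *
      δ.B x m ≤ δ.A x m ^ 2 := by
    rw [← hlogR]; exact hAB1
  have hτ : 0 < δ.tau m := δ.tau_pos m
  have herr3 := (hps.trans herr).trans herr2
  have h1 := (abs_le.mp herr3).1
  have h1' : ∑ p ∈ (Wp x).filter (fun p : ℕ => (δ.W : ℤ) ∣ (p : ℤ) - (δ.b + δ.h m)),
      vp J x p * (∑ d ∈ univ.filter (fun d => dvm (δ.P x) δ.h m d p), offL m (δ.lam x) d) ^ 2 ≤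
      100 * L ^ (J + 1) * (∑ N ∈ (δ.WinB x).filter (fun N => (N + δ.h m).Prime), δ.om x N) + 1 := by
    linarith [hlow2]
  have hq : (1 / 4) * (δ.A x m ^ 2 * ∏ i ∈ univ.erase m, δ.B x i) ≤
      mform (fun k => (1 : ℝ) / (δ.P x k - 1)) (offL m (δ.lam x)) := by linarith [hqm]
  have hmn : MM J x / (δ.W.totient : ℝ) *
      mform (fun k => (1 : ℝ) / (δ.P x k - 1)) (offL m (δ.lam x)) ≤
      100 * L ^ (J + 1) * (∑ N ∈ (δ.WinB x).filter (fun N => (N + δ.h m).Prime), δ.om x N) + 1 +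
        x * L ^ J / (320 * (δ.W.totient : ℝ)) := by linarith [h1, h1']
  exact asmB_fin J x L (δ.W.totient : ℝ) δ.W (δ.tau m) ((δ.l m : ℝ) + 2) (δ.A x m) (δ.B x m) _
    (XX x) _ _ _ _ hx1 hL2 hphiR hWR hxphi hτ hA1 hB1 hPi hXX hS1b hAB1' hmm hq hmn

end Pool.Agent.H21.MT
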