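import Pool.Agent.H21.MT.Sieve

/-!
The sieve with a prescribed residue class of `N`.
-/

set_option linter.unusedSectionVars false

namespace Pool.Agent.H21.MT

open Finset Filter

theorem dat_existsR {I : Type} [Fintype I] [DecidableEq I] [Nonempty I] (h : I → ℕ)
    (hinj : Function.Injective h)
    (hadm : ∀ p : ℕ, p.Prime → ∃ a : ℕ, ∀ i, ¬ p ∣ a + h i) (tau : I → ℝ) (l : I → ℕ)
    (h1 : ∀ i, 0 < tau i) (h2 : ∀ i, (2 : ℝ) ^ l i * tau i ≤ 1 / 2)
    (h3 : ∑ i, ((l i : ℝ) + 1) * tau i ≤ 1 / 10) (Q b₀ : ℕ) (hQ : 0 < Q)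
    (hb₀ : ∀ i, Nat.Coprime (b₀ + h i) Q) :
    ∃ δ : Dat I, δ.h = h ∧ δ.tau = tau ∧ δ.l = l ∧ Q ∣ δ.W ∧ δ.b ≡ b₀ [MOD Q] := by
  classical
  obtain ⟨δ, e1, e2, e3⟩ := dat_exists h hinj hadm tau l h1 h2 h3
  -- the part of `W` prime to `Q`
  set W1 : ℕ := ∏ p ∈ δ.W.primeFactors.filter (fun p => ¬ p ∣ Q), p with hW1
  have hW1pos : 0 < W1 := by
    apply Finset.prod_pos
    intro p hp
    exact (Nat.prime_of_mem_primeFactors (Finset.mem_filter.1 hp).1).pos
  have hcop : Nat.Coprime Q W1 := by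
    apply Nat.Coprime.prod_right
    intro p hp
    have hp1 := Nat.prime_of_mem_primeFactors (Finset.mem_filter.1 hp).1
    exact ((Nat.Prime.coprime_iff_not_dvd hp1).2 (Finset.mem_filter.1 hp).2).symm
  obtain ⟨b, hb1, hb2⟩ := Nat.chineseRemainder hcop b₀ δ.b
  have hdvd : ∀ p : ℕ, p.Prime → p ∣ δ.W → p ∣ Q * W1 := by
    intro p hp hpW
    by_cases hpQ : p ∣ Q
    · exact hpQ.mul_right _
    · refine Dvd.dvd.mul_left ?_ _
      exact Finset.dvd_prod_of_mem _ (Finset.mem_filter.2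
        ⟨Nat.mem_primeFactors.2 ⟨hp, hpW, δ.W_pos.ne'⟩, hpQ⟩)
  have hW1dvd : W1 ∣ δ.W := by
    refine dvd_trans (Finset.prod_dvd_prod_of_subset _ _ _ (Finset.filter_subset _ _)) ?_
    exact Nat.prod_primeFactors_dvd _
  refine ⟨{ h := h, tau := tau, l := l, W := Q * W1, D := δ.D, b := b, tau_pos := h1, l_tau := h2,
            budget := h3, W_pos := Nat.mul_pos hQ hW1pos, D_large := δ.D_large,
            D_dvd := fun p hp hpD => hdvd p hp (δ.D_dvd p hp hpD), diff_dvd := ?_,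
            b_cop := ?_ }, rfl, rfl, rfl, Dvd.intro _ rfl, hb1⟩
  · intro i j hij p hp hpd
    refine hdvd p hp (δ.diff_dvd i j hij p hp ?_)
    rw [e1]
    exact hpd
  · intro i
    apply Nat.Coprime.mul_right
    · have h5 : b + h i ≡ b₀ + h i [MOD Q] := hb1.add_right (h i)
      have h6 := h5.gcd_eq
      rw [Nat.Coprime, h6]
      exact hb₀ i
    · have h5 : b + h i ≡ δ.b + h i [MOD W1] := hb2.add_right (h i)
      have h6 := h5.gcd_eq
      rw [Nat.Coprime, h6]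
      have h7 := δ.b_cop i
      rw [e1] at h7
      exact Nat.Coprime.coprime_dvd_right hW1dvd h7

/-- The sieve with `N ≡ b₀` modulo `Q`. -/
theorem sieveR {I : Type} [Fintype I] [DecidableEq I] [Nonempty I] (h : I → ℕ)
    (hinj : Function.Injective h)
    (hadm : ∀ p : ℕ, p.Prime → ∃ a : ℕ, ∀ i, ¬ p ∣ a + h i) (tau : I → ℝ) (l : I → ℕ)
    (h1 : ∀ i, 0 < tau i) (h2 : ∀ i, (2 : ℝ) ^ l i * tau i ≤ 1 / 2)
    (h3 : ∑ i, ((l i : ℝ) + 1) * tau i ≤ 1 / 10) (Q b₀ : ℕ) (hQ : 0 < Q)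
    (hb₀ : ∀ i, Nat.Coprime (b₀ + h i) Q) (N0 : ℕ) :
    ∃ (T : Finset ℕ) (μ : ℕ → ℝ), (∀ N ∈ T, N0 < N ∧ N ≡ b₀ [MOD Q]) ∧ (∀ N, 0 ≤ μ N) ∧
      ∑ N ∈ T, μ N = 1 ∧
      (∀ m, (1 / 10 ^ 10) * (tau m * (l m + 2) ^ 2) ≤
        ∑ N ∈ T.filter (fun N => (N + h m).Prime), μ N) ∧
      (∀ S : Finset I, S.Nonempty →
        ∑ N ∈ T.filter (fun N => ∀ j ∈ S, (N + h j).Prime), μ N ≤
          32 * ∏ j ∈ S, ((S.card : ℝ) * (tau j * (l j + 2) ^ 2))) := by
  obtain ⟨δ, rfl, rfl, rfl, hQW, hbQ⟩ := dat_existsR h hinj hadm tau l h1 h2 h3 Q b₀ hQ hb₀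
  have e1 := S1_bounds δ
  have e2 := par_AB δ
  have e3 := wN_mass
  have e4 : ∀ᶠ x : ℝ in atTop, ∀ m : I,
      (1 / 10 ^ 10) * (δ.tau m * (δ.l m + 2) ^ 2) * δ.S1 x ≤
        ∑ N ∈ (δ.WinB x).filter (fun N => (N + δ.h m).Prime), δ.om x N :=
    eventually_all.2 fun m => S2_lower δ m
  have e5 : ∀ᶠ x : ℝ in atTop, ∀ S : Finset I, S.Nonempty →
      ∑ N ∈ (δ.WinB x).filter (fun N => ∀ j ∈ S, (N + δ.h j).Prime), δ.om x N ≤
        32 * (∏ j ∈ S, ((S.card : ℝ) * (δ.tau j * (δ.l j + 2) ^ 2))) * δ.S1 x := by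
    refine eventually_all.2 fun S => ?_
    by_cases hS : S.Nonempty
    · exact (SS_upper δ S hS).mono fun x hx _ => hx
    · exact Eventually.of_forall fun x hx => absurd hx hS
  have e6 : ∀ᶠ x : ℝ in atTop, (N0 : ℝ) ^ 2 ≤ x ∧ 0 < x :=
    (eventually_ge_atTop _).and (eventually_gt_atTop 0)
  obtain ⟨x, hx1, hx2, hx3, hx4, hx5, hx6, hx7⟩ :=
    (e1.and (e2.and (e3.and (e4.and (e5.and e6))))).exists
  have hXX : 0 < XX x := by
    have : x / 8 ≤ XX x := hx3.1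
    linarith
  have hW : (0 : ℝ) < δ.W := by exact_mod_cast δ.W_pos
  have hB : (0 : ℝ) < ∏ i, δ.B x i :=
    Finset.prod_pos fun i _ => lt_of_lt_of_le one_pos (hx2 i).2.1
  have hS1 : 0 < δ.S1 x := by
    refine lt_of_lt_of_le ?_ hx1.1
    positivity
  have hom : ∀ N, 0 ≤ δ.om x N := fun N =>
    mul_nonneg (wN_pos x N).le (sq_nonneg _)
  refine ⟨δ.WinB x, fun N => δ.om x N / δ.S1 x, ?_, ?_, ?_, ?_, ?_⟩
  · intro N hN
    have h1 : N ∈ Win x := (Finset.mem_filter.1 hN).1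
    have h2 : ⌊Real.sqrt x⌋₊ < N := (Finset.mem_Ioc.1 h1).1
    refine ⟨lt_of_le_of_lt ?_ h2, ?_⟩
    · apply Nat.le_floor
      exact Real.le_sqrt_of_sq_le hx6
    · have h3 : N ≡ δ.b [MOD δ.W] := (Finset.mem_filter.1 hN).2
      exact (h3.of_dvd hQW).trans hbQ
  · intro N
    exact div_nonneg (hom N) hS1.le
  · rw [← Finset.sum_div]
    exact div_self hS1.ne'
  · intro m
    rw [← Finset.sum_div, le_div_iff₀ hS1]
    exact hx4 m
  · intro S hS
    rw [← Finset.sum_div, div_le_iff₀ hS1]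
    exact hx5 S hS

/-- Killing finitely many positions: a residue class in which all `N + g`, `g ∈ K`, are composite. -/
theorem kill (K H : Finset ℕ) (hKH : Disjoint K H) : ∃ Q b₀ : ℕ, 0 < Q ∧
    (∀ a ∈ H, Nat.Coprime (b₀ + a) Q) ∧
    ∀ N : ℕ, Q < N → N ≡ b₀ [MOD Q] → ∀ g ∈ K, ¬ (N + g).Prime := by
  classical
  induction K using Finset.induction_on with
  | empty => exact ⟨1, 0, one_pos, fun a _ => Nat.coprime_one_right _, by simp⟩
  | insert g K hgK ih =>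
    rw [Finset.disjoint_insert_left] at hKH
    obtain ⟨Q, b₀, hQ, hcop, hcomp⟩ := ih hKH.2
    -- a new prime
    obtain ⟨q, hq, hqp⟩ := Nat.exists_infinite_primes (Q + g + H.sup id + 1)
    have hqQ : Nat.Coprime Q q := by
      rw [Nat.coprime_comm, Nat.Prime.coprime_iff_not_dvd hqp]
      intro hd
      exact absurd (Nat.le_of_dvd hQ hd) (by omega)
    obtain ⟨b, hb1, hb2⟩ := Nat.chineseRemainder hqQ b₀ (q - g)
    refine ⟨Q * q, b, Nat.mul_pos hQ hqp.pos, ?_, ?_⟩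
    · intro a ha
      apply Nat.Coprime.mul_right
      · have h5 : b + a ≡ b₀ + a [MOD Q] := hb1.add_right a
        rw [Nat.Coprime, h5.gcd_eq]
        exact hcop a ha
      · have haH : a ≤ H.sup id := Finset.le_sup (f := id) ha
        have hag : a ≠ g := fun h => hKH.1 (h ▸ ha)
        rw [Nat.coprime_comm, Nat.Prime.coprime_iff_not_dvd hqp]
        intro hdiv
        have h5 : b + a ≡ (q - g) + a [MOD q] := hb2.add_right a
        have h6 : q ∣ (q - g) + a := (h5.dvd_iff dvd_rfl).1 hdiv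
        rcases lt_or_gt_of_ne hag with h7 | h7
        · have h8 : (q - g) + a < q := by omega
          have h9 : 0 < (q - g) + a := by omega
          exact absurd (Nat.le_of_dvd h9 h6) (by omega)
        · have h8 : (q - g) + a = q + (a - g) := by omega
          rw [h8] at h6
          have h6' : q ∣ a - g := (Nat.dvd_add_right dvd_rfl).1 h6
          have h9 : 0 < a - g := by omega
          exact absurd (Nat.le_of_dvd h9 h6') (by omega)
    · intro N hN hNb g' hg'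
      rw [Finset.mem_insert] at hg'
      have hQ1 : Q < N := lt_of_le_of_lt (Nat.le_mul_of_pos_right Q hqp.pos) hN
      have hq1 : q < N := lt_of_le_of_lt (Nat.le_mul_of_pos_left q hQ) hN
      rcases hg' with rfl | hg'
      · have h5 : N ≡ q - g' [MOD q] := (hNb.of_dvd (Dvd.intro_left _ rfl)).trans hb2
        have h6 : N + g' ≡ (q - g') + g' [MOD q] := h5.add_right g'
        have h7 : (q - g') + g' = q := by omega
        rw [h7] at h6
        have h8 : q ∣ N + g' := (h6.dvd_iff dvd_rfl).2 dvd_rfl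
        intro hp
        have h9 := (Nat.prime_dvd_prime_iff_eq hqp hp).1 h8
        omega
      · exact hcomp N hQ1 ((hNb.of_dvd (Dvd.intro _ rfl)).trans hb1) g' hg'

end Pool.Agent.H21.MT
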