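import Mathlib

/-!
[H21 MT PZ]  Second moment (Paley-Zygmund) for the number of primes in a block.

Proof.  `c = 10^{-10}`, `X N = #{i ∈ S | ev i N}`, `a = ∑ μ X = ∑_{i ∈ S} μ(ev i) ≥ c n θ = c Y`,
`n = |S|`, `Y = n θ ≥ 1`.  `∑ μ X^2 = a + ∑_{i ≠ j} μ(ev i ∧ ev j) ≤ a + 128 Y^2 ≤ a^2/c +
128 a^2/c^2 ≤ 129 a^2/c^2` (as `a ≥ c`, so `a ≤ a^2/c`).
`a = ∑_{X < a/2} μ X + ∑_{X ≥ a/2} μ X ≤ a/2 + (∑ μ X^2)^{1/2} μ(X ≥ a/2)^{1/2}`, hence
`μ(X ≥ a/2) ≥ (a^2/4)/(129 a^2/c^2) = c^2/516 ≥ 10^{-23}`, and `a/2 ≥ (c/2) Y`.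
-/

namespace Pool.Agent.H21.MT

open Finset

theorem pz {I : Type} [DecidableEq I] (T : Finset ℕ) (μ : ℕ → ℝ) (hμ : ∀ N, 0 ≤ μ N)
    (h1 : ∑ N ∈ T, μ N = 1) (S : Finset I) (ev : I → ℕ → Prop) [∀ i, DecidablePred (ev i)]
    (θ : ℝ) (hθ : 0 ≤ θ) (hY : 1 ≤ S.card * θ)
    (hlow : ∀ i ∈ S, (1 / 10 ^ 10) * θ ≤ ∑ N ∈ T.filter (fun N => ev i N), μ N)
    (hup : ∀ i ∈ S, ∀ j ∈ S, i ≠ j →
      ∑ N ∈ T.filter (fun N => ev i N ∧ ev j N), μ N ≤ 128 * θ ^ 2) :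
    (1 / 10 ^ 23 : ℝ) ≤ ∑ N ∈ T.filter (fun N => (1 / 10 ^ 10) / 2 * (S.card * θ) ≤
      ((S.filter (fun i => ev i N)).card : ℝ)), μ N := by
  set X : ℕ → ℝ := fun N => ((S.filter (fun i => ev i N)).card : ℝ) with hX
  have hX0 : ∀ N, 0 ≤ X N := fun N => Nat.cast_nonneg _
  have hXs : ∀ N, X N = ∑ i ∈ S, (if ev i N then (1 : ℝ) else 0) := by
    intro N
    simp only [hX]
    rw [Finset.card_filter]
    push_cast
    rfl
  set n : ℝ := (S.card : ℝ) with hn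
  have hn0 : 0 ≤ n := Nat.cast_nonneg _
  -- first moment
  set a : ℝ := ∑ N ∈ T, μ N * X N with ha
  have ha1 : a = ∑ i ∈ S, ∑ N ∈ T.filter (fun N => ev i N), μ N := by
    rw [ha]
    simp_rw [hXs, Finset.mul_sum]
    rw [Finset.sum_comm]
    refine Finset.sum_congr rfl fun i _ => ?_
    rw [Finset.sum_filter]
    refine Finset.sum_congr rfl fun N _ => ?_
    split_ifs <;> simp
  have ha2 : (1 / 10 ^ 10) * (n * θ) ≤ a := by
    rw [ha1]
    calc (1 / 10 ^ 10) * (n * θ) = ∑ _i ∈ S, (1 / 10 ^ 10) * θ := by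
          rw [Finset.sum_const, nsmul_eq_mul]
          ring
      _ ≤ _ := Finset.sum_le_sum hlow
  -- second moment
  set M : ℝ := ∑ N ∈ T, μ N * X N ^ 2 with hM
  have hM1 : M = ∑ i ∈ S, ∑ j ∈ S, ∑ N ∈ T.filter (fun N => ev i N ∧ ev j N), μ N := by
    rw [hM]
    have h2 : ∀ N ∈ T, μ N * X N ^ 2 =
        ∑ i ∈ S, ∑ j ∈ S, (if ev i N ∧ ev j N then μ N else 0) := by
      intro N _
      rw [sq, hXs, Finset.sum_mul_sum, Finset.mul_sum]
      refine Finset.sum_congr rfl fun i _ => ?_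
      rw [Finset.mul_sum]
      refine Finset.sum_congr rfl fun j _ => ?_
      by_cases hi : ev i N <;> by_cases hj : ev j N <;> simp [hi, hj]
    rw [Finset.sum_congr rfl h2, Finset.sum_comm]
    refine Finset.sum_congr rfl fun i _ => ?_
    rw [Finset.sum_comm]
    refine Finset.sum_congr rfl fun j _ => ?_
    rw [Finset.sum_filter]
  have hM2 : M ≤ a + 128 * (n * θ) ^ 2 := by
    rw [hM1]
    have h3 : ∀ i ∈ S, ∑ j ∈ S, ∑ N ∈ T.filter (fun N => ev i N ∧ ev j N), μ N ≤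
        (∑ N ∈ T.filter (fun N => ev i N), μ N) + n * (128 * θ ^ 2) := by
      intro i hi
      have h4 : ∀ j ∈ S, ∑ N ∈ T.filter (fun N => ev i N ∧ ev j N), μ N ≤
          (if j = i then ∑ N ∈ T.filter (fun N => ev i N), μ N else 0) + 128 * θ ^ 2 := by
        intro j hj
        by_cases hij : j = i
        · subst hij
          rw [if_pos rfl]
          simp only [and_self]
          have : 0 ≤ 128 * θ ^ 2 := by positivity
          linarith
        · rw [if_neg hij, zero_add]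
          exact hup i hi j hj (fun h => hij h.symm)
      refine (Finset.sum_le_sum h4).trans (le_of_eq ?_)
      rw [Finset.sum_add_distrib, Finset.sum_const, nsmul_eq_mul, Finset.sum_ite_eq' S i,
        if_pos hi]
    refine (Finset.sum_le_sum h3).trans (le_of_eq ?_)
    rw [Finset.sum_add_distrib, ← ha1, Finset.sum_const, nsmul_eq_mul]
    ring
  -- the event
  set B : Finset ℕ := T.filter (fun N => (1 / 10 ^ 10) / 2 * (n * θ) ≤ X N) with hB
  set pr : ℝ := ∑ N ∈ B, μ N with hpr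
  have hpr0 : 0 ≤ pr := Finset.sum_nonneg fun N _ => hμ N
  set A : ℝ := ∑ N ∈ B, μ N * X N with hA
  have hsplit : a = A + ∑ N ∈ T.filter (fun N => ¬ ((1 / 10 ^ 10) / 2 * (n * θ) ≤ X N)),
      μ N * X N := by
    rw [ha, hA, hB, Finset.sum_filter_add_sum_filter_not]
  have hsmall : ∑ N ∈ T.filter (fun N => ¬ ((1 / 10 ^ 10) / 2 * (n * θ) ≤ X N)),
      μ N * X N ≤ (1 / 10 ^ 10) / 2 * (n * θ) := by
    calc ∑ N ∈ T.filter (fun N => ¬ ((1 / 10 ^ 10) / 2 * (n * θ) ≤ X N)), μ N * X N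
        ≤ ∑ N ∈ T.filter (fun N => ¬ ((1 / 10 ^ 10) / 2 * (n * θ) ≤ X N)),
          μ N * ((1 / 10 ^ 10) / 2 * (n * θ)) := by
          refine Finset.sum_le_sum fun N hN => ?_
          have h5 := (Finset.mem_filter.mp hN).2
          rw [not_le] at h5
          exact mul_le_mul_of_nonneg_left h5.le (hμ N)
      _ ≤ ∑ N ∈ T, μ N * ((1 / 10 ^ 10) / 2 * (n * θ)) := by
          refine Finset.sum_le_sum_of_subset_of_nonneg (Finset.filter_subset _ _) fun N _ _ => ?_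
          exact mul_nonneg (hμ N) (by positivity)
      _ = (1 / 10 ^ 10) / 2 * (n * θ) := by
          rw [← Finset.sum_mul, h1, one_mul]
  have hAa : a / 2 ≤ A := by
    have h6 : (1 / 10 ^ 10) / 2 * (n * θ) ≤ a / 2 := by linarith
    linarith
  have hCS : A ^ 2 ≤ pr * M := by
    have h7 : A ^ 2 ≤ pr * ∑ N ∈ B, μ N * X N ^ 2 := by
      refine Finset.sum_sq_le_sum_mul_sum_of_sq_le_mul B (fun N _ => hμ N)
        (fun N _ => mul_nonneg (hμ N) (sq_nonneg _)) fun N _ => le_of_eq ?_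
      ring
    refine h7.trans (mul_le_mul_of_nonneg_left ?_ hpr0)
    exact Finset.sum_le_sum_of_subset_of_nonneg (Finset.filter_subset _ _)
      fun N _ _ => mul_nonneg (hμ N) (sq_nonneg _)
  -- conclusion
  have hapos : 1 / 10 ^ 10 ≤ a := by
    refine le_trans ?_ ha2
    linarith
  have ha0 : 0 < a := lt_of_lt_of_le (by norm_num) hapos
  have hY2 : n * θ ≤ 10 ^ 10 * a := by
    linarith
  have hYnn : 0 ≤ n * θ := by positivity
  have hY3 : (n * θ) ^ 2 ≤ (10 ^ 10 * a) ^ 2 := pow_le_pow_left₀ hYnn hY2 2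
  have haa : a ≤ 10 ^ 10 * a ^ 2 := by nlinarith
  have hMa : M ≤ 129 * 10 ^ 20 * a ^ 2 := by nlinarith
  have h8 : (a / 2) ^ 2 ≤ pr * (129 * 10 ^ 20 * a ^ 2) :=
    (pow_le_pow_left₀ (by positivity) hAa 2).trans (hCS.trans
      (mul_le_mul_of_nonneg_left hMa hpr0))
  have h9 : a ^ 2 * (1 / 4) ≤ a ^ 2 * (pr * (129 * 10 ^ 20)) := by linarith
  have h10 : 1 / 4 ≤ pr * (129 * 10 ^ 20) := le_of_mul_le_mul_left h9 (by positivity)
  have h11 : (1 / 10 ^ 23 : ℝ) ≤ pr := by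
    have : (1 / 10 ^ 23 : ℝ) ≤ (1 / 4) / (129 * 10 ^ 20) := by norm_num
    refine this.trans ?_
    rw [div_le_iff₀ (by norm_num)]
    exact h10
  exact h11

end Pool.Agent.H21.MT
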