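import Mathlib

/-!
[H21 MT LIM]  A limit of measures and an ultrafilter containing infinitely many of the events.

Proof.  Fix a nonprincipal ultrafilter `U` on `ℕ` (`Filter.hyperfilter ℕ`).  For `X : Set ℕ` put
`p X = lim_U ∑ N ∈ (T n).filter (· ∈ X), μ n N ∈ [0,1]` (compactness of `[0,1]`).
`p` is monotone, `p univ = 1`, `p X = 0` for finite `X` (for `n`
large `T n` avoids `X`), and `p (E j) ≥ δ` for all `j`.
Call `X` rich if `∃ ε > 0, ∃ᶠ j in atTop, ε ≤ p (E j ∩ X)`.  `univ` is rich.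
CLAIM: if `X` is rich, then for every `j0` there is `j ≥ j0` with `X ∩ E j` rich (second moment).
Now choose `j_1 < j_2 < ...` with `X_r = E j_1 ∩ ... ∩ E j_r` rich, in particular `p X_r > 0`, so
`X_r` is infinite, and take an ultrafilter containing all `X_r` and the cofinite sets.
-/

namespace Pool.Agent.H21.MT

open Finset Filter

open Classical in
/-- The mass of a set. -/
noncomputable def limF (T : ℕ → Finset ℕ) (μ : ℕ → ℕ → ℝ) (X : Set ℕ) (n : ℕ) : ℝ :=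
  ∑ N ∈ (T n).filter (fun N => N ∈ X), μ n N

open Classical in
theorem limF_eq (T : ℕ → Finset ℕ) (μ : ℕ → ℕ → ℝ) (X : Set ℕ) (n : ℕ) :
    limF T μ X n = ∑ N ∈ T n, μ n N * (if N ∈ X then 1 else 0) := by
  unfold limF
  rw [Finset.sum_filter]
  refine Finset.sum_congr rfl fun N _ => ?_
  split_ifs <;> simp

open Classical in
theorem limF_mono (T : ℕ → Finset ℕ) (μ : ℕ → ℕ → ℝ) (hμ0 : ∀ n N, 0 ≤ μ n N) {X Y : Set ℕ}
    (h : X ⊆ Y) (n : ℕ) : limF T μ X n ≤ limF T μ Y n := by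
  unfold limF
  refine Finset.sum_le_sum_of_subset_of_nonneg ?_ fun _ _ _ => hμ0 _ _
  intro N hN
  have hN' := Finset.mem_filter.mp hN
  exact Finset.mem_filter.mpr ⟨hN'.1, h hN'.2⟩

theorem limF_nonneg (T : ℕ → Finset ℕ) (μ : ℕ → ℕ → ℝ) (hμ0 : ∀ n N, 0 ≤ μ n N) (X : Set ℕ)
    (n : ℕ) : 0 ≤ limF T μ X n := Finset.sum_nonneg fun _ _ => hμ0 _ _

open Classical in
theorem limF_le_one (T : ℕ → Finset ℕ) (μ : ℕ → ℕ → ℝ) (hμ0 : ∀ n N, 0 ≤ μ n N)
    (hμ1 : ∀ n, ∑ N ∈ T n, μ n N = 1) (X : Set ℕ) (n : ℕ) : limF T μ X n ≤ 1 := by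
  rw [← hμ1 n]
  exact Finset.sum_le_sum_of_subset_of_nonneg (Finset.filter_subset _ _) fun _ _ _ => hμ0 _ _

open Classical in
/-- The second moment inequality for finitely many sets. -/
theorem limF_second (T : ℕ → Finset ℕ) (μ : ℕ → ℕ → ℝ) (hμ0 : ∀ n N, 0 ≤ μ n N)
    (hμ1 : ∀ n, ∑ N ∈ T n, μ n N = 1) (S : Finset ℕ) (A : ℕ → Set ℕ) (c : ℝ) (n : ℕ) :
    0 ≤ (∑ a ∈ S, ∑ b ∈ S, limF T μ (A a ∩ A b) n) - 2 * c * (∑ a ∈ S, limF T μ (A a) n)
      + c ^ 2 := by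
  have h0 : 0 ≤ ∑ N ∈ T n, μ n N * ((∑ a ∈ S, (if N ∈ A a then (1 : ℝ) else 0)) - c) ^ 2 :=
    Finset.sum_nonneg fun N _ => mul_nonneg (hμ0 _ _) (sq_nonneg _)
  have h1 : ∑ N ∈ T n, μ n N * ((∑ a ∈ S, (if N ∈ A a then (1 : ℝ) else 0)) - c) ^ 2 =
      (∑ a ∈ S, ∑ b ∈ S, limF T μ (A a ∩ A b) n) - 2 * c * (∑ a ∈ S, limF T μ (A a) n)
      + c ^ 2 := by
    have e1 : ∑ a ∈ S, ∑ b ∈ S, limF T μ (A a ∩ A b) n =
        ∑ N ∈ T n, μ n N * (∑ a ∈ S, (if N ∈ A a then (1 : ℝ) else 0)) ^ 2 := by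
      have : ∀ N, μ n N * (∑ a ∈ S, (if N ∈ A a then (1 : ℝ) else 0)) ^ 2 =
          ∑ a ∈ S, ∑ b ∈ S, μ n N * (if N ∈ A a ∩ A b then 1 else 0) := by
        intro N
        rw [sq, Finset.sum_mul_sum, Finset.mul_sum]
        refine Finset.sum_congr rfl fun a _ => ?_
        rw [Finset.mul_sum]
        refine Finset.sum_congr rfl fun b _ => ?_
        by_cases ha : N ∈ A a <;> by_cases hb : N ∈ A b <;> simp [ha, hb]
      simp only [this]
      symm
      rw [Finset.sum_comm]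
      refine Finset.sum_congr rfl fun a _ => ?_
      rw [Finset.sum_comm]
      refine Finset.sum_congr rfl fun b _ => ?_
      rw [limF_eq]
      refine Finset.sum_congr rfl fun N _ => ?_
      congr
    have e2 : ∑ a ∈ S, limF T μ (A a) n =
        ∑ N ∈ T n, μ n N * (∑ a ∈ S, (if N ∈ A a then (1 : ℝ) else 0)) := by
      simp only [Finset.mul_sum]
      rw [Finset.sum_comm]
      refine Finset.sum_congr rfl fun a _ => ?_
      rw [limF_eq]
    rw [e1, e2, Finset.mul_sum, ← Finset.sum_sub_distrib]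
    have e3 : c ^ 2 = ∑ N ∈ T n, μ n N * c ^ 2 := by
      rw [← Finset.sum_mul, hμ1, one_mul]
    rw [e3, ← Finset.sum_add_distrib]
    refine Finset.sum_congr rfl fun N _ => ?_
    ring
  rw [h1] at h0
  exact h0

/-- The key step: some further intersection is rich. -/
theorem lim_claim (p : Set ℕ → ℝ) (E : ℕ → Set ℕ) (hp1 : ∀ X, p X ≤ 1)
    (hp2 : ∀ (S : Finset ℕ) (A : ℕ → Set ℕ) (c : ℝ),
      0 ≤ (∑ a ∈ S, ∑ b ∈ S, p (A a ∩ A b)) - 2 * c * (∑ a ∈ S, p (A a)) + c ^ 2)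
    (X : Set ℕ) (hX : ∃ ε > 0, ∃ᶠ j in atTop, ε ≤ p (E j ∩ X)) (j0 : ℕ) :
    ∃ j, j0 < j ∧ ∃ ε > 0, ∃ᶠ i in atTop, ε ≤ p (E i ∩ (X ∩ E j)) := by
  obtain ⟨ε, hε, hfr⟩ := hX
  by_contra hcon
  push Not at hcon
  have hsmall : ∀ j, j0 < j → ∀ᶠ i in atTop, p (E i ∩ (X ∩ E j)) < ε ^ 2 / 2 := by
    intro j hj
    have := hcon j hj (ε ^ 2 / 2) (by positivity)
    simpa using this
  have hS : ∀ M : ℕ, ∃ S : Finset ℕ, S.card = M ∧ (∀ j ∈ S, j0 < j) ∧
      (∀ j ∈ S, ε ≤ p (E j ∩ X)) ∧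
      (∀ a ∈ S, ∀ b ∈ S, a ≠ b → p ((E a ∩ X) ∩ (E b ∩ X)) ≤ ε ^ 2 / 2) := by
    intro M
    induction M with
    | zero => exact ⟨∅, by simp⟩
    | succ M ih =>
      obtain ⟨S, hc, h1, h2, h3⟩ := ih
      have hev : ∀ᶠ i in atTop, ∀ a ∈ S, p (E i ∩ (X ∩ E a)) < ε ^ 2 / 2 := by
        rw [Filter.eventually_all_finset]
        intro a ha
        exact hsmall a (h1 a ha)
      have hev2 : ∀ᶠ i in atTop, j0 < i ∧ ∀ a ∈ S, a < i := by
        refine (eventually_gt_atTop j0).and ?_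
        rw [Filter.eventually_all_finset]
        intro a _
        exact eventually_gt_atTop a
      obtain ⟨i, hi1, hi2, hi3⟩ := (hfr.and_eventually (hev.and hev2)).exists
      have hiS : i ∉ S := fun h => lt_irrefl _ (hi3.2 i h)
      refine ⟨insert i S, ?_, ?_, ?_, ?_⟩
      · rw [Finset.card_insert_of_notMem hiS, hc]
      · intro j hj
        rcases Finset.mem_insert.mp hj with rfl | hj
        · exact hi3.1
        · exact h1 j hj
      · intro j hj
        rcases Finset.mem_insert.mp hj with rfl | hj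
        · exact hi1
        · exact h2 j hj
      · intro a ha b hb hab
        rcases Finset.mem_insert.mp ha with rfl | ha1
        · rcases Finset.mem_insert.mp hb with rfl | hb1
          · exact absurd rfl hab
          · have e : (E a ∩ X) ∩ (E b ∩ X) = E a ∩ (X ∩ E b) := by
              ext x; simp only [Set.mem_inter_iff]; tauto
            rw [e]
            exact (hi2 b hb1).le
        · rcases Finset.mem_insert.mp hb with rfl | hb1
          · have e : (E a ∩ X) ∩ (E b ∩ X) = E b ∩ (X ∩ E a) := by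
              ext x; simp only [Set.mem_inter_iff]; tauto
            rw [e]
            exact (hi2 a ha1).le
          · exact h3 a ha1 b hb1 hab
  obtain ⟨M, hM⟩ := exists_nat_gt (2 / ε ^ 2)
  obtain ⟨S, hc, -, h2, h3⟩ := hS M
  have hMpos : (0 : ℝ) < M := lt_trans (by positivity) hM
  have key := hp2 S (fun a => E a ∩ X) (M * ε)
  have b1 : ∑ a ∈ S, ∑ b ∈ S, p ((E a ∩ X) ∩ (E b ∩ X)) ≤ M * (1 + M * (ε ^ 2 / 2)) := by
    rw [← hc, ← nsmul_eq_mul]
    refine Finset.sum_le_card_nsmul _ _ _ fun a ha => ?_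
    rw [← Finset.add_sum_erase S _ ha]
    refine add_le_add (hp1 _) ?_
    calc ∑ b ∈ S.erase a, p ((E a ∩ X) ∩ (E b ∩ X)) ≤ (S.erase a).card • (ε ^ 2 / 2) := by
          refine Finset.sum_le_card_nsmul _ _ _ fun b hb => ?_
          exact h3 a ha b (Finset.mem_of_mem_erase hb) (Finset.ne_of_mem_erase hb).symm
      _ ≤ S.card * (ε ^ 2 / 2) := by
          rw [nsmul_eq_mul]
          refine mul_le_mul_of_nonneg_right ?_ (by positivity)
          exact_mod_cast Finset.card_le_card (Finset.erase_subset _ _)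
  have b2 : M * ε ≤ ∑ a ∈ S, p (E a ∩ X) := by
    rw [← hc, ← nsmul_eq_mul]
    exact Finset.card_nsmul_le_sum _ _ _ fun a ha => h2 a ha
  have b3 : 2 * (M * ε) * (M * ε) ≤ 2 * (M * ε) * ∑ a ∈ S, p (E a ∩ X) :=
    mul_le_mul_of_nonneg_left b2 (by positivity)
  have b4 : (M : ℝ) * (M * ε ^ 2) ≤ M * 2 := by nlinarith
  have b5 : (M : ℝ) * ε ^ 2 ≤ 2 := le_of_mul_le_mul_left b4 hMpos
  have b6 : 2 < (M : ℝ) * ε ^ 2 := by
    rw [div_lt_iff₀ (by positivity)] at hM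
    exact hM
  linarith

open Classical in
theorem lim_ultra (T : ℕ → Finset ℕ) (μ : ℕ → ℕ → ℝ) (hT : ∀ n, ∀ N ∈ T n, n < N)
    (hμ0 : ∀ n N, 0 ≤ μ n N) (hμ1 : ∀ n, ∑ N ∈ T n, μ n N = 1) (E : ℕ → Set ℕ) (δ : ℝ)
    (hδ : 0 < δ)
    (hE : ∀ n, ∀ j ≤ n, δ ≤ ∑ N ∈ (T n).filter (fun N => N ∈ E j), μ n N) :
    ∃ V : Ultrafilter ℕ, (V : Filter ℕ) ≤ Filter.cofinite ∧ {j : ℕ | E j ∈ V}.Infinite := by
  have hlim : ∀ X : Set ℕ, ∃ x : ℝ,
      Tendsto (limF T μ X) (hyperfilter ℕ : Filter ℕ) (nhds x) := by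
    intro X
    have hK : IsCompact (Set.Icc (0 : ℝ) 1) := isCompact_Icc
    obtain ⟨x, -, hx⟩ := hK.ultrafilter_le_nhds ((hyperfilter ℕ).map (limF T μ X)) (by
      rw [Filter.le_principal_iff]
      refine Filter.mem_map.mpr (Filter.mem_of_superset Filter.univ_mem ?_)
      intro n _
      exact ⟨limF_nonneg T μ hμ0 X n, limF_le_one T μ hμ0 hμ1 X n⟩)
    exact ⟨x, hx⟩
  choose p hp using hlim
  have hp1 : ∀ X, p X ≤ 1 := fun X =>
    le_of_tendsto' (hp X) fun n => limF_le_one T μ hμ0 hμ1 X n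
  have hmono : ∀ X Y : Set ℕ, X ⊆ Y → p X ≤ p Y := fun X Y h =>
    le_of_tendsto_of_tendsto' (hp X) (hp Y) fun n => limF_mono T μ hμ0 h n
  have hp2 : ∀ (S : Finset ℕ) (A : ℕ → Set ℕ) (c : ℝ),
      0 ≤ (∑ a ∈ S, ∑ b ∈ S, p (A a ∩ A b)) - 2 * c * (∑ a ∈ S, p (A a)) + c ^ 2 := by
    intro S A c
    have ht : Tendsto (fun n => (∑ a ∈ S, ∑ b ∈ S, limF T μ (A a ∩ A b) n) -
        2 * c * (∑ a ∈ S, limF T μ (A a) n) + c ^ 2) (hyperfilter ℕ : Filter ℕ)
        (nhds ((∑ a ∈ S, ∑ b ∈ S, p (A a ∩ A b)) - 2 * c * (∑ a ∈ S, p (A a)) + c ^ 2)) := by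
      refine Tendsto.add (Tendsto.sub ?_ (Tendsto.const_mul _ ?_)) tendsto_const_nhds
      · exact tendsto_finsetSum _ fun a _ => tendsto_finsetSum _ fun b _ => hp _
      · exact tendsto_finsetSum _ fun a _ => hp _
    exact ge_of_tendsto' ht fun n => limF_second T μ hμ0 hμ1 S A c n
  have hatTop : (hyperfilter ℕ : Filter ℕ) ≤ atTop := Nat.hyperfilter_le_atTop
  have hfin : ∀ X : Set ℕ, X.Finite → p X = 0 := by
    intro X hX
    obtain ⟨B, hB⟩ := hX.bddAbove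
    have hev : ∀ᶠ n in (hyperfilter ℕ : Filter ℕ), limF T μ X n = 0 := by
      refine hatTop ?_
      filter_upwards [eventually_ge_atTop B] with n hn
      unfold limF
      refine Finset.sum_eq_zero fun N hN => ?_
      rw [Finset.mem_filter] at hN
      have h1 := hT n N hN.1
      have h2 := hB hN.2
      omega
    exact tendsto_nhds_unique (hp X) ((tendsto_congr' hev).mpr tendsto_const_nhds)
  have hpE : ∀ j, δ ≤ p (E j) := by
    intro j
    refine ge_of_tendsto (hp (E j)) (hatTop ?_)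
    filter_upwards [eventually_ge_atTop j] with n hn
    exact hE n j hn
  -- rich sets
  let rich : Set ℕ → Prop := fun X => ∃ ε > 0, ∃ᶠ j in atTop, ε ≤ p (E j ∩ X)
  have hr0 : rich Set.univ := by
    refine ⟨δ, hδ, Frequently.of_forall fun j => ?_⟩
    rw [Set.inter_univ]
    exact hpE j
  have hrinf : ∀ X, rich X → X.Infinite := by
    intro X hX hfinX
    obtain ⟨ε, hε, hfr⟩ := hX
    obtain ⟨j, hj⟩ := hfr.exists
    have := hmono (E j ∩ X) X Set.inter_subset_right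
    rw [hfin X hfinX] at this
    linarith
  have hclaim : ∀ (s : {X : Set ℕ // rich X} × ℕ), ∃ j, s.2 < j ∧ rich (s.1.1 ∩ E j) :=
    fun s => lim_claim p E hp1 hp2 s.1.1 s.1.2 s.2
  choose J hJ1 hJ2 using hclaim
  let step : {X : Set ℕ // rich X} × ℕ → {X : Set ℕ // rich X} × ℕ := fun s =>
    (⟨s.1.1 ∩ E (J s), hJ2 s⟩, J s)
  let s : ℕ → {X : Set ℕ // rich X} × ℕ := fun r => step^[r] (⟨Set.univ, hr0⟩, 0)
  have hs : ∀ r, s (r + 1) = step (s r) := fun r => Function.iterate_succ_apply' _ _ _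
  have hanti : Antitone (fun r => (s r).1.1) := by
    refine antitone_nat_of_succ_le fun r => ?_
    rw [hs]
    exact Set.inter_subset_left
  have hsE : ∀ r, (s (r + 1)).1.1 ⊆ E (s (r + 1)).2 := by
    intro r
    rw [hs]
    exact Set.inter_subset_right
  have hmonoJ : StrictMono (fun r => (s r).2) := by
    refine strictMono_nat_of_lt_succ fun r => ?_
    rw [hs]
    exact hJ1 (s r)
  let G : ℕ → Filter ℕ := fun r => Filter.cofinite ⊓ 𝓟 (s r).1.1
  have hGanti : Antitone G := by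
    intro a b hab
    exact inf_le_inf_left _ (Filter.principal_mono.mpr (hanti hab))
  have hGne : ∀ r, (G r).NeBot := fun r => (hrinf _ (s r).1.2).cofinite_inf_principal_neBot
  have hne : (⨅ r, G r).NeBot := by
    refine Filter.iInf_neBot_of_directed' ?_ hGne
    exact hGanti.directed_ge
  refine ⟨Ultrafilter.of (⨅ r, G r), ?_, ?_⟩
  · exact (Ultrafilter.of_le _).trans ((iInf_le _ 0).trans inf_le_left)
  · refine Set.infinite_of_injective_forall_mem (f := fun r => (s (r + 1)).2) ?_ ?_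
    · intro a b hab
      have := hmonoJ.injective hab
      omega
    · intro r
      show E (s (r + 1)).2 ∈ (Ultrafilter.of (⨅ r, G r) : Filter ℕ)
      refine Filter.mem_of_superset ?_ (hsE r)
      refine (Ultrafilter.of_le _).trans (iInf_le _ (r + 1)) ?_
      exact Filter.mem_inf_of_right (Filter.mem_principal_self _)

end Pool.Agent.H21.MT
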