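import Mathlib

/-!
Fusion: if every infinite subset of `A` is split by a member of `Ω` then `A` has an infinite subset
`B` such that `Ω` shatters all finite subsets of `B`.
-/

namespace Pool.Agent.H21.MT

open Finset

/-- `Good Ω s J` : every pattern on `s` and every infinite subset of `J` is split. -/
def Good (Ω : Set (Set ℕ)) (s : Finset ℕ) (J : Set ℕ) : Prop :=
  ∀ F : Finset ℕ, F ⊆ s → ∀ J' : Set ℕ, J' ⊆ J → J'.Infinite →
    ∃ ω ∈ Ω, (∀ a ∈ s, a ∈ ω ↔ a ∈ F) ∧ (J' ∩ ω).Infinite ∧ (J' \ ω).Infinite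

theorem good_step (Ω : Set (Set ℕ)) (s : Finset ℕ) (J : Set ℕ) (hJ : J.Infinite)
    (hgood : Good Ω s J) (hsJ : ∀ x ∈ J, ∀ a ∈ s, a < x) :
    ∃ x ∈ J, ∃ J' : Set ℕ, J' ⊆ J ∧ J'.Infinite ∧ (∀ y ∈ J', x < y) ∧
      Good Ω (insert x s) J' := by
  classical
  by_contra hcon
  -- one step
  have hstep : ∀ K : {K : Set ℕ // K ⊆ J ∧ K.Infinite}, ∃ (x : ℕ) (F : Finset ℕ)
      (K' : {K : Set ℕ // K ⊆ J ∧ K.Infinite}), x ∈ K.1 ∧ F ⊆ insert x s ∧ K'.1 ⊆ K.1 ∧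
        (∀ y ∈ K'.1, x < y) ∧
        ¬ ∃ ω ∈ Ω, (∀ a ∈ insert x s, a ∈ ω ↔ a ∈ F) ∧ (K'.1 ∩ ω).Infinite ∧
          (K'.1 \ ω).Infinite := by
    rintro ⟨K, hKJ, hK⟩
    obtain ⟨x, hx⟩ := hK.nonempty
    have hK2 : (K ∩ Set.Ioi x).Infinite := by
      intro hfin
      apply hK
      refine (hfin.union (Set.finite_Iic x)).subset ?_
      intro y hy
      by_cases hyx : y ≤ x
      · exact Or.inr hyx
      · exact Or.inl ⟨hy, not_le.mp hyx⟩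
    have hng : ¬ Good Ω (insert x s) (K ∩ Set.Ioi x) := by
      intro hg
      exact hcon ⟨x, hKJ hx, K ∩ Set.Ioi x, fun y hy => hKJ hy.1, hK2, fun y hy => hy.2, hg⟩
    unfold Good at hng
    push Not at hng
    obtain ⟨F, hF, J', hJ'K, hJ', hno⟩ := hng
    refine ⟨x, F, ⟨J', fun y hy => hKJ (hJ'K hy).1, hJ'⟩, hx, hF, fun y hy => (hJ'K hy).1,
      fun y hy => (hJ'K hy).2, ?_⟩
    rintro ⟨ω, hω, h1, h2, h3⟩
    exact h3 (hno ω hω h1 h2)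
  choose xf Ff Kf h1 h2 h3 h4 h5 using hstep
  let K : ℕ → {K : Set ℕ // K ⊆ J ∧ K.Infinite} := fun n =>
    Nat.rec ⟨J, subset_rfl, hJ⟩ (fun _ K => Kf K) n
  have hK : ∀ n, K (n + 1) = Kf (K n) := fun n => rfl
  have hmono : ∀ n m, n ≤ m → (K m).1 ⊆ (K n).1 := by
    intro n m hnm
    induction hnm with
    | refl => exact subset_rfl
    | step _ ih => exact (h3 _).trans ih
  set x : ℕ → ℕ := fun n => xf (K n) with hx
  have hxK : ∀ n m, n ≤ m → x m ∈ (K n).1 := fun n m hnm => hmono n m hnm (h1 _)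
  have hxlt : ∀ n m, n < m → x n < x m := fun n m hnm => h4 (K n) _ (hxK (n + 1) m hnm)
  have hxinj : Function.Injective x := by
    intro n m hnm
    rcases lt_trichotomy n m with h | h | h
    · exact absurd hnm (hxlt n m h).ne
    · exact h
    · exact absurd hnm (hxlt m n h).ne'
  have hxs : ∀ n, x n ∉ s := fun n hn => lt_irrefl _ (hsJ (x n) ((K n).2.1 (h1 _)) _ hn)
  -- pigeonhole
  have hpig : ∃ p : Finset ℕ × Prop, p.1 ⊆ s ∧
      {n : ℕ | Ff (K n) ∩ s = p.1 ∧ ((x n ∈ Ff (K n)) ↔ p.2)}.Infinite := by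
    by_contra hno
    push Not at hno
    have hfin : (⋃ p ∈ ((s.powerset ×ˢ ({True, False} : Finset Prop)) : Finset (Finset ℕ × Prop)),
        {n : ℕ | Ff (K n) ∩ s = p.1 ∧ ((x n ∈ Ff (K n)) ↔ p.2)}).Finite := by
      refine Set.Finite.biUnion (Finset.finite_toSet _) ?_
      intro p hp
      rw [Finset.mem_coe, Finset.mem_product] at hp
      exact hno p (Finset.mem_powerset.mp hp.1)
    refine Set.infinite_univ (hfin.subset ?_)
    intro n _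
    rw [Set.mem_iUnion₂]
    refine ⟨(Ff (K n) ∩ s, x n ∈ Ff (K n)), ?_, rfl, Iff.rfl⟩
    rw [Finset.mem_product]
    refine ⟨Finset.mem_powerset.mpr Finset.inter_subset_right, ?_⟩
    by_cases h : x n ∈ Ff (K n)
    · simp [h]
    · simp [h]
  obtain ⟨⟨F₀, ε⟩, hF₀, hI⟩ := hpig
  set I : Set ℕ := {n : ℕ | Ff (K n) ∩ s = F₀ ∧ ((x n ∈ Ff (K n)) ↔ ε)} with hIdef
  obtain ⟨ω, hω, hω1, hω2, hω3⟩ := hgood F₀ hF₀ (x '' I) (by
    rintro _ ⟨n, _, rfl⟩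
    exact (K n).2.1 (h1 _)) (hI.image hxinj.injOn)
  -- choose an index with the right membership
  have hex : ∃ n ∈ I, (x n ∈ ω ↔ ε) := by
    by_cases hε : ε
    · obtain ⟨_, ⟨n, hn, rfl⟩, hnω⟩ := hω2.nonempty
      exact ⟨n, hn, ⟨fun _ => hε, fun _ => hnω⟩⟩
    · obtain ⟨_, ⟨n, hn, rfl⟩, hnω⟩ := hω3.nonempty
      exact ⟨n, hn, ⟨fun h => absurd h hnω, fun h => absurd h hε⟩⟩
  obtain ⟨n, hn, hnω⟩ := hex
  apply h5 (K n)
  refine ⟨ω, hω, ?_, ?_, ?_⟩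
  · intro a ha
    rw [Finset.mem_insert] at ha
    rcases ha with rfl | ha
    · rw [hn.2]
      exact hnω
    · rw [hω1 a ha, ← hn.1, Finset.mem_inter]
      exact ⟨fun h => h.1, fun h => ⟨h, ha⟩⟩
  · refine (hω2.sdiff (Set.finite_Iic (x n))).mono ?_
    rintro _ ⟨⟨⟨m, hm, rfl⟩, hmω⟩, hmn⟩
    refine ⟨?_, hmω⟩
    have h6 : n < m := by
      by_contra h7
      rcases Nat.lt_or_eq_of_le (not_lt.mp h7) with h8 | h8
      · exact hmn (hxlt m n h8).le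
      · exact hmn (by rw [h8]; exact Set.mem_Iic.mpr le_rfl)
    exact hxK (n + 1) m h6
  · refine (hω3.sdiff (Set.finite_Iic (x n))).mono ?_
    rintro _ ⟨⟨⟨m, hm, rfl⟩, hmω⟩, hmn⟩
    refine ⟨?_, hmω⟩
    have h6 : n < m := by
      by_contra h7
      rcases Nat.lt_or_eq_of_le (not_lt.mp h7) with h8 | h8
      · exact hmn (hxlt m n h8).le
      · exact hmn (by rw [h8]; exact Set.mem_Iic.mpr le_rfl)
    exact hxK (n + 1) m h6

theorem fusion (Ω : Set (Set ℕ)) (A : Set ℕ) (hA : A.Infinite)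
    (hΩ : ∀ J : Set ℕ, J ⊆ A → J.Infinite → ∃ ω ∈ Ω, (J ∩ ω).Infinite ∧ (J \ ω).Infinite) :
    ∃ B : Set ℕ, B ⊆ A ∧ B.Infinite ∧ ∀ G : Finset ℕ, ↑G ⊆ B → ∀ F : Finset ℕ, F ⊆ G →
      ∃ ω ∈ Ω, ∀ a ∈ G, a ∈ ω ↔ a ∈ F := by
  classical
  have hstep : ∀ t : {t : Finset ℕ × Set ℕ // t.2 ⊆ A ∧ t.2.Infinite ∧ Good Ω t.1 t.2 ∧
      ∀ x ∈ t.2, ∀ a ∈ t.1, a < x}, ∃ (x : ℕ) (t' : {t : Finset ℕ × Set ℕ // t.2 ⊆ A ∧
        t.2.Infinite ∧ Good Ω t.1 t.2 ∧ ∀ x ∈ t.2, ∀ a ∈ t.1, a < x}),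
        x ∈ t.1.2 ∧ t'.1.1 = insert x t.1.1 ∧ t'.1.2 ⊆ t.1.2 := by
    rintro ⟨⟨s, J⟩, hJA, hJ, hg, hsJ⟩
    obtain ⟨x, hx, J', hJ'J, hJ', hxJ', hg'⟩ := good_step Ω s J hJ hg hsJ
    refine ⟨x, ⟨⟨insert x s, J'⟩, hJ'J.trans hJA, hJ', hg', ?_⟩, hx, rfl, hJ'J⟩
    intro y hy a ha
    rcases Finset.mem_insert.mp ha with rfl | ha
    · exact hxJ' y hy
    · exact hsJ y (hJ'J hy) a ha
  choose xf tf h1 h2 h3 using hstep
  let t : ℕ → {t : Finset ℕ × Set ℕ // t.2 ⊆ A ∧ t.2.Infinite ∧ Good Ω t.1 t.2 ∧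
      ∀ x ∈ t.2, ∀ a ∈ t.1, a < x} := fun n =>
    Nat.rec ⟨⟨∅, A⟩, subset_rfl, hA, by
      intro F hF J' hJ' hJ'inf
      obtain ⟨ω, hω, h1, h2⟩ := hΩ J' hJ' hJ'inf
      exact ⟨ω, hω, by simp, h1, h2⟩, by simp⟩ (fun _ t => tf t) n
  have ht : ∀ n, t (n + 1) = tf (t n) := fun n => rfl
  have hsub : ∀ n m, n ≤ m → (t n).1.1 ⊆ (t m).1.1 := by
    intro n m hnm
    induction hnm with
    | refl => exact subset_rfl
    | step _ ih =>
      refine ih.trans ?_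
      rw [Nat.succ_eq_add_one, ht, h2]
      exact Finset.subset_insert _ _
  have hmem : ∀ n, xf (t n) ∈ (t (n + 1)).1.1 := by
    intro n
    rw [ht, h2]
    exact Finset.mem_insert_self _ _
  have hlt : ∀ n m, n < m → xf (t n) < xf (t m) := by
    intro n m hnm
    exact (t m).2.2.2.2 _ (h1 _) _ (hsub (n + 1) m hnm (hmem n))
  refine ⟨Set.range (fun n => xf (t n)), ?_, ?_, ?_⟩
  · rintro _ ⟨n, rfl⟩
    exact (t n).2.1 (h1 _)
  · refine Set.infinite_range_of_injective ?_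
    intro n m hnm
    rcases lt_trichotomy n m with h | h | h
    · exact absurd hnm (hlt n m h).ne
    · exact h
    · exact absurd hnm (hlt m n h).ne'
  · intro G hG F hFG
    have hGt : ∃ n, G ⊆ (t n).1.1 := by
      have h4 : ∀ a ∈ G, ∃ n, a ∈ (t n).1.1 := by
        intro a ha
        obtain ⟨n, hn⟩ := hG (Finset.mem_coe.mpr ha)
        refine ⟨n + 1, ?_⟩
        have := hmem n
        simp only at hn
        rw [hn] at this
        exact this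
      choose! nf hnf using h4
      refine ⟨G.sup nf, fun a ha => hsub _ _ (Finset.le_sup ha) (hnf a ha)⟩
    obtain ⟨n, hn⟩ := hGt
    obtain ⟨ω, hω, h5, -, -⟩ := (t n).2.2.2.1 F (hFG.trans hn) (t n).1.2 subset_rfl (t n).2.2.1
    exact ⟨ω, hω, fun a ha => h5 a (hn ha)⟩

end Pool.Agent.H21.MT
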