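import Pool.Agent.H21.MT.Sel

/-!
[H21 MT SELSTEP]  One step of the selection.

Proofs.  Write `N(y) = |A ∩ [0,y]|`, which tends to infinity.
* `sel_step`: let `G, P, κ, c, L` be given.  Choose `y` with `N(y) ≤ κ |surv A P c y|`, `y ≥ L`, and
  `N(y) ≥ κ 2^{5ℓ0+13}` where `ℓ0 ≥ L`, `2^{ℓ0} ≥ |G| + 16`, `ℓ0 ≥ log κ + 20`.  Let `ℓ` be maximal with
  `κ 2^{5ℓ+13} ≤ N(y)`; so `ℓ ≥ ℓ0` and `log N(y) ≤ log κ + (5ℓ+18) log 2 ≤ 20 ℓ`.
  Put `P' = 2(|G| + 2^ℓ) + 16 ≤ 2^{ℓ+3}`.  For a prime `p`, `P < p ≤ P'`, call a class allowed if no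
  element of `G` lies in it; there are `≥ p - |G| ≥ p/2` allowed classes.  For `y'` with
  `N(y') ≤ κ |surv A P c y'|` consider a vector of allowed classes for these primes, and the product
  of the two fractions of survivors (in `surv(y)` and `surv(y')`) which avoid it.  Its average is
  `≥ ∏ (1 - 4/p)` (for each pair `(a,a')` the fraction of allowed classes different from both
  residues is `≥ 1 - 4/p`), and `∏_{P < p ≤ P'} (1-4/p) ≥ ∏_{n=P+1}^{P'} (n-4)/n ≥ 1/P'^4`.  So some
  vector has both fractions `≥ 1/P'^4` (each is `≤ 1`).  (Again one may do this prime by prime.)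
  Pigeonhole: one vector works for infinitely many `y'`; it defines `c'` (`c' = c` up to `P`).
  Then `|surv A P' c' y| ≥ N(y)/(κ P'^4) ≥ 2^{5ℓ+13}/2^{4ℓ+12} = 2^{ℓ+1} ≥ 2^ℓ + |G|`; take
  `H ⊆ surv A P' c' y \ G` with `2^ℓ` elements.  `κ' = κ P'^4`.
-/

namespace Pool.Agent.H21.MT

open Finset Filter

namespace SelStep

theorem surv_finite (A : Set ℕ) (P : ℕ) (c : ℕ → ℕ) (y : ℕ) : (surv A P c y).Finite :=
  (Set.finite_Iic y).subset (fun _ h => h.2.1)

/-- averaging over the allowed classes of one prime -/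
theorem avg (S S' : Finset ℕ) (q : ℕ) (B : Finset ℕ) (hB : q ≤ 2 * B.card) (hq : 0 < q) :
    ∃ a ∈ B, q * (S.card * S'.card)
      ≤ q * ((S.filter (fun x => x % q ≠ a)).card * (S'.filter (fun x => x % q ≠ a)).card)
        + 4 * (S.card * S'.card) := by
  by_contra hcon
  push Not at hcon
  have hne : B.Nonempty := by
    rw [← card_pos]
    omega
  have h1 : ∑ a ∈ B, (S.filter (fun x => x % q ≠ a)).card * (S'.filter (fun x => x % q ≠ a)).card
      = ∑ x ∈ S, ∑ x' ∈ S', (B.filter (fun a => x % q ≠ a ∧ x' % q ≠ a)).card := by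
    have h2 : ∀ a ∈ B, (S.filter (fun x => x % q ≠ a)).card
        * (S'.filter (fun x => x % q ≠ a)).card
        = ∑ x ∈ S, ∑ x' ∈ S', if x % q ≠ a ∧ x' % q ≠ a then 1 else 0 := by
      intro a _
      rw [card_filter, card_filter, sum_mul_sum]
      refine sum_congr rfl (fun x _ => sum_congr rfl (fun x' _ => ?_))
      by_cases h3 : x % q ≠ a
      · by_cases h4 : x' % q ≠ a
        · simp [h3, h4]
        · simp [h3, h4]
      · simp [h3]
    rw [sum_congr rfl h2, sum_comm]
    refine sum_congr rfl (fun x _ => ?_)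
    rw [sum_comm]
    refine sum_congr rfl (fun x' _ => ?_)
    rw [card_filter]
  have h3 : ∀ x x' : ℕ, B.card ≤ (B.filter (fun a => x % q ≠ a ∧ x' % q ≠ a)).card + 2 := by
    intro x x'
    have h4 : B ⊆ (B.filter (fun a => x % q ≠ a ∧ x' % q ≠ a)) ∪ {x % q, x' % q} := by
      intro a ha
      rw [mem_union, mem_filter, mem_insert, mem_singleton]
      by_cases h5 : x % q = a
      · exact Or.inr (Or.inl h5.symm)
      · by_cases h6 : x' % q = a
        · exact Or.inr (Or.inr h6.symm)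
        · exact Or.inl ⟨ha, h5, h6⟩
    refine (card_le_card h4).trans ((card_union_le _ _).trans ?_)
    exact Nat.add_le_add_left card_le_two _
  have h4 : S.card * S'.card * B.card
      ≤ (∑ a ∈ B, (S.filter (fun x => x % q ≠ a)).card * (S'.filter (fun x => x % q ≠ a)).card)
        + 2 * (S.card * S'.card) := by
    rw [h1]
    have h5 : ∑ _x ∈ S, ∑ _x' ∈ S', B.card ≤ ∑ x ∈ S, ∑ x' ∈ S',
        ((B.filter (fun a => x % q ≠ a ∧ x' % q ≠ a)).card + 2) :=
      sum_le_sum (fun x _ => sum_le_sum (fun x' _ => h3 x x'))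
    rw [sum_const, sum_const, smul_eq_mul, smul_eq_mul] at h5
    have h6 : ∑ x ∈ S, ∑ x' ∈ S',
        ((B.filter (fun a => x % q ≠ a ∧ x' % q ≠ a)).card + 2)
        = (∑ x ∈ S, ∑ x' ∈ S', (B.filter (fun a => x % q ≠ a ∧ x' % q ≠ a)).card)
          + S.card * (S'.card * 2) := by
      rw [← smul_eq_mul, ← sum_const, ← sum_add_distrib]
      refine sum_congr rfl (fun x _ => ?_)
      rw [sum_add_distrib, sum_const, smul_eq_mul]
    rw [h6] at h5
    nlinarith [h5]
  have h5 : ∑ a ∈ B, (q * ((S.filter (fun x => x % q ≠ a)).card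
      * (S'.filter (fun x => x % q ≠ a)).card) + 4 * (S.card * S'.card))
      < ∑ _a ∈ B, q * (S.card * S'.card) :=
    sum_lt_sum_of_nonempty hne hcon
  rw [sum_add_distrib, ← mul_sum, sum_const, sum_const, smul_eq_mul, smul_eq_mul] at h5
  set R0 := ∑ a ∈ B, (S.filter (fun x => x % q ≠ a)).card * (S'.filter (fun x => x % q ≠ a)).card
  set T := S.card * S'.card
  have h6 : q * (T * B.card) ≤ q * (R0 + 2 * T) := Nat.mul_le_mul_left q h4
  have h7 : q * T ≤ 2 * B.card * T := Nat.mul_le_mul_right T hB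
  nlinarith [h5, h6, h7]

theorem surv_succ_of_prime (A : Set ℕ) (P : ℕ) (c : ℕ → ℕ) (y a : ℕ) (hp : (P + 1).Prime)
    (ha : a < P + 1) :
    surv A (P + 1) (Function.update c (P + 1) a) y
      = {x | x ∈ surv A P c y ∧ x % (P + 1) ≠ a} := by
  ext x
  constructor
  · rintro ⟨h1, h2, h3⟩
    refine ⟨⟨h1, h2, fun p hpp hpP => ?_⟩, ?_⟩
    · have h4 := h3 p hpp (by omega)
      rwa [Function.update_of_ne (by omega)] at h4
    · have h4 := h3 (P + 1) hp le_rfl
      rwa [Function.update_self, Nat.mod_eq_of_lt ha] at h4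
  · rintro ⟨⟨h1, h2, h3⟩, h4⟩
    refine ⟨h1, h2, fun p hpp hpP => ?_⟩
    by_cases h5 : p = P + 1
    · subst h5
      rw [Function.update_self, Nat.mod_eq_of_lt ha]
      exact h4
    · rw [Function.update_of_ne h5]
      exact h3 p hpp (by omega)

theorem surv_succ_of_not_prime (A : Set ℕ) (P : ℕ) (c : ℕ → ℕ) (y a : ℕ) (hp : ¬ (P + 1).Prime) :
    surv A (P + 1) (Function.update c (P + 1) a) y = surv A P c y := by
  ext x
  constructor
  · rintro ⟨h1, h2, h3⟩
    refine ⟨h1, h2, fun p hpp hpP => ?_⟩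
    have h4 := h3 p hpp (by omega)
    rwa [Function.update_of_ne (by omega)] at h4
  · rintro ⟨h1, h2, h3⟩
    refine ⟨h1, h2, fun p hpp hpP => ?_⟩
    have h5 : p ≠ P + 1 := fun h => hp (h ▸ hpp)
    rw [Function.update_of_ne h5]
    exact h3 p hpp (by omega)

/-- the classes prime by prime, for a pair `y, y'` -/
theorem vector (A : Set ℕ) (G : Finset ℕ) (P : ℕ) (c : ℕ → ℕ) (hP : 2 * G.card + 16 ≤ P)
    (hav : ∀ p : ℕ, p.Prime → p ≤ P → ∀ g ∈ G, g % p ≠ c p % p) (y y' : ℕ) (k : ℕ) :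
    ∃ c' : ℕ → ℕ, (∀ p ≤ P, c' p = c p) ∧ (∀ p, P + k < p → c' p = c p) ∧
      (∀ p, P < p → p ≤ P + k → c' p < p) ∧
      (∀ p : ℕ, p.Prime → p ≤ P + k → ∀ g ∈ G, g % p ≠ c' p % p) ∧
      P.descFactorial 4 * ((surv A P c y).ncard * (surv A P c y').ncard)
        ≤ (P + k).descFactorial 4
          * ((surv A (P + k) c' y).ncard * (surv A (P + k) c' y').ncard) := by
  induction k with
  | zero =>
    exact ⟨c, fun _ _ => rfl, fun _ _ => rfl, fun p h1 h2 => by omega, hav, le_rfl⟩
  | succ k ih =>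
    obtain ⟨c', h1, h2, h3, h4, h5⟩ := ih
    have hdf : ∀ m : ℕ, 4 ≤ m → (m + 1).descFactorial 4 * (m - 3) = m.descFactorial 4 * (m + 1) := by
      intro m hm
      obtain ⟨m, rfl⟩ : ∃ j, m = j + 4 := ⟨m - 4, by omega⟩
      simp only [Nat.descFactorial_succ, Nat.descFactorial_zero]
      have e1 : m + 4 - 3 = m + 1 := by omega
      have e2 : m + 4 + 1 - 3 = m + 2 := by omega
      have e3 : m + 4 + 1 - 2 = m + 3 := by omega
      have e4 : m + 4 + 1 - 1 = m + 4 := by omega
      have e5 : m + 4 + 1 - 0 = m + 5 := by omega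
      have e6 : m + 4 - 2 = m + 2 := by omega
      have e7 : m + 4 - 1 = m + 3 := by omega
      have e8 : m + 4 - 0 = m + 4 := by omega
      rw [e1, e2, e3, e4, e5, e6, e7, e8]
      ring
    -- comparison of one step
    have key : ∀ s s1 : ℕ, (P + k + 1) * s ≤ (P + k + 1) * s1 + 4 * s →
        (P + k).descFactorial 4 * s ≤ (P + k + 1).descFactorial 4 * s1 := by
      intro s s1 hs
      have h6 := hdf (P + k) (by omega)
      have h7 : (P + k - 3) * s ≤ (P + k + 1) * s1 := by
        have h8 : P + k + 1 = (P + k - 3) + 4 := by omega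
        rw [h8] at hs ⊢
        nlinarith [hs]
      have h8 : (P + k).descFactorial 4 * s * (P + k + 1)
          ≤ (P + k + 1).descFactorial 4 * s1 * (P + k + 1) := by
        calc (P + k).descFactorial 4 * s * (P + k + 1)
            = (P + k).descFactorial 4 * (P + k + 1) * s := by ring
          _ = (P + k + 1).descFactorial 4 * (P + k - 3) * s := by rw [h6]
          _ = (P + k + 1).descFactorial 4 * ((P + k - 3) * s) := by ring
          _ ≤ (P + k + 1).descFactorial 4 * ((P + k + 1) * s1) := Nat.mul_le_mul_left _ h7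
          _ = (P + k + 1).descFactorial 4 * s1 * (P + k + 1) := by ring
      exact Nat.le_of_mul_le_mul_right h8 (by omega)
    by_cases hp : (P + k + 1).Prime
    · -- allowed classes
      let B : Finset ℕ := (range (P + k + 1)).filter (fun a => ∀ g ∈ G, g % (P + k + 1) ≠ a)
      have hB : P + k + 1 ≤ 2 * B.card := by
        have h6 : range (P + k + 1) ⊆ B ∪ G.image (fun g => g % (P + k + 1)) := by
          intro a ha
          rw [mem_union, mem_filter, mem_image]
          by_cases h7 : ∀ g ∈ G, g % (P + k + 1) ≠ a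
          · exact Or.inl ⟨ha, h7⟩
          · push Not at h7
            exact Or.inr h7
        have h7 := (card_le_card h6).trans (card_union_le _ _)
        rw [card_range] at h7
        have h8 : (G.image (fun g => g % (P + k + 1))).card ≤ G.card := card_image_le
        omega
      obtain ⟨a, haB, ha⟩ := avg (surv_finite A (P + k) c' y).toFinset
        (surv_finite A (P + k) c' y').toFinset (P + k + 1) B hB (by omega)
      rw [mem_filter, mem_range] at haB
      refine ⟨Function.update c' (P + k + 1) a, ?_, ?_, ?_, ?_, ?_⟩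
      · intro p hpP
        rw [Function.update_of_ne (by omega), h1 p hpP]
      · intro p hpP
        rw [Function.update_of_ne (by omega), h2 p (by omega)]
      · intro p hp1 hp2
        by_cases h6 : p = P + k + 1
        · subst h6
          rw [Function.update_self]
          exact haB.1
        · rw [Function.update_of_ne h6]
          exact h3 p hp1 (by omega)
      · intro p hpp hpP g hg
        by_cases h6 : p = P + k + 1
        · subst h6
          rw [Function.update_self, Nat.mod_eq_of_lt haB.1]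
          exact haB.2 g hg
        · rw [Function.update_of_ne h6]
          exact h4 p hpp (by omega) g hg
      · have hcard : ∀ z : ℕ, (surv A (P + k + 1) (Function.update c' (P + k + 1) a) z).ncard
            = ((surv_finite A (P + k) c' z).toFinset.filter
              (fun x => x % (P + k + 1) ≠ a)).card := by
          intro z
          rw [surv_succ_of_prime A (P + k) c' z a hp haB.1, ← Set.ncard_coe_finset]
          congr 1
          ext x
          simp
        have hcard0 : ∀ z : ℕ, (surv A (P + k) c' z).ncard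
            = (surv_finite A (P + k) c' z).toFinset.card := by
          intro z
          rw [← Set.ncard_coe_finset]
          congr 1
          simp
        refine h5.trans ?_
        rw [← add_assoc P k 1, hcard, hcard, hcard0, hcard0]
        exact key _ _ ha
    · refine ⟨Function.update c' (P + k + 1) 0, ?_, ?_, ?_, ?_, ?_⟩
      · intro p hpP
        rw [Function.update_of_ne (by omega), h1 p hpP]
      · intro p hpP
        rw [Function.update_of_ne (by omega), h2 p (by omega)]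
      · intro p hp1 hp2
        by_cases h6 : p = P + k + 1
        · subst h6
          rw [Function.update_self]
          omega
        · rw [Function.update_of_ne h6]
          exact h3 p hp1 (by omega)
      · intro p hpp hpP g hg
        have h6 : p ≠ P + k + 1 := fun h => hp (h ▸ hpp)
        rw [Function.update_of_ne h6]
        exact h4 p hpp (by omega) g hg
      · refine h5.trans ?_
        rw [← add_assoc P k 1, surv_succ_of_not_prime A (P + k) c' y 0 hp,
          surv_succ_of_not_prime A (P + k) c' y' 0 hp]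
        exact key _ _ (Nat.le_add_right _ _)

/-- finitely many vectors of classes -/
theorem finite_classes (P P' : ℕ) (c : ℕ → ℕ) :
    {c' : ℕ → ℕ | (∀ p ≤ P, c' p = c p) ∧ (∀ p, P' < p → c' p = c p) ∧
      (∀ p, P < p → p ≤ P' → c' p < p)}.Finite := by
  classical
  let mk : (Fin (P' + 1) → Fin (P' + 1)) → ℕ → ℕ := fun v p =>
    if h : P < p ∧ p ≤ P' then (v ⟨p, by omega⟩ : ℕ) else c p
  refine (Set.finite_range mk).subset ?_
  rintro c' ⟨h1, h2, h3⟩
  refine ⟨fun i => if h : c' i.1 < P' + 1 then ⟨c' i.1, h⟩ else 0, ?_⟩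
  funext p
  by_cases hp : P < p ∧ p ≤ P'
  · have h4 : c' p < P' + 1 := by
      have := h3 p hp.1 hp.2
      omega
    simp only [mk, dif_pos hp, dif_pos h4]
  · simp only [mk, dif_neg hp]
    by_cases h5 : p ≤ P
    · exact (h1 p h5).symm
    · exact (h2 p (by omega)).symm

theorem frequently_exists_finite {ι : Type} {T : Set ι} (hT : T.Finite) {p : ι → ℕ → Prop}
    (h : ∃ᶠ y in atTop, ∃ i ∈ T, p i y) : ∃ i ∈ T, ∃ᶠ y in atTop, p i y := by
  by_contra hcon
  push Not at hcon
  refine h ?_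
  have h1 : ∀ᶠ y in atTop, ∀ i ∈ T, ¬ p i y :=
    (eventually_all_finite hT).2 (fun i hi => by simpa using hcon i hi)
  filter_upwards [h1] with y hy
  rintro ⟨i, hi, hpi⟩
  exact hy i hi hpi

theorem tendsto_count (A : Set ℕ) (hA : A.Infinite) :
    Tendsto (fun y : ℕ => (A ∩ Set.Iic y).ncard) atTop atTop := by
  refine tendsto_atTop.2 (fun b => ?_)
  obtain ⟨T, hT, hTb⟩ := hA.exists_subset_card_eq b
  obtain ⟨y0, hy0⟩ := T.exists_nat_subset_range
  filter_upwards [eventually_ge_atTop y0] with y hy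
  rw [← hTb, ← Set.ncard_coe_finset]
  refine Set.ncard_le_ncard ?_ ((Set.finite_Iic y).subset Set.inter_subset_right)
  intro x hx
  have h1 := hy0 (mem_coe.1 hx)
  rw [mem_range] at h1
  exact ⟨hT hx, by rw [Set.mem_Iic]; omega⟩

end SelStep

open SelStep in
theorem sel_step (A : Set ℕ) (hA : A.Infinite) (G : Finset ℕ) (P κ : ℕ) (c : ℕ → ℕ)
    (h : SelInv A G P κ c) (L : ℕ) :
    ∃ (H : Finset ℕ) (l y P' κ' : ℕ) (c' : ℕ → ℕ), (∀ p ≤ P, c' p = c p) ∧ P ≤ P' ∧
      Disjoint G H ∧ (∀ a ∈ H, a ∈ A ∧ a ≤ y) ∧ H.card = 2 ^ l ∧ L ≤ l ∧ L ≤ y ∧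
      Real.log ((A ∩ Set.Iic y).ncard : ℝ) ≤ 20 * l ∧ SelInv A (G ∪ H) P' κ' c' := by
  classical
  have hN := tendsto_count A hA
  have hκ : 0 < κ := by
    by_contra h0
    have h0 : κ = 0 := by omega
    obtain ⟨y, hy1, hy2⟩ := (h.many.and_eventually (hN.eventually_ge_atTop 1)).exists
    rw [h0, zero_mul] at hy1
    omega
  obtain ⟨l0, hl0⟩ : ∃ l0, l0 = L + P + κ + 16 := ⟨_, rfl⟩
  obtain ⟨y, hy1, hy2, hy3⟩ := (h.many.and_eventually
    ((hN.eventually_ge_atTop (κ * 2 ^ (5 * l0 + 13))).and (eventually_ge_atTop L))).exists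
  obtain ⟨N, hNdef⟩ : ∃ N, N = (A ∩ Set.Iic y).ncard := ⟨_, rfl⟩
  rw [← hNdef] at hy1 hy2
  -- the maximal `l`
  obtain ⟨l, hl1, hl2, hl3⟩ : ∃ l, l0 ≤ l ∧ κ * 2 ^ (5 * l + 13) ≤ N ∧
      N < κ * 2 ^ (5 * (l + 1) + 13) := by
    let Q : ℕ → Prop := fun j => N < κ * 2 ^ (5 * (l0 + j) + 13)
    have hQ : ∃ j, Q j := by
      refine ⟨N, ?_⟩
      change N < κ * 2 ^ (5 * (l0 + N) + 13)
      have h1 : N < 2 ^ (5 * (l0 + N) + 13) :=
        lt_of_lt_of_le Nat.lt_two_pow_self (Nat.pow_le_pow_right (by norm_num) (by omega))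
      exact lt_of_lt_of_le h1 (Nat.le_mul_of_pos_left _ hκ)
    have hf := Nat.find_spec hQ
    have hpos : Nat.find hQ ≠ 0 := by
      intro h0
      rw [h0] at hf
      change N < κ * 2 ^ (5 * (l0 + 0) + 13) at hf
      rw [add_zero] at hf
      omega
    obtain ⟨j, hj⟩ : ∃ j, Nat.find hQ = j + 1 := ⟨Nat.find hQ - 1, by omega⟩
    have hm := Nat.find_min hQ (m := j) (by omega)
    rw [hj] at hf
    refine ⟨l0 + j, by omega, not_lt.1 hm, ?_⟩
    exact hf
  obtain ⟨P', hP'⟩ : ∃ P', P' = 2 * (G.card + 2 ^ l) + 16 := ⟨_, rfl⟩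
  have hll : l < 2 ^ l := Nat.lt_two_pow_self
  have hbig := h.big
  have hPP' : P ≤ P' := by omega
  have hP'4 : P' ≤ 2 ^ (l + 2) := by
    rw [pow_add]
    omega
  -- the vector of classes
  have hfr : ∃ᶠ y' in atTop, ∃ c' ∈ {c' : ℕ → ℕ | (∀ p ≤ P, c' p = c p) ∧
      (∀ p, P' < p → c' p = c p) ∧ (∀ p, P < p → p ≤ P' → c' p < p)},
      (∀ p : ℕ, p.Prime → p ≤ P' → ∀ g ∈ G, g % p ≠ c' p % p) ∧
      (A ∩ Set.Iic y').ncard ≤ κ * (surv A P c y').ncard ∧ 1 ≤ (A ∩ Set.Iic y').ncard ∧
      (surv A P c y).ncard * (surv A P c y').ncard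
        ≤ P' ^ 4 * ((surv A P' c' y).ncard * (surv A P' c' y').ncard) := by
    refine (h.many.and_eventually (hN.eventually_ge_atTop 1)).mono ?_
    rintro y' ⟨hy'1, hy'2⟩
    obtain ⟨c', h1, h2, h3, h4, h5⟩ := vector A G P c h.big h.avoid y y' (P' - P)
    have hPk : P + (P' - P) = P' := by omega
    rw [hPk] at h2 h3 h4 h5
    refine ⟨c', ⟨h1, h2, h3⟩, h4, hy'1, hy'2, ?_⟩
    have h6 : 1 ≤ P.descFactorial 4 := Nat.descFactorial_pos.2 (by omega)
    have h7 : P'.descFactorial 4 ≤ P' ^ 4 := Nat.descFactorial_le_pow P' 4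
    calc (surv A P c y).ncard * (surv A P c y').ncard
        ≤ P.descFactorial 4 * ((surv A P c y).ncard * (surv A P c y').ncard) :=
          Nat.le_mul_of_pos_left _ h6
      _ ≤ P'.descFactorial 4 * ((surv A P' c' y).ncard * (surv A P' c' y').ncard) := h5
      _ ≤ P' ^ 4 * ((surv A P' c' y).ncard * (surv A P' c' y').ncard) :=
          Nat.mul_le_mul_right _ h7
  obtain ⟨c', ⟨hc1, hc2, hc3⟩, hfr2⟩ := frequently_exists_finite (finite_classes P P' c) hfr
  have hsub : ∀ z, (surv A P' c' z).ncard ≤ (surv A P c z).ncard := by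
    intro z
    refine Set.ncard_le_ncard ?_ (surv_finite A P c z)
    rintro x ⟨h1, h2, h3⟩
    refine ⟨h1, h2, fun p hp hpP => ?_⟩
    have h4 := h3 p hp (by omega)
    rwa [hc1 p hpP] at h4
  -- survivors at `y`
  obtain ⟨y0, hy01, hy02, hy03, hy04⟩ := hfr2.exists
  have hSy : (surv A P c y).ncard ≤ P' ^ 4 * (surv A P' c' y).ncard := by
    have h1 : 0 < (surv A P c y0).ncard := by
      by_contra h0
      have h0 : (surv A P c y0).ncard = 0 := by omega
      rw [h0, mul_zero] at hy02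
      omega
    have h2 := hsub y0
    have h3 : (surv A P c y).ncard * (surv A P c y0).ncard
        ≤ P' ^ 4 * (surv A P' c' y).ncard * (surv A P c y0).ncard := by
      refine hy04.trans ?_
      rw [mul_assoc]
      exact Nat.mul_le_mul_left _ (Nat.mul_le_mul_left _ h2)
    exact Nat.le_of_mul_le_mul_right h3 h1
  have hcard : 2 ^ l + G.card ≤ (surv A P' c' y).ncard := by
    have h1 : N ≤ κ * (P' ^ 4 * (surv A P' c' y).ncard) :=
      hy1.trans (Nat.mul_le_mul_left _ hSy)
    have h2 : κ * 2 ^ (5 * l + 13) ≤ κ * (P' ^ 4 * (surv A P' c' y).ncard) := hl2.trans h1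
    have h3 : 2 ^ (5 * l + 13) ≤ P' ^ 4 * (surv A P' c' y).ncard :=
      Nat.le_of_mul_le_mul_left h2 hκ
    have h4 : P' ^ 4 ≤ 2 ^ (4 * l + 8) := by
      calc P' ^ 4 ≤ (2 ^ (l + 2)) ^ 4 := Nat.pow_le_pow_left hP'4 4
        _ = 2 ^ (4 * l + 8) := by rw [← pow_mul]; congr 1; ring
    have h5 : 2 ^ (4 * l + 8) * 2 ^ (l + 5) ≤ 2 ^ (4 * l + 8) * (surv A P' c' y).ncard := by
      calc 2 ^ (4 * l + 8) * 2 ^ (l + 5) = 2 ^ (5 * l + 13) := by
            rw [← pow_add]; congr 1; ring
        _ ≤ P' ^ 4 * (surv A P' c' y).ncard := h3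
        _ ≤ 2 ^ (4 * l + 8) * (surv A P' c' y).ncard := Nat.mul_le_mul_right _ h4
    have h6 : 2 ^ (l + 5) ≤ (surv A P' c' y).ncard :=
      Nat.le_of_mul_le_mul_left h5 (Nat.pow_pos (by norm_num))
    have h7 : 2 ^ (l + 5) = 2 ^ l * 32 := by rw [pow_add]; norm_num
    omega
  -- the block
  obtain ⟨H, hH1, hH2⟩ : ∃ H ⊆ (surv_finite A P' c' y).toFinset \ G, H.card = 2 ^ l := by
    refine exists_subset_card_eq ?_
    have h1 := le_card_sdiff G (surv_finite A P' c' y).toFinset
    have h2 : (surv_finite A P' c' y).toFinset.card = (surv A P' c' y).ncard := by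
      rw [← Set.ncard_coe_finset]
      congr 1
      simp
    omega
  have hHs : ∀ a ∈ H, a ∈ surv A P' c' y ∧ a ∉ G := by
    intro a ha
    have h1 := hH1 ha
    have h2 := Finset.mem_sdiff.1 h1
    exact ⟨(Set.Finite.mem_toFinset _).1 h2.1, h2.2⟩
  have hdisj : Disjoint G H := by
    rw [disjoint_left]
    intro a ha hb
    exact (hHs a hb).2 ha
  refine ⟨H, l, y, P', κ * P' ^ 4, c', hc1, hPP', hdisj, fun a ha => ⟨(hHs a ha).1.1,
    (hHs a ha).1.2.1⟩, hH2, by omega, hy3, ?_, ?_⟩
  · -- the logarithm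
    rw [← hNdef]
    have hNpos : 0 < N :=
      lt_of_lt_of_le (Nat.mul_pos hκ (Nat.pow_pos (by norm_num))) hl2
    have h1 : (N : ℝ) ≤ (κ : ℝ) * 2 ^ (5 * (l + 1) + 13) := by
      exact_mod_cast hl3.le
    have hκr : (0 : ℝ) < κ := by exact_mod_cast hκ
    have h2 : Real.log N ≤ Real.log ((κ : ℝ) * 2 ^ (5 * (l + 1) + 13)) :=
      Real.log_le_log (by exact_mod_cast hNpos) h1
    rw [Real.log_mul hκr.ne' (pow_ne_zero _ two_ne_zero), Real.log_pow] at h2
    have h3 : Real.log κ ≤ l := by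
      have h4 := Real.log_le_sub_one_of_pos hκr
      have h5 : (κ : ℝ) ≤ l := by exact_mod_cast (by omega : κ ≤ l)
      linarith
    have h4 : Real.log 2 ≤ 0.7 := by
      have := Real.log_two_lt_d9
      linarith
    have h5 : (1 : ℝ) ≤ l := by exact_mod_cast (by omega : 1 ≤ l)
    have h6 : ((5 * (l + 1) + 13 : ℕ) : ℝ) * Real.log 2 ≤ (5 * (l + 1) + 13) * 0.7 := by
      push_cast
      have h7 : (0 : ℝ) ≤ 5 * (l + 1) + 13 := by linarith
      exact mul_le_mul_of_nonneg_left h4 h7
    linarith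
  · refine ⟨?_, ?_, ?_, ?_⟩
    · intro a ha
      rw [coe_union] at ha
      rcases ha with ha | ha
      · exact h.sub ha
      · exact (hHs a ha).1.1
    · rw [card_union_of_disjoint hdisj, hH2, hP']
    · intro p hp hpP g hg
      rw [mem_union] at hg
      rcases hg with hg | hg
      · exact hy01 p hp hpP g hg
      · exact (hHs g hg).1.2.2 p hp hpP
    · refine hfr2.mono ?_
      rintro y' ⟨_, h2, h3, h4⟩
      have h5 : 0 < (surv A P c y).ncard := by
        have h6 := hsub y
        have h7 : 0 < 2 ^ l := Nat.pow_pos (by norm_num)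
        omega
      have h6 : (surv A P c y').ncard ≤ P' ^ 4 * (surv A P' c' y').ncard := by
        have h8 : (surv A P c y).ncard * (surv A P c y').ncard
            ≤ (surv A P c y).ncard * (P' ^ 4 * (surv A P' c' y').ncard) := by
          refine h4.trans ?_
          calc P' ^ 4 * ((surv A P' c' y).ncard * (surv A P' c' y').ncard)
              = (surv A P' c' y).ncard * (P' ^ 4 * (surv A P' c' y').ncard) := by ring
            _ ≤ (surv A P c y).ncard * (P' ^ 4 * (surv A P' c' y').ncard) :=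
              Nat.mul_le_mul_right _ (hsub y)
        exact Nat.le_of_mul_le_mul_left h8 h5
      calc (A ∩ Set.Iic y').ncard ≤ κ * (surv A P c y').ncard := h2
        _ ≤ κ * (P' ^ 4 * (surv A P' c' y').ncard) := Nat.mul_le_mul_left _ h6
        _ = κ * P' ^ 4 * (surv A P' c' y').ncard := by ring

end Pool.Agent.H21.MT
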