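import Pool.Agent.H21.MT.SelInit
import Pool.Agent.H21.MT.SelStep

/-!
[H21 MT SELSEQ]  The sequence of blocks.

Proof.  Iterate `sel_step` starting from `sel_init` (recursion on a subtype of states
`(G, P, κ, c)` with `SelInv`, choosing the outputs; at step `j` use `L = L j`).  The classes stabilise:
`c_{j'} p = c_j p` for `j' ≥ j`, `p ≤ P_j`, and `P_j → ∞` because `P_j ≥ 2 |G_j| + 16` and
`|G_j| ≥ j`.  For a prime `p` choose `j` with `p ≤ P_j` and put `c = c_j p`: every element `g` of any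
block lies in some `G_{j'}`, `j' ≥ j`, so `g % p ≠ c % p`; with `a = p - c % p` we get
`¬ p ∣ a + g`.
-/

namespace Pool.Agent.H21.MT

open Finset Filter

theorem sel_seq (A : Set ℕ) (hA : A.Infinite) (L : ℕ → ℕ) :
    ∃ (H : ℕ → Finset ℕ) (l y : ℕ → ℕ), (∀ j, (H j).card = 2 ^ l j) ∧
      (∀ i j, i ≠ j → Disjoint (H i) (H j)) ∧ (∀ j, ∀ a ∈ H j, a ∈ A ∧ a ≤ y j) ∧
      (∀ j, L j ≤ l j ∧ L j ≤ y j) ∧
      (∀ j, Real.log ((A ∩ Set.Iic (y j)).ncard : ℝ) ≤ 20 * l j) ∧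
      (∀ p : ℕ, p.Prime → ∃ a : ℕ, ∀ j, ∀ h ∈ H j, ¬ p ∣ a + h) := by
  classical
  obtain ⟨κ₀, c₀, h₀⟩ := sel_init A hA
  have hstep : ∀ (s : {s : Finset ℕ × ℕ × ℕ × (ℕ → ℕ) // SelInv A s.1 s.2.1 s.2.2.1 s.2.2.2})
      (M : ℕ), ∃ (t : {s : Finset ℕ × ℕ × ℕ × (ℕ → ℕ) // SelInv A s.1 s.2.1 s.2.2.1 s.2.2.2})
      (H : Finset ℕ) (l y : ℕ), t.1.1 = s.1.1 ∪ H ∧ s.1.2.1 ≤ t.1.2.1 ∧
        (∀ p ≤ s.1.2.1, t.1.2.2.2 p = s.1.2.2.2 p) ∧ Disjoint s.1.1 H ∧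
        (∀ a ∈ H, a ∈ A ∧ a ≤ y) ∧ H.card = 2 ^ l ∧ M ≤ l ∧ M ≤ y ∧
        Real.log ((A ∩ Set.Iic y).ncard : ℝ) ≤ 20 * l := by
    rintro ⟨⟨G, P, κ, c⟩, hs⟩ M
    obtain ⟨H, l, y, P', κ', c', h1, h2, h3, h4, h5, h6, h7, h8, h9⟩ :=
      sel_step A hA G P κ c hs M
    exact ⟨⟨⟨G ∪ H, P', κ', c'⟩, h9⟩, H, l, y, rfl, h2, h1, h3, h4, h5, h6, h7, h8⟩
  choose T Hf lf yf hT using hstep
  let s : ℕ → {s : Finset ℕ × ℕ × ℕ × (ℕ → ℕ) // SelInv A s.1 s.2.1 s.2.2.1 s.2.2.2} :=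
    fun j => Nat.rec ⟨⟨∅, 16, κ₀, c₀⟩, h₀⟩ (fun j t => T t (L j)) j
  have hs : ∀ j, s (j + 1) = T (s j) (L j) := fun j => rfl
  have hG : ∀ j, (s (j + 1)).1.1 = (s j).1.1 ∪ Hf (s j) (L j) := by
    intro j
    rw [hs]
    exact (hT (s j) (L j)).1
  have hP : ∀ j, (s j).1.2.1 ≤ (s (j + 1)).1.2.1 := by
    intro j
    rw [hs]
    exact (hT (s j) (L j)).2.1
  have hc : ∀ j, ∀ p ≤ (s j).1.2.1, (s (j + 1)).1.2.2.2 p = (s j).1.2.2.2 p := by
    intro j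
    rw [hs]
    exact (hT (s j) (L j)).2.2.1
  have hdis : ∀ j, Disjoint (s j).1.1 (Hf (s j) (L j)) := fun j => (hT (s j) (L j)).2.2.2.1
  have hmem : ∀ j, ∀ a ∈ Hf (s j) (L j), a ∈ A ∧ a ≤ yf (s j) (L j) :=
    fun j => (hT (s j) (L j)).2.2.2.2.1
  have hcard : ∀ j, (Hf (s j) (L j)).card = 2 ^ lf (s j) (L j) :=
    fun j => (hT (s j) (L j)).2.2.2.2.2.1
  have hGmono : Monotone fun j => (s j).1.1 := by
    apply monotone_nat_of_le_succ
    intro j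
    rw [hG]
    exact Finset.subset_union_left
  have hPmono : Monotone fun j => (s j).1.2.1 := monotone_nat_of_le_succ hP
  have hHG : ∀ i j, i < j → Hf (s i) (L i) ⊆ (s j).1.1 := by
    intro i j hij
    have h1 : Hf (s i) (L i) ⊆ (s (i + 1)).1.1 := by
      rw [hG]
      exact Finset.subset_union_right
    exact h1.trans (hGmono hij)
  have hGcard : ∀ j, j ≤ (s j).1.1.card := by
    intro j
    induction j with
    | zero => exact Nat.zero_le _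
    | succ j ih =>
      rw [hG, Finset.card_union_of_disjoint (hdis j), hcard]
      have : 1 ≤ 2 ^ lf (s j) (L j) := Nat.one_le_two_pow
      omega
  have hPj : ∀ j, j ≤ (s j).1.2.1 := by
    intro j
    have h1 := (s j).2.big
    have h2 := hGcard j
    omega
  have hstab : ∀ j k p, p ≤ (s j).1.2.1 → (s (j + k)).1.2.2.2 p = (s j).1.2.2.2 p := by
    intro j k p hp
    induction k with
    | zero => rfl
    | succ k ih =>
      rw [← ih, ← add_assoc]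
      exact hc (j + k) p (hp.trans (hPmono (Nat.le_add_right j k)))
  refine ⟨fun j => Hf (s j) (L j), fun j => lf (s j) (L j), fun j => yf (s j) (L j), hcard, ?_,
    hmem, fun j => ⟨(hT (s j) (L j)).2.2.2.2.2.2.1, (hT (s j) (L j)).2.2.2.2.2.2.2.1⟩,
    fun j => (hT (s j) (L j)).2.2.2.2.2.2.2.2, ?_⟩
  · have key : ∀ i j, i < j → Disjoint (Hf (s i) (L i)) (Hf (s j) (L j)) := fun i j hij =>
      Finset.disjoint_of_subset_left (hHG i j hij) (hdis j)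
    intro i j hij
    rcases lt_or_gt_of_ne hij with h | h
    · exact key i j h
    · exact (key j i h).symm
  · intro p hp
    refine ⟨p - (s p).1.2.2.2 p % p, ?_⟩
    intro i h hh hdvd
    have h1 : h ∈ (s (p + (i + 1))).1.1 := hHG i (p + (i + 1)) (by omega) hh
    have h2 : p ≤ (s (p + (i + 1))).1.2.1 := (hPj p).trans (hPmono (Nat.le_add_right p (i + 1)))
    have h3 := (s (p + (i + 1))).2.avoid p hp h2 h h1
    rw [hstab p (i + 1) p (hPj p)] at h3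
    apply h3
    have hlt : (s p).1.2.2.2 p % p < p := Nat.mod_lt _ hp.pos
    set c := (s p).1.2.2.2 p % p with hcdef
    have h4 : (p - c + h) % p = 0 := Nat.mod_eq_zero_of_dvd hdvd
    have h5 : (c + (p - c + h)) % p = c % p := by
      rw [Nat.add_mod, h4, add_zero, Nat.mod_mod]
    have h6 : c + (p - c + h) = h + p := by omega
    rw [h6, Nat.add_mod_right, Nat.mod_eq_of_lt hlt] at h5
    exact h5

end Pool.Agent.H21.MT
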