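import Pool.Agent.H21.MT.Core2
import Pool.Agent.H21.MT.SelSeq
import Pool.Agent.H21.MT.Fuse

/-!
Infinite shattered sets: every infinite `A` contains an infinite `B` on which all exact patterns of
primes of one colour occur infinitely often.
-/

namespace Pool.Agent.H21.MT

open Finset Filter

/-- limits of translates of the primes of colour `i` -/
def Lims {r : ℕ} (c : ℕ → Fin r) (i : Fin r) : Set (Set ℕ) :=
  {ω | ∀ F : Finset ℕ, {N : ℕ | ∀ a ∈ F, ((N + a).Prime ∧ c (N + a) = i) ↔ a ∈ ω}.Infinite}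

theorem split_colour {r : ℕ} (c : ℕ → Fin r) (A B : Set ℕ)
    (hB : ∀ F : Finset ℕ, {N : ℕ | ∀ a ∈ F, (N + a).Prime ↔ a ∈ B}.Infinite)
    (hAB : (A ∩ B).Infinite) (hAB' : (A \ B).Infinite) :
    ∃ i, ∃ ω ∈ Lims c i, (A ∩ ω).Infinite ∧ (A \ ω).Infinite := by
  classical
  have hN : ∀ n : ℕ, ∃ N : ℕ, n < N ∧ ∀ a ≤ n, (N + a).Prime ↔ a ∈ B := by
    intro n
    obtain ⟨N, hN, hnN⟩ := (hB (Finset.range (n + 1))).exists_gt n
    exact ⟨N, hnN, fun a ha => hN a (Finset.mem_range.mpr (by omega))⟩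
  choose Nf hNf hNp using hN
  set U : Ultrafilter ℕ := hyperfilter ℕ with hU
  have hUinf : ∀ X : Set ℕ, X ∈ U → X.Infinite := fun X hX => by
    intro hXf
    have h1 : Xᶜ ∈ (U : Filter ℕ) := by
      apply hyperfilter_le_cofinite
      rw [Filter.mem_cofinite, compl_compl]
      exact hXf
    exact (Ultrafilter.compl_mem_iff_notMem.1 h1) hX
  set Bf : Fin r → Set ℕ := fun i => {a | {n : ℕ | (Nf n + a).Prime ∧ c (Nf n + a) = i} ∈ U}
    with hBf
  have hpat : ∀ i : Fin r, Bf i ∈ Lims c i := by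
    intro i F
    have h1 : {n : ℕ | ∀ a ∈ F, ((Nf n + a).Prime ∧ c (Nf n + a) = i) ↔ a ∈ Bf i} ∈ U := by
      have h2 : ∀ a ∈ F, {n : ℕ | ((Nf n + a).Prime ∧ c (Nf n + a) = i) ↔ a ∈ Bf i} ∈
          (U : Filter ℕ) := by
        intro a _
        by_cases hab : a ∈ Bf i
        · have h3 : {n : ℕ | (Nf n + a).Prime ∧ c (Nf n + a) = i} ∈ (U : Filter ℕ) := hab
          filter_upwards [h3] with n hn
          exact ⟨fun _ => hab, fun _ => hn⟩
        · have h3 : {n : ℕ | (Nf n + a).Prime ∧ c (Nf n + a) = i}ᶜ ∈ (U : Filter ℕ) :=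
            Ultrafilter.compl_mem_iff_notMem.2 hab
          filter_upwards [h3] with n hn
          exact ⟨fun h => absurd h hn, fun h => absurd h hab⟩
      have h4 := (Filter.biInter_finset_mem F).2 h2
      refine Filter.mem_of_superset h4 ?_
      intro n hn a ha
      rw [Set.mem_iInter₂] at hn
      exact hn a ha
    have h5 := hUinf _ h1
    refine Set.infinite_of_not_bddAbove ?_
    rintro ⟨M, hM⟩
    obtain ⟨n, hn, hMn⟩ := h5.exists_gt M
    have h6 : Nf n ≤ M := hM hn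
    have h7 := hNf n
    omega
  have hsub : ∀ i, Bf i ⊆ B := by
    intro i a ha
    have h1 : {n : ℕ | (Nf n + a).Prime ∧ c (Nf n + a) = i} ∈ U := ha
    obtain ⟨n, hn, han⟩ := (hUinf _ h1).exists_gt a
    exact (hNp n a han.le).1 hn.1
  have hcol : ∀ a ∈ B, ∃ i, a ∈ Bf i := by
    intro a ha
    by_contra hcon
    push Not at hcon
    have h1 : ∀ i : Fin r, {n : ℕ | (Nf n + a).Prime ∧ c (Nf n + a) = i}ᶜ ∈ (U : Filter ℕ) :=
      fun i => Ultrafilter.compl_mem_iff_notMem.2 (hcon i)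
    have h2 : (⋂ i : Fin r, {n : ℕ | (Nf n + a).Prime ∧ c (Nf n + a) = i}ᶜ) ∈ (U : Filter ℕ) :=
      Filter.iInter_mem.2 h1
    obtain ⟨n, hn, han⟩ := (hUinf _ h2).exists_gt a
    rw [Set.mem_iInter] at hn
    exact hn (c (Nf n + a)) ⟨(hNp n a han.le).2 ha, rfl⟩
  have hex : ∃ i, (A ∩ Bf i).Infinite := by
    by_contra hcon
    push Not at hcon
    apply hAB
    have h1 : (⋃ i : Fin r, A ∩ Bf i).Finite :=
      Set.finite_iUnion fun i => hcon i
    refine h1.subset ?_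
    rintro a ⟨haA, haB⟩
    obtain ⟨i, hi⟩ := hcol a haB
    exact Set.mem_iUnion.mpr ⟨i, haA, hi⟩
  obtain ⟨i, hi⟩ := hex
  refine ⟨i, Bf i, hpat i, hi, hAB'.mono ?_⟩
  rintro a ⟨haA, haB⟩
  exact ⟨haA, fun h => haB (hsub i h)⟩

theorem exists_split (A : Set ℕ) (hA : A.Infinite) {r : ℕ} (c : ℕ → Fin r) :
    ∃ i, ∃ ω ∈ Lims c i, (A ∩ ω).Infinite ∧ (A \ ω).Infinite := by
  classical
  obtain ⟨H, l, y, hcard, hdisj, hHA, hL, -, hadm⟩ := sel_seq A hA (fun j => 320 * 2 ^ j)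
  obtain ⟨B, hB1, hB2⟩ := core2 H l hcard hdisj (fun j => (hL j).1) hadm
  have hpick : ∀ (X : Set ℕ), (∀ j ∈ {j : ℕ | (1 / 10 ^ 12 : ℝ) * (l j / 2 ^ j) ≤
      ((H j).filter (fun a => a ∈ B)).card ∧ ∃ a ∈ H j, a ∉ B}, ∃ a ∈ H j, a ∈ X) →
      (A ∩ X).Infinite := by
    intro X hX
    choose! f hf hfX using hX
    have hinj : Set.InjOn f {j : ℕ | (1 / 10 ^ 12 : ℝ) * (l j / 2 ^ j) ≤
      ((H j).filter (fun a => a ∈ B)).card ∧ ∃ a ∈ H j, a ∉ B} := by
      intro j hj j' hj' hjj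
      by_contra hne
      exact (Finset.disjoint_left.mp (hdisj j j' hne)) (hf j hj) (by rw [hjj]; exact hf j' hj')
    refine (hB2.image hinj).mono ?_
    rintro _ ⟨j, hj, rfl⟩
    exact ⟨(hHA j _ (hf j hj)).1, hfX j hj⟩
  refine split_colour c A B hB1 ?_ ?_
  · apply hpick
    rintro j ⟨h1, -⟩
    have h2 : (0 : ℝ) < (1 / 10 ^ 12 : ℝ) * (l j / 2 ^ j) := by
      have h3 := (hL j).1
      have h4 : 0 < l j := by
        have : 0 < 2 ^ j := by positivity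
        omega
      have h5 : (0 : ℝ) < l j := by exact_mod_cast h4
      positivity
    have h3 : 0 < ((H j).filter (fun a => a ∈ B)).card := by
      exact_mod_cast lt_of_lt_of_le h2 h1
    obtain ⟨a, ha⟩ := Finset.card_pos.mp h3
    rw [Finset.mem_filter] at ha
    exact ⟨a, ha.1, ha.2⟩
  · have := hpick Bᶜ (by
      rintro j ⟨-, a, ha, haB⟩
      exact ⟨a, ha, haB⟩)
    exact this

/-- Theorem S. -/
theorem shatter_infinite (A : Set ℕ) (hA : A.Infinite) (r : ℕ) (c : ℕ → Fin r) :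
    ∃ (i : Fin r) (B : Set ℕ), B ⊆ A ∧ B.Infinite ∧ ∀ G : Finset ℕ, ↑G ⊆ B → ∀ F ⊆ G,
      {N : ℕ | ∀ a ∈ G, ((N + a).Prime ∧ c (N + a) = i) ↔ a ∈ F}.Infinite := by
  classical
  -- one colour works for all infinite subsets of some infinite subset
  have hkey : ∃ i : Fin r, ∃ A' : Set ℕ, A' ⊆ A ∧ A'.Infinite ∧ ∀ J : Set ℕ, J ⊆ A' → J.Infinite →
      ∃ ω ∈ Lims c i, (J ∩ ω).Infinite ∧ (J \ ω).Infinite := by
    by_contra hcon
    push Not at hcon
    have hind : ∀ S : Finset (Fin r), ∃ J : Set ℕ, J ⊆ A ∧ J.Infinite ∧ ∀ i ∈ S,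
        ∀ ω ∈ Lims c i, ¬ ((J ∩ ω).Infinite ∧ (J \ ω).Infinite) := by
      intro S
      induction S using Finset.induction_on with
      | empty => exact ⟨A, subset_rfl, hA, by simp⟩
      | insert i S _ ih =>
        obtain ⟨J, hJA, hJ, hJS⟩ := ih
        obtain ⟨J', hJ'J, hJ', hno⟩ := hcon i J hJA hJ
        refine ⟨J', hJ'J.trans hJA, hJ', ?_⟩
        intro i' hi' ω hω
        rcases Finset.mem_insert.mp hi' with rfl | hi'
        · rintro ⟨h1, h2⟩
          exact h2 (hno ω hω h1)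
        · rintro ⟨h1, h2⟩
          exact hJS i' hi' ω hω ⟨h1.mono (Set.inter_subset_inter_left _ hJ'J),
            h2.mono (Set.sdiff_subset_sdiff_left hJ'J)⟩
    obtain ⟨J, hJA, hJ, hJS⟩ := hind univ
    obtain ⟨i, ω, hω, h1, h2⟩ := exists_split J hJ c
    exact hJS i (mem_univ _) ω hω ⟨h1, h2⟩
  obtain ⟨i, A', hA'A, hA', hsplit⟩ := hkey
  obtain ⟨B, hBA, hB, hsh⟩ := fusion (Lims c i) A' hA' hsplit
  refine ⟨i, B, hBA.trans hA'A, hB, ?_⟩
  intro G hG F hF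
  obtain ⟨ω, hω, h⟩ := hsh G hG F hF
  refine (hω G).mono ?_
  intro N hN a ha
  rw [hN a ha, h a ha]

end Pool.Agent.H21.MT
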