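import Pool.Agent.H21.MT.Dv

/-!
[H21 MT CRTB]  Congruence conditions of compatible pairs of labelled numbers.

Proofs.
* `crt_dv`: if `compat d e`, the conditions are `N ≡ b (mod W)` and, for the `k` with `d k ≠ none`
  or `e k ≠ none` (label `i = i(k)`), `N ≡ - h i (mod P k)`; the moduli `W`, `P k` are pairwise
  coprime with product `W * totJ P d e`; Chinese remainder theorem (e.g. `Nat.chineseRemainderOfFinset`
  or induction over the set of the `k`).
* `crt_dvm`: the same with `p ≡ b + h m (mod W)`, `p ≡ h m - h i (mod P k)`; the residue class is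
  coprime to the modulus because `b + h m` is coprime to `W` and `P k` does not divide `h m - h i`
  (`i ≠ m` as the labels are not `m`).
-/

set_option linter.unusedSectionVars false

namespace Pool.Agent.H21.MT

open Finset

variable {ι I : Type} [Fintype ι] [DecidableEq ι] [Fintype I] [DecidableEq I]

theorem crtb_exists (W : ℤ) (Q : ι → ℤ) (hWQ : ∀ k, IsCoprime W (Q k))
    (hQ : Pairwise (fun k l => IsCoprime (Q k) (Q l))) (b : ℤ) (r : ι → ℤ) (s : Finset ι) :
    ∃ c : ℤ, W ∣ c - b ∧ ∀ k ∈ s, Q k ∣ c - r k := by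
  induction s using Finset.induction_on with
  | empty => exact ⟨b, by simp, by simp⟩
  | insert k s hk ih =>
    obtain ⟨c, hc, hcs⟩ := ih
    have h1 : IsCoprime (W * ∏ l ∈ s, Q l) (Q k) := by
      refine IsCoprime.mul_left (hWQ k) (IsCoprime.prod_left (fun l hl => hQ ?_))
      rintro rfl
      exact hk hl
    obtain ⟨u, v, huv⟩ := h1
    refine ⟨c + u * (W * ∏ l ∈ s, Q l) * (r k - c), ?_, ?_⟩
    · have e : c + u * (W * ∏ l ∈ s, Q l) * (r k - c) - b
          = (c - b) + W * (u * (∏ l ∈ s, Q l) * (r k - c)) := by ring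
      rw [e]
      exact dvd_add hc (dvd_mul_right _ _)
    · intro l hl
      rcases Finset.mem_insert.1 hl with rfl | hl
      · have e : c + u * (W * ∏ j ∈ s, Q j) * (r l - c) - r l = Q l * (-(v * (r l - c))) := by
          have : u * (W * ∏ j ∈ s, Q j) = 1 - v * Q l := by linarith
          rw [this]; ring
        rw [e]
        exact dvd_mul_right _ _
      · have e : c + u * (W * ∏ j ∈ s, Q j) * (r k - c) - r l
            = (c - r l) + (∏ j ∈ s, Q j) * (u * W * (r k - c)) := by ring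
        rw [e]
        exact dvd_add (hcs l hl) (Dvd.dvd.mul_right (Finset.dvd_prod_of_mem _ hl) _)

theorem crtb_iff (W : ℤ) (Q : ι → ℤ) (hWQ : ∀ k, IsCoprime W (Q k))
    (hQ : Pairwise (fun k l => IsCoprime (Q k) (Q l))) (b : ℤ) (r : ι → ℤ) :
    ∃ c : ℤ, W ∣ c - b ∧ (∀ k, Q k ∣ c - r k) ∧
      ∀ x : ℤ, (W ∣ x - b ∧ ∀ k, Q k ∣ x - r k) ↔ W * ∏ k, Q k ∣ x - c := by
  obtain ⟨c, hc, hcs⟩ := crtb_exists W Q hWQ hQ b r Finset.univ
  have hcs' : ∀ k, Q k ∣ c - r k := fun k => hcs k (Finset.mem_univ k)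
  refine ⟨c, hc, hcs', fun x => ⟨?_, ?_⟩⟩
  · rintro ⟨h1, h2⟩
    have h3 : W ∣ x - c := by
      have e : x - c = (x - b) - (c - b) := by ring
      rw [e]; exact dvd_sub h1 hc
    have h4 : ∏ k, Q k ∣ x - c := by
      refine Finset.prod_dvd_of_coprime (fun k _ l _ hkl => hQ hkl) (fun k _ => ?_)
      have e : x - c = (x - r k) - (c - r k) := by ring
      rw [e]; exact dvd_sub (h2 k) (hcs' k)
    exact IsCoprime.mul_dvd (IsCoprime.prod_right (fun k _ => hWQ k)) h3 h4
  · intro h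
    refine ⟨?_, fun k => ?_⟩
    · have e : x - b = (x - c) + (c - b) := by ring
      rw [e]; exact dvd_add ((dvd_mul_right _ _).trans h) hc
    · have e : x - r k = (x - c) + (c - r k) := by ring
      rw [e]
      exact dvd_add (((Finset.dvd_prod_of_mem _ (Finset.mem_univ k)).trans
        (dvd_mul_left _ _)).trans h) (hcs' k)

/-- modulus at `k` -/
def crtbQ (P : ι → ℕ) (d e : ι → Option I) (k : ι) : ℕ :=
  if d k = none ∧ e k = none then 1 else P k

/-- residue at `k` -/
def crtbR (f : I → ℤ) (d e : ι → Option I) (k : ι) : ℤ :=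
  (d k).elim ((e k).elim 0 f) f

theorem crtb_cond (P : ι → ℕ) (f : I → ℤ) (d e : ι → Option I) (hde : compat d e) (x : ℤ) :
    ((∀ k i, d k = some i → (P k : ℤ) ∣ x - f i) ∧ (∀ k i, e k = some i → (P k : ℤ) ∣ x - f i)) ↔
      ∀ k, (crtbQ P d e k : ℤ) ∣ x - crtbR f d e k := by
  constructor
  · rintro ⟨h1, h2⟩ k
    unfold crtbQ crtbR
    rcases hd : d k with _ | i
    · rcases he : e k with _ | j
      · simp
      · simpa using h2 k j he
    · simpa using h1 k i hd
  · intro h
    refine ⟨fun k i hi => ?_, fun k j hj => ?_⟩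
    · have := h k
      unfold crtbQ crtbR at this
      simpa [hi] using this
    · have := h k
      unfold crtbQ crtbR at this
      rcases hd : d k with _ | i
      · simpa [hd, hj] using this
      · have hij := hde k i j hd hj
        subst hij
        simpa [hd, hj] using this

theorem crtb_prod (P : ι → ℕ) (d e : ι → Option I) : ∏ k, crtbQ P d e k = totJ P d e := rfl

theorem crtb_Q_coprime (P : ι → ℕ) (hP : ∀ k, (P k).Prime) (hinj : Function.Injective P)
    (d e : ι → Option I) :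
    Pairwise (fun k l => IsCoprime (crtbQ P d e k : ℤ) (crtbQ P d e l : ℤ)) := by
  intro k l hkl
  rw [Nat.isCoprime_iff_coprime]
  unfold crtbQ
  have h : Nat.Coprime (P k) (P l) :=
    (Nat.coprime_primes (hP k) (hP l)).2 (fun h => hkl (hinj h))
  split_ifs <;> first | exact h | simp

theorem crtb_W_coprime (P : ι → ℕ) (hP : ∀ k, (P k).Prime) (W : ℕ) (hPW : ∀ k, ¬ P k ∣ W)
    (d e : ι → Option I) (k : ι) : IsCoprime (W : ℤ) (crtbQ P d e k : ℤ) := by
  rw [Nat.isCoprime_iff_coprime]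
  unfold crtbQ
  have h : Nat.Coprime W (P k) := ((hP k).coprime_iff_not_dvd.2 (hPW k)).symm
  split_ifs <;> first | exact h | simp

theorem crt_dv (P : ι → ℕ) (hP : ∀ k, (P k).Prime) (hinj : Function.Injective P) (h : I → ℕ)
    (W b : ℕ) (hW : 0 < W) (hPW : ∀ k, ¬ P k ∣ W)
    (d e : ι → Option I) (hde : compat d e) :
    ∃ c : ℕ, ∀ N : ℕ, (N % W = b % W ∧ dv P h d N ∧ dv P h e N) ↔
      N % (W * totJ P d e) = c % (W * totJ P d e) := by
  obtain ⟨c, -, -, hc⟩ := crtb_iff (W : ℤ) (fun k => (crtbQ P d e k : ℤ))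
    (crtb_W_coprime P hP W hPW d e) (crtb_Q_coprime P hP hinj d e) (b : ℤ)
    (crtbR (fun i => -(h i : ℤ)) d e)
  have hM : (W : ℤ) * ∏ k, (crtbQ P d e k : ℤ) = ((W * totJ P d e : ℕ) : ℤ) := by
    rw [← crtb_prod]; push_cast; rfl
  rw [hM] at hc
  have hMpos : 0 < W * totJ P d e := by
    refine Nat.mul_pos hW ?_
    rw [← crtb_prod]
    refine Finset.prod_pos (fun k _ => ?_)
    unfold crtbQ
    split_ifs
    · exact one_pos
    · exact (hP k).pos
  set M : ℕ := W * totJ P d e with hMdef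
  have hMz : (M : ℤ) ≠ 0 := by exact_mod_cast hMpos.ne'
  refine ⟨(c % (M : ℤ)).toNat, fun N => ?_⟩
  have hcn : (((c % (M : ℤ)).toNat : ℕ) : ℤ) = c % (M : ℤ) :=
    Int.toNat_of_nonneg (Int.emod_nonneg _ hMz)
  have e1 : (N % W = b % W) ↔ (W : ℤ) ∣ (N : ℤ) - b := by
    constructor
    · intro hh
      exact (Nat.modEq_iff_dvd.1 (show b ≡ N [MOD W] from hh.symm))
    · intro hh
      exact ((Nat.modEq_iff_dvd.2 hh : b ≡ N [MOD W])).symm
  have e2 : (N % M = (c % (M : ℤ)).toNat % M) ↔ (M : ℤ) ∣ (N : ℤ) - c := by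
    have e3 : (M : ℤ) ∣ (N : ℤ) - c ↔ (M : ℤ) ∣ (N : ℤ) - ((c % (M : ℤ)).toNat : ℕ) := by
      rw [hcn]
      have e4 : (N : ℤ) - c % (M : ℤ) = ((N : ℤ) - c) + M * (c / (M : ℤ)) := by
        have := Int.emod_add_mul_ediv c (M : ℤ)
        linarith
      rw [e4]
      exact (dvd_add_left (dvd_mul_right _ _)).symm
    rw [e3]
    constructor
    · intro hh
      exact (Nat.modEq_iff_dvd.1 (show _ ≡ N [MOD M] from hh.symm))
    · intro hh
      exact ((Nat.modEq_iff_dvd.2 hh : _ ≡ N [MOD M])).symm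
  rw [e1, e2, ← hc]
  have e5 := crtb_cond P (fun i => -(h i : ℤ)) d e hde (N : ℤ)
  rw [← e5]
  refine and_congr_right (fun _ => ?_)
  unfold dv
  have e6 : ∀ (k : ι) (i : I), (P k ∣ N + h i) ↔ (P k : ℤ) ∣ (N : ℤ) - -(h i : ℤ) := by
    intro k i
    rw [sub_neg_eq_add]
    exact_mod_cast Iff.rfl
  simp only [e6]

theorem crt_dvm (P : ι → ℕ) (hP : ∀ k, (P k).Prime) (hinj : Function.Injective P) (h : I → ℕ)
    (hdiff : ∀ k i j, i ≠ j → ¬ (P k : ℤ) ∣ (h i : ℤ) - h j)
    (W b : ℕ) (hW : 0 < W) (hPW : ∀ k, ¬ P k ∣ W) (m : I) (hb : Nat.Coprime (b + h m) W)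
    (d e : ι → Option I) (hd : noL m d) (he : noL m e) (hde : compat d e) :
    ∃ a : ℤ, IsCoprime a ((W * totJ P d e : ℕ) : ℤ) ∧ ∀ p : ℕ,
      ((W : ℤ) ∣ (p : ℤ) - (b + h m) ∧ dvm P h m d p ∧ dvm P h m e p) ↔
      ((W * totJ P d e : ℕ) : ℤ) ∣ (p : ℤ) - a := by
  obtain ⟨c, hc1, hc2, hc⟩ := crtb_iff (W : ℤ) (fun k => (crtbQ P d e k : ℤ))
    (crtb_W_coprime P hP W hPW d e) (crtb_Q_coprime P hP hinj d e) ((b : ℤ) + h m)
    (crtbR (fun i => (h m : ℤ) - (h i : ℤ)) d e)
  have hM : (W : ℤ) * ∏ k, (crtbQ P d e k : ℤ) = ((W * totJ P d e : ℕ) : ℤ) := by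
    rw [← crtb_prod]; push_cast; rfl
  have hcop : IsCoprime c ((W * totJ P d e : ℕ) : ℤ) := by
    rw [← hM]
    refine IsCoprime.mul_right ?_ (IsCoprime.prod_right (fun k _ => ?_))
    · have h1 : IsCoprime ((b : ℤ) + h m) (W : ℤ) := by
        have := Nat.isCoprime_iff_coprime.2 hb
        simpa using this
      obtain ⟨t, ht⟩ := hc1
      have : c = ((b : ℤ) + h m) + t * W := by linarith
      rw [this]
      exact h1.add_mul_right_left t
    · have h1 : IsCoprime (crtbR (fun i => (h m : ℤ) - (h i : ℤ)) d e k)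
          (crtbQ P d e k : ℤ) := by
        have hcopi : ∀ i, i ≠ m → IsCoprime ((h m : ℤ) - (h i : ℤ)) (P k : ℤ) := by
          intro i him
          have := (Nat.prime_iff_prime_int.1 (hP k)).coprime_iff_not_dvd.2
            (hdiff k m i (Ne.symm him))
          exact this.symm
        unfold crtbQ crtbR
        rcases hdk : d k with _ | i
        · rcases hek : e k with _ | j
          · simpa using isCoprime_one_right
          · have hjm : j ≠ m := by
              rintro rfl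
              exact he k hek
            simpa using hcopi j hjm
        · have him : i ≠ m := by
            rintro rfl
            exact hd k hdk
          simpa using hcopi i him
      obtain ⟨t, ht⟩ := hc2 k
      have : c = crtbR (fun i => (h m : ℤ) - (h i : ℤ)) d e k + t * crtbQ P d e k := by
        linarith
      rw [this]
      exact h1.add_mul_right_left t
  refine ⟨c, hcop, fun p => ?_⟩
  rw [← hM, ← hc]
  have e5 := crtb_cond P (fun i => (h m : ℤ) - (h i : ℤ)) d e hde (p : ℤ)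
  rw [← e5]
  refine and_congr_right (fun _ => ?_)
  unfold dvm
  have e6 : ∀ (i : I), (p : ℤ) - h m + h i = (p : ℤ) - ((h m : ℤ) - (h i : ℤ)) := by
    intro i; ring
  simp only [e6]

end Pool.Agent.H21.MT
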