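import Pool.Agent.H21.MT.CrtA
import Pool.Agent.H21.MT.CrtB

/-!
[H21 MT CNT]  The two counting lemmas (expand the square, use CRT).

Proof of `count_sig`.  Expand `sig^2 = ∑ d e [dv d N] [dv e N] lam d * lam e`, exchange with the sum
over `N`.  If `¬ compat d e` the inner sum is empty (`not_dv`) and `∏ mloc = 0` (`prod_mloc`).
If `compat d e`, by `crt_dv` the inner sum is the sum of `w` over one residue class modulo
`W * totJ P d e`, so it differs from `X / (W * totJ) = X / W * ∏ mloc` by at most `B`.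

Proof of `prime_sig`.  The same with `crt_dvm` and `prod_mloc'`,
`φ (W * totJ) = φ W * φ (totJ)` (coprime).  Terms with `offL m lam d = 0` vanish, the others have
`noL m d`.
-/

set_option linter.unusedSectionVars false

namespace Pool.Agent.H21.MT

open Finset

variable {ι I : Type} [Fintype ι] [DecidableEq ι] [Fintype I] [DecidableEq I]

theorem count_sig (P : ι → ℕ) (hP : ∀ k, (P k).Prime) (hinj : Function.Injective P) (h : I → ℕ)
    (hdiff : ∀ k i j, i ≠ j → ¬ (P k : ℤ) ∣ (h i : ℤ) - h j)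
    (W b : ℕ) (hW : 0 < W) (hPW : ∀ k, ¬ P k ∣ W)
    (Win : Finset ℕ) (w : ℕ → ℝ) (X B : ℝ)
    (hAP : ∀ q c : ℕ, 0 < q → |∑ N ∈ Win.filter (fun N => N % q = c % q), w N - X / q| ≤ B)
    (lam : (ι → Option I) → ℝ) :
    |∑ N ∈ Win.filter (fun N => N % W = b % W), w N * (sig P h lam N) ^ 2 -
        X / W * mform (fun k => (1 : ℝ) / P k) lam| ≤ B * (∑ d, |lam d|) ^ 2 := by
  classical
  have hB : 0 ≤ B := (abs_nonneg _).trans (hAP 1 0 one_pos)
  have h1 : ∑ N ∈ Win.filter (fun N => N % W = b % W), w N * (sig P h lam N) ^ 2 =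
      ∑ d, ∑ e, lam d * lam e *
        ∑ N ∈ Win.filter (fun N => N % W = b % W ∧ dv P h d N ∧ dv P h e N), w N := by
    have hs : ∀ N, sig P h lam N = ∑ d, if dv P h d N then lam d else 0 := fun N => by
      unfold sig
      rw [Finset.sum_filter]
    simp_rw [hs, sq, Finset.sum_mul_sum, Finset.mul_sum]
    rw [Finset.sum_comm]
    apply Finset.sum_congr rfl
    intro d _
    rw [Finset.sum_comm]
    apply Finset.sum_congr rfl
    intro e _
    rw [Finset.sum_filter, Finset.sum_filter]
    apply Finset.sum_congr rfl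
    intro N _
    by_cases h1 : N % W = b % W <;> by_cases h2 : dv P h d N <;> by_cases h3 : dv P h e N <;>
      simp [h1, h2, h3] <;> ring
  have h2 : X / W * mform (fun k => (1 : ℝ) / P k) lam =
      ∑ d, ∑ e, lam d * lam e * (X / W * ∏ k, mloc ((1 : ℝ) / P k) (d k) (e k)) := by
    unfold mform
    rw [Finset.mul_sum]
    apply Finset.sum_congr rfl
    intro d _
    rw [Finset.mul_sum]
    apply Finset.sum_congr rfl
    intro e _
    ring
  rw [h1, h2, ← Finset.sum_sub_distrib]
  have h3 : B * (∑ d, |lam d|) ^ 2 = ∑ d, ∑ e, |lam d| * |lam e| * B := by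
    rw [sq, Finset.sum_mul_sum, Finset.mul_sum]
    apply Finset.sum_congr rfl
    intro d _
    rw [Finset.mul_sum]
    apply Finset.sum_congr rfl
    intro e _
    ring
  rw [h3]
  refine (Finset.abs_sum_le_sum_abs _ _).trans (Finset.sum_le_sum fun d _ => ?_)
  rw [← Finset.sum_sub_distrib]
  refine (Finset.abs_sum_le_sum_abs _ _).trans (Finset.sum_le_sum fun e _ => ?_)
  rw [← mul_sub, abs_mul, abs_mul]
  apply mul_le_mul_of_nonneg_left _ (by positivity)
  rw [prod_mloc P hP d e]
  by_cases hde : compat d e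
  · rw [if_pos hde]
    obtain ⟨c, hc⟩ := crt_dv P hP hinj h W b hW hPW d e hde
    have hpos : 0 < totJ P d e := by
      unfold totJ
      apply Finset.prod_pos
      intro k _
      split_ifs
      · exact one_pos
      · exact (hP k).pos
    have h4 := hAP (W * totJ P d e) c (Nat.mul_pos hW hpos)
    have h5 : Win.filter (fun N => N % W = b % W ∧ dv P h d N ∧ dv P h e N) =
        Win.filter (fun N => N % (W * totJ P d e) = c % (W * totJ P d e)) :=
      Finset.filter_congr fun N _ => hc N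
    rw [h5]
    have h6 : X / W * (1 / (totJ P d e : ℝ)) = X / ((W * totJ P d e : ℕ) : ℝ) := by
      push_cast
      rw [div_mul_div_comm, mul_one]
    rw [h6]
    exact h4
  · rw [if_neg hde]
    have h5 : Win.filter (fun N => N % W = b % W ∧ dv P h d N ∧ dv P h e N) = ∅ := by
      apply Finset.filter_eq_empty_iff.mpr
      intro N _ hN
      exact not_dv P h hdiff d e hde N hN.2
    rw [h5]
    simpa using hB

theorem prime_sig (P : ι → ℕ) (hP : ∀ k, (P k).Prime) (hinj : Function.Injective P) (h : I → ℕ)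
    (hdiff : ∀ k i j, i ≠ j → ¬ (P k : ℤ) ∣ (h i : ℤ) - h j)
    (W b : ℕ) (hW : 0 < W) (hPW : ∀ k, ¬ P k ∣ W) (m : I) (hb : Nat.Coprime (b + h m) W)
    (Wp : Finset ℕ) (v : ℕ → ℝ) (M : ℝ) (E : ℕ → ℝ) (lam : (ι → Option I) → ℝ)
    (hE0 : ∀ q, 0 ≤ E q)
    (hE : ∀ d e, offL m lam d ≠ 0 → offL m lam e ≠ 0 → ∀ a : ℤ,
      IsCoprime a ((W * totJ P d e : ℕ) : ℤ) →
      |∑ p ∈ Wp.filter (fun p : ℕ => ((W * totJ P d e : ℕ) : ℤ) ∣ (p : ℤ) - a), v p -
        M / (W * totJ P d e).totient| ≤ E (W * totJ P d e)) :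
    |∑ p ∈ Wp.filter (fun p : ℕ => (W : ℤ) ∣ (p : ℤ) - (b + h m)),
        v p * (∑ d ∈ univ.filter (fun d => dvm P h m d p), offL m lam d) ^ 2 -
        M / W.totient * mform (fun k => (1 : ℝ) / (P k - 1)) (offL m lam)| ≤
      ∑ d, ∑ e, |offL m lam d| * |offL m lam e| * E (W * totJ P d e) := by
  classical
  have h1 : ∑ p ∈ Wp.filter (fun p : ℕ => (W : ℤ) ∣ (p : ℤ) - (b + h m)),
        v p * (∑ d ∈ univ.filter (fun d => dvm P h m d p), offL m lam d) ^ 2 =
      ∑ d, ∑ e, offL m lam d * offL m lam e *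
        ∑ p ∈ Wp.filter (fun p : ℕ => (W : ℤ) ∣ (p : ℤ) - (b + h m) ∧ dvm P h m d p ∧
          dvm P h m e p), v p := by
    simp_rw [Finset.sum_filter (fun d => dvm P h m d _), sq, Finset.sum_mul_sum, Finset.mul_sum]
    rw [Finset.sum_comm]
    apply Finset.sum_congr rfl
    intro d _
    rw [Finset.sum_comm]
    apply Finset.sum_congr rfl
    intro e _
    rw [Finset.sum_filter, Finset.sum_filter]
    apply Finset.sum_congr rfl
    intro N _
    by_cases h1 : (W : ℤ) ∣ (N : ℤ) - (b + h m) <;> by_cases h2 : dvm P h m d N <;>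
      by_cases h3 : dvm P h m e N <;> simp [h1, h2, h3] <;> ring
  have h2 : M / W.totient * mform (fun k => (1 : ℝ) / (P k - 1)) (offL m lam) =
      ∑ d, ∑ e, offL m lam d * offL m lam e *
        (M / W.totient * ∏ k, mloc ((1 : ℝ) / (P k - 1)) (d k) (e k)) := by
    unfold mform
    rw [Finset.mul_sum]
    apply Finset.sum_congr rfl
    intro d _
    rw [Finset.mul_sum]
    apply Finset.sum_congr rfl
    intro e _
    ring
  rw [h1, h2, ← Finset.sum_sub_distrib]
  refine (Finset.abs_sum_le_sum_abs _ _).trans (Finset.sum_le_sum fun d _ => ?_)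
  rw [← Finset.sum_sub_distrib]
  refine (Finset.abs_sum_le_sum_abs _ _).trans (Finset.sum_le_sum fun e _ => ?_)
  rw [← mul_sub, abs_mul, abs_mul]
  by_cases hd0 : offL m lam d = 0
  · simp [hd0]
  by_cases he0 : offL m lam e = 0
  · simp [he0]
  apply mul_le_mul_of_nonneg_left _ (by positivity)
  have hd : noL m d := by
    by_contra hcon
    exact hd0 (by unfold offL; rw [if_neg hcon])
  have he : noL m e := by
    by_contra hcon
    exact he0 (by unfold offL; rw [if_neg hcon])
  rw [prod_mloc' P hP hinj d e]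
  by_cases hde : compat d e
  · rw [if_pos hde]
    obtain ⟨a, hac, ha⟩ := crt_dvm P hP hinj h hdiff W b hW hPW m hb d e hd he hde
    have h4 := hE d e hd0 he0 a hac
    have h5 : Wp.filter (fun p : ℕ => (W : ℤ) ∣ (p : ℤ) - (b + h m) ∧ dvm P h m d p ∧
          dvm P h m e p) =
        Wp.filter (fun p : ℕ => ((W * totJ P d e : ℕ) : ℤ) ∣ (p : ℤ) - a) :=
      Finset.filter_congr fun N _ => ha N
    rw [h5]
    have hcop : Nat.Coprime W (totJ P d e) := by
      unfold totJ
      apply Nat.Coprime.prod_right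
      intro k _
      split_ifs
      · exact Nat.coprime_one_right W
      · exact ((hP k).coprime_iff_not_dvd.mpr (hPW k)).symm
    have h6 : M / W.totient * (1 / ((totJ P d e).totient : ℝ)) =
        M / ((W * totJ P d e).totient : ℝ) := by
      rw [Nat.totient_mul hcop]
      push_cast
      rw [div_mul_div_comm, mul_one]
    rw [h6]
    exact h4
  · rw [if_neg hde]
    have h5 : Wp.filter (fun p : ℕ => (W : ℤ) ∣ (p : ℤ) - (b + h m) ∧ dvm P h m d p ∧
          dvm P h m e p) = ∅ := by
      apply Finset.filter_eq_empty_iff.mpr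
      intro N _ hN
      exact not_dvm P h hdiff m d e hde N hN.2
    rw [h5]
    simpa using hE0 (W * totJ P d e)

end Pool.Agent.H21.MT
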