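import Pool.Agent.H21.MT.Gw

/-!
[H21 MT GWA]  Sums of the Gaussian weights over the integers of the window.

Proofs.
* `wN_ap`: `wN x` is unimodal (increasing up to `x`, decreasing beyond) and `≤ 1`: `ap_sum` with
  `t = ⌊x⌋₊`, `B = 1`.
* `wN_mass`: lower bound: the `N` in `(x/2, x]` have `wN ≥ exp(-(log 2)^2/4) ≥ 1/2`; upper bound:
  `-(u^2)/4 ≤ -2u + 4` gives `wN x N ≤ e^4 (x/N)^2` for `N ≥ x` and `∑_{N > x} x^2/N^2 ≤ 2 x`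
  (`x ≥ 2`); so the mass is `≤ x + 1 + 2 e^4 x ≤ 120 x`.
-/

namespace Pool.Agent.H21.MT

open Finset Filter

theorem wN_mono_left (x : ℝ) (hx : 0 < x) (k : ℕ) (hk : 0 < k) (h : ((k + 1 : ℕ) : ℝ) ≤ x) :
    wN x k ≤ wN x (k + 1) := by
  unfold wN
  apply Real.exp_le_exp.2
  have hk' : (0 : ℝ) < k := by exact_mod_cast hk
  have h1 : Real.log (((k + 1 : ℕ) : ℝ) / x) ≤ 0 :=
    Real.log_nonpos (by positivity) ((div_le_one hx).2 h)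
  have h2 : Real.log ((k : ℝ) / x) ≤ Real.log (((k + 1 : ℕ) : ℝ) / x) := by
    apply Real.log_le_log (by positivity)
    have : (k : ℝ) ≤ ((k + 1 : ℕ) : ℝ) := by push_cast; linarith
    gcongr
  nlinarith

theorem wN_anti_right (x : ℝ) (hx : 0 < x) (k : ℕ) (h : x ≤ (k : ℝ)) :
    wN x (k + 1) ≤ wN x k := by
  unfold wN
  apply Real.exp_le_exp.2
  have hk' : (0 : ℝ) < k := by linarith
  have h1 : 0 ≤ Real.log ((k : ℝ) / x) := Real.log_nonneg ((one_le_div hx).2 h)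
  have h2 : Real.log ((k : ℝ) / x) ≤ Real.log (((k + 1 : ℕ) : ℝ) / x) := by
    apply Real.log_le_log (by positivity)
    have : (k : ℝ) ≤ ((k + 1 : ℕ) : ℝ) := by push_cast; linarith
    gcongr
  nlinarith

theorem wN_ap : ∀ᶠ x : ℝ in atTop, ∀ q c : ℕ, 0 < q →
    |∑ N ∈ (Win x).filter (fun N => N % q = c % q), wN x N - (∑ N ∈ Win x, wN x N) / q| ≤ 4 := by
  filter_upwards [eventually_ge_atTop (1 : ℝ)] with x hx q c hq
  have hx0 : 0 < x := by linarith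
  have h := ap_sum (wN x) ⌊Real.sqrt x⌋₊ ⌊x⌋₊ ⌊x ^ 2⌋₊ 1 (fun k => (wN_pos x k).le)
    (fun k => wN_le_one x k) (fun k hk hk' => ?_) (fun k hk hk' => ?_) q c hq
  · simpa [Win] using h
  · refine wN_mono_left x hx0 k (by omega) ?_
    exact (Nat.le_floor_iff hx0.le).1 hk'
  · refine wN_anti_right x hx0 k ?_
    exact ((Nat.floor_lt hx0.le).1 hk).le

theorem wN_tail_le (x : ℝ) (hx : 0 < x) (N : ℕ) (hN : 0 < N) :
    wN x N ≤ Real.exp 4 * (x ^ 2 * ((N : ℝ) ^ 2)⁻¹) := by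
  have hN' : (0 : ℝ) < N := by exact_mod_cast hN
  have h1 : x ^ 2 * ((N : ℝ) ^ 2)⁻¹ = Real.exp (-(2 * Real.log ((N : ℝ) / x))) := by
    rw [Real.exp_neg, two_mul, Real.exp_add, Real.exp_log (by positivity)]
    field_simp
  rw [h1, ← Real.exp_add]
  unfold wN
  apply Real.exp_le_exp.2
  nlinarith [sq_nonneg (Real.log ((N : ℝ) / x) / 2 - 2)]

theorem wN_mass : ∀ᶠ x : ℝ in atTop, x / 8 ≤ ∑ N ∈ Win x, wN x N ∧
    ∑ N ∈ Win x, wN x N ≤ 120 * x := by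
  filter_upwards [eventually_ge_atTop (4 : ℝ)] with x hx
  have hx0 : 0 < x := by linarith
  constructor
  · have hsub : Ioc ⌊x / 2⌋₊ ⌊x⌋₊ ⊆ Win x := by
      unfold Win
      apply Ioc_subset_Ioc
      · apply Nat.floor_le_floor
        rw [Real.sqrt_le_left (by positivity)]
        nlinarith
      · apply Nat.floor_le_floor
        nlinarith
    have h1 : ∑ N ∈ Ioc ⌊x / 2⌋₊ ⌊x⌋₊, (1 / 2 : ℝ) ≤ ∑ N ∈ Ioc ⌊x / 2⌋₊ ⌊x⌋₊, wN x N := by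
      refine sum_le_sum fun N hN => ?_
      obtain ⟨ha, hb⟩ := mem_Ioc.1 hN
      have ha' : x / 2 < N := (Nat.floor_lt (by positivity)).1 ha
      have hb' : (N : ℝ) ≤ x := (Nat.le_floor_iff hx0.le).1 hb
      have hN0 : (0 : ℝ) < N := by linarith
      have h2 : Real.log ((N : ℝ) / x) ≤ 0 := Real.log_nonpos (by positivity) ((div_le_one hx0).2 hb')
      have h3 : -Real.log 2 ≤ Real.log ((N : ℝ) / x) := by
        rw [← Real.log_inv]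
        apply Real.log_le_log (by norm_num)
        rw [le_div_iff₀ hx0]
        linarith
      have h4 := Real.log_two_lt_d9
      unfold wN
      have h5 : -(Real.log ((N : ℝ) / x)) ^ 2 / 4 ≥ -(1 / 2) := by nlinarith
      have h6 := Real.add_one_le_exp (-(Real.log ((N : ℝ) / x)) ^ 2 / 4)
      linarith
    rw [sum_const, Nat.card_Ioc, nsmul_eq_mul] at h1
    have h2 : ∑ N ∈ Ioc ⌊x / 2⌋₊ ⌊x⌋₊, wN x N ≤ ∑ N ∈ Win x, wN x N :=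
      sum_le_sum_of_subset_of_nonneg hsub fun N _ _ => (wN_pos x N).le
    have h3 : ⌊x / 2⌋₊ ≤ ⌊x⌋₊ := Nat.floor_le_floor (by linarith)
    rw [Nat.cast_sub h3] at h1
    have h4 := Nat.floor_le (show 0 ≤ x / 2 by positivity)
    have h5 := Nat.lt_floor_add_one x
    linarith
  · have hsub : Win x ⊆ Ioc 0 ⌊x⌋₊ ∪ Ioc ⌊x⌋₊ ⌊x ^ 2⌋₊ := by
      intro N hN
      unfold Win at hN
      rw [mem_Ioc] at hN
      rw [mem_union, mem_Ioc, mem_Ioc]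
      omega
    have h1 : ∑ N ∈ Win x, wN x N ≤ ∑ N ∈ Ioc 0 ⌊x⌋₊ ∪ Ioc ⌊x⌋₊ ⌊x ^ 2⌋₊, wN x N :=
      sum_le_sum_of_subset_of_nonneg hsub fun N _ _ => (wN_pos x N).le
    have hdis : Disjoint (Ioc 0 ⌊x⌋₊) (Ioc ⌊x⌋₊ ⌊x ^ 2⌋₊) := by
      rw [Finset.disjoint_left]
      intro N h2 h3
      rw [mem_Ioc] at h2 h3
      omega
    rw [sum_union hdis] at h1
    have h2 : ∑ N ∈ Ioc 0 ⌊x⌋₊, wN x N ≤ x := by
      calc ∑ N ∈ Ioc 0 ⌊x⌋₊, wN x N ≤ ∑ N ∈ Ioc 0 ⌊x⌋₊, (1 : ℝ) :=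
            sum_le_sum fun N _ => wN_le_one x N
        _ = (⌊x⌋₊ : ℝ) := by simp
        _ ≤ x := Nat.floor_le hx0.le
    have hM : 0 < ⌊x⌋₊ := Nat.floor_pos.2 (by linarith)
    have hle : ⌊x⌋₊ ≤ ⌊x ^ 2⌋₊ := Nat.floor_le_floor (by nlinarith)
    have h3 : ∑ N ∈ Ioc ⌊x⌋₊ ⌊x ^ 2⌋₊, wN x N ≤ Real.exp 4 * (x ^ 2 * (⌊x⌋₊ : ℝ)⁻¹) := by
      calc ∑ N ∈ Ioc ⌊x⌋₊ ⌊x ^ 2⌋₊, wN x N
          ≤ ∑ N ∈ Ioc ⌊x⌋₊ ⌊x ^ 2⌋₊, Real.exp 4 * (x ^ 2 * ((N : ℝ) ^ 2)⁻¹) :=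
            sum_le_sum fun N hN => wN_tail_le x hx0 N (by have := (mem_Ioc.1 hN).1; omega)
        _ = Real.exp 4 * (x ^ 2 * ∑ N ∈ Ioc ⌊x⌋₊ ⌊x ^ 2⌋₊, ((N : ℝ) ^ 2)⁻¹) := by
            rw [mul_sum, mul_sum]
        _ ≤ Real.exp 4 * (x ^ 2 * (⌊x⌋₊ : ℝ)⁻¹) := by
            have h4 := sum_Ioc_inv_sq_le_sub (α := ℝ) hM.ne' hle
            have h5 : (0 : ℝ) ≤ (⌊x ^ 2⌋₊ : ℝ)⁻¹ := by positivity
            gcongr
            linarith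
    have h4 : x ^ 2 * (⌊x⌋₊ : ℝ)⁻¹ ≤ 4 / 3 * x := by
      have h5 := Nat.lt_floor_add_one x
      have hM' : (0 : ℝ) < ⌊x⌋₊ := by exact_mod_cast hM
      rw [← div_eq_mul_inv, div_le_iff₀ hM']
      nlinarith
    have h5 : Real.exp 4 ≤ 55 := by
      have h6 := Real.exp_one_lt_d9
      have h7 : Real.exp 4 = Real.exp 1 ^ 4 := by
        rw [← Real.exp_nat_mul]; norm_num
      rw [h7]
      have h8 := Real.exp_pos 1
      calc Real.exp 1 ^ 4 ≤ 2.7182818286 ^ 4 := by gcongr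
        _ ≤ 55 := by norm_num
    have h6 : Real.exp 4 * (x ^ 2 * (⌊x⌋₊ : ℝ)⁻¹) ≤ 55 * (4 / 3 * x) :=
      mul_le_mul h5 h4 (by positivity) (by norm_num)
    linarith

end Pool.Agent.H21.MT
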