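import Pool.Agent.H21.MT.Dat

/-!
[H21 MT PARB]  The sums of the profile for the data, for large `x`.

Proofs.  Constants `C` from `hsum δ.W δ.D` (`D ≥ 1000`); `V log (z i) = V tau i log R → ∞`,
`(z i)^{2^l} = R^{tau i 2^l} ≤ R^{1/2} ≤ R`; apply `prof_est` with `z = δ.z x i`
(`log (z i) = tau i log R`, `log R = log x /100`).
* `par_C`: `C_i/B_i ≤ (102/96)(l_i+1) tau_i log R`, sum `≤ (102/960) log R ≤ (1/8) log R`.
* `par_AB`: `A ≥ 1`, `B ≥ 1` (the term `T = ∅`, `g 1 = 1`), `A ≤ HH(R) ≤ 1 + log x`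
  (`HH y ≤ ∑_{n ≤ y} 1/n`); `A^2/B`: `48^2/151 ≥ 1500`, i.e. `0.48^2/1.51 ≥ 0.15`,
  `0.505^2/0.96 ≤ 0.27`.
* `par_H`: `HH (R^{1/m}) ≥ 97/100 (V log R/m - C) ≥ (9/10) V log R/m` for `m ≤ K` and `x` large.
-/

set_option linter.unusedSectionVars false

namespace Pool.Agent.H21.MT

open Finset Filter

variable {I : Type} [Fintype I] [DecidableEq I] [Nonempty I] (δ : Dat I)

theorem V_pos (δ : Dat I) : 0 < δ.V := by
  unfold Dat.V
  have h1 : 0 < δ.W.totient := Nat.totient_pos.mpr δ.W_pos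
  have h2 := δ.W_pos
  positivity

theorem V_le_one (δ : Dat I) : δ.V ≤ 1 := by
  unfold Dat.V
  have h2 : (0 : ℝ) < δ.W := by exact_mod_cast δ.W_pos
  rw [div_le_one h2]
  exact_mod_cast Nat.totient_le δ.W

theorem logR (x : ℝ) (hx : 0 < x) : Real.log (Dat.R x) = Real.log x / 100 := by
  unfold Dat.R
  rw [Real.log_rpow hx]
  ring

theorem logR_tendsto : Tendsto (fun x : ℝ => Real.log (Dat.R x)) atTop atTop := by
  have h : Tendsto (fun x : ℝ => Real.log x / 100) atTop atTop :=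
    Real.tendsto_log_atTop.atTop_div_const (by norm_num)
  refine h.congr' ?_
  filter_upwards [eventually_gt_atTop (0 : ℝ)] with x hx
  rw [logR x hx]

theorem card_pos' : 1 ≤ Fintype.card I := Fintype.card_pos

theorem D_ge (δ : Dat I) : 1000 ≤ δ.D := by
  have h := δ.D_large
  have h1 : 1 ≤ (Fintype.card I) ^ 2 := Nat.one_le_pow _ _ (card_pos' (I := I))
  omega

/-- all estimates for the profile of the data -/
theorem par_est : ∀ᶠ x : ℝ in atTop, 1 < x ∧ ∀ i, 2 ≤ δ.V * (δ.tau i * Real.log (Dat.R x)) ∧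
    48 / 100 * (δ.l i + 2) * (δ.V * (δ.tau i * Real.log (Dat.R x))) ≤ δ.A x i ∧
    δ.A x i ≤ 505 / 1000 * (δ.l i + 2) * (δ.V * (δ.tau i * Real.log (Dat.R x))) ∧
    96 / 100 * (δ.V * (δ.tau i * Real.log (Dat.R x))) ≤ δ.B x i ∧
    δ.B x i ≤ 151 / 100 * (δ.V * (δ.tau i * Real.log (Dat.R x))) ∧
    SS (δ.P x) (fun b => δ.g x i b ^ 2 * Real.log b) ≤
      102 / 100 * (δ.l i + 1) * (δ.V * (δ.tau i * Real.log (Dat.R x))) *
        (δ.tau i * Real.log (Dat.R x)) := by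
  obtain ⟨C, hC0, hC⟩ := hsum δ.W δ.D δ.W_pos (by have := D_ge δ; omega) δ.D_dvd
  have hV := V_pos δ
  have hbig : ∀ᶠ x : ℝ in atTop, ∀ i, max (100 * C) 2 ≤ δ.V * (δ.tau i * Real.log (Dat.R x)) := by
    rw [eventually_all]
    intro i
    have : Tendsto (fun x : ℝ => δ.V * (δ.tau i * Real.log (Dat.R x))) atTop atTop :=
      (logR_tendsto.const_mul_atTop (δ.tau_pos i)).const_mul_atTop hV
    exact this.eventually_ge_atTop _
  filter_upwards [eventually_gt_atTop (1 : ℝ), hbig] with x hx hb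
  refine ⟨hx, fun i => ?_⟩
  have hR1 : 1 ≤ Dat.R x := Real.one_le_rpow hx.le (by norm_num)
  have hR0 : 0 < Dat.R x := by linarith
  have hτ := δ.tau_pos i
  have hz1 : 1 ≤ δ.z x i := Real.one_le_rpow hR1 hτ.le
  have hlogz : Real.log (δ.z x i) = δ.tau i * Real.log (Dat.R x) := by
    unfold Dat.z
    rw [Real.log_rpow hR0]
  have hzR : (δ.z x i) ^ (2 ^ (δ.l i)) ≤ Dat.R x := by
    unfold Dat.z
    rw [← Real.rpow_natCast, ← Real.rpow_mul hR0.le]
    calc (Dat.R x) ^ (δ.tau i * ((2 ^ (δ.l i) : ℕ) : ℝ)) ≤ (Dat.R x) ^ (1 : ℝ) := by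
          apply Real.rpow_le_rpow_of_exponent_le hR1
          have := δ.l_tau i
          push_cast
          linarith
      _ = Dat.R x := Real.rpow_one _
  have hbi := hb i
  have h100 : 100 * C ≤ δ.V * Real.log (δ.z x i) := by
    rw [hlogz]
    exact (le_max_left _ _).trans hbi
  have key := prof_est (δ.P x) (fun k => (Pv_prime _ _ k).pos) δ.V C (Dat.R x) (δ.z x i) (δ.l i) hV
    hC0.le hz1 hzR (fun y hy1 hyR => hC (Dat.R x) y hy1 hyR) h100
  rw [hlogz] at key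
  obtain ⟨k1, k2, k3, k4, k5⟩ := key
  exact ⟨(le_max_right _ _).trans hbi, k1, k2, k3, k4, k5⟩

theorem par_C : ∀ᶠ x : ℝ in atTop,
    ∑ i, SS (δ.P x) (fun b => δ.g x i b ^ 2 * Real.log b) / SS (δ.P x) (fun b => δ.g x i b ^ 2) ≤
      (1 / 8) * Real.log (Dat.R x) := by
  filter_upwards [par_est δ] with x hx
  obtain ⟨hx1, h⟩ := hx
  have hlR : 0 ≤ Real.log (Dat.R x) := by
    rw [logR x (by linarith)]
    have := Real.log_nonneg hx1.le
    linarith
  have hi : ∀ i, SS (δ.P x) (fun b => δ.g x i b ^ 2 * Real.log b) /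
      SS (δ.P x) (fun b => δ.g x i b ^ 2) ≤
      (17 / 16) * Real.log (Dat.R x) * (((δ.l i : ℝ) + 1) * δ.tau i) := by
    intro i
    obtain ⟨h2, -, -, hB, -, hCi⟩ := h i
    have hB' : 96 / 100 * (δ.V * (δ.tau i * Real.log (Dat.R x))) ≤
        SS (δ.P x) (fun b => δ.g x i b ^ 2) := hB
    have hBpos : 0 < SS (δ.P x) (fun b => δ.g x i b ^ 2) := by linarith
    rw [div_le_iff₀ hBpos]
    have hc : 0 ≤ (17 / 16) * Real.log (Dat.R x) * (((δ.l i : ℝ) + 1) * δ.tau i) := by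
      have := δ.tau_pos i
      positivity
    calc SS (δ.P x) (fun b => δ.g x i b ^ 2 * Real.log b)
        ≤ 102 / 100 * (δ.l i + 1) * (δ.V * (δ.tau i * Real.log (Dat.R x))) *
          (δ.tau i * Real.log (Dat.R x)) := hCi
      _ = (17 / 16) * Real.log (Dat.R x) * (((δ.l i : ℝ) + 1) * δ.tau i) *
          (96 / 100 * (δ.V * (δ.tau i * Real.log (Dat.R x)))) := by ring
      _ ≤ _ := mul_le_mul_of_nonneg_left hB' hc
  calc _ ≤ ∑ i, (17 / 16) * Real.log (Dat.R x) * (((δ.l i : ℝ) + 1) * δ.tau i) :=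
        Finset.sum_le_sum (fun i _ => hi i)
    _ = (17 / 16) * Real.log (Dat.R x) * ∑ i, (((δ.l i : ℝ) + 1) * δ.tau i) := by
        rw [Finset.mul_sum]
    _ ≤ (17 / 16) * Real.log (Dat.R x) * (1 / 10) :=
        mul_le_mul_of_nonneg_left δ.budget (by positivity)
    _ ≤ _ := by linarith

theorem par_AB : ∀ᶠ x : ℝ in atTop, ∀ i, 1 ≤ δ.A x i ∧ 1 ≤ δ.B x i ∧
    δ.A x i ≤ 1 + Real.log x ∧
    (15 / 100) * (δ.l i + 2) ^ 2 * (δ.V * δ.tau i * Real.log (Dat.R x)) * δ.B x i ≤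
      δ.A x i ^ 2 ∧
    δ.A x i ^ 2 ≤
      (27 / 100) * (δ.l i + 2) ^ 2 * (δ.V * δ.tau i * Real.log (Dat.R x)) * δ.B x i := by
  filter_upwards [par_est δ] with x hx
  obtain ⟨hx1, h⟩ := hx
  intro i
  obtain ⟨h2, hA1, hA2, hB1, hB2, -⟩ := h i
  have hlx : 0 ≤ Real.log x := Real.log_nonneg hx1.le
  have hlR : Real.log (Dat.R x) = Real.log x / 100 := logR x (by linarith)
  have hl0 : (0 : ℝ) ≤ (δ.l i : ℝ) := Nat.cast_nonneg _
  have hτ := δ.tau_pos i
  have hV := V_pos δ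
  have hV1 := V_le_one δ
  set Q := δ.V * (δ.tau i * Real.log (Dat.R x)) with hQ
  have hQ' : δ.V * δ.tau i * Real.log (Dat.R x) = Q := by rw [hQ]; ring
  rw [hQ']
  set a := δ.A x i
  set b := δ.B x i
  set m : ℝ := (δ.l i : ℝ) + 2 with hm
  have hm2 : 2 ≤ m := by linarith
  have hQ0 : 0 ≤ Q := by linarith
  have hmQ : 0 ≤ m * Q := by positivity
  have h1a : 1 ≤ a := by
    have : 4 ≤ m * Q := by nlinarith
    linarith
  refine ⟨h1a, by linarith, ?_, ?_, ?_⟩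
  · -- (l+2) tau ≤ 1/5
    have hbud : ((δ.l i : ℝ) + 1) * δ.tau i ≤ 1 / 10 := by
      refine le_trans ?_ δ.budget
      exact Finset.single_le_sum (f := fun i => ((δ.l i : ℝ) + 1) * δ.tau i)
        (fun j _ => by have := δ.tau_pos j; positivity) (Finset.mem_univ i)
    have hmt : m * δ.tau i ≤ 1 / 5 := by
      have : 0 ≤ (δ.l i : ℝ) * δ.tau i := by positivity
      rw [hm]
      nlinarith
    have hmQ2 : m * Q ≤ 1 / 5 * (Real.log x / 100) := by
      rw [hQ, hlR]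
      have h3 : m * (δ.V * (δ.tau i * (Real.log x / 100))) =
          δ.V * ((m * δ.tau i) * (Real.log x / 100)) := by ring
      rw [h3]
      have h4 : 0 ≤ (m * δ.tau i) * (Real.log x / 100) := by positivity
      calc δ.V * ((m * δ.tau i) * (Real.log x / 100)) ≤ 1 * ((m * δ.tau i) * (Real.log x / 100)) :=
            mul_le_mul_of_nonneg_right hV1 h4
        _ = (m * δ.tau i) * (Real.log x / 100) := one_mul _
        _ ≤ 1 / 5 * (Real.log x / 100) := mul_le_mul_of_nonneg_right hmt (by positivity)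
    linarith
  · have h3 : (48 / 100 * m * Q) ^ 2 ≤ a ^ 2 := pow_le_pow_left₀ (by positivity) hA1 2
    have h4 : (15 / 100) * m ^ 2 * Q * b ≤ (15 / 100) * m ^ 2 * Q * (151 / 100 * Q) :=
      mul_le_mul_of_nonneg_left hB2 (by positivity)
    have h5 : 0 ≤ m ^ 2 * Q ^ 2 := by positivity
    nlinarith
  · have h3 : a ^ 2 ≤ (505 / 1000 * m * Q) ^ 2 := pow_le_pow_left₀ (by linarith) hA2 2
    have h4 : (27 / 100) * m ^ 2 * Q * (96 / 100 * Q) ≤ (27 / 100) * m ^ 2 * Q * b :=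
      mul_le_mul_of_nonneg_left hB1 (by positivity)
    have h5 : 0 ≤ m ^ 2 * Q ^ 2 := by positivity
    nlinarith

theorem par_H : ∀ᶠ x : ℝ in atTop, ∀ m : ℕ, 1 ≤ m → m ≤ Fintype.card I →
    1 ≤ HH (δ.P x) ((Dat.R x) ^ (1 / (m : ℝ))) ∧
    HH (δ.P x) ((Dat.R x) ^ (1 / (m : ℝ))) ≤ 1 + Real.log x ∧
    (9 / 10) * δ.V * Real.log (Dat.R x) / m ≤ HH (δ.P x) ((Dat.R x) ^ (1 / (m : ℝ))) := by
  obtain ⟨C, hC0, hC⟩ := hsum δ.W δ.D δ.W_pos (by have := D_ge δ; omega) δ.D_dvd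
  have hV := V_pos δ
  have hV1 := V_le_one δ
  have hK : (0 : ℝ) < Fintype.card I := by exact_mod_cast (card_pos' (I := I))
  have hbig : ∀ᶠ x : ℝ in atTop, max (14 * C) 2 ≤
      (δ.V / Fintype.card I) * Real.log (Dat.R x) := by
    have : Tendsto (fun x : ℝ => (δ.V / Fintype.card I) * Real.log (Dat.R x)) atTop atTop :=
      logR_tendsto.const_mul_atTop (by positivity)
    exact this.eventually_ge_atTop _
  filter_upwards [eventually_gt_atTop (1 : ℝ), hbig] with x hx hb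
  intro m hm hmK
  have hR1 : 1 ≤ Dat.R x := Real.one_le_rpow hx.le (by norm_num)
  have hR0 : 0 < Dat.R x := by linarith
  have hm0 : (0 : ℝ) < m := by exact_mod_cast hm
  have hm1 : (1 : ℝ) ≤ m := by exact_mod_cast hm
  have hmK' : (m : ℝ) ≤ Fintype.card I := by exact_mod_cast hmK
  have hlx : 0 ≤ Real.log x := Real.log_nonneg hx.le
  have hlR : Real.log (Dat.R x) = Real.log x / 100 := logR x (by linarith)
  have hlR0 : 0 ≤ Real.log (Dat.R x) := by rw [hlR]; positivity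
  have hy1 : 1 ≤ (Dat.R x) ^ (1 / (m : ℝ)) := Real.one_le_rpow hR1 (by positivity)
  have hyR : (Dat.R x) ^ (1 / (m : ℝ)) ≤ Dat.R x := by
    calc (Dat.R x) ^ (1 / (m : ℝ)) ≤ (Dat.R x) ^ (1 : ℝ) := by
          apply Real.rpow_le_rpow_of_exponent_le hR1
          rw [div_le_one hm0]
          exact hm1
      _ = Dat.R x := Real.rpow_one _
  have hlogy : Real.log ((Dat.R x) ^ (1 / (m : ℝ))) = Real.log (Dat.R x) / m := by
    rw [Real.log_rpow hR0]
    ring
  have key := hC (Dat.R x) ((Dat.R x) ^ (1 / (m : ℝ))) hy1 hyR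
  rw [hlogy] at key
  have hkey1 : 97 / 100 * (δ.V * (Real.log (Dat.R x) / m) - C) ≤
      HH (δ.P x) ((Dat.R x) ^ (1 / (m : ℝ))) := key.1
  have hkey2 : HH (δ.P x) ((Dat.R x) ^ (1 / (m : ℝ))) ≤
      δ.V * (Real.log (Dat.R x) / m) + C := key.2
  have hq : (δ.V / Fintype.card I) * Real.log (Dat.R x) ≤ δ.V * (Real.log (Dat.R x) / m) := by
    have : (1 : ℝ) / Fintype.card I ≤ 1 / m := one_div_le_one_div_of_le hm0 hmK'
    calc (δ.V / Fintype.card I) * Real.log (Dat.R x) =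
          (δ.V * Real.log (Dat.R x)) * (1 / Fintype.card I) := by ring
      _ ≤ (δ.V * Real.log (Dat.R x)) * (1 / m) := mul_le_mul_of_nonneg_left this (by positivity)
      _ = _ := by ring
  set q := δ.V * (Real.log (Dat.R x) / m) with hqd
  have hqC : 14 * C ≤ q := (le_max_left _ _).trans (hb.trans hq)
  have hq2 : 2 ≤ q := (le_max_right _ _).trans (hb.trans hq)
  have hqx : q ≤ Real.log x / 100 := by
    rw [hqd, hlR]
    have h1 : Real.log x / 100 / m ≤ Real.log x / 100 := div_le_self (by positivity) hm1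
    have h2 : 0 ≤ Real.log x / 100 / m := by positivity
    calc δ.V * (Real.log x / 100 / m) ≤ 1 * (Real.log x / 100 / m) :=
          mul_le_mul_of_nonneg_right hV1 h2
      _ ≤ _ := by linarith
  refine ⟨by linarith, by linarith, ?_⟩
  have e : (9 / 10) * δ.V * Real.log (Dat.R x) / m = (9 / 10) * q := by rw [hqd]; ring
  rw [e]
  linarith

end Pool.Agent.H21.MT
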