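import Pool.Agent.H21.MT.Lab

/-!
[H21 MT MOB1]  The coefficients for `π = 1/p`.

Proof.  `cc = ∑ d ⊇ r, mu d * tot d * (∏ k ∈ d∖r, 1/P k) * ∑ s ⊇ d, F s / tot s`.  For `sub r d`,
`tot d * ∏ k, (if r k = none ∧ d k ≠ none then 1/P k else 1) = tot r` (factor by factor).
Exchange the sums: `cc = tot r * ∑ s ⊇ r, F s / tot s * ∑_{d : sub r d ∧ sub d s} mu d`.
The inner sum is a product over `k` of local sums (`Finset.prod_univ_sum` or write the indicator of
`sub r d ∧ sub d s` as a product of local indicators and use `Fintype.sum_pow`-like
`Finset.prod_sum`): for `r k ≠ none` the local factor is `-1` (only `d k = r k`); for `r k = none`,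
`s k = none` it is `1`; for `r k = none`, `s k ≠ none` it is `1 - 1 = 0`.  So the inner sum is
`mu r` for `s = r` and `0` otherwise.
-/

set_option linter.unusedSectionVars false

namespace Pool.Agent.H21.MT

open Finset

variable {ι I : Type} [Fintype ι] [DecidableEq ι] [Fintype I] [DecidableEq I]

private theorem local_sum (a b : Option I) :
    ∑ x : Option I, (if (a = none ∨ a = x) ∧ (x = none ∨ x = b) then
      (if x = none then (1 : ℝ) else -1) else 0) =
      if b = a then (if a = none then 1 else -1) else 0 := by
  rw [Fintype.sum_option]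
  rcases a with _ | i <;> rcases b with _ | j
  · simp
  · simp
  · simp
  · by_cases h : i = j
    · subst h
      simp only [reduceCtorEq, false_or, Option.some.injEq, false_and, if_false,
        if_true, zero_add]
      rw [Finset.sum_eq_single i]
      · simp
      · intro b _ hb
        rw [if_neg]
        intro h
        exact hb h.2
      · intro h
        exact absurd (Finset.mem_univ i) h
    · have h' : ¬ (some j = some i) := fun e => h (Option.some.inj e).symm
      rw [if_neg h']
      simp only [reduceCtorEq, false_or, Option.some.injEq, false_and, if_false, zero_add]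
      refine Finset.sum_eq_zero fun x _ => ?_
      rw [if_neg]
      rintro ⟨h1, h2⟩
      exact h (h1.trans h2)

private theorem sum_mu (r s : ι → Option I) :
    ∑ d : ι → Option I, (if sub r d ∧ sub d s then mu d else 0) = if s = r then mu r else 0 := by
  have h1 : ∀ d : ι → Option I, (if sub r d ∧ sub d s then mu d else 0) =
      ∏ k, (if (r k = none ∨ r k = d k) ∧ (d k = none ∨ d k = s k) then
        (if d k = none then (1 : ℝ) else -1) else 0) := by
    intro d
    by_cases h : sub r d ∧ sub d s
    · rw [if_pos h]
      unfold mu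
      refine Finset.prod_congr rfl fun k _ => ?_
      rw [if_pos (show (r k = none ∨ r k = d k) ∧ (d k = none ∨ d k = s k) from
        ⟨h.1 k, h.2 k⟩)]
    · rw [if_neg h]
      have h2 : ∃ k, ¬ ((r k = none ∨ r k = d k) ∧ (d k = none ∨ d k = s k)) := by
        by_contra hc
        push Not at hc
        apply h
        constructor
        · intro k
          exact (hc k).1
        · intro k
          exact (hc k).2
      obtain ⟨k, hk⟩ := h2
      symm
      apply Finset.prod_eq_zero (Finset.mem_univ k)
      rw [if_neg hk]
  simp_rw [h1]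
  have h3 := Finset.prod_univ_sum (fun _ : ι => (Finset.univ : Finset (Option I)))
    (fun k x => (if (r k = none ∨ r k = x) ∧ (x = none ∨ x = s k) then
        (if x = none then (1 : ℝ) else -1) else 0))
  rw [Fintype.piFinset_univ] at h3
  rw [← h3]
  simp_rw [local_sum]
  by_cases h : s = r
  · subst h
    simp [mu]
  · rw [if_neg h]
    have h2 : ∃ k, s k ≠ r k := by
      by_contra hc
      push Not at hc
      exact h (funext hc)
    obtain ⟨k, hk⟩ := h2
    apply Finset.prod_eq_zero (Finset.mem_univ k)
    rw [if_neg hk]

private theorem tot_mul (P : ι → ℕ) (hP : ∀ k, 0 < P k) (r d : ι → Option I) (h : sub r d) :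
    (tot P d : ℝ) * ∏ k, (if r k = none ∧ d k ≠ none then (1 : ℝ) / P k else 1) = tot P r := by
  unfold tot
  push_cast
  rw [← Finset.prod_mul_distrib]
  refine Finset.prod_congr rfl fun k _ => ?_
  have hk : (P k : ℝ) ≠ 0 := by exact_mod_cast (hP k).ne'
  by_cases h1 : r k = none
  · by_cases h2 : d k = none
    · simp [h1, h2]
    · simp [h1, h2, hk]
  · have h2 : r k = d k := (h k).resolve_left h1
    have h3 : ¬ d k = none := h2 ▸ h1
    simp [h1, h3]

theorem cc_lamF (P : ι → ℕ) (hP : ∀ k, 0 < P k) (F : (ι → Option I) → ℝ) (r : ι → Option I) :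
    cc (fun k => (1 : ℝ) / P k) (lamF P F) r = mu r * F r := by
  have h1 : cc (fun k => (1 : ℝ) / P k) (lamF P F) r =
      ∑ d : ι → Option I, ∑ s : ι → Option I,
        (tot P r : ℝ) * (F s / tot P s) * (if sub r d ∧ sub d s then mu d else 0) := by
    unfold cc
    rw [Finset.sum_filter]
    refine Finset.sum_congr rfl fun d _ => ?_
    by_cases hd : sub r d
    · rw [if_pos hd]
      unfold lamF
      rw [Finset.sum_filter]
      have h2 := tot_mul P hP r d hd
      calc mu d * (tot P d : ℝ) * (∑ s : ι → Option I, if sub d s then F s / (tot P s : ℝ) else 0) *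
            ∏ k, (if r k = none ∧ d k ≠ none then (1 : ℝ) / P k else 1)
          = mu d * ((tot P d : ℝ) * ∏ k, (if r k = none ∧ d k ≠ none then (1 : ℝ) / P k else 1)) *
            (∑ s : ι → Option I, if sub d s then F s / (tot P s : ℝ) else 0) := by ring
        _ = ∑ s : ι → Option I,
            (tot P r : ℝ) * (F s / tot P s) * (if sub r d ∧ sub d s then mu d else 0) := by
          rw [h2, Finset.mul_sum]
          refine Finset.sum_congr rfl fun s _ => ?_
          by_cases hs : sub d s
          · rw [if_pos hs, if_pos ⟨hd, hs⟩]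
            ring
          · rw [if_neg hs, if_neg (fun h => hs h.2)]
            ring
    · rw [if_neg hd]
      symm
      refine Finset.sum_eq_zero fun s _ => ?_
      rw [if_neg (fun h => hd h.1), mul_zero]
  rw [h1, Finset.sum_comm]
  simp_rw [← Finset.mul_sum, sum_mu]
  rw [Finset.sum_eq_single r]
  · have h2 : (tot P r : ℝ) ≠ 0 := by exact_mod_cast (tot_pos hP r).ne'
    simp only [if_true]
    field_simp
  · intro s _ hs
    rw [if_neg hs, mul_zero]
  · intro h
    exact absurd (Finset.mem_univ r) h

end Pool.Agent.H21.MT
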