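import Pool.Agent.H21.MT.Ev
import Pool.Agent.H21.MT.Diag
import Pool.Agent.H21.MT.Mob1
import Pool.Agent.H21.MT.QbD

/-!
[H21 MT QB1]  Upper and lower bounds of the main term (integers) for the product profile.

Proofs.  `FF P g R s = (∏ i g i (lab s i)) [tot s ≤ R]`.
* `q1_upper`: `diag_le` with `π = 1/P` and `cc_lamF`, `mu^2 = 1`, `FF^2 ≤ ∏ g i^2`, `sum_prod_le`;
  note `∏ k (if r k = none then 1 else 1/P k) = 1/tot P r`.
* `q1_lower`: `le_diag`, `cc_lamF`; for `s ∈ goodS P univ R` we have `tot s ≤ R` (as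
  `tot s ≥ 1`, `tot^2 ≤ R`, `R > 1`) and, with `K = |I|`,
  `∏ (1/P k)(1 - K/P k) ≥ (1/tot s)(1 - K ∑_{k ∈ s} 1/P k) ≥ (9/10)/tot s`; all other terms
  are `≥ 0`; then `mass_good` with `u i = g i ^2`, `J = univ`.
-/

set_option linter.unusedSectionVars false

namespace Pool.Agent.H21.MT

open Finset

variable {ι I : Type} [Fintype ι] [DecidableEq ι] [Fintype I] [DecidableEq I]

theorem mu_sq' (d : ι → Option I) : (mu d) ^ 2 = 1 := by
  unfold mu
  rw [← Finset.prod_pow]
  apply Finset.prod_eq_one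
  intro k _
  split_ifs <;> norm_num

theorem prod_inv_tot (P : ι → ℕ) (r : ι → Option I) :
    (∏ k, (if r k = none then (1 : ℝ) else 1 / (P k : ℝ))) = 1 / (tot P r : ℝ) := by
  unfold tot
  push_cast
  rw [one_div, ← Finset.prod_inv_distrib]
  apply Finset.prod_congr rfl
  intro k _
  split_ifs
  · simp
  · simp

theorem one_sub_sum_le_prod' {κ : Type} (s : Finset κ) (a : κ → ℝ) (h0 : ∀ k ∈ s, 0 ≤ a k)
    (h1 : ∀ k ∈ s, a k ≤ 1) : 1 - ∑ k ∈ s, a k ≤ ∏ k ∈ s, (1 - a k) := by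
  classical
  induction s using Finset.induction_on with
  | empty => simp
  | insert k s hk ih =>
    rw [Finset.sum_insert hk, Finset.prod_insert hk]
    have ih' := ih (fun j hj => h0 j (Finset.mem_insert_of_mem hj))
      (fun j hj => h1 j (Finset.mem_insert_of_mem hj))
    have hk0 := h0 k (Finset.mem_insert_self _ _)
    have hk1 := h1 k (Finset.mem_insert_self _ _)
    have hs0 : 0 ≤ ∑ j ∈ s, a j :=
      Finset.sum_nonneg (fun j hj => h0 j (Finset.mem_insert_of_mem hj))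
    have h2 : (1 - a k) * (1 - ∑ j ∈ s, a j) ≤ (1 - a k) * ∏ j ∈ s, (1 - a j) :=
      mul_le_mul_of_nonneg_left ih' (by linarith)
    nlinarith [mul_nonneg hk0 hs0]

theorem FF_sq_le (P : ι → ℕ) (g : I → ℕ → ℝ) (R : ℝ) (s : ι → Option I) :
    (FF P g R s) ^ 2 ≤ ∏ i, (g i (lab P s i)) ^ 2 := by
  unfold FF
  rw [mul_pow, ← Finset.prod_pow]
  have h0 : 0 ≤ ∏ i, (g i (lab P s i)) ^ 2 := Finset.prod_nonneg (fun i _ => sq_nonneg _)
  split_ifs
  · simp
  · simpa using h0

theorem pinv_bound (P : ι → ℕ) (hP : ∀ k, (P k).Prime) (hK : ∀ k, 2 * Fintype.card I ≤ P k)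
    (k : ι) : 0 ≤ (1 : ℝ) / P k ∧ (Fintype.card I : ℝ) * (1 / (P k : ℝ)) ≤ 1 := by
  have hp : (0 : ℝ) < P k := by exact_mod_cast (hP k).pos
  refine ⟨by positivity, ?_⟩
  have h := hK k
  have h' : (2 : ℝ) * (Fintype.card I : ℝ) ≤ P k := by exact_mod_cast h
  rw [mul_one_div, div_le_one hp]
  have : (0 : ℝ) ≤ (Fintype.card I : ℝ) := Nat.cast_nonneg _
  linarith

theorem q1_upper (P : ι → ℕ) (hP : ∀ k, (P k).Prime) (hK : ∀ k, 2 * Fintype.card I ≤ P k)
    (g : I → ℕ → ℝ) (hg0 : ∀ i b, 0 ≤ g i b) (R : ℝ) :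
    mform (fun k => (1 : ℝ) / P k) (lamF P (FF P g R)) ≤ ∏ i, SS P (fun b => g i b ^ 2) := by
  have hP0 : ∀ k, 0 < P k := fun k => (hP k).pos
  refine (diag_le (fun k => (1 : ℝ) / P k) (fun k => (pinv_bound P hP hK k).1)
    (fun k => (pinv_bound P hP hK k).2) _).trans ?_
  refine le_trans ?_ (sum_prod_le P hP0 (fun i b => g i b ^ 2) (fun i b => sq_nonneg _))
  apply Finset.sum_le_sum
  intro r _
  rw [cc_lamF P hP0, prod_inv_tot, mul_pow, mu_sq', one_mul, div_eq_mul_one_div (∏ i, _)]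
  have htot : (0 : ℝ) < tot P r := by exact_mod_cast tot_pos hP0 r
  exact mul_le_mul_of_nonneg_right (FF_sq_le P g R r) (by positivity)

theorem q1_lower [Nonempty I] (P : ι → ℕ) (hP : ∀ k, (P k).Prime) (hinj : Function.Injective P)
    (hK : ∀ k, 2 * Fintype.card I ≤ P k) (R : ℝ) (hR : 1 < R)
    (g : I → ℕ → ℝ) (hg0 : ∀ i b, 0 ≤ g i b) (hg : ∀ i, Antitone (g i)) (hg1 : ∀ i, g i 1 = 1)
    (hσ : ∑ k, 1 / (P k : ℝ) ^ 2 ≤ 1 / (50 * (Fintype.card I : ℝ) ^ 2))
    (hC : ∑ i, SS P (fun b => g i b ^ 2 * Real.log b) / SS P (fun b => g i b ^ 2) ≤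
      (1 / 8) * Real.log R) :
    (1 / 4) * ∏ i, SS P (fun b => g i b ^ 2) ≤
      mform (fun k => (1 : ℝ) / P k) (lamF P (FF P g R)) := by
  classical
  have hP0 : ∀ k, 0 < P k := fun k => (hP k).pos
  have hcard : (0 : ℝ) < (Fintype.card I : ℝ) := by
    exact_mod_cast (Fintype.card_pos : 0 < Fintype.card I)
  have hb := pinv_bound (I := I) P hP hK
  refine le_trans ?_ (le_diag (fun k => (1 : ℝ) / P k) (fun k => (hb k).1)
    (fun k => (hb k).2) _)
  have hSS0 : 0 ≤ ∏ i, SS P (fun b => g i b ^ 2) := by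
    apply Finset.prod_nonneg
    intro i _
    unfold SS
    apply Finset.sum_nonneg
    intro T _
    exact div_nonneg (sq_nonneg _) (Nat.cast_nonneg _)
  have hmass := mass_good P hP hinj (univ : Finset I) univ_nonempty R hR
    (fun i b => g i b ^ 2) (fun i b => sq_nonneg _)
    (fun i a b hab => pow_le_pow_left₀ (hg0 i b) (hg i hab) 2)
    (fun i => by simp [hg1 i]) hσ hC
  have hterm : ∀ s : ι → Option I, 0 ≤ (cc (fun k => (1 : ℝ) / P k) (lamF P (FF P g R)) s) ^ 2 *
      ∏ k, (if s k = none then 1 else (1 : ℝ) / P k * (1 - Fintype.card I * (1 / P k))) := by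
    intro s
    apply mul_nonneg (sq_nonneg _)
    apply Finset.prod_nonneg
    intro k _
    split_ifs
    · norm_num
    · exact mul_nonneg (hb k).1 (by linarith [(hb k).2])
  have hsub : ∑ s ∈ goodS P (univ : Finset I) R,
      (cc (fun k => (1 : ℝ) / P k) (lamF P (FF P g R)) s) ^ 2 *
      ∏ k, (if s k = none then 1 else (1 : ℝ) / P k * (1 - Fintype.card I * (1 / P k))) ≤
      ∑ s, (cc (fun k => (1 : ℝ) / P k) (lamF P (FF P g R)) s) ^ 2 *
      ∏ k, (if s k = none then 1 else (1 : ℝ) / P k * (1 - Fintype.card I * (1 / P k))) :=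
    Finset.sum_le_sum_of_subset_of_nonneg (Finset.subset_univ _) (fun s _ _ => hterm s)
  refine le_trans ?_ hsub
  have hgood : ∀ s ∈ goodS P (univ : Finset I) R,
      (9 / 10) * ((∏ i, (g i (lab P s i)) ^ 2) / tot P s) ≤
      (cc (fun k => (1 : ℝ) / P k) (lamF P (FF P g R)) s) ^ 2 *
      ∏ k, (if s k = none then 1 else (1 : ℝ) / P k * (1 - Fintype.card I * (1 / P k))) := by
    intro s hs
    have hs' := hs
    unfold goodS at hs'
    rw [Finset.mem_filter] at hs'
    obtain ⟨-, -, hsq, hsum⟩ := hs'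
    have htot1 : (1 : ℝ) ≤ tot P s := by exact_mod_cast tot_pos hP0 s
    have htotR : (tot P s : ℝ) ≤ R := by nlinarith
    rw [cc_lamF P hP0, mul_pow, mu_sq', one_mul]
    have hFF : (FF P g R s) ^ 2 = ∏ i, (g i (lab P s i)) ^ 2 := by
      unfold FF
      rw [if_pos htotR, mul_one, Finset.prod_pow]
    rw [hFF]
    have hprod : (∏ k, (if s k = none then (1 : ℝ) else
        (1 : ℝ) / P k * (1 - Fintype.card I * (1 / P k)))) =
        (1 / (tot P s : ℝ)) *
          ∏ k, (1 - (if s k = none then (0 : ℝ) else Fintype.card I * (1 / P k))) := by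
      rw [← prod_inv_tot, ← Finset.prod_mul_distrib]
      apply Finset.prod_congr rfl
      intro k _
      split_ifs
      · simp
      · rfl
    have hlow : (9 / 10 : ℝ) ≤
        ∏ k, (1 - (if s k = none then (0 : ℝ) else Fintype.card I * (1 / P k))) := by
      refine le_trans ?_ (one_sub_sum_le_prod' univ _ ?_ ?_)
      · have : ∑ k, (if s k = none then (0 : ℝ) else Fintype.card I * (1 / (P k : ℝ))) =
            Fintype.card I * ∑ k, (if s k = none then 0 else 1 / (P k : ℝ)) := by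
          rw [Finset.mul_sum]
          apply Finset.sum_congr rfl
          intro k _
          split_ifs <;> simp
        rw [this]
        have h1 : (Fintype.card I : ℝ) * ∑ k, (if s k = none then 0 else 1 / (P k : ℝ)) ≤
            Fintype.card I * (1 / (10 * (Fintype.card I : ℝ))) :=
          mul_le_mul_of_nonneg_left hsum hcard.le
        have h2 : (Fintype.card I : ℝ) * (1 / (10 * (Fintype.card I : ℝ))) = 1 / 10 := by
          field_simp
        linarith
      · intro k _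
        split_ifs
        · exact le_refl _
        · exact mul_nonneg hcard.le (hb k).1
      · intro k _
        split_ifs
        · norm_num
        · exact (hb k).2
    rw [hprod]
    have hG : 0 ≤ ∏ i, (g i (lab P s i)) ^ 2 := Finset.prod_nonneg (fun i _ => sq_nonneg _)
    have htp : (0 : ℝ) < tot P s := by linarith
    have hGt : 0 ≤ (∏ i, (g i (lab P s i)) ^ 2) * (1 / (tot P s : ℝ)) :=
      mul_nonneg hG (by positivity)
    calc (9 / 10) * ((∏ i, (g i (lab P s i)) ^ 2) / tot P s)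
        = ((∏ i, (g i (lab P s i)) ^ 2) * (1 / (tot P s : ℝ))) * (9 / 10) := by ring
      _ ≤ ((∏ i, (g i (lab P s i)) ^ 2) * (1 / (tot P s : ℝ))) *
          ∏ k, (1 - (if s k = none then (0 : ℝ) else Fintype.card I * (1 / P k))) :=
          mul_le_mul_of_nonneg_left hlow hGt
      _ = _ := by ring
  have hfin : (9 / 10) * ∑ s ∈ goodS P (univ : Finset I) R,
      (∏ i, (g i (lab P s i)) ^ 2) / tot P s ≤
      ∑ s ∈ goodS P (univ : Finset I) R,
      (cc (fun k => (1 : ℝ) / P k) (lamF P (FF P g R)) s) ^ 2 *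
      ∏ k, (if s k = none then 1 else (1 : ℝ) / P k * (1 - Fintype.card I * (1 / P k))) := by
    rw [Finset.mul_sum]
    exact Finset.sum_le_sum hgood
  refine le_trans ?_ hfin
  have hm' : (1 / 2) * ∏ i, SS P (fun b => g i b ^ 2) ≤
      ∑ s ∈ goodS P (univ : Finset I) R, (∏ i, (g i (lab P s i)) ^ 2) / tot P s := hmass
  linarith

end Pool.Agent.H21.MT
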