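import Pool.Agent.H21.MT.ParA
import Pool.Agent.H21.MT.ParB
import Pool.Agent.H21.MT.Qb1
import Pool.Agent.H21.MT.GwA
import Pool.Agent.H21.MT.LamB
import Pool.Agent.H21.MT.Cnt

/-!
[H21 MT ASMA]  The total mass of the sieve measure.

Proof.  `∑ |lam| ≤ R (1+log R)^{2K} ≤ x^{1/50}` for large `x` (`lam_bound` with `Λ = 1`, `F ≤ 1`,
`F s ≠ 0 → tot s ≤ R`).  `count_sig` with `B = 4` (`wN_ap`), `X = XX x`, `Win = Win x`, `w = wN x`:
`|S1 - (XX/W) Q| ≤ 4 x^{1/25}`, `Q = mform (1/P) lam`.  `q1_lower`, `q1_upper`: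
`(1/4) ∏ B ≤ Q ≤ ∏ B`.  As `XX ≥ x/8` and `B i ≥ 1`, `4 x^{1/25} ≤ (1/8) (XX/W) ∏ B` for large `x`.
-/

set_option linter.unusedSectionVars false

namespace Pool.Agent.H21.MT

open Finset Filter

variable {I : Type} [Fintype I] [DecidableEq I] [Nonempty I] (δ : Dat I)

theorem asmA_F_bounds (x : ℝ) (hg0 : ∀ i b, 0 ≤ δ.g x i b) (hg1 : ∀ i b, δ.g x i b ≤ 1) :
    (∀ s, 0 ≤ δ.F x s) ∧ (∀ s, δ.F x s ≤ 1) ∧
      (∀ s, δ.F x s ≠ 0 → (tot (δ.P x) s : ℝ) ≤ Dat.R x) := by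
  have h0 : ∀ s : PIdx δ.W (Dat.R x) → Option I, 0 ≤ ∏ i, δ.g x i (lab (δ.P x) s i) :=
    fun s => prod_nonneg fun i _ => hg0 i _
  refine ⟨fun s => ?_, fun s => ?_, fun s hs => ?_⟩
  · unfold Dat.F FF
    refine mul_nonneg (h0 s) ?_
    split_ifs <;> norm_num
  · unfold Dat.F FF
    have h1 : ∏ i, δ.g x i (lab (δ.P x) s i) ≤ 1 :=
      prod_le_one (fun i _ => hg0 i _) (fun i _ => hg1 i _)
    split_ifs
    · rw [mul_one]; exact h1
    · rw [mul_zero]; norm_num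
  · by_contra hcon
    apply hs
    unfold Dat.F FF
    rw [if_neg hcon, mul_zero]

theorem asmA_ev_pow_log (n : ℕ) : ∀ᶠ y : ℝ in atTop, (1 + Real.log y) ^ n ≤ y := by
  have h1 := (Real.isLittleO_pow_log_id_atTop (n := n)).bound
    (show (0 : ℝ) < 1 / 2 ^ n by positivity)
  filter_upwards [h1, eventually_ge_atTop (Real.exp 1)] with y hy hy1
  have hy0 : 0 < y := (Real.exp_pos 1).trans_le hy1
  have h2 : 1 ≤ Real.log y := by
    rw [← Real.log_exp 1]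
    exact Real.log_le_log (Real.exp_pos 1) hy1
  rw [Real.norm_eq_abs, Real.norm_eq_abs, abs_of_nonneg (by positivity), id, abs_of_pos hy0] at hy
  calc (1 + Real.log y) ^ n ≤ (2 * Real.log y) ^ n :=
        pow_le_pow_left₀ (by linarith) (by linarith) n
    _ = 2 ^ n * Real.log y ^ n := mul_pow _ _ _
    _ ≤ 2 ^ n * (1 / 2 ^ n * y) := by gcongr
    _ = y := by field_simp

theorem sum_lam_le : ∀ᶠ x : ℝ in atTop, (∀ d, |δ.lam x d| ≤ (1 + Real.log x) ^ Fintype.card I) ∧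
    (∀ d, δ.lam x d ≠ 0 → (tot (δ.P x) d : ℝ) ≤ Dat.R x) ∧
    ∑ d, |δ.lam x d| ≤ x ^ (1 / 50 : ℝ) := by
  have hRt : Tendsto Dat.R atTop atTop := tendsto_rpow_atTop (by norm_num)
  have h1 := hRt.eventually (asmA_ev_pow_log (2 * Fintype.card I))
  filter_upwards [h1, par_g δ, eventually_ge_atTop (1 : ℝ)] with x hx hg hx1
  obtain ⟨hR, hg0, hgle, -, -, -⟩ := hg
  obtain ⟨hF0, hF1, hFR⟩ := asmA_F_bounds δ x hg0 hgle
  have hx0 : 0 < x := by linarith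
  obtain ⟨ha, hb, hc⟩ := lam_bound (δ.P x) (Pv_prime δ.W (Dat.R x)) (Pv_inj δ.W (Dat.R x))
    (Dat.R x) 1 hR.le (δ.F x) hF0 hF1 hFR
  have hlogR : Real.log (Dat.R x) = 1 / 100 * Real.log x := by
    unfold Dat.R
    rw [Real.log_rpow hx0]
  have hlogx : 0 ≤ Real.log x := Real.log_nonneg hx1
  refine ⟨fun d => ?_, hb, ?_⟩
  · refine (ha d).trans ?_
    rw [one_mul]
    apply pow_le_pow_left₀ (by rw [hlogR]; positivity)
    rw [hlogR]
    linarith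
  · refine hc.trans ?_
    rw [one_mul]
    have h2 : Dat.R x * Dat.R x = x ^ (1 / 50 : ℝ) := by
      unfold Dat.R
      rw [← Real.rpow_add hx0]
      norm_num
    rw [← h2]
    exact mul_le_mul_of_nonneg_left hx (by linarith)

theorem S1_bounds : ∀ᶠ x : ℝ in atTop,
    (1 / 8) * (XX x / δ.W) * ∏ i, δ.B x i ≤ δ.S1 x ∧
    δ.S1 x ≤ 2 * (XX x / δ.W) * ∏ i, δ.B x i := by
  have hW : (0 : ℝ) < δ.W := by exact_mod_cast δ.W_pos
  have hbig : ∀ᶠ x : ℝ in atTop, 256 * (δ.W : ℝ) ≤ x ^ (24 / 25 : ℝ) :=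
    (tendsto_rpow_atTop (by norm_num)).eventually_ge_atTop _
  filter_upwards [sum_lam_le δ, wN_ap, wN_mass, par_g δ, par_C δ, par_AB δ, hbig,
    eventually_ge_atTop (1 : ℝ)] with x hlam hap hmass hg hC hAB hx hx1
  have hx0 : 0 < x := by linarith
  obtain ⟨hR, hg0, hgle, hganti, hg1, -⟩ := hg
  obtain ⟨hP1, hP2, -, -⟩ := par_P δ x
  have hcount := count_sig (δ.P x) (Pv_prime δ.W (Dat.R x)) (Pv_inj δ.W (Dat.R x)) δ.h
    (par_diff δ x) δ.W δ.b δ.W_pos (Pv_not_dvd δ.W (Dat.R x)) (Win x) (wN x) (XX x) 4 hap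
    (δ.lam x)
  have hup : mform (fun k => (1 : ℝ) / δ.P x k) (δ.lam x) ≤ ∏ i, δ.B x i :=
    q1_upper (δ.P x) (Pv_prime δ.W (Dat.R x)) (fun k => by have := hP1 k; omega) (δ.g x) hg0
      (Dat.R x)
  have hlo : (1 / 4) * ∏ i, δ.B x i ≤ mform (fun k => (1 : ℝ) / δ.P x k) (δ.lam x) :=
    q1_lower (δ.P x) (Pv_prime δ.W (Dat.R x)) (Pv_inj δ.W (Dat.R x))
      (fun k => by have := hP1 k; omega) (Dat.R x) hR (δ.g x) hg0 hganti hg1 hP2 hC
  have hS : ∑ N ∈ (Win x).filter (fun N => N % δ.W = δ.b % δ.W),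
      wN x N * (sig (δ.P x) δ.h (δ.lam x) N) ^ 2 = δ.S1 x := rfl
  rw [hS] at hcount
  have hB1 : 1 ≤ ∏ i, δ.B x i := by
    rw [← Finset.prod_const_one (s := (univ : Finset I))]
    exact prod_le_prod (fun _ _ => zero_le_one) (fun i _ => (hAB i).2.1)
  have hXX : x / 8 ≤ XX x := hmass.1
  have hsum0 : 0 ≤ ∑ d, |δ.lam x d| := sum_nonneg fun d _ => abs_nonneg _
  have hE : 4 * (∑ d, |δ.lam x d|) ^ 2 ≤ 4 * x ^ (1 / 25 : ℝ) := by
    have h1 : (∑ d, |δ.lam x d|) ^ 2 ≤ (x ^ (1 / 50 : ℝ)) ^ 2 :=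
      pow_le_pow_left₀ hsum0 hlam.2.2 2
    have h2 : (x ^ (1 / 50 : ℝ)) ^ 2 = x ^ (1 / 25 : ℝ) := by
      rw [← Real.rpow_natCast, ← Real.rpow_mul hx0.le]
      norm_num
    rw [h2] at h1
    linarith
  have hxx : x ^ (1 / 25 : ℝ) * x ^ (24 / 25 : ℝ) = x := by
    rw [← Real.rpow_add hx0]
    norm_num
  have hE2 : 4 * x ^ (1 / 25 : ℝ) ≤ 1 / 8 * ((x / 8) / δ.W) := by
    have h3 : 0 < x ^ (1 / 25 : ℝ) := Real.rpow_pos_of_pos hx0 _
    have h4 : x ^ (1 / 25 : ℝ) * (256 * (δ.W : ℝ)) ≤ x := by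
      calc x ^ (1 / 25 : ℝ) * (256 * (δ.W : ℝ)) ≤ x ^ (1 / 25 : ℝ) * x ^ (24 / 25 : ℝ) := by gcongr
        _ = x := hxx
    have h5 : 1 / 8 * ((x / 8) / δ.W) = x / (64 * δ.W) := by field_simp; norm_num
    rw [h5, le_div_iff₀ (by positivity)]
    linarith
  have hT : (x / 8) / δ.W ≤ XX x / δ.W * ∏ i, δ.B x i := by
    have h6 : (x / 8) / δ.W ≤ XX x / δ.W := by gcongr
    have h7 : 0 ≤ (x / 8) / δ.W := by positivity
    nlinarith
  have hXW : 0 ≤ XX x / δ.W := by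
    have : 0 ≤ XX x := by linarith
    positivity
  have h8 := mul_le_mul_of_nonneg_left hup hXW
  have h9 := mul_le_mul_of_nonneg_left hlo hXW
  obtain ⟨h10, h11⟩ := abs_le.1 hcount
  constructor
  · have : (1 / 8) * (XX x / δ.W) * ∏ i, δ.B x i = 1 / 8 * (XX x / δ.W * ∏ i, δ.B x i) := by ring
    rw [this]
    linarith
  · have : 2 * (XX x / δ.W) * ∏ i, δ.B x i = 2 * (XX x / δ.W * ∏ i, δ.B x i) := by ring
    rw [this]
    linarith

end Pool.Agent.H21.MT
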