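import Pool.Agent.H21.MT.StepD

/-!
[H21 MT STEPB]  Replacing the weights at one label by Selberg's optimal weights: the bounds.

Proofs.
* `HH_le_Zf`: let `E` be the support of `r = rem j s`.  Each `T` with `nrm T ≤ y` splits as
  `(T ∩ E) ∪ (T \ E)`, `nrm (T \ E) ≤ y`; so
  `HH y ≤ (∑_{E' ⊆ E} 1/nrm E') * ∑_{T' ∩ E = ∅, nrm T' ≤ y} 1/nrm T'`, first factor
  `= ∏_{k ∈ E} (1 + 1/P k)`, second `= Zf` (bijection `T' ↔ s'` with `rem j s' = r`,
  label `j` exactly on `T'`, `tot s' = tot r * nrm T'`, `lab s' j = nrm T'`).
* `stepF_le`: `Phi s ≤ a * ∏_{i ≠ j} u i (lab s i) * ∑_{T' ∩ E = ∅} u j (nrm T')/nrm T'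
  ≤ a * ∏_{i≠j} u i (lab s i) * SS P (u j)` (`lab s' i = lab s i` for `i ≠ j`), and
  `1/Zf ≤ ∏_{k ∈ E} (1 + 1/P k) / HH y = ∏_{i ≠ j} rho (lab s i) / HH y` (`rho_lab`; `HH y ≥ 1`
  as `T = ∅` occurs).
-/

set_option linter.unusedSectionVars false

namespace Pool.Agent.H21.MT

open Finset

variable {ι I : Type} [Fintype ι] [DecidableEq ι] [Fintype I] [DecidableEq I]

private theorem sB_rem_ne (j : I) (s : ι → Option I) (k : ι) : rem j s k ≠ some j := by
  unfold rem
  by_cases h : s k = some j
  · simp [h]
  · simp [h]

private theorem sB_tot (P : ι → ℕ) (j : I) (s : ι → Option I) :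
    tot P s = tot P (rem j s) * lab P s j := by
  unfold tot lab
  rw [← Finset.prod_mul_distrib]
  apply Finset.prod_congr rfl
  intro k _
  unfold rem
  rcases h : s k with _ | i
  · simp
  · by_cases hi : i = j
    · subst hi
      simp
    · simp [hi]

private theorem sB_ratio (P : ι → ℕ) (hP : ∀ k, 0 < P k) (j : I) (s s' : ι → Option I)
    (h : rem j s' = rem j s) :
    (tot P (rem j s) : ℝ) / tot P s' = 1 / (lab P s' j : ℝ) := by
  have h1 : (0 : ℝ) < tot P (rem j s) := by exact_mod_cast tot_pos hP _
  have h2 : (0 : ℝ) < lab P s' j := by exact_mod_cast lab_pos hP _ _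
  rw [sB_tot P j s', h]
  push_cast
  field_simp

/-- insert the label `j` on the set `T` -/
private def sBins (j : I) (s : ι → Option I) (T : Finset ι) : ι → Option I :=
  fun k => if rem j s k = none ∧ k ∈ T then some j else rem j s k

private theorem sB_rem_ins (j : I) (s : ι → Option I) (T : Finset ι) :
    rem j (sBins j s T) = rem j s := by
  funext k
  have h0 := sB_rem_ne j s k
  by_cases h : rem j s k = none ∧ k ∈ T
  · have h1 : sBins j s T k = some j := by
      unfold sBins
      rw [if_pos h]
    have h2 : rem j (sBins j s T) k = none := by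
      show (if sBins j s T k = some j then none else sBins j s T k) = none
      rw [if_pos h1]
    rw [h2, h.1]
  · have h1 : sBins j s T k = rem j s k := by
      unfold sBins
      rw [if_neg h]
    show (if sBins j s T k = some j then none else sBins j s T k) = rem j s k
    rw [h1, if_neg h0]

private theorem sB_ins_iff (j : I) (s : ι → Option I) (T : Finset ι) (k : ι) :
    sBins j s T k = some j ↔ (rem j s k = none ∧ k ∈ T) := by
  unfold sBins
  constructor
  · intro h
    by_contra hc
    rw [if_neg hc] at h
    exact sB_rem_ne j s k h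
  · intro h
    rw [if_pos h]

private theorem sB_lab_ins (P : ι → ℕ) (j : I) (s : ι → Option I) (T : Finset ι) :
    lab P (sBins j s T) j = nrm P (T.filter (fun k => rem j s k = none)) := by
  unfold lab nrm
  rw [← Finset.prod_filter]
  apply Finset.prod_congr _ (fun _ _ => rfl)
  ext k
  simp only [mem_filter, mem_univ, true_and]
  rw [sB_ins_iff]
  tauto

private theorem sB_nrm_split (P : ι → ℕ) (j : I) (s : ι → Option I) (T : Finset ι) :
    nrm P T = nrm P (T.filter (fun k => rem j s k = none)) *
      nrm P (T.filter (fun k => ¬ rem j s k = none)) := by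
  unfold nrm
  rw [Finset.prod_filter_mul_prod_filter_not]

theorem HH_le_Zf (P : ι → ℕ) (hP : ∀ k, (P k).Prime) (hinj : Function.Injective P) (y : ℝ)
    (hy : 1 ≤ y) (j : I) (s : ι → Option I) :
    HH P y ≤ (∏ k, (if rem j s k = none then 1 else 1 + 1 / (P k : ℝ))) * Zf P y j s := by
  have hposP : ∀ k, 0 < P k := fun k => (hP k).pos
  set E : Finset ι := univ.filter (fun k => ¬ rem j s k = none) with hE
  have hprod : (∏ k, (if rem j s k = none then 1 else 1 + 1 / (P k : ℝ))) =
      ∑ E' ∈ E.powerset, 1 / (nrm P E' : ℝ) := by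
    have h1 : (∏ k, (if rem j s k = none then 1 else 1 + 1 / (P k : ℝ))) =
        ∏ k ∈ E, (1 + 1 / (P k : ℝ)) := by
      rw [hE, Finset.prod_filter]
      apply Finset.prod_congr rfl
      intro k _
      by_cases h : rem j s k = none
      · simp [h]
      · simp [h]
    rw [h1, Finset.prod_one_add]
    apply Finset.sum_congr rfl
    intro E' _
    unfold nrm
    push_cast
    rw [Finset.prod_div_distrib]
    simp
  have hZ : Zf P y j s = ∑ s' ∈ univ.filter (fun s' : ι → Option I => rem j s' = rem j s ∧
      (lab P s' j : ℝ) ≤ y), 1 / (lab P s' j : ℝ) := by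
    unfold Zf
    apply Finset.sum_congr rfl
    intro s' hs'
    simp only [mem_filter, mem_univ, true_and] at hs'
    exact sB_ratio P hposP j s s' hs'.1
  rw [hprod, hZ, Finset.sum_mul_sum, ← Finset.sum_product']
  set Q := univ.filter (fun s' : ι → Option I => rem j s' = rem j s ∧ (lab P s' j : ℝ) ≤ y)
    with hQ
  unfold HH
  set f : Finset ι × (ι → Option I) → ℝ := fun x => 1 / (nrm P x.1 : ℝ) * (1 / (lab P x.2 j : ℝ))
    with hf
  set φ : Finset ι → Finset ι × (ι → Option I) := fun T =>
    (T.filter (fun k => ¬ rem j s k = none), sBins j s T) with hφ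
  have hval : ∀ T ∈ (univ : Finset (Finset ι)).filter (fun T => (nrm P T : ℝ) ≤ y),
      (1 : ℝ) / nrm P T = f (φ T) := by
    intro T _
    rw [hf, hφ]
    simp only
    rw [sB_lab_ins, sB_nrm_split P j s T]
    push_cast
    have h1 : (0 : ℝ) < nrm P (T.filter (fun k => rem j s k = none)) := by
      exact_mod_cast nrm_pos hposP _
    have h2 : (0 : ℝ) < nrm P (T.filter (fun k => ¬ rem j s k = none)) := by
      exact_mod_cast nrm_pos hposP _
    field_simp
  rw [Finset.sum_congr rfl hval]
  have hφinj : Set.InjOn φ ((univ : Finset (Finset ι)).filter (fun T => (nrm P T : ℝ) ≤ y)) := by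
    intro T _ T' _ h
    have h1 : T.filter (fun k => ¬ rem j s k = none) =
        T'.filter (fun k => ¬ rem j s k = none) := congrArg Prod.fst h
    have h2 : sBins j s T = sBins j s T' := congrArg Prod.snd h
    ext k
    by_cases hk : rem j s k = none
    · have h3 := sB_ins_iff j s T k
      have h4 := sB_ins_iff j s T' k
      rw [h2, h4] at h3
      constructor
      · intro hT
        exact (h3.mpr ⟨hk, hT⟩).2
      · intro hT
        exact (h3.mp ⟨hk, hT⟩).2
    · have h3 : k ∈ T.filter (fun k => ¬ rem j s k = none) ↔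
          k ∈ T'.filter (fun k => ¬ rem j s k = none) := by rw [h1]
      simp only [mem_filter] at h3
      constructor
      · intro hT
        exact (h3.mp ⟨hT, hk⟩).1
      · intro hT
        exact (h3.mpr ⟨hT, hk⟩).1
  rw [← Finset.sum_image (g := φ) (f := f) (fun a ha b hb h => hφinj ha hb h)]
  apply Finset.sum_le_sum_of_subset_of_nonneg
  · intro x hx
    rw [Finset.mem_image] at hx
    obtain ⟨T, hT, rfl⟩ := hx
    simp only [mem_filter, mem_univ, true_and] at hT
    rw [Finset.mem_product]
    constructor
    · rw [Finset.mem_powerset]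
      intro k hk
      rw [hφ] at hk
      simp only [mem_filter] at hk
      rw [hE]
      simp only [mem_filter, mem_univ, true_and]
      exact hk.2
    · rw [hQ]
      simp only [mem_filter, mem_univ, true_and]
      refine ⟨sB_rem_ins j s T, ?_⟩
      show (lab P (sBins j s T) j : ℝ) ≤ y
      rw [sB_lab_ins]
      have h1 : nrm P (T.filter (fun k => rem j s k = none)) ≤ nrm P T := by
        rw [sB_nrm_split P j s T]
        exact Nat.le_mul_of_pos_right _ (nrm_pos hposP _)
      have h2 : (nrm P (T.filter (fun k => rem j s k = none)) : ℝ) ≤ nrm P T := by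
        exact_mod_cast h1
      linarith
  · intro x _ _
    rw [hf]
    positivity

private theorem sB_lab_eq (P : ι → ℕ) (j : I) (s s' : ι → Option I)
    (h : rem j s' = rem j s) (i : I) (hi : i ≠ j) : lab P s' i = lab P s i := by
  unfold lab
  apply Finset.prod_congr rfl
  intro k _
  have key : ∀ t : ι → Option I, t k = some i ↔ rem j t k = some i := by
    intro t
    unfold rem
    by_cases ht : t k = some j
    · rw [if_pos ht, ht]
      constructor
      · intro h0
        exact absurd (Option.some.inj h0).symm hi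
      · intro h0
        exact absurd h0 (by simp)
    · rw [if_neg ht]
  have h1 : s' k = some i ↔ s k = some i := by
    rw [key s', key s, h]
  by_cases h2 : s k = some i
  · rw [if_pos h2, if_pos (h1.mpr h2)]
  · rw [if_neg h2, if_neg (fun h3 => h2 (h1.mp h3))]

private theorem sB_prod_rho (P : ι → ℕ) (hP : ∀ k, (P k).Prime) (hinj : Function.Injective P)
    (j : I) (s : ι → Option I) :
    (∏ k, (if rem j s k = none then 1 else 1 + 1 / (P k : ℝ))) =
      ∏ i ∈ univ.erase j, rho (lab P s i) := by
  have h1 : ∏ i ∈ univ.erase j, rho (lab P s i) =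
      ∏ i ∈ univ.erase j, ∏ k, (if s k = some i then 1 + 1 / (P k : ℝ) else 1) := by
    apply Finset.prod_congr rfl
    intro i _
    rw [rho_lab P hP hinj]
  rw [h1, Finset.prod_comm]
  apply Finset.prod_congr rfl
  intro k _
  unfold rem
  rcases h : s k with _ | i0
  · simp
  · by_cases hi : i0 = j
    · subst hi
      rw [if_pos rfl, if_pos rfl]
      symm
      apply Finset.prod_eq_one
      intro i hi2
      rw [Finset.mem_erase] at hi2
      rw [if_neg]
      intro h0
      exact hi2.1 (Option.some.inj h0).symm
    · rw [if_neg (fun h0 => hi (Option.some.inj h0)), if_neg (by simp)]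
      rw [Finset.prod_eq_single i0]
      · rw [if_pos rfl]
      · intro b _ hb
        rw [if_neg]
        intro h0
        exact hb (Option.some.inj h0).symm
      · intro h0
        exact absurd (Finset.mem_erase.mpr ⟨hi, mem_univ _⟩) h0

private theorem sB_fiber (P : ι → ℕ) (hP : ∀ k, 0 < P k) (j : I) (u : ℕ → ℝ) (hu : ∀ b, 0 ≤ u b)
    (s : ι → Option I) :
    ∑ s' ∈ univ.filter (fun s' : ι → Option I => rem j s' = rem j s),
      u (lab P s' j) / lab P s' j ≤ SS P u := by
  set φ : (ι → Option I) → Finset ι := fun s' => univ.filter (fun k => s' k = some j) with hφ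
  have hlab : ∀ s' : ι → Option I, lab P s' j = nrm P (φ s') := by
    intro s'
    unfold lab nrm
    rw [← Finset.prod_filter]
  have h1 : ∀ s' ∈ univ.filter (fun s' : ι → Option I => rem j s' = rem j s),
      u (lab P s' j) / lab P s' j = (fun T : Finset ι => u (nrm P T) / nrm P T) (φ s') := by
    intro s' _
    simp only
    rw [hlab s']
  rw [Finset.sum_congr rfl h1]
  have hinj : ∀ a ∈ univ.filter (fun s' : ι → Option I => rem j s' = rem j s),
      ∀ b ∈ univ.filter (fun s' : ι → Option I => rem j s' = rem j s), φ a = φ b → a = b := by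
    intro a ha b hb hab
    simp only [mem_filter, mem_univ, true_and] at ha hb
    funext k
    have h2 : a k = some j ↔ b k = some j := by
      have h3 : k ∈ φ a ↔ k ∈ φ b := by rw [hab]
      rw [hφ] at h3
      simpa using h3
    have h4 : rem j a k = rem j b k := by rw [ha, hb]
    unfold rem at h4
    by_cases h5 : a k = some j
    · rw [h5, h2.mp h5]
    · rw [if_neg h5, if_neg (fun h6 => h5 (h2.mpr h6))] at h4
      exact h4
  rw [← Finset.sum_image (g := φ) (f := fun T : Finset ι => u (nrm P T) / nrm P T) hinj]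
  unfold SS
  apply Finset.sum_le_sum_of_subset_of_nonneg
  · intro x _
    exact mem_univ _
  · intro T _ _
    have := hu (nrm P T)
    positivity

theorem stepF_le (P : ι → ℕ) (hP : ∀ k, (P k).Prime) (hinj : Function.Injective P) (y : ℝ)
    (hy : 1 ≤ y) (j : I) (F : (ι → Option I) → ℝ) (u : I → ℕ → ℝ) (hu : ∀ i b, 0 ≤ u i b)
    (a : ℝ) (ha : 0 ≤ a) (hF0 : ∀ s, 0 ≤ F s) (hF : ∀ s, F s ≤ a * ∏ i, u i (lab P s i))
    (s : ι → Option I) :
    stepF P y j F s ≤ (a * (SS P (u j) / HH P y)) *
      ∏ i, (if i = j then (if (lab P s i : ℝ) ≤ y then 1 else 0)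
        else u i (lab P s i) * rho (lab P s i)) := by
  have hposP : ∀ k, 0 < P k := fun k => (hP k).pos
  have hsplit : (∏ i, (if i = j then (if (lab P s i : ℝ) ≤ y then (1 : ℝ) else 0)
        else u i (lab P s i) * rho (lab P s i))) =
      (if (lab P s j : ℝ) ≤ y then 1 else 0) *
        ((∏ i ∈ univ.erase j, u i (lab P s i)) * ∏ i ∈ univ.erase j, rho (lab P s i)) := by
    rw [← Finset.mul_prod_erase univ _ (mem_univ j), if_pos rfl, ← Finset.prod_mul_distrib]
    congr 1
    apply Finset.prod_congr rfl
    intro i hi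
    rw [if_neg (Finset.mem_erase.mp hi).1]
  rw [hsplit]
  unfold stepF
  by_cases hl : (lab P s j : ℝ) ≤ y
  · rw [if_pos hl, if_pos hl, one_mul]
    set U := ∏ i ∈ univ.erase j, u i (lab P s i) with hU
    set Rr := ∏ i ∈ univ.erase j, rho (lab P s i) with hR
    have hU0 : 0 ≤ U := Finset.prod_nonneg fun i _ => hu i _
    have hR1 : 1 ≤ Rr := by
      have : ∀ i ∈ univ.erase j, (1 : ℝ) ≤ rho (lab P s i) := fun i _ => one_le_rho _
      calc (1 : ℝ) = ∏ i ∈ univ.erase j, (1 : ℝ) := by simp
        _ ≤ Rr := by
          rw [hR]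
          exact Finset.prod_le_prod (fun i _ => zero_le_one) this
    have hSS0 : 0 ≤ SS P (u j) := by
      unfold SS
      apply Finset.sum_nonneg
      intro T _
      have := hu j (nrm P T)
      positivity
    have hHH : 0 < HH P y := by
      unfold HH
      apply Finset.sum_pos
      · intro T _
        have : (0 : ℝ) < nrm P T := by exact_mod_cast nrm_pos hposP T
        positivity
      · refine ⟨∅, ?_⟩
        simp only [mem_filter, mem_univ, true_and]
        unfold nrm
        simpa using hy
    have hZ := HH_le_Zf P hP hinj y hy j s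
    rw [sB_prod_rho P hP hinj] at hZ
    rw [← hR] at hZ
    have hZpos : 0 < Zf P y j s := by
      by_contra hc
      push Not at hc
      have : Rr * Zf P y j s ≤ 0 := by
        apply mul_nonpos_of_nonneg_of_nonpos _ hc
        linarith
      linarith
    -- the bound for Phi
    have hPhi : Phi P F j s ≤ a * U * SS P (u j) := by
      unfold Phi
      have h1 : ∀ s' ∈ univ.filter (fun s' : ι → Option I => rem j s' = rem j s),
          F s' * tot P (rem j s) / tot P s' ≤ (a * U) * (u j (lab P s' j) / lab P s' j) := by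
        intro s' hs'
        simp only [mem_filter, mem_univ, true_and] at hs'
        have h2 : F s' * tot P (rem j s) / tot P s' = F s' * (1 / (lab P s' j : ℝ)) := by
          rw [mul_div_assoc, sB_ratio P hposP j s s' hs']
        rw [h2]
        have h3 : F s' ≤ a * (u j (lab P s' j) * U) := by
          have h4 := hF s'
          have h5 : ∏ i, u i (lab P s' i) = u j (lab P s' j) * U := by
            rw [← Finset.mul_prod_erase univ _ (mem_univ j), hU]
            congr 1
            apply Finset.prod_congr rfl
            intro i hi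
            rw [sB_lab_eq P j s s' hs' i (Finset.mem_erase.mp hi).1]
          rw [h5] at h4
          exact h4
        have h6 : (0 : ℝ) ≤ 1 / (lab P s' j : ℝ) := by positivity
        calc F s' * (1 / (lab P s' j : ℝ)) ≤ a * (u j (lab P s' j) * U) * (1 / (lab P s' j : ℝ)) :=
              mul_le_mul_of_nonneg_right h3 h6
          _ = (a * U) * (u j (lab P s' j) / lab P s' j) := by ring
      refine (Finset.sum_le_sum h1).trans ?_
      rw [← Finset.mul_sum]
      apply mul_le_mul_of_nonneg_left _ (mul_nonneg ha hU0)
      exact sB_fiber P hposP j (u j) (hu j) s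
    have hN0 : 0 ≤ a * U * SS P (u j) := mul_nonneg (mul_nonneg ha hU0) hSS0
    calc Phi P F j s / Zf P y j s ≤ (a * U * SS P (u j)) / Zf P y j s :=
          div_le_div_of_nonneg_right hPhi hZpos.le
      _ ≤ (a * U * SS P (u j)) * (Rr / HH P y) := by
          rw [div_eq_mul_inv]
          apply mul_le_mul_of_nonneg_left _ hN0
          rw [inv_eq_one_div, div_le_div_iff₀ hZpos hHH]
          linarith
      _ = a * (SS P (u j) / HH P y) * (U * Rr) := by ring
  · rw [if_neg hl, if_neg hl]
    simp

end Pool.Agent.H21.MT
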