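import Pool.Agent.H21.MT.StepA
import Pool.Agent.H21.MT.StepB

/-!
[H21 MT STEPN]  Iteration of `stepF` over the labels of a finite set `S`, and the resulting bound of
the diagonal sum.

Proof of `stepN`.  Induction on `S` (`Finset.induction_on`); `S = ∅`: `F' = F`.  For `insert j S`
(`j ∉ S`) take `F'' = stepF P y j F'`.  The weights agree for `d` without labels in `insert j S`
(`lamF_stepF`).  Support: `stepF_ne`.  Pointwise bound: apply `stepF_le` with
`a = ∏_{j' ∈ S} (SS P (g j' rho^|S|)/HH)` and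
`u i b = (if i ∈ S then (if b ≤ y then 1 else 0) else g i b) * rho b ^ |S|`; then use
`rho ≥ 1` to raise all exponents from `|S|` to `|S|+1` (also in `SS`, `u j = g j * rho^|S|` as
`j ∉ S`).

Proof of `stepN_diag`.  Square the pointwise bound, `sum_prod_le` with
`u i b = (if i ∈ S then (if b ≤ y then 1 else 0) else g i b ^ 2) * rho b ^ (2|S|)`, then
`SS_rho_le` for each factor (`g i ^ 2` and `[b ≤ y]` are antitone), `SS P [· ≤ y] = HH P y`, and
`SS P (g j rho^|S|) ≤ kap P |S| * SS P (g j)`, `kap P |S| ≤ kap P (2|S|)`, `1 ≤ kap`.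
The number of factors `kap` is at most `2|S| + |I| ≤ 3|I|`.
-/

set_option linter.unusedSectionVars false

namespace Pool.Agent.H21.MT

open Finset

variable {ι I : Type} [Fintype ι] [DecidableEq ι] [Fintype I] [DecidableEq I]

private theorem n_SS_mono (P : ι → ℕ) {u v : ℕ → ℝ} (h : ∀ b, u b ≤ v b) : SS P u ≤ SS P v := by
  unfold SS
  apply Finset.sum_le_sum
  intro T _
  exact div_le_div_of_nonneg_right (h _) (Nat.cast_nonneg _)

private theorem n_SS_nonneg (P : ι → ℕ) {u : ℕ → ℝ} (h : ∀ b, 0 ≤ u b) : 0 ≤ SS P u := by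
  unfold SS
  exact Finset.sum_nonneg fun T _ => div_nonneg (h _) (Nat.cast_nonneg _)

private theorem n_HH_nonneg (P : ι → ℕ) (y : ℝ) : 0 ≤ HH P y := by
  unfold HH
  exact Finset.sum_nonneg fun T _ => div_nonneg zero_le_one (Nat.cast_nonneg _)

private theorem n_HH_pos (P : ι → ℕ) (hP : ∀ k, 0 < P k) (y : ℝ) (hy : 1 ≤ y) : 0 < HH P y := by
  unfold HH
  apply Finset.sum_pos
  · intro T _
    have := nrm_pos hP T
    positivity
  · refine ⟨∅, ?_⟩
    rw [Finset.mem_filter]
    refine ⟨mem_univ _, ?_⟩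
    simpa [nrm] using hy

private theorem n_SS_ind (P : ι → ℕ) (y : ℝ) :
    SS P (fun b => if (b : ℝ) ≤ y then 1 else 0) = HH P y := by
  unfold SS HH
  rw [Finset.sum_filter]
  apply Finset.sum_congr rfl
  intro T _
  dsimp only
  by_cases h : (nrm P T : ℝ) ≤ y
  · rw [if_pos h, if_pos h]
  · rw [if_neg h, if_neg h, zero_div]

private theorem n_one_le_kap (P : ι → ℕ) (t : ℕ) : 1 ≤ kap P t := by
  have e : (1 : ℝ) = ∏ _k : ι, (1 : ℝ) := Finset.prod_const_one.symm
  refine e.le.trans ?_
  unfold kap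
  apply Finset.prod_le_prod
  · intro k _; exact zero_le_one
  · intro k _
    have h1 : (1 : ℝ) ≤ (1 + 1 / (P k : ℝ)) ^ t :=
      one_le_pow₀ (le_add_of_nonneg_right (by positivity))
    have h2 : 0 ≤ ((1 + 1 / (P k : ℝ)) ^ t - 1) / P k :=
      div_nonneg (sub_nonneg.2 h1) (Nat.cast_nonneg _)
    linarith

private theorem n_kap_mono (P : ι → ℕ) {t t' : ℕ} (h : t ≤ t') : kap P t ≤ kap P t' := by
  unfold kap
  apply Finset.prod_le_prod
  · intro k _
    have h1 : (1 : ℝ) ≤ (1 + 1 / (P k : ℝ)) ^ t :=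
      one_le_pow₀ (le_add_of_nonneg_right (by positivity))
    have h2 : 0 ≤ ((1 + 1 / (P k : ℝ)) ^ t - 1) / P k :=
      div_nonneg (sub_nonneg.2 h1) (Nat.cast_nonneg _)
    linarith
  · intro k _
    have h1 : (1 + 1 / (P k : ℝ)) ^ t ≤ (1 + 1 / (P k : ℝ)) ^ t' :=
      pow_le_pow_right₀ (le_add_of_nonneg_right (by positivity)) h
    have h2 : ((1 + 1 / (P k : ℝ)) ^ t - 1) / P k ≤ ((1 + 1 / (P k : ℝ)) ^ t' - 1) / P k :=
      div_le_div_of_nonneg_right (by linarith) (Nat.cast_nonneg _)
    linarith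

theorem stepN (P : ι → ℕ) (hP : ∀ k, (P k).Prime) (hinj : Function.Injective P) (R y : ℝ)
    (hy : 1 ≤ y) (g : I → ℕ → ℝ) (hg0 : ∀ i b, 0 ≤ g i b)
    (F : (ι → Option I) → ℝ) (hF0 : ∀ s, 0 ≤ F s) (hF : ∀ s, F s ≤ ∏ i, g i (lab P s i))
    (hR : ∀ s, F s ≠ 0 → (tot P s : ℝ) ≤ R) (S : Finset I) :
    ∃ F' : (ι → Option I) → ℝ, (∀ s, 0 ≤ F' s) ∧
      (∀ d, (∀ j ∈ S, noL j d) → lamF P F' d = lamF P F d) ∧
      (∀ s, F' s ≠ 0 → (tot P s : ℝ) ≤ R * y ^ S.card) ∧
      (∀ s, F' s ≤ (∏ j ∈ S, SS P (fun b => g j b * rho b ^ S.card) / HH P y) *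
        ∏ i, ((if i ∈ S then (if (lab P s i : ℝ) ≤ y then 1 else 0) else g i (lab P s i)) *
          rho (lab P s i) ^ S.card)) := by
  induction S using Finset.induction_on with
  | empty =>
    refine ⟨F, hF0, fun d _ => rfl, fun s hs => ?_, fun s => ?_⟩
    · simpa using hR s hs
    · simpa using hF s
  | insert j S hj ih =>
    obtain ⟨F₁, h0, h1, h2, h3⟩ := ih
    refine ⟨stepF P y j F₁, fun s => stepF_nonneg P y j F₁ h0 s, fun d hd => ?_, fun s hs => ?_,
      fun s => ?_⟩
    · rw [lamF_stepF P hP y hy j F₁ d (hd j (Finset.mem_insert_self _ _))]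
      exact h1 d fun j' hj' => hd j' (Finset.mem_insert_of_mem hj')
    · have := stepF_ne P hP y (R * y ^ S.card) hy j F₁ h2 s hs
      rw [Finset.card_insert_of_notMem hj, pow_succ, ← mul_assoc]
      exact this
    · set u : I → ℕ → ℝ := fun i b =>
        (if i ∈ S then (if (b : ℝ) ≤ y then 1 else 0) else g i b) * rho b ^ S.card with hu
      have hrho : ∀ b, (0 : ℝ) ≤ rho b := fun b => zero_le_one.trans (one_le_rho b)
      have hu0 : ∀ i b, 0 ≤ u i b := by
        intro i b
        apply mul_nonneg _ (pow_nonneg (hrho b) _)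
        split_ifs
        · exact zero_le_one
        · exact le_rfl
        · exact hg0 i b
      have hHH := n_HH_nonneg P y
      have hstep := stepF_le P hP hinj y hy j F₁ u hu0
        (∏ j ∈ S, SS P (fun b => g j b * rho b ^ S.card) / HH P y)
        (Finset.prod_nonneg fun j' _ => div_nonneg
          (n_SS_nonneg P fun b => mul_nonneg (hg0 j' b) (pow_nonneg (hrho b) _)) hHH) h0 h3 s
      refine hstep.trans ?_
      have hpow : ∀ b, rho b ^ S.card ≤ rho b ^ (insert j S).card := fun b =>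
        pow_le_pow_right₀ (one_le_rho b) (Finset.card_le_card (Finset.subset_insert j S))
      have huj : u j = fun b => g j b * rho b ^ S.card := by
        funext b
        rw [hu]
        simp only [if_neg hj]
      apply mul_le_mul
      · rw [Finset.prod_insert hj, mul_comm]
        apply mul_le_mul
        · rw [huj]
          exact div_le_div_of_nonneg_right
            (n_SS_mono P fun b => mul_le_mul_of_nonneg_left (hpow b) (hg0 j b)) hHH
        · apply Finset.prod_le_prod
          · intro j' _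
            exact div_nonneg
              (n_SS_nonneg P fun b => mul_nonneg (hg0 j' b) (pow_nonneg (hrho b) _)) hHH
          · intro j' _
            exact div_le_div_of_nonneg_right
              (n_SS_mono P fun b => mul_le_mul_of_nonneg_left (hpow b) (hg0 j' b)) hHH
        · exact Finset.prod_nonneg fun j' _ => div_nonneg
            (n_SS_nonneg P fun b => mul_nonneg (hg0 j' b) (pow_nonneg (hrho b) _)) hHH
        · exact div_nonneg
            (n_SS_nonneg P fun b => mul_nonneg (hg0 j b) (pow_nonneg (hrho b) _)) hHH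
      · apply Finset.prod_le_prod
        · intro i _
          split_ifs
          · exact zero_le_one
          · exact le_rfl
          · exact mul_nonneg (hu0 i _) (hrho _)
        · intro i _
          by_cases hij : i = j
          · subst hij
            rw [if_pos rfl, if_pos (Finset.mem_insert_self _ _)]
            apply le_mul_of_one_le_right
            · split_ifs
              · exact zero_le_one
              · exact le_rfl
            · exact one_le_pow₀ (one_le_rho _)
          · rw [if_neg hij, Finset.card_insert_of_notMem hj, pow_succ, hu]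
            have : (i ∈ insert j S) ↔ i ∈ S := by
              rw [Finset.mem_insert]
              exact ⟨fun h => h.resolve_left hij, Or.inr⟩
            simp only [this]
            rw [mul_assoc]
      · apply Finset.prod_nonneg
        intro i _
        split_ifs
        · exact zero_le_one
        · exact le_rfl
        · exact mul_nonneg (hu0 i _) (hrho _)
      · exact Finset.prod_nonneg fun j' _ => div_nonneg
            (n_SS_nonneg P fun b => mul_nonneg (hg0 j' b) (pow_nonneg (hrho b) _)) hHH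

theorem stepN_diag (P : ι → ℕ) (hP : ∀ k, (P k).Prime) (hinj : Function.Injective P) (y : ℝ)
    (hy : 1 ≤ y) (g : I → ℕ → ℝ) (hg0 : ∀ i b, 0 ≤ g i b) (hg : ∀ i, Antitone (g i)) (S : Finset I)
    (F' : (ι → Option I) → ℝ) (hF0 : ∀ s, 0 ≤ F' s)
    (hF' : ∀ s, F' s ≤ (∏ j ∈ S, SS P (fun b => g j b * rho b ^ S.card) / HH P y) *
        ∏ i, ((if i ∈ S then (if (lab P s i : ℝ) ≤ y then 1 else 0) else g i (lab P s i)) *
          rho (lab P s i) ^ S.card)) :
    ∑ s, (F' s) ^ 2 / tot P s ≤ kap P (2 * Fintype.card I) ^ (3 * Fintype.card I) *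
      (∏ j ∈ S, SS P (g j) ^ 2 / HH P y) * ∏ i ∈ univ \ S, SS P (fun b => g i b ^ 2) := by
  have hrho : ∀ b, (0 : ℝ) ≤ rho b := fun b => zero_le_one.trans (one_le_rho b)
  have hPpos : ∀ k, 0 < P k := fun k => (hP k).pos
  have hHH : 0 < HH P y := n_HH_pos P hPpos y hy
  set n := S.card with hn
  set M := Fintype.card I with hM
  have hnM : n ≤ M := Finset.card_le_univ S
  set K := kap P (2 * M) with hK
  have hK1 : 1 ≤ K := n_one_le_kap P _
  have hK0 : 0 ≤ K := zero_le_one.trans hK1
  set B : ℝ := ∏ j ∈ S, SS P (fun b => g j b * rho b ^ n) / HH P y with hB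
  set v : I → ℕ → ℝ := fun i b => if i ∈ S then (if (b : ℝ) ≤ y then 1 else 0) else g i b ^ 2
    with hv
  set u : I → ℕ → ℝ := fun i b => v i b * rho b ^ (2 * n) with hu
  have hv0 : ∀ i b, 0 ≤ v i b := by
    intro i b
    rw [hv]
    dsimp only
    split_ifs
    · exact zero_le_one
    · exact le_rfl
    · exact sq_nonneg _
  have hva : ∀ i, Antitone (v i) := by
    intro i b b' hbb
    rw [hv]
    dsimp only
    by_cases hi : i ∈ S
    · rw [if_pos hi, if_pos hi]
      by_cases hb' : (b' : ℝ) ≤ y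
      · have hb : (b : ℝ) ≤ y := le_trans (by exact_mod_cast hbb) hb'
        rw [if_pos hb, if_pos hb']
      · rw [if_neg hb']
        split_ifs
        · exact zero_le_one
        · exact le_rfl
    · rw [if_neg hi, if_neg hi]
      exact pow_le_pow_left₀ (hg0 i b') (hg i hbb) 2
  have hu0 : ∀ i b, 0 ≤ u i b := fun i b => mul_nonneg (hv0 i b) (pow_nonneg (hrho b) _)
  have hB0 : 0 ≤ B := Finset.prod_nonneg fun j' _ => div_nonneg
    (n_SS_nonneg P fun b => mul_nonneg (hg0 j' b) (pow_nonneg (hrho b) _)) hHH.le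
  have h1 : ∀ s, (F' s) ^ 2 ≤ B ^ 2 * ∏ i, u i (lab P s i) := by
    intro s
    have h := pow_le_pow_left₀ (hF0 s) (hF' s) 2
    refine h.trans (le_of_eq ?_)
    rw [mul_pow]
    congr 1
    rw [← Finset.prod_pow]
    apply Finset.prod_congr rfl
    intro i _
    rw [hu, hv]
    dsimp only
    rw [mul_pow, ← pow_mul, mul_comm n 2]
    congr 1
    split_ifs <;> simp
  have h2 : ∑ s, (F' s) ^ 2 / tot P s ≤ B ^ 2 * ∏ i, SS P (u i) := by
    calc ∑ s, (F' s) ^ 2 / tot P s
        ≤ ∑ s, B ^ 2 * ((∏ i, u i (lab P s i)) / tot P s) := by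
          apply Finset.sum_le_sum
          intro s _
          rw [← mul_div_assoc]
          exact div_le_div_of_nonneg_right (h1 s) (Nat.cast_nonneg _)
      _ = B ^ 2 * ∑ s : ι → Option I, (∏ i, u i (lab P s i)) / tot P s := by
          rw [Finset.mul_sum]
      _ ≤ B ^ 2 * ∏ i, SS P (u i) :=
          mul_le_mul_of_nonneg_left (sum_prod_le P hPpos u hu0) (sq_nonneg _)
  -- the product over all labels
  have h3 : ∏ i, SS P (u i) ≤ K ^ M * ((∏ _j ∈ S, HH P y) * ∏ i ∈ univ \ S, SS P (fun b => g i b ^ 2)) := by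
    have h4 : ∏ i, SS P (u i) ≤ ∏ i, K * SS P (v i) := by
      apply Finset.prod_le_prod
      · intro i _
        exact n_SS_nonneg P (hu0 i)
      · intro i _
        refine (SS_rho_le P hP hinj (v i) (hv0 i) (hva i) (2 * n)).trans ?_
        exact mul_le_mul_of_nonneg_right (n_kap_mono P (by omega)) (n_SS_nonneg P (hv0 i))
    refine h4.trans (le_of_eq ?_)
    rw [Finset.prod_mul_distrib, Finset.prod_const, Finset.card_univ]
    congr 1
    rw [← Finset.prod_sdiff (Finset.subset_univ S), mul_comm]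
    congr 1
    · apply Finset.prod_congr rfl
      intro i hi
      rw [← n_SS_ind P y]
      congr 1
      funext b
      rw [hv]
      simp only [if_pos hi]
    · apply Finset.prod_congr rfl
      intro i hi
      congr 1
      funext b
      rw [hv]
      simp only [if_neg (Finset.mem_sdiff.1 hi).2]
  have h5 : B ^ 2 ≤ K ^ (2 * n) * ∏ j ∈ S, (SS P (g j) ^ 2 / HH P y ^ 2) := by
    have h6 : B ≤ ∏ j ∈ S, (K * (SS P (g j) / HH P y)) := by
      apply Finset.prod_le_prod
      · intro j' _
        exact div_nonneg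
          (n_SS_nonneg P fun b => mul_nonneg (hg0 j' b) (pow_nonneg (hrho b) _)) hHH.le
      · intro j' _
        rw [← mul_div_assoc]
        apply div_le_div_of_nonneg_right _ hHH.le
        refine (SS_rho_le P hP hinj (g j') (hg0 j') (hg j') n).trans ?_
        exact mul_le_mul_of_nonneg_right (n_kap_mono P (by omega)) (n_SS_nonneg P (hg0 j'))
    refine (pow_le_pow_left₀ hB0 h6 2).trans (le_of_eq ?_)
    rw [Finset.prod_mul_distrib, mul_pow, Finset.prod_const, ← pow_mul, ← hn, mul_comm n 2,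
      ← Finset.prod_pow]
    congr 1
    apply Finset.prod_congr rfl
    intro j' _
    rw [div_pow]
  have hR0 : 0 ≤ ∏ i ∈ univ \ S, SS P (fun b => g i b ^ 2) :=
    Finset.prod_nonneg fun i _ => n_SS_nonneg P fun b => sq_nonneg _
  have hQ0 : 0 ≤ ∏ j ∈ S, SS P (g j) ^ 2 / HH P y :=
    Finset.prod_nonneg fun i _ => div_nonneg (sq_nonneg _) hHH.le
  calc ∑ s, (F' s) ^ 2 / tot P s ≤ B ^ 2 * ∏ i, SS P (u i) := h2
    _ ≤ (K ^ (2 * n) * ∏ j ∈ S, (SS P (g j) ^ 2 / HH P y ^ 2)) *
        (K ^ M * ((∏ _j ∈ S, HH P y) * ∏ i ∈ univ \ S, SS P (fun b => g i b ^ 2))) := by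
        apply mul_le_mul h5 h3
        · exact Finset.prod_nonneg fun i _ => n_SS_nonneg P (hu0 i)
        · exact mul_nonneg (pow_nonneg hK0 _) (Finset.prod_nonneg fun i _ => by positivity)
    _ = K ^ (2 * n + M) * ((∏ j ∈ S, SS P (g j) ^ 2 / HH P y) *
        ∏ i ∈ univ \ S, SS P (fun b => g i b ^ 2)) := by
        have h7 : (∏ j ∈ S, (SS P (g j) ^ 2 / HH P y ^ 2)) * (∏ _j ∈ S, HH P y) =
            ∏ j ∈ S, SS P (g j) ^ 2 / HH P y := by
          rw [← Finset.prod_mul_distrib]
          apply Finset.prod_congr rfl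
          intro j' _
          field_simp
        rw [← h7, pow_add]
        ring
    _ ≤ K ^ (3 * M) * ((∏ j ∈ S, SS P (g j) ^ 2 / HH P y) *
        ∏ i ∈ univ \ S, SS P (fun b => g i b ^ 2)) := by
        apply mul_le_mul_of_nonneg_right _ (mul_nonneg hQ0 hR0)
        exact pow_le_pow_right₀ hK1 (by omega)
    _ = _ := by ring

end Pool.Agent.H21.MT
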