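import Pool.Agent.H21.MT.AsmA
import Pool.Agent.H21.MT.StepN

/-!
[H21 MT ASMC]  Upper bound for the mass of the `N` with all `N + h j`, `j ∈ S`, prime.

Proof.  Let `K = |I|`, `m = |S| ≥ 1`, `R = x^{1/100}`, `y = R^{1/m}` (`y^m = R`).  `stepN` with
`g = δ.g x`, `F = δ.F x` gives `F'`; put `lam' = lamF P F'`.
(1) For `N ∈ Win x` (`N > √x ≥ R`) with all `N + h j` (`j ∈ S`) prime, `dv P h d N` implies that
`d` has no label in `S` (a prime `P k ≤ R` would divide the prime `N + h j > R`); so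
`sig lam N = sig lam' N`.  Hence the mass is `≤ ∑_{N ∈ WinB} wN (sig lam')^2
≤ (XX/W) mform (1/P) lam' + 4 (∑|lam'|)^2` (`count_sig`, `wN_ap`).
(2) `mform (1/P) lam' ≤ ∑ F'^2/tot` (`diag_le`, `cc_lamF`) `≤ 2 ∏_{j∈S} (A_j^2/H) ∏_{i∉S} B_i`
(`stepN_diag`, `par_P`), `H = HH P y`.
(3) `∑ |lam'| ≤ Λ' R^2 (1+2 log R)^{2K}` (`lam_bound` with `R^2`), where
`F' ≤ Λ' := (2(1+log x))^K ((1+2 log R)^K)^K`: indeed `SS(g rho^m) ≤ kap A ≤ 2(1+log x)`, `H ≥ 1`,
and for `F' s ≠ 0` (so `tot s ≤ R^2`) `∏_i rho(lab s i)^m ≤ (∏_{k∈s}(1+1/P k))^K ≤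
(∑_{n ≤ R^2} 1/n)^K`; so `4 (∑|lam'|)^2 ≤ x^{1/10} ≤ 2 (XX/W) ∏_{j∈S}(A_j^2/H) ∏ B_i` for large `x`
(`XX ≥ x/8`, `A,B ≥ 1`, `H ≤ 1 + log x`).
(4) So the mass is `≤ 4 (XX/W) ∏_{j∈S}(A_j^2/H) ∏_{i∉S} B_i ≤ 32 S1 ∏_{j∈S} A_j^2/(B_j H)`
(`S1_bounds`), and `A_j^2/(B_j H) ≤ (27/100)(l+2)^2 V tau log R * m/((9/10) V log R)
≤ m tau (l+2)^2` (`par_AB`, `par_H`).
-/

set_option linter.unusedSectionVars false

namespace Pool.Agent.H21.MT

open Finset Filter

section gen

variable {ι I : Type} [Fintype ι] [DecidableEq ι] [Fintype I] [DecidableEq I]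

private theorem one_le_kap (P : ι → ℕ) (t : ℕ) : 1 ≤ kap P t := by
  have e1 : (1 : ℝ) = ∏ _k : ι, (1 : ℝ) := by simp
  unfold kap
  refine e1.le.trans ?_
  apply Finset.prod_le_prod
  · intro k _
    exact zero_le_one
  · intro k _
    have h1 : (1 : ℝ) ≤ (1 + 1 / (P k : ℝ)) ^ t := by
      apply one_le_pow₀
      have : (0 : ℝ) ≤ 1 / (P k : ℝ) := by positivity
      linarith
    have h2 : (0 : ℝ) ≤ ((1 + 1 / (P k : ℝ)) ^ t - 1) / P k := by
      apply div_nonneg
      · linarith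
      · positivity
    linarith

private theorem kap_mono (P : ι → ℕ) {t t' : ℕ} (h : t ≤ t') : kap P t ≤ kap P t' := by
  unfold kap
  apply Finset.prod_le_prod
  · intro k _
    have h1 : (1 : ℝ) ≤ (1 + 1 / (P k : ℝ)) ^ t := by
      apply one_le_pow₀
      have : (0 : ℝ) ≤ 1 / (P k : ℝ) := by positivity
      linarith
    have h2 : (0 : ℝ) ≤ ((1 + 1 / (P k : ℝ)) ^ t - 1) / P k := by
      apply div_nonneg
      · linarith
      · positivity
    linarith
  · intro k _
    have h1 : (1 + 1 / (P k : ℝ)) ^ t ≤ (1 + 1 / (P k : ℝ)) ^ t' := by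
      apply pow_le_pow_right₀ _ h
      have : (0 : ℝ) ≤ 1 / (P k : ℝ) := by positivity
      linarith
    gcongr

private theorem one_add_inv_pow_le (p m : ℕ) (hm : 2 * m ≤ p) (hp : 2 ≤ p) :
    (1 + 1 / (p : ℝ)) ^ m ≤ p := by
  have hp0 : (0 : ℝ) < p := by
    have : 0 < p := by omega
    exact_mod_cast this
  have h1 : 1 + 1 / (p : ℝ) ≤ Real.exp (1 / (p : ℝ)) := by
    have := Real.add_one_le_exp (1 / (p : ℝ))
    linarith
  have h2 : (1 + 1 / (p : ℝ)) ^ m ≤ Real.exp (1 / (p : ℝ)) ^ m := by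
    apply pow_le_pow_left₀ (by positivity) h1
  have h3 : Real.exp (1 / (p : ℝ)) ^ m = Real.exp (m / (p : ℝ)) := by
    rw [← Real.exp_nat_mul]
    congr 1
    ring
  have h4 : (m : ℝ) / p ≤ 1 / 2 := by
    rw [div_le_div_iff₀ hp0 (by norm_num)]
    have : ((2 * m : ℕ) : ℝ) ≤ p := by exact_mod_cast hm
    push_cast at this
    linarith
  have h5 : Real.exp (m / (p : ℝ)) ≤ Real.exp (1 / 2) := Real.exp_le_exp.mpr h4
  have h6 : Real.exp (1 / 2) ≤ 2 := by
    have h7 : Real.exp (1 / 2) ^ 2 = Real.exp 1 := by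
      rw [← Real.exp_nat_mul]
      norm_num
    have h8 := Real.exp_one_lt_d9
    have h9 := Real.exp_pos (1 / 2)
    nlinarith
  have h10 : (2 : ℝ) ≤ p := by exact_mod_cast hp
  rw [h3] at h2
  linarith

private theorem rho_prod_le (P : ι → ℕ) (hP : ∀ k, (P k).Prime) (hinj : Function.Injective P) (m : ℕ)
    (hm : ∀ k, 2 * m ≤ P k) (s : ι → Option I) :
    ∏ i, rho (lab P s i) ^ m ≤ tot P s := by
  have e1 : ∀ i, rho (lab P s i) ^ m =
      ∏ k, (if s k = some i then (1 + 1 / (P k : ℝ)) ^ m else 1) := by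
    intro i
    rw [rho_lab P hP hinj, ← Finset.prod_pow]
    apply Finset.prod_congr rfl
    intro k _
    split_ifs
    · rfl
    · exact one_pow m
  rw [Finset.prod_congr rfl (fun i _ => e1 i), Finset.prod_comm]
  unfold tot
  rw [Nat.cast_prod]
  apply Finset.prod_le_prod
  · intro k _
    apply Finset.prod_nonneg
    intro i _
    split_ifs
    · positivity
    · exact zero_le_one
  · intro k _
    rcases h : s k with _ | j
    · simp
    · have h2 := one_add_inv_pow_le (P k) m (hm k) (hP k).two_le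
      simpa using h2

private theorem mform_le_sum (P : ι → ℕ) (hP : ∀ k, (P k).Prime) (hK : ∀ k, 2 * Fintype.card I ≤ P k)
    (F : (ι → Option I) → ℝ) :
    mform (fun k => (1 : ℝ) / P k) (lamF P F) ≤ ∑ s, (F s) ^ 2 / tot P s := by
  have hpos : ∀ k, (0 : ℝ) < P k := fun k => by exact_mod_cast (hP k).pos
  have h1 := diag_le (I := I) (fun k => (1 : ℝ) / P k) (fun k => by have := hpos k; positivity)
    (fun k => by
      have h2 := hpos k
      rw [mul_one_div, div_le_one h2]
      have h3 := hK k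
      have h4 : Fintype.card I ≤ P k := by omega
      exact_mod_cast h4) (lamF P F)
  refine h1.trans (le_of_eq ?_)
  apply Finset.sum_congr rfl
  intro r _
  rw [cc_lamF P (fun k => (hP k).pos)]
  have e1 : (∏ k, (if r k = none then (1 : ℝ) else 1 / (P k : ℝ))) = 1 / tot P r := by
    unfold tot
    rw [Nat.cast_prod, one_div, ← Finset.prod_inv_distrib]
    apply Finset.prod_congr rfl
    intro k _
    split_ifs
    · simp
    · simp
  have e2 : (mu r) ^ 2 = 1 := by
    unfold mu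
    rw [← Finset.prod_pow]
    apply Finset.prod_eq_one
    intro k _
    split_ifs
    · simp
    · simp
  rw [e1, mul_pow, e2]
  ring

end gen

/-- polylog vs power -/
private theorem polylog_ev (c : ℝ) (n : ℕ) (a : ℝ) (ha : 0 < a) :
    ∀ᶠ x : ℝ in atTop, c * (1 + Real.log x) ^ n ≤ x ^ a := by
  have h1 := (isLittleO_log_rpow_rpow_atTop (n : ℝ) ha)
  have h2 := h1.bound (show (0 : ℝ) < 1 / (|c| * 2 ^ n + 1) by positivity)
  filter_upwards [h2, eventually_ge_atTop (Real.exp 1), eventually_ge_atTop (1 : ℝ)] with x hx hxe hx1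
  have hl : 1 ≤ Real.log x := by
    rw [Real.le_log_iff_exp_le (by linarith)]
    exact hxe
  rw [Real.rpow_natCast, Real.norm_of_nonneg (by positivity),
    Real.norm_of_nonneg (by positivity)] at hx
  have h3 : c * (1 + Real.log x) ^ n ≤ |c| * (2 * Real.log x) ^ n := by
    have h4 : (1 + Real.log x) ^ n ≤ (2 * Real.log x) ^ n := by
      apply pow_le_pow_left₀ (by linarith)
      linarith
    calc c * (1 + Real.log x) ^ n ≤ |c| * (1 + Real.log x) ^ n := by
          apply mul_le_mul_of_nonneg_right (le_abs_self c)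
          apply pow_nonneg
          linarith
      _ ≤ _ := by
          apply mul_le_mul_of_nonneg_left h4 (abs_nonneg c)
  have h5 : |c| * (2 * Real.log x) ^ n = (|c| * 2 ^ n) * Real.log x ^ n := by
    rw [mul_pow]; ring
  have h6 : (|c| * 2 ^ n) * Real.log x ^ n ≤ (|c| * 2 ^ n) * (1 / (|c| * 2 ^ n + 1) * x ^ a) := by
    apply mul_le_mul_of_nonneg_left hx (by positivity)
  have h7 : (|c| * 2 ^ n) * (1 / (|c| * 2 ^ n + 1) * x ^ a) ≤ x ^ a := by
    have h8 : (0 : ℝ) ≤ x ^ a := by positivity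
    have h9 : (|c| * 2 ^ n) * (1 / (|c| * 2 ^ n + 1) * x ^ a) =
      ((|c| * 2 ^ n) / (|c| * 2 ^ n + 1)) * x ^ a := by ring
    rw [h9]
    apply mul_le_of_le_one_left h8
    rw [div_le_one (by positivity)]
    linarith
  linarith

variable {I : Type} [Fintype I] [DecidableEq I] [Nonempty I] (δ : Dat I)

private theorem sig_eq_of_prime (x : ℝ) (hx : 1 ≤ x) (S : Finset I)
    (lam lam' : (PIdx δ.W (Dat.R x) → Option I) → ℝ)
    (hlam : ∀ d, (∀ j ∈ S, noL j d) → lam' d = lam d) (N : ℕ) (hN : N ∈ Win x)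
    (hp : ∀ j ∈ S, (N + δ.h j).Prime) : sig (δ.P x) δ.h lam N = sig (δ.P x) δ.h lam' N := by
  unfold sig
  apply Finset.sum_congr rfl
  intro d hd
  rw [Finset.mem_filter] at hd
  symm
  apply hlam
  intro j hj k hk
  have h1 := hd.2 k j hk
  have h2 : δ.P x k = N + δ.h j :=
    (Nat.prime_dvd_prime_iff_eq (Pv_prime _ _ k) (hp j hj)).mp h1
  have hR0 : 0 ≤ Dat.R x := by unfold Dat.R; positivity
  have h3 : (δ.P x k : ℝ) ≤ Dat.R x := by
    have h31 := (Finset.mem_filter.mp k.2).1
    rw [Finset.mem_Icc] at h31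
    have h32 : (k.1 : ℝ) ≤ (⌊Dat.R x⌋₊ : ℝ) := by exact_mod_cast h31.2
    exact h32.trans (Nat.floor_le hR0)
  have h4 : Dat.R x ≤ Real.sqrt x := by
    unfold Dat.R
    rw [Real.sqrt_eq_rpow]
    apply Real.rpow_le_rpow_of_exponent_le hx
    norm_num
  have h5 : Real.sqrt x < N := by
    unfold Win at hN
    rw [Finset.mem_Ioc] at hN
    exact (Nat.floor_lt (Real.sqrt_nonneg x)).mp hN.1
  rw [h2] at h3
  push_cast at h3
  have h6 : (0 : ℝ) ≤ δ.h j := by positivity
  linarith

theorem SS_upper (S : Finset I) (hS : S.Nonempty) : ∀ᶠ x : ℝ in atTop,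
    ∑ N ∈ (δ.WinB x).filter (fun N => ∀ j ∈ S, (N + δ.h j).Prime), δ.om x N ≤
      32 * (∏ j ∈ S, ((S.card : ℝ) * (δ.tau j * (δ.l j + 2) ^ 2))) * δ.S1 x := by
  have hm1 : 1 ≤ S.card := hS.card_pos
  have hmK : S.card ≤ Fintype.card I := S.card_le_univ
  have hK1 : 1 ≤ Fintype.card I := hm1.trans hmK
  have hW0 : (0 : ℝ) < δ.W := by exact_mod_cast δ.W_pos
  have hV0 : 0 < δ.V := by
    unfold Dat.V
    apply div_pos _ hW0
    exact_mod_cast Nat.totient_pos.mpr δ.W_pos
  filter_upwards [par_g δ, par_AB δ, par_H δ, S1_bounds δ, wN_ap, wN_mass,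
    eventually_ge_atTop (1 : ℝ),
    polylog_ev (4 * 2 ^ (2 * Fintype.card I)) (6 * Fintype.card I) (1 / 50) (by norm_num),
    polylog_ev (4 * δ.W) S.card (9 / 10) (by norm_num)] with x hg hAB hH hS1 hap hmass hx1 hpl1 hpl2
  obtain ⟨hR1, hg0, hg1, hganti, hg1', hgR⟩ := hg
  obtain ⟨hP1, hP2, hP3, hP4⟩ := par_P δ x
  have hPprime : ∀ k, (δ.P x k).Prime := Pv_prime _ _
  have hPinj : Function.Injective (δ.P x) := Pv_inj _ _
  obtain ⟨hH1, hH2, hH3⟩ := hH S.card hm1 hmK
  have hx0 : (0 : ℝ) < x := by linarith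
  have hm0 : (0 : ℝ) < S.card := by exact_mod_cast hm1
  have hlx : 0 ≤ Real.log x := Real.log_nonneg hx1
  obtain ⟨y, hy⟩ : ∃ y : ℝ, y = (Dat.R x) ^ (1 / (S.card : ℝ)) := ⟨_, rfl⟩
  rw [← hy] at hH1 hH2 hH3
  have hR0 : 0 < Dat.R x := by linarith
  have hy1 : 1 ≤ y := by
    rw [hy]
    exact Real.one_le_rpow hR1.le (by positivity)
  have hym : y ^ S.card = Dat.R x := by
    rw [hy, ← Real.rpow_natCast, ← Real.rpow_mul hR0.le, one_div_mul_cancel hm0.ne', Real.rpow_one]
  -- the function F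
  have hprod0 : ∀ s : PIdx δ.W (Dat.R x) → Option I,
      0 ≤ ∏ i, δ.g x i (lab (δ.P x) s i) := fun s => Finset.prod_nonneg fun i _ => hg0 i _
  have hF0 : ∀ s, 0 ≤ δ.F x s := by
    intro s
    unfold Dat.F FF
    apply mul_nonneg (hprod0 s)
    split_ifs
    · exact zero_le_one
    · exact le_rfl
  have hF : ∀ s, δ.F x s ≤ ∏ i, δ.g x i (lab (δ.P x) s i) := by
    intro s
    unfold Dat.F FF
    apply mul_le_of_le_one_right (hprod0 s)
    split_ifs
    · exact le_rfl
    · exact zero_le_one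
  have hFR : ∀ s, δ.F x s ≠ 0 → (tot (δ.P x) s : ℝ) ≤ Dat.R x := by
    intro s hs
    by_contra hc
    apply hs
    unfold Dat.F FF
    rw [if_neg hc, mul_zero]
  obtain ⟨F', hF'0, hF'lam, hF'R, hF'le⟩ := stepN (δ.P x) hPprime hPinj (Dat.R x) y hy1 (δ.g x)
    hg0 (δ.F x) hF0 hF hFR S
  have hdiag := stepN_diag (δ.P x) hPprime hPinj y hy1 (δ.g x) hg0 hganti S F' hF'0 hF'le
  rw [hym] at hF'R
  have hA : ∀ j, SS (δ.P x) (δ.g x j) = δ.A x j := fun _ => rfl
  have hB : ∀ j, SS (δ.P x) (fun b => δ.g x j b ^ 2) = δ.B x j := fun _ => rfl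
  simp only [hA, hB] at hdiag
  -- the pointwise bound
  have hkap : kap (δ.P x) S.card ≤ 2 := by
    refine (kap_mono (δ.P x) (show S.card ≤ 2 * Fintype.card I by omega)).trans (le_trans ?_ hP4)
    exact le_self_pow₀ (one_le_kap _ _) (by omega)
  have hSSg : ∀ j, SS (δ.P x) (fun b => δ.g x j b * rho b ^ S.card) / HH (δ.P x) y ≤
      2 * (1 + Real.log x) := by
    intro j
    have h1 := SS_rho_le (δ.P x) hPprime hPinj (δ.g x j) (hg0 j) (hganti j) S.card
    rw [hA] at h1
    have h2 : kap (δ.P x) S.card * δ.A x j ≤ 2 * (1 + Real.log x) := by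
      apply mul_le_mul hkap (hAB j).2.2.1 _ (by norm_num)
      linarith [(hAB j).1]
    rw [div_le_iff₀ (by linarith)]
    calc _ ≤ 2 * (1 + Real.log x) := h1.trans h2
      _ = 2 * (1 + Real.log x) * 1 := by ring
      _ ≤ 2 * (1 + Real.log x) * HH (δ.P x) y := by
          apply mul_le_mul_of_nonneg_left hH1
          linarith
  have hSSg0 : ∀ j, 0 ≤ SS (δ.P x) (fun b => δ.g x j b * rho b ^ S.card) / HH (δ.P x) y := by
    intro j
    apply div_nonneg _ (by linarith)
    unfold SS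
    apply Finset.sum_nonneg
    intro T _
    apply div_nonneg
    · apply mul_nonneg (hg0 j _)
      apply pow_nonneg
      linarith [one_le_rho (nrm (δ.P x) T)]
    · positivity
  have hL1 : 1 ≤ 2 * (1 + Real.log x) := by linarith
  have hF'bd : ∀ s, F' s ≤ (2 * (1 + Real.log x)) ^ Fintype.card I * (Dat.R x) ^ 2 := by
    intro s
    by_cases hs : F' s = 0
    · rw [hs]
      apply mul_nonneg
      · apply pow_nonneg
        linarith
      · positivity
    · refine (hF'le s).trans ?_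
      have h1 : (∏ j ∈ S, SS (δ.P x) (fun b => δ.g x j b * rho b ^ S.card) / HH (δ.P x) y) ≤
          (2 * (1 + Real.log x)) ^ Fintype.card I := by
        calc _ ≤ ∏ j ∈ S, (2 * (1 + Real.log x)) :=
              Finset.prod_le_prod (fun j _ => hSSg0 j) (fun j _ => hSSg j)
          _ = (2 * (1 + Real.log x)) ^ S.card := by rw [Finset.prod_const]
          _ ≤ _ := pow_le_pow_right₀ hL1 hmK
      have h2 : ∏ i, ((if i ∈ S then (if (lab (δ.P x) s i : ℝ) ≤ y then (1 : ℝ) else 0)
          else δ.g x i (lab (δ.P x) s i)) * rho (lab (δ.P x) s i) ^ S.card) ≤ (Dat.R x) ^ 2 := by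
        calc _ ≤ ∏ i, rho (lab (δ.P x) s i) ^ S.card := by
              apply Finset.prod_le_prod
              · intro i _
                apply mul_nonneg
                · split_ifs
                  · exact zero_le_one
                  · exact le_rfl
                  · exact hg0 i _
                · apply pow_nonneg
                  linarith [one_le_rho (lab (δ.P x) s i)]
              · intro i _
                apply mul_le_of_le_one_left
                · apply pow_nonneg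
                  linarith [one_le_rho (lab (δ.P x) s i)]
                · split_ifs
                  · exact le_rfl
                  · exact zero_le_one
                  · exact hg1 i _
          _ ≤ tot (δ.P x) s := by
              apply rho_prod_le (δ.P x) hPprime hPinj
              intro k
              have := hP1 k
              omega
          _ ≤ Dat.R x * Dat.R x := hF'R s hs
          _ = _ := by ring
      apply mul_le_mul h1 h2
      · apply Finset.prod_nonneg
        intro i _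
        apply mul_nonneg
        · split_ifs
          · exact zero_le_one
          · exact le_rfl
          · exact hg0 i _
        · apply pow_nonneg
          linarith [one_le_rho (lab (δ.P x) s i)]
      · apply pow_nonneg
        linarith
  -- the weights
  have hlb := (lam_bound (δ.P x) hPprime hPinj (Dat.R x * Dat.R x)
    ((2 * (1 + Real.log x)) ^ Fintype.card I * (Dat.R x) ^ 2) (by nlinarith) F' hF'0 hF'bd hF'R).2.2
  have hlogR : 1 + Real.log (Dat.R x * Dat.R x) ≤ 1 + Real.log x := by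
    have h1 : Dat.R x * Dat.R x ≤ x := by
      unfold Dat.R
      rw [← Real.rpow_add hx0]
      calc x ^ ((1 : ℝ) / 100 + 1 / 100) ≤ x ^ (1 : ℝ) := by
            apply Real.rpow_le_rpow_of_exponent_le hx1
            norm_num
        _ = x := Real.rpow_one x
    have h2 := Real.log_le_log (by positivity) h1
    linarith
  have hlogR0 : 0 ≤ 1 + Real.log (Dat.R x * Dat.R x) := by
    have : 0 ≤ Real.log (Dat.R x * Dat.R x) := Real.log_nonneg (by nlinarith)
    linarith
  have hlam_sum : ∑ d, |lamF (δ.P x) F' d| ≤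
      (2 ^ Fintype.card I * (1 + Real.log x) ^ (3 * Fintype.card I)) * (Dat.R x) ^ 4 := by
    refine hlb.trans ?_
    have h1 : (1 + Real.log (Dat.R x * Dat.R x)) ^ (2 * Fintype.card I) ≤
        (1 + Real.log x) ^ (2 * Fintype.card I) := pow_le_pow_left₀ hlogR0 hlogR _
    calc _ ≤ (2 * (1 + Real.log x)) ^ Fintype.card I * (Dat.R x) ^ 2 * (Dat.R x * Dat.R x) *
          (1 + Real.log x) ^ (2 * Fintype.card I) := by
          apply mul_le_mul_of_nonneg_left h1
          have : 0 ≤ (2 * (1 + Real.log x)) ^ Fintype.card I := by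
            apply pow_nonneg
            linarith
          positivity
      _ = _ := by
          rw [mul_pow, show 3 * Fintype.card I = Fintype.card I + 2 * Fintype.card I by ring,
            pow_add]
          ring
  have hlam_sq : 4 * (∑ d, |lamF (δ.P x) F' d|) ^ 2 ≤ x ^ (1 / 10 : ℝ) := by
    have h0 : 0 ≤ ∑ d, |lamF (δ.P x) F' d| := Finset.sum_nonneg fun d _ => abs_nonneg _
    have h1 := pow_le_pow_left₀ h0 hlam_sum 2
    have h2 : (Dat.R x) ^ 8 = x ^ (8 / 100 : ℝ) := by
      unfold Dat.R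
      rw [← Real.rpow_natCast, ← Real.rpow_mul hx0.le]
      norm_num
    have h3 : x ^ (1 / 10 : ℝ) = x ^ (1 / 50 : ℝ) * x ^ (8 / 100 : ℝ) := by
      rw [← Real.rpow_add hx0]
      norm_num
    calc 4 * (∑ d, |lamF (δ.P x) F' d|) ^ 2 ≤
          4 * ((2 ^ Fintype.card I * (1 + Real.log x) ^ (3 * Fintype.card I)) *
            (Dat.R x) ^ 4) ^ 2 := by linarith
      _ = (4 * 2 ^ (2 * Fintype.card I) * (1 + Real.log x) ^ (6 * Fintype.card I)) *
            (Dat.R x) ^ 8 := by
          rw [mul_pow, mul_pow, ← pow_mul, ← pow_mul, ← pow_mul,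
            show 6 * Fintype.card I = 3 * Fintype.card I * 2 by ring,
            show 2 * Fintype.card I = Fintype.card I * 2 by ring]
          ring
      _ ≤ x ^ (1 / 50 : ℝ) * (Dat.R x) ^ 8 := by
          apply mul_le_mul_of_nonneg_right hpl1
          positivity
      _ = _ := by rw [h2, h3]
  -- counting
  have hcount := count_sig (δ.P x) hPprime hPinj δ.h (par_diff δ x) δ.W δ.b δ.W_pos
    (Pv_not_dvd _ _) (Win x) (wN x) (XX x) 4 (fun q c hq => hap q c hq) (lamF (δ.P x) F')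
  have hmform := mform_le_sum (δ.P x) hPprime (fun k => by have := hP1 k; omega) F'
  have hXX0 : 0 ≤ XX x := Finset.sum_nonneg fun N _ => (wN_pos x N).le
  have hXX8 : x / 8 ≤ XX x := hmass.1
  have hA0 : ∀ j, 0 < δ.A x j := fun j => by linarith [(hAB j).1]
  have hB0 : ∀ j, 0 < δ.B x j := fun j => by linarith [(hAB j).2.1]
  have hH0 : 0 < HH (δ.P x) y := by linarith
  have hQ : ∑ s, (F' s) ^ 2 / tot (δ.P x) s ≤
      2 * ((∏ j ∈ S, δ.A x j ^ 2 / HH (δ.P x) y) * ∏ i ∈ univ \ S, δ.B x i) := by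
    refine hdiag.trans ?_
    rw [mul_assoc]
    apply mul_le_mul_of_nonneg_right hP4
    apply mul_nonneg
    · apply Finset.prod_nonneg
      intro j _
      exact div_nonneg (sq_nonneg _) hH0.le
    · apply Finset.prod_nonneg
      intro j _
      exact (hB0 j).le
  have hmass2 : ∑ N ∈ (δ.WinB x).filter (fun N => ∀ j ∈ S, (N + δ.h j).Prime), δ.om x N ≤
      XX x / δ.W * (2 * ((∏ j ∈ S, δ.A x j ^ 2 / HH (δ.P x) y) * ∏ i ∈ univ \ S, δ.B x i)) +
        x ^ (1 / 10 : ℝ) := by
    calc ∑ N ∈ (δ.WinB x).filter (fun N => ∀ j ∈ S, (N + δ.h j).Prime), δ.om x N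
        = ∑ N ∈ (δ.WinB x).filter (fun N => ∀ j ∈ S, (N + δ.h j).Prime),
            wN x N * (sig (δ.P x) δ.h (lamF (δ.P x) F') N) ^ 2 := by
          apply Finset.sum_congr rfl
          intro N hN
          rw [Finset.mem_filter] at hN
          unfold Dat.om
          have hNW : N ∈ Win x := by
            have := hN.1
            unfold Dat.WinB at this
            exact (Finset.mem_filter.mp this).1
          rw [sig_eq_of_prime δ x hx1 S (δ.lam x) (lamF (δ.P x) F') hF'lam N hNW hN.2]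
      _ ≤ ∑ N ∈ δ.WinB x, wN x N * (sig (δ.P x) δ.h (lamF (δ.P x) F') N) ^ 2 := by
          apply Finset.sum_le_sum_of_subset_of_nonneg (Finset.filter_subset _ _)
          intro N _ _
          exact mul_nonneg (wN_pos x N).le (sq_nonneg _)
      _ ≤ XX x / δ.W * mform (fun k => (1 : ℝ) / δ.P x k) (lamF (δ.P x) F') +
            4 * (∑ d, |lamF (δ.P x) F' d|) ^ 2 := by
          have := (abs_le.mp hcount).2
          unfold Dat.WinB
          linarith
      _ ≤ _ := by
          apply add_le_add _ hlam_sq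
          exact mul_le_mul_of_nonneg_left (hmform.trans hQ) (div_nonneg hXX0 hW0.le)
  have hsmall : x ^ (1 / 10 : ℝ) ≤
      XX x / δ.W * (2 * ((∏ j ∈ S, δ.A x j ^ 2 / HH (δ.P x) y) * ∏ i ∈ univ \ S, δ.B x i)) := by
    have h1 : (1 / (1 + Real.log x)) ^ S.card ≤ ∏ j ∈ S, δ.A x j ^ 2 / HH (δ.P x) y := by
      rw [← Finset.prod_const]
      apply Finset.prod_le_prod
      · intro j _
        apply div_nonneg zero_le_one
        linarith
      · intro j _
        apply div_le_div₀ (sq_nonneg _) _ hH0 hH2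
        have := (hAB j).1
        nlinarith
    have h2 : (1 : ℝ) ≤ ∏ i ∈ univ \ S, δ.B x i := by
      have e1 : (1 : ℝ) = ∏ _i ∈ univ \ S, (1 : ℝ) := by simp
      refine e1.le.trans ?_
      apply Finset.prod_le_prod
      · intro k _
        exact zero_le_one
      · intro k _
        exact (hAB k).2.1
    have hl0 : 0 < 1 + Real.log x := by linarith
    have h3 : (1 / (1 + Real.log x)) ^ S.card ≤
        (∏ j ∈ S, δ.A x j ^ 2 / HH (δ.P x) y) * ∏ i ∈ univ \ S, δ.B x i := by
      calc _ = (1 / (1 + Real.log x)) ^ S.card * 1 := by ring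
        _ ≤ _ := by
          apply mul_le_mul h1 h2 zero_le_one
          apply Finset.prod_nonneg
          intro j _
          exact div_nonneg (sq_nonneg _) hH0.le
    have h4 : x ^ (1 / 10 : ℝ) * (4 * δ.W * (1 + Real.log x) ^ S.card) ≤ x := by
      calc x ^ (1 / 10 : ℝ) * (4 * δ.W * (1 + Real.log x) ^ S.card) ≤
            x ^ (1 / 10 : ℝ) * x ^ (9 / 10 : ℝ) := by
            apply mul_le_mul_of_nonneg_left hpl2
            positivity
        _ = x := by
            rw [← Real.rpow_add hx0]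
            norm_num
    calc x ^ (1 / 10 : ℝ) ≤ (x / 8) / δ.W * (2 * (1 / (1 + Real.log x)) ^ S.card) := by
          have h5 : (x / 8) / δ.W * (2 * (1 / (1 + Real.log x)) ^ S.card) =
              x / (4 * δ.W * (1 + Real.log x) ^ S.card) := by
            rw [div_pow, one_pow]
            field_simp
            ring
          rw [h5, le_div_iff₀ (by positivity)]
          exact h4
      _ ≤ XX x / δ.W * (2 * ((∏ j ∈ S, δ.A x j ^ 2 / HH (δ.P x) y) *
            ∏ i ∈ univ \ S, δ.B x i)) := by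
          apply mul_le_mul
          · exact div_le_div_of_nonneg_right hXX8 hW0.le
          · linarith
          · apply mul_nonneg (by norm_num)
            apply pow_nonneg
            exact div_nonneg zero_le_one hl0.le
          · exact div_nonneg hXX0 hW0.le
  -- the conclusion
  have hBB : (∏ i, δ.B x i) = (∏ j ∈ S, δ.B x j) * ∏ i ∈ univ \ S, δ.B x i := by
    rw [mul_comm, Finset.prod_sdiff (Finset.subset_univ S)]
  have hAj : ∀ j, δ.A x j ^ 2 / HH (δ.P x) y ≤
      ((S.card : ℝ) * (δ.tau j * (δ.l j + 2) ^ 2)) * δ.B x j := by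
    intro j
    rw [div_le_iff₀ hH0]
    have h1 := (hAB j).2.2.2.2
    have hlR : 0 < Real.log (Dat.R x) := Real.log_pos hR1
    have ht := δ.tau_pos j
    have h2 : (27 / 100) * (δ.l j + 2) ^ 2 * (δ.V * δ.tau j * Real.log (Dat.R x)) * δ.B x j ≤
        ((S.card : ℝ) * (δ.tau j * (δ.l j + 2) ^ 2)) * δ.B x j *
          ((9 / 10) * δ.V * Real.log (Dat.R x) / S.card) := by
      have h3 : ((S.card : ℝ) * (δ.tau j * (δ.l j + 2) ^ 2)) * δ.B x j *
          ((9 / 10) * δ.V * Real.log (Dat.R x) / S.card) =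
          (9 / 10) * ((δ.l j + 2) ^ 2 * (δ.V * δ.tau j * Real.log (Dat.R x)) * δ.B x j) := by
        field_simp
      rw [h3]
      have h4 : 0 ≤ (δ.l j + 2 : ℝ) ^ 2 * (δ.V * δ.tau j * Real.log (Dat.R x)) * δ.B x j := by
        have := hB0 j
        positivity
      nlinarith
    refine h1.trans (h2.trans ?_)
    apply mul_le_mul_of_nonneg_left hH3
    have := hB0 j
    positivity
  have hfin : XX x / δ.W * ((∏ j ∈ S, δ.A x j ^ 2 / HH (δ.P x) y) * ∏ i ∈ univ \ S, δ.B x i) ≤
      (∏ j ∈ S, ((S.card : ℝ) * (δ.tau j * (δ.l j + 2) ^ 2))) * (8 * δ.S1 x) := by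
    have h1 : (∏ j ∈ S, δ.A x j ^ 2 / HH (δ.P x) y) ≤
        (∏ j ∈ S, ((S.card : ℝ) * (δ.tau j * (δ.l j + 2) ^ 2))) * ∏ j ∈ S, δ.B x j := by
      rw [← Finset.prod_mul_distrib]
      apply Finset.prod_le_prod
      · intro j _
        exact div_nonneg (sq_nonneg _) hH0.le
      · intro j _
        exact hAj j
    have hBS : 0 ≤ ∏ i ∈ univ \ S, δ.B x i := Finset.prod_nonneg fun j _ => (hB0 j).le
    have hT0 : 0 ≤ ∏ j ∈ S, ((S.card : ℝ) * (δ.tau j * (δ.l j + 2) ^ 2)) := by
      apply Finset.prod_nonneg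
      intro j _
      have := δ.tau_pos j
      positivity
    calc XX x / δ.W * ((∏ j ∈ S, δ.A x j ^ 2 / HH (δ.P x) y) * ∏ i ∈ univ \ S, δ.B x i) ≤
          XX x / δ.W * (((∏ j ∈ S, ((S.card : ℝ) * (δ.tau j * (δ.l j + 2) ^ 2))) *
            ∏ j ∈ S, δ.B x j) * ∏ i ∈ univ \ S, δ.B x i) := by
          apply mul_le_mul_of_nonneg_left _ (div_nonneg hXX0 hW0.le)
          exact mul_le_mul_of_nonneg_right h1 hBS
      _ = (∏ j ∈ S, ((S.card : ℝ) * (δ.tau j * (δ.l j + 2) ^ 2))) *
            (XX x / δ.W * ∏ i, δ.B x i) := by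
          rw [hBB]; ring
      _ ≤ _ := by
          apply mul_le_mul_of_nonneg_left _ hT0
          have := hS1.1
          linarith
  calc _ ≤ _ := hmass2
    _ ≤ 4 * (XX x / δ.W * ((∏ j ∈ S, δ.A x j ^ 2 / HH (δ.P x) y) *
          ∏ i ∈ univ \ S, δ.B x i)) := by linarith
    _ ≤ 4 * ((∏ j ∈ S, ((S.card : ℝ) * (δ.tau j * (δ.l j + 2) ^ 2))) * (8 * δ.S1 x)) := by
        linarith
    _ = _ := by ring

end Pool.Agent.H21.MT
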