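import Pool.Agent.H21.MT.Psi
import Pool.Agent.H21.MT.Phi

/-!
[H21 MT COND]  From all characters to primitive characters.

Proof.  Let `L = log x`, `Q = ⌊x^(1/20)⌋₊`.
(1) If `χ ≠ 1` mod `q` (`q ≤ Q`) is induced by the primitive `χ'` mod `r` (`r = conductor > 1`,
    `r ∣ q`), then `χ n = χ' n` for `n` coprime to `q` and `χ n = 0` otherwise, so
    `|Psi χ - Psi χ'| ≤ ∑_{n ≤ x^3, gcd(n,q) > 1} Λ(n) (log n)^J gw ≤ (3L)^J ∑_{p | q} ∑_{p^i ≤ x^3}
    log p ≤ (3L)^J * (2 log q) * 3L ≤ 3^{J+2} L^{J+2}` (number of prime factors `≤ log q/log 2`).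
(2) Sum over `χ ≠ 1` mod `q`: `≤ ∑_{r | q, r > 1} ∑_{χ' primitive mod r} ‖Psi χ'‖ + φ(q) 3^{J+2} L^{J+2}`
    (`χ ↦ (conductor, primitiveCharacter)` is injective).
(3) `∑_{q ≤ Q} (1/φ(q)) ...`: exchange: `q = r s`, `φ(rs) ≥ φ(r) φ(s)`
    (`Nat.totient_super_multiplicative`), `∑_{s ≤ Q} 1/φ(s) ≤ (1 + 2 log Q)^2 ≤ L^2`
    (`sum_inv_phi`; `log Q ≤ L/20`).  The rest is `≤ Q 3^{J+2} L^{J+2} ≤ x^(1/2)` for large `x`.
-/

namespace Pool.Agent.H21.MT

open Finset Filter

open Classical in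
/-- the average over the nonprincipal characters mod `q` -/
noncomputable def Eq1 (J : ℕ) (x : ℝ) (q : ℕ) : ℝ :=
  if hq : q = 0 then 0 else
    haveI : NeZero q := ⟨hq⟩
    (1 / (q.totient : ℝ)) * ∑ χ ∈ (univ : Finset (DirichletCharacter ℂ q)).filter (fun χ => χ ≠ 1),
      ‖Psi J x χ‖

theorem wt_nonneg_cond (J : ℕ) (x : ℝ) (n : ℕ) : 0 ≤ wt J x n := by
  unfold wt
  have h1 : 0 ≤ ArithmeticFunction.vonMangoldt n := ArithmeticFunction.vonMangoldt_nonneg
  have h2 : 0 ≤ Real.log (n : ℝ) := Real.log_natCast_nonneg n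
  have h3 := (gw_pos x n).le
  positivity

/-- pointwise bound -/
theorem wt_le_cond (J : ℕ) (x : ℝ) (hx : 1 ≤ x) (n : ℕ) (hn : n ∈ Icc 1 ⌊x ^ 3⌋₊) :
    wt J x n ≤ (3 * Real.log x) ^ (J + 1) := by
  unfold wt
  rw [mem_Icc] at hn
  have h3 : 0 ≤ x ^ 3 := by positivity
  have hn3 : (n : ℝ) ≤ x ^ 3 := (Nat.le_floor_iff h3).1 hn.2
  have hn1 : (1 : ℝ) ≤ n := by exact_mod_cast hn.1
  have hlog : Real.log n ≤ 3 * Real.log x := by
    have := Real.log_le_log (by linarith) hn3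
    rw [Real.log_pow] at this
    push_cast at this
    exact this
  have hlog0 : 0 ≤ Real.log (n : ℝ) := Real.log_natCast_nonneg n
  have hv : ArithmeticFunction.vonMangoldt n ≤ 3 * Real.log x :=
    (ArithmeticFunction.vonMangoldt_le_log).trans hlog
  have h1 : 0 ≤ ArithmeticFunction.vonMangoldt n := ArithmeticFunction.vonMangoldt_nonneg
  have hg := gw_le_one x n
  have hg0 := (gw_pos x n).le
  have hp : (Real.log n) ^ J ≤ (3 * Real.log x) ^ J := pow_le_pow_left₀ hlog0 hlog J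
  calc ArithmeticFunction.vonMangoldt n * (Real.log n) ^ J * gw x n
      ≤ ArithmeticFunction.vonMangoldt n * (Real.log n) ^ J * 1 := by gcongr
    _ ≤ (3 * Real.log x) * (3 * Real.log x) ^ J := by
        rw [mul_one]
        exact mul_le_mul hv hp (by positivity) (by linarith)
    _ = _ := by rw [pow_succ]; ring

/-- The prime powers which are not coprime to `q` -/
theorem card_bad (q Y : ℕ) (hq : 0 < q) :
    ((Icc 1 Y).filter (fun n => ¬ n.Coprime q ∧ IsPrimePow n)).card ≤ q * (Nat.log 2 Y + 1) := by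
  classical
  have hsub : (Icc 1 Y).filter (fun n => ¬ n.Coprime q ∧ IsPrimePow n) ⊆
      (q.primeFactors ×ˢ range (Nat.log 2 Y + 1)).image (fun pi => pi.1 ^ pi.2) := by
    intro n hn
    rw [mem_filter, mem_Icc] at hn
    obtain ⟨⟨h1, h2⟩, h3, h4⟩ := hn
    rw [isPrimePow_nat_iff] at h4
    obtain ⟨p, k, hp, hk, rfl⟩ := h4
    rw [mem_image]
    refine ⟨(p, k), ?_, rfl⟩
    rw [mem_product, Nat.mem_primeFactors, mem_range]
    refine ⟨⟨hp, ?_, hq.ne'⟩, ?_⟩
    · by_contra hnd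
      exact h3 (((Nat.Prime.coprime_iff_not_dvd hp).2 hnd).pow_left k)
    · have h5 : 2 ^ k ≤ Y := (Nat.pow_le_pow_left hp.two_le k).trans h2
      have := Nat.le_log_of_pow_le (by norm_num) h5
      show k < Nat.log 2 Y + 1
      omega
  refine (card_le_card hsub).trans (card_image_le.trans ?_)
  rw [card_product, card_range]
  refine Nat.mul_le_mul_right _ ?_
  have : q.primeFactors ⊆ Icc 1 q := by
    intro p hp
    rw [Nat.mem_primeFactors] at hp
    rw [mem_Icc]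
    exact ⟨hp.1.one_le, Nat.le_of_dvd hq hp.2.1⟩
  simpa using card_le_card this

/-- the error in passing to a primitive character -/
theorem psi_change (J : ℕ) (x : ℝ) (hx : 1 ≤ x) {r q : ℕ} [NeZero q] (h : r ∣ q)
    (χ : DirichletCharacter ℂ r) :
    ‖Psi J x (DirichletCharacter.changeLevel h χ)‖ ≤ ‖Psi J x χ‖ +
      (q : ℝ) * (6 * Real.log x + 1) * (3 * Real.log x) ^ (J + 1) := by
  classical
  have hq : 0 < q := Nat.pos_of_ne_zero (NeZero.ne q)
  set Y := ⌊x ^ 3⌋₊ with hY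
  have key : Psi J x (DirichletCharacter.changeLevel h χ) = Psi J x χ -
      ∑ n ∈ (Icc 1 Y).filter (fun n => ¬ n.Coprime q ∧ IsPrimePow n),
        ((wt J x n : ℝ) : ℂ) * χ (n : ZMod r) := by
    unfold Psi
    rw [sum_filter, ← sum_sub_distrib]
    refine sum_congr rfl fun n _ => ?_
    by_cases hc : n.Coprime q
    · rw [if_neg (by tauto), sub_zero]
      have h1 := DirichletCharacter.changeLevel_eq_cast_of_dvd χ h (ZMod.unitOfCoprime n hc)
      rw [ZMod.coe_unitOfCoprime, ZMod.cast_natCast h] at h1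
      rw [h1]
    · have hz : (DirichletCharacter.changeLevel h χ) (n : ZMod q) = 0 := by
        apply MulChar.map_nonunit
        rw [ZMod.isUnit_iff_coprime]
        exact hc
      rw [hz, mul_zero]
      by_cases hp : IsPrimePow n
      · rw [if_pos ⟨hc, hp⟩, sub_self]
      · rw [if_neg (by tauto), sub_zero]
        have : wt J x n = 0 := by
          unfold wt
          rw [ArithmeticFunction.vonMangoldt_eq_zero_iff.2 hp]
          ring
        rw [this]
        simp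
  rw [key]
  refine (norm_sub_le _ _).trans ?_
  gcongr
  refine (norm_sum_le _ _).trans ?_
  have hB : ∀ n ∈ (Icc 1 Y).filter (fun n => ¬ n.Coprime q ∧ IsPrimePow n),
      ‖((wt J x n : ℝ) : ℂ) * χ (n : ZMod r)‖ ≤ (3 * Real.log x) ^ (J + 1) := by
    intro n hn
    rw [norm_mul, Complex.norm_real, Real.norm_of_nonneg (wt_nonneg_cond J x n)]
    have h1 := wt_le_cond J x hx n (mem_of_mem_filter n hn)
    have h2 : ‖χ (n : ZMod r)‖ ≤ 1 := DirichletCharacter.norm_le_one χ _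
    calc wt J x n * ‖χ (n : ZMod r)‖ ≤ (3 * Real.log x) ^ (J + 1) * 1 :=
          mul_le_mul h1 h2 (norm_nonneg _) ((wt_nonneg_cond J x n).trans h1)
      _ = _ := mul_one _
  refine (sum_le_card_nsmul _ _ _ hB).trans ?_
  rw [nsmul_eq_mul]
  have hL : 0 ≤ Real.log x := Real.log_nonneg hx
  have hcard : (((Icc 1 Y).filter (fun n => ¬ n.Coprime q ∧ IsPrimePow n)).card : ℝ) ≤
      (q : ℝ) * (6 * Real.log x + 1) := by
    have h1 : (((Icc 1 Y).filter (fun n => ¬ n.Coprime q ∧ IsPrimePow n)).card : ℝ) ≤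
        (q : ℝ) * ((Nat.log 2 Y : ℕ) + 1 : ℝ) := by
      exact_mod_cast card_bad q Y hq
    refine h1.trans ?_
    gcongr
    have hY1 : 1 ≤ Y := by
      rw [hY]
      apply Nat.le_floor
      push_cast
      exact one_le_pow₀ hx
    have h2 : ((Nat.log 2 Y : ℕ) : ℝ) ≤ Real.logb 2 Y := by
      have := Real.natLog_le_logb Y 2
      simpa using this
    refine h2.trans ?_
    have hYx : (Y : ℝ) ≤ x ^ 3 := Nat.floor_le (by positivity)
    have h3 : Real.log Y ≤ 3 * Real.log x := by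
      have := Real.log_le_log (by exact_mod_cast hY1) hYx
      rw [Real.log_pow] at this
      push_cast at this
      exact this
    rw [Real.logb, div_le_iff₀ (Real.log_pos (by norm_num))]
    have h4 := Real.log_two_gt_d9
    nlinarith
  gcongr

/-- the nonprincipal characters mod `q` come from the primitive ones -/
theorem sum_char_le (Q q : ℕ) [NeZero q] (hqQ : q ≤ Q) (J : ℕ) (x : ℝ) (hx : 1 ≤ x)
    (S : Finset (DirichletCharacter ℂ q)) (hS : ∀ χ ∈ S, χ ≠ 1) :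
    ∑ χ ∈ S, ‖Psi J x χ‖ ≤
      ∑ c ∈ (PC Q).filter (fun c => c.md ∣ q), (‖Psi J x c.2‖ +
        (q : ℝ) * (6 * Real.log x + 1) * (3 * Real.log x) ^ (J + 1)) := by
  classical
  have hq : 0 < q := Nat.pos_of_ne_zero (NeZero.ne q)
  let f : Ch Q → DirichletCharacter ℂ q := fun c =>
    if h : c.md ∣ q then DirichletCharacter.changeLevel h c.2 else 1
  have hsub : S ⊆ ((PC Q).filter (fun c => c.md ∣ q)).image f := by
    intro χ hχ
    rw [mem_image]
    have key : ∀ r (hr : r ∣ q) (χ' : DirichletCharacter ℂ r), χ'.IsPrimitive → 2 ≤ r →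
        DirichletCharacter.changeLevel hr χ' = χ →
        ∃ c ∈ (PC Q).filter (fun c => c.md ∣ q), f c = χ := by
      intro r hr χ' hp h2 hch
      obtain ⟨m, rfl⟩ : ∃ m, r = m + 1 := ⟨r - 1, by omega⟩
      have hmQ : m < Q := by
        have := Nat.le_of_dvd hq hr
        omega
      refine ⟨⟨⟨m, hmQ⟩, χ'⟩, ?_, ?_⟩
      · rw [mem_filter, PC, mem_filter]
        exact ⟨⟨mem_univ _, hp, h2⟩, hr⟩
      · show (if h : (Ch.md (⟨⟨m, hmQ⟩, χ'⟩ : Ch Q)) ∣ q then
          DirichletCharacter.changeLevel h χ' else 1) = χ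
        rw [dif_pos (show (Ch.md (⟨⟨m, hmQ⟩, χ'⟩ : Ch Q)) ∣ q from hr)]
        exact hch
    refine key χ.conductor χ.conductor_dvd_level χ.primitiveCharacter
      χ.primitiveCharacter_isPrimitive ?_ χ.changeLevel_primitiveCharacter
    have h0 : χ.conductor ≠ 0 := χ.conductor_ne_zero
    have h1 : χ.conductor ≠ 1 := fun h => hS χ hχ ((χ.eq_one_iff_conductor_eq_one).2 h)
    omega
  calc ∑ χ ∈ S, ‖Psi J x χ‖
      ≤ ∑ χ ∈ ((PC Q).filter (fun c => c.md ∣ q)).image f, ‖Psi J x χ‖ :=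
        sum_le_sum_of_subset_of_nonneg hsub fun _ _ _ => norm_nonneg _
    _ ≤ ∑ c ∈ (PC Q).filter (fun c => c.md ∣ q), ‖Psi J x (f c)‖ :=
        sum_image_le_of_nonneg fun _ _ => norm_nonneg _
    _ ≤ _ := by
        refine sum_le_sum fun c hc => ?_
        have h := (mem_filter.1 hc).2
        have : f c = DirichletCharacter.changeLevel h c.2 := dif_pos h
        rw [this]
        exact psi_change J x hx h c.2

/-- sum over the multiples of `r` -/
theorem sum_mult_le (Q r : ℕ) (hr : 0 < r) :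
    ∑ q ∈ (Icc 1 Q).filter (fun q => r ∣ q), (1 : ℝ) / q.totient ≤
      (1 / (r.totient : ℝ)) * ∑ s ∈ Icc 1 Q, (1 : ℝ) / s.totient := by
  classical
  have hsub : (Icc 1 Q).filter (fun q => r ∣ q) ⊆ (Icc 1 Q).image (fun s => r * s) := by
    intro q hq
    rw [mem_filter, mem_Icc] at hq
    obtain ⟨⟨h1, h2⟩, s, rfl⟩ := hq
    rw [mem_image]
    refine ⟨s, ?_, rfl⟩
    rw [mem_Icc]
    refine ⟨Nat.pos_of_ne_zero ?_, ?_⟩
    · rintro rfl
      simp at h1
    · exact (Nat.le_mul_of_pos_left s hr).trans h2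
  calc ∑ q ∈ (Icc 1 Q).filter (fun q => r ∣ q), (1 : ℝ) / q.totient
      ≤ ∑ q ∈ (Icc 1 Q).image (fun s => r * s), (1 : ℝ) / q.totient :=
        sum_le_sum_of_subset_of_nonneg hsub fun _ _ _ => by positivity
    _ ≤ ∑ s ∈ Icc 1 Q, (1 : ℝ) / (r * s).totient :=
        sum_image_le_of_nonneg fun _ _ => by positivity
    _ ≤ _ := by
        rw [mul_sum]
        refine sum_le_sum fun s hs => ?_
        rw [mem_Icc] at hs
        have h1 : r.totient * s.totient ≤ (r * s).totient := Nat.totient_super_multiplicative r s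
        have h2 : 0 < r.totient := Nat.totient_pos.2 hr
        have h3 : 0 < s.totient := Nat.totient_pos.2 hs.1
        rw [one_div_mul_one_div]
        have h1' : (r.totient : ℝ) * s.totient ≤ (r * s).totient := by exact_mod_cast h1
        have h2' : (0 : ℝ) < r.totient := by exact_mod_cast h2
        have h3' : (0 : ℝ) < s.totient := by exact_mod_cast h3
        exact one_div_le_one_div_of_le (by positivity) h1'

/-- the exchange of summation -/
theorem cond_fin (J Q : ℕ) (x : ℝ) (hx : 1 ≤ x) :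
    ∑ q ∈ Icc 1 Q, Eq1 J x q ≤
      (∑ s ∈ Icc 1 Q, (1 : ℝ) / s.totient) *
        ∑ c ∈ PC Q, (1 / (c.md.totient : ℝ)) * ‖Psi J x c.2‖ +
      (Q : ℝ) ^ 4 * ((6 * Real.log x + 1) * (3 * Real.log x) ^ (J + 1)) := by
  classical
  have hL : 0 ≤ Real.log x := Real.log_nonneg hx
  set E : ℝ := (6 * Real.log x + 1) * (3 * Real.log x) ^ (J + 1) with hE
  have hE0 : 0 ≤ E := by positivity
  have h1 : ∀ q ∈ Icc 1 Q, Eq1 J x q ≤
      ∑ c ∈ PC Q, (if c.md ∣ q then (1 / (q.totient : ℝ)) * ‖Psi J x c.2‖ else 0) +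
        (Q : ℝ) ^ 3 * E := by
    intro q hq
    rw [mem_Icc] at hq
    have hq0 : q ≠ 0 := by omega
    have : NeZero q := ⟨hq0⟩
    have hS := sum_char_le Q q hq.2 J x hx
      ((univ : Finset (DirichletCharacter ℂ q)).filter (fun χ => χ ≠ 1))
      (fun χ hχ => (mem_filter.1 hχ).2)
    have hEq : Eq1 J x q = (1 / (q.totient : ℝ)) *
        ∑ χ ∈ (univ : Finset (DirichletCharacter ℂ q)).filter (fun χ => χ ≠ 1), ‖Psi J x χ‖ := by
      unfold Eq1
      rw [dif_neg hq0]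
    have hphi : 0 < q.totient := Nat.totient_pos.2 hq.1
    have hphi1 : (1 : ℝ) ≤ q.totient := by exact_mod_cast hphi
    rw [hEq]
    have h2 : (1 / (q.totient : ℝ)) *
        ∑ χ ∈ (univ : Finset (DirichletCharacter ℂ q)).filter (fun χ => χ ≠ 1), ‖Psi J x χ‖ ≤
        (1 / (q.totient : ℝ)) * ∑ c ∈ (PC Q).filter (fun c => c.md ∣ q), (‖Psi J x c.2‖ +
        (q : ℝ) * (6 * Real.log x + 1) * (3 * Real.log x) ^ (J + 1)) :=
      mul_le_mul_of_nonneg_left hS (by positivity)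
    refine h2.trans ?_
    rw [sum_add_distrib, mul_add, sum_filter, mul_sum]
    have h3 : ∀ c ∈ PC Q, (1 / (q.totient : ℝ)) * (if c.md ∣ q then ‖Psi J x c.2‖ else 0) =
        if c.md ∣ q then (1 / (q.totient : ℝ)) * ‖Psi J x c.2‖ else 0 := by
      intro c _
      split_ifs <;> simp
    rw [sum_congr rfl h3]
    apply add_le_add le_rfl
    rw [sum_const, nsmul_eq_mul]
    have hc : (((PC Q).filter (fun c => c.md ∣ q)).card : ℝ) ≤ (Q : ℝ) ^ 2 := by
      refine le_trans ?_ (card_PC Q)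
      exact_mod_cast card_filter_le _ _
    have hqQ : (q : ℝ) ≤ Q := by exact_mod_cast hq.2
    have h4 : (1 : ℝ) / q.totient ≤ 1 := by
      rw [div_le_one (by linarith)]
      exact hphi1
    calc (1 / (q.totient : ℝ)) * ((((PC Q).filter (fun c => c.md ∣ q)).card : ℝ) *
          ((q : ℝ) * (6 * Real.log x + 1) * (3 * Real.log x) ^ (J + 1)))
        ≤ 1 * ((Q : ℝ) ^ 2 * ((Q : ℝ) * E)) := by
          have h5 : (q : ℝ) * (6 * Real.log x + 1) * (3 * Real.log x) ^ (J + 1) = q * E := by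
            rw [hE]; ring
          rw [h5]
          gcongr
      _ = (Q : ℝ) ^ 3 * E := by ring
  refine (sum_le_sum h1).trans ?_
  rw [sum_add_distrib, sum_const, nsmul_eq_mul, Nat.card_Icc, Nat.add_sub_cancel, sum_comm]
  have h5 : (Q : ℝ) * ((Q : ℝ) ^ 3 * E) = (Q : ℝ) ^ 4 * E := by ring
  rw [h5]
  gcongr
  rw [mul_sum]
  refine sum_le_sum fun c hc => ?_
  have hmd : 0 < c.md := Nat.succ_pos _
  have h6 := sum_mult_le Q c.md hmd
  rw [← sum_filter, ← sum_mul]
  calc (∑ i ∈ (Icc 1 Q).filter (fun q => c.md ∣ q), (1 : ℝ) / (i.totient : ℝ)) * ‖Psi J x c.2‖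
      ≤ ((1 / (c.md.totient : ℝ)) * ∑ s ∈ Icc 1 Q, (1 : ℝ) / s.totient) * ‖Psi J x c.2‖ := by
        gcongr
    _ = _ := by ring

theorem cond (J : ℕ) : ∀ᶠ x : ℝ in atTop,
    ∑ q ∈ Icc 1 ⌊x ^ (1 / 20 : ℝ)⌋₊, Eq1 J x q ≤
      (Real.log x) ^ 2 * ∑ c ∈ PC ⌊x ^ (1 / 20 : ℝ)⌋₊, (1 / (c.md.totient : ℝ)) * ‖Psi J x c.2‖ +
        x ^ (1 / 2 : ℝ) := by
  have hlo := isLittleO_log_rpow_rpow_atTop (s := (3 / 10 : ℝ)) ((J + 2 : ℕ) : ℝ) (by norm_num)
  have hb := hlo.bound (c := 1 / (7 * 3 ^ (J + 1))) (by positivity)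
  filter_upwards [hb, eventually_ge_atTop (Real.exp 2), eventually_ge_atTop (1 : ℝ)] with x h1 h2 hx
  have hL2 : 2 ≤ Real.log x := by
    rw [Real.le_log_iff_exp_le (by linarith)]
    exact h2
  set Q := ⌊x ^ (1 / 20 : ℝ)⌋₊ with hQ
  have hx0 : 0 < x := by linarith
  have hQx : (Q : ℝ) ≤ x ^ (1 / 20 : ℝ) := Nat.floor_le (by positivity)
  have hQ1 : 1 ≤ Q := by
    apply Nat.le_floor
    push_cast
    exact Real.one_le_rpow hx (by norm_num)
  have hlogQ : Real.log Q ≤ Real.log x / 20 := by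
    have := Real.log_le_log (by exact_mod_cast hQ1) hQx
    rw [Real.log_rpow hx0] at this
    linarith
  have hlogQ0 : 0 ≤ Real.log (Q : ℝ) := Real.log_natCast_nonneg Q
  refine (cond_fin J Q x hx).trans ?_
  have hS := sum_inv_phi Q hQ1
  have hS2 : (1 + 2 * Real.log Q) ^ 2 ≤ (Real.log x) ^ 2 := by
    apply pow_le_pow_left₀ (by linarith)
    linarith
  have hPsi : 0 ≤ ∑ c ∈ PC Q, (1 / (c.md.totient : ℝ)) * ‖Psi J x c.2‖ :=
    sum_nonneg fun _ _ => by positivity
  gcongr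
  · exact hS.trans hS2
  · have hQ4 : (Q : ℝ) ^ 4 ≤ x ^ (1 / 5 : ℝ) := by
      calc (Q : ℝ) ^ 4 ≤ (x ^ (1 / 20 : ℝ)) ^ 4 := by gcongr
        _ = x ^ (1 / 5 : ℝ) := by
          rw [← Real.rpow_natCast, ← Real.rpow_mul hx0.le]
          norm_num
    rw [Real.norm_of_nonneg (by positivity), Real.norm_of_nonneg (by positivity),
      Real.rpow_natCast] at h1
    have h3 : (6 * Real.log x + 1) * (3 * Real.log x) ^ (J + 1) ≤ x ^ (3 / 10 : ℝ) := by
      calc (6 * Real.log x + 1) * (3 * Real.log x) ^ (J + 1)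
          ≤ (7 * Real.log x) * (3 * Real.log x) ^ (J + 1) := by
            gcongr
            linarith
        _ = (7 * 3 ^ (J + 1)) * (Real.log x) ^ (J + 2) := by
            rw [mul_pow, pow_succ (Real.log x) (J + 1)]
            ring
        _ ≤ (7 * 3 ^ (J + 1)) * (1 / (7 * 3 ^ (J + 1)) * x ^ (3 / 10 : ℝ)) := by gcongr
        _ = x ^ (3 / 10 : ℝ) := by
            field_simp
    calc (Q : ℝ) ^ 4 * ((6 * Real.log x + 1) * (3 * Real.log x) ^ (J + 1))
        ≤ x ^ (1 / 5 : ℝ) * x ^ (3 / 10 : ℝ) := by gcongr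
      _ = x ^ (1 / 2 : ℝ) := by
        rw [← Real.rpow_add hx0]
        norm_num

end Pool.Agent.H21.MT
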