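import Pool.Agent.H21.MT.Sieve
import Pool.Agent.H21.MT.Pz
import Pool.Agent.H21.MT.Lim

/-!
[H21 MT CORE1]  Blocks of shifts: the core of the theorem on infinite sets.

Proof.  Put `β j = (1/20) 2^{-j}`, `τ j = β j/(2^{ℓ j} (ℓ j + 1))`, `θ j = τ j (ℓ j + 2)^2`,
`Y j = 2^{ℓ j} θ j = β j (ℓ j + 2)^2/(ℓ j + 1) ≥ β j (ℓ j + 1) ≥ 1` by `hℓ`.
For `n` apply `sieve` with `I = Σ j : Fin (n+1), {h // h ∈ H j}`, `h (j,a) = a` (injective as the
blocks are disjoint; `I` is nonempty), `tau (j,a) = τ j`, `l (j,a) = ℓ j`: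
`2^ℓ τ = β/(ℓ+1) ≤ 1/2`, `∑ (l+1) tau = ∑_j 2^{ℓ j} (ℓ j+1) τ j = ∑ β j ≤ 1/10`; `N0 = n`.
Get `T n`, `μ n`.  For `j ≤ n`, `pz` with `S` = the block `j`, `ev i N = (N + h i).Prime`,
`θ = θ j` (`S = {i,i'}` in `sieve`: `32 (2θ)(2θ) = 128 θ^2`): so
`E j := {N | (1/10^10)/2 * Y j ≤ #{a ∈ H j | (N + a).Prime}}` has `μ n`-mass `≥ 10^{-23}`.
`lim_ultra` gives `V`.  Put `B = {a | (∃ j, a ∈ H j) ∧ {N | (N + a).Prime} ∈ V}`.
For a finite `F ⊆ B`: `{N | ∀ a ∈ F, (N + a).Prime} ∈ V`, so infinite (`V ≤ cofinite`).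
If `E j ∈ V`: for each `a ∈ H j` either `{N | (N+a).Prime}` or its complement is in `V`; intersect
these finitely many sets with `E j`: some `N` in the intersection has
`{a ∈ H j | (N+a).Prime} = {a ∈ H j | a ∈ B}`, so `#{a ∈ H j | a ∈ B} ≥ (1/10^10)/2 * Y j ≥
(1/10^12) ℓ j/2^j`.
-/

namespace Pool.Agent.H21.MT

open Finset Filter

/-- weight of a block -/
private noncomputable def c1be (j : ℕ) : ℝ := (1 / 20) * (1 / 2) ^ j

private noncomputable def c1ta (l : ℕ → ℕ) (j : ℕ) : ℝ := c1be j / (2 ^ l j * ((l j : ℝ) + 1))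

private theorem c1be_pos (j : ℕ) : 0 < c1be j := by
  unfold c1be
  positivity

private theorem c1be_le (j : ℕ) : c1be j ≤ 1 / 20 := by
  unfold c1be
  have : (1 / 2 : ℝ) ^ j ≤ 1 := pow_le_one₀ (by norm_num) (by norm_num)
  linarith

private theorem c1ta_pos (l : ℕ → ℕ) (j : ℕ) : 0 < c1ta l j := by
  unfold c1ta
  have := c1be_pos j
  positivity

private theorem c1ta_mul (l : ℕ → ℕ) (j : ℕ) :
    (2 : ℝ) ^ l j * c1ta l j * ((l j : ℝ) + 1) = c1be j := by
  unfold c1ta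
  field_simp

private theorem c1sum (m : ℕ) : ∑ j ∈ range m, c1be j = 1 / 10 - (1 / 10) * (1 / 2) ^ m := by
  induction m with
  | zero => simp
  | succ m ih =>
    rw [sum_range_succ, ih]
    unfold c1be
    rw [pow_succ]
    ring

private theorem c1Y (l : ℕ → ℕ) (j : ℕ) :
    c1be j * ((l j : ℝ) + 1) ≤ (2 : ℝ) ^ l j * (c1ta l j * ((l j : ℝ) + 2) ^ 2) := by
  have h1 := c1ta_mul l j
  have h2 := c1ta_pos l j
  rw [← h1]
  have h3 : (0 : ℝ) ≤ (2 : ℝ) ^ l j * c1ta l j := by positivity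
  have h4 : ((l j : ℝ) + 1) * ((l j : ℝ) + 1) ≤ ((l j : ℝ) + 2) ^ 2 := by
    have : (0 : ℝ) ≤ l j := Nat.cast_nonneg _
    nlinarith
  calc (2 : ℝ) ^ l j * c1ta l j * ((l j : ℝ) + 1) * ((l j : ℝ) + 1) =
        ((2 : ℝ) ^ l j * c1ta l j) * (((l j : ℝ) + 1) * ((l j : ℝ) + 1)) := by ring
    _ ≤ ((2 : ℝ) ^ l j * c1ta l j) * ((l j : ℝ) + 2) ^ 2 := mul_le_mul_of_nonneg_left h4 h3
    _ = _ := by ring

private theorem c1Y1 (l : ℕ → ℕ) (j : ℕ) (hl : 20 * 2 ^ j ≤ l j) :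
    1 ≤ (2 : ℝ) ^ l j * (c1ta l j * ((l j : ℝ) + 2) ^ 2) := by
  refine le_trans ?_ (c1Y l j)
  have h1 : (20 : ℝ) * 2 ^ j ≤ l j := by exact_mod_cast hl
  have h2 : c1be j * (20 * 2 ^ j) = 1 := by
    unfold c1be
    rw [one_div, one_div, inv_pow]
    field_simp
  have h3 := c1be_pos j
  nlinarith

open Classical in
/-- the sieve and the second moment for the first `n + 1` blocks -/
private theorem c1step (H : ℕ → Finset ℕ) (l : ℕ → ℕ) (hcard : ∀ j, (H j).card = 2 ^ l j)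
    (hdisj : ∀ i j, i ≠ j → Disjoint (H i) (H j)) (hl : ∀ j, 20 * 2 ^ j ≤ l j)
    (hadm : ∀ p : ℕ, p.Prime → ∃ a : ℕ, ∀ j, ∀ h ∈ H j, ¬ p ∣ a + h) (n : ℕ) :
    ∃ (T : Finset ℕ) (μ : ℕ → ℝ), (∀ N ∈ T, n < N) ∧ (∀ N, 0 ≤ μ N) ∧ ∑ N ∈ T, μ N = 1 ∧
      ∀ j ≤ n, (1 / 10 ^ 23 : ℝ) ≤ ∑ N ∈ T.filter (fun N => (1 / 10 ^ 10) / 2 *
        ((2 : ℝ) ^ l j * (c1ta l j * ((l j : ℝ) + 2) ^ 2)) ≤
          (((H j).filter (fun a => (N + a).Prime)).card : ℝ)), μ N := by
  let I : Type := Σ j : Fin (n + 1), {h // h ∈ H j.val}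
  have hne : Nonempty I := by
    have h0 : (H 0).Nonempty := by
      rw [← card_pos, hcard]
      positivity
    obtain ⟨a, ha⟩ := h0
    exact ⟨⟨⟨0, by omega⟩, ⟨a, ha⟩⟩⟩
  let hh : I → ℕ := fun i => i.2.val
  have hinj : Function.Injective hh := by
    rintro ⟨j, a, ha⟩ ⟨j', a', ha'⟩ h
    have h1 : a = a' := h
    subst h1
    have h2 : j = j' := by
      by_contra h3
      have h4 := hdisj j.val j'.val (fun h5 => h3 (Fin.ext h5))
      exact (disjoint_left.1 h4 ha) ha'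
    subst h2
    rfl
  obtain ⟨T, μ, hT, hμ0, hμ1, hlow, hup⟩ := sieve (I := I) hh hinj (by
    intro p hp
    obtain ⟨a, ha⟩ := hadm p hp
    exact ⟨a, fun i => ha i.1.val i.2.val i.2.2⟩) (fun i => c1ta l i.1.val) (fun i => l i.1.val)
    (fun i => c1ta_pos l _) (fun i => by
      have h1 := c1ta_mul l i.1.val
      have h2 := c1be_le i.1.val
      have h3 : (0 : ℝ) ≤ (2 : ℝ) ^ l i.1.val * c1ta l i.1.val := by
        have := c1ta_pos l i.1.val
        positivity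
      have h4 : (0 : ℝ) ≤ l i.1.val := Nat.cast_nonneg _
      have h5 : (0 : ℝ) ≤ (2 : ℝ) ^ l i.1.val * c1ta l i.1.val * (l i.1.val) := mul_nonneg h3 h4
      nlinarith) (by
      rw [Fintype.sum_sigma]
      have h1 : ∀ j : Fin (n + 1), ∑ _a : {h // h ∈ H j.val}, ((l j.val : ℝ) + 1) * c1ta l j.val =
          c1be j.val := by
        intro j
        rw [sum_const, card_univ, Fintype.card_coe, hcard, nsmul_eq_mul]
        push_cast
        rw [← c1ta_mul l j.val]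
        ring
      rw [Finset.sum_congr rfl (fun j _ => h1 j), Fin.sum_univ_eq_sum_range (fun j => c1be j),
        c1sum]
      have : (0 : ℝ) < (1 / 2) ^ (n + 1) := by positivity
      linarith) n
  refine ⟨T, μ, hT, hμ0, hμ1, ?_⟩
  intro j hj
  let e : {h // h ∈ H j} ↪ I := ⟨fun a => ⟨⟨j, by omega⟩, a⟩, by
    intro a b hab
    have h1 : (⟨⟨j, by omega⟩, a⟩ : I) = ⟨⟨j, by omega⟩, b⟩ := hab
    exact eq_of_heq (Sigma.mk.inj_iff.1 h1).2⟩
  set S : Finset I := (univ : Finset {h // h ∈ H j}).map e with hS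
  have hSc : S.card = 2 ^ l j := by
    rw [hS, card_map, card_univ, Fintype.card_coe, hcard]
  have hSm : ∀ i ∈ S, i.1.val = j := by
    intro i hi
    rw [hS, Finset.mem_map] at hi
    obtain ⟨a, _, rfl⟩ := hi
    rfl
  have hcnt : ∀ N : ℕ, (S.filter (fun i => (N + hh i).Prime)).card =
      ((H j).filter (fun a => (N + a).Prime)).card := by
    intro N
    symm
    apply Finset.card_bij (fun a ha => (e ⟨a, (mem_filter.1 ha).1⟩))
    · intro a ha
      rw [mem_filter]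
      refine ⟨?_, (mem_filter.1 ha).2⟩
      rw [hS]
      exact mem_map_of_mem e (mem_univ _)
    · intro a ha b hb hab
      exact congrArg Subtype.val (e.injective hab)
    · intro i hi
      rw [mem_filter, hS, Finset.mem_map] at hi
      obtain ⟨⟨a, _, rfl⟩, hp⟩ := hi
      exact ⟨a.val, mem_filter.2 ⟨a.2, hp⟩, rfl⟩
  have hpz := pz T μ hμ0 hμ1 S (fun i N => (N + hh i).Prime)
    (c1ta l j * ((l j : ℝ) + 2) ^ 2) (by
      have := c1ta_pos l j
      positivity) (by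
      rw [hSc]
      push_cast
      exact c1Y1 l j (hl j)) (by
      intro i hi
      have h1 := hlow i
      rw [hSm i hi] at h1
      exact h1) (by
      intro i hi i' hi' hii
      have h1 := hup {i, i'} (by simp)
      have h2 : ∏ k ∈ ({i, i'} : Finset I), ((({i, i'} : Finset I).card : ℝ) *
          (c1ta l k.1.val * ((l k.1.val : ℝ) + 2) ^ 2)) =
          4 * (c1ta l j * ((l j : ℝ) + 2) ^ 2) ^ 2 := by
        rw [prod_pair hii, card_pair hii, hSm i hi, hSm i' hi']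
        push_cast
        ring
      rw [h2] at h1
      have h3 : T.filter (fun N => ∀ k ∈ ({i, i'} : Finset I), (N + hh k).Prime) =
          T.filter (fun N => (N + hh i).Prime ∧ (N + hh i').Prime) := by
        apply filter_congr
        intro N _
        simp
      rw [h3] at h1
      linarith)
  refine hpz.trans (le_of_eq ?_)
  apply Finset.sum_congr _ (fun _ _ => rfl)
  apply filter_congr
  intro N _
  rw [hSc]
  have h5 := hcnt N
  constructor
  · intro h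
    rw [← h5]
    push_cast at h
    exact h
  · intro h
    rw [← h5] at h
    push_cast
    exact h

open Classical in
theorem core1 (H : ℕ → Finset ℕ) (l : ℕ → ℕ) (hcard : ∀ j, (H j).card = 2 ^ l j)
    (hdisj : ∀ i j, i ≠ j → Disjoint (H i) (H j)) (hl : ∀ j, 20 * 2 ^ j ≤ l j)
    (hadm : ∀ p : ℕ, p.Prime → ∃ a : ℕ, ∀ j, ∀ h ∈ H j, ¬ p ∣ a + h) :
    ∃ B : Set ℕ, (∀ a ∈ B, ∃ j, a ∈ H j) ∧
      (∀ F : Finset ℕ, ↑F ⊆ B → {N : ℕ | ∀ a ∈ F, (N + a).Prime}.Infinite) ∧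
      {j : ℕ | (1 / 10 ^ 12 : ℝ) * (l j / 2 ^ j) ≤ ((H j).filter (fun a => a ∈ B)).card}.Infinite := by
  choose T μ hT hμ0 hμ1 hE using c1step H l hcard hdisj hl hadm
  set E : ℕ → Set ℕ := fun j => {N : ℕ | (1 / 10 ^ 10) / 2 *
        ((2 : ℝ) ^ l j * (c1ta l j * ((l j : ℝ) + 2) ^ 2)) ≤
          (((H j).filter (fun a => (N + a).Prime)).card : ℝ)} with hEdef
  obtain ⟨V, hV, hinf⟩ := lim_ultra T μ hT hμ0 hμ1 E (1 / 10 ^ 23) (by positivity) (by
    intro n j hj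
    exact hE n j hj)
  set B : Set ℕ := {a | (∃ j, a ∈ H j) ∧ {N : ℕ | (N + a).Prime} ∈ V} with hB
  have hVinf : ∀ X : Set ℕ, X ∈ V → X.Infinite := by
    intro X hX hfin
    have h1 : Xᶜ ∈ (V : Filter ℕ) := hV (by
      rw [Filter.mem_cofinite, compl_compl]
      exact hfin)
    exact (Ultrafilter.compl_mem_iff_notMem.1 h1) hX
  refine ⟨B, fun a ha => ha.1, ?_, ?_⟩
  · intro F hF
    apply hVinf
    have h1 : {N : ℕ | ∀ a ∈ F, (N + a).Prime} = ⋂ a ∈ F, {N : ℕ | (N + a).Prime} := by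
      ext N
      simp
    rw [h1]
    exact (Filter.biInter_finset_mem F).2 (fun a ha => (hF ha).2)
  · refine hinf.mono ?_
    intro j hj
    have hj : E j ∈ V := hj
    rw [Set.mem_ofPred_eq]
    set G : ℕ → Set ℕ := fun a => if a ∈ B then {N : ℕ | (N + a).Prime} else
      {N : ℕ | (N + a).Prime}ᶜ with hG
    have hGV : ∀ a ∈ H j, G a ∈ (V : Filter ℕ) := by
      intro a ha
      rw [hG]
      by_cases hab : a ∈ B
      · simp only [if_pos hab]
        exact hab.2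
      · simp only [if_neg hab]
        refine Ultrafilter.compl_mem_iff_notMem.2 (fun h => hab ⟨⟨j, ha⟩, h⟩)
    have hcap : E j ∩ ⋂ a ∈ H j, G a ∈ (V : Filter ℕ) :=
      Filter.inter_mem hj ((Filter.biInter_finset_mem (H j)).2 hGV)
    obtain ⟨N, hN1, hN2⟩ := Filter.nonempty_of_mem hcap
    have hfil : ∀ inst : DecidablePred (fun a => a ∈ B), @Finset.filter ℕ (fun a => a ∈ B) inst
        (H j) = (H j).filter (fun a => (N + a).Prime) := by
      intro inst
      apply filter_congr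
      intro a ha
      rw [Set.mem_iInter₂] at hN2
      have h1 := hN2 a ha
      rw [hG] at h1
      by_cases hab : a ∈ B
      · simp only [if_pos hab] at h1
        exact ⟨fun _ => h1, fun _ => hab⟩
      · simp only [if_neg hab] at h1
        exact ⟨fun h => absurd h hab, fun h => absurd h h1⟩
    rw [hfil]
    have h2 : (1 / 10 ^ 10) / 2 * ((2 : ℝ) ^ l j * (c1ta l j * ((l j : ℝ) + 2) ^ 2)) ≤
          (((H j).filter (fun a => (N + a).Prime)).card : ℝ) := hN1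
    refine le_trans ?_ h2
    have h3 := c1Y l j
    have h4 : c1be j * (l j) = (1 / 20) * (l j / 2 ^ j) := by
      unfold c1be
      rw [one_div, one_div, inv_pow]
      ring
    have h5 := c1be_pos j
    have h6 : (0 : ℝ) ≤ l j / 2 ^ j := by positivity
    have h7 : c1be j * ((l j : ℝ) + 1) = (1 / 20) * (l j / 2 ^ j) + c1be j := by
      rw [← h4]
      ring
    rw [h7] at h3
    have h8 : (1 / 10 ^ 12 : ℝ) * (l j / 2 ^ j) ≤
        (1 / 10 ^ 10) / 2 * ((1 / 20) * (l j / 2 ^ j)) := by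
      have h9 : (1 / 10 ^ 10) / 2 * ((1 / 20) * (l j / 2 ^ j)) =
          (1 / (4 * 10 ^ 11) : ℝ) * (l j / 2 ^ j) := by ring
      rw [h9]
      apply mul_le_mul_of_nonneg_right _ h6
      norm_num
    refine h8.trans ?_
    apply mul_le_mul_of_nonneg_left _ (by norm_num)
    linarith

end Pool.Agent.H21.MT
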