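import Pool.Agent.H21.MT.Dv

/-!
[H21 MT CRTA]  Incompatible pairs, and the products of the local forms.

Proofs.
* `not_dv`: if `d k = some i`, `e k = some j`, `i ≠ j`, then `P k` divides `N + h i` and `N + h j`,
  so `h i - h j`.
* `prod_mloc`, `prod_mloc'`: factor by factor (`φ` is multiplicative over pairwise coprime primes,
  `Nat.totient_prime`; induction over a finite set of indices, or
  `Nat.totient_prod`-like via `Finset.induction_on`); if `¬ compat d e` one factor is `0`.
-/

set_option linter.unusedSectionVars false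

namespace Pool.Agent.H21.MT

open Finset

variable {ι I : Type} [Fintype ι] [DecidableEq ι] [Fintype I] [DecidableEq I]

theorem crta_not_compat (d e : ι → Option I) (hde : ¬ compat d e) :
    ∃ k i j, d k = some i ∧ e k = some j ∧ i ≠ j := by
  unfold compat at hde
  push Not at hde
  obtain ⟨k, i, j, h1, h2, h3⟩ := hde
  exact ⟨k, i, j, h1, h2, h3⟩

theorem not_dv (P : ι → ℕ) (h : I → ℕ)
    (hdiff : ∀ k i j, i ≠ j → ¬ (P k : ℤ) ∣ (h i : ℤ) - h j)
    (d e : ι → Option I) (hde : ¬ compat d e) (N : ℕ) : ¬ (dv P h d N ∧ dv P h e N) := by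
  rintro ⟨hd, he⟩
  obtain ⟨k, i, j, h1, h2, h3⟩ := crta_not_compat d e hde
  have a := hd k i h1
  have b := he k j h2
  apply hdiff k i j h3
  have a' : (P k : ℤ) ∣ (N : ℤ) + h i := by exact_mod_cast a
  have b' : (P k : ℤ) ∣ (N : ℤ) + h j := by exact_mod_cast b
  have := dvd_sub a' b'
  rwa [add_sub_add_left_eq_sub] at this

theorem not_dvm (P : ι → ℕ) (h : I → ℕ)
    (hdiff : ∀ k i j, i ≠ j → ¬ (P k : ℤ) ∣ (h i : ℤ) - h j) (m : I)
    (d e : ι → Option I) (hde : ¬ compat d e) (p : ℕ) : ¬ (dvm P h m d p ∧ dvm P h m e p) := by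
  rintro ⟨hd, he⟩
  obtain ⟨k, i, j, h1, h2, h3⟩ := crta_not_compat d e hde
  have a := hd k i h1
  have b := he k j h2
  apply hdiff k i j h3
  have := dvd_sub a b
  rwa [add_sub_add_left_eq_sub] at this

theorem crta_mloc_zero (f : ι → ℝ) (d e : ι → Option I) (hde : ¬ compat d e) :
    ∏ k, mloc (f k) (d k) (e k) = 0 := by
  obtain ⟨k, i, j, h1, h2, h3⟩ := crta_not_compat d e hde
  refine Finset.prod_eq_zero (Finset.mem_univ k) ?_
  rw [h1, h2]
  exact if_neg h3

theorem crta_mloc_compat (f : ι → ℝ) (d e : ι → Option I) (hde : compat d e) :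
    ∏ k, mloc (f k) (d k) (e k) = ∏ k, if d k = none ∧ e k = none then 1 else f k := by
  refine Finset.prod_congr rfl fun k _ => ?_
  rcases hd : d k with _ | i
  · rcases he : e k with _ | j
    · simp [mloc]
    · simp [mloc]
  · rcases he : e k with _ | j
    · simp [mloc]
    · have : i = j := hde k i j hd he
      simp [mloc, this]

theorem crta_totient (P : ι → ℕ) (hP : ∀ k, (P k).Prime) (hinj : Function.Injective P)
    (c : ι → Prop) [DecidablePred c] (s : Finset ι) :
    (∏ k ∈ s, if c k then 1 else P k).totient = ∏ k ∈ s, if c k then 1 else (P k - 1) := by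
  induction s using Finset.induction_on with
  | empty => simp
  | insert a s ha ih =>
    rw [Finset.prod_insert ha, Finset.prod_insert ha, Nat.totient_mul, ih]
    · congr 1
      split_ifs
      · simp
      · exact Nat.totient_prime (hP a)
    · apply Nat.Coprime.prod_right
      intro k hk
      split_ifs
      · simp
      · simp
      · simp
      · have hne : a ≠ k := fun h => ha (h ▸ hk)
        exact (Nat.coprime_primes (hP a) (hP k)).2 (fun h => hne (hinj h))

theorem prod_mloc (P : ι → ℕ) (hP : ∀ k, (P k).Prime) (d e : ι → Option I) :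
    ∏ k, mloc ((1 : ℝ) / P k) (d k) (e k) = if compat d e then (1 : ℝ) / totJ P d e else 0 := by
  split_ifs with hde
  · rw [crta_mloc_compat (fun k => (1 : ℝ) / P k) d e hde, totJ, Nat.cast_prod, one_div,
      ← Finset.prod_inv_distrib]
    refine Finset.prod_congr rfl fun k _ => ?_
    split_ifs <;> simp
  · exact crta_mloc_zero (fun k => (1 : ℝ) / P k) d e hde

theorem prod_mloc' (P : ι → ℕ) (hP : ∀ k, (P k).Prime) (hinj : Function.Injective P)
    (d e : ι → Option I) :
    ∏ k, mloc ((1 : ℝ) / (P k - 1)) (d k) (e k) =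
      if compat d e then (1 : ℝ) / (totJ P d e).totient else 0 := by
  split_ifs with hde
  · rw [crta_mloc_compat (fun k => (1 : ℝ) / (P k - 1)) d e hde, totJ,
      crta_totient P hP hinj (fun k => d k = none ∧ e k = none), Nat.cast_prod, one_div,
      ← Finset.prod_inv_distrib]
    refine Finset.prod_congr rfl fun k _ => ?_
    have h1 : ((P k - 1 : ℕ) : ℝ) = (P k : ℝ) - 1 := by
      rw [Nat.cast_sub (hP k).one_lt.le, Nat.cast_one]
    split_ifs
    · simp
    · rw [h1, one_div]
  · exact crta_mloc_zero (fun k => (1 : ℝ) / (P k - 1)) d e hde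

end Pool.Agent.H21.MT
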