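import Pool.Agent.H21.MT.Lab

/-!
MP_8923e7_nt, project MT.  Divisibility of `N` by labelled numbers, definitions only.
-/

set_option linter.unusedSectionVars false

namespace Pool.Agent.H21.MT

open Finset

variable {ι I : Type} [Fintype ι] [DecidableEq ι] [Fintype I] [DecidableEq I]

/-- the labelled number `d` divides `N`: `P k ∣ N + h i` whenever `d k = some i` -/
def dv (P : ι → ℕ) (h : I → ℕ) (d : ι → Option I) (N : ℕ) : Prop :=
  ∀ k i, d k = some i → P k ∣ N + h i

instance instDecDv (P : ι → ℕ) (h : I → ℕ) (d : ι → Option I) (N : ℕ) : Decidable (dv P h d N) := by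
  unfold dv; infer_instance

/-- the same with `p = N + h m` as variable -/
def dvm (P : ι → ℕ) (h : I → ℕ) (m : I) (d : ι → Option I) (p : ℕ) : Prop :=
  ∀ k i, d k = some i → (P k : ℤ) ∣ (p : ℤ) - h m + h i

instance instDecDvm (P : ι → ℕ) (h : I → ℕ) (m : I) (d : ι → Option I) (p : ℕ) :
    Decidable (dvm P h m d p) := by
  unfold dvm; infer_instance

/-- the sieve sum -/
noncomputable def sig (P : ι → ℕ) (h : I → ℕ) (lam : (ι → Option I) → ℝ) (N : ℕ) : ℝ :=
  ∑ d ∈ univ.filter (fun d => dv P h d N), lam d

/-- joint product of two labelled numbers -/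
def totJ (P : ι → ℕ) (d e : ι → Option I) : ℕ :=
  ∏ k, if d k = none ∧ e k = none then 1 else P k

/-- `d` and `e` have the same label at common primes -/
def compat (d e : ι → Option I) : Prop := ∀ k i j, d k = some i → e k = some j → i = j

instance instDecCompat (d e : ι → Option I) : Decidable (compat d e) := by
  unfold compat; infer_instance

end Pool.Agent.H21.MT
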