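import Pool.Agent.H21.MT.Lab

/-!
[H21 MT PROF]  The step profile and its three sums.

`prof z l b` is `1` for `b ≤ z`, `2^{-j}` for `z^{2^{j-1}} < b ≤ z^{2^j}` (`1 ≤ j ≤ l`), `0` beyond.

Proofs.  Put `w_j = 2^{-j-1}` (`j < l`), `w_l = 2^{-l}`; `prof = ∑_j w_j [b ≤ z^{2^j}]` by definition.
Similarly `prof^2 = ∑_j w'_j [b ≤ z^{2^j}]`, `w'_j = (3/4) 4^{-j}` (`j < l`), `w'_l = 4^{-l}`
(compare the values on each step, or prove `prof^2 = ...` by induction on `l`; only `≤` is needed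
for the upper bounds of B and C).  `∑ w_j = ∑ w'_j = 1`, `∑ w_j 2^j = l/2 + 1`,
`∑ w'_j 2^j ≤ 3/2`, `∑ w'_j 4^j = 3l/4 + 1`.
`SS P (prof) = ∑ w_j HH(z^{2^j})`, `SS P (prof^2) = ∑ w'_j HH(z^{2^j})`,
`SS P (prof^2 log) ≤ ∑ w'_j 2^j log z HH(z^{2^j})`, all arguments `z^{2^j} ≤ R`,
`log z^{2^j} = 2^j log z`; insert the bounds of `HH` and `100 C ≤ V log z`.
B lower bound: `prof = 1` for `b ≤ z`, so `B ≥ HH z`.
-/

set_option linter.unusedSectionVars false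

namespace Pool.Agent.H21.MT

open Finset

variable {ι : Type} [Fintype ι] [DecidableEq ι]

/-- the step profile -/
noncomputable def prof (z : ℝ) (l : ℕ) (b : ℕ) : ℝ :=
  (∑ j ∈ range l, if (b : ℝ) ≤ z ^ (2 ^ j) then (1 / 2 : ℝ) ^ (j + 1) else 0) +
    (if (b : ℝ) ≤ z ^ (2 ^ l) then (1 / 2 : ℝ) ^ l else 0)

theorem prof_nonneg (z : ℝ) (l b : ℕ) : 0 ≤ prof z l b := by
  unfold prof
  apply add_nonneg
  · apply Finset.sum_nonneg
    intro j _
    split_ifs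
    · positivity
    · exact le_refl _
  · split_ifs
    · positivity
    · exact le_refl _

theorem geo_sum (l : ℕ) : (∑ j ∈ range l, (1 / 2 : ℝ) ^ (j + 1)) + (1 / 2 : ℝ) ^ l = 1 := by
  induction l with
  | zero => simp
  | succ l ih =>
    rw [Finset.sum_range_succ]
    have : (1 / 2 : ℝ) ^ (l + 1) + (1 / 2 : ℝ) ^ (l + 1) = (1 / 2 : ℝ) ^ l := by
      rw [pow_succ]; ring
    linarith

theorem prof_le_one (z : ℝ) (l b : ℕ) : prof z l b ≤ 1 := by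
  rw [← geo_sum l]
  unfold prof
  apply add_le_add
  · apply Finset.sum_le_sum
    intro j _
    split_ifs
    · exact le_refl _
    · positivity
  · split_ifs
    · exact le_refl _
    · positivity

theorem prof_antitone (z : ℝ) (l : ℕ) : Antitone (prof z l) := by
  intro a b hab
  have hab' : (a : ℝ) ≤ b := by exact_mod_cast hab
  have key : ∀ (t w : ℝ), 0 ≤ w → (if (b : ℝ) ≤ t then w else 0) ≤ (if (a : ℝ) ≤ t then w else 0) := by
    intro t w hw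
    split_ifs with h1 h2 h2
    · exact le_refl _
    · exact absurd (hab'.trans h1) h2
    · exact hw
    · exact le_refl _
  unfold prof
  apply add_le_add
  · apply Finset.sum_le_sum
    intro j _
    exact key _ _ (by positivity)
  · exact key _ _ (by positivity)

theorem prof_small (z : ℝ) (hz : 1 ≤ z) (l b : ℕ) (hb : (b : ℝ) ≤ z) : prof z l b = 1 := by
  have h : ∀ j : ℕ, (b : ℝ) ≤ z ^ (2 ^ j) := by
    intro j
    refine hb.trans ?_
    have : z ^ 1 ≤ z ^ (2 ^ j) := pow_le_pow_right₀ hz Nat.one_le_two_pow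
    simpa using this
  unfold prof
  rw [if_pos (h l), Finset.sum_congr rfl (fun j _ => if_pos (h j))]
  exact geo_sum l

theorem prof_one (z : ℝ) (hz : 1 ≤ z) (l : ℕ) : prof z l 1 = 1 :=
  prof_small z hz l 1 (by simpa using hz)

theorem prof_ne (z : ℝ) (hz : 1 ≤ z) (l b : ℕ) (h : prof z l b ≠ 0) : (b : ℝ) ≤ z ^ (2 ^ l) := by
  by_contra hb
  push Not at hb
  apply h
  unfold prof
  rw [if_neg (not_le.mpr hb), add_zero]
  apply Finset.sum_eq_zero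
  intro j hj
  rw [if_neg]
  rw [not_le]
  refine lt_of_le_of_lt ?_ hb
  exact pow_le_pow_right₀ hz (Nat.pow_le_pow_right (by norm_num) (Finset.mem_range.mp hj).le)

/-- the step profile of the square -/
noncomputable def prof2 (z : ℝ) (l : ℕ) (b : ℕ) : ℝ :=
  (∑ j ∈ range l, if (b : ℝ) ≤ z ^ (2 ^ j) then (3 / 4 : ℝ) * (1 / 4 : ℝ) ^ j else 0) +
    (if (b : ℝ) ≤ z ^ (2 ^ l) then (1 / 4 : ℝ) ^ l else 0)

theorem prof_succ_of_le (z : ℝ) (l b : ℕ) (h : (b : ℝ) ≤ z ^ (2 ^ (l + 1))) (h' : (b : ℝ) ≤ z ^ (2 ^ l)) :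
    prof z (l + 1) b = prof z l b := by
  unfold prof
  rw [Finset.sum_range_succ, if_pos h, if_pos h', if_pos h']
  have : (1 / 2 : ℝ) ^ (l + 1) + (1 / 2 : ℝ) ^ (l + 1) = (1 / 2 : ℝ) ^ l := by
    rw [pow_succ]; ring
  linarith

theorem prof2_succ_of_le (z : ℝ) (l b : ℕ) (h : (b : ℝ) ≤ z ^ (2 ^ (l + 1)))
    (h' : (b : ℝ) ≤ z ^ (2 ^ l)) : prof2 z (l + 1) b = prof2 z l b := by
  unfold prof2
  rw [Finset.sum_range_succ, if_pos h, if_pos h', if_pos h']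
  have : (3 / 4 : ℝ) * (1 / 4 : ℝ) ^ l + (1 / 4 : ℝ) ^ (l + 1) = (1 / 4 : ℝ) ^ l := by
    rw [pow_succ]; ring
  linarith

theorem prof_sq (z : ℝ) (hz : 1 ≤ z) (l b : ℕ) : prof z l b ^ 2 = prof2 z l b := by
  have hmono : ∀ i j : ℕ, i ≤ j → z ^ (2 ^ i) ≤ z ^ (2 ^ j) := fun i j hij =>
    pow_le_pow_right₀ hz (Nat.pow_le_pow_right (by norm_num) hij)
  induction l with
  | zero =>
    unfold prof prof2
    simp
  | succ l ih =>
    by_cases h1 : (b : ℝ) ≤ z ^ (2 ^ l)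
    · have h2 : (b : ℝ) ≤ z ^ (2 ^ (l + 1)) := h1.trans (hmono _ _ (Nat.le_succ l))
      rw [prof_succ_of_le z l b h2 h1, prof2_succ_of_le z l b h2 h1, ih]
    · have hz0 : ∀ (w : ℕ → ℝ), (∑ j ∈ range (l + 1),
          if (b : ℝ) ≤ z ^ (2 ^ j) then w j else 0) = 0 := by
        intro w
        apply Finset.sum_eq_zero
        intro j hj
        rw [if_neg]
        intro hc
        exact h1 (hc.trans (hmono _ _ (Nat.lt_succ_iff.mp (Finset.mem_range.mp hj))))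
      unfold prof prof2
      rw [hz0 (fun j => (1 / 2 : ℝ) ^ (j + 1)), hz0 (fun j => (3 / 4 : ℝ) * (1 / 4 : ℝ) ^ j)]
      split_ifs
      · rw [zero_add, zero_add, ← pow_mul, mul_comm, pow_mul]
        norm_num
      · norm_num

theorem SS_ind (P : ι → ℕ) (y w : ℝ) :
    SS P (fun b => if (b : ℝ) ≤ y then w else 0) = w * HH P y := by
  unfold SS HH
  rw [Finset.mul_sum, Finset.sum_filter]
  apply Finset.sum_congr rfl
  intro T _
  dsimp only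
  by_cases h : (nrm P T : ℝ) ≤ y
  · rw [if_pos h, if_pos h]
    ring
  · rw [if_neg h, if_neg h]
    simp

theorem SS_add (P : ι → ℕ) (u v : ℕ → ℝ) : SS P (fun b => u b + v b) = SS P u + SS P v := by
  unfold SS
  rw [← Finset.sum_add_distrib]
  apply Finset.sum_congr rfl
  intro T _
  ring

theorem SS_sum (P : ι → ℕ) {κ : Type} (s : Finset κ) (u : κ → ℕ → ℝ) :
    SS P (fun b => ∑ j ∈ s, u j b) = ∑ j ∈ s, SS P (u j) := by
  unfold SS
  rw [Finset.sum_comm]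
  apply Finset.sum_congr rfl
  intro T _
  rw [Finset.sum_div]

theorem SS_mono (P : ι → ℕ) (u v : ℕ → ℝ) (h : ∀ T : Finset ι, u (nrm P T) ≤ v (nrm P T)) :
    SS P u ≤ SS P v := by
  unfold SS
  apply Finset.sum_le_sum
  intro T _
  exact div_le_div_of_nonneg_right (h T) (Nat.cast_nonneg _)

theorem HH_nonneg (P : ι → ℕ) (y : ℝ) : 0 ≤ HH P y := by
  unfold HH
  apply Finset.sum_nonneg
  intro T _
  positivity

theorem lin2 (s : Finset ℕ) (a b F : ℕ → ℝ) (A B G x y : ℝ)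
    (hF : ∀ j, F j = x * a j + y * b j) (hG : G = x * A + y * B) :
    (∑ j ∈ s, F j) + G = x * ((∑ j ∈ s, a j) + A) + y * ((∑ j ∈ s, b j) + B) := by
  rw [Finset.sum_congr rfl (fun j _ => hF j), Finset.sum_add_distrib, ← Finset.mul_sum,
    ← Finset.mul_sum, hG]
  ring

theorem sum_A (l : ℕ) : (∑ j ∈ range l, (1 / 2 : ℝ) ^ (j + 1) * 2 ^ j) + (1 / 2 : ℝ) ^ l * 2 ^ l =
    (l : ℝ) / 2 + 1 := by
  have h1 : ∀ j : ℕ, (1 / 2 : ℝ) ^ j * 2 ^ j = 1 := by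
    intro j
    rw [← mul_pow]; norm_num
  have h2 : ∀ j : ℕ, (1 / 2 : ℝ) ^ (j + 1) * 2 ^ j = 1 / 2 := by
    intro j
    rw [pow_succ, mul_right_comm, h1]; norm_num
  rw [Finset.sum_congr rfl (fun j _ => h2 j), h1]
  simp
  ring

theorem sum_B (l : ℕ) : (∑ j ∈ range l, (3 / 4 : ℝ) * (1 / 4 : ℝ) ^ j * 2 ^ j) +
    (1 / 4 : ℝ) ^ l * 2 ^ l = 3 / 2 - (1 / 2) * (1 / 2 : ℝ) ^ l := by
  have h1 : ∀ j : ℕ, (1 / 4 : ℝ) ^ j * 2 ^ j = (1 / 2 : ℝ) ^ j := by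
    intro j
    rw [← mul_pow]; norm_num
  rw [h1]
  have h2 : ∀ j : ℕ, (3 / 4 : ℝ) * (1 / 4 : ℝ) ^ j * 2 ^ j = (3 / 4) * (1 / 2 : ℝ) ^ j := by
    intro j
    rw [mul_assoc, h1]
  rw [Finset.sum_congr rfl (fun j _ => h2 j)]
  induction l with
  | zero => norm_num
  | succ l ih =>
    rw [Finset.sum_range_succ, pow_succ]
    linarith

theorem sum_C (l : ℕ) : (∑ j ∈ range l, (3 / 4 : ℝ) * (1 / 4 : ℝ) ^ j * 4 ^ j) +
    (1 / 4 : ℝ) ^ l * 4 ^ l = 3 / 4 * l + 1 := by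
  have h1 : ∀ j : ℕ, (1 / 4 : ℝ) ^ j * 4 ^ j = 1 := by
    intro j
    rw [← mul_pow]; norm_num
  have h2 : ∀ j : ℕ, (3 / 4 : ℝ) * (1 / 4 : ℝ) ^ j * 4 ^ j = 3 / 4 := by
    intro j
    rw [mul_assoc, h1, mul_one]
  rw [Finset.sum_congr rfl (fun j _ => h2 j), h1]
  simp
  ring

theorem sum_w' (l : ℕ) : (∑ j ∈ range l, (3 / 4 : ℝ) * (1 / 4 : ℝ) ^ j) +
    (1 / 4 : ℝ) ^ l = 1 := by
  induction l with
  | zero => simp
  | succ l ih =>
    rw [Finset.sum_range_succ, pow_succ]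
    linarith

theorem prof_est (P : ι → ℕ) (hP : ∀ k, 0 < P k) (V C R z : ℝ) (l : ℕ) (hV : 0 < V) (hC : 0 ≤ C)
    (hz : 1 ≤ z) (hzR : z ^ (2 ^ l) ≤ R)
    (hH : ∀ y, 1 ≤ y → y ≤ R → 97 / 100 * (V * Real.log y - C) ≤ HH P y ∧
      HH P y ≤ V * Real.log y + C)
    (hbig : 100 * C ≤ V * Real.log z) :
    48 / 100 * (l + 2) * (V * Real.log z) ≤ SS P (prof z l) ∧
    SS P (prof z l) ≤ 505 / 1000 * (l + 2) * (V * Real.log z) ∧
    96 / 100 * (V * Real.log z) ≤ SS P (fun b => prof z l b ^ 2) ∧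
    SS P (fun b => prof z l b ^ 2) ≤ 151 / 100 * (V * Real.log z) ∧
    SS P (fun b => prof z l b ^ 2 * Real.log b) ≤
      102 / 100 * (l + 1) * (V * Real.log z) * Real.log z := by
  set L := V * Real.log z with hL
  have hlogz : 0 ≤ Real.log z := Real.log_nonneg hz
  have hL0 : 0 ≤ L := mul_nonneg hV.le hlogz
  have hCL : C ≤ L / 100 := by linarith
  have hpow1 : ∀ j : ℕ, 1 ≤ z ^ (2 ^ j) := fun j => one_le_pow₀ hz
  have hpowR : ∀ j : ℕ, j ≤ l → z ^ (2 ^ j) ≤ R := fun j hj =>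
    (pow_le_pow_right₀ hz (Nat.pow_le_pow_right (by norm_num) hj)).trans hzR
  have hlogp : ∀ j : ℕ, Real.log (z ^ (2 ^ j)) = 2 ^ j * Real.log z := by
    intro j
    rw [Real.log_pow]
    push_cast
    ring
  have hHj : ∀ j : ℕ, j ≤ l → 97 / 100 * (2 ^ j * L - C) ≤ HH P (z ^ (2 ^ j)) ∧
      HH P (z ^ (2 ^ j)) ≤ 2 ^ j * L + C := by
    intro j hj
    have h := hH _ (hpow1 j) (hpowR j hj)
    rw [hlogp j] at h
    have e : V * (2 ^ j * Real.log z) = 2 ^ j * L := by rw [hL]; ring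
    rw [e] at h
    exact h
  have hA : SS P (prof z l) = (∑ j ∈ range l, (1 / 2 : ℝ) ^ (j + 1) * HH P (z ^ (2 ^ j))) +
      (1 / 2 : ℝ) ^ l * HH P (z ^ (2 ^ l)) := by
    have : prof z l = fun b => (∑ j ∈ range l,
        (fun (j : ℕ) (b : ℕ) => if (b : ℝ) ≤ z ^ (2 ^ j) then (1 / 2 : ℝ) ^ (j + 1) else 0) j b) +
        (fun (b : ℕ) => if (b : ℝ) ≤ z ^ (2 ^ l) then (1 / 2 : ℝ) ^ l else 0) b := by
      funext b
      rfl
    rw [this, SS_add, SS_sum, SS_ind]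
    congr 1
    apply Finset.sum_congr rfl
    intro j _
    exact SS_ind P _ _
  have hB : SS P (fun b => prof z l b ^ 2) =
      (∑ j ∈ range l, ((3 / 4 : ℝ) * (1 / 4 : ℝ) ^ j) * HH P (z ^ (2 ^ j))) +
      (1 / 4 : ℝ) ^ l * HH P (z ^ (2 ^ l)) := by
    have : (fun b => prof z l b ^ 2) = fun b => (∑ j ∈ range l,
        (fun (j : ℕ) (b : ℕ) => if (b : ℝ) ≤ z ^ (2 ^ j) then (3 / 4 : ℝ) * (1 / 4 : ℝ) ^ j else 0) j b)
        + (fun (b : ℕ) => if (b : ℝ) ≤ z ^ (2 ^ l) then (1 / 4 : ℝ) ^ l else 0) b := by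
      funext b
      rw [prof_sq z hz]
      rfl
    rw [this, SS_add, SS_sum, SS_ind]
    congr 1
    apply Finset.sum_congr rfl
    intro j _
    exact SS_ind P _ _
  refine ⟨?_, ?_, ?_, ?_, ?_⟩
  · rw [hA]
    have h1 : (∑ j ∈ range l, (1 / 2 : ℝ) ^ (j + 1) * (97 / 100 * (2 ^ j * L - C))) +
        (1 / 2 : ℝ) ^ l * (97 / 100 * (2 ^ l * L - C)) ≤
        (∑ j ∈ range l, (1 / 2 : ℝ) ^ (j + 1) * HH P (z ^ (2 ^ j))) +
        (1 / 2 : ℝ) ^ l * HH P (z ^ (2 ^ l)) := by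
      apply add_le_add
      · apply Finset.sum_le_sum
        intro j hj
        exact mul_le_mul_of_nonneg_left (hHj j (Finset.mem_range.mp hj).le).1 (by positivity)
      · exact mul_le_mul_of_nonneg_left (hHj l le_rfl).1 (by positivity)
    refine le_trans ?_ h1
    have h2 : (∑ j ∈ range l, (1 / 2 : ℝ) ^ (j + 1) * (97 / 100 * (2 ^ j * L - C))) +
        (1 / 2 : ℝ) ^ l * (97 / 100 * (2 ^ l * L - C)) =
        97 / 100 * L * ((∑ j ∈ range l, (1 / 2 : ℝ) ^ (j + 1) * 2 ^ j) + (1 / 2 : ℝ) ^ l * 2 ^ l) -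
        97 / 100 * C * ((∑ j ∈ range l, (1 / 2 : ℝ) ^ (j + 1)) + (1 / 2 : ℝ) ^ l) := by
      rw [lin2 (range l) (fun j => (1 / 2 : ℝ) ^ (j + 1) * 2 ^ j) (fun j => (1 / 2 : ℝ) ^ (j + 1))
        _ ((1 / 2 : ℝ) ^ l * 2 ^ l) ((1 / 2 : ℝ) ^ l) _ (97 / 100 * L) (-(97 / 100 * C))
        (fun j => by ring) (by ring)]
      ring
    rw [h2, sum_A, geo_sum]
    have hl0 : (0 : ℝ) ≤ l := Nat.cast_nonneg l
    nlinarith [mul_nonneg hl0 hL0]
  · rw [hA]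
    have h1 : (∑ j ∈ range l, (1 / 2 : ℝ) ^ (j + 1) * HH P (z ^ (2 ^ j))) +
        (1 / 2 : ℝ) ^ l * HH P (z ^ (2 ^ l)) ≤
        (∑ j ∈ range l, (1 / 2 : ℝ) ^ (j + 1) * (2 ^ j * L + C)) +
        (1 / 2 : ℝ) ^ l * (2 ^ l * L + C) := by
      apply add_le_add
      · apply Finset.sum_le_sum
        intro j hj
        exact mul_le_mul_of_nonneg_left (hHj j (Finset.mem_range.mp hj).le).2 (by positivity)
      · exact mul_le_mul_of_nonneg_left (hHj l le_rfl).2 (by positivity)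
    refine le_trans h1 ?_
    have h2 : (∑ j ∈ range l, (1 / 2 : ℝ) ^ (j + 1) * (2 ^ j * L + C)) +
        (1 / 2 : ℝ) ^ l * (2 ^ l * L + C) =
        L * ((∑ j ∈ range l, (1 / 2 : ℝ) ^ (j + 1) * 2 ^ j) + (1 / 2 : ℝ) ^ l * 2 ^ l) +
        C * ((∑ j ∈ range l, (1 / 2 : ℝ) ^ (j + 1)) + (1 / 2 : ℝ) ^ l) := by
      exact lin2 (range l) (fun j => (1 / 2 : ℝ) ^ (j + 1) * 2 ^ j) (fun j => (1 / 2 : ℝ) ^ (j + 1))
        _ ((1 / 2 : ℝ) ^ l * 2 ^ l) ((1 / 2 : ℝ) ^ l) _ L C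
        (fun j => by ring) (by ring)
    rw [h2, sum_A, geo_sum]
    have hl0 : (0 : ℝ) ≤ l := Nat.cast_nonneg l
    nlinarith [mul_nonneg hl0 hL0]
  · have h0 := (hHj 0 (Nat.zero_le l)).1
    rw [pow_zero, one_mul, pow_zero, pow_one] at h0
    have h1 : HH P z ≤ SS P (fun b => prof z l b ^ 2) := by
      have : HH P z = SS P (fun b => if (b : ℝ) ≤ z then (1 : ℝ) else 0) := by
        rw [SS_ind, one_mul]
      rw [this]
      apply SS_mono
      intro T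
      split_ifs with hT
      · rw [prof_small z hz l _ hT]; norm_num
      · exact sq_nonneg _
    linarith
  · rw [hB]
    have h1 : (∑ j ∈ range l, ((3 / 4 : ℝ) * (1 / 4 : ℝ) ^ j) * HH P (z ^ (2 ^ j))) +
        (1 / 4 : ℝ) ^ l * HH P (z ^ (2 ^ l)) ≤
        (∑ j ∈ range l, ((3 / 4 : ℝ) * (1 / 4 : ℝ) ^ j) * (2 ^ j * L + C)) +
        (1 / 4 : ℝ) ^ l * (2 ^ l * L + C) := by
      apply add_le_add
      · apply Finset.sum_le_sum
        intro j hj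
        exact mul_le_mul_of_nonneg_left (hHj j (Finset.mem_range.mp hj).le).2 (by positivity)
      · exact mul_le_mul_of_nonneg_left (hHj l le_rfl).2 (by positivity)
    refine le_trans h1 ?_
    have h2 : (∑ j ∈ range l, ((3 / 4 : ℝ) * (1 / 4 : ℝ) ^ j) * (2 ^ j * L + C)) +
        (1 / 4 : ℝ) ^ l * (2 ^ l * L + C) =
        L * ((∑ j ∈ range l, (3 / 4 : ℝ) * (1 / 4 : ℝ) ^ j * 2 ^ j) + (1 / 4 : ℝ) ^ l * 2 ^ l) +
        C * ((∑ j ∈ range l, (3 / 4 : ℝ) * (1 / 4 : ℝ) ^ j) + (1 / 4 : ℝ) ^ l) := by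
      exact lin2 (range l) (fun j => (3 / 4 : ℝ) * (1 / 4 : ℝ) ^ j * 2 ^ j)
        (fun j => (3 / 4 : ℝ) * (1 / 4 : ℝ) ^ j)
        _ ((1 / 4 : ℝ) ^ l * 2 ^ l) ((1 / 4 : ℝ) ^ l) _ L C
        (fun j => by ring) (by ring)
    rw [h2, sum_B, sum_w']
    have hp : (0 : ℝ) ≤ (1 / 2) * (1 / 2 : ℝ) ^ l := by positivity
    nlinarith [mul_nonneg hL0 hp]
  · have h0 : SS P (fun b => prof z l b ^ 2 * Real.log b) ≤
        (∑ j ∈ range l, ((3 / 4 : ℝ) * (1 / 4 : ℝ) ^ j * (2 ^ j * Real.log z)) * HH P (z ^ (2 ^ j))) +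
        ((1 / 4 : ℝ) ^ l * (2 ^ l * Real.log z)) * HH P (z ^ (2 ^ l)) := by
      have e : (∑ j ∈ range l, ((3 / 4 : ℝ) * (1 / 4 : ℝ) ^ j * (2 ^ j * Real.log z)) *
          HH P (z ^ (2 ^ j))) + ((1 / 4 : ℝ) ^ l * (2 ^ l * Real.log z)) * HH P (z ^ (2 ^ l)) =
          SS P (fun b => (∑ j ∈ range l, (fun (j : ℕ) (b : ℕ) => if (b : ℝ) ≤ z ^ (2 ^ j) then
            ((3 / 4 : ℝ) * (1 / 4 : ℝ) ^ j * (2 ^ j * Real.log z)) else 0) j b) +
            (fun (b : ℕ) => if (b : ℝ) ≤ z ^ (2 ^ l) then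
              ((1 / 4 : ℝ) ^ l * (2 ^ l * Real.log z)) else 0) b) := by
        rw [SS_add, SS_sum, SS_ind]
        congr 1
        apply Finset.sum_congr rfl
        intro j _
        exact (SS_ind P _ _).symm
      rw [e]
      apply SS_mono
      intro T
      dsimp only
      rw [prof_sq z hz]
      unfold prof2
      have hn : (1 : ℝ) ≤ (nrm P T : ℝ) := by exact_mod_cast nrm_pos hP T
      rw [add_mul, Finset.sum_mul]
      have key : ∀ (j : ℕ) (w : ℝ), 0 ≤ w →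
          (if (nrm P T : ℝ) ≤ z ^ (2 ^ j) then w else 0) * Real.log (nrm P T) ≤
          (if (nrm P T : ℝ) ≤ z ^ (2 ^ j) then w * (2 ^ j * Real.log z) else 0) := by
        intro j w hw
        split_ifs with hj
        · apply mul_le_mul_of_nonneg_left _ hw
          rw [← hlogp j]
          exact Real.log_le_log (by linarith) hj
        · simp
      apply add_le_add
      · apply Finset.sum_le_sum
        intro j _
        exact key j _ (by positivity)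
      · exact key l _ (by positivity)
    refine h0.trans ?_
    have h1 : (∑ j ∈ range l, ((3 / 4 : ℝ) * (1 / 4 : ℝ) ^ j * (2 ^ j * Real.log z)) *
          HH P (z ^ (2 ^ j))) + ((1 / 4 : ℝ) ^ l * (2 ^ l * Real.log z)) * HH P (z ^ (2 ^ l)) ≤
        (∑ j ∈ range l, ((3 / 4 : ℝ) * (1 / 4 : ℝ) ^ j * (2 ^ j * Real.log z)) * (2 ^ j * L + C)) +
        ((1 / 4 : ℝ) ^ l * (2 ^ l * Real.log z)) * (2 ^ l * L + C) := by
      apply add_le_add
      · apply Finset.sum_le_sum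
        intro j hj
        exact mul_le_mul_of_nonneg_left (hHj j (Finset.mem_range.mp hj).le).2 (by positivity)
      · exact mul_le_mul_of_nonneg_left (hHj l le_rfl).2 (by positivity)
    refine le_trans h1 ?_
    have h2 : (∑ j ∈ range l, ((3 / 4 : ℝ) * (1 / 4 : ℝ) ^ j * (2 ^ j * Real.log z)) *
        (2 ^ j * L + C)) + ((1 / 4 : ℝ) ^ l * (2 ^ l * Real.log z)) * (2 ^ l * L + C) =
        L * Real.log z * ((∑ j ∈ range l, (3 / 4 : ℝ) * (1 / 4 : ℝ) ^ j * 4 ^ j) +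
          (1 / 4 : ℝ) ^ l * 4 ^ l) +
        C * Real.log z * ((∑ j ∈ range l, (3 / 4 : ℝ) * (1 / 4 : ℝ) ^ j * 2 ^ j) +
          (1 / 4 : ℝ) ^ l * 2 ^ l) := by
      have e4 : ∀ j : ℕ, (4 : ℝ) ^ j = 2 ^ j * 2 ^ j := by
        intro j
        rw [← mul_pow]; norm_num
      exact lin2 (range l) (fun j => (3 / 4 : ℝ) * (1 / 4 : ℝ) ^ j * 4 ^ j)
        (fun j => (3 / 4 : ℝ) * (1 / 4 : ℝ) ^ j * 2 ^ j)
        _ ((1 / 4 : ℝ) ^ l * 4 ^ l) ((1 / 4 : ℝ) ^ l * 2 ^ l) _ (L * Real.log z) (C * Real.log z)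
        (fun j => by rw [e4 j]; ring) (by rw [e4 l]; ring)
    rw [h2, sum_C, sum_B]
    have hl0 : (0 : ℝ) ≤ l := Nat.cast_nonneg l
    have hp : (0 : ℝ) ≤ (1 / 2) * (1 / 2 : ℝ) ^ l := by positivity
    have hLz : 0 ≤ L * Real.log z := mul_nonneg hL0 hlogz
    have hCz : C * Real.log z ≤ L * Real.log z / 100 := by
      have := mul_le_mul_of_nonneg_right hCL hlogz
      linarith
    have hCz0 : 0 ≤ C * Real.log z := mul_nonneg hC hlogz
    nlinarith [mul_nonneg hl0 hLz, mul_nonneg hCz0 hp]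

end Pool.Agent.H21.MT
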