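import Pool.Agent.H21.MT.Hsum
import Pool.Agent.H21.MT.Prof
import Pool.Agent.H21.MT.QbD
import Pool.Agent.H21.MT.Dv
import Pool.Agent.H21.MT.Gw

/-!
MP_8923e7_nt, project MT.  The data of the sieve for a tuple (definitions only).
-/

set_option linter.unusedSectionVars false

namespace Pool.Agent.H21.MT

open Finset

/-- the data: shifts `h`, profile parameters `tau`, `l`, modulus `W`, bound `D`, residue `b` -/
structure Dat (I : Type) [Fintype I] [DecidableEq I] where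
  h : I → ℕ
  tau : I → ℝ
  l : I → ℕ
  W : ℕ
  D : ℕ
  b : ℕ
  tau_pos : ∀ i, 0 < tau i
  l_tau : ∀ i, (2 : ℝ) ^ l i * tau i ≤ 1 / 2
  budget : ∑ i, ((l i : ℝ) + 1) * tau i ≤ 1 / 10
  W_pos : 0 < W
  D_large : 1000 * (Fintype.card I) ^ 2 ≤ D
  D_dvd : ∀ p : ℕ, p.Prime → p < D → p ∣ W
  diff_dvd : ∀ i j, i ≠ j → ∀ p : ℕ, p.Prime → (p : ℤ) ∣ (h i : ℤ) - h j → p ∣ W
  b_cop : ∀ i, Nat.Coprime (b + h i) W

namespace Dat

variable {I : Type} [Fintype I] [DecidableEq I] (δ : Dat I)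

/-- level -/
noncomputable def R (x : ℝ) : ℝ := x ^ (1 / 100 : ℝ)

/-- scale of the profile -/
noncomputable def z (x : ℝ) (i : I) : ℝ := (R x) ^ (δ.tau i)

/-- the profile -/
noncomputable def g (x : ℝ) (i : I) : ℕ → ℝ := prof (δ.z x i) (δ.l i)

/-- the primes of the sieve -/
noncomputable abbrev P (x : ℝ) : PIdx δ.W (R x) → ℕ := Pv δ.W (R x)

noncomputable def A (x : ℝ) (i : I) : ℝ := SS (δ.P x) (δ.g x i)

noncomputable def B (x : ℝ) (i : I) : ℝ := SS (δ.P x) (fun b => δ.g x i b ^ 2)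

/-- the function `F` -/
noncomputable def F (x : ℝ) : (PIdx δ.W (R x) → Option I) → ℝ := FF (δ.P x) (δ.g x) (R x)

/-- the sieve weights -/
noncomputable def lam (x : ℝ) : (PIdx δ.W (R x) → Option I) → ℝ := lamF (δ.P x) (δ.F x)

/-- density `φ(W)/W` -/
noncomputable def V : ℝ := (δ.W.totient : ℝ) / δ.W

/-- total mass of the window -/
noncomputable def _root_.Pool.Agent.H21.MT.XX (x : ℝ) : ℝ := ∑ N ∈ Win x, wN x N

/-- the integers of the window in the residue class -/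
noncomputable def WinB (x : ℝ) : Finset ℕ := (Win x).filter (fun N => N % δ.W = δ.b % δ.W)

/-- the sieve measure (unnormalised) -/
noncomputable def om (x : ℝ) (N : ℕ) : ℝ := wN x N * (sig (δ.P x) δ.h (δ.lam x) N) ^ 2

/-- total mass -/
noncomputable def S1 (x : ℝ) : ℝ := ∑ N ∈ δ.WinB x, δ.om x N

end Dat

/-- primes up to `x^3` -/
noncomputable def Wp (x : ℝ) : Finset ℕ := (Icc 1 ⌊x ^ 3⌋₊).filter Nat.Prime

/-- prime weight -/
noncomputable def vp (J : ℕ) (x : ℝ) (p : ℕ) : ℝ := (Real.log p) ^ (J + 1) * gw x p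

/-- total prime mass -/
noncomputable def MM (J : ℕ) (x : ℝ) : ℝ := ∑ p ∈ Wp x, vp J x p

end Pool.Agent.H21.MT
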