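import Pool.Agent.H21.MT.Dat

/-!
[H21 MT DATEX]  Existence of the data.

Proof.  `D = 1000 K^2 + 1000`; `W = (∏_{p < D, p prime} p) * ∏_{i ≠ j} |h i - h j|` (all factors
nonzero as `h` is injective).  For every prime `p ∣ W` choose `a_p` with `p ∤ a_p + h i` for all `i`
(admissibility) and `b` by the Chinese remainder theorem with `b ≡ a_p (mod p)` for all primes
`p ∣ W`; then `b + h i` is coprime to `W`.
-/

set_option linter.unusedSectionVars false

namespace Pool.Agent.H21.MT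

open Finset

theorem datex_crt (W : ℕ) (a : ℕ → ℕ) : ∃ b : ℕ, ∀ p : ℕ, p.Prime → p ∣ W → W ≠ 0 →
    b ≡ a p [MOD p] := by
  have hpp : Set.Pairwise (↑W.primeFactors : Set ℕ) (Function.onFun Nat.Coprime (fun p : ℕ => p)) := by
    intro p hp q hq hpq
    have hp' : p.Prime := Nat.prime_of_mem_primeFactors (by simpa using hp)
    have hq' : q.Prime := Nat.prime_of_mem_primeFactors (by simpa using hq)
    exact (Nat.coprime_primes hp' hq').2 hpq
  have hne : ∀ p ∈ W.primeFactors, (fun p : ℕ => p) p ≠ 0 := fun p hp =>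
    (Nat.prime_of_mem_primeFactors hp).ne_zero
  obtain ⟨b, hb⟩ := Nat.chineseRemainderOfFinset a (fun p : ℕ => p) W.primeFactors hne hpp
  exact ⟨b, fun p hp hpW hW => hb p (Nat.mem_primeFactors.2 ⟨hp, hpW, hW⟩)⟩

theorem dat_exists {I : Type} [Fintype I] [DecidableEq I] [Nonempty I] (h : I → ℕ)
    (hinj : Function.Injective h)
    (hadm : ∀ p : ℕ, p.Prime → ∃ a : ℕ, ∀ i, ¬ p ∣ a + h i) (tau : I → ℝ) (l : I → ℕ)
    (h1 : ∀ i, 0 < tau i) (h2 : ∀ i, (2 : ℝ) ^ l i * tau i ≤ 1 / 2)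
    (h3 : ∑ i, ((l i : ℝ) + 1) * tau i ≤ 1 / 10) :
    ∃ δ : Dat I, δ.h = h ∧ δ.tau = tau ∧ δ.l = l := by
  classical
  obtain ⟨D, hD⟩ : ∃ D : ℕ, D = 1000 * (Fintype.card I) ^ 2 + 1000 := ⟨_, rfl⟩
  obtain ⟨A, hA⟩ : ∃ A : ℕ, A = ∏ p ∈ (range D).filter Nat.Prime, p := ⟨_, rfl⟩
  obtain ⟨B, hB⟩ : ∃ B : ℕ, B = ∏ x ∈ (univ : Finset (I × I)).filter (fun x => x.1 ≠ x.2),
      ((h x.1 : ℤ) - h x.2).natAbs := ⟨_, rfl⟩
  have hA0 : 0 < A := by
    rw [hA]
    apply Finset.prod_pos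
    intro p hp
    exact (Finset.mem_filter.1 hp).2.pos
  have hB0 : 0 < B := by
    rw [hB]
    apply Finset.prod_pos
    intro x hx
    rw [Int.natAbs_pos, sub_ne_zero]
    intro hx2
    exact (Finset.mem_filter.1 hx).2 (hinj (by exact_mod_cast hx2))
  have hW0 : 0 < A * B := Nat.mul_pos hA0 hB0
  have ha : ∀ p : ℕ, ∃ a : ℕ, p.Prime → ∀ i, ¬ p ∣ a + h i := by
    intro p
    by_cases hp : p.Prime
    · obtain ⟨a, ha⟩ := hadm p hp
      exact ⟨a, fun _ => ha⟩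
    · exact ⟨0, fun hp' => absurd hp' hp⟩
  choose a ha using ha
  obtain ⟨b, hb⟩ := datex_crt (A * B) a
  refine ⟨{ h := h, tau := tau, l := l, W := A * B, D := D, b := b, tau_pos := h1, l_tau := h2,
            budget := h3, W_pos := hW0, D_large := by omega, D_dvd := ?_, diff_dvd := ?_,
            b_cop := ?_ }, rfl, rfl, rfl⟩
  · intro p hp hpD
    apply Dvd.dvd.mul_right
    rw [hA]
    exact Finset.dvd_prod_of_mem _ (Finset.mem_filter.2 ⟨Finset.mem_range.2 hpD, hp⟩)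
  · intro i j hij p _ hpd
    apply Dvd.dvd.mul_left
    have h4 : p ∣ ((h i : ℤ) - h j).natAbs := Int.natCast_dvd.1 hpd
    refine h4.trans ?_
    rw [hB]
    exact Finset.dvd_prod_of_mem (fun x : I × I => ((h x.1 : ℤ) - h x.2).natAbs)
      (Finset.mem_filter.2 ⟨Finset.mem_univ (i, j), hij⟩)
  · intro i
    apply Nat.coprime_of_dvd
    intro p hp hpb hpW
    have h5 := hb p hp hpW hW0.ne'
    exact ha p hp i (((h5.add_right (h i)).dvd_iff dvd_rfl).1 hpb)

end Pool.Agent.H21.MT
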