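import Pool.Agent.H21.MT.ProdLe

/-!
[H21 MT EV]  The typical event has at least half of the total mass.

Proof.  Let `K = |I|`, `Z i = SS P (u i) > 0`.  Consider all families `T : I → Finset ι` with
`T i = ∅` for `i ∉ J`, with weight `ω(T) = ∏_{i ∈ J} u i (nrm (T i)) / nrm (T i)`; the total weight
is `∏_{i ∈ J} Z i` (`Finset.prod_univ_sum` or `Finset.prod_sum`).  The pairwise disjoint families
correspond bijectively to the labelled numbers `s` with labels in `J` (`s k = some i` iff
`k ∈ T i`), with `lab P s i = nrm P (T i)`, `tot P s = ∏ nrm (T i)`.  Bad weights: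
(a) not pairwise disjoint: at most `∑_{i<j} ∑_k (1/P k^2) ∏ Z ≤ (K^2/2) σ ∏ Z`,
    `σ = ∑ k, 1/P k^2 ≤ 1/(50 K^2)`, because the sum over the `T i ∋ k` is `≤ (1/P k) Z i`
    (`SS_mem_le`);
(b) `∑_i ∑_{k ∈ T i} 1/P k > 1/(10K)`: Markov; the mean of the sum is `≤ K σ`, so the weight is
    `≤ 10 K^2 σ ∏ Z`;
(c) `(∏ nrm (T i))^2 > R`: `∑_i log nrm (T i) > (1/2) log R`; Markov:
    `≤ (2/log R) ∑_i SS P (u i log) / Z i * ∏ Z ≤ (1/4) ∏ Z` (hypothesis `hC`, `log R > 0`).
Total bad weight `≤ (1/100 + 1/5 + 1/4) ∏ Z ≤ (1/2) ∏ Z`.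
-/

set_option linter.unusedSectionVars false

namespace Pool.Agent.H21.MT

open Finset

variable {ι I : Type} [Fintype ι] [DecidableEq ι] [Fintype I] [DecidableEq I]

/-- labelled numbers with labels in `J`, of size at most `sqrt R`, without much mass of small primes -/
noncomputable def goodS (P : ι → ℕ) (J : Finset I) (R : ℝ) : Finset (ι → Option I) :=
  by
    classical
    exact univ.filter (fun s => (∀ k i, s k = some i → i ∈ J) ∧ (tot P s : ℝ) ^ 2 ≤ R ∧
      ∑ k, (if s k = none then 0 else 1 / (P k : ℝ)) ≤ 1 / (10 * (Fintype.card I : ℝ)))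

/-- families of sets of primes, empty off `J` -/
noncomputable def famJ (J : Finset I) : Finset (I → Finset ι) :=
  Fintype.piFinset (fun i => if i ∈ J then (univ : Finset (Finset ι)) else {∅})

omit [Fintype I] [DecidableEq I] in
theorem nrm_prod_pos {P : ι → ℕ} (hP : ∀ k, 0 < P k) (J : Finset I) (T : I → Finset ι) :
    0 < ∏ i ∈ J, nrm P (T i) :=
  Finset.prod_pos fun i _ => nrm_pos hP (T i)

theorem sum_famJ (J : Finset I) (w : I → Finset ι → ℝ) :
    ∑ T ∈ famJ (ι := ι) J, ∏ i ∈ J, w i (T i) = ∏ i ∈ J, ∑ t, w i t := by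
  have h := Finset.prod_univ_sum (fun i => if i ∈ J then (univ : Finset (Finset ι)) else {∅})
    (fun i t => if i ∈ J then w i t else 1)
  have hL : (∏ i, ∑ t ∈ (if i ∈ J then (univ : Finset (Finset ι)) else {∅}),
      (if i ∈ J then w i t else 1)) = ∏ i ∈ J, ∑ t, w i t := by
    rw [← Finset.prod_subset (Finset.subset_univ J)]
    · apply Finset.prod_congr rfl
      intro i hi
      simp [hi]
    · intro i _ hi
      simp [hi]
  rw [← hL, h]
  unfold famJ
  apply Finset.sum_congr rfl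
  intro T _
  rw [← Finset.prod_subset (Finset.subset_univ J)]
  · apply Finset.prod_congr rfl
    intro i hi
    simp [hi]
  · intro i _ hi
    simp [hi]

theorem moment_le (P : ι → ℕ) (hP : ∀ k, (P k).Prime) (J : Finset I) (u : I → ℕ → ℝ)
    (hu0 : ∀ i b, 0 ≤ u i b) (hu : ∀ i, Antitone (u i)) (A : Finset I) (hA : A ⊆ J) (k : ι) :
    ∑ T ∈ famJ (ι := ι) J, (∏ i ∈ J, u i (nrm P (T i)) / nrm P (T i)) *
      (∏ i ∈ A, (if k ∈ T i then (1 : ℝ) else 0)) ≤
      (1 / (P k : ℝ)) ^ A.card * ∏ i ∈ J, SS P (u i) := by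
  have e1 : ∀ T : I → Finset ι, (∏ i ∈ J, u i (nrm P (T i)) / nrm P (T i)) *
      (∏ i ∈ A, (if k ∈ T i then (1 : ℝ) else 0)) =
      ∏ i ∈ J, (u i (nrm P (T i)) / nrm P (T i) *
        (if i ∈ A then (if k ∈ T i then (1 : ℝ) else 0) else 1)) := by
    intro T
    rw [Finset.prod_mul_distrib]
    congr 1
    rw [← Finset.prod_subset hA]
    · apply Finset.prod_congr rfl
      intro i hi
      simp [hi]
    · intro i _ hi
      simp [hi]
  rw [Finset.sum_congr rfl (fun T _ => e1 T)]
  rw [sum_famJ J (fun i t => u i (nrm P t) / nrm P t *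
        (if i ∈ A then (if k ∈ t then (1 : ℝ) else 0) else 1))]
  have e2 : (1 / (P k : ℝ)) ^ A.card * ∏ i ∈ J, SS P (u i) =
      ∏ i ∈ J, ((if i ∈ A then (1 / (P k : ℝ)) else 1) * SS P (u i)) := by
    rw [Finset.prod_mul_distrib]
    congr 1
    rw [← Finset.prod_subset hA]
    · rw [Finset.prod_congr rfl (fun i hi => if_pos hi)]
      simp
    · intro i _ hi
      simp [hi]
  rw [e2]
  have hw0 : ∀ i (t : Finset ι), 0 ≤ u i (nrm P t) / (nrm P t : ℝ) := fun i t =>
    div_nonneg (hu0 i _) (Nat.cast_nonneg _)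
  apply Finset.prod_le_prod
  · intro i _
    apply Finset.sum_nonneg
    intro t _
    apply mul_nonneg (hw0 i t)
    split_ifs <;> norm_num
  · intro i _
    by_cases hi : i ∈ A
    · simp only [hi, if_true]
      refine le_trans (le_of_eq ?_) (SS_mem_le P hP (u i) (hu0 i) (hu i) k)
      rw [Finset.sum_filter]
      apply Finset.sum_congr rfl
      intro t _
      split_ifs <;> simp
    · simp only [hi, if_false, one_mul, mul_one]
      exact le_of_eq rfl

theorem moment_log (P : ι → ℕ) (J : Finset I) (u : I → ℕ → ℝ)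
    (hZ : ∀ i ∈ J, SS P (u i) ≠ 0) (j : I) (hj : j ∈ J) :
    ∑ T ∈ famJ (ι := ι) J, (∏ i ∈ J, u i (nrm P (T i)) / nrm P (T i)) *
      Real.log (nrm P (T j)) =
      SS P (fun b => u j b * Real.log b) / SS P (u j) * ∏ i ∈ J, SS P (u i) := by
  have e1 : ∀ T : I → Finset ι, (∏ i ∈ J, u i (nrm P (T i)) / nrm P (T i)) *
      Real.log (nrm P (T j)) =
      ∏ i ∈ J, (u i (nrm P (T i)) / nrm P (T i) *
        (if i = j then Real.log (nrm P (T i)) else 1)) := by
    intro T
    rw [Finset.prod_mul_distrib]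
    congr 1
    rw [Finset.prod_ite_eq' J j (fun i => Real.log (nrm P (T i)))]
    simp [hj]
  rw [Finset.sum_congr rfl (fun T _ => e1 T)]
  rw [sum_famJ J (fun i t => u i (nrm P t) / nrm P t *
        (if i = j then Real.log (nrm P t) else 1))]
  rw [← Finset.mul_prod_erase J _ hj, ← Finset.mul_prod_erase J (fun i => SS P (u i)) hj]
  have e2 : ∏ x ∈ J.erase j, ∑ t : Finset ι, u x (nrm P t) / (nrm P t : ℝ) *
        (if x = j then Real.log (nrm P t) else 1) = ∏ x ∈ J.erase j, SS P (u x) := by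
    apply Finset.prod_congr rfl
    intro x hx
    have hxj : x ≠ j := (Finset.mem_erase.mp hx).1
    simp only [hxj, if_false, mul_one]
    rfl
  rw [e2]
  have e3 : ∑ t : Finset ι, u j (nrm P t) / (nrm P t : ℝ) *
        (if j = j then Real.log (nrm P t) else 1) = SS P (fun b => u j b * Real.log b) := by
    unfold SS
    apply Finset.sum_congr rfl
    intro t _
    simp only [if_true]
    ring
  rw [e3]
  have := hZ j hj
  field_simp

/-- the family of sets belonging to a labelled number -/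
def toT (s : ι → Option I) (i : I) : Finset ι := univ.filter (fun k => s k = some i)

omit [Fintype I] in
theorem toT_inj : Function.Injective (toT : (ι → Option I) → (I → Finset ι)) := by
  intro s s' h
  funext k
  rcases hs : s k with _ | i
  · rcases hs' : s' k with _ | i'
    · rfl
    · exfalso
      have : k ∈ toT s' i' := by simp [toT, hs']
      rw [← h] at this
      simp [toT, hs] at this
  · have : k ∈ toT s i := by simp [toT, hs]
    rw [h] at this
    simp only [toT, mem_filter, mem_univ, true_and] at this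
    exact this.symm

omit [Fintype I] in
theorem lab_eq (P : ι → ℕ) (s : ι → Option I) (i : I) : lab P s i = nrm P (toT s i) := by
  unfold lab nrm toT
  rw [Finset.prod_filter]

theorem tot_eq_J (P : ι → ℕ) (J : Finset I) (s : ι → Option I)
    (hs : ∀ k i, s k = some i → i ∈ J) : tot P s = ∏ i ∈ J, nrm P (toT s i) := by
  rw [tot_eq_prod_lab, ← Finset.prod_subset (Finset.subset_univ J)]
  · apply Finset.prod_congr rfl
    intro i _
    exact lab_eq P s i
  · intro i _ hi
    unfold lab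
    apply Finset.prod_eq_one
    intro k _
    rw [if_neg]
    intro h
    exact hi (hs k i h)

omit [Fintype I] in
theorem small_eq_J (P : ι → ℕ) (J : Finset I) (s : ι → Option I)
    (hs : ∀ k i, s k = some i → i ∈ J) :
    ∑ k, (if s k = none then 0 else 1 / (P k : ℝ)) =
      ∑ i ∈ J, ∑ k, (if k ∈ toT s i then 1 / (P k : ℝ) else 0) := by
  rw [Finset.sum_comm]
  apply Finset.sum_congr rfl
  intro k _
  rcases h : s k with _ | j
  · simp [toT, h]
  · have hj := hs k j h
    simp only [toT, mem_filter, mem_univ, true_and, h, Option.some.injEq, reduceCtorEq, if_false]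
    rw [Finset.sum_ite_eq J j]
    simp [hj]

/-- every pairwise disjoint family comes from a labelled number -/
theorem exists_toT (J : Finset I) (T : I → Finset ι) (hT : T ∈ famJ (ι := ι) J)
    (hd : ∀ i ∈ J, ∀ j ∈ J, i ≠ j → ∀ k, ¬ (k ∈ T i ∧ k ∈ T j)) :
    ∃ s : ι → Option I, (∀ k i, s k = some i → i ∈ J) ∧ toT s = T := by
  classical
  have hoff : ∀ i, i ∉ J → T i = ∅ := by
    intro i hi
    have := (Fintype.mem_piFinset.mp hT) i
    simpa [hi] using this
  have hmem : ∀ i k, k ∈ T i → i ∈ J := by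
    intro i k hk
    by_contra hi
    rw [hoff i hi] at hk
    simp at hk
  let s : ι → Option I := fun k => if h : ∃ i, k ∈ T i then some h.choose else none
  have hs : ∀ k i, s k = some i ↔ k ∈ T i := by
    intro k i
    constructor
    · intro h
      by_cases hex : ∃ i, k ∈ T i
      · have h1 : s k = some hex.choose := dif_pos hex
        rw [h1] at h
        have h2 : hex.choose = i := Option.some.inj h
        rw [← h2]
        exact hex.choose_spec
      · have h1 : s k = none := dif_neg hex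
        rw [h1] at h
        cases h
    · intro h
      have hex : ∃ i, k ∈ T i := ⟨i, h⟩
      have h1 : s k = some hex.choose := dif_pos hex
      rw [h1]
      congr 1
      by_contra hne
      exact hd _ (hmem _ _ hex.choose_spec) _ (hmem _ _ h) hne k ⟨hex.choose_spec, h⟩
  refine ⟨s, ?_, ?_⟩
  · intro k i h
    exact hmem i k ((hs k i).mp h)
  · funext i
    ext k
    simp only [toT, mem_filter, mem_univ, true_and]
    exact hs k i

/-- the indicator of a typical family -/
noncomputable def okT (P : ι → ℕ) (J : Finset I) (R : ℝ) (T : I → Finset ι) : Prop :=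
  (∀ i ∈ J, ∀ j ∈ J, i ≠ j → ∀ k, ¬ (k ∈ T i ∧ k ∈ T j)) ∧
  ((∏ i ∈ J, nrm P (T i) : ℕ) : ℝ) ^ 2 ≤ R ∧
  ∑ i ∈ J, ∑ k, (if k ∈ T i then 1 / (P k : ℝ) else 0) ≤ 1 / (10 * (Fintype.card I : ℝ))

open Classical in
theorem one_le_bad (P : ι → ℕ) (hP : ∀ k, 0 < P k) (J : Finset I) (hJ : J.Nonempty) (R : ℝ)
    (hR : 1 < R) (T : I → Finset ι) :
    (1 : ℝ) ≤ (if okT P J R T then 1 else 0) +
      ∑ p ∈ J.offDiag, ∑ k, (∏ i ∈ ({p.1, p.2} : Finset I), (if k ∈ T i then (1 : ℝ) else 0)) +
      10 * (Fintype.card I : ℝ) *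
        ∑ j ∈ J, ∑ k, (1 / (P k : ℝ)) * (∏ i ∈ ({j} : Finset I), (if k ∈ T i then (1 : ℝ) else 0)) +
      (2 / Real.log R) * ∑ j ∈ J, Real.log (nrm P (T j)) := by
  have hlR : 0 < Real.log R := Real.log_pos hR
  have hK : 0 < (Fintype.card I : ℝ) := by
    obtain ⟨i, _⟩ := hJ
    have : 0 < Fintype.card I := Fintype.card_pos_iff.mpr ⟨i⟩
    exact_mod_cast this
  have h1 : 0 ≤ ∑ p ∈ J.offDiag, ∑ k, (∏ i ∈ ({p.1, p.2} : Finset I),
      (if k ∈ T i then (1 : ℝ) else 0)) := by
    apply Finset.sum_nonneg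
    intro p _
    apply Finset.sum_nonneg
    intro k _
    apply Finset.prod_nonneg
    intro i _
    split_ifs <;> norm_num
  have h2 : 0 ≤ ∑ j ∈ J, ∑ k, (1 / (P k : ℝ)) * (∏ i ∈ ({j} : Finset I),
      (if k ∈ T i then (1 : ℝ) else 0)) := by
    apply Finset.sum_nonneg
    intro p _
    apply Finset.sum_nonneg
    intro k _
    apply mul_nonneg (by positivity)
    apply Finset.prod_nonneg
    intro i _
    split_ifs <;> norm_num
  have hlog0 : ∀ t : Finset ι, 0 ≤ Real.log (nrm P t) := by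
    intro t
    apply Real.log_nonneg
    exact_mod_cast nrm_pos hP t
  have h3 : 0 ≤ ∑ j ∈ J, Real.log (nrm P (T j)) :=
    Finset.sum_nonneg fun j _ => hlog0 (T j)
  have h2' : 0 ≤ 10 * (Fintype.card I : ℝ) *
        ∑ j ∈ J, ∑ k, (1 / (P k : ℝ)) * (∏ i ∈ ({j} : Finset I),
          (if k ∈ T i then (1 : ℝ) else 0)) := by positivity
  have h3' : 0 ≤ (2 / Real.log R) * ∑ j ∈ J, Real.log (nrm P (T j)) := by positivity
  by_cases hok : okT P J R T
  · rw [if_pos hok]
    linarith
  · rw [if_neg hok]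
    by_cases ha : ∀ i ∈ J, ∀ j ∈ J, i ≠ j → ∀ k, ¬ (k ∈ T i ∧ k ∈ T j)
    · by_cases hb : ∑ i ∈ J, ∑ k, (if k ∈ T i then 1 / (P k : ℝ) else 0) ≤
        1 / (10 * (Fintype.card I : ℝ))
      · have hc : ¬ (((∏ i ∈ J, nrm P (T i) : ℕ) : ℝ) ^ 2 ≤ R) := by
          intro hc
          exact hok ⟨ha, hc, hb⟩
        push Not at hc
        have hlog : Real.log R < 2 * ∑ j ∈ J, Real.log (nrm P (T j)) := by
          have h4 := Real.log_lt_log (by linarith) hc
          rw [Real.log_pow, Nat.cast_prod, Real.log_prod] at h4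
          · simpa using h4
          · intro i _
            have := nrm_pos hP (T i)
            positivity
        have : 1 ≤ (2 / Real.log R) * ∑ j ∈ J, Real.log (nrm P (T j)) := by
          rw [div_mul_eq_mul_div, le_div_iff₀ hlR]
          linarith
        linarith
      · push Not at hb
        have e : ∑ j ∈ J, ∑ k, (1 / (P k : ℝ)) * (∏ i ∈ ({j} : Finset I),
            (if k ∈ T i then (1 : ℝ) else 0)) =
            ∑ i ∈ J, ∑ k, (if k ∈ T i then 1 / (P k : ℝ) else 0) := by
          apply Finset.sum_congr rfl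
          intro j _
          apply Finset.sum_congr rfl
          intro k _
          rw [Finset.prod_singleton]
          split_ifs <;> simp
        rw [e]
        have : 1 ≤ 10 * (Fintype.card I : ℝ) *
            ∑ i ∈ J, ∑ k, (if k ∈ T i then 1 / (P k : ℝ) else 0) := by
          rw [div_lt_iff₀ (by positivity)] at hb
          linarith
        rw [e] at h2'
        linarith
    · push Not at ha
      obtain ⟨i, hi, j, hj, hij, k, hki, hkj⟩ := ha
      have hp : (i, j) ∈ J.offDiag := Finset.mem_offDiag.mpr ⟨hi, hj, hij⟩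
      have : (1 : ℝ) ≤ ∑ p ∈ J.offDiag, ∑ k, (∏ i ∈ ({p.1, p.2} : Finset I),
          (if k ∈ T i then (1 : ℝ) else 0)) := by
        have h5 : (1 : ℝ) ≤ ∑ k, (∏ l ∈ ({i, j} : Finset I), (if k ∈ T l then (1 : ℝ) else 0)) := by
          refine le_trans ?_ (Finset.single_le_sum (f := fun k =>
            (∏ l ∈ ({i, j} : Finset I), (if k ∈ T l then (1 : ℝ) else 0))) ?_ (Finset.mem_univ k))
          · rw [Finset.prod_pair hij]
            simp [hki, hkj]
          · intro k' _
            apply Finset.prod_nonneg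
            intro i _
            split_ifs <;> norm_num
        refine le_trans h5 (Finset.single_le_sum (f := fun p : I × I => ∑ k,
            (∏ i ∈ ({p.1, p.2} : Finset I), (if k ∈ T i then (1 : ℝ) else 0))) ?_ hp)
        intro p _
        apply Finset.sum_nonneg
        intro k' _
        apply Finset.prod_nonneg
        intro i _
        split_ifs <;> norm_num
      linarith

theorem mass_good (P : ι → ℕ) (hP : ∀ k, (P k).Prime) (hinj : Function.Injective P)
    (J : Finset I) (hJ : J.Nonempty) (R : ℝ) (hR : 1 < R) (u : I → ℕ → ℝ)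
    (hu0 : ∀ i b, 0 ≤ u i b) (hu : ∀ i, Antitone (u i)) (hu1 : ∀ i, 0 < u i 1)
    (hσ : ∑ k, 1 / (P k : ℝ) ^ 2 ≤ 1 / (50 * (Fintype.card I : ℝ) ^ 2))
    (hC : ∑ i ∈ J, SS P (fun b => u i b * Real.log b) / SS P (u i) ≤ (1 / 8) * Real.log R) :
    (1 / 2) * ∏ i ∈ J, SS P (u i) ≤
      ∑ s ∈ goodS P J R, (∏ i ∈ J, u i (lab P s i)) / tot P s := by
  classical
  have hP0 : ∀ k, 0 < P k := fun k => (hP k).pos
  have hlR : 0 < Real.log R := Real.log_pos hR
  have hKn : 0 < Fintype.card I := by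
    obtain ⟨i, _⟩ := hJ
    exact Fintype.card_pos_iff.mpr ⟨i⟩
  have hK : 0 < (Fintype.card I : ℝ) := by exact_mod_cast hKn
  set K : ℝ := (Fintype.card I : ℝ) with hKdef
  set σ : ℝ := ∑ k, 1 / (P k : ℝ) ^ 2 with hσdef
  have hσ0 : 0 ≤ σ := Finset.sum_nonneg fun k _ => by positivity
  have hZpos : ∀ i, 0 < SS P (u i) := by
    intro i
    unfold SS
    apply Finset.sum_pos'
    · intro t _
      exact div_nonneg (hu0 i _) (Nat.cast_nonneg _)
    · refine ⟨∅, Finset.mem_univ _, ?_⟩
      simp only [nrm, Finset.prod_empty, Nat.cast_one, div_one]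
      exact hu1 i
  set Z : ℝ := ∏ i ∈ J, SS P (u i) with hZdef
  have hZ0 : 0 < Z := Finset.prod_pos fun i _ => hZpos i
  set ω : (I → Finset ι) → ℝ := fun T => ∏ i ∈ J, u i (nrm P (T i)) / nrm P (T i) with hω
  have hω0 : ∀ T, 0 ≤ ω T := fun T =>
    Finset.prod_nonneg fun i _ => div_nonneg (hu0 i _) (Nat.cast_nonneg _)
  have htot : ∑ T ∈ famJ (ι := ι) J, ω T = Z := sum_famJ J (fun i t => u i (nrm P t) / nrm P t)
  -- the three bad parts
  have hA : ∑ T ∈ famJ (ι := ι) J, ω T * (∑ p ∈ J.offDiag, ∑ k,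
      (∏ i ∈ ({p.1, p.2} : Finset I), (if k ∈ T i then (1 : ℝ) else 0))) ≤ K ^ 2 * σ * Z := by
    have e : ∑ T ∈ famJ (ι := ι) J, ω T * (∑ p ∈ J.offDiag, ∑ k,
      (∏ i ∈ ({p.1, p.2} : Finset I), (if k ∈ T i then (1 : ℝ) else 0))) =
      ∑ p ∈ J.offDiag, ∑ k, ∑ T ∈ famJ (ι := ι) J, ω T *
        (∏ i ∈ ({p.1, p.2} : Finset I), (if k ∈ T i then (1 : ℝ) else 0)) := by
      rw [Finset.sum_congr rfl (fun T _ => Finset.mul_sum _ _ _), Finset.sum_comm]
      apply Finset.sum_congr rfl
      intro p _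
      rw [Finset.sum_congr rfl (fun T _ => Finset.mul_sum _ _ _), Finset.sum_comm]
    rw [e]
    have h1 : ∀ p ∈ J.offDiag, ∑ k, ∑ T ∈ famJ (ι := ι) J, ω T *
        (∏ i ∈ ({p.1, p.2} : Finset I), (if k ∈ T i then (1 : ℝ) else 0)) ≤ σ * Z := by
      intro p hp
      obtain ⟨hp1, hp2, hne⟩ := Finset.mem_offDiag.mp hp
      rw [hσdef, Finset.sum_mul]
      apply Finset.sum_le_sum
      intro k _
      have hsub : ({p.1, p.2} : Finset I) ⊆ J := by
        intro x hx
        simp only [mem_insert, mem_singleton] at hx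
        rcases hx with rfl | rfl
        · exact hp1
        · exact hp2
      have h2 := moment_le P hP J u hu0 hu _ hsub k
      rw [Finset.card_pair hne] at h2
      refine le_trans h2 (le_of_eq ?_)
      rw [one_div_pow]
    refine le_trans (Finset.sum_le_sum h1) ?_
    rw [Finset.sum_const, nsmul_eq_mul]
    have hcard : ((J.offDiag.card : ℕ) : ℝ) ≤ K ^ 2 := by
      have h2 : J.offDiag.card ≤ Fintype.card I ^ 2 := by
        calc J.offDiag.card ≤ (J ×ˢ J).card := by
              apply Finset.card_le_card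
              intro p hp
              obtain ⟨hp1, hp2, _⟩ := Finset.mem_offDiag.mp hp
              exact Finset.mem_product.mpr ⟨hp1, hp2⟩
          _ = J.card * J.card := Finset.card_product _ _
          _ ≤ Fintype.card I * Fintype.card I :=
              Nat.mul_le_mul (Finset.card_le_univ J) (Finset.card_le_univ J)
          _ = Fintype.card I ^ 2 := by ring
      rw [hKdef]
      exact_mod_cast h2
    calc ((J.offDiag.card : ℕ) : ℝ) * (σ * Z) ≤ K ^ 2 * (σ * Z) :=
          mul_le_mul_of_nonneg_right hcard (by positivity)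
      _ = K ^ 2 * σ * Z := by ring
  have hB : ∑ T ∈ famJ (ι := ι) J, ω T * (∑ j ∈ J, ∑ k, (1 / (P k : ℝ)) *
      (∏ i ∈ ({j} : Finset I), (if k ∈ T i then (1 : ℝ) else 0))) ≤ K * σ * Z := by
    have e : ∑ T ∈ famJ (ι := ι) J, ω T * (∑ j ∈ J, ∑ k, (1 / (P k : ℝ)) *
      (∏ i ∈ ({j} : Finset I), (if k ∈ T i then (1 : ℝ) else 0))) =
      ∑ j ∈ J, ∑ k, (1 / (P k : ℝ)) * ∑ T ∈ famJ (ι := ι) J, ω T *
        (∏ i ∈ ({j} : Finset I), (if k ∈ T i then (1 : ℝ) else 0)) := by
      rw [Finset.sum_congr rfl (fun T _ => Finset.mul_sum _ _ _), Finset.sum_comm]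
      apply Finset.sum_congr rfl
      intro p _
      rw [Finset.sum_congr rfl (fun T _ => Finset.mul_sum _ _ _), Finset.sum_comm]
      apply Finset.sum_congr rfl
      intro k _
      rw [Finset.mul_sum]
      apply Finset.sum_congr rfl
      intro T _
      ring
    rw [e]
    have h1 : ∀ j ∈ J, ∑ k, (1 / (P k : ℝ)) * ∑ T ∈ famJ (ι := ι) J, ω T *
        (∏ i ∈ ({j} : Finset I), (if k ∈ T i then (1 : ℝ) else 0)) ≤ σ * Z := by
      intro j hj
      rw [hσdef, Finset.sum_mul]
      apply Finset.sum_le_sum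
      intro k _
      have hsub : ({j} : Finset I) ⊆ J := by
        intro x hx
        rw [Finset.mem_singleton] at hx
        rw [hx]
        exact hj
      have h2 := moment_le P hP J u hu0 hu _ hsub k
      rw [Finset.card_singleton, pow_one] at h2
      calc (1 / (P k : ℝ)) * ∑ T ∈ famJ (ι := ι) J, ω T *
        (∏ i ∈ ({j} : Finset I), (if k ∈ T i then (1 : ℝ) else 0)) ≤
          (1 / (P k : ℝ)) * (1 / (P k : ℝ) * ∏ i ∈ J, SS P (u i)) :=
            mul_le_mul_of_nonneg_left h2 (by positivity)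
        _ = 1 / (P k : ℝ) ^ 2 * Z := by
            rw [hZdef]
            ring
    refine le_trans (Finset.sum_le_sum h1) ?_
    rw [Finset.sum_const, nsmul_eq_mul]
    have hcard : ((J.card : ℕ) : ℝ) ≤ K := by
      rw [hKdef]
      exact_mod_cast Finset.card_le_univ J
    calc ((J.card : ℕ) : ℝ) * (σ * Z) ≤ K * (σ * Z) :=
          mul_le_mul_of_nonneg_right hcard (by positivity)
      _ = K * σ * Z := by ring
  have hC' : ∑ T ∈ famJ (ι := ι) J, ω T * (∑ j ∈ J, Real.log (nrm P (T j))) ≤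
      (1 / 8) * Real.log R * Z := by
    have e : ∑ T ∈ famJ (ι := ι) J, ω T * (∑ j ∈ J, Real.log (nrm P (T j))) =
      ∑ j ∈ J, SS P (fun b => u j b * Real.log b) / SS P (u j) * Z := by
      rw [Finset.sum_congr rfl (fun T _ => Finset.mul_sum _ _ _), Finset.sum_comm]
      apply Finset.sum_congr rfl
      intro j hj
      exact moment_log P J u (fun i _ => (hZpos i).ne') j hj
    rw [e, ← Finset.sum_mul]
    exact mul_le_mul_of_nonneg_right hC hZ0.le
  have hmain : Z ≤ ∑ T ∈ (famJ (ι := ι) J).filter (fun T => okT P J R T), ω T +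
      (K ^ 2 * σ * Z + 10 * K * (K * σ * Z) + (2 / Real.log R) * ((1 / 8) * Real.log R * Z)) := by
    have h1 : Z ≤ ∑ T ∈ famJ (ι := ι) J, ω T * ((if okT P J R T then 1 else 0) +
      ∑ p ∈ J.offDiag, ∑ k, (∏ i ∈ ({p.1, p.2} : Finset I), (if k ∈ T i then (1 : ℝ) else 0)) +
      10 * K *
        ∑ j ∈ J, ∑ k, (1 / (P k : ℝ)) * (∏ i ∈ ({j} : Finset I), (if k ∈ T i then (1 : ℝ) else 0)) +
      (2 / Real.log R) * ∑ j ∈ J, Real.log (nrm P (T j))) := by
      rw [← htot]
      apply Finset.sum_le_sum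
      intro T _
      have h2 := one_le_bad P hP0 J hJ R hR T
      calc ω T = ω T * 1 := (mul_one _).symm
        _ ≤ _ := mul_le_mul_of_nonneg_left h2 (hω0 T)
    have h2 : ∑ T ∈ famJ (ι := ι) J, ω T * ((if okT P J R T then 1 else 0) +
      ∑ p ∈ J.offDiag, ∑ k, (∏ i ∈ ({p.1, p.2} : Finset I), (if k ∈ T i then (1 : ℝ) else 0)) +
      10 * K *
        ∑ j ∈ J, ∑ k, (1 / (P k : ℝ)) * (∏ i ∈ ({j} : Finset I), (if k ∈ T i then (1 : ℝ) else 0)) +
      (2 / Real.log R) * ∑ j ∈ J, Real.log (nrm P (T j))) =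
      ∑ T ∈ (famJ (ι := ι) J).filter (fun T => okT P J R T), ω T +
      (∑ T ∈ famJ (ι := ι) J, ω T * (∑ p ∈ J.offDiag, ∑ k,
      (∏ i ∈ ({p.1, p.2} : Finset I), (if k ∈ T i then (1 : ℝ) else 0))) +
      10 * K * ∑ T ∈ famJ (ι := ι) J, ω T * (∑ j ∈ J, ∑ k, (1 / (P k : ℝ)) *
      (∏ i ∈ ({j} : Finset I), (if k ∈ T i then (1 : ℝ) else 0))) +
      (2 / Real.log R) * ∑ T ∈ famJ (ι := ι) J, ω T * (∑ j ∈ J, Real.log (nrm P (T j)))) := by
      rw [Finset.sum_filter, Finset.mul_sum, Finset.mul_sum, ← Finset.sum_add_distrib,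
        ← Finset.sum_add_distrib, ← Finset.sum_add_distrib]
      apply Finset.sum_congr rfl
      intro T _
      split_ifs <;> ring
    rw [h2] at h1
    have h3 : 10 * K * ∑ T ∈ famJ (ι := ι) J, ω T * (∑ j ∈ J, ∑ k, (1 / (P k : ℝ)) *
      (∏ i ∈ ({j} : Finset I), (if k ∈ T i then (1 : ℝ) else 0))) ≤ 10 * K * (K * σ * Z) :=
      mul_le_mul_of_nonneg_left hB (by positivity)
    have h4 : (2 / Real.log R) * ∑ T ∈ famJ (ι := ι) J, ω T * (∑ j ∈ J, Real.log (nrm P (T j))) ≤
      (2 / Real.log R) * ((1 / 8) * Real.log R * Z) :=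
      mul_le_mul_of_nonneg_left hC' (by positivity)
    linarith
  have hKσ : K ^ 2 * σ ≤ 1 / 50 := by
    have h1 : K ^ 2 * σ ≤ K ^ 2 * (1 / (50 * K ^ 2)) := mul_le_mul_of_nonneg_left hσ (by positivity)
    have h2 : K ^ 2 * (1 / (50 * K ^ 2)) = 1 / 50 := by field_simp
    linarith
  have hgood : (1 / 2) * Z ≤ ∑ T ∈ (famJ (ι := ι) J).filter (fun T => okT P J R T), ω T := by
    have e1 : K ^ 2 * σ * Z + 10 * K * (K * σ * Z) + (2 / Real.log R) * ((1 / 8) * Real.log R * Z) =
        11 * (K ^ 2 * σ * Z) + (1 / 4) * Z := by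
      have e2 : (2 / Real.log R) * ((1 / 8) * Real.log R * Z) = (1 / 4) * Z := by
        field_simp
        norm_num
      rw [e2]
      ring
    rw [e1] at hmain
    have h1 : K ^ 2 * σ * Z ≤ 1 / 50 * Z := mul_le_mul_of_nonneg_right hKσ hZ0.le
    nlinarith
  refine le_trans hgood ?_
  have hterm : ∀ s ∈ goodS P J R, (∏ i ∈ J, u i (lab P s i)) / tot P s = ω (toT s) := by
    intro s hs
    have hs' : (∀ k i, s k = some i → i ∈ J) := by
      unfold goodS at hs
      exact (Finset.mem_filter.mp hs).2.1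
    rw [tot_eq_J P J s hs', hω]
    simp only
    rw [Finset.prod_div_distrib, Nat.cast_prod]
    congr 1
    apply Finset.prod_congr rfl
    intro i _
    rw [lab_eq]
  rw [Finset.sum_congr rfl hterm, ← Finset.sum_image (f := ω) (g := toT)
    (fun a _ b _ h => toT_inj h)]
  apply Finset.sum_le_sum_of_subset_of_nonneg
  · intro T hT
    obtain ⟨hT1, hT2, hT3, hT4⟩ := Finset.mem_filter.mp hT
    obtain ⟨s, hs1, hs2⟩ := exists_toT J T hT1 hT2
    refine Finset.mem_image.mpr ⟨s, ?_, hs2⟩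
    unfold goodS
    refine Finset.mem_filter.mpr ⟨Finset.mem_univ _, hs1, ?_, ?_⟩
    · rw [tot_eq_J P J s hs1, hs2]
      exact hT3
    · rw [small_eq_J P J s hs1, hs2]
      exact hT4
  · intro T _ _
    exact hω0 T

end Pool.Agent.H21.MT
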