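import Pool.Agent.H21.MT.T1y

/-!
Fusion, strong form: if every infinite subset `J` of `A` contains an infinite member of `Ω` then `A`
has an infinite subset `B` all of whose subsets are limits of members of `Ω`.
-/

namespace Pool.Agent.H21.MT

open Finset Filter

/-- every pattern on `s` and every infinite subset `J'` of `J` extend to a member of `Ω` inside
`s ∪ J'` -/
def GoodB (Ω : Set (Set ℕ)) (s : Finset ℕ) (J : Set ℕ) : Prop :=
  ∀ F : Finset ℕ, F ⊆ s → ∀ J' : Set ℕ, J' ⊆ J → J'.Infinite →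
    ∃ ω ∈ Ω, ω ⊆ ↑s ∪ J' ∧ (∀ a ∈ s, a ∈ ω ↔ a ∈ F) ∧ (J' ∩ ω).Infinite

theorem goodB_step (Ω : Set (Set ℕ)) (s : Finset ℕ) (J : Set ℕ) (hJ : J.Infinite)
    (hgood : GoodB Ω s J) (hsJ : ∀ x ∈ J, ∀ a ∈ s, a < x) :
    ∃ x ∈ J, ∃ J' : Set ℕ, J' ⊆ J ∧ J'.Infinite ∧ (∀ y ∈ J', x < y) ∧
      GoodB Ω (insert x s) J' := by
  classical
  by_contra hcon
  -- one step
  have hstep : ∀ K : {K : Set ℕ // K ⊆ J ∧ K.Infinite}, ∃ (x : ℕ) (F : Finset ℕ)
      (K' : {K : Set ℕ // K ⊆ J ∧ K.Infinite}), x ∈ K.1 ∧ F ⊆ insert x s ∧ K'.1 ⊆ K.1 ∧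
        (∀ y ∈ K'.1, x < y) ∧
        ¬ ∃ ω ∈ Ω, ω ⊆ ↑(insert x s) ∪ K'.1 ∧ (∀ a ∈ insert x s, a ∈ ω ↔ a ∈ F) ∧
          (K'.1 ∩ ω).Infinite := by
    rintro ⟨K, hKJ, hK⟩
    obtain ⟨x, hx⟩ := hK.nonempty
    have hK2 : (K ∩ Set.Ioi x).Infinite := by
      intro hfin
      apply hK
      refine (hfin.union (Set.finite_Iic x)).subset ?_
      intro y hy
      by_cases hyx : y ≤ x
      · exact Or.inr hyx
      · exact Or.inl ⟨hy, not_le.mp hyx⟩
    have hng : ¬ GoodB Ω (insert x s) (K ∩ Set.Ioi x) := by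
      intro hg
      exact hcon ⟨x, hKJ hx, K ∩ Set.Ioi x, fun y hy => hKJ hy.1, hK2, fun y hy => hy.2, hg⟩
    unfold GoodB at hng
    push Not at hng
    obtain ⟨F, hF, J', hJ'K, hJ', hno⟩ := hng
    refine ⟨x, F, ⟨J', fun y hy => hKJ (hJ'K hy).1, hJ'⟩, hx, hF, fun y hy => (hJ'K hy).1,
      fun y hy => (hJ'K hy).2, ?_⟩
    rintro ⟨ω, hω, h1, h2, h3⟩
    exact h3 (hno ω hω h1 h2)
  choose xf Ff Kf h1 h2 h3 h4 h5 using hstep
  let K : ℕ → {K : Set ℕ // K ⊆ J ∧ K.Infinite} := fun n =>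
    Nat.rec ⟨J, subset_rfl, hJ⟩ (fun _ K => Kf K) n
  have hK : ∀ n, K (n + 1) = Kf (K n) := fun n => rfl
  have hmono : ∀ n m, n ≤ m → (K m).1 ⊆ (K n).1 := by
    intro n m hnm
    induction hnm with
    | refl => exact subset_rfl
    | step _ ih => exact (h3 _).trans ih
  set x : ℕ → ℕ := fun n => xf (K n) with hx
  have hxK : ∀ n m, n ≤ m → x m ∈ (K n).1 := fun n m hnm => hmono n m hnm (h1 _)
  have hxlt : ∀ n m, n < m → x n < x m := fun n m hnm => h4 (K n) _ (hxK (n + 1) m hnm)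
  have hxinj : Function.Injective x := by
    intro n m hnm
    rcases lt_trichotomy n m with h | h | h
    · exact absurd hnm (hxlt n m h).ne
    · exact h
    · exact absurd hnm (hxlt m n h).ne'
  have hxs : ∀ n, x n ∉ s := fun n hn => lt_irrefl _ (hsJ (x n) ((K n).2.1 (h1 _)) _ hn)
  -- pigeonhole
  have hpig : ∃ p : Finset ℕ × Prop, p.1 ⊆ s ∧
      {n : ℕ | Ff (K n) ∩ s = p.1 ∧ ((x n ∈ Ff (K n)) ↔ p.2)}.Infinite := by
    by_contra hno
    push Not at hno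
    have hfin : (⋃ p ∈ ((s.powerset ×ˢ ({True, False} : Finset Prop)) : Finset (Finset ℕ × Prop)),
        {n : ℕ | Ff (K n) ∩ s = p.1 ∧ ((x n ∈ Ff (K n)) ↔ p.2)}).Finite := by
      refine Set.Finite.biUnion (Finset.finite_toSet _) ?_
      intro p hp
      rw [Finset.mem_coe, Finset.mem_product] at hp
      exact hno p (Finset.mem_powerset.mp hp.1)
    refine Set.infinite_univ (hfin.subset ?_)
    intro n _
    rw [Set.mem_iUnion₂]
    refine ⟨(Ff (K n) ∩ s, x n ∈ Ff (K n)), ?_, rfl, Iff.rfl⟩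
    rw [Finset.mem_product]
    refine ⟨Finset.mem_powerset.mpr Finset.inter_subset_right, ?_⟩
    by_cases h : x n ∈ Ff (K n)
    · simp [h]
    · simp [h]
  obtain ⟨⟨F₀, ε⟩, hF₀, hI⟩ := hpig
  set I : Set ℕ := {n : ℕ | Ff (K n) ∩ s = F₀ ∧ ((x n ∈ Ff (K n)) ↔ ε)} with hIdef
  by_cases hε : ε
  · -- the first element of `ω`
    obtain ⟨ω, hω, hω0, hω1, hω2⟩ := hgood F₀ hF₀ (x '' I) (by
      rintro _ ⟨n, _, rfl⟩
      exact (K n).2.1 (h1 _)) (hI.image hxinj.injOn)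
    have hex : ∃ n, n ∈ I ∧ x n ∈ ω := by
      obtain ⟨_, ⟨n, hn, rfl⟩, hnω⟩ := hω2.nonempty
      exact ⟨n, hn, hnω⟩
    obtain ⟨hnI, hnω⟩ := Nat.find_spec hex
    have hmin : ∀ m ∈ I, x m ∈ ω → Nat.find hex ≤ m := fun m hm hmω => Nat.find_min' hex ⟨hm, hmω⟩
    set n := Nat.find hex with hn
    apply h5 (K n)
    refine ⟨ω, hω, ?_, ?_, ?_⟩
    · intro a ha
      rcases hω0 ha with h6 | ⟨m, hm, rfl⟩
      · left
        rw [Finset.coe_insert]
        exact Set.mem_insert_of_mem _ h6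
      · have h7 := hmin m hm ha
        rcases Nat.lt_or_eq_of_le h7 with h8 | h8
        · right
          exact hxK (n + 1) m h8
        · left
          rw [Finset.coe_insert, ← h8]
          exact Set.mem_insert _ _
    · intro a ha
      rw [Finset.mem_insert] at ha
      rcases ha with rfl | ha
      · have h6 : x n ∈ Ff (K n) := hnI.2.2 hε
        exact ⟨fun _ => h6, fun _ => hnω⟩
      · rw [hω1 a ha, ← hnI.1, Finset.mem_inter]
        exact ⟨fun h => h.1, fun h => ⟨h, ha⟩⟩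
    · refine (hω2.sdiff (Set.finite_Iic (x n))).mono ?_
      rintro _ ⟨⟨⟨m, hm, rfl⟩, hmω⟩, hmn⟩
      refine ⟨?_, hmω⟩
      have h6 : n < m := by
        by_contra h7
        rcases Nat.lt_or_eq_of_le (not_lt.mp h7) with h8 | h8
        · exact hmn (hxlt m n h8).le
        · exact hmn (by rw [h8]; exact Set.mem_Iic.mpr le_rfl)
      exact hxK (n + 1) m h6
  · -- drop the first element
    obtain ⟨n, hnI⟩ := hI.nonempty
    have hI2 : (I ∩ Set.Ioi n).Infinite := by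
      intro hfin
      apply hI
      refine (hfin.union (Set.finite_Iic n)).subset ?_
      intro y hy
      by_cases hyx : y ≤ n
      · exact Or.inr hyx
      · exact Or.inl ⟨hy, not_le.mp hyx⟩
    obtain ⟨ω, hω, hω0, hω1, hω2⟩ := hgood F₀ hF₀ (x '' (I ∩ Set.Ioi n)) (by
      rintro _ ⟨n, _, rfl⟩
      exact (K n).2.1 (h1 _)) (hI2.image hxinj.injOn)
    have hnω : x n ∉ ω := by
      intro h6
      rcases hω0 h6 with h7 | ⟨m, ⟨_, hm⟩, hmn⟩
      · exact hxs n h7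
      · rw [hxinj hmn] at hm
        exact lt_irrefl _ (Set.mem_Ioi.mp hm)
    apply h5 (K n)
    refine ⟨ω, hω, ?_, ?_, ?_⟩
    · intro a ha
      rcases hω0 ha with h6 | ⟨m, ⟨_, hm⟩, rfl⟩
      · left
        rw [Finset.coe_insert]
        exact Set.mem_insert_of_mem _ h6
      · right
        exact hxK (n + 1) m hm
    · intro a ha
      rw [Finset.mem_insert] at ha
      rcases ha with rfl | ha
      · have h6 : x n ∉ Ff (K n) := fun h => hε (hnI.2.1 h)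
        exact ⟨fun h => absurd h hnω, fun h => absurd h h6⟩
      · rw [hω1 a ha, ← hnI.1, Finset.mem_inter]
        exact ⟨fun h => h.1, fun h => ⟨h, ha⟩⟩
    · refine hω2.mono ?_
      rintro _ ⟨⟨m, ⟨_, hm⟩, rfl⟩, hmω⟩
      exact ⟨hxK (n + 1) m hm, hmω⟩

theorem fusionB (Ω : Set (Set ℕ)) (A : Set ℕ) (hA : A.Infinite)
    (hΩ : ∀ J : Set ℕ, J ⊆ A → J.Infinite → ∃ ω ∈ Ω, ω ⊆ J ∧ ω.Infinite) :
    ∃ B : Set ℕ, B ⊆ A ∧ B.Infinite ∧ ∀ F : Set ℕ, F ⊆ B → ∀ M : ℕ,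
      ∃ ω ∈ Ω, ∀ a ≤ M, a ∈ ω ↔ a ∈ F := by
  classical
  have hstep : ∀ t : {t : Finset ℕ × Set ℕ // t.2 ⊆ A ∧ t.2.Infinite ∧ GoodB Ω t.1 t.2 ∧
      ∀ x ∈ t.2, ∀ a ∈ t.1, a < x}, ∃ (x : ℕ) (t' : {t : Finset ℕ × Set ℕ // t.2 ⊆ A ∧
        t.2.Infinite ∧ GoodB Ω t.1 t.2 ∧ ∀ x ∈ t.2, ∀ a ∈ t.1, a < x}),
        x ∈ t.1.2 ∧ t'.1.1 = insert x t.1.1 ∧ t'.1.2 ⊆ t.1.2 := by
    rintro ⟨⟨s, J⟩, hJA, hJ, hg, hsJ⟩
    obtain ⟨x, hx, J', hJ'J, hJ', hxJ', hg'⟩ := goodB_step Ω s J hJ hg hsJ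
    refine ⟨x, ⟨⟨insert x s, J'⟩, hJ'J.trans hJA, hJ', hg', ?_⟩, hx, rfl, hJ'J⟩
    intro y hy a ha
    rcases Finset.mem_insert.mp ha with rfl | ha
    · exact hxJ' y hy
    · exact hsJ y (hJ'J hy) a ha
  choose xf tf h1 h2 h3 using hstep
  let t : ℕ → {t : Finset ℕ × Set ℕ // t.2 ⊆ A ∧ t.2.Infinite ∧ GoodB Ω t.1 t.2 ∧
      ∀ x ∈ t.2, ∀ a ∈ t.1, a < x} := fun n =>
    Nat.rec ⟨⟨∅, A⟩, subset_rfl, hA, by
      intro F hF J' hJ' hJ'inf
      obtain ⟨ω, hω, h1, h2⟩ := hΩ J' hJ' hJ'inf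
      refine ⟨ω, hω, fun a ha => Or.inr (h1 ha), by simp, ?_⟩
      rw [Set.inter_eq_self_of_subset_right h1]
      exact h2, by simp⟩ (fun _ t => tf t) n
  have ht : ∀ n, t (n + 1) = tf (t n) := fun n => rfl
  have hsub : ∀ n m, n ≤ m → (t n).1.1 ⊆ (t m).1.1 := by
    intro n m hnm
    induction hnm with
    | refl => exact subset_rfl
    | step _ ih =>
      refine ih.trans ?_
      rw [Nat.succ_eq_add_one, ht, h2]
      exact Finset.subset_insert _ _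
  have hmem : ∀ n, xf (t n) ∈ (t (n + 1)).1.1 := by
    intro n
    rw [ht, h2]
    exact Finset.mem_insert_self _ _
  have hlt : ∀ n m, n < m → xf (t n) < xf (t m) := by
    intro n m hnm
    exact (t m).2.2.2.2 _ (h1 _) _ (hsub (n + 1) m hnm (hmem n))
  have hge : ∀ n, n ≤ xf (t n) := by
    intro n
    induction n with
    | zero => exact Nat.zero_le _
    | succ n ih =>
      have := hlt n (n + 1) (Nat.lt_succ_self n)
      omega
  refine ⟨Set.range (fun n => xf (t n)), ?_, ?_, ?_⟩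
  · rintro _ ⟨n, rfl⟩
    exact (t n).2.1 (h1 _)
  · refine Set.infinite_range_of_injective ?_
    intro n m hnm
    rcases lt_trichotomy n m with h | h | h
    · exact absurd hnm (hlt n m h).ne
    · exact h
    · exact absurd hnm (hlt m n h).ne'
  · intro F hF M
    set n := M + 1 with hn
    obtain ⟨ω, hω, h4, h5, -⟩ := (t n).2.2.2.1 ((t n).1.1.filter (fun a => a ∈ F))
      (Finset.filter_subset _ _) (t n).1.2 subset_rfl (t n).2.2.1
    refine ⟨ω, hω, ?_⟩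
    intro a haM
    have hJ : ∀ y ∈ (t n).1.2, M < y := by
      intro y hy
      have h6 := (t n).2.2.2.2 y hy (xf (t M)) (hmem M)
      have h7 := hge M
      omega
    constructor
    · intro ha
      rcases h4 ha with h6 | h6
      · have h7 := (h5 a h6).1 ha
        exact (Finset.mem_filter.1 h7).2
      · exact absurd (hJ a h6) (by omega)
    · intro ha
      obtain ⟨m, hm⟩ := hF ha
      have hm' : xf (t m) = a := hm
      have hmM : m ≤ M := by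
        have := hge m
        omega
      have h6 : a ∈ (t n).1.1 := by
        rw [← hm']
        exact hsub (m + 1) n (by omega) (hmem m)
      exact (h5 a h6).2 (Finset.mem_filter.2 ⟨h6, ha⟩)

/-- Theorem S, strong form: all subsets of `B` are limits of translates of the primes of colour `i`. -/
theorem shatter_strong (A : Set ℕ) (hA : A.Infinite) (r : ℕ) (c : ℕ → Fin r) :
    ∃ (i : Fin r) (B : Set ℕ), B ⊆ A ∧ B.Infinite ∧ ∀ F : Set ℕ, F ⊆ B → ∀ M : ℕ,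
      {N : ℕ | ∀ a ≤ M, ((N + a).Prime ∧ c (N + a) = i) ↔ a ∈ F}.Infinite := by
  classical
  set Ω : Fin r → Set (Set ℕ) := fun i =>
    {ω | ∀ M : ℕ, {N : ℕ | ∀ a ≤ M, ((N + a).Prime ∧ c (N + a) = i) ↔ a ∈ ω}.Infinite} with hΩ
  have hkey : ∃ i : Fin r, ∃ A' : Set ℕ, A' ⊆ A ∧ A'.Infinite ∧ ∀ J : Set ℕ, J ⊆ A' → J.Infinite →
      ∃ ω ∈ Ω i, ω ⊆ J ∧ ω.Infinite := by
    by_contra hcon
    push Not at hcon
    have hind : ∀ S : Finset (Fin r), ∃ J : Set ℕ, J ⊆ A ∧ J.Infinite ∧ ∀ i ∈ S,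
        ∀ ω ∈ Ω i, ω ⊆ J → ω.Finite := by
      intro S
      induction S using Finset.induction_on with
      | empty => exact ⟨A, subset_rfl, hA, by simp⟩
      | insert i S _ ih =>
        obtain ⟨J, hJA, hJ, hJS⟩ := ih
        obtain ⟨J', hJ'J, hJ', hno⟩ := hcon i J hJA hJ
        refine ⟨J', hJ'J.trans hJA, hJ', ?_⟩
        intro i' hi' ω hω hωJ
        rcases Finset.mem_insert.mp hi' with rfl | hi'
        · exact hno ω hω hωJ
        · exact hJS i' hi' ω hω (hωJ.trans hJ'J)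
    obtain ⟨J, hJA, hJ, hJS⟩ := hind univ
    obtain ⟨B, κ, i, hBJ, hB, hinf, -⟩ := t1y J hJ r c (fun n => (n : ℝ))
      tendsto_natCast_atTop_atTop
    refine hinf (hJS i (mem_univ _) {a ∈ B | κ a = i} ?_ (fun a ha => hBJ ha.1))
    intro M
    refine (hB M).mono ?_
    intro N hN a ha
    obtain ⟨h1, h2⟩ := hN a ha
    constructor
    · rintro ⟨h3, h4⟩
      have h5 := h1.1 h3
      exact ⟨h5, by rw [← h2 h5]; exact h4⟩
    · rintro ⟨h3, h4⟩
      exact ⟨h1.2 h3, by rw [h2 h3]; exact h4⟩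
  obtain ⟨i, A', hA'A, hA', hsplit⟩ := hkey
  obtain ⟨B, hBA, hB, hsh⟩ := fusionB (Ω i) A' hA' hsplit
  refine ⟨i, B, hBA.trans hA'A, hB, ?_⟩
  intro F hF M
  obtain ⟨ω, hω, h⟩ := hsh F hF M
  refine (hω M).mono ?_
  intro N hN a ha
  rw [hN a ha, h a ha]

end Pool.Agent.H21.MT
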