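import Pool.Agent.H21.MT.Lab

/-!
[H21 MT HSUM]  The harmonic sum over squarefree numbers coprime to `W`.

Proof.  Let `V = φ(W)/W`, `y ≤ R`.  The `nrm T`, `T ⊆ ` primes `≤ R` not dividing `W`, with
`nrm T ≤ y`, are exactly the squarefree `n ≤ y` coprime to `W` (each once), so
`HH = ∑_{n ≤ y squarefree, (n,W)=1} 1/n`.
(1) `|∑_{n ≤ y, (n,W)=1} 1/n - V log y| ≤ C_W`: the number of `n ≤ u` coprime to `W` is `V u + O(W)`
    (`Nat.filter_coprime_Ico_eq_totient` on complete periods), partial summation, and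
    `∑_{n ≤ y} 1/n = log y + O(1)`.
(2) upper bound: drop squarefree.
(3) lower bound: every `n ≤ y` coprime to `W` is `a m^2` with `a` squarefree (`Nat.sq_mul_squarefree`),
    `a ≤ y` coprime to `W`, and `m = 1` or all prime factors of `m` are `≥ D`, so `m ≥ D`; hence
    `∑_{n ≤ y, (n,W)=1} 1/n ≤ HH * (1 + ∑_{m ≥ D} 1/m^2) ≤ HH * (1 + 2/D)` (`D ≥ 2`), and
    `1/(1+2/D) ≥ 1 - 2/D`.  With `1 - 2/D ≥ 97/100` for `D ≥ 100`; if `V log y - C < 0` the claim is
    trivial.
-/

set_option linter.unusedSectionVars false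

namespace Pool.Agent.H21.MT

open Finset

/-- the primes up to `R` not dividing `W` -/
noncomputable def PSet (W : ℕ) (R : ℝ) : Finset ℕ :=
  (Icc 1 ⌊R⌋₊).filter (fun p => p.Prime ∧ ¬ p ∣ W)

/-- index type of these primes -/
abbrev PIdx (W : ℕ) (R : ℝ) : Type := {p : ℕ // p ∈ PSet W R}

/-- the primes themselves -/
def Pv (W : ℕ) (R : ℝ) : PIdx W R → ℕ := fun p => p.1

theorem Pv_prime (W : ℕ) (R : ℝ) (k : PIdx W R) : (Pv W R k).Prime :=
  (Finset.mem_filter.mp k.2).2.1

theorem Pv_not_dvd (W : ℕ) (R : ℝ) (k : PIdx W R) : ¬ Pv W R k ∣ W :=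
  (Finset.mem_filter.mp k.2).2.2

theorem Pv_inj (W : ℕ) (R : ℝ) : Function.Injective (Pv W R) := Subtype.val_injective

/-- numbers up to `N` coprime to `W` -/
noncomputable def hsA (W N : ℕ) : Finset ℕ := (Icc 1 N).filter (fun n => W.Coprime n)

theorem hs_abel (c : ℕ → ℝ) (N : ℕ) :
    ∑ n ∈ Icc 1 N, c n / n = (∑ n ∈ Icc 1 N, c n) / (N + 1) +
      ∑ n ∈ Icc 1 N, (∑ m ∈ Icc 1 n, c m) / (n * (n + 1)) := by
  induction N with
  | zero => simp
  | succ N ih =>
    rw [Finset.sum_Icc_succ_top (by omega), Finset.sum_Icc_succ_top (by omega) (fun n => c n),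
      Finset.sum_Icc_succ_top (by omega) (fun n => (∑ m ∈ Icc 1 n, c m) / ((n : ℝ) * (n + 1))), ih,
      Finset.sum_Icc_succ_top (by omega) (fun n => c n)]
    push_cast
    have h1 : ((N : ℝ) + 1) ≠ 0 := by positivity
    have h2 : ((N : ℝ) + 1 + 1) ≠ 0 := by positivity
    field_simp
    ring

theorem hs_tel (N : ℕ) : ∑ n ∈ Icc 1 N, 1 / ((n : ℝ) * (n + 1)) = 1 - 1 / (N + 1) := by
  induction N with
  | zero => simp
  | succ N ih =>
    rw [Finset.sum_Icc_succ_top (by omega), ih]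
    push_cast
    have h1 : ((N : ℝ) + 1) ≠ 0 := by positivity
    have h2 : ((N : ℝ) + 1 + 1) ≠ 0 := by positivity
    field_simp
    ring

theorem hs_abel_bound (c : ℕ → ℝ) (B : ℝ) (hB : ∀ n, |∑ m ∈ Icc 1 n, c m| ≤ B) (N : ℕ) :
    |∑ n ∈ Icc 1 N, c n / n| ≤ B := by
  rw [hs_abel]
  have h0 : ((N : ℝ) + 1) > 0 := by positivity
  have h1 : |(∑ n ∈ Icc 1 N, c n) / ((N : ℝ) + 1)| ≤ B / (N + 1) := by
    rw [abs_div, abs_of_pos h0]
    exact div_le_div_of_nonneg_right (hB N) h0.le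
  have h2 : |∑ n ∈ Icc 1 N, (∑ m ∈ Icc 1 n, c m) / ((n : ℝ) * (n + 1))| ≤
      B * (1 - 1 / (N + 1)) := by
    rw [← hs_tel, Finset.mul_sum]
    refine (Finset.abs_sum_le_sum_abs _ _).trans (Finset.sum_le_sum fun n hn => ?_)
    rw [Finset.mem_Icc] at hn
    have h3 : (0 : ℝ) < (n : ℝ) * (n + 1) := by
      have : (1 : ℝ) ≤ n := by exact_mod_cast hn.1
      positivity
    rw [abs_div, abs_of_pos h3, mul_one_div]
    exact div_le_div_of_nonneg_right (hB n) h3.le
  refine (abs_add_le _ _).trans ?_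
  calc |(∑ n ∈ Icc 1 N, c n) / ((N : ℝ) + 1)| +
      |∑ n ∈ Icc 1 N, (∑ m ∈ Icc 1 n, c m) / ((n : ℝ) * (n + 1))| ≤
      B / (N + 1) + B * (1 - 1 / (N + 1)) := add_le_add h1 h2
    _ = B := by field_simp; ring

theorem hs_count (W : ℕ) (hW : 0 < W) (N : ℕ) :
    |((hsA W N).card : ℝ) - (W.totient : ℝ) / W * N| ≤ W := by
  have hW0 : (0 : ℝ) < W := by exact_mod_cast hW
  have hV1 : (W.totient : ℝ) / W ≤ 1 := by
    rw [div_le_one hW0]; exact_mod_cast Nat.totient_le W
  have hV0 : 0 ≤ (W.totient : ℝ) / W := by positivity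
  induction N using Nat.strong_induction_on with
  | _ N ih =>
    rcases Nat.lt_or_ge N W with h | h
    · have h1 : (hsA W N).card ≤ N := by
        refine (Finset.card_filter_le _ _).trans ?_
        simp
      have h1' : ((hsA W N).card : ℝ) ≤ N := by exact_mod_cast h1
      have h2 : (W.totient : ℝ) / W * N ≤ N := by
        calc (W.totient : ℝ) / W * N ≤ 1 * N := by gcongr
          _ = N := one_mul _
      have h3 : 0 ≤ (W.totient : ℝ) / W * N := by positivity
      have h4 : (0 : ℝ) ≤ ((hsA W N).card : ℝ) := by positivity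
      have h5 : (N : ℝ) ≤ W := by exact_mod_cast h.le
      rw [abs_le]
      constructor <;> linarith
    · obtain ⟨M, rfl⟩ : ∃ M, N = M + W := ⟨N - W, by omega⟩
      have h1 : hsA W (M + W) = hsA W M ∪ (Ico (M + 1) (M + 1 + W)).filter (fun n => W.Coprime n) := by
        unfold hsA
        rw [← Finset.filter_union]
        congr 1
        ext n
        simp only [Finset.mem_Icc, Finset.mem_union, Finset.mem_Ico]
        omega
      have hd : Disjoint (hsA W M) ((Ico (M + 1) (M + 1 + W)).filter (fun n => W.Coprime n)) := by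
        unfold hsA
        rw [Finset.disjoint_left]
        intro n hn hn2
        rw [Finset.mem_filter, Finset.mem_Icc] at hn
        rw [Finset.mem_filter, Finset.mem_Ico] at hn2
        omega
      have h2 := ih M (by omega)
      rw [h1, Finset.card_union_of_disjoint hd, Nat.filter_coprime_Ico_eq_totient]
      push_cast
      have h3 : (W.totient : ℝ) / W * ((M : ℝ) + W) = (W.totient : ℝ) / W * M + W.totient := by
        rw [mul_add, div_mul_cancel₀ _ hW0.ne']
      rw [h3]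
      have h4 : ((hsA W M).card : ℝ) + W.totient - ((W.totient : ℝ) / W * M + W.totient) =
          ((hsA W M).card : ℝ) - (W.totient : ℝ) / W * M := by ring
      rw [h4]
      exact h2

theorem hs_sum (W : ℕ) (hW : 0 < W) (y : ℝ) (hy : 1 ≤ y) :
    |∑ n ∈ hsA W ⌊y⌋₊, (1 : ℝ) / n - (W.totient : ℝ) / W * Real.log y| ≤ W + 1 := by
  set N := ⌊y⌋₊ with hN
  set V : ℝ := (W.totient : ℝ) / W with hV
  have hW0 : (0 : ℝ) < W := by exact_mod_cast hW
  have hV1 : V ≤ 1 := by
    rw [hV, div_le_one hW0]; exact_mod_cast Nat.totient_le W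
  have hV0 : 0 ≤ V := by positivity
  have h1 := hs_abel_bound (fun n => (if W.Coprime n then (1 : ℝ) else 0) - V) W (fun n => by
    have h2 : ∑ m ∈ Icc 1 n, ((if W.Coprime m then (1 : ℝ) else 0) - V) =
        ((hsA W n).card : ℝ) - V * n := by
      rw [Finset.sum_sub_distrib, Finset.sum_boole]
      unfold hsA
      simp only [Finset.sum_const, Nat.card_Icc, Nat.add_sub_cancel, nsmul_eq_mul]
      ring
    rw [h2]
    exact hs_count W hW n) N
  have h3 : ∑ n ∈ Icc 1 N, ((if W.Coprime n then (1 : ℝ) else 0) - V) / n =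
      ∑ n ∈ hsA W N, (1 : ℝ) / n - V * ∑ n ∈ Icc 1 N, (1 : ℝ) / n := by
    unfold hsA
    rw [Finset.sum_filter, Finset.mul_sum, ← Finset.sum_sub_distrib]
    refine Finset.sum_congr rfl fun n _ => ?_
    split_ifs <;> ring
  rw [h3] at h1
  have h4 : ∑ n ∈ Icc 1 N, (1 : ℝ) / n = harmonic N := by
    rw [harmonic_eq_sum_Icc]
    push_cast
    refine Finset.sum_congr rfl fun n _ => ?_
    rw [one_div]
  have hy0 : 0 < y := by linarith
  have hN1 : 1 ≤ N := by
    rw [hN]; exact Nat.one_le_iff_ne_zero.mpr (Nat.floor_pos.mpr hy).ne'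
  have h5 := log_add_one_le_harmonic N
  have h6 := harmonic_le_one_add_log N
  have h7 : Real.log y ≤ Real.log ((N + 1 : ℕ) : ℝ) := by
    refine Real.log_le_log hy0 ?_
    push_cast
    exact (Nat.lt_floor_add_one y).le
  have h8 : Real.log (N : ℝ) ≤ Real.log y :=
    Real.log_le_log (by exact_mod_cast hN1) (Nat.floor_le hy0.le)
  rw [h4] at h1
  have h9 : 0 ≤ (harmonic N : ℝ) - Real.log y := by linarith
  have h10 : (harmonic N : ℝ) - Real.log y ≤ 1 := by linarith
  have h11 : 0 ≤ V * ((harmonic N : ℝ) - Real.log y) := mul_nonneg hV0 h9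
  have h12 : V * ((harmonic N : ℝ) - Real.log y) ≤ 1 := by
    calc V * ((harmonic N : ℝ) - Real.log y) ≤ 1 * 1 := mul_le_mul hV1 h10 h9 (by norm_num)
      _ = 1 := one_mul 1
  rw [mul_sub] at h11 h12
  rw [abs_le] at h1 ⊢
  constructor <;> linarith [h1.1, h1.2]

theorem hs_nrm (W : ℕ) (R : ℝ) (T : Finset (PIdx W R)) :
    nrm (Pv W R) T = ∏ p ∈ T.map (Function.Embedding.subtype _), p := by
  unfold nrm
  rw [Finset.prod_map]
  rfl

theorem hs_HH (W : ℕ) (R y : ℝ) (hy : 1 ≤ y) (hyR : y ≤ R) :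
    HH (Pv W R) y = ∑ n ∈ (hsA W ⌊y⌋₊).filter Squarefree, (1 : ℝ) / n := by
  classical
  unfold HH
  have hpr : ∀ T : Finset (PIdx W R), ∀ p ∈ T.map (Function.Embedding.subtype _), p.Prime := by
    intro T p hp
    rw [Finset.mem_map] at hp
    obtain ⟨k, _, rfl⟩ := hp
    exact Pv_prime W R k
  refine Finset.sum_bij (fun T _ => nrm (Pv W R) T) ?_ ?_ ?_ ?_
  · intro T hT
    rw [Finset.mem_filter] at hT
    rw [Finset.mem_filter]
    unfold hsA
    rw [Finset.mem_filter, Finset.mem_Icc]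
    have hpos : 0 < nrm (Pv W R) T := nrm_pos (fun k => (Pv_prime W R k).pos) T
    refine ⟨⟨⟨hpos, Nat.le_floor hT.2⟩, ?_⟩, ?_⟩
    · unfold nrm
      refine Nat.Coprime.prod_right fun k _ => ?_
      exact ((Nat.Prime.coprime_iff_not_dvd (Pv_prime W R k)).mpr (Pv_not_dvd W R k)).symm
    · rw [hs_nrm]
      refine Finset.squarefree_prod_of_pairwise_isCoprime ?_ ?_
      · intro p hp q hq hpq
        have hp' := hpr T p hp
        have hq' := hpr T q hq
        exact Nat.coprime_iff_isRelPrime.mp ((Nat.coprime_primes hp' hq').mpr hpq)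
      · intro p hp
        exact (hpr T p hp).prime.squarefree
  · intro T hT T' hT' h
    have h1 : (∏ p ∈ T.map (Function.Embedding.subtype _), p).primeFactors =
        (∏ p ∈ T'.map (Function.Embedding.subtype _), p).primeFactors := by
      rw [← hs_nrm, ← hs_nrm, h]
    rw [Nat.primeFactors_prod (hpr T), Nat.primeFactors_prod (hpr T')] at h1
    exact Finset.map_injective _ h1
  · intro n hn
    rw [Finset.mem_filter] at hn
    unfold hsA at hn
    rw [Finset.mem_filter, Finset.mem_Icc] at hn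
    obtain ⟨⟨⟨h1, h2⟩, h3⟩, h4⟩ := hn
    have h5 : (n : ℝ) ≤ y := (Nat.le_floor_iff (by linarith)).mp h2
    have hsub : ∀ p ∈ n.primeFactors, p ∈ PSet W R := by
      intro p hp
      have hpp := Nat.prime_of_mem_primeFactors hp
      have hpd := Nat.dvd_of_mem_primeFactors hp
      unfold PSet
      rw [Finset.mem_filter, Finset.mem_Icc]
      refine ⟨⟨hpp.one_lt.le, ?_⟩, hpp, ?_⟩
      · refine Nat.le_floor ?_
        have : (p : ℝ) ≤ n := by exact_mod_cast Nat.le_of_dvd (by omega) hpd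
        linarith
      · intro h
        have := Nat.Coprime.eq_one_of_dvd (Nat.Coprime.coprime_dvd_left h h3) hpd
        exact hpp.one_lt.ne' this
    have hmap : (n.primeFactors.subtype (fun p => p ∈ PSet W R)).map
        (Function.Embedding.subtype _) = n.primeFactors := by
      rw [Finset.subtype_map, Finset.filter_true_of_mem hsub]
    have hn : nrm (Pv W R) (n.primeFactors.subtype (fun p => p ∈ PSet W R)) = n := by
      rw [hs_nrm, hmap]
      exact Nat.prod_primeFactors_of_squarefree h4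
    refine ⟨n.primeFactors.subtype (fun p => p ∈ PSet W R), ?_, hn⟩
    rw [Finset.mem_filter, hn]
    exact ⟨Finset.mem_univ _, h5⟩
  · intro T _
    rfl

theorem hs_sq_tail (D N : ℕ) (hD : 1 ≤ D) :
    ∑ m ∈ Icc D N, 1 / (m : ℝ) ^ 2 ≤ 2 / (D : ℝ) := by
  have h := sum_Ioo_inv_sq_le (α := ℝ) (D - 1) (N + 1)
  have h1 : Ioo (D - 1) (N + 1) = Icc D N := by
    ext m
    simp only [Finset.mem_Ioo, Finset.mem_Icc]
    omega
  rw [h1] at h
  have h2 : (((D - 1 : ℕ) : ℝ) + 1) = D := by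
    rw [Nat.cast_sub hD]; push_cast; ring
  rw [h2] at h
  refine le_trans (le_of_eq ?_) h
  refine Finset.sum_congr rfl fun m _ => ?_
  rw [one_div]

theorem hs_lower (W D N : ℕ) (hD : 2 ≤ D) (hDW : ∀ p : ℕ, p.Prime → p < D → p ∣ W) :
    ∑ n ∈ hsA W N, (1 : ℝ) / n ≤
      (∑ n ∈ (hsA W N).filter Squarefree, (1 : ℝ) / n) * (1 + 2 / (D : ℝ)) := by
  classical
  have hex : ∀ n : ℕ, ∃ x : ℕ × ℕ, x.2 ^ 2 * x.1 = n ∧ Squarefree x.1 := by
    intro n
    obtain ⟨a, b, h1, h2⟩ := Nat.sq_mul_squarefree n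
    exact ⟨(a, b), h1, h2⟩
  choose g hg1 hg2 using hex
  have hinj : Set.InjOn g (hsA W N) := by
    intro a _ b _ h
    rw [← hg1 a, ← hg1 b, h]
  have hval : ∀ n, (1 : ℝ) / n = 1 / ((g n).1 : ℝ) * (1 / ((g n).2 : ℝ) ^ 2) := by
    intro n
    conv_lhs => rw [← hg1 n]
    push_cast
    rw [one_div_mul_one_div, mul_comm]
  calc ∑ n ∈ hsA W N, (1 : ℝ) / n =
      ∑ n ∈ hsA W N, 1 / ((g n).1 : ℝ) * (1 / ((g n).2 : ℝ) ^ 2) :=
        Finset.sum_congr rfl fun n _ => hval n
    _ = ∑ x ∈ (hsA W N).image g, 1 / (x.1 : ℝ) * (1 / (x.2 : ℝ) ^ 2) := by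
        rw [Finset.sum_image hinj]
    _ ≤ ∑ x ∈ ((hsA W N).filter Squarefree) ×ˢ (insert 1 (Icc D N)),
        1 / (x.1 : ℝ) * (1 / (x.2 : ℝ) ^ 2) := by
        refine Finset.sum_le_sum_of_subset_of_nonneg ?_ (fun _ _ _ => by positivity)
        intro x hx
        rw [Finset.mem_image] at hx
        obtain ⟨n, hn, rfl⟩ := hx
        unfold hsA at hn
        rw [Finset.mem_filter, Finset.mem_Icc] at hn
        obtain ⟨⟨h1, h2⟩, h3⟩ := hn
        have ha : (g n).1 ∣ n := Dvd.intro_left _ (hg1 n)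
        have hb2 : (g n).2 ^ 2 ∣ n := Dvd.intro _ (hg1 n)
        have hb : (g n).2 ∣ n := (dvd_pow_self _ two_ne_zero).trans hb2
        have ha0 : 0 < (g n).1 := Nat.pos_of_dvd_of_pos ha (by omega)
        have hb0 : 0 < (g n).2 := Nat.pos_of_dvd_of_pos hb (by omega)
        have haN : (g n).1 ≤ N := (Nat.le_of_dvd (by omega) ha).trans h2
        have hbN : (g n).2 ≤ N := (Nat.le_of_dvd (by omega) hb).trans h2
        rw [Finset.mem_product, Finset.mem_filter, Finset.mem_insert, Finset.mem_Icc]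
        refine ⟨⟨?_, hg2 n⟩, ?_⟩
        · unfold hsA
          rw [Finset.mem_filter, Finset.mem_Icc]
          exact ⟨⟨ha0, haN⟩, Nat.Coprime.coprime_dvd_right ha h3⟩
        · by_cases hb1 : (g n).2 = 1
          · exact Or.inl hb1
          · refine Or.inr ⟨?_, hbN⟩
            obtain ⟨p, hp, hpd⟩ := Nat.exists_prime_and_dvd hb1
            have hpD : D ≤ p := by
              by_contra hlt
              have h4 := hDW p hp (by omega)
              have h5 := Nat.Coprime.eq_one_of_dvd (Nat.Coprime.coprime_dvd_left h4 h3)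
                (hpd.trans hb)
              exact hp.one_lt.ne' h5
            exact hpD.trans (Nat.le_of_dvd hb0 hpd)
    _ = (∑ n ∈ (hsA W N).filter Squarefree, (1 : ℝ) / n) *
        ∑ m ∈ insert 1 (Icc D N), 1 / (m : ℝ) ^ 2 := by
        rw [Finset.sum_product, Finset.sum_mul_sum]
    _ ≤ _ := by
        refine mul_le_mul_of_nonneg_left ?_ (Finset.sum_nonneg fun _ _ => by positivity)
        rw [Finset.sum_insert (by rw [Finset.mem_Icc]; omega)]
        have := hs_sq_tail D N (by omega)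
        norm_num
        norm_num at this
        linarith

theorem hsum (W D : ℕ) (hW : 0 < W) (hD : 100 ≤ D) (hDW : ∀ p : ℕ, p.Prime → p < D → p ∣ W) :
    ∃ C : ℝ, 0 < C ∧ ∀ R y : ℝ, 1 ≤ y → y ≤ R →
      97 / 100 * ((W.totient : ℝ) / W * Real.log y - C) ≤ HH (Pv W R) y ∧
      HH (Pv W R) y ≤ (W.totient : ℝ) / W * Real.log y + C := by
  refine ⟨W + 1, by positivity, fun R y hy hyR => ?_⟩
  have h1 := hs_sum W hW y hy
  have h2 := hs_HH W R y hy hyR
  have h3 := hs_lower W D ⌊y⌋₊ (by omega) hDW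
  rw [← h2] at h3
  have hsub : HH (Pv W R) y ≤ ∑ n ∈ hsA W ⌊y⌋₊, (1 : ℝ) / n := by
    rw [h2]
    exact Finset.sum_le_sum_of_subset_of_nonneg (Finset.filter_subset _ _)
      (fun _ _ _ => by positivity)
  have hH0 : 0 ≤ HH (Pv W R) y := by
    unfold HH
    exact Finset.sum_nonneg fun _ _ => by positivity
  have hD' : (100 : ℝ) ≤ D := by exact_mod_cast hD
  have hD2 : 2 / (D : ℝ) ≤ 2 / 100 := div_le_div_of_nonneg_left (by norm_num) (by norm_num) hD'
  have h4 : HH (Pv W R) y * (1 + 2 / (D : ℝ)) ≤ HH (Pv W R) y * (102 / 100) :=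
    mul_le_mul_of_nonneg_left (by linarith) hH0
  rw [abs_le] at h1
  constructor
  · have h5 := h1.1
    linarith
  · have h5 := h1.2
    linarith

/-- the sums over the primes `≥ D` -/
theorem psum (W D : ℕ) (hD : 2 ≤ D) (hDW : ∀ p : ℕ, p.Prime → p < D → p ∣ W) (R : ℝ) :
    (∀ k, D ≤ Pv W R k) ∧ ∑ k, 1 / (Pv W R k : ℝ) ^ 2 ≤ 2 / (D : ℝ) := by
  have hk : ∀ k, D ≤ Pv W R k := by
    intro k
    by_contra h
    exact Pv_not_dvd W R k (hDW _ (Pv_prime W R k) (by omega))
  refine ⟨hk, ?_⟩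
  calc ∑ k, 1 / (Pv W R k : ℝ) ^ 2 = ∑ p ∈ PSet W R, 1 / (p : ℝ) ^ 2 := by
        rw [← Finset.sum_attach (PSet W R)]
        rfl
    _ ≤ ∑ m ∈ Icc D ⌊R⌋₊, 1 / (m : ℝ) ^ 2 := by
        refine Finset.sum_le_sum_of_subset_of_nonneg ?_ (fun _ _ _ => by positivity)
        intro p hp
        have h1 := hk ⟨p, hp⟩
        unfold PSet at hp
        rw [Finset.mem_filter, Finset.mem_Icc] at hp
        rw [Finset.mem_Icc]
        exact ⟨h1, hp.1.2⟩
    _ ≤ 2 / (D : ℝ) := hs_sq_tail D _ (by omega)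

end Pool.Agent.H21.MT
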