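import Mathlib

/-!
MP_8923e7_nt, project MT (Maynard sieve).  Labelled squarefree numbers.

`ι` is a finite index set of primes `P k` (`k : ι`), `I` the index set of the shifts.  A labelled
number is a function `s : ι → Option I`; `s k = some i` means that `P k` divides `N + h i`.
-/

set_option linter.unusedSectionVars false

namespace Pool.Agent.H21.MT

open Finset

variable {ι I : Type} [Fintype ι] [DecidableEq ι] [Fintype I] [DecidableEq I]

/-- total product of a labelled number -/
def tot (P : ι → ℕ) (s : ι → Option I) : ℕ := ∏ k, if s k = none then 1 else P k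

/-- the part with label `i` -/
def lab (P : ι → ℕ) (s : ι → Option I) (i : I) : ℕ := ∏ k, if s k = some i then P k else 1

/-- `d` is a part of `s` -/
def sub (d s : ι → Option I) : Prop := ∀ k, d k = none ∨ d k = s k

instance instDecSub (d s : ι → Option I) : Decidable (sub d s) := by unfold sub; infer_instance

/-- `d` has no label `m` -/
def noL (m : I) (d : ι → Option I) : Prop := ∀ k, d k ≠ some m

instance instDecNoL (m : I) (d : ι → Option I) : Decidable (noL m d) := by
  unfold noL; infer_instance

/-- Möbius function of a labelled number -/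
def mu (d : ι → Option I) : ℝ := ∏ k, if d k = none then 1 else -1

/-- local form -/
def mloc (π : ℝ) (a b : Option I) : ℝ :=
  match a, b with
  | none, none => 1
  | some _, none => π
  | none, some _ => π
  | some i, some j => if i = j then π else 0

/-- the quadratic form of the sieve -/
noncomputable def mform (π : ι → ℝ) (lam : (ι → Option I) → ℝ) : ℝ :=
  ∑ d, ∑ e, lam d * lam e * ∏ k, mloc (π k) (d k) (e k)

/-- the new coefficients -/
noncomputable def cc (π : ι → ℝ) (lam : (ι → Option I) → ℝ) (r : ι → Option I) : ℝ :=
  ∑ d ∈ univ.filter (fun d => sub r d), lam d * ∏ k, (if r k = none ∧ d k ≠ none then π k else 1)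

/-- the sieve weights belonging to `F` -/
noncomputable def lamF (P : ι → ℕ) (F : (ι → Option I) → ℝ) (d : ι → Option I) : ℝ :=
  mu d * tot P d * ∑ s ∈ univ.filter (fun s => sub d s), F s / tot P s

/-- restriction to labelled numbers without label `m` -/
noncomputable def offL (m : I) (lam : (ι → Option I) → ℝ) (d : ι → Option I) : ℝ :=
  if noL m d then lam d else 0

/-- norm of a set of primes -/
def nrm (P : ι → ℕ) (T : Finset ι) : ℕ := ∏ k ∈ T, P k

/-- sum of `u(b)/b` over the squarefree products of the primes -/
noncomputable def SS (P : ι → ℕ) (u : ℕ → ℝ) : ℝ := ∑ T : Finset ι, u (nrm P T) / nrm P T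

/-- harmonic sum up to `y` -/
noncomputable def HH (P : ι → ℕ) (y : ℝ) : ℝ :=
  ∑ T ∈ (univ : Finset (Finset ι)).filter (fun T => (nrm P T : ℝ) ≤ y), (1 : ℝ) / nrm P T

omit [DecidableEq ι] [DecidableEq I] [Fintype I] in
theorem tot_pos {P : ι → ℕ} (hP : ∀ k, 0 < P k) (s : ι → Option I) : 0 < tot P s := by
  unfold tot
  apply Finset.prod_pos
  intro k _
  split_ifs
  · exact one_pos
  · exact hP k

omit [DecidableEq ι] [Fintype I] in
theorem lab_pos {P : ι → ℕ} (hP : ∀ k, 0 < P k) (s : ι → Option I) (i : I) : 0 < lab P s i := by
  unfold lab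
  apply Finset.prod_pos
  intro k _
  split_ifs
  · exact hP k
  · exact one_pos

omit [DecidableEq ι] in
theorem tot_eq_prod_lab (P : ι → ℕ) (s : ι → Option I) : tot P s = ∏ i, lab P s i := by
  unfold tot lab
  rw [Finset.prod_comm]
  apply Finset.prod_congr rfl
  intro k _
  rcases h : s k with _ | j
  · simp
  · simp

theorem nrm_pos {P : ι → ℕ} (hP : ∀ k, 0 < P k) (T : Finset ι) : 0 < nrm P T :=
  Finset.prod_pos fun k _ => hP k

theorem sub_refl' (d : ι → Option I) : sub d d := fun _ => Or.inr rfl

theorem sub_trans' {a b c : ι → Option I} (h : sub a b) (h' : sub b c) : sub a c := by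
  intro k
  rcases h k with h1 | h1
  · exact Or.inl h1
  · rcases h' k with h2 | h2
    · exact Or.inl (h1.trans h2)
    · exact Or.inr (h1.trans h2)

end Pool.Agent.H21.MT
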