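import Pool.Agent.H21.MT.Lab

/-!
[H21 MT RHO]  The function `rho` and the sums with powers of `rho`.

Proofs.
* `rho_nrm`: `nrm P T` is squarefree with prime factors `P k`, `k ∈ T`; similarly `rho_lab`.
* `SS_rho_le`: `rho(nrm T)^t = ∏_{k ∈ T} (1 + x_k) = ∑_{E ⊆ T} ∏_{k ∈ E} x_k`,
  `x_k = (1+1/P k)^t - 1` (`Finset.prod_one_add` or `Finset.prod_add`); exchange the sums,
  `T = E ∪ T'`, and `u (nrm T) ≤ u (nrm T')`; the sum over `E` is at most
  `∑_E ∏_{k ∈ E} x_k / P k = ∏ k (1 + x_k/P k)`.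
-/

set_option linter.unusedSectionVars false

namespace Pool.Agent.H21.MT

open Finset

variable {ι I : Type} [Fintype ι] [DecidableEq ι] [Fintype I] [DecidableEq I]

/-- `∏_{p | b} (1 + 1/p)` -/
noncomputable def rho (b : ℕ) : ℝ := ∏ p ∈ b.primeFactors, (1 + 1 / (p : ℝ))

theorem one_le_rho (b : ℕ) : 1 ≤ rho b := by
  unfold rho
  refine Finset.prod_induction _ (fun x : ℝ => 1 ≤ x)
    (fun a b ha hb => one_le_mul_of_one_le_of_one_le ha hb) le_rfl ?_
  intro p _
  have : (0 : ℝ) ≤ 1 / (p : ℝ) := by positivity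
  linarith

theorem primeFactors_nrm (P : ι → ℕ) (hP : ∀ k, (P k).Prime) (hinj : Function.Injective P)
    (T : Finset ι) : (nrm P T).primeFactors = T.image P := by
  have h1 : nrm P T = ∏ p ∈ T.image P, p := by
    unfold nrm
    rw [Finset.prod_image (fun a _ b _ h => hinj h)]
  rw [h1]
  apply Nat.primeFactors_prod
  intro p hp
  obtain ⟨k, _, rfl⟩ := Finset.mem_image.1 hp
  exact hP k

theorem rho_nrm (P : ι → ℕ) (hP : ∀ k, (P k).Prime) (hinj : Function.Injective P) (T : Finset ι) :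
    rho (nrm P T) = ∏ k ∈ T, (1 + 1 / (P k : ℝ)) := by
  unfold rho
  rw [primeFactors_nrm P hP hinj, Finset.prod_image (fun a _ b _ h => hinj h)]

theorem rho_lab (P : ι → ℕ) (hP : ∀ k, (P k).Prime) (hinj : Function.Injective P)
    (s : ι → Option I) (i : I) :
    rho (lab P s i) = ∏ k, (if s k = some i then 1 + 1 / (P k : ℝ) else 1) := by
  have h1 : lab P s i = nrm P (univ.filter (fun k => s k = some i)) := by
    unfold lab nrm
    rw [Finset.prod_filter]
  rw [h1, rho_nrm P hP hinj, Finset.prod_filter]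

/-- the correction factor -/
noncomputable def kap (P : ι → ℕ) (t : ℕ) : ℝ := ∏ k, (1 + ((1 + 1 / (P k : ℝ)) ^ t - 1) / P k)

theorem SS_rho_le (P : ι → ℕ) (hP : ∀ k, (P k).Prime) (hinj : Function.Injective P) (u : ℕ → ℝ)
    (hu0 : ∀ b, 0 ≤ u b) (hu : Antitone u) (t : ℕ) :
    SS P (fun b => u b * rho b ^ t) ≤ kap P t * SS P u := by
  set x : ι → ℝ := fun k => (1 + 1 / (P k : ℝ)) ^ t - 1 with hx
  have hpos : ∀ k, 0 < P k := fun k => (hP k).pos
  have hx0 : ∀ k, 0 ≤ x k := by
    intro k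
    have h1 : (1 : ℝ) ≤ 1 + 1 / (P k : ℝ) := by
      have : (0 : ℝ) ≤ 1 / (P k : ℝ) := by positivity
      linarith
    have := one_le_pow₀ h1 (n := t)
    rw [hx]
    linarith
  have hrho : ∀ T : Finset ι, rho (nrm P T) ^ t = ∑ E ∈ T.powerset, ∏ k ∈ E, x k := by
    intro T
    rw [rho_nrm P hP hinj, ← Finset.prod_pow, ← Finset.prod_one_add]
    refine Finset.prod_congr rfl fun k _ => ?_
    rw [hx]
    ring
  have hg0 : ∀ T : Finset ι, 0 ≤ u (nrm P T) / (nrm P T : ℝ) := fun T =>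
    div_nonneg (hu0 _) (Nat.cast_nonneg _)
  have hterm : ∀ E T : Finset ι, E ⊆ T →
      u (nrm P T) * (∏ k ∈ E, x k) / (nrm P T : ℝ) ≤
        (∏ k ∈ E, x k / (P k : ℝ)) * (u (nrm P (T \ E)) / (nrm P (T \ E) : ℝ)) := by
    intro E T hET
    have h1 : nrm P T = nrm P (T \ E) * nrm P E := by
      unfold nrm
      rw [Finset.prod_sdiff hET]
    have hE : 0 < nrm P E := nrm_pos hpos E
    have hTE : 0 < nrm P (T \ E) := nrm_pos hpos _
    have h2 : u (nrm P T) ≤ u (nrm P (T \ E)) := by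
      apply hu
      rw [h1]
      exact Nat.le_mul_of_pos_right _ hE
    have h3 : (∏ k ∈ E, x k / (P k : ℝ)) = (∏ k ∈ E, x k) / (nrm P E : ℝ) := by
      rw [Finset.prod_div_distrib]
      unfold nrm
      push_cast
      rfl
    have h4 : 0 ≤ ∏ k ∈ E, x k := Finset.prod_nonneg fun k _ => hx0 k
    have hE' : (0 : ℝ) < (nrm P E : ℝ) := by exact_mod_cast hE
    have hTE' : (0 : ℝ) < (nrm P (T \ E) : ℝ) := by exact_mod_cast hTE
    rw [h3, h1]
    push_cast
    rw [div_mul_div_comm, mul_comm (nrm P E : ℝ) (nrm P (T \ E) : ℝ), mul_comm (∏ k ∈ E, x k)]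
    gcongr
    rw [← h1]
    exact h2
  unfold SS
  calc ∑ T : Finset ι, u (nrm P T) * rho (nrm P T) ^ t / (nrm P T : ℝ)
      = ∑ T : Finset ι, ∑ E ∈ T.powerset, u (nrm P T) * (∏ k ∈ E, x k) / (nrm P T : ℝ) := by
        refine Finset.sum_congr rfl fun T _ => ?_
        rw [hrho, Finset.mul_sum, Finset.sum_div]
    _ = ∑ E : Finset ι, ∑ T ∈ univ.filter (fun T => E ⊆ T),
          u (nrm P T) * (∏ k ∈ E, x k) / (nrm P T : ℝ) := by
        refine Finset.sum_comm' ?_
        intro T E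
        simp [Finset.mem_powerset]
    _ ≤ ∑ E : Finset ι, (∏ k ∈ E, x k / (P k : ℝ)) * ∑ T : Finset ι, u (nrm P T) / (nrm P T : ℝ) := by
        refine Finset.sum_le_sum fun E _ => ?_
        calc ∑ T ∈ univ.filter (fun T => E ⊆ T), u (nrm P T) * (∏ k ∈ E, x k) / (nrm P T : ℝ)
            ≤ ∑ T ∈ univ.filter (fun T => E ⊆ T),
                (∏ k ∈ E, x k / (P k : ℝ)) * (u (nrm P (T \ E)) / (nrm P (T \ E) : ℝ)) :=
              Finset.sum_le_sum fun T hT => hterm E T (Finset.mem_filter.1 hT).2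
          _ = (∏ k ∈ E, x k / (P k : ℝ)) * ∑ T ∈ univ.filter (fun T => E ⊆ T),
                (u (nrm P (T \ E)) / (nrm P (T \ E) : ℝ)) := by rw [Finset.mul_sum]
          _ ≤ (∏ k ∈ E, x k / (P k : ℝ)) * ∑ T : Finset ι, u (nrm P T) / (nrm P T : ℝ) := by
              refine mul_le_mul_of_nonneg_left ?_
                (Finset.prod_nonneg fun k _ => div_nonneg (hx0 k) (Nat.cast_nonneg _))
              have hinjOn : Set.InjOn (fun T : Finset ι => T \ E)
                  ((univ.filter (fun T => E ⊆ T) : Finset (Finset ι)) : Set (Finset ι)) := by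
                intro T hT T' hT' h
                have h1 : E ⊆ T := by simpa using hT
                have h2 : E ⊆ T' := by simpa using hT'
                have h' : T \ E = T' \ E := h
                rw [← Finset.sdiff_union_of_subset h1, ← Finset.sdiff_union_of_subset h2, h']
              rw [← Finset.sum_image (f := fun T' : Finset ι => u (nrm P T') / (nrm P T' : ℝ)) hinjOn]
              exact Finset.sum_le_sum_of_subset_of_nonneg (Finset.subset_univ _)
                fun T _ _ => hg0 T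
    _ = kap P t * ∑ T : Finset ι, u (nrm P T) / (nrm P T : ℝ) := by
        rw [← Finset.sum_mul]
        congr 1
        unfold kap
        rw [Finset.prod_one_add, Finset.powerset_univ]

end Pool.Agent.H21.MT
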