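import Pool.Agent.H21.MT.Dat
import Pool.Agent.H21.MT.Rho

/-!
[H21 MT PARA]  The hypotheses of QB, STEPN for the data.

Proofs.  Let `K = |I| ≥ 1`, `D ≥ 1000 K^2`, all `P k ≥ D` (`psum`), `∑ 1/P k^2 ≤ 2/D`.
* `par_P`: (1) `D ≥ 2K+1`; (2) `2/D ≤ 1/(50 K^2)`;
  (3) `∏ (1 + K/(P(P-1))) ≤ exp(∑ 2K/P^2) ≤ exp(4K/D) ≤ exp(1/250) ≤ 101/100`;
  (4) `(1+1/P)^{2K} - 1 ≤ 4K/P` (as `2K/P ≤ 1`, `(1+y)^n ≤ e^{ny} ≤ 1 + 2ny`), so
  `kap P (2K) ≤ exp(∑ 4K/P^2) ≤ exp(8K/D)` and `kap^{3K} ≤ exp(24K^2/D) ≤ exp(24/1000) ≤ 2`.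
* `par_diff`: `diff_dvd` and `Pv_not_dvd`.
* `par_g`: PROF; `z ≥ 1`; `(z i)^{2^l} = R^{tau i 2^l} ≤ R^{1/2}`.
-/

set_option linter.unusedSectionVars false

namespace Pool.Agent.H21.MT

open Finset Filter

variable {I : Type} [Fintype I] [DecidableEq I] [Nonempty I] (δ : Dat I)

theorem par_P (x : ℝ) : (∀ k, 2 * Fintype.card I + 1 ≤ δ.P x k) ∧
    ∑ k, 1 / (δ.P x k : ℝ) ^ 2 ≤ 1 / (50 * (Fintype.card I : ℝ) ^ 2) ∧
    ∏ k, (1 + (Fintype.card I : ℝ) / (δ.P x k * (δ.P x k - 1))) ≤ 101 / 100 ∧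
    kap (δ.P x) (2 * Fintype.card I) ^ (3 * Fintype.card I) ≤ 2 := by
  have hKpos : 0 < Fintype.card I := Fintype.card_pos
  have hDl := δ.D_large
  have hD2 : 2 ≤ δ.D := by nlinarith
  obtain ⟨hPD, hsum⟩ := psum δ.W δ.D hD2 δ.D_dvd (Dat.R x)
  change ∀ k, δ.D ≤ δ.P x k at hPD
  change ∑ k, 1 / (δ.P x k : ℝ) ^ 2 ≤ 2 / (δ.D : ℝ) at hsum
  set K : ℕ := Fintype.card I with hK
  have hK1 : (1 : ℝ) ≤ (K : ℝ) := by exact_mod_cast hKpos
  have hK0 : (0 : ℝ) < (K : ℝ) := by linarith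
  have hDR : 1000 * (K : ℝ) ^ 2 ≤ (δ.D : ℝ) := by exact_mod_cast hDl
  have hD0 : (0 : ℝ) < (δ.D : ℝ) := by nlinarith
  have hPR : ∀ k, 1000 * (K : ℝ) ^ 2 ≤ (δ.P x k : ℝ) := by
    intro k
    have h1 : (δ.D : ℝ) ≤ (δ.P x k : ℝ) := by exact_mod_cast hPD k
    linarith
  have hP1000 : ∀ k, (1000 : ℝ) ≤ (δ.P x k : ℝ) := by
    intro k
    have := hPR k
    nlinarith
  have hP0 : ∀ k, (0 : ℝ) < (δ.P x k : ℝ) := by
    intro k
    have := hP1000 k
    linarith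
  have hinvD : 2 / (δ.D : ℝ) ≤ 1 / (500 * (K : ℝ) ^ 2) := by
    rw [div_le_div_iff₀ hD0 (by positivity)]
    nlinarith
  refine ⟨?_, ?_, ?_, ?_⟩
  · intro k
    have h1 := hPD k
    have h2 : 2 * K + 1 ≤ 1000 * K ^ 2 := by nlinarith
    omega
  · calc ∑ k, 1 / (δ.P x k : ℝ) ^ 2 ≤ 2 / (δ.D : ℝ) := hsum
      _ ≤ 1 / (500 * (K : ℝ) ^ 2) := hinvD
      _ ≤ 1 / (50 * (K : ℝ) ^ 2) := by
          apply one_div_le_one_div_of_le (by positivity)
          nlinarith [sq_nonneg (K : ℝ)]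
  · have h1 : ∏ k, (1 + (K : ℝ) / (δ.P x k * (δ.P x k - 1))) ≤
        ∏ k, Real.exp (2 * (K : ℝ) * (1 / (δ.P x k : ℝ) ^ 2)) := by
      apply Finset.prod_le_prod
      · intro k _
        have := hP1000 k
        have h2 : (0 : ℝ) < (δ.P x k : ℝ) - 1 := by linarith
        have h3 := hP0 k
        positivity
      · intro k _
        have hk := hP1000 k
        have h2 : (0 : ℝ) < (δ.P x k : ℝ) - 1 := by linarith
        have h3 := hP0 k
        have h4 : (K : ℝ) / (δ.P x k * (δ.P x k - 1)) ≤ 2 * (K : ℝ) * (1 / (δ.P x k : ℝ) ^ 2) := by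
          rw [mul_one_div, div_le_div_iff₀ (by positivity) (by positivity)]
          nlinarith [mul_pos hK0 h3, mul_pos (mul_pos hK0 h3) h2]
        have h5 := Real.add_one_le_exp (2 * (K : ℝ) * (1 / (δ.P x k : ℝ) ^ 2))
        linarith
    have h2 : ∏ k, Real.exp (2 * (K : ℝ) * (1 / (δ.P x k : ℝ) ^ 2)) =
        Real.exp (2 * (K : ℝ) * ∑ k, 1 / (δ.P x k : ℝ) ^ 2) := by
      rw [← Real.exp_sum, Finset.mul_sum]
    have h3 : 2 * (K : ℝ) * ∑ k, 1 / (δ.P x k : ℝ) ^ 2 ≤ 1 / 250 := by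
      calc 2 * (K : ℝ) * ∑ k, 1 / (δ.P x k : ℝ) ^ 2 ≤ 2 * (K : ℝ) * (1 / (500 * (K : ℝ) ^ 2)) :=
            mul_le_mul_of_nonneg_left (hsum.trans hinvD) (by positivity)
        _ ≤ 1 / 250 := by
            rw [mul_one_div, div_le_div_iff₀ (by positivity) (by norm_num)]
            nlinarith
    have h4 : Real.exp (1 / 250) ≤ 101 / 100 := by
      have := Real.exp_bound_div_one_sub_of_interval (x := 1 / 250) (by norm_num) (by norm_num)
      refine this.trans (by norm_num)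
    calc ∏ k, (1 + (K : ℝ) / (δ.P x k * (δ.P x k - 1))) ≤ _ := h1
      _ = _ := h2
      _ ≤ Real.exp (1 / 250) := Real.exp_le_exp.2 h3
      _ ≤ 101 / 100 := h4
  · have hx : ∀ k, ((1 + 1 / (δ.P x k : ℝ)) ^ (2 * K) - 1) ≤ 4 * K * (1 / (δ.P x k : ℝ)) := by
      intro k
      have h3 := hP0 k
      have h1 : (1 + 1 / (δ.P x k : ℝ)) ^ (2 * K) ≤ Real.exp (2 * K * (1 / (δ.P x k : ℝ))) := by
        have h5 : 1 + 1 / (δ.P x k : ℝ) ≤ Real.exp (1 / (δ.P x k : ℝ)) := by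
          have := Real.add_one_le_exp (1 / (δ.P x k : ℝ))
          linarith
        calc (1 + 1 / (δ.P x k : ℝ)) ^ (2 * K) ≤ (Real.exp (1 / (δ.P x k : ℝ))) ^ (2 * K) :=
              pow_le_pow_left₀ (by positivity) h5 _
          _ = Real.exp (2 * K * (1 / (δ.P x k : ℝ))) := by
              rw [← Real.exp_nat_mul]
              push_cast
              ring_nf
      set t : ℝ := 2 * K * (1 / (δ.P x k : ℝ)) with ht
      have ht0 : 0 ≤ t := by positivity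
      have ht1 : t ≤ 1 / 2 := by
        rw [ht, mul_one_div, div_le_div_iff₀ h3 (by norm_num)]
        have := hPR k
        nlinarith
      have h6 : Real.exp t ≤ 1 + 2 * t := by
        have := Real.exp_bound_div_one_sub_of_interval (x := t) ht0 (by linarith)
        refine this.trans ?_
        rw [div_le_iff₀ (by linarith)]
        nlinarith
      have h7 : 4 * K * (1 / (δ.P x k : ℝ)) = 2 * t := by rw [ht]; ring
      rw [h7]
      linarith
    have hx0 : ∀ k, 0 ≤ ((1 + 1 / (δ.P x k : ℝ)) ^ (2 * K) - 1) := by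
      intro k
      have h3 := hP0 k
      have : (1 : ℝ) ≤ (1 + 1 / (δ.P x k : ℝ)) ^ (2 * K) := by
        apply one_le_pow₀
        have : 0 ≤ 1 / (δ.P x k : ℝ) := by positivity
        linarith
      linarith
    have hk0 : 0 ≤ kap (δ.P x) (2 * K) := by
      unfold kap
      apply Finset.prod_nonneg
      intro k _
      have h1 := hx0 k
      have h2 := hP0 k
      positivity
    have hkap : kap (δ.P x) (2 * K) ≤ Real.exp (4 * K * ∑ k, 1 / (δ.P x k : ℝ) ^ 2) := by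
      unfold kap
      rw [Finset.mul_sum, Real.exp_sum]
      apply Finset.prod_le_prod
      · intro k _
        have h1 := hx0 k
        have h2 := hP0 k
        positivity
      · intro k _
        have h1 := hx k
        have h2 := hP0 k
        have h3 : ((1 + 1 / (δ.P x k : ℝ)) ^ (2 * K) - 1) / (δ.P x k : ℝ) ≤
            4 * K * (1 / (δ.P x k : ℝ) ^ 2) := by
          calc ((1 + 1 / (δ.P x k : ℝ)) ^ (2 * K) - 1) / (δ.P x k : ℝ)
              ≤ (4 * K * (1 / (δ.P x k : ℝ))) / (δ.P x k : ℝ) :=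
                div_le_div_of_nonneg_right h1 h2.le
            _ = 4 * K * (1 / (δ.P x k : ℝ) ^ 2) := by
                field_simp
        have h5 := Real.add_one_le_exp (4 * K * (1 / (δ.P x k : ℝ) ^ 2))
        linarith
    calc kap (δ.P x) (2 * K) ^ (3 * K)
        ≤ Real.exp (4 * K * ∑ k, 1 / (δ.P x k : ℝ) ^ 2) ^ (3 * K) :=
          pow_le_pow_left₀ hk0 hkap _
      _ = Real.exp (12 * K ^ 2 * ∑ k, 1 / (δ.P x k : ℝ) ^ 2) := by
          rw [← Real.exp_nat_mul]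
          congr 1
          push_cast
          ring
      _ ≤ Real.exp (24 / 1000) := by
          apply Real.exp_le_exp.2
          calc 12 * (K : ℝ) ^ 2 * ∑ k, 1 / (δ.P x k : ℝ) ^ 2
              ≤ 12 * (K : ℝ) ^ 2 * (1 / (500 * (K : ℝ) ^ 2)) :=
                mul_le_mul_of_nonneg_left (hsum.trans hinvD) (by positivity)
            _ = 24 / 1000 := by
                field_simp
                norm_num
      _ ≤ 2 := by
          have := Real.exp_bound_div_one_sub_of_interval (x := 24 / 1000) (by norm_num)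
            (by norm_num)
          refine this.trans (by norm_num)

theorem par_diff (x : ℝ) : ∀ k i j, i ≠ j → ¬ (δ.P x k : ℤ) ∣ (δ.h i : ℤ) - δ.h j := by
  intro k i j hij hd
  exact Pv_not_dvd δ.W (Dat.R x) k
    (δ.diff_dvd i j hij (δ.P x k) (Pv_prime δ.W (Dat.R x) k) hd)

theorem par_g : ∀ᶠ x : ℝ in atTop, 1 < Dat.R x ∧ (∀ i b, 0 ≤ δ.g x i b) ∧
    (∀ i b, δ.g x i b ≤ 1) ∧ (∀ i, Antitone (δ.g x i)) ∧ (∀ i, δ.g x i 1 = 1) ∧
    (∀ i b, δ.g x i b ≠ 0 → (b : ℝ) ^ 2 ≤ Dat.R x) := by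
  filter_upwards [eventually_gt_atTop (1 : ℝ)] with x hx
  have hR : 1 < Dat.R x := by
    unfold Dat.R
    exact Real.one_lt_rpow hx (by norm_num)
  have hz : ∀ i, 1 ≤ δ.z x i := by
    intro i
    unfold Dat.z
    exact Real.one_le_rpow hR.le (δ.tau_pos i).le
  refine ⟨hR, fun i b => prof_nonneg _ _ _, fun i b => prof_le_one _ _ _,
    fun i => prof_antitone _ _, fun i => prof_one _ (hz i) _, ?_⟩
  intro i b hb
  have h1 : (b : ℝ) ≤ (δ.z x i) ^ (2 ^ δ.l i) := prof_ne _ (hz i) _ _ hb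
  have h2 : (δ.z x i) ^ (2 ^ δ.l i) = (Dat.R x) ^ (δ.tau i * (2 : ℝ) ^ δ.l i) := by
    unfold Dat.z
    rw [← Real.rpow_natCast, ← Real.rpow_mul (by linarith)]
    congr 1
    push_cast
    ring
  have h3 : (δ.z x i) ^ (2 ^ δ.l i) ≤ (Dat.R x) ^ (1 / 2 : ℝ) := by
    rw [h2]
    apply Real.rpow_le_rpow_of_exponent_le hR.le
    have := δ.l_tau i
    linarith
  have h4 : (b : ℝ) ≤ (Dat.R x) ^ (1 / 2 : ℝ) := h1.trans h3
  calc (b : ℝ) ^ 2 ≤ ((Dat.R x) ^ (1 / 2 : ℝ)) ^ 2 := pow_le_pow_left₀ (Nat.cast_nonneg _) h4 2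
    _ = Dat.R x := by
      rw [← Real.rpow_natCast, ← Real.rpow_mul (by linarith)]
      norm_num

end Pool.Agent.H21.MT
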