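import Pool.Agent.H21.MT.Rho

/-!
[H21 MT PRODLE]  Sums over labelled numbers and products of sums over sets of primes.

Proofs.
* `sum_prod_le`: the map `s ↦ (i ↦ {k | s k = some i})` is injective, `lab P s i = nrm P (T i)`,
  `tot P s = ∏ i lab P s i`; so the left side is a part of the expansion
  `∏ i, ∑ T, u i (nrm T)/nrm T = ∑ (T_i), ∏ i, ...` (`Finset.prod_univ_sum`), all terms `≥ 0`.
* `SS_mem_le`: the sum over the `T ∋ k`: `T = insert k T'`, `nrm T = P k * nrm T'`,
  `u (nrm T) ≤ u (nrm T')`.
-/

set_option linter.unusedSectionVars false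

namespace Pool.Agent.H21.MT

open Finset

variable {ι I : Type} [Fintype ι] [DecidableEq ι] [Fintype I] [DecidableEq I]

theorem sum_prod_le (P : ι → ℕ) (hP : ∀ k, 0 < P k) (u : I → ℕ → ℝ) (hu : ∀ i b, 0 ≤ u i b) :
    ∑ s : ι → Option I, (∏ i, u i (lab P s i)) / tot P s ≤ ∏ i, SS P (u i) := by
  have hlab : ∀ (s : ι → Option I) (i : I),
      lab P s i = nrm P (univ.filter (fun k => s k = some i)) := by
    intro s i
    unfold lab nrm
    rw [Finset.prod_filter]
  have hinj : Function.Injective (fun (s : ι → Option I) (i : I) =>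
      univ.filter (fun k => s k = some i)) := by
    intro s t hst
    have h1 : ∀ (i : I) (k : ι), s k = some i ↔ t k = some i := by
      intro i k
      have h2 := congrFun hst i
      simp only at h2
      have h3 := Finset.ext_iff.mp h2 k
      simpa using h3
    funext k
    rcases hs : s k with _ | i
    · rcases ht : t k with _ | i
      · rfl
      · rw [(h1 i k).mpr ht] at hs
        exact absurd hs (by simp)
    · exact ((h1 i k).mp hs).symm
  have hterm : ∀ s : ι → Option I, (∏ i, u i (lab P s i)) / tot P s =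
      ∏ i, (u i (nrm P ((fun (s : ι → Option I) (i : I) =>
        univ.filter (fun k => s k = some i)) s i)) /
        (nrm P ((fun (s : ι → Option I) (i : I) =>
        univ.filter (fun k => s k = some i)) s i) : ℝ)) := by
    intro s
    rw [tot_eq_prod_lab]
    push_cast
    rw [← Finset.prod_div_distrib]
    refine Finset.prod_congr rfl fun i _ => ?_
    rw [hlab]
  have hexp : ∏ i, SS P (u i) = ∑ f : I → Finset ι, ∏ i, (u i (nrm P (f i)) / (nrm P (f i) : ℝ)) := by
    unfold SS
    have h3 := Finset.prod_univ_sum (fun _ : I => (Finset.univ : Finset (Finset ι)))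
      (fun i T => u i (nrm P T) / (nrm P T : ℝ))
    rw [Fintype.piFinset_univ] at h3
    exact h3
  simp_rw [hterm]
  rw [hexp, ← Finset.sum_image (s := Finset.univ) (g := fun (s : ι → Option I) (i : I) =>
      univ.filter (fun k => s k = some i))
      (f := fun f : I → Finset ι => ∏ i, (u i (nrm P (f i)) / (nrm P (f i) : ℝ)))
      (fun a _ b _ h => hinj h)]
  refine Finset.sum_le_sum_of_subset_of_nonneg (Finset.subset_univ _) fun f _ _ => ?_
  exact Finset.prod_nonneg fun i _ => div_nonneg (hu _ _) (Nat.cast_nonneg _)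

theorem SS_mem_le (P : ι → ℕ) (hP : ∀ k, (P k).Prime) (u : ℕ → ℝ)
    (hu0 : ∀ b, 0 ≤ u b) (hu : Antitone u) (k : ι) :
    ∑ T ∈ (univ : Finset (Finset ι)).filter (fun T => k ∈ T), u (nrm P T) / nrm P T ≤
      (1 / (P k : ℝ)) * SS P u := by
  have hP0 : ∀ k, 0 < P k := fun k => (hP k).pos
  have hk : (0 : ℝ) < P k := by exact_mod_cast hP0 k
  have hterm : ∀ T ∈ (univ : Finset (Finset ι)).filter (fun T => k ∈ T),
      u (nrm P T) / (nrm P T : ℝ) ≤
        (1 / (P k : ℝ)) * (u (nrm P (T.erase k)) / (nrm P (T.erase k) : ℝ)) := by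
    intro T hT
    have hkT : k ∈ T := (Finset.mem_filter.mp hT).2
    have h1 : nrm P T = P k * nrm P (T.erase k) := by
      unfold nrm
      rw [Finset.mul_prod_erase T P hkT]
    have h2 : nrm P (T.erase k) ≤ nrm P T := by
      rw [h1]
      exact Nat.le_mul_of_pos_left _ (hP0 k)
    have h3 : (0 : ℝ) < (nrm P (T.erase k) : ℝ) := by exact_mod_cast nrm_pos hP0 _
    have h4 : u (nrm P T) ≤ u (nrm P (T.erase k)) := hu h2
    calc u (nrm P T) / (nrm P T : ℝ) ≤ u (nrm P (T.erase k)) / (nrm P T : ℝ) :=
          div_le_div_of_nonneg_right h4 (Nat.cast_nonneg _)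
      _ = (1 / (P k : ℝ)) * (u (nrm P (T.erase k)) / (nrm P (T.erase k) : ℝ)) := by
          rw [h1]
          push_cast
          field_simp
  refine (Finset.sum_le_sum hterm).trans ?_
  rw [← Finset.mul_sum]
  refine mul_le_mul_of_nonneg_left ?_ (by positivity)
  rw [← Finset.sum_image (s := (univ : Finset (Finset ι)).filter (fun T => k ∈ T))
    (g := fun T : Finset ι => T.erase k)
    (f := fun T : Finset ι => u (nrm P T) / (nrm P T : ℝ))]
  · unfold SS
    refine Finset.sum_le_sum_of_subset_of_nonneg (Finset.subset_univ _) fun T _ _ => ?_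
    exact div_nonneg (hu0 _) (Nat.cast_nonneg _)
  · intro S hS T hT hST
    have h1 : k ∈ S := (Finset.mem_filter.mp (Finset.mem_coe.mp hS)).2
    have h2 : k ∈ T := (Finset.mem_filter.mp (Finset.mem_coe.mp hT)).2
    simp only at hST
    rw [← Finset.insert_erase h1, ← Finset.insert_erase h2, hST]

end Pool.Agent.H21.MT
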