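import Pool.Agent.H21.MT.Ch
import Pool.Agent.H21.MT.Gw

/-!
MP_8923e7_nt, project MT.  The weighted character sums (definitions only).
-/

namespace Pool.Agent.H21.MT

open Finset

/-- the weight `Λ(n) (log n)^J gw x n` -/
noncomputable def wt (J : ℕ) (x : ℝ) (n : ℕ) : ℝ :=
  ArithmeticFunction.vonMangoldt n * (Real.log n) ^ J * gw x n

/-- the weighted sum over prime powers up to `x^3` with a character -/
noncomputable def Psi (J : ℕ) (x : ℝ) {q : ℕ} (χ : DirichletCharacter ℂ q) : ℂ :=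
  ∑ n ∈ Icc 1 ⌊x ^ 3⌋₊, ((wt J x n : ℝ) : ℂ) * χ (n : ZMod q)

end Pool.Agent.H21.MT
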