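import Mathlib

/-!
MP_8923e7_nt, project MT.  Selection of admissible blocks inside an arbitrary infinite set:
definitions.
-/

namespace Pool.Agent.H21.MT

open Finset Filter

/-- elements of `A` up to `y` avoiding the classes `c p` for all primes `p ≤ P` -/
def surv (A : Set ℕ) (P : ℕ) (c : ℕ → ℕ) (y : ℕ) : Set ℕ :=
  {a | a ∈ A ∧ a ≤ y ∧ ∀ p : ℕ, p.Prime → p ≤ P → a % p ≠ c p % p}

/-- the invariant of the selection -/
structure SelInv (A : Set ℕ) (G : Finset ℕ) (P κ : ℕ) (c : ℕ → ℕ) : Prop where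
  sub : (G : Set ℕ) ⊆ A
  big : 2 * G.card + 16 ≤ P
  avoid : ∀ p : ℕ, p.Prime → p ≤ P → ∀ g ∈ G, g % p ≠ c p % p
  many : ∃ᶠ y in atTop, (A ∩ Set.Iic y).ncard ≤ κ * (surv A P c y).ncard

end Pool.Agent.H21.MT
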