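import Pool.Agent.H21.MT.Sel

/-!
[H21 MT SELINIT]  First step of the selection.

Proof.  Write `N(y) = |A ∩ [0,y]|`.  `P = 16`.  For every `y` choose the classes prime by
prime: one of the classes `0`, `1` modulo `p` contains at most half of the current survivors.
There are finitely many choices, so one of them works for infinitely many `y`.
-/

namespace Pool.Agent.H21.MT

open Finset Filter

private theorem si_step (S : Finset ℕ) (p : ℕ) (hp : 2 ≤ p) :
    ∃ r : ℕ, r ≤ 1 ∧ S.card ≤ 2 * (S.filter (fun a => a % p ≠ r % p)).card := by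
  classical
  by_contra hcon
  push Not at hcon
  have h0 := hcon 0 (by norm_num)
  have h1 := hcon 1 (by norm_num)
  have hsub : S ⊆ S.filter (fun a => a % p ≠ 0 % p) ∪ S.filter (fun a => a % p ≠ 1 % p) := by
    intro a ha
    rw [Finset.mem_union, Finset.mem_filter, Finset.mem_filter]
    by_cases h : a % p = 0 % p
    · right
      refine ⟨ha, ?_⟩
      rw [h, Nat.zero_mod, Nat.mod_eq_of_lt (by omega)]
      norm_num
    · left
      exact ⟨ha, h⟩
  have h2 := (Finset.card_le_card hsub).trans (Finset.card_union_le _ _)
  omega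

private theorem si_many (S : Finset ℕ) (F : Finset ℕ) (hF : ∀ p ∈ F, 2 ≤ p) :
    ∃ c : ℕ → ℕ, (∀ p, c p ≤ 1) ∧
      S.card ≤ 2 ^ F.card * (S.filter (fun a => ∀ p ∈ F, a % p ≠ c p % p)).card := by
  classical
  induction F using Finset.induction_on with
  | empty =>
      refine ⟨fun _ => 0, fun _ => by norm_num, ?_⟩
      simp
  | insert q F hq ih =>
      obtain ⟨c, hc, hle⟩ := ih (fun p hp => hF p (Finset.mem_insert_of_mem hp))
      obtain ⟨r, hr, hle2⟩ := si_step (S.filter (fun a => ∀ p ∈ F, a % p ≠ c p % p)) q
        (hF q (Finset.mem_insert_self q F))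
      refine ⟨Function.update c q r, ?_, ?_⟩
      · intro p
        by_cases h : p = q
        · subst h
          simpa using hr
        · simpa [Function.update_of_ne h] using hc p
      · have heq : (S.filter (fun a => ∀ p ∈ insert q F, a % p ≠ Function.update c q r p % p))
            = (S.filter (fun a => ∀ p ∈ F, a % p ≠ c p % p)).filter (fun a => a % q ≠ r % q) := by
          ext a
          simp only [Finset.mem_filter, Finset.mem_insert, forall_eq_or_imp,
            Function.update_self]
          constructor
          · rintro ⟨h1, h2, h3⟩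
            refine ⟨⟨h1, ?_⟩, h2⟩
            intro p hp
            have := h3 p hp
            rwa [Function.update_of_ne (by rintro rfl; exact hq hp)] at this
          · rintro ⟨⟨h1, h3⟩, h2⟩
            refine ⟨h1, h2, ?_⟩
            intro p hp
            rw [Function.update_of_ne (by rintro rfl; exact hq hp)]
            exact h3 p hp
        rw [heq, Finset.card_insert_of_notMem hq, pow_succ]
        calc S.card ≤ 2 ^ F.card * (S.filter (fun a => ∀ p ∈ F, a % p ≠ c p % p)).card := hle
          _ ≤ 2 ^ F.card * (2 * ((S.filter (fun a => ∀ p ∈ F, a % p ≠ c p % p)).filter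
                (fun a => a % q ≠ r % q)).card) := Nat.mul_le_mul_left _ hle2
          _ = _ := by ring

theorem sel_init (A : Set ℕ) (hA : A.Infinite) : ∃ (κ : ℕ) (c : ℕ → ℕ), SelInv A ∅ 16 κ c := by
  classical
  have hkey : ∀ y : ℕ, ∃ f : Fin 17 → Bool,
      (A ∩ Set.Iic y).ncard ≤ 2 ^ ((Finset.range 17).filter Nat.Prime).card *
        (surv A 16 (fun p => if h : p < 17 then (if f ⟨p, h⟩ then 1 else 0) else 0) y).ncard := by
    intro y
    obtain ⟨c, hc, hle⟩ := si_many ((Finset.range (y + 1)).filter (fun a => a ∈ A))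
      ((Finset.range 17).filter Nat.Prime) (fun p hp => (Finset.mem_filter.mp hp).2.two_le)
    refine ⟨fun i => decide (c i.1 = 1), ?_⟩
    have e1 : (A ∩ Set.Iic y)
        = (((Finset.range (y + 1)).filter (fun a => a ∈ A) : Finset ℕ) : Set ℕ) := by
      ext a
      simp only [Set.mem_inter_iff, Set.mem_Iic, Finset.coe_filter, Finset.mem_range,
        Set.mem_setOf_eq]
      constructor
      · rintro ⟨h1, h2⟩
        exact ⟨by omega, h1⟩
      · rintro ⟨h1, h2⟩
        exact ⟨h2, by omega⟩
    have e2 : (surv A 16 (fun p => if h : p < 17 then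
          (if (fun i : Fin 17 => decide (c i.1 = 1)) ⟨p, h⟩ then 1 else 0) else 0) y)
        = ((((Finset.range (y + 1)).filter (fun a => a ∈ A)).filter
            (fun a => ∀ p ∈ (Finset.range 17).filter Nat.Prime, a % p ≠ c p % p) : Finset ℕ) :
              Set ℕ) := by
      ext a
      have hcc : ∀ p, p < 17 → (if h : p < 17 then
          (if (fun i : Fin 17 => decide (c i.1 = 1)) ⟨p, h⟩ then 1 else 0) else 0) = c p := by
        intro p hp
        rw [dif_pos hp]
        have := hc p
        by_cases h1 : c p = 1
        · simp [h1]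
        · have h0 : c p = 0 := by omega
          simp [h0]
      simp only [surv, Set.mem_setOf_eq, Finset.coe_filter, Finset.mem_filter, Finset.mem_range]
      constructor
      · rintro ⟨h1, h2, h3⟩
        refine ⟨⟨by omega, h1⟩, ?_⟩
        intro p hp
        have := h3 p hp.2 (by omega)
        rwa [hcc p hp.1] at this
      · rintro ⟨⟨h1, h2⟩, h3⟩
        refine ⟨h2, by omega, ?_⟩
        intro p hp hp16
        rw [hcc p (by omega)]
        exact h3 p ⟨by omega, hp⟩
    rw [e1, e2, Set.ncard_coe_finset, Set.ncard_coe_finset]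
    exact hle
  have hf : ∃ f : Fin 17 → Bool, ∃ᶠ y in atTop,
      (A ∩ Set.Iic y).ncard ≤ 2 ^ ((Finset.range 17).filter Nat.Prime).card *
        (surv A 16 (fun p => if h : p < 17 then (if f ⟨p, h⟩ then 1 else 0) else 0) y).ncard := by
    by_contra hcon
    push Not at hcon
    have h1 : ∀ f : Fin 17 → Bool, ∀ᶠ y in atTop,
        ¬ ((A ∩ Set.Iic y).ncard ≤ 2 ^ ((Finset.range 17).filter Nat.Prime).card *
        (surv A 16 (fun p => if h : p < 17 then (if f ⟨p, h⟩ then 1 else 0) else 0) y).ncard) := by
      intro f
      exact Filter.not_frequently.mp (by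
        have := hcon f
        simpa [Filter.Frequently] using this)
    have h2 := Filter.eventually_all.mpr h1
    obtain ⟨y, hy⟩ := h2.exists
    obtain ⟨f, hf⟩ := hkey y
    exact hy f hf
  obtain ⟨f, hf⟩ := hf
  exact ⟨_, _, ⟨by simp, by simp, by simp, hf⟩⟩

end Pool.Agent.H21.MT
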