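import Pool.Agent.H21.MT.AsmB
import Pool.Agent.H21.MT.AsmC
import Pool.Agent.H21.MT.DatEx

/-!
[H21 MT SIEVE]  The final sieve proposition: a probability measure on large integers.

Proof.  `dat_exists`; for `x` large all of `S1_bounds`, `S2_lower` (all `m`), `SS_upper` (all
nonempty `S`) hold and `√x ≥ N0`; `S1 > 0` by `S1_bounds` (`XX ≥ x/8 > 0`, `B ≥ 1`).  Put
`T = WinB x`, `μ N = om x N / S1 x`.
-/

set_option linter.unusedSectionVars false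

namespace Pool.Agent.H21.MT

open Finset Filter

theorem sieve {I : Type} [Fintype I] [DecidableEq I] [Nonempty I] (h : I → ℕ)
    (hinj : Function.Injective h)
    (hadm : ∀ p : ℕ, p.Prime → ∃ a : ℕ, ∀ i, ¬ p ∣ a + h i) (tau : I → ℝ) (l : I → ℕ)
    (h1 : ∀ i, 0 < tau i) (h2 : ∀ i, (2 : ℝ) ^ l i * tau i ≤ 1 / 2)
    (h3 : ∑ i, ((l i : ℝ) + 1) * tau i ≤ 1 / 10) (N0 : ℕ) :
    ∃ (T : Finset ℕ) (μ : ℕ → ℝ), (∀ N ∈ T, N0 < N) ∧ (∀ N, 0 ≤ μ N) ∧ ∑ N ∈ T, μ N = 1 ∧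
      (∀ m, (1 / 10 ^ 10) * (tau m * (l m + 2) ^ 2) ≤
        ∑ N ∈ T.filter (fun N => (N + h m).Prime), μ N) ∧
      (∀ S : Finset I, S.Nonempty →
        ∑ N ∈ T.filter (fun N => ∀ j ∈ S, (N + h j).Prime), μ N ≤
          32 * ∏ j ∈ S, ((S.card : ℝ) * (tau j * (l j + 2) ^ 2))) := by
  obtain ⟨δ, rfl, rfl, rfl⟩ := dat_exists h hinj hadm tau l h1 h2 h3
  have e1 := S1_bounds δ
  have e2 := par_AB δ
  have e3 := wN_mass
  have e4 : ∀ᶠ x : ℝ in atTop, ∀ m : I,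
      (1 / 10 ^ 10) * (δ.tau m * (δ.l m + 2) ^ 2) * δ.S1 x ≤
        ∑ N ∈ (δ.WinB x).filter (fun N => (N + δ.h m).Prime), δ.om x N :=
    eventually_all.2 fun m => S2_lower δ m
  have e5 : ∀ᶠ x : ℝ in atTop, ∀ S : Finset I, S.Nonempty →
      ∑ N ∈ (δ.WinB x).filter (fun N => ∀ j ∈ S, (N + δ.h j).Prime), δ.om x N ≤
        32 * (∏ j ∈ S, ((S.card : ℝ) * (δ.tau j * (δ.l j + 2) ^ 2))) * δ.S1 x := by
    refine eventually_all.2 fun S => ?_
    by_cases hS : S.Nonempty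
    · exact (SS_upper δ S hS).mono fun x hx _ => hx
    · exact Eventually.of_forall fun x hx => absurd hx hS
  have e6 : ∀ᶠ x : ℝ in atTop, (N0 : ℝ) ^ 2 ≤ x ∧ 0 < x :=
    (eventually_ge_atTop _).and (eventually_gt_atTop 0)
  obtain ⟨x, hx1, hx2, hx3, hx4, hx5, hx6, hx7⟩ :=
    (e1.and (e2.and (e3.and (e4.and (e5.and e6))))).exists
  have hXX : 0 < XX x := by
    have : x / 8 ≤ XX x := hx3.1
    linarith
  have hW : (0 : ℝ) < δ.W := by exact_mod_cast δ.W_pos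
  have hB : (0 : ℝ) < ∏ i, δ.B x i :=
    Finset.prod_pos fun i _ => lt_of_lt_of_le one_pos (hx2 i).2.1
  have hS1 : 0 < δ.S1 x := by
    refine lt_of_lt_of_le ?_ hx1.1
    positivity
  have hom : ∀ N, 0 ≤ δ.om x N := fun N =>
    mul_nonneg (wN_pos x N).le (sq_nonneg _)
  refine ⟨δ.WinB x, fun N => δ.om x N / δ.S1 x, ?_, ?_, ?_, ?_, ?_⟩
  · intro N hN
    have h1 : N ∈ Win x := (Finset.mem_filter.1 hN).1
    have h2 : ⌊Real.sqrt x⌋₊ < N := (Finset.mem_Ioc.1 h1).1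
    refine lt_of_le_of_lt ?_ h2
    apply Nat.le_floor
    exact Real.le_sqrt_of_sq_le hx6
  · intro N
    exact div_nonneg (hom N) hS1.le
  · rw [← Finset.sum_div]
    exact div_self hS1.ne'
  · intro m
    rw [← Finset.sum_div, le_div_iff₀ hS1]
    exact hx4 m
  · intro S hS
    rw [← Finset.sum_div, div_le_iff₀ hS1]
    exact hx5 S hS

end Pool.Agent.H21.MT
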