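import Pool.Agent.H21.MT.StepD

/-!
[H21 MT STEPA]  Replacing the weights at one label by Selberg's optimal weights: exactness.

Proofs.
* `lamF_stepF`: for `d` without label `j`, `sub d s` holds iff `sub d (rem j s)`.  Group the `s` by
  `r = rem j s`: `∑_{s ⊇ d} F s/tot s = ∑_{r ⊇ d, r without j} Phi(r)/tot r` and
  `∑_{s ⊇ d} stepF s/tot s = ∑_r (1/tot r) Phi(r)/Zf(r) ∑_{rem j s = r, lab s j ≤ y} tot r/tot s`
  which is the same (`Zf > 0` because `s = r` has `lab = 1 ≤ y`).  `Phi`, `Zf` depend on `rem j s` only.
* `stepF_ne`: if `stepF s ≠ 0` then `Phi ≠ 0`, some `s'` with `rem j s' = rem j s` has `F s' ≠ 0`, so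
  `tot (rem j s) ≤ tot s' ≤ R`, and `tot s = tot (rem j s) * lab s j ≤ R * y`.
-/

set_option linter.unusedSectionVars false

namespace Pool.Agent.H21.MT

open Finset

variable {ι I : Type} [Fintype ι] [DecidableEq ι] [Fintype I] [DecidableEq I]

private theorem sA_rem_rem (j : I) (s : ι → Option I) : rem j (rem j s) = rem j s := by
  funext k
  unfold rem
  by_cases h : s k = some j
  · simp [h]
  · simp [h]

private theorem sA_rem_ne (j : I) (s : ι → Option I) (k : ι) : rem j s k ≠ some j := by
  unfold rem
  by_cases h : s k = some j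
  · simp [h]
  · simp [h]

private theorem sA_lab_rem (P : ι → ℕ) (j : I) (s : ι → Option I) : lab P (rem j s) j = 1 := by
  unfold lab
  apply Finset.prod_eq_one
  intro k _
  rw [if_neg (sA_rem_ne j s k)]

private theorem sA_tot (P : ι → ℕ) (j : I) (s : ι → Option I) :
    tot P s = tot P (rem j s) * lab P s j := by
  unfold tot lab
  rw [← Finset.prod_mul_distrib]
  apply Finset.prod_congr rfl
  intro k _
  unfold rem
  rcases h : s k with _ | i
  · simp
  · by_cases hi : i = j
    · subst hi
      simp
    · simp [hi]

private theorem sA_sub (j : I) (d s : ι → Option I) (hd : noL j d) :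
    sub d s ↔ sub d (rem j s) := by
  constructor
  · intro h k
    rcases h k with h1 | h1
    · exact Or.inl h1
    · right
      unfold rem
      have h2 : s k ≠ some j := by
        rw [← h1]
        exact hd k
      rw [if_neg h2]
      exact h1
  · intro h k
    rcases h k with h1 | h1
    · exact Or.inl h1
    · unfold rem at h1
      by_cases h2 : s k = some j
      · left
        rw [if_pos h2] at h1
        exact h1
      · right
        rw [if_neg h2] at h1
        exact h1

theorem lamF_stepF (P : ι → ℕ) (hP : ∀ k, (P k).Prime) (y : ℝ) (hy : 1 ≤ y) (j : I)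
    (F : (ι → Option I) → ℝ) (d : ι → Option I) (hd : noL j d) :
    lamF P (stepF P y j F) d = lamF P F d := by
  unfold lamF
  congr 1
  rw [← Finset.sum_fiberwise (univ.filter (fun s => sub d s)) (fun s => rem j s),
    ← Finset.sum_fiberwise (univ.filter (fun s => sub d s)) (fun s => rem j s)
      (fun s => F s / tot P s)]
  apply Finset.sum_congr rfl
  intro r _
  by_cases hr : ∃ s0, sub d s0 ∧ rem j s0 = r
  · obtain ⟨s0, hs0, rfl⟩ := hr
    have hset : (univ.filter (fun s => sub d s)).filter (fun s => rem j s = rem j s0) =
        univ.filter (fun s : ι → Option I => rem j s = rem j s0) := by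
      ext s
      simp only [mem_filter, mem_univ, true_and]
      constructor
      · exact fun h => h.2
      · intro h
        refine ⟨?_, h⟩
        rw [sA_sub j d s hd, h, ← sA_sub j d s0 hd]
        exact hs0
    rw [hset]
    have hposP : ∀ k, 0 < P k := fun k => (hP k).pos
    set r := rem j s0 with hrdef
    have hrr : rem j r = r := by
      rw [hrdef]
      exact sA_rem_rem j s0
    have htr : (0 : ℝ) < tot P r := by exact_mod_cast tot_pos hposP r
    -- constants on the fibre
    have hPhi : ∀ s, rem j s = r → Phi P F j s = (tot P r : ℝ) *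
        ∑ s' ∈ univ.filter (fun s' : ι → Option I => rem j s' = r), F s' / tot P s' := by
      intro s hs
      unfold Phi
      rw [hs, Finset.mul_sum]
      apply Finset.sum_congr rfl
      intro s' _
      ring
    have hZf : ∀ s, rem j s = r → Zf P y j s = (tot P r : ℝ) *
        ∑ s' ∈ univ.filter (fun s' : ι → Option I => rem j s' = r ∧ (lab P s' j : ℝ) ≤ y),
          1 / (tot P s' : ℝ) := by
      intro s hs
      unfold Zf
      rw [hs, Finset.mul_sum]
      apply Finset.sum_congr rfl
      intro s' _
      ring
    set PhiS := ∑ s' ∈ univ.filter (fun s' : ι → Option I => rem j s' = r), F s' / tot P s'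
      with hPhiS
    set ZS := ∑ s' ∈ univ.filter (fun s' : ι → Option I => rem j s' = r ∧ (lab P s' j : ℝ) ≤ y),
          1 / (tot P s' : ℝ) with hZS
    have hZpos : 0 < ZS := by
      rw [hZS]
      apply Finset.sum_pos
      · intro s' _
        have : (0 : ℝ) < tot P s' := by exact_mod_cast tot_pos hposP s'
        positivity
      · refine ⟨r, ?_⟩
        simp only [mem_filter, mem_univ, true_and]
        refine ⟨hrr, ?_⟩
        rw [hrdef, sA_lab_rem]
        simpa using hy
    have h1 : ∀ s ∈ univ.filter (fun s : ι → Option I => rem j s = r),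
        stepF P y j F s / tot P s =
          if (lab P s j : ℝ) ≤ y then (PhiS / ZS) * (1 / (tot P s : ℝ)) else 0 := by
      intro s hs
      simp only [mem_filter, mem_univ, true_and] at hs
      unfold stepF
      split_ifs with hl
      · rw [hPhi s hs, hZf s hs]
        rw [mul_div_mul_left _ _ htr.ne']
        ring
      · simp
    rw [Finset.sum_congr rfl h1, ← Finset.sum_filter, Finset.filter_filter, ← Finset.mul_sum,
      ← hZS]
    field_simp
  · have hemp : (univ.filter (fun s => sub d s)).filter (fun s => rem j s = r) = ∅ := by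
      ext s
      simp only [mem_filter, mem_univ, true_and, notMem_empty, iff_false]
      intro h
      exact hr ⟨s, h.1, h.2⟩
    rw [hemp]
    simp

theorem stepF_ne (P : ι → ℕ) (hP : ∀ k, (P k).Prime) (y R : ℝ) (hy : 1 ≤ y) (j : I)
    (F : (ι → Option I) → ℝ) (hF : ∀ s, F s ≠ 0 → (tot P s : ℝ) ≤ R) (s : ι → Option I)
    (hs : stepF P y j F s ≠ 0) : (tot P s : ℝ) ≤ R * y := by
  have hposP : ∀ k, 0 < P k := fun k => (hP k).pos
  unfold stepF at hs
  split_ifs at hs with hl
  · have hPhi : Phi P F j s ≠ 0 := by
      intro h0
      apply hs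
      rw [h0, zero_div]
    unfold Phi at hPhi
    obtain ⟨s', hs', hne⟩ := Finset.exists_ne_zero_of_sum_ne_zero hPhi
    simp only [mem_filter, mem_univ, true_and] at hs'
    have hF' : F s' ≠ 0 := by
      intro h0
      apply hne
      rw [h0]
      simp
    have h1 := hF s' hF'
    have h2 : tot P (rem j s) ≤ tot P s' := by
      rw [← hs', sA_tot P j s']
      exact Nat.le_mul_of_pos_right _ (lab_pos hposP s' j)
    have h3 : (tot P (rem j s) : ℝ) ≤ R := by
      have : (tot P (rem j s) : ℝ) ≤ tot P s' := by exact_mod_cast h2
      linarith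
    have h4 : (0 : ℝ) < tot P (rem j s) := by exact_mod_cast tot_pos hposP _
    rw [sA_tot P j s]
    push_cast
    have h5 : (0 : ℝ) ≤ lab P s j := by positivity
    exact mul_le_mul h3 hl h5 (by linarith)
  · exact absurd rfl hs

theorem stepF_nonneg (P : ι → ℕ) (y : ℝ) (j : I) (F : (ι → Option I) → ℝ) (hF : ∀ s, 0 ≤ F s)
    (s : ι → Option I) : 0 ≤ stepF P y j F s := by
  unfold stepF
  split_ifs with hl
  · apply div_nonneg
    · unfold Phi
      apply Finset.sum_nonneg
      intro s' _
      have := hF s'
      positivity
    · unfold Zf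
      apply Finset.sum_nonneg
      intro s' _
      positivity
  · exact le_refl _

end Pool.Agent.H21.MT
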