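import Pool.Agent.H21.MT.ProdLe

/-!
MP_8923e7_nt, project MT.  Selberg's optimal weights at one label (definitions).
-/

set_option linter.unusedSectionVars false

namespace Pool.Agent.H21.MT

open Finset

variable {ι I : Type} [Fintype ι] [DecidableEq ι] [Fintype I] [DecidableEq I]

/-- remove the label `j` -/
def rem (j : I) (s : ι → Option I) : ι → Option I := fun k => if s k = some j then none else s k

noncomputable def Phi (P : ι → ℕ) (F : (ι → Option I) → ℝ) (j : I) (s : ι → Option I) : ℝ :=
  ∑ s' ∈ univ.filter (fun s' : ι → Option I => rem j s' = rem j s),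
    F s' * tot P (rem j s) / tot P s'

noncomputable def Zf (P : ι → ℕ) (y : ℝ) (j : I) (s : ι → Option I) : ℝ :=
  ∑ s' ∈ univ.filter (fun s' : ι → Option I => rem j s' = rem j s ∧ (lab P s' j : ℝ) ≤ y),
    (tot P (rem j s) : ℝ) / tot P s'

noncomputable def stepF (P : ι → ℕ) (y : ℝ) (j : I) (F : (ι → Option I) → ℝ)
    (s : ι → Option I) : ℝ :=
  if (lab P s j : ℝ) ≤ y then Phi P F j s / Zf P y j s else 0

end Pool.Agent.H21.MT
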