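import Pool.Agent.H21.MT.Core1
import Pool.Agent.H21.MT.SelSeq

/-!
[H21 MT T1]  Theorem T1.

Proof.  By `ψ → ∞` choose `L j ≥ 20 * 2^j` with `ψ y ≥ 20 * 10^12 * 2^j` for all `y ≥ L j`.
`sel_seq` gives blocks, `core1` gives `B`.  For `j` in the infinite set of `core1`:
`(B ∩ Iic (y j)).ncard ≥ #{a ∈ H j | a ∈ B} ≥ 10^{-12} l j/2^j ≥ 10^{-12} log(|A ∩ Iic (y j)|)/
(20 * 2^j) ≥ log(...)/ψ(y j)` (numerator `≥ 0`, `ψ (y j) ≥ 20*10^12*2^j > 0`), and `y j ≥ L j → ∞`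
(`L j ≥ 2^j`), so this happens for arbitrarily large `y`.
-/

namespace Pool.Agent.H21.MT

open Finset Filter

theorem t1 (A : Set ℕ) (hA : A.Infinite) (ψ : ℕ → ℝ) (hψ : Tendsto ψ atTop atTop) :
    ∃ B : Set ℕ, B ⊆ A ∧
      (∀ F : Finset ℕ, ↑F ⊆ B → {N : ℕ | ∀ a ∈ F, (N + a).Prime}.Infinite) ∧
      ∃ᶠ y : ℕ in atTop, Real.log ((A ∩ Set.Iic y).ncard : ℝ) / ψ y ≤ ((B ∩ Set.Iic y).ncard : ℝ) := by
  classical
  have hM : ∀ j : ℕ, ∃ M : ℕ, ∀ y, M ≤ y → (20 * 10 ^ 12 * 2 ^ j : ℝ) ≤ ψ y := fun j =>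
    eventually_atTop.mp (tendsto_atTop.mp hψ (20 * 10 ^ 12 * 2 ^ j : ℝ))
  choose M hM using hM
  obtain ⟨H, l, y, hcard, hdisj, hHA, hL, hlog, hadm⟩ :=
    sel_seq A hA (fun j => max (M j) (20 * 2 ^ j))
  have hl : ∀ j, 20 * 2 ^ j ≤ l j := fun j => (le_max_right _ _).trans (hL j).1
  obtain ⟨B, hB1, hB2, hB3⟩ := core1 H l hcard hdisj hl hadm
  refine ⟨B, ?_, hB2, ?_⟩
  · intro a ha
    obtain ⟨j, hj⟩ := hB1 a ha
    exact (hHA j a hj).1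
  · rw [frequently_atTop]
    intro a
    obtain ⟨j, hj, haj⟩ := hB3.exists_gt a
    have hy : max (M j) (20 * 2 ^ j) ≤ y j := (hL j).2
    have hyM : M j ≤ y j := (le_max_left _ _).trans hy
    have hy2 : 20 * 2 ^ j ≤ y j := (le_max_right _ _).trans hy
    have hj2 : j < 2 ^ j := Nat.lt_two_pow_self
    refine ⟨y j, by omega, ?_⟩
    have hψj : (20 * 10 ^ 12 * 2 ^ j : ℝ) ≤ ψ (y j) := hM j (y j) hyM
    have hpos : (0 : ℝ) < 20 * 10 ^ 12 * 2 ^ j := by positivity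
    have hψ0 : 0 < ψ (y j) := lt_of_lt_of_le hpos hψj
    have h1 : Real.log ((A ∩ Set.Iic (y j)).ncard : ℝ) / ψ (y j) ≤
        (20 * (l j : ℝ)) / (20 * 10 ^ 12 * 2 ^ j) := by
      refine div_le_div₀ (by positivity) (hlog j) hpos hψj
    have h2 : (20 * (l j : ℝ)) / (20 * 10 ^ 12 * 2 ^ j) = (1 / 10 ^ 12 : ℝ) * (l j / 2 ^ j) := by
      field_simp
    have h3 : ((H j).filter (fun a => a ∈ B)).card ≤ (B ∩ Set.Iic (y j)).ncard := by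
      rw [← Set.ncard_coe_finset]
      refine Set.ncard_le_ncard ?_ ((Set.finite_Iic (y j)).subset Set.inter_subset_right)
      intro x hx
      have hx' := Finset.mem_filter.mp (Finset.mem_coe.mp hx)
      exact ⟨hx'.2, (hHA j x hx'.1).2⟩
    have h4 : (((H j).filter (fun a => a ∈ B)).card : ℝ) ≤ ((B ∩ Set.Iic (y j)).ncard : ℝ) := by
      exact_mod_cast h3
    have h5 : (1 / 10 ^ 12 : ℝ) * (l j / 2 ^ j) ≤ (((H j).filter (fun a => a ∈ B)).card : ℝ) := hj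
    linarith

end Pool.Agent.H21.MT
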