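import Pool.Agent.H21.MT.T1

/-!
The coloured exact-pattern form of Theorem T1.
-/

namespace Pool.Agent.H21.MT

open Finset Filter

theorem t1x (A : Set ℕ) (hA : A.Infinite) (r : ℕ) (c : ℕ → Fin r) (ψ : ℕ → ℝ)
    (hψ : Tendsto ψ atTop atTop) :
    ∃ (i : Fin r) (B : Set ℕ), (A ∩ B).Infinite ∧
      (∀ F : Finset ℕ, {N : ℕ | ∀ a ∈ F, ((N + a).Prime ∧ c (N + a) = i) ↔ a ∈ B}.Infinite) ∧
      ∃ᶠ y : ℕ in atTop, Real.log ((A ∩ Set.Iic y).ncard : ℝ) / ψ y ≤
        ((A ∩ B ∩ Set.Iic y).ncard : ℝ) := by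
  classical
  have hr : 0 < r := (c 0).pos
  have hr' : (0 : ℝ) < r := by exact_mod_cast hr
  -- the counting function of `A` tends to infinity
  set L : ℕ → ℝ := fun y => Real.log ((A ∩ Set.Iic y).ncard : ℝ) with hLdef
  have hfin : ∀ (X : Set ℕ) (y : ℕ), (X ∩ Set.Iic y).Finite := fun X y =>
    (Set.finite_Iic y).subset Set.inter_subset_right
  have hcount : Tendsto (fun y : ℕ => (A ∩ Set.Iic y).ncard) atTop atTop := by
    rw [tendsto_atTop]
    intro m
    obtain ⟨S, hS, hSc⟩ := hA.exists_subset_card_eq m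
    have : ∀ᶠ y : ℕ in atTop, ∀ a ∈ S, a ≤ y := by
      filter_upwards [eventually_ge_atTop (S.sup id)] with y hy a ha
      exact (Finset.le_sup (f := id) ha).trans hy
    filter_upwards [this] with y hy
    rw [← hSc, ← Set.ncard_coe_finset]
    exact Set.ncard_le_ncard (fun a ha => ⟨hS ha, hy a (Finset.mem_coe.mp ha)⟩) (hfin A y)
  have hL : Tendsto L atTop atTop :=
    Real.tendsto_log_atTop.comp (tendsto_natCast_atTop_atTop.comp hcount)
  have hLs : Tendsto (fun y => Real.sqrt (L y)) atTop atTop := Real.tendsto_sqrt_atTop.comp hL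
  set φ : ℕ → ℝ := fun y => min (ψ y) (Real.sqrt (L y)) with hφdef
  have hφ : Tendsto φ atTop atTop := by
    rw [tendsto_atTop]
    intro b
    filter_upwards [tendsto_atTop.mp hψ b, tendsto_atTop.mp hLs b] with y h1 h2
    exact le_min h1 h2
  have hφr : Tendsto (fun y => φ y / r) atTop atTop := hφ.atTop_div_const hr'
  obtain ⟨B₀, hB₀A, hB₀, hfreq⟩ := t1 A hA (fun y => φ y / r) hφr
  -- a sequence of good translates
  have hN : ∀ n : ℕ, ∃ N : ℕ, n < N ∧ ∀ a ∈ B₀, a ≤ n → (N + a).Prime := by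
    intro n
    have h1 := hB₀ ((hfin B₀ n).toFinset) (by
      rw [Set.Finite.coe_toFinset]
      exact Set.inter_subset_left)
    obtain ⟨N, hN, hnN⟩ := h1.exists_gt n
    refine ⟨N, hnN, fun a ha han => hN a ?_⟩
    rw [Set.Finite.mem_toFinset]
    exact ⟨ha, han⟩
  choose Nf hNf hNp using hN
  set U : Ultrafilter ℕ := hyperfilter ℕ with hU
  have hUinf : ∀ X : Set ℕ, X ∈ U → X.Infinite := fun X hX => by
    intro hXf
    have h1 : Xᶜ ∈ (U : Filter ℕ) := by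
      apply hyperfilter_le_cofinite
      rw [Filter.mem_cofinite, compl_compl]
      exact hXf
    exact (Ultrafilter.compl_mem_iff_notMem.1 h1) hX
  set Bf : Fin r → Set ℕ := fun i => {a | {n : ℕ | (Nf n + a).Prime ∧ c (Nf n + a) = i} ∈ U}
    with hBf
  -- exact patterns
  have hpat : ∀ (i : Fin r) (F : Finset ℕ),
      {N : ℕ | ∀ a ∈ F, ((N + a).Prime ∧ c (N + a) = i) ↔ a ∈ Bf i}.Infinite := by
    intro i F
    have h1 : {n : ℕ | ∀ a ∈ F, ((Nf n + a).Prime ∧ c (Nf n + a) = i) ↔ a ∈ Bf i} ∈ U := by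
      have h2 : ∀ a ∈ F, {n : ℕ | ((Nf n + a).Prime ∧ c (Nf n + a) = i) ↔ a ∈ Bf i} ∈
          (U : Filter ℕ) := by
        intro a _
        by_cases hab : a ∈ Bf i
        · have h3 : {n : ℕ | (Nf n + a).Prime ∧ c (Nf n + a) = i} ∈ (U : Filter ℕ) := hab
          filter_upwards [h3] with n hn
          exact ⟨fun _ => hab, fun _ => hn⟩
        · have h3 : {n : ℕ | (Nf n + a).Prime ∧ c (Nf n + a) = i}ᶜ ∈ (U : Filter ℕ) :=
            Ultrafilter.compl_mem_iff_notMem.2 hab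
          filter_upwards [h3] with n hn
          exact ⟨fun h => absurd h hn, fun h => absurd h hab⟩
      have h4 := (Filter.biInter_finset_mem F).2 h2
      refine Filter.mem_of_superset h4 ?_
      intro n hn a ha
      rw [Set.mem_iInter₂] at hn
      exact hn a ha
    have h5 := hUinf _ h1
    refine Set.infinite_of_not_bddAbove ?_
    rintro ⟨M, hM⟩
    obtain ⟨n, hn, hMn⟩ := h5.exists_gt M
    have h6 : Nf n ≤ M := hM hn
    have h7 := hNf n
    omega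
  -- every element of `B₀` gets a colour
  have hcol : ∀ a ∈ B₀, ∃ i, a ∈ Bf i := by
    intro a ha
    by_contra hcon
    push Not at hcon
    have h1 : ∀ i : Fin r, {n : ℕ | (Nf n + a).Prime ∧ c (Nf n + a) = i}ᶜ ∈ (U : Filter ℕ) :=
      fun i => Ultrafilter.compl_mem_iff_notMem.2 (hcon i)
    have h2 : (⋂ i : Fin r, {n : ℕ | (Nf n + a).Prime ∧ c (Nf n + a) = i}ᶜ) ∈ (U : Filter ℕ) :=
      Filter.iInter_mem.2 h1
    obtain ⟨n, hn, han⟩ := (hUinf _ h2).exists_gt a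
    rw [Set.mem_iInter] at hn
    exact hn (c (Nf n + a)) ⟨hNp n a ha han.le, rfl⟩
  -- pigeonhole
  have hkey : ∀ y : ℕ, L y / (φ y / r) ≤ ((B₀ ∩ Set.Iic y).ncard : ℝ) → 0 < φ y →
      ∃ i : Fin r, L y / φ y ≤ ((A ∩ Bf i ∩ Set.Iic y).ncard : ℝ) := by
    intro y hy hφy
    by_contra hcon
    push Not at hcon
    have h1 : (B₀ ∩ Set.Iic y) ⊆ ⋃ i ∈ (univ : Finset (Fin r)), (A ∩ Bf i ∩ Set.Iic y) := by
      rintro a ⟨ha, hay⟩
      obtain ⟨i, hi⟩ := hcol a ha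
      rw [Set.mem_iUnion₂]
      exact ⟨i, mem_univ _, ⟨hB₀A ha, hi⟩, hay⟩
    have h2 : (B₀ ∩ Set.Iic y).ncard ≤ ∑ i : Fin r, (A ∩ Bf i ∩ Set.Iic y).ncard := by
      refine (Set.ncard_le_ncard h1 ?_).trans (Finset.set_ncard_biUnion_le _ _)
      exact Set.Finite.biUnion (Finset.finite_toSet _) (fun i _ => hfin _ y)
    have h3 : ((B₀ ∩ Set.Iic y).ncard : ℝ) ≤ ∑ i : Fin r, ((A ∩ Bf i ∩ Set.Iic y).ncard : ℝ) := by
      exact_mod_cast h2
    have h4 : ∑ i : Fin r, ((A ∩ Bf i ∩ Set.Iic y).ncard : ℝ) < ∑ _i : Fin r, L y / φ y :=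
      Finset.sum_lt_sum_of_nonempty ⟨c 0, mem_univ _⟩ (fun i _ => hcon i)
    rw [Finset.sum_const, Finset.card_univ, Fintype.card_fin, nsmul_eq_mul] at h4
    have h5 : L y / (φ y / r) = r * (L y / φ y) := by
      field_simp
    linarith
  have hfreq2 : ∃ᶠ y : ℕ in atTop, ∃ i : Fin r,
      L y / φ y ≤ ((A ∩ Bf i ∩ Set.Iic y).ncard : ℝ) := by
    refine (hfreq.and_eventually (tendsto_atTop.mp hφ 1)).mono ?_
    rintro y ⟨h1, h2⟩
    exact hkey y h1 (by linarith)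
  have hex : ∃ i : Fin r, ∃ᶠ y : ℕ in atTop,
      L y / φ y ≤ ((A ∩ Bf i ∩ Set.Iic y).ncard : ℝ) := by
    by_contra hcon
    rw [not_exists] at hcon
    have h1 : ∀ i : Fin r, ∀ᶠ y : ℕ in atTop,
        ¬ (L y / φ y ≤ ((A ∩ Bf i ∩ Set.Iic y).ncard : ℝ)) := fun i =>
      not_frequently.mp (hcon i)
    have h2 := eventually_all.mpr h1
    exact hfreq2 (h2.mono fun y hy ⟨i, hi⟩ => hy i hi)
  obtain ⟨i, hi⟩ := hex
  refine ⟨i, Bf i, ?_, hpat i, ?_⟩
  · -- infinitely many elements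
    intro hfinAB
    have hbd : ∀ y : ℕ, ((A ∩ Bf i ∩ Set.Iic y).ncard : ℝ) ≤ ((A ∩ Bf i).ncard : ℝ) := by
      intro y
      exact_mod_cast Set.ncard_le_ncard Set.inter_subset_left hfinAB
    obtain ⟨y, h1, h2, h3⟩ := (hi.and_eventually ((tendsto_atTop.mp hLs
      (((A ∩ Bf i).ncard : ℝ) + 1)).and (tendsto_atTop.mp hφ 1))).exists
    have h4 : 0 < φ y := by linarith
    have h5 : φ y ≤ Real.sqrt (L y) := min_le_right _ _
    have h6 : 0 < Real.sqrt (L y) := lt_of_lt_of_le h4 h5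
    have h7 : 0 < L y := Real.sqrt_pos.mp h6
    have h8 : Real.sqrt (L y) ≤ L y / φ y := by
      rw [le_div_iff₀ h4]
      calc Real.sqrt (L y) * φ y ≤ Real.sqrt (L y) * Real.sqrt (L y) :=
            mul_le_mul_of_nonneg_left h5 h6.le
        _ = L y := Real.mul_self_sqrt h7.le
    have := hbd y
    linarith
  · refine (hi.and_eventually ((tendsto_atTop.mp hφ 1).and (tendsto_atTop.mp hL 0))).mono ?_
    rintro y ⟨h1, h2, h3⟩
    refine le_trans ?_ h1
    have h4 : 0 < φ y := by linarith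
    have h5 : φ y ≤ ψ y := min_le_left _ _
    exact div_le_div_of_nonneg_left h3 h4 h5

end Pool.Agent.H21.MT
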