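import Pool.Agent.H21.MT.Core3
import Pool.Agent.H21.MT.SelSeq

/-!
Theorem T1 in its final form: limit patterns of the primes, with their colours, inside any infinite
set of shifts.
-/

namespace Pool.Agent.H21.MT

open Finset Filter

theorem t1_exact (A : Set ℕ) (hA : A.Infinite) (ψ : ℕ → ℝ) (hψ : Tendsto ψ atTop atTop) :
    ∃ B : Set ℕ, B ⊆ A ∧
      (∀ F : Finset ℕ, {N : ℕ | ∀ a ∈ F, (N + a).Prime ↔ a ∈ B}.Infinite) ∧
      ∃ᶠ y : ℕ in atTop, Real.log ((A ∩ Set.Iic y).ncard : ℝ) / ψ y ≤ ((B ∩ Set.Iic y).ncard : ℝ) := by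
  classical
  have hM : ∀ j : ℕ, ∃ M : ℕ, ∀ y, M ≤ y → (20 * 10 ^ 12 * 2 ^ j : ℝ) ≤ ψ y := fun j =>
    eventually_atTop.mp (tendsto_atTop.mp hψ (20 * 10 ^ 12 * 2 ^ j : ℝ))
  choose M hM using hM
  obtain ⟨H, l, y, hcard, hdisj, hHA, hL, hlog, hadm⟩ :=
    sel_seq A hA (fun j => max (M j) (320 * 2 ^ j))
  have hl : ∀ j, 320 * 2 ^ j ≤ l j := fun j => (le_max_right _ _).trans (hL j).1
  obtain ⟨B, hB1, hB2, hB3⟩ := core3 H l hcard hdisj hl hadm
  refine ⟨B, ?_, hB2, ?_⟩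
  · intro a ha
    obtain ⟨j, hj⟩ := hB1 a ha
    exact (hHA j a hj).1
  · rw [frequently_atTop]
    intro a
    obtain ⟨j, hj, haj⟩ := hB3.exists_gt a
    have hy : max (M j) (320 * 2 ^ j) ≤ y j := (hL j).2
    have hyM : M j ≤ y j := (le_max_left _ _).trans hy
    have hy2 : 320 * 2 ^ j ≤ y j := (le_max_right _ _).trans hy
    have hj2 : j < 2 ^ j := Nat.lt_two_pow_self
    refine ⟨y j, by omega, ?_⟩
    have hψj : (20 * 10 ^ 12 * 2 ^ j : ℝ) ≤ ψ (y j) := hM j (y j) hyM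
    have hpos : (0 : ℝ) < 20 * 10 ^ 12 * 2 ^ j := by positivity
    have hψ0 : 0 < ψ (y j) := lt_of_lt_of_le hpos hψj
    have h1 : Real.log ((A ∩ Set.Iic (y j)).ncard : ℝ) / ψ (y j) ≤
        (20 * (l j : ℝ)) / (20 * 10 ^ 12 * 2 ^ j) := by
      refine div_le_div₀ (by positivity) (hlog j) hpos hψj
    have h2 : (20 * (l j : ℝ)) / (20 * 10 ^ 12 * 2 ^ j) = (1 / 10 ^ 12 : ℝ) * (l j / 2 ^ j) := by
      field_simp
    have h3 : ((H j).filter (fun a => a ∈ B)).card ≤ (B ∩ Set.Iic (y j)).ncard := by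
      rw [← Set.ncard_coe_finset]
      refine Set.ncard_le_ncard ?_ ((Set.finite_Iic (y j)).subset Set.inter_subset_right)
      intro x hx
      have hx' := Finset.mem_filter.mp (Finset.mem_coe.mp hx)
      exact ⟨hx'.2, (hHA j x hx'.1).2⟩
    have h4 : (((H j).filter (fun a => a ∈ B)).card : ℝ) ≤ ((B ∩ Set.Iic (y j)).ncard : ℝ) := by
      exact_mod_cast h3
    have h5 : (1 / 10 ^ 12 : ℝ) * (l j / 2 ^ j) ≤ (((H j).filter (fun a => a ∈ B)).card : ℝ) := hj.1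
    linarith

/-- limit colours along an exact limit pattern -/
theorem limit_colours (B : Set ℕ)
    (hB : ∀ F : Finset ℕ, {N : ℕ | ∀ a ∈ F, (N + a).Prime ↔ a ∈ B}.Infinite) {r : ℕ}
    (c : ℕ → Fin r) : ∃ κ : ℕ → Fin r, ∀ M : ℕ,
      {N : ℕ | ∀ a ≤ M, ((N + a).Prime ↔ a ∈ B) ∧ (a ∈ B → c (N + a) = κ a)}.Infinite := by
  classical
  have hN : ∀ n : ℕ, ∃ N : ℕ, n < N ∧ ∀ a ≤ n, (N + a).Prime ↔ a ∈ B := by
    intro n
    obtain ⟨N, hN, hnN⟩ := (hB (Finset.range (n + 1))).exists_gt n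
    exact ⟨N, hnN, fun a ha => hN a (Finset.mem_range.mpr (by omega))⟩
  choose Nf hNf hNp using hN
  set U : Ultrafilter ℕ := hyperfilter ℕ with hU
  have hUinf : ∀ X : Set ℕ, X ∈ U → X.Infinite := fun X hX => by
    intro hXf
    have h1 : Xᶜ ∈ (U : Filter ℕ) := by
      apply hyperfilter_le_cofinite
      rw [Filter.mem_cofinite, compl_compl]
      exact hXf
    exact (Ultrafilter.compl_mem_iff_notMem.1 h1) hX
  have hcol : ∀ a : ℕ, ∃ i : Fin r, {n : ℕ | c (Nf n + a) = i} ∈ U := by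
    intro a
    by_contra hcon
    push Not at hcon
    have h1 : ∀ i : Fin r, {n : ℕ | c (Nf n + a) = i}ᶜ ∈ (U : Filter ℕ) :=
      fun i => Ultrafilter.compl_mem_iff_notMem.2 (hcon i)
    have h2 : (⋂ i : Fin r, {n : ℕ | c (Nf n + a) = i}ᶜ) ∈ (U : Filter ℕ) :=
      Filter.iInter_mem.2 h1
    obtain ⟨n, hn⟩ := (hUinf _ h2).nonempty
    rw [Set.mem_iInter] at hn
    exact hn (c (Nf n + a)) rfl
  choose κ hκ using hcol
  refine ⟨κ, fun M => ?_⟩
  have h1 : {n : ℕ | ∀ a ≤ M, ((Nf n + a).Prime ↔ a ∈ B) ∧ (a ∈ B → c (Nf n + a) = κ a)} ∈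
      (U : Filter ℕ) := by
    have h2 : (⋂ a ∈ Finset.range (M + 1), {n : ℕ | c (Nf n + a) = κ a}) ∈ (U : Filter ℕ) :=
      (Filter.biInter_finset_mem _).2 (fun a _ => hκ a)
    have h3 : Set.Ici M ∈ (U : Filter ℕ) := by
      apply hyperfilter_le_cofinite
      rw [Filter.mem_cofinite]
      refine (Set.finite_Iio M).subset ?_
      intro n hn
      rw [Set.mem_compl_iff, Set.mem_Ici, not_le] at hn
      exact hn
    filter_upwards [h2, h3] with n hn hMn a ha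
    rw [Set.mem_iInter₂] at hn
    exact ⟨hNp n a (ha.trans hMn), fun _ => hn a (Finset.mem_range.mpr (by omega))⟩
  have h5 := hUinf _ h1
  refine Set.infinite_of_not_bddAbove ?_
  rintro ⟨M', hM'⟩
  obtain ⟨n, hn, hMn⟩ := h5.exists_gt M'
  have h6 : Nf n ≤ M' := hM' hn
  have h7 := hNf n
  omega

/-- Theorem T1, final form. -/
theorem t1y (A : Set ℕ) (hA : A.Infinite) (r : ℕ) (c : ℕ → Fin r) (ψ : ℕ → ℝ)
    (hψ : Tendsto ψ atTop atTop) :
    ∃ (B : Set ℕ) (κ : ℕ → Fin r) (i : Fin r), B ⊆ A ∧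
      (∀ M : ℕ,
        {N : ℕ | ∀ a ≤ M, ((N + a).Prime ↔ a ∈ B) ∧ (a ∈ B → c (N + a) = κ a)}.Infinite) ∧
      {a ∈ B | κ a = i}.Infinite ∧
      ∃ᶠ y : ℕ in atTop, Real.log ({a ∈ A | a ≤ y}.ncard : ℝ) / ψ y ≤
        ({a ∈ B | κ a = i ∧ a ≤ y}.ncard : ℝ) := by
  classical
  have hr : 0 < r := (c 0).pos
  have hr' : (0 : ℝ) < r := by exact_mod_cast hr
  set L : ℕ → ℝ := fun y => Real.log ((A ∩ Set.Iic y).ncard : ℝ) with hLdef
  have hfin : ∀ (X : Set ℕ) (y : ℕ), (X ∩ Set.Iic y).Finite := fun X y =>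
    (Set.finite_Iic y).subset Set.inter_subset_right
  have hcount : Tendsto (fun y : ℕ => (A ∩ Set.Iic y).ncard) atTop atTop := by
    rw [tendsto_atTop]
    intro m
    obtain ⟨S, hS, hSc⟩ := hA.exists_subset_card_eq m
    have : ∀ᶠ y : ℕ in atTop, ∀ a ∈ S, a ≤ y := by
      filter_upwards [eventually_ge_atTop (S.sup id)] with y hy a ha
      exact (Finset.le_sup (f := id) ha).trans hy
    filter_upwards [this] with y hy
    rw [← hSc, ← Set.ncard_coe_finset]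
    exact Set.ncard_le_ncard (fun a ha => ⟨hS ha, hy a (Finset.mem_coe.mp ha)⟩) (hfin A y)
  have hL : Tendsto L atTop atTop :=
    Real.tendsto_log_atTop.comp (tendsto_natCast_atTop_atTop.comp hcount)
  have hLs : Tendsto (fun y => Real.sqrt (L y)) atTop atTop := Real.tendsto_sqrt_atTop.comp hL
  set φ : ℕ → ℝ := fun y => min (ψ y) (Real.sqrt (L y)) with hφdef
  have hφ : Tendsto φ atTop atTop := by
    rw [tendsto_atTop]
    intro b
    filter_upwards [tendsto_atTop.mp hψ b, tendsto_atTop.mp hLs b] with y h1 h2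
    exact le_min h1 h2
  have hφr : Tendsto (fun y => φ y / r) atTop atTop := hφ.atTop_div_const hr'
  obtain ⟨B, hBA, hB, hfreq⟩ := t1_exact A hA (fun y => φ y / r) hφr
  obtain ⟨κ, hκ⟩ := limit_colours B hB c
  set Bf : Fin r → Set ℕ := fun i => {a ∈ B | κ a = i} with hBf
  have hkey : ∀ y : ℕ, L y / (φ y / r) ≤ ((B ∩ Set.Iic y).ncard : ℝ) → 0 < φ y →
      ∃ i : Fin r, L y / φ y ≤ ((Bf i ∩ Set.Iic y).ncard : ℝ) := by
    intro y hy hφy
    by_contra hcon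
    push Not at hcon
    have h1 : (B ∩ Set.Iic y) ⊆ ⋃ i ∈ (univ : Finset (Fin r)), (Bf i ∩ Set.Iic y) := by
      rintro a ⟨ha, hay⟩
      rw [Set.mem_iUnion₂]
      exact ⟨κ a, mem_univ _, ⟨ha, rfl⟩, hay⟩
    have h2 : (B ∩ Set.Iic y).ncard ≤ ∑ i : Fin r, (Bf i ∩ Set.Iic y).ncard := by
      refine (Set.ncard_le_ncard h1 ?_).trans (Finset.set_ncard_biUnion_le _ _)
      exact Set.Finite.biUnion (Finset.finite_toSet _) (fun i _ => hfin _ y)
    have h3 : ((B ∩ Set.Iic y).ncard : ℝ) ≤ ∑ i : Fin r, ((Bf i ∩ Set.Iic y).ncard : ℝ) := by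
      exact_mod_cast h2
    have h4 : ∑ i : Fin r, ((Bf i ∩ Set.Iic y).ncard : ℝ) < ∑ _i : Fin r, L y / φ y :=
      Finset.sum_lt_sum_of_nonempty ⟨c 0, mem_univ _⟩ (fun i _ => hcon i)
    rw [Finset.sum_const, Finset.card_univ, Fintype.card_fin, nsmul_eq_mul] at h4
    have h5 : L y / (φ y / r) = r * (L y / φ y) := by
      field_simp
    linarith
  have hfreq2 : ∃ᶠ y : ℕ in atTop, ∃ i : Fin r,
      L y / φ y ≤ ((Bf i ∩ Set.Iic y).ncard : ℝ) := by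
    refine (hfreq.and_eventually (tendsto_atTop.mp hφ 1)).mono ?_
    rintro y ⟨h1, h2⟩
    exact hkey y h1 (by linarith)
  have hex : ∃ i : Fin r, ∃ᶠ y : ℕ in atTop,
      L y / φ y ≤ ((Bf i ∩ Set.Iic y).ncard : ℝ) := by
    by_contra hcon
    rw [not_exists] at hcon
    have h1 : ∀ i : Fin r, ∀ᶠ y : ℕ in atTop,
        ¬ (L y / φ y ≤ ((Bf i ∩ Set.Iic y).ncard : ℝ)) := fun i =>
      not_frequently.mp (hcon i)
    have h2 := eventually_all.mpr h1
    exact hfreq2 (h2.mono fun y hy ⟨i, hi⟩ => hy i hi)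
  obtain ⟨i, hi⟩ := hex
  refine ⟨B, κ, i, hBA, hκ, ?_, ?_⟩
  · intro hfinAB
    have hfinAB' : (Bf i).Finite := hfinAB
    have hbd : ∀ y : ℕ, ((Bf i ∩ Set.Iic y).ncard : ℝ) ≤ ((Bf i).ncard : ℝ) := by
      intro y
      exact_mod_cast Set.ncard_le_ncard Set.inter_subset_left hfinAB'
    obtain ⟨y, h1, h2, h3⟩ := (hi.and_eventually ((tendsto_atTop.mp hLs
      (((Bf i).ncard : ℝ) + 1)).and (tendsto_atTop.mp hφ 1))).exists
    have h4 : 0 < φ y := by linarith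
    have h5 : φ y ≤ Real.sqrt (L y) := min_le_right _ _
    have h6 : 0 < Real.sqrt (L y) := lt_of_lt_of_le h4 h5
    have h7 : 0 < L y := Real.sqrt_pos.mp h6
    have h8 : Real.sqrt (L y) ≤ L y / φ y := by
      rw [le_div_iff₀ h4]
      calc Real.sqrt (L y) * φ y ≤ Real.sqrt (L y) * Real.sqrt (L y) :=
            mul_le_mul_of_nonneg_left h5 h6.le
        _ = L y := Real.mul_self_sqrt h7.le
    have := hbd y
    linarith
  · refine (hi.and_eventually ((tendsto_atTop.mp hφ 1).and (tendsto_atTop.mp hL 0))).mono ?_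
    rintro y ⟨h1, h2, h3⟩
    have h4 : 0 < φ y := by linarith
    have h5 : φ y ≤ ψ y := min_le_left _ _
    have h6 : L y / ψ y ≤ L y / φ y := div_le_div_of_nonneg_left h3 h4 h5
    have e1 : {a ∈ A | a ≤ y} = A ∩ Set.Iic y := rfl
    have e2 : {a ∈ B | κ a = i ∧ a ≤ y} = Bf i ∩ Set.Iic y := by
      ext a
      constructor
      · rintro ⟨h7, h8, h9⟩
        exact ⟨⟨h7, h8⟩, h9⟩
      · rintro ⟨⟨h7, h8⟩, h9⟩
        exact ⟨h7, h8, h9⟩
    rw [e1, e2]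
    exact h6.trans h1

end Pool.Agent.H21.MT
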