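import Pool.Agent.H21.MT.Sieve
import Pool.Agent.H21.MT.Pz

/-!
[H21 MT T3]  Theorem T3: a proportion `(c/m)^m` of the `m`-subsets is good.

Proof.  `c = 10^{-40}`.  Let `k = |H|`, `1 ≤ m ≤ c log k`, so `log k ≥ 10^40`.  `ℓ = ⌊log_2 k⌋`
(`Nat.log 2 k`), `τ = 1/(10 k (ℓ+1))`, `θ = τ (ℓ+2)^2`, `I = {h // h ∈ H}`.
`2^ℓ τ ≤ k τ ≤ 1/10`, `∑ (ℓ+1) τ = 1/10`.  For every `N0`: `sieve` gives `T, μ`; `pz` with `S = univ`
(`Y = k θ ≥ (ℓ+1)/10 ≥ 1`): the set of `N ∈ T` with `X(N) ≥ x0 := (1/10^10)/2 * k θ` has mass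
`≥ 10^{-23}`.  Here `x0 ≥ 10^{-10} (ℓ+1)/20 ≥ 10^{-12} log k ≥ m` and
`∑_{F ⊆ H, |F| = m} μ(all N + a prime, a ∈ F) = ∑ μ(N) binom(X(N), m) ≥ 10^{-23} (x0/m)^m`
(`binom(n,m) ≥ (n/m)^m` for `n ≥ m`, `Nat.pow_le_choose`-type bound).
Each `F` has mass `≤ 32 (m θ)^m` (`sieve` with `S = F`), `θ ≤ (9/40)(ℓ+1)/k`, `x0/θ = k/(2*10^10)`.  So
at least `(10^{-23}/32) (x0/(m^2 θ))^m = (10^{-23}/32) (k/(2*10^10 m^2))^m` sets `F` have positive mass,
i.e. some `N > N0` with `N + F` prime.  As this holds for all `N0` and there are finitely many `F`,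
at least as many `F` have infinitely many `N` (the finite sets `G_{N0}` of the good `F` decrease
with `N0`, so they are eventually constant).  Finally `binom(k,m) ≤ (3k/m)^m`
(`Nat.choose_le_pow_div` and `m! ≥ (m/3)^m`), and
`(10^{-25}) (1/(6*10^10 m))^m ≥ (10^{-40}/m)^m`.
-/

namespace Pool.Agent.H21.MT

open Finset Filter

private theorem choose_ge (m : ℕ) : ∀ n : ℕ, m + 1 ≤ n →
    ((n : ℝ) / ((m + 1 : ℕ) : ℝ)) ^ (m + 1) ≤ (n.choose (m + 1) : ℝ) := by
  induction m with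
  | zero =>
    intro n hn
    simp
  | succ m ih =>
    intro n hn
    obtain ⟨n', rfl⟩ : ∃ n', n = n' + 1 := ⟨n - 1, by omega⟩
    have h1 := ih n' (by omega)
    have h2 : ((n' + 1 : ℕ) : ℝ) * (n'.choose (m + 1) : ℝ) =
        (((n' + 1).choose (m + 1 + 1) : ℕ) : ℝ) * ((m + 1 + 1 : ℕ) : ℝ) := by
      exact_mod_cast Nat.add_one_mul_choose_eq n' (m + 1)
    have h3 : (((n' + 1).choose (m + 1 + 1) : ℕ) : ℝ) =
        ((n' + 1 : ℕ) : ℝ) / ((m + 1 + 1 : ℕ) : ℝ) * (n'.choose (m + 1) : ℝ) := by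
      rw [div_mul_eq_mul_div, h2, mul_div_assoc, div_self (by positivity), mul_one]
    rw [h3, pow_succ, mul_comm]
    refine mul_le_mul_of_nonneg_left ?_ (by positivity)
    refine le_trans (pow_le_pow_left₀ (by positivity) ?_ (m + 1)) h1
    rw [div_le_div_iff₀ (by positivity) (by positivity)]
    have h4 : ((m + 1 : ℕ) : ℝ) ≤ (n' : ℝ) := by exact_mod_cast (by omega : m + 1 ≤ n')
    push_cast at h4 ⊢
    nlinarith

private theorem choose_ge' (m n : ℕ) (x : ℝ) (hm : 1 ≤ m) (hx : (m : ℝ) ≤ x) (hn : x ≤ n) :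
    (x / m) ^ m ≤ (n.choose m : ℝ) := by
  obtain ⟨m', rfl⟩ : ∃ m', m = m' + 1 := ⟨m - 1, by omega⟩
  have hx0 : 0 ≤ x := le_trans (Nat.cast_nonneg _) hx
  have h1 : m' + 1 ≤ n := by exact_mod_cast hx.trans hn
  refine le_trans (pow_le_pow_left₀ (by positivity) ?_ _) (choose_ge m' n h1)
  exact div_le_div_of_nonneg_right hn (by positivity)

private theorem choose_le (k m : ℕ) (hm : 1 ≤ m) : (k.choose m : ℝ) ≤ (3 * (k : ℝ) / m) ^ m := by
  have hm0 : (0 : ℝ) < (m : ℝ) := by exact_mod_cast hm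
  have h1 : (k.choose m : ℝ) ≤ (k : ℝ) ^ m / (m.factorial : ℝ) := Nat.choose_le_pow_div m k
  refine h1.trans ?_
  have h2 : (m : ℝ) ^ m / (m.factorial : ℝ) ≤ Real.exp m := Real.pow_div_factorial_le_exp (m : ℝ) hm0.le m
  have h3 : Real.exp (m : ℝ) ≤ 3 ^ m := by
    have : Real.exp (m : ℝ) = Real.exp 1 ^ m := by
      rw [← Real.exp_nat_mul, mul_one]
    rw [this]
    exact pow_le_pow_left₀ (Real.exp_pos _).le (by linarith [Real.exp_one_lt_d9]) m
  have h4 : (m : ℝ) ^ m ≤ 3 ^ m * (m.factorial : ℝ) := by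
    have hf : (0 : ℝ) < (m.factorial : ℝ) := by exact_mod_cast Nat.factorial_pos m
    rw [div_le_iff₀ hf] at h2
    exact h2.trans (mul_le_mul_of_nonneg_right h3 hf.le)
  have hf : (0 : ℝ) < (m.factorial : ℝ) := by exact_mod_cast Nat.factorial_pos m
  rw [div_pow, div_le_div_iff₀ hf (by positivity), mul_pow]
  calc (k : ℝ) ^ m * (m : ℝ) ^ m ≤ (k : ℝ) ^ m * (3 ^ m * (m.factorial : ℝ)) :=
        mul_le_mul_of_nonneg_left h4 (by positivity)
    _ = 3 ^ m * (k : ℝ) ^ m * (m.factorial : ℝ) := by ring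

open Classical in
private theorem bound_inf (P : Finset (Finset ℕ)) :
    ∃ N0 : ℕ, ∀ F ∈ P, (∃ N, N0 < N ∧ ∀ a ∈ F, (N + a).Prime) →
      {N : ℕ | ∀ a ∈ F, (N + a).Prime}.Infinite := by
  set b : Finset ℕ → ℕ := fun F =>
    if h : ({N : ℕ | ∀ a ∈ F, (N + a).Prime}).Finite then h.bddAbove.choose else 0 with hb
  refine ⟨P.sup b, ?_⟩
  rintro F hF ⟨N, hN, hp⟩ hfin
  have h1 : b F = hfin.bddAbove.choose := by
    rw [hb]
    simp only
    rw [dif_pos hfin]
  have h2 : N ≤ b F := by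
    rw [h1]
    exact hfin.bddAbove.choose_spec hp
  have h3 : b F ≤ P.sup b := Finset.le_sup hF
  omega

open Classical in
/-- double counting -/
private theorem count_sum {I : Type} [Fintype I] [DecidableEq I] (T : Finset ℕ) (μ : ℕ → ℝ)
    (ev : I → ℕ → Prop) (m : ℕ) :
    ∑ F ∈ (univ : Finset I).powersetCard m, ∑ N ∈ T.filter (fun N => ∀ j ∈ F, ev j N), μ N =
      ∑ N ∈ T, μ N * ((((univ : Finset I).filter (fun i => ev i N)).card.choose m : ℕ) : ℝ) := by
  have h1 : ∀ F ∈ (univ : Finset I).powersetCard m, ∑ N ∈ T.filter (fun N => ∀ j ∈ F, ev j N), μ N =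
      ∑ N ∈ T, if (∀ j ∈ F, ev j N) then μ N else 0 := by
    intro F _
    rw [Finset.sum_filter]
  rw [Finset.sum_congr rfl h1, Finset.sum_comm]
  refine Finset.sum_congr rfl fun N _ => ?_
  rw [← Finset.sum_filter, Finset.sum_const, nsmul_eq_mul, mul_comm]
  congr 2
  rw [← Finset.card_powersetCard]
  congr 1
  ext F
  simp only [Finset.mem_filter, Finset.mem_powersetCard, Finset.subset_univ, true_and]
  constructor
  · rintro ⟨h1, h2⟩
    exact ⟨fun j hj => Finset.mem_filter.2 ⟨Finset.mem_univ _, h2 j hj⟩, h1⟩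
  · rintro ⟨h1, h2⟩
    exact ⟨h2, fun j hj => (Finset.mem_filter.1 (h1 hj)).2⟩

open Classical in
theorem t3 : ∃ c : ℝ, 0 < c ∧ ∀ H : Finset ℕ,
    (∀ p : ℕ, p.Prime → ∃ a : ℕ, ∀ h ∈ H, ¬ p ∣ a + h) →
    ∀ m : ℕ, 1 ≤ m → (m : ℝ) ≤ c * Real.log H.card →
    (c / m) ^ m * (H.card.choose m : ℝ) ≤
      ((H.powersetCard m).filter
        (fun F => {N : ℕ | ∀ a ∈ F, (N + a).Prime}.Infinite)).card := by
  refine ⟨1 / 10 ^ 40, by positivity, ?_⟩
  intro H hadm m hm hmc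
  set k : ℕ := H.card with hk
  have hm1 : (1 : ℝ) ≤ (m : ℝ) := by exact_mod_cast hm
  have hlogk : (10 : ℝ) ^ 40 ≤ Real.log k := by
    have h1 : (1 : ℝ) ≤ 1 / 10 ^ 40 * Real.log k := hm1.trans hmc
    rw [one_div, inv_mul_eq_div, le_div_iff₀ (by positivity)] at h1
    linarith
  have hkpos : 0 < k := by
    rcases Nat.eq_zero_or_pos k with h | h
    · exfalso
      rw [h] at hlogk
      simp only [Nat.cast_zero, Real.log_zero] at hlogk
      have : (0 : ℝ) < 10 ^ 40 := by positivity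
      linarith
    · exact h
  have hkr : (0 : ℝ) < (k : ℝ) := by exact_mod_cast hkpos
  set l : ℕ := Nat.log 2 k with hl
  have hl1 : 2 ^ l ≤ k := Nat.pow_log_le_self 2 hkpos.ne'
  have hl2 : k < 2 ^ (l + 1) := Nat.lt_pow_succ_log_self (by norm_num) k
  have hlog : Real.log k ≤ (l : ℝ) + 1 := by
    have h1 : (k : ℝ) ≤ 2 ^ (l + 1) := by exact_mod_cast hl2.le
    have h2 := Real.log_le_log hkr h1
    rw [Real.log_pow] at h2
    push_cast at h2
    have h3 : Real.log 2 ≤ 1 := by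
      have := Real.log_two_lt_d9
      linarith
    have h4 : (0 : ℝ) ≤ (l : ℝ) + 1 := by positivity
    nlinarith
  have hlbig : (10 : ℝ) ^ 40 ≤ (l : ℝ) + 1 := hlogk.trans hlog
  have hl0 : (0 : ℝ) ≤ (l : ℝ) := Nat.cast_nonneg _
  set τ : ℝ := 1 / (10 * k * (l + 1)) with hτ
  have hτ0 : 0 < τ := by rw [hτ]; positivity
  set θ : ℝ := τ * (l + 2) ^ 2 with hθ
  have hθ0 : 0 < θ := by rw [hθ]; positivity
  have hkθ : (k : ℝ) * θ = (l + 2) ^ 2 / (10 * (l + 1)) := by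
    rw [hθ, hτ]
    field_simp
  have hkθ2 : ((l : ℝ) + 1) / 10 ≤ k * θ := by
    rw [hkθ, div_le_div_iff₀ (by positivity) (by positivity)]
    nlinarith
  -- choice of N0
  obtain ⟨N0, hN0⟩ := bound_inf (H.powersetCard m)
  -- the sieve
  have hne : Nonempty {x // x ∈ H} := by
    have : H.Nonempty := Finset.card_pos.1 hkpos
    obtain ⟨x, hx⟩ := this
    exact ⟨⟨x, hx⟩⟩
  have hcardI : Fintype.card {x // x ∈ H} = k := by rw [Fintype.card_coe]
  obtain ⟨T, μ, hT, hμ0, hμ1, hlow, hup⟩ := sieve (I := {x // x ∈ H}) (fun i => (i : ℕ))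
    Subtype.val_injective (by
      intro p hp
      obtain ⟨a, ha⟩ := hadm p hp
      exact ⟨a, fun i => ha i i.2⟩) (fun _ => τ) (fun _ => l) (fun _ => hτ0) (by
      intro i
      have h1 : (2 : ℝ) ^ l ≤ k := by exact_mod_cast hl1
      calc (2 : ℝ) ^ l * τ ≤ k * τ := mul_le_mul_of_nonneg_right h1 hτ0.le
        _ = 1 / (10 * (l + 1)) := by rw [hτ]; field_simp
        _ ≤ 1 / 2 := one_div_le_one_div_of_le (by norm_num) (by linarith)) (by
      rw [Finset.sum_const, Finset.card_univ, hcardI, nsmul_eq_mul, hτ]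
      refine le_of_eq ?_
      field_simp) N0
  -- Paley-Zygmund
  have hpz := pz T μ hμ0 hμ1 (univ : Finset {x // x ∈ H}) (fun i N => (N + (i : ℕ)).Prime) θ hθ0.le
    (by
      rw [Finset.card_univ, hcardI]
      have : (10 : ℝ) ≤ (l : ℝ) + 1 := by
        have : (10 : ℝ) ≤ 10 ^ 40 := by norm_num
        linarith
      linarith) (by
      intro i _
      exact hlow i) (by
      intro i _ j _ hij
      have h1 := hup {i, j} (by simp)
      rw [Finset.prod_const, Finset.card_pair hij] at h1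
      have e1 : T.filter (fun N => ∀ x ∈ ({i, j} : Finset {x // x ∈ H}), (N + (x : ℕ)).Prime) =
          T.filter (fun N => (N + (i : ℕ)).Prime ∧ (N + (j : ℕ)).Prime) := by
        apply Finset.filter_congr
        intro N _
        simp
      rw [e1] at h1
      refine h1.trans (le_of_eq ?_)
      push_cast
      rw [hθ]
      ring)
  rw [Finset.card_univ, hcardI] at hpz
  set x0 : ℝ := (1 / 10 ^ 10) / 2 * (k * θ) with hx0
  have hx0m : (m : ℝ) ≤ x0 := by
    have h1 : (m : ℝ) ≤ 1 / 10 ^ 40 * ((l : ℝ) + 1) :=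
      hmc.trans (mul_le_mul_of_nonneg_left hlog (by positivity))
    have h2 : (1 / 10 ^ 10 : ℝ) / 2 * (((l : ℝ) + 1) / 10) ≤ x0 := by
      rw [hx0]
      exact mul_le_mul_of_nonneg_left hkθ2 (by positivity)
    have h3 : (1 / 10 ^ 40 : ℝ) * ((l : ℝ) + 1) ≤ (1 / 10 ^ 10 : ℝ) / 2 * (((l : ℝ) + 1) / 10) := by
      have : (0 : ℝ) ≤ (l : ℝ) + 1 := by positivity
      nlinarith
    linarith
  have hx00 : 0 ≤ x0 := le_trans (Nat.cast_nonneg _) hx0m
  -- lower bound of the double sum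
  set P : Finset (Finset {x // x ∈ H}) := (univ : Finset {x // x ∈ H}).powersetCard m with hP
  set G : Finset (Finset {x // x ∈ H}) := P.filter (fun F => ∃ N ∈ T, ∀ j ∈ F, (N + (j : ℕ)).Prime) with hG
  have hlower : (1 / 10 ^ 23 : ℝ) * (x0 / m) ^ m ≤
      ∑ F ∈ P, ∑ N ∈ T.filter (fun N => ∀ j ∈ F, (N + (j : ℕ)).Prime), μ N := by
    have hcs : ∑ F ∈ (univ : Finset {x // x ∈ H}).powersetCard m,
        ∑ N ∈ T.filter (fun N => ∀ j ∈ F, (N + (j : ℕ)).Prime), μ N =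
        ∑ N ∈ T, μ N * ((((univ : Finset {x // x ∈ H}).filter
          (fun i : {x // x ∈ H} => (N + (i : ℕ)).Prime)).card.choose m : ℕ) : ℝ) := by
      convert count_sum T μ (fun (i : {x // x ∈ H}) N => (N + (i : ℕ)).Prime) m
    rw [hP, hcs]
    calc (1 / 10 ^ 23 : ℝ) * (x0 / m) ^ m
        ≤ (∑ N ∈ T.filter (fun N => x0 ≤
            ((((univ : Finset {x // x ∈ H}).filter (fun i : {x // x ∈ H} => (N + (i : ℕ)).Prime)).card : ℕ) : ℝ)), μ N) *
              (x0 / m) ^ m := mul_le_mul_of_nonneg_right hpz (by positivity)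
      _ = ∑ N ∈ T.filter (fun N => x0 ≤
            ((((univ : Finset {x // x ∈ H}).filter (fun i : {x // x ∈ H} => (N + (i : ℕ)).Prime)).card : ℕ) : ℝ)), μ N *
              (x0 / m) ^ m := by rw [Finset.sum_mul]
      _ ≤ ∑ N ∈ T.filter (fun N => x0 ≤
            ((((univ : Finset {x // x ∈ H}).filter (fun i : {x // x ∈ H} => (N + (i : ℕ)).Prime)).card : ℕ) : ℝ)), μ N *
              ((((univ : Finset {x // x ∈ H}).filter (fun i : {x // x ∈ H} => (N + (i : ℕ)).Prime)).card.choose m : ℕ) : ℝ) := by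
          refine Finset.sum_le_sum fun N hN => ?_
          rw [Finset.mem_filter] at hN
          exact mul_le_mul_of_nonneg_left (choose_ge' m _ x0 hm hx0m hN.2) (hμ0 N)
      _ ≤ _ := by
          refine Finset.sum_le_sum_of_subset_of_nonneg (Finset.filter_subset _ _) ?_
          intro N _ _
          exact mul_nonneg (hμ0 N) (Nat.cast_nonneg _)
  have hupper : ∑ F ∈ P, ∑ N ∈ T.filter (fun N => ∀ j ∈ F, (N + (j : ℕ)).Prime), μ N ≤
      (G.card : ℝ) * (32 * (m * θ) ^ m) := by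
    have h1 : ∀ F ∈ P, ∑ N ∈ T.filter (fun N => ∀ j ∈ F, (N + (j : ℕ)).Prime), μ N ≤
        if (∃ N ∈ T, ∀ j ∈ F, (N + (j : ℕ)).Prime) then 32 * (m * θ) ^ m else 0 := by
      intro F hF
      rw [hP, Finset.mem_powersetCard] at hF
      by_cases hex : ∃ N ∈ T, ∀ j ∈ F, (N + (j : ℕ)).Prime
      · rw [if_pos hex]
        have h2 := hup F (Finset.card_pos.1 (by omega))
        rw [Finset.prod_const, hF.2] at h2
        exact h2
      · rw [if_neg hex]
        have h3 : T.filter (fun N => ∀ j ∈ F, (N + (j : ℕ)).Prime) = ∅ := by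
          apply Finset.filter_eq_empty_iff.2
          intro N hN hcon
          exact hex ⟨N, hN, hcon⟩
        rw [h3, Finset.sum_empty]
    refine (Finset.sum_le_sum h1).trans (le_of_eq ?_)
    rw [← Finset.sum_filter, Finset.sum_const, nsmul_eq_mul]
  -- G injects
  have hGcard : G.card ≤ ((H.powersetCard m).filter
        (fun F => {N : ℕ | ∀ a ∈ F, (N + a).Prime}.Infinite)).card := by
    refine Finset.card_le_card_of_injOn (fun F => F.map (Function.Embedding.subtype _)) ?_ ?_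
    · intro F hF
      rw [hG, Finset.coe_filter] at hF
      obtain ⟨hF1, N, hNT, hN⟩ := hF
      rw [hP, Finset.mem_powersetCard] at hF1
      have hmem : F.map (Function.Embedding.subtype _) ∈ H.powersetCard m := by
        rw [Finset.mem_powersetCard, Finset.card_map]
        refine ⟨?_, hF1.2⟩
        intro a ha
        rw [Finset.mem_map] at ha
        obtain ⟨y, _, rfl⟩ := ha
        exact y.2
      rw [Finset.mem_coe, Finset.mem_filter]
      refine ⟨hmem, hN0 _ hmem ⟨N, hT N hNT, ?_⟩⟩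
      intro a ha
      rw [Finset.mem_map] at ha
      obtain ⟨y, hy, rfl⟩ := ha
      exact hN y hy
    · intro F _ F' _ h
      exact Finset.map_injective _ h
  -- arithmetic
  have hmθ : 0 < 32 * ((m : ℝ) * θ) ^ m := by positivity
  have h1 : (1 / 10 ^ 23 : ℝ) * (x0 / m) ^ m / (32 * (m * θ) ^ m) ≤ (G.card : ℝ) := by
    rw [div_le_iff₀ hmθ]
    exact hlower.trans hupper
  have h2 : (1 / 10 ^ 23 : ℝ) * (x0 / m) ^ m / (32 * (m * θ) ^ m) =
      (1 / (32 * 10 ^ 23)) * ((k : ℝ) / (2 * 10 ^ 10 * m ^ 2)) ^ m := by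
    have e1 : (x0 / m) = ((k : ℝ) / (2 * 10 ^ 10 * m ^ 2)) * (m * θ) := by
      rw [hx0]
      field_simp
    rw [e1, mul_pow]
    have : ((m : ℝ) * θ) ^ m ≠ 0 := by positivity
    field_simp
  have h3 : (1 / 10 ^ 40 / (m : ℝ)) ^ m * (k.choose m : ℝ) ≤
      (1 / (32 * 10 ^ 23)) * ((k : ℝ) / (2 * 10 ^ 10 * m ^ 2)) ^ m := by
    calc (1 / 10 ^ 40 / (m : ℝ)) ^ m * (k.choose m : ℝ)
        ≤ (1 / 10 ^ 40 / (m : ℝ)) ^ m * (3 * (k : ℝ) / m) ^ m :=
          mul_le_mul_of_nonneg_left (choose_le k m hm) (by positivity)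
      _ = (6 / 10 ^ 30) ^ m * ((k : ℝ) / (2 * 10 ^ 10 * m ^ 2)) ^ m := by
          rw [← mul_pow, ← mul_pow]
          congr 1
          field_simp
          norm_num
      _ ≤ (1 / (32 * 10 ^ 23)) * ((k : ℝ) / (2 * 10 ^ 10 * m ^ 2)) ^ m := by
          refine mul_le_mul_of_nonneg_right ?_ (by positivity)
          have e2 : (6 / 10 ^ 30 : ℝ) ^ m ≤ (6 / 10 ^ 30 : ℝ) ^ 1 :=
            pow_le_pow_of_le_one (by positivity) (by norm_num) hm
          refine e2.trans ?_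
          norm_num
  have h4 : (G.card : ℝ) ≤ (((H.powersetCard m).filter
        (fun F => {N : ℕ | ∀ a ∈ F, (N + a).Prime}.Infinite)).card : ℝ) := by
    exact_mod_cast hGcard
  rw [h2] at h1
  exact (h3.trans h1).trans h4

end Pool.Agent.H21.MT
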