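import Pool.Agent.H21.MT.Psi
import Pool.Agent.H21.MT.GwB

/-!
[H21 MT TY1]  Type I sums.

Proof.  `abel_le` with `a k = χ k` (partial sums `≤ q`, `char_sum_le`; the sum over `Ioc 0 n`) and
`g k = g1 k * g2 k`, `g1 k = gw x (m k)`, `g2 k = (log k)^e (log (m k))^J`.  `g1` is unimodal in `k`
(increasing while `m k ≤ x`, decreasing afterwards) with values in `[0,1]`: total variation `≤ 3`
(`tv_unimodal`).  `g2` is nondecreasing with values in `[0, (3 log x)^{J+e}]` on `k ≤ x^3/m`.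
`∑ |g(k+1) - g k| ≤ sup g2 * TV g1 + sup g1 * TV g2 ≤ 4 (3 log x)^{J+e}`.
So the sum is at most `5 q 3^{J+e} (log x)^{J+e}`.
-/

namespace Pool.Agent.H21.MT

open Finset

lemma ty1_tel (g : ℕ → ℝ) (n : ℕ) (hn : 1 ≤ n) :
    ∑ k ∈ Ioo 0 n, (g (k + 1) - g k) = g n - g 1 := by
  have h : Ioo 0 n = Ico 1 n := by
    ext k
    simp only [mem_Ioo, mem_Ico]
    omega
  rw [h]
  induction n, hn using Nat.le_induction with
  | base => simp
  | succ n hn ih =>
    rw [Finset.sum_Ico_succ_top hn]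
    rw [ih (by ext k; simp only [mem_Ioo, mem_Ico]; omega)]
    ring

theorem type1 (J e : ℕ) : ∃ C : ℝ, 0 < C ∧ ∀ x : ℝ, 3 ≤ x → ∀ m : ℕ, 1 ≤ m → ∀ (q : ℕ) [NeZero q]
    (χ : DirichletCharacter ℂ q), χ ≠ 1 →
    ‖∑ k ∈ Icc 1 (⌊x ^ 3⌋₊ / m), χ (k : ZMod q) *
      (((Real.log k) ^ e * (Real.log ((m * k : ℕ) : ℝ)) ^ J * gw x (m * k) : ℝ) : ℂ)‖ ≤
    C * q * (Real.log x) ^ (J + e) := by
  refine ⟨5 * 3 ^ (J + e), by positivity, ?_⟩
  intro x hx m hm q _ χ hχ
  set n := ⌊x ^ 3⌋₊ / m with hn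
  have hL : 0 < Real.log x := Real.log_pos (by linarith)
  have hx0 : 0 < x := by linarith
  have hm0 : (0 : ℝ) < m := by exact_mod_cast hm
  rcases Nat.eq_zero_or_pos n with h0 | h0
  · rw [h0]
    simp only [zero_lt_one, Finset.Icc_eq_empty_of_lt, Finset.sum_empty, norm_zero]
    positivity
  set G : ℝ := (3 * Real.log x) ^ (J + e) with hG
  have hG0 : 0 ≤ G := by positivity
  set g1 : ℕ → ℝ := fun k => gw x (m * k) with hg1
  set g2 : ℕ → ℝ := fun k => (Real.log k) ^ e * (Real.log ((m * k : ℕ) : ℝ)) ^ J with hg2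
  have hmn : ∀ k, k ≤ n → ((m * k : ℕ) : ℝ) ≤ x ^ 3 := by
    intro k hk
    have h1 : m * k ≤ ⌊x ^ 3⌋₊ := (Nat.mul_le_mul_left m hk).trans (Nat.mul_div_le _ _)
    exact le_trans (by exact_mod_cast h1) (Nat.floor_le (by positivity))
  have hlog3 : Real.log (x ^ 3) = 3 * Real.log x := by
    rw [Real.log_pow]
    norm_num
  have hlm : ∀ k, 1 ≤ k → k ≤ n → 0 ≤ Real.log ((m * k : ℕ) : ℝ) ∧
      Real.log ((m * k : ℕ) : ℝ) ≤ 3 * Real.log x := by
    intro k hk1 hk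
    have h1 : 1 ≤ m * k := Nat.mul_pos hm hk1
    refine ⟨Real.log_nonneg (by exact_mod_cast h1), ?_⟩
    rw [← hlog3]
    exact Real.log_le_log (by exact_mod_cast h1) (hmn k hk)
  have hlk : ∀ k, 1 ≤ k → k ≤ n → 0 ≤ Real.log (k : ℝ) ∧ Real.log (k : ℝ) ≤ 3 * Real.log x := by
    intro k hk1 hk
    refine ⟨Real.log_nonneg (by exact_mod_cast hk1), le_trans ?_ (hlm k hk1 hk).2⟩
    refine Real.log_le_log (by exact_mod_cast hk1) ?_
    exact_mod_cast Nat.le_mul_of_pos_left k hm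
  have hg2n : ∀ k, 1 ≤ k → k ≤ n → 0 ≤ g2 k ∧ g2 k ≤ G := by
    intro k hk1 hk
    have h1 := hlm k hk1 hk
    have h2 := hlk k hk1 hk
    constructor
    · exact mul_nonneg (pow_nonneg h2.1 _) (pow_nonneg h1.1 _)
    · have h3 : (Real.log k) ^ e ≤ (3 * Real.log x) ^ e := pow_le_pow_left₀ h2.1 h2.2 e
      have h4 : (Real.log ((m * k : ℕ) : ℝ)) ^ J ≤ (3 * Real.log x) ^ J :=
        pow_le_pow_left₀ h1.1 h1.2 J
      rw [hG, add_comm, pow_add]
      exact mul_le_mul h3 h4 (pow_nonneg h1.1 _) (by positivity)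
  have hg2m : ∀ k, 1 ≤ k → k < n → g2 k ≤ g2 (k + 1) := by
    intro k hk1 hk
    have h1 := hlm k hk1 hk.le
    have h2 := hlk k hk1 hk.le
    have h1' := hlm (k + 1) (by omega) hk
    have h2' := hlk (k + 1) (by omega) hk
    have h3 : (Real.log k) ^ e ≤ (Real.log ((k + 1 : ℕ) : ℝ)) ^ e := by
      refine pow_le_pow_left₀ h2.1 ?_ e
      refine Real.log_le_log (by exact_mod_cast hk1) ?_
      push_cast
      linarith
    have h4 : (Real.log ((m * k : ℕ) : ℝ)) ^ J ≤ (Real.log ((m * (k + 1) : ℕ) : ℝ)) ^ J := by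
      refine pow_le_pow_left₀ h1.1 ?_ J
      refine Real.log_le_log (by exact_mod_cast Nat.mul_pos hm hk1) ?_
      exact_mod_cast Nat.mul_le_mul_left m (Nat.le_succ k)
    exact mul_le_mul h3 h4 (pow_nonneg h1.1 _) (pow_nonneg h2'.1 _)
  have hg10 : ∀ k, 0 ≤ g1 k := fun k => (gw_pos x (m * k)).le
  have hg11 : ∀ k, g1 k ≤ 1 := fun k => gw_le_one x (m * k)
  have hsq : ∀ a b : ℕ, (Real.log ((a : ℕ) / x)) ^ 2 ≤ (Real.log ((b : ℕ) / x)) ^ 2 →
      gw x b ≤ gw x a := by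
    intro a b h
    unfold gw
    apply Real.exp_le_exp.2
    linarith
  have htv : ∑ k ∈ Ioo 0 n, |g1 (k + 1) - g1 k| ≤ 3 * 1 := by
    refine tv_unimodal g1 0 ⌊x / m⌋₊ n 1 hg10 hg11 ?_ ?_
    · intro k hk0 hk
      have h1 : ((k + 1 : ℕ) : ℝ) ≤ x / m := by
        have := Nat.floor_le (show 0 ≤ x / m by positivity)
        refine le_trans ?_ this
        exact_mod_cast hk
      have h2 : ((m * (k + 1) : ℕ) : ℝ) ≤ x := by
        rw [le_div_iff₀ hm0] at h1
        push_cast at h1 ⊢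
        linarith
      have hk0' : (0 : ℝ) < k := by exact_mod_cast hk0
      have h3 : (0 : ℝ) < ((m * k : ℕ) : ℝ) := by
        push_cast
        positivity
      have h4 : ((m * k : ℕ) : ℝ) ≤ ((m * (k + 1) : ℕ) : ℝ) := by
        exact_mod_cast Nat.mul_le_mul_left m (Nat.le_succ k)
      apply hsq
      have h5 : Real.log (((m * k : ℕ) : ℝ) / x) ≤ Real.log (((m * (k + 1) : ℕ) : ℝ) / x) :=
        Real.log_le_log (by positivity) (by gcongr)
      have h6 : Real.log (((m * (k + 1) : ℕ) : ℝ) / x) ≤ 0 := by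
        apply Real.log_nonpos (by positivity)
        rw [div_le_one hx0]
        exact h2
      nlinarith
    · intro k hk hkn
      have h1 : x / m < (k : ℝ) := by
        have := Nat.lt_floor_add_one (x / m)
        refine lt_of_lt_of_le this ?_
        exact_mod_cast hk
      have h2 : x < ((m * k : ℕ) : ℝ) := by
        rw [div_lt_iff₀ hm0] at h1
        push_cast
        linarith
      have h4 : ((m * k : ℕ) : ℝ) ≤ ((m * (k + 1) : ℕ) : ℝ) := by
        exact_mod_cast Nat.mul_le_mul_left m (Nat.le_succ k)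
      apply hsq
      have h3 : (0 : ℝ) < ((m * k : ℕ) : ℝ) := by linarith
      have h5 : Real.log (((m * k : ℕ) : ℝ) / x) ≤ Real.log (((m * (k + 1) : ℕ) : ℝ) / x) :=
        Real.log_le_log (by positivity) (by gcongr)
      have h6 : 0 ≤ Real.log (((m * k : ℕ) : ℝ) / x) := by
        apply Real.log_nonneg
        rw [one_le_div hx0]
        exact h2.le
      nlinarith
  have hstep : ∀ k ∈ Ioo 0 n, |g2 (k + 1) * g1 (k + 1) - g2 k * g1 k| ≤
      G * |g1 (k + 1) - g1 k| + (g2 (k + 1) - g2 k) := by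
    intro k hk
    rw [mem_Ioo] at hk
    have h1 := hg2n (k + 1) (by omega) (by omega)
    have h2 := hg2m k (by omega) hk.2
    have e1 : g2 (k + 1) * g1 (k + 1) - g2 k * g1 k =
        g2 (k + 1) * (g1 (k + 1) - g1 k) + (g2 (k + 1) - g2 k) * g1 k := by ring
    rw [e1]
    refine (abs_add_le _ _).trans ?_
    rw [abs_mul (g2 (k + 1)) (g1 (k + 1) - g1 k), abs_mul (g2 (k + 1) - g2 k) (g1 k),
      abs_of_nonneg h1.1, abs_of_nonneg (hg10 k), abs_of_nonneg (sub_nonneg.2 h2)]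
    have h3 : g2 (k + 1) * |g1 (k + 1) - g1 k| ≤ G * |g1 (k + 1) - g1 k| :=
      mul_le_mul_of_nonneg_right h1.2 (abs_nonneg _)
    have h4 : (g2 (k + 1) - g2 k) * g1 k ≤ (g2 (k + 1) - g2 k) * 1 :=
      mul_le_mul_of_nonneg_left (hg11 k) (sub_nonneg.2 h2)
    linarith
  have hsum : ∑ k ∈ Ioo 0 n, |g2 (k + 1) * g1 (k + 1) - g2 k * g1 k| ≤ 4 * G := by
    refine (Finset.sum_le_sum hstep).trans ?_
    rw [Finset.sum_add_distrib, ← Finset.mul_sum, ty1_tel g2 n h0]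
    have h1 := (hg2n n h0 le_rfl).2
    have h2 := (hg2n 1 le_rfl h0).1
    have h3 := mul_le_mul_of_nonneg_left htv hG0
    linarith
  have hlast : |g2 n * g1 n| ≤ G := by
    have h1 := hg2n n h0 le_rfl
    rw [abs_of_nonneg (mul_nonneg h1.1 (hg10 n))]
    calc g2 n * g1 n ≤ G * 1 := mul_le_mul h1.2 (hg11 n) (hg10 n) hG0
      _ = G := mul_one G
  have hab := abel_le (fun k => χ (k : ZMod q)) (fun k => g2 k * g1 k) q 0 n
    (fun k _ => char_sum_le χ hχ 0 k) (by positivity) (Nat.zero_le n)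
  have hI : Icc 1 n = Ioc 0 n := by
    ext k
    simp only [mem_Icc, mem_Ioc]
    omega
  rw [hI]
  refine le_trans hab ?_
  have hq0 : (0 : ℝ) ≤ q := by positivity
  calc (q : ℝ) * (|g2 n * g1 n| + ∑ k ∈ Ioo 0 n, |g2 (k + 1) * g1 (k + 1) - g2 k * g1 k|)
      ≤ q * (G + 4 * G) := mul_le_mul_of_nonneg_left (by linarith) hq0
    _ = 5 * 3 ^ (J + e) * q * (Real.log x) ^ (J + e) := by
        rw [hG, mul_pow]
        ring

end Pool.Agent.H21.MT
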